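import Mathlib

/-! Spectral part: diagonal perturbations killed by all spectral idempotents. -/

set_option autoImplicit false

namespace Pool.Agent.Helper801.AMM

open Matrix Finset Polynomial

variable {V : Type} [Fintype V] [DecidableEq V]

/-- all ones matrix -/
def J1 (V : Type) : Matrix V V ℝ := Matrix.of fun _ _ => (1 : ℝ)

/-- spectral decomposition data -/
structure Spec (A : Matrix V V ℝ) (s : Finset ℝ) (E : ℝ → Matrix V V ℝ) : Prop where
  hid : ∀ θ ∈ s, E θ * E θ = E θ
  hor : ∀ θ ∈ s, ∀ θ' ∈ s, θ ≠ θ' → E θ * E θ' = 0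
  hsum : ∑ θ ∈ s, E θ = 1
  hA : A = ∑ θ ∈ s, θ • E θ

variable {A : Matrix V V ℝ} {s : Finset ℝ} {E : ℝ → Matrix V V ℝ}

lemma Spec.A_mul (h : Spec A s E) {θ : ℝ} (hθ : θ ∈ s) : A * E θ = θ • E θ := by
  rw [h.hA, Finset.sum_mul, Finset.sum_eq_single θ]
  · rw [smul_mul_assoc, h.hid θ hθ]
  · intro b hb hne
    rw [smul_mul_assoc, h.hor b hb θ hθ hne, smul_zero]
  · intro hn; exact absurd hθ hn

lemma Spec.mul_A (h : Spec A s E) {θ : ℝ} (hθ : θ ∈ s) : E θ * A = θ • E θ := by
  rw [h.hA, Finset.mul_sum, Finset.sum_eq_single θ]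
  · rw [mul_smul_comm, h.hid θ hθ]
  · intro b hb hne
    rw [mul_smul_comm, h.hor θ hθ b hb (Ne.symm hne), smul_zero]
  · intro hn; exact absurd hθ hn

lemma Spec.pow_mul (h : Spec A s E) {θ : ℝ} (hθ : θ ∈ s) (n : ℕ) :
    A ^ n * E θ = θ ^ n • E θ := by
  induction n with
  | zero => simp
  | succ n ih =>
    rw [pow_succ, mul_assoc, h.A_mul hθ, mul_smul_comm, ih, smul_smul, pow_succ, mul_comm]

lemma Spec.mul_pow (h : Spec A s E) {θ : ℝ} (hθ : θ ∈ s) (n : ℕ) :
    E θ * A ^ n = θ ^ n • E θ := by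
  induction n with
  | zero => simp
  | succ n ih =>
    rw [pow_succ', ← mul_assoc, h.mul_A hθ, smul_mul_assoc, ih, smul_smul, pow_succ']

lemma Spec.aeval_mul (h : Spec A s E) {θ : ℝ} (hθ : θ ∈ s) (p : ℝ[X]) :
    aeval A p * E θ = p.eval θ • E θ := by
  rw [aeval_eq_sum_range, Finset.sum_mul, eval_eq_sum_range, Finset.sum_smul]
  refine Finset.sum_congr rfl fun i _ => ?_
  rw [smul_mul_assoc, h.pow_mul hθ, smul_smul]

lemma Spec.mul_aeval (h : Spec A s E) {θ : ℝ} (hθ : θ ∈ s) (p : ℝ[X]) :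
    E θ * aeval A p = p.eval θ • E θ := by
  rw [aeval_eq_sum_range, Finset.mul_sum, eval_eq_sum_range, Finset.sum_smul]
  refine Finset.sum_congr rfl fun i _ => ?_
  rw [mul_smul_comm, h.mul_pow hθ, smul_smul]

lemma Spec.symm (h : Spec A s E) (hAs : Aᵀ = A) {θ : ℝ} (hθ : θ ∈ s) : (E θ)ᵀ = E θ := by
  have h1 : ∀ t ∈ s, t ≠ θ → (E θ)ᵀ * E t = 0 := by
    intro t ht hne
    have e1 : (E θ)ᵀ * A * E t = t • ((E θ)ᵀ * E t) := by
      rw [mul_assoc, h.A_mul ht, mul_smul_comm]
    have e2 : (E θ)ᵀ * A * E t = θ • ((E θ)ᵀ * E t) := by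
      have : (E θ)ᵀ * A = θ • (E θ)ᵀ := by
        have := congrArg Matrix.transpose (h.A_mul hθ)
        rwa [Matrix.transpose_mul, hAs, Matrix.transpose_smul] at this
      rw [this, smul_mul_assoc]
    have e3 : (t - θ) • ((E θ)ᵀ * E t) = 0 := by
      rw [sub_smul, ← e1, ← e2, sub_self]
    rcases smul_eq_zero.1 e3 with h0 | h0
    · exact absurd (sub_eq_zero.1 h0) hne
    · exact h0
  have h2 : (E θ)ᵀ = (E θ)ᵀ * E θ := by
    calc (E θ)ᵀ = (E θ)ᵀ * ∑ t ∈ s, E t := by rw [h.hsum, mul_one]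
      _ = (E θ)ᵀ * E θ := by
        rw [Finset.mul_sum, Finset.sum_eq_single θ]
        · intro b hb hne; exact h1 b hb hne
        · intro hn; exact absurd hθ hn
  have h3 : E θ = (E θ)ᵀ * E θ := by
    have := congrArg Matrix.transpose h2
    rwa [Matrix.transpose_transpose, Matrix.transpose_mul, Matrix.transpose_transpose] at this
  rw [h2, ← h3]

lemma Spec.key (h : Spec A s E) (hAs : Aᵀ = A) (f : V → ℝ)
    (hf : (∑ θ ∈ s, Matrix.hadamard (E θ) (E θ)) *ᵥ f = 0) :
    ∀ θ ∈ s, E θ * diagonal f * E θ = 0 := by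
  have e1 : ∀ θ ∈ s, ∑ x, ∑ y, ((E θ * diagonal f * E θ) x y) ^ 2
      = ∑ x, f x * ((Matrix.hadamard (E θ) (E θ)) *ᵥ f) x := by
    intro θ hθ
    have hs : (E θ)ᵀ = E θ := h.symm hAs hθ
    set B := E θ * diagonal f * E θ with hB
    have hBT : Bᵀ = B := by
      rw [hB, Matrix.transpose_mul, Matrix.transpose_mul, hs, Matrix.diagonal_transpose,
        mul_assoc]
    have t1 : ∑ x, ∑ y, (B x y) ^ 2 = (B * B).trace := by
      simp only [Matrix.trace, Matrix.diag, Matrix.mul_apply]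
      refine Finset.sum_congr rfl fun x _ => Finset.sum_congr rfl fun y _ => ?_
      have : B y x = B x y := by
        conv_lhs => rw [← hBT]
        rfl
      rw [this, sq]
    have t2 : (B * B).trace = ((E θ * diagonal f) * (E θ * diagonal f)).trace := by
      have : B * B = (E θ * diagonal f) * (E θ * diagonal f) * E θ := by
        rw [hB]
        calc E θ * diagonal f * E θ * (E θ * diagonal f * E θ)
            = E θ * diagonal f * (E θ * E θ) * diagonal f * E θ := by
              simp only [mul_assoc]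
          _ = (E θ * diagonal f) * (E θ * diagonal f) * E θ := by
              rw [h.hid θ hθ]; simp only [mul_assoc]
      rw [this, Matrix.trace_mul_comm]
      congr 1
      calc E θ * (E θ * diagonal f * (E θ * diagonal f))
          = (E θ * E θ) * diagonal f * (E θ * diagonal f) := by simp only [mul_assoc]
        _ = _ := by rw [h.hid θ hθ]
    rw [t1, t2]
    have t3 : ((E θ * diagonal f) * (E θ * diagonal f)).trace
        = ∑ x, ∑ y, (E θ * diagonal f) x y * (E θ * diagonal f) y x := by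
      simp only [Matrix.trace, Matrix.diag]
      exact Finset.sum_congr rfl fun x _ => Matrix.mul_apply
    have t4 : ∀ x y, (E θ * diagonal f) x y = E θ x y * f y := fun x y =>
      Matrix.mul_diagonal _ _ _ _
    rw [t3]
    refine Finset.sum_congr rfl fun x _ => ?_
    have t5 : ((Matrix.hadamard (E θ) (E θ)) *ᵥ f) x = ∑ y, (E θ x y * E θ x y) * f y := rfl
    rw [t5, Finset.mul_sum]
    refine Finset.sum_congr rfl fun y _ => ?_
    have : E θ y x = E θ x y := by
      conv_lhs => rw [← hs]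
      rfl
    rw [t4, t4, this]; ring
  have e2 : ∑ θ ∈ s, ∑ x, ∑ y, ((E θ * diagonal f * E θ) x y) ^ 2 = 0 := by
    rw [Finset.sum_congr rfl e1, Finset.sum_comm]
    have : ∀ x, ∑ θ ∈ s, f x * ((Matrix.hadamard (E θ) (E θ)) *ᵥ f) x = 0 := by
      intro x
      rw [← Finset.mul_sum]
      have := congrFun hf x
      rw [Matrix.sum_mulVec, Finset.sum_apply] at this
      rw [this]; simp
    exact Finset.sum_eq_zero fun x _ => this x
  intro θ hθ
  have e3 := (Finset.sum_eq_zero_iff_of_nonneg (fun θ _ =>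
    Finset.sum_nonneg fun x _ => Finset.sum_nonneg fun y _ => sq_nonneg _)).1 e2 θ hθ
  ext x y
  have e4 := (Finset.sum_eq_zero_iff_of_nonneg (fun x _ =>
    Finset.sum_nonneg fun y _ => sq_nonneg _)).1 e3 x (Finset.mem_univ x)
  have e5 := (Finset.sum_eq_zero_iff_of_nonneg (fun y _ => sq_nonneg _)).1 e4 y
    (Finset.mem_univ y)
  simpa using e5

/-- divided difference of the monomial `X^j` applied to `F` -/
def T (A F : Matrix V V ℝ) : ℕ → Matrix V V ℝ
  | 0 => 0
  | j + 1 => A * T A F j + F * A ^ j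

lemma T_succ' (A F : Matrix V V ℝ) (j : ℕ) : T A F (j + 1) = T A F j * A + A ^ j * F := by
  induction j with
  | zero => simp [T]
  | succ j ih =>
    calc T A F (j + 1 + 1) = A * T A F (j + 1) + F * A ^ (j + 1) := rfl
      _ = A * (T A F j * A + A ^ j * F) + F * A ^ (j + 1) := by rw [ih]
      _ = (A * T A F j + F * A ^ j) * A + A ^ (j + 1) * F := by
        rw [pow_succ A j, mul_add, add_mul, ← mul_assoc, ← mul_assoc, ← mul_assoc,
          ← pow_succ', pow_succ]
        abel
      _ = T A F (j + 1) * A + A ^ (j + 1) * F := rfl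

lemma T_comm (A F : Matrix V V ℝ) (j : ℕ) :
    A * T A F j - T A F j * A = A ^ j * F - F * A ^ j := by
  have h1 : T A F (j + 1) = A * T A F j + F * A ^ j := rfl
  have h2 := T_succ' A F j
  rw [h1] at h2
  rw [sub_eq_sub_iff_add_eq_add]
  rw [h2]; abel

lemma T_diag (h : Spec A s E) {F : Matrix V V ℝ} {θ : ℝ} (hθ : θ ∈ s)
    (hF : E θ * F * E θ = 0) (j : ℕ) : E θ * T A F j * E θ = 0 := by
  induction j with
  | zero => simp [T]
  | succ j ih =>
    have : E θ * T A F (j + 1) * E θ = θ • (E θ * T A F j * E θ) + θ ^ j • (E θ * F * E θ) := by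
      show E θ * (A * T A F j + F * A ^ j) * E θ = _
      rw [mul_add, add_mul, ← mul_assoc, h.mul_A hθ, smul_mul_assoc, smul_mul_assoc,
        ← mul_assoc, mul_assoc (E θ * F), h.pow_mul hθ, mul_smul_comm]
    rw [this, ih, hF]; simp

lemma T_symm (hAs : Aᵀ = A) {F : Matrix V V ℝ} (hFs : Fᵀ = F) (j : ℕ) :
    (T A F j)ᵀ = T A F j := by
  induction j with
  | zero => simp [T]
  | succ j ih =>
    have : (T A F (j + 1))ᵀ = T A F j * A + A ^ j * F := by
      show (A * T A F j + F * A ^ j)ᵀ = _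
      rw [Matrix.transpose_add, Matrix.transpose_mul, Matrix.transpose_mul, ih, hAs, hFs,
        Matrix.transpose_pow, hAs]
    rw [this, ← T_succ']

/-- divided difference of `H` applied to `F` -/
def NN (A F : Matrix V V ℝ) (H : ℝ[X]) : Matrix V V ℝ :=
  ∑ j ∈ range (H.natDegree + 1), H.coeff j • T A F j

lemma NN_comm (A F : Matrix V V ℝ) (H : ℝ[X]) :
    A * NN A F H - NN A F H * A = aeval A H * F - F * aeval A H := by
  rw [aeval_eq_sum_range, NN, Finset.mul_sum, Finset.sum_mul, Finset.sum_mul, Finset.mul_sum,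
    ← Finset.sum_sub_distrib, ← Finset.sum_sub_distrib]
  refine Finset.sum_congr rfl fun j _ => ?_
  rw [mul_smul_comm, smul_mul_assoc, smul_mul_assoc, mul_smul_comm, ← smul_sub, ← smul_sub,
    T_comm]

lemma NN_diag (h : Spec A s E) {F : Matrix V V ℝ} {θ : ℝ} (hθ : θ ∈ s)
    (hF : E θ * F * E θ = 0) (H : ℝ[X]) : E θ * NN A F H * E θ = 0 := by
  rw [NN, Finset.mul_sum, Finset.sum_mul]
  refine Finset.sum_eq_zero fun j _ => ?_
  rw [mul_smul_comm, smul_mul_assoc, T_diag h hθ hF, smul_zero]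

lemma NN_symm (hAs : Aᵀ = A) {F : Matrix V V ℝ} (hFs : Fᵀ = F) (H : ℝ[X]) :
    (NN A F H)ᵀ = NN A F H := by
  rw [NN, Matrix.transpose_sum]
  refine Finset.sum_congr rfl fun j _ => ?_
  rw [Matrix.transpose_smul, T_symm hAs hFs]

/-- The main spectral identity: if `H(A) = J` then `(n - J) N (n - J) = 0`. -/
lemma QNQ (h : Spec A s E) {F : Matrix V V ℝ} (hF : ∀ θ ∈ s, E θ * F * E θ = 0)
    (H : ℝ[X]) (hH : aeval A H = J1 V) :
    ((Fintype.card V : ℝ) • (1 : Matrix V V ℝ) - J1 V) * NN A F H *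
      ((Fintype.card V : ℝ) • (1 : Matrix V V ℝ) - J1 V) = 0 := by
  set n : ℝ := (Fintype.card V : ℝ) with hn
  set Q : Matrix V V ℝ := n • (1 : Matrix V V ℝ) - J1 V with hQ
  set N := NN A F H with hN
  have hJJ : J1 V * J1 V = n • J1 V := by
    ext x y
    simp [J1, Matrix.mul_apply, hn]
  have hEJ : ∀ θ ∈ s, E θ * J1 V = H.eval θ • E θ := by
    intro θ hθ; rw [← hH, h.mul_aeval hθ]
  have hJE : ∀ θ ∈ s, J1 V * E θ = H.eval θ • E θ := by
    intro θ hθ; rw [← hH, h.aeval_mul hθ]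
  have hEQ : ∀ θ ∈ s, E θ * Q = (n - H.eval θ) • E θ := by
    intro θ hθ
    rw [hQ, mul_sub, mul_smul_comm, mul_one, hEJ θ hθ, sub_smul]
  have hQE : ∀ θ ∈ s, Q * E θ = (n - H.eval θ) • E θ := by
    intro θ hθ
    rw [hQ, sub_mul, smul_mul_assoc, one_mul, hJE θ hθ, sub_smul]
  have hz : ∀ θ ∈ s, ((n - H.eval θ) * H.eval θ) • E θ = 0 := by
    intro θ hθ
    have e1 : E θ * (J1 V * J1 V) = n • (E θ * J1 V) := by rw [hJJ, mul_smul_comm]
    rw [← mul_assoc, hEJ θ hθ, smul_mul_assoc, hEJ θ hθ, smul_smul, smul_smul] at e1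
    rw [sub_mul, sub_smul, e1, sub_self]
  have hterm : ∀ r ∈ s, ∀ t ∈ s, E r * (Q * N * Q) * E t = 0 := by
    intro r hr t ht
    have e1 : E r * (Q * N * Q) * E t
        = ((n - H.eval r) * (n - H.eval t)) • (E r * N * E t) := by
      calc E r * (Q * N * Q) * E t = (E r * Q) * N * (Q * E t) := by simp only [mul_assoc]
        _ = _ := by
          rw [hEQ r hr, hQE t ht, smul_mul_assoc, mul_smul_comm, smul_mul_assoc, smul_smul,
            mul_comm]
    rw [e1]
    by_cases hrt : r = t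
    · subst hrt
      rw [hN, NN_diag h hr (hF r hr), smul_zero]
    · have e2 : (r - t) • (E r * N * E t)
          = (H.eval r - H.eval t) • (E r * F * E t) := by
        have c := NN_comm A F H
        rw [← hN, hH] at c
        have c2 : E r * (A * N - N * A) * E t = E r * (J1 V * F - F * J1 V) * E t := by rw [c]
        rw [mul_sub, sub_mul, mul_sub, sub_mul, ← mul_assoc, h.mul_A hr, smul_mul_assoc,
          smul_mul_assoc, ← mul_assoc, mul_assoc (E r * N), h.A_mul ht, mul_smul_comm,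
          ← sub_smul, ← mul_assoc, hEJ r hr, smul_mul_assoc, smul_mul_assoc, ← mul_assoc,
          mul_assoc (E r * F), hJE t ht, mul_smul_comm, ← sub_smul] at c2
        exact c2
      have e3 : (r - t) • (((n - H.eval r) * (n - H.eval t)) • (E r * N * E t)) = 0 := by
        rw [smul_comm, e2, smul_smul]
        have z1 : ((n - H.eval r) * H.eval r) • (E r * F * E t) = 0 := by
          rw [← smul_mul_assoc, ← smul_mul_assoc, hz r hr, zero_mul, zero_mul]
        have z2 : ((n - H.eval t) * H.eval t) • (E r * F * E t) = 0 := by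
          rw [← mul_smul_comm, hz t ht, mul_zero]
        have : ((n - H.eval r) * (n - H.eval t) * (H.eval r - H.eval t)) • (E r * F * E t)
            = (n - H.eval t) • (((n - H.eval r) * H.eval r) • (E r * F * E t))
              - (n - H.eval r) • (((n - H.eval t) * H.eval t) • (E r * F * E t)) := by
          rw [smul_smul, smul_smul, ← sub_smul]
          congr 1; ring
        rw [this, z1, z2]; simp
      rcases smul_eq_zero.1 e3 with h0 | h0
      · exact absurd (sub_eq_zero.1 h0) hrt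
      · exact h0
  calc Q * N * Q = 1 * (Q * N * Q) * 1 := by rw [one_mul, mul_one]
    _ = (∑ r ∈ s, E r) * (Q * N * Q) * (∑ t ∈ s, E t) := by rw [h.hsum]
    _ = ∑ t ∈ s, ∑ r ∈ s, E r * (Q * N * Q) * E t := by
      rw [Finset.sum_mul, Finset.mul_sum]
      refine Finset.sum_congr rfl fun t _ => ?_
      rw [Finset.sum_mul]
    _ = 0 := Finset.sum_eq_zero fun t ht => Finset.sum_eq_zero fun r hr => hterm r hr t ht

/-- Consequence: `N x y = g x + g y`. -/
lemma exists_g (h : Spec A s E) (hAs : Aᵀ = A) [Nonempty V] {F : Matrix V V ℝ} (hFs : Fᵀ = F)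
    (hF : ∀ θ ∈ s, E θ * F * E θ = 0)
    (H : ℝ[X]) (hH : aeval A H = J1 V) :
    ∃ g : V → ℝ, ∀ x y, NN A F H x y = g x + g y := by
  have hq := QNQ h hF H hH
  have hsym := NN_symm hAs hFs H
  set N := NN A F H with hN
  set n : ℝ := (Fintype.card V : ℝ) with hn
  have hn0 : n ≠ 0 := by
    rw [hn]; exact_mod_cast Fintype.card_ne_zero
  have hxy : ∀ x y, N x y = N y x := by
    intro x y
    conv_lhs => rw [← hsym]
    rfl
  refine ⟨fun x => (∑ w, N x w) / n - (∑ u, ∑ w, N u w) / (2 * n ^ 2), fun x y => ?_⟩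
  have e := congrFun (congrFun hq x) y
  have e1 : ((n • (1 : Matrix V V ℝ) - J1 V) * N * (n • (1 : Matrix V V ℝ) - J1 V)) x y
      = n ^ 2 * N x y - n * (∑ w, N x w) - n * (∑ w, N w y) + ∑ u, ∑ w, N u w := by
    have : (n • (1 : Matrix V V ℝ) - J1 V) * N * (n • (1 : Matrix V V ℝ) - J1 V)
        = n ^ 2 • N - n • (N * J1 V) - n • (J1 V * N) + J1 V * N * J1 V := by
      rw [sub_mul, sub_mul, mul_sub, mul_sub, smul_mul_assoc, one_mul, mul_smul_comm, mul_one,
        smul_smul, smul_mul_assoc, mul_smul_comm, mul_one, sq]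
      abel
    rw [this]
    have j1 : (N * J1 V) x y = ∑ w, N x w := by simp [J1, Matrix.mul_apply]
    have j2 : (J1 V * N) x y = ∑ w, N w y := by simp [J1, Matrix.mul_apply]
    have j3 : (J1 V * N * J1 V) x y = ∑ u, ∑ w, N u w := by
      simp only [J1, Matrix.mul_apply, Matrix.of_apply, one_mul, mul_one]
      rw [Finset.sum_comm]
    simp only [Matrix.add_apply, Matrix.sub_apply, Matrix.smul_apply, smul_eq_mul, j1, j2, j3]
  rw [e1, Matrix.zero_apply] at e
  have e2 : ∑ w, N w y = ∑ w, N y w := Finset.sum_congr rfl fun w _ => hxy w y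
  rw [e2] at e
  field_simp
  linarith

end Pool.Agent.Helper801.AMM
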