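import Pool.Agent.Helper801.AMMa

/-! Graph part: distance-regular graphs. -/

set_option autoImplicit false

namespace Pool.Agent.Helper801.AMM

open Matrix Finset Polynomial

variable {V : Type} [Fintype V] [DecidableEq V] (G : SimpleGraph V) [DecidableRel G.Adj]

/-- next vertex on a geodesic -/
lemma exists_next (hc : G.Connected) {u v : V} {n : ℕ} (h : G.dist u v = n + 1) :
    ∃ w, G.Adj u w ∧ G.dist w v = n := by
  obtain ⟨p, hp⟩ := hc.exists_walk_length_eq_dist u v
  rw [h] at hp
  cases p with
  | nil => simp at hp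
  | cons ha q =>
    rename_i w
    refine ⟨w, ha, ?_⟩
    have h1 : G.dist w v ≤ n := by
      have h0 := G.dist_le q
      simp at hp
      omega
    have h2 : G.dist u v ≤ G.dist u w + G.dist w v := hc.dist_triangle
    have h3 : G.dist u w = 1 := SimpleGraph.dist_eq_one_iff_adj.2 ha
    omega

lemma exists_pair (hc : G.Connected) {i : ℕ} (hi : i ≤ G.diam) : ∃ u v, G.dist u v = i := by
  haveI := hc.nonempty
  obtain ⟨u, v, huv⟩ := G.exists_dist_eq_diam
  have key : ∀ (d : ℕ) (u v : V), G.dist u v = d → ∀ i ≤ d, ∃ w, G.dist w v = i := by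
    intro d
    induction d with
    | zero => intro u v h i hi; exact ⟨u, by omega⟩
    | succ d ih =>
      intro u v h i hi
      rcases Nat.lt_or_ge i (d + 1) with h1 | h1
      · obtain ⟨w, _, hw2⟩ := exists_next G hc h
        exact ih w v hw2 i (by omega)
      · exact ⟨u, by omega⟩
  obtain ⟨w, hw⟩ := key _ u v huv i hi
  exact ⟨w, v, hw⟩

lemma adj_apply (u v : V) : G.adjMatrix ℝ u v = if G.dist u v = 1 then 1 else 0 := by
  rw [SimpleGraph.adjMatrix_apply]
  by_cases h : G.Adj u v
  · rw [if_pos h, if_pos (SimpleGraph.dist_eq_one_iff_adj.2 h)]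
  · rw [if_neg h, if_neg (fun h' => h (SimpleGraph.dist_eq_one_iff_adj.1 h'))]

lemma pow_zero_of_lt (hc : G.Connected) :
    ∀ (n : ℕ) (u v : V), n < G.dist u v → (G.adjMatrix ℝ ^ n) u v = 0 := by
  intro n
  induction n with
  | zero =>
    intro u v h
    rw [pow_zero, Matrix.one_apply_ne]
    rintro rfl
    simp at h
  | succ n ih =>
    intro u v h
    rw [pow_succ', Matrix.mul_apply]
    refine Finset.sum_eq_zero fun w _ => ?_
    rw [adj_apply]
    by_cases h1 : G.dist u w = 1
    · have h2 : G.dist u v ≤ G.dist u w + G.dist w v := hc.dist_triangle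
      rw [ih w v (by omega), mul_zero]
    · rw [if_neg h1, zero_mul]

lemma pow_pos_of_eq (hc : G.Connected) {n : ℕ} {u v : V} (h : G.dist u v = n) :
    0 < (G.adjMatrix ℝ ^ n) u v := by
  rw [SimpleGraph.adjMatrix_pow_apply_eq_card_walk]
  obtain ⟨p, hp⟩ := hc.exists_walk_length_eq_dist u v
  have : 0 < Fintype.card { p : G.Walk u v | p.length = n } :=
    Fintype.card_pos_iff.2 ⟨⟨p, by rw [Set.mem_setOf_eq, hp, h]⟩⟩
  exact_mod_cast this

lemma T_local (hc : G.Connected) (f : V → ℝ) :
    ∀ (j : ℕ) (x y : V), j ≤ G.dist x y → T (G.adjMatrix ℝ) (diagonal f) j x y = 0 := by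
  intro j
  induction j with
  | zero => intro x y _; rfl
  | succ j ih =>
    intro x y h
    have e : T (G.adjMatrix ℝ) (diagonal f) (j + 1) x y
        = ∑ w, G.adjMatrix ℝ x w * T (G.adjMatrix ℝ) (diagonal f) j w y
          + f x * (G.adjMatrix ℝ ^ j) x y := by
      show (G.adjMatrix ℝ * T (G.adjMatrix ℝ) (diagonal f) j
        + diagonal f * G.adjMatrix ℝ ^ j) x y = _
      rw [Matrix.add_apply, Matrix.mul_apply, Matrix.diagonal_mul]
    rw [e, pow_zero_of_lt G hc j x y (by omega), mul_zero, add_zero]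
    refine Finset.sum_eq_zero fun w _ => ?_
    rw [adj_apply]
    by_cases h1 : G.dist x w = 1
    · have h2 : G.dist x y ≤ G.dist x w + G.dist w y := hc.dist_triangle
      rw [ih w y (by omega), mul_zero]
    · rw [if_neg h1, zero_mul]

lemma NN_local (hc : G.Connected) (f : V → ℝ) (H : ℝ[X]) {x y : V}
    (h : H.natDegree ≤ G.dist x y) : NN (G.adjMatrix ℝ) (diagonal f) H x y = 0 := by
  rw [NN, Matrix.sum_apply]
  refine Finset.sum_eq_zero fun j hj => ?_
  rw [Matrix.smul_apply, T_local G hc f j x y, smul_zero]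
  have := Finset.mem_range.1 hj
  omega

/-- matrices whose entries depend only on the distance -/
def DistM (M : Matrix V V ℝ) : Prop := ∃ m : ℕ → ℝ, ∀ u v, M u v = m (G.dist u v)

/-- the distance-regularity hypothesis -/
def DR : Prop := ∀ u v u' v' : V, G.dist u v = G.dist u' v' → ∀ j k : ℕ,
        (Finset.univ.filter (fun w => G.dist u w = j ∧ G.dist v w = k)).card =
        (Finset.univ.filter (fun w => G.dist u' w = j ∧ G.dist v' w = k)).card

lemma sum_eq_of_card (g g' : V → ℕ × ℕ)
    (h : ∀ p, (Finset.univ.filter (fun w => g w = p)).card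
      = (Finset.univ.filter (fun w => g' w = p)).card) (φ : ℕ × ℕ → ℝ) :
    ∑ w, φ (g w) = ∑ w, φ (g' w) := by
  classical
  set t : Finset (ℕ × ℕ) := Finset.univ.image g ∪ Finset.univ.image g' with ht
  have h1 : ∀ x ∈ (Finset.univ : Finset V), g x ∈ t := fun x _ =>
    Finset.mem_union_left _ (Finset.mem_image_of_mem _ (Finset.mem_univ x))
  have h2 : ∀ x ∈ (Finset.univ : Finset V), g' x ∈ t := fun x _ =>
    Finset.mem_union_right _ (Finset.mem_image_of_mem _ (Finset.mem_univ x))
  rw [← Finset.sum_fiberwise_of_maps_to h1, ← Finset.sum_fiberwise_of_maps_to h2]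
  refine Finset.sum_congr rfl fun p _ => ?_
  have e1 : ∑ x ∈ Finset.univ.filter (fun w => g w = p), φ (g x)
      = (Finset.univ.filter (fun w => g w = p)).card • φ p := by
    rw [← Finset.sum_const]
    refine Finset.sum_congr rfl fun x hx => ?_
    rw [(Finset.mem_filter.1 hx).2]
  have e2 : ∑ x ∈ Finset.univ.filter (fun w => g' w = p), φ (g' x)
      = (Finset.univ.filter (fun w => g' w = p)).card • φ p := by
    rw [← Finset.sum_const]
    refine Finset.sum_congr rfl fun x hx => ?_
    rw [(Finset.mem_filter.1 hx).2]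
  rw [e1, e2, h p]

lemma DistM.mul (hdr : DR G) {M N : Matrix V V ℝ} (hM : DistM G M) (hN : DistM G N) :
    DistM G (M * N) := by
  classical
  obtain ⟨m, hm⟩ := hM
  obtain ⟨n, hn⟩ := hN
  have key : ∀ u v u' v' : V, G.dist u v = G.dist u' v' → (M * N) u v = (M * N) u' v' := by
    intro u v u' v' h
    rw [Matrix.mul_apply, Matrix.mul_apply]
    have e : ∀ u v, ∑ w, M u w * N w v
        = ∑ w, (fun p : ℕ × ℕ => m p.1 * n p.2) ((fun w => (G.dist u w, G.dist v w)) w) := by
      intro u v
      refine Finset.sum_congr rfl fun w _ => ?_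
      rw [hm, hn, G.dist_comm (u := w) (v := v)]
    rw [e, e]
    refine sum_eq_of_card (fun w => (G.dist u w, G.dist v w))
      (fun w => (G.dist u' w, G.dist v' w)) (fun p => ?_) (fun p => m p.1 * n p.2)
    have h3 := hdr u v u' v' h p.1 p.2
    simpa [Prod.ext_iff] using h3
  refine ⟨fun d => if h : ∃ p : V × V, G.dist p.1 p.2 = d then
    (M * N) h.choose.1 h.choose.2 else 0, fun u v => ?_⟩
  have h : ∃ p : V × V, G.dist p.1 p.2 = G.dist u v := ⟨(u, v), rfl⟩
  show (M * N) u v = if h : ∃ p : V × V, G.dist p.1 p.2 = G.dist u v then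
    (M * N) h.choose.1 h.choose.2 else 0
  rw [dif_pos h]
  exact key _ _ _ _ h.choose_spec.symm

lemma DistM.pow (hc : G.Connected) (hdr : DR G) (n : ℕ) : DistM G (G.adjMatrix ℝ ^ n) := by
  induction n with
  | zero =>
    refine ⟨fun d => if d = 0 then 1 else 0, fun u v => ?_⟩
    rw [pow_zero, Matrix.one_apply]
    by_cases h : u = v
    · subst h; simp
    · show _ = if G.dist u v = 0 then (1 : ℝ) else 0
      rw [if_neg h, if_neg (fun h' => h (hc.dist_eq_zero_iff.1 h'))]
  | succ n ih =>
    rw [pow_succ]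
    exact DistM.mul G hdr ih ⟨fun d => if d = 1 then 1 else 0, fun u v => adj_apply G u v⟩

lemma span (hc : G.Connected) (hdr : DR G) :
    ∀ i ≤ G.diam, ∀ M : Matrix V V ℝ, DistM G M → (∀ u v, i < G.dist u v → M u v = 0) →
      ∃ P : ℝ[X], P.natDegree ≤ i ∧ aeval (G.adjMatrix ℝ) P = M := by
  intro i
  induction i with
  | zero =>
    intro _ M hM hs
    obtain ⟨m, hm⟩ := hM
    refine ⟨C (m 0), by simp, ?_⟩
    rw [aeval_C, Algebra.algebraMap_eq_smul_one]
    ext u v
    by_cases h : u = v
    · subst h; simp [hm]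
    · have : 0 < G.dist u v := hc.pos_dist_of_ne h
      simp [h, hs u v this]
  | succ i ih =>
    intro hi M hM hs
    obtain ⟨x0, y0, h0⟩ := exists_pair G hc hi
    have hα := pow_pos_of_eq G hc h0
    set α := (G.adjMatrix ℝ ^ (i + 1)) x0 y0 with hαd
    obtain ⟨m, hm⟩ := hM
    obtain ⟨a, ha⟩ := DistM.pow G hc hdr (i + 1)
    set c : ℝ := M x0 y0 / α with hcd
    obtain ⟨P, hP1, hP2⟩ := ih (by omega) (M - c • G.adjMatrix ℝ ^ (i + 1))
      ⟨fun d => m d - c * a d, fun u v => by
        rw [Matrix.sub_apply, Matrix.smul_apply, hm, ha, smul_eq_mul]⟩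
      (by
        intro u v huv
        rw [Matrix.sub_apply, Matrix.smul_apply, smul_eq_mul]
        rcases Nat.lt_or_ge (i + 1) (G.dist u v) with h | h
        · rw [hs u v h, pow_zero_of_lt G hc _ _ _ h]; ring
        · have he : G.dist u v = G.dist x0 y0 := by omega
          rw [hm, ha, he, ← hm, ← ha, ← hαd, hcd]
          field_simp
          ring)
    refine ⟨P + C c * X ^ (i + 1), ?_, ?_⟩
    · refine (natDegree_add_le _ _).trans (max_le (by omega) ?_)
      exact natDegree_C_mul_X_pow_le _ _
    · rw [map_add, hP2, map_mul, aeval_C, map_pow, aeval_X, Algebra.algebraMap_eq_smul_one,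
        smul_mul_assoc, one_mul]
      abel

lemma exists_H (hc : G.Connected) (hdr : DR G) :
    ∃ H : ℝ[X], H.natDegree ≤ G.diam ∧ aeval (G.adjMatrix ℝ) H = J1 V := by
  haveI := hc.nonempty
  refine span G hc hdr _ le_rfl (J1 V) ⟨fun _ => 1, fun u v => rfl⟩ ?_
  intro u v h
  have := G.dist_le_diam (SimpleGraph.connected_iff_ediam_ne_top.1 hc) (u := u) (v := v)
  omega

lemma walk_closed {G' : SimpleGraph V} (P : V → Prop) (h : ∀ u v, G'.Adj u v → P u → P v)
    {u v : V} (p : G'.Walk u v) : P u → P v := by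
  induction p with
  | nil => exact id
  | cons ha _ ih => exact fun hu => ih (h _ _ ha hu)

/-- combinatorial part -/
lemma g_zero (hc : G.Connected) (hdr : DR G)
    (hprim : ∀ i : ℕ, 1 ≤ i → i ≤ G.diam →
        (SimpleGraph.fromRel (fun u v : V => G.dist u v = i)).Connected)
    (hcard : 3 ≤ Fintype.card V) (g : V → ℝ)
    (hg : ∀ x y, G.dist x y = G.diam → g x + g y = 0) : ∀ x, g x = 0 := by
  classical
  haveI := hc.nonempty
  have htop := SimpleGraph.connected_iff_ediam_ne_top.1 hc
  have hle : ∀ u v : V, G.dist u v ≤ G.diam := fun u v => G.dist_le_diam htop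
  obtain ⟨x, y, hxy⟩ := G.exists_dist_eq_diam
  have hD : 1 ≤ G.diam := by
    by_contra hcon
    have h0 : G.diam = 0 := by omega
    have : ∀ u v : V, u = v := fun u v => by
      have := hle u v
      rw [h0] at this
      exact hc.dist_eq_zero_iff.1 (by omega)
    have : Fintype.card V ≤ 1 := Fintype.card_le_one_iff.2 this
    omega
  have hxy' : x ≠ y := by
    rintro rfl
    rw [G.dist_self] at hxy
    omega
  -- a vertex with two distinct D-neighbours
  have h2 : ∃ z a b : V, a ≠ b ∧ G.dist z a = G.diam ∧ G.dist z b = G.diam := by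
    by_contra hcon
    push_neg at hcon
    have hcl : ∀ v : V, v = x ∨ v = y := by
      intro v
      obtain ⟨p⟩ := (hprim G.diam hD le_rfl).preconnected x v
      refine walk_closed (fun v => v = x ∨ v = y) ?_ p (Or.inl rfl)
      intro a b hab ha
      have hab' : G.dist a b = G.diam := by
        rw [SimpleGraph.fromRel_adj] at hab
        rcases hab.2 with h | h
        · exact h
        · rw [G.dist_comm]; exact h
      rcases ha with rfl | rfl
      · right
        by_contra hne
        exact hcon a b y hne hab' hxy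
      · left
        by_contra hne
        exact hcon a b x hne hab' (by rw [G.dist_comm]; exact hxy)
    have : (Finset.univ : Finset V) ⊆ {x, y} := by
      intro v _
      rcases hcl v with rfl | rfl <;> simp
    have h3 := Finset.card_le_card this
    rw [Finset.card_univ] at h3
    have h4 : ({x, y} : Finset V).card ≤ 2 := Finset.card_le_two
    omega
  obtain ⟨z, a, b, hab, hza, hzb⟩ := h2
  set i := G.dist a b with hi
  have hi1 : 1 ≤ i := hc.pos_dist_of_ne hab
  have hconst : ∀ u v : V, G.dist u v = i → g v = g u := by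
    intro u v huv
    have h3 := hdr u v a b (by rw [huv, hi]) G.diam G.diam
    have h4 : 0 < (Finset.univ.filter (fun w => G.dist a w = G.diam ∧ G.dist b w = G.diam)).card :=
      Finset.card_pos.2 ⟨z, by
        simp [G.dist_comm (u := a) (v := z), G.dist_comm (u := b) (v := z), hza, hzb]⟩
    rw [← h3] at h4
    obtain ⟨w, hw⟩ := Finset.card_pos.1 h4
    have hw2 := (Finset.mem_filter.1 hw).2
    have e1 := hg u w hw2.1
    have e2 := hg v w hw2.2
    linarith
  have hall : ∀ v : V, g v = g x := by
    intro v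
    obtain ⟨p⟩ := (hprim i hi1 (hle a b)).preconnected x v
    refine walk_closed (fun v => g v = g x) ?_ p rfl
    intro c d hcd hc'
    rw [SimpleGraph.fromRel_adj] at hcd
    have : G.dist c d = i := by
      rcases hcd.2 with h | h
      · exact h
      · rw [G.dist_comm]; exact h
    rw [hconst c d this]; exact hc'
  have e := hg x y hxy
  rw [hall y] at e
  intro v
  rw [hall v]; linarith

end Pool.Agent.Helper801.AMM
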