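import Mathlib

/-!
Groups of order q^3 with q+1 subgroups of order q and a normal subgroup S of order q, as they
arise from skew translation quadrangles of order (q,q).
-/

namespace Pool.Agent.Helper801.ASG

open Finset

/-- `x` is in `A S` -/
def InB {G : Type*} [Group G] (A S : Subgroup G) (x : G) : Prop := ∃ a ∈ A, ∃ z ∈ S, x = a * z

/-- `x` is in `A B` -/
def InP {G : Type*} [Group G] (A B : Subgroup G) (x : G) : Prop := ∃ a ∈ A, ∃ b ∈ B, x = a * b

structure AS (G : Type*) [Group G] (ι : Type*) (q : ℕ) (A : ι → Subgroup G) (S : Subgroup G) :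
    Prop where
  cardG : Nat.card G = q ^ 3
  cardA : ∀ i, Nat.card (A i) = q
  cardS : Nat.card S = q
  cardι : Nat.card ι = q + 1
  hq : 2 ≤ q
  normal : S.Normal
  disj : ∀ i, ∀ a ∈ A i, a ∈ S → a = 1
  /-- every element outside `S` is in exactly one `A i S` -/
  part_ex : ∀ g, g ∉ S → ∃ i, InB (A i) S g
  part_un : ∀ g, g ∉ S → ∀ i j, InB (A i) S g → InB (A j) S g → i = j
  conj : ∀ i g h, InB (A i) S g → InB (A i) S (h * g * h⁻¹)
  f2_ex : ∀ i g, ¬ InB (A i) S g → ∃ j, j ≠ i ∧ InP (A i) (A j) g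
  f2_un : ∀ i g, ¬ InB (A i) S g → ∀ j k, InP (A i) (A j) g → InP (A i) (A k) g → j = k

section basics

variable {G : Type*} [Group G] {ι : Type*} {q : ℕ} {A : ι → Subgroup G}
  {S : Subgroup G}

theorem inB_of_mem_A {A S : Subgroup G} {a : G} (h : a ∈ A) : InB A S a :=
  ⟨a, h, 1, S.one_mem, (mul_one a).symm⟩

theorem inB_of_mem_S {A S : Subgroup G} {z : G} (h : z ∈ S) : InB A S z :=
  ⟨1, A.one_mem, z, h, (one_mul z).symm⟩

theorem inB_iff (hn : S.Normal) {A : Subgroup G} {x : G} : InB A S x ↔ x ∈ A ⊔ S := by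
  rw [← SetLike.mem_coe, Subgroup.mul_normal, Set.mem_mul]
  constructor
  · rintro ⟨a, ha, z, hz, rfl⟩
    exact ⟨a, ha, z, hz, rfl⟩
  · rintro ⟨a, ha, z, hz, rfl⟩
    exact ⟨a, ha, z, hz, rfl⟩

theorem inB_mul (hn : S.Normal) {A : Subgroup G} {x y : G} (hx : InB A S x) (hy : InB A S y) :
    InB A S (x * y) := by
  rw [inB_iff hn] at *
  exact mul_mem hx hy

theorem inB_inv (hn : S.Normal) {A : Subgroup G} {x : G} (hx : InB A S x) :
    InB A S x⁻¹ := by
  rw [inB_iff hn] at *
  exact inv_mem hx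

theorem inB_pow (hn : S.Normal) {A : Subgroup G} {x : G} (hx : InB A S x) (n : ℕ) :
    InB A S (x ^ n) := by
  rw [inB_iff hn] at *
  exact pow_mem hx n

/-- `A i S ∩ A j S = S` -/
theorem AS.inter (h : AS G ι q A S) {i j : ι} (hij : i ≠ j) {x : G} (hi : InB (A i) S x)
    (hj : InB (A j) S x) : x ∈ S := by
  by_contra hx
  exact hij (h.part_un x hx i j hi hj)

theorem AS.finite (h : AS G ι q A S) : Finite G :=
  Nat.finite_of_card_ne_zero (by rw [h.cardG]; have := h.hq; positivity)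

theorem AS.finiteι (h : AS G ι q A S) : Finite ι :=
  Nat.finite_of_card_ne_zero (by rw [h.cardι]; omega)

theorem AS.exists_third (h : AS G ι q A S) (i j : ι) : ∃ k, k ≠ i ∧ k ≠ j := by
  classical
  haveI := h.finiteι
  haveI : Fintype ι := Fintype.ofFinite ι
  by_contra hcon
  push Not at hcon
  have h2 : (univ : Finset ι) ⊆ {i, j} := by
    intro k _
    by_cases hk : k = i
    · simp [hk]
    · simp [hcon k hk]
  have h3 := Finset.card_le_card h2
  have h4 : ({i, j} : Finset ι).card ≤ 2 := Finset.card_le_two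
  have h5 := h.cardι
  rw [Nat.card_eq_fintype_card] at h5
  rw [Finset.card_univ, h5] at h3
  have := h.hq
  omega

/-- `G/S` is abelian -/
theorem AS.comm_mem (h : AS G ι q A S) (x y : G) : x * y * x⁻¹ * y⁻¹ ∈ S := by
  have hn := h.normal
  -- different classes
  have key : ∀ i j x y, i ≠ j → InB (A i) S x → InB (A j) S y → x * y * x⁻¹ * y⁻¹ ∈ S := by
    intro i j x y hij hx hy
    apply h.inter hij
    · have h1 : InB (A i) S (y * x⁻¹ * y⁻¹) := h.conj i _ y (inB_inv hn hx)
      have := inB_mul hn hx h1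
      simpa [mul_assoc] using this
    · have h1 : InB (A j) S (x * y * x⁻¹) := h.conj j _ x hy
      exact inB_mul hn h1 (inB_inv hn hy)
  by_cases hxS : x ∈ S
  · have h1 : y * x⁻¹ * y⁻¹ ∈ S := hn.conj_mem _ (S.inv_mem hxS) y
    have := S.mul_mem hxS h1
    simpa [mul_assoc] using this
  by_cases hyS : y ∈ S
  · exact S.mul_mem (hn.conj_mem _ hyS x) (S.inv_mem hyS)
  obtain ⟨i, hi⟩ := h.part_ex x hxS
  obtain ⟨j, hj⟩ := h.part_ex y hyS
  by_cases hij : i = j
  · subst hij
    obtain ⟨k, hki, _⟩ := h.exists_third i i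
    -- choose an element of A k outside S
    have hAk : ∃ b ∈ A k, b ≠ 1 := by
      by_contra hcon
      push Not at hcon
      have h1 := h.cardA k
      have h2 : A k = ⊥ := by
        rw [Subgroup.eq_bot_iff_forall]
        exact hcon
      rw [h2, Subgroup.card_bot] at h1
      have := h.hq
      omega
    obtain ⟨b, hb, hb1⟩ := hAk
    have hbS : b ∉ S := fun h1 => hb1 (h.disj k b hb h1)
    have hbB : InB (A k) S b := inB_of_mem_A hb
    set y2 := b⁻¹ * y with hy2
    have hy2S : ¬ InB (A i) S y2 := by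
      intro h1
      have h2 : InB (A i) S b := by
        have := inB_mul hn hj (inB_inv hn h1)
        have h3 : y * y2⁻¹ = b := by rw [hy2]; group
        rwa [h3] at this
      exact hbS (h.inter hki hbB h2)
    have hy2S' : y2 ∉ S := fun h1 => hy2S (inB_of_mem_S h1)
    obtain ⟨l, hl⟩ := h.part_ex y2 hy2S'
    have hli : i ≠ l := by
      rintro rfl; exact hy2S hl
    have h1 := key i k x b (Ne.symm hki) hi hbB
    have h2 := key i l x y2 hli hi hl
    have h3 : x * y * x⁻¹ * y⁻¹ = (x * b * x⁻¹ * b⁻¹) * (b * (x * y2 * x⁻¹ * y2⁻¹) * b⁻¹) := by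
      rw [hy2]; group
    rw [h3]
    exact S.mul_mem h1 (hn.conj_mem _ h2 b)
  · exact key i j x y hij hi hj

/-- all elements outside `S` have the same order modulo `S` -/
theorem AS.pow_mem (h : AS G ι q A S) {x y : G} (hx : x ∉ S) {m : ℕ} (hm : x ^ m ∈ S) :
    y ^ m ∈ S := by
  have hn := h.normal
  haveI := hn
  by_cases hy : y ∈ S
  · exact S.pow_mem hy m
  have hmul : ∀ a b : G, (a * b) ^ m ∈ S → a ^ m ∈ S → b ^ m ∈ S := by
    intro a b h1 h2
    have hcomm : ∀ u v : G ⧸ S, u * v = v * u := by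
      intro u v
      obtain ⟨u, rfl⟩ := QuotientGroup.mk_surjective u
      obtain ⟨v, rfl⟩ := QuotientGroup.mk_surjective v
      rw [← QuotientGroup.mk_mul, ← QuotientGroup.mk_mul, QuotientGroup.eq]
      have h5 := h.comm_mem v⁻¹ u⁻¹
      have h6 : (u * v)⁻¹ * (v * u) = v⁻¹ * u⁻¹ * v⁻¹⁻¹ * u⁻¹⁻¹ := by group
      rw [h6]; exact h5
    have h3 : ((a : G ⧸ S) * (b : G ⧸ S)) ^ m = 1 := by
      rw [← QuotientGroup.mk_mul, ← QuotientGroup.mk_pow, QuotientGroup.eq_one_iff]; exact h1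
    have h4 : (a : G ⧸ S) ^ m = 1 := by
      rw [← QuotientGroup.mk_pow, QuotientGroup.eq_one_iff]; exact h2
    have h5 : Commute (a : G ⧸ S) (b : G ⧸ S) := hcomm _ _
    rw [h5.mul_pow, h4, one_mul, ← QuotientGroup.mk_pow, QuotientGroup.eq_one_iff] at h3
    exact h3
  have key : ∀ i j x y, i ≠ j → x ∉ S → y ∉ S → InB (A i) S x → InB (A j) S y → x ^ m ∈ S →
      y ^ m ∈ S := by
    intro i j x y hij hxS hyS hxi hyj hxm
    have hxy : x * y ∉ S := by
      intro h1
      apply hxS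
      refine h.inter hij hxi ?_
      have h2 := inB_mul hn (inB_of_mem_S (A := A j) h1) (inB_inv hn hyj)
      simpa using h2
    obtain ⟨l, hl⟩ := h.part_ex (x * y) hxy
    have hlj : l ≠ j := by
      rintro rfl
      apply hxS
      refine h.inter hij hxi ?_
      have h2 := inB_mul hn hl (inB_inv hn hyj)
      simpa using h2
    -- y^m = (xy)^m mod S
    have h3 : InB (A l) S (y ^ m) := by
      have hq : ((x * y) ^ m)⁻¹ * y ^ m ∈ S := by
        have hcomm : ∀ u v : G ⧸ S, u * v = v * u := by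
          intro u v
          obtain ⟨u, rfl⟩ := QuotientGroup.mk_surjective u
          obtain ⟨v, rfl⟩ := QuotientGroup.mk_surjective v
          rw [← QuotientGroup.mk_mul, ← QuotientGroup.mk_mul, QuotientGroup.eq]
          have h5 := h.comm_mem v⁻¹ u⁻¹
          have h6 : (u * v)⁻¹ * (v * u) = v⁻¹ * u⁻¹ * v⁻¹⁻¹ * u⁻¹⁻¹ := by group
          rw [h6]; exact h5
        rw [← QuotientGroup.eq, QuotientGroup.mk_pow, QuotientGroup.mk_mul, QuotientGroup.mk_pow]
        have h5 : Commute (x : G ⧸ S) (y : G ⧸ S) := hcomm _ _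
        have h4 : (x : G ⧸ S) ^ m = 1 := by
          rw [← QuotientGroup.mk_pow, QuotientGroup.eq_one_iff]; exact hxm
        rw [h5.mul_pow, h4, one_mul]
      have h4 := inB_mul hn (inB_pow hn hl m) (inB_of_mem_S (A := A l) hq)
      simpa using h4
    exact h.inter hlj h3 (inB_pow hn hyj m)
  obtain ⟨i, hi⟩ := h.part_ex x hx
  obtain ⟨j, hj⟩ := h.part_ex y hy
  by_cases hij : i = j
  · subst hij
    obtain ⟨k, hki, _⟩ := h.exists_third i i
    have hAk : ∃ b ∈ A k, b ≠ 1 := by
      by_contra hcon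
      push Not at hcon
      have h1 := h.cardA k
      have h2 : A k = ⊥ := by
        rw [Subgroup.eq_bot_iff_forall]
        exact hcon
      rw [h2, Subgroup.card_bot] at h1
      have := h.hq
      omega
    obtain ⟨b, hb, hb1⟩ := hAk
    have hbS : b ∉ S := fun h1 => hb1 (h.disj k b hb h1)
    have hbB : InB (A k) S b := inB_of_mem_A hb
    have h1 := key i k x b (Ne.symm hki) hx hbS hi hbB hm
    exact key k i b y hki hbS hy hbB hj h1
  · exact key i j x y hij hx hy hi hj hm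

/-- there is a prime `p` dividing `q` with `x^p ∈ S` for all `x`, and `q` is a power of `p` -/
theorem AS.prime (h : AS G ι q A S) {p : ℕ} (hp : p.Prime) (hpq : p ∣ q) (x : G) :
    x ^ p ∈ S := by
  haveI := h.finite
  haveI := h.normal
  haveI := Fact.mk hp
  have hcard : Nat.card (G ⧸ S) = q ^ 2 := by
    have h1 := S.card_eq_card_quotient_mul_card_subgroup
    rw [h.cardG, h.cardS] at h1
    have h2 : 0 < q := by have := h.hq; omega
    have h3 : q ^ 3 = q ^ 2 * q := by ring
    rw [h3] at h1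
    exact (Nat.eq_of_mul_eq_mul_right h2 h1).symm
  have hdvd : p ∣ Nat.card (G ⧸ S) := by
    rw [hcard]
    exact dvd_pow hpq two_ne_zero
  obtain ⟨u, hu⟩ := exists_prime_orderOf_dvd_card' p hdvd
  obtain ⟨v, rfl⟩ := QuotientGroup.mk_surjective u
  have h1 : v ^ p ∈ S := by
    rw [← QuotientGroup.eq_one_iff, QuotientGroup.mk_pow, ← hu, pow_orderOf_eq_one]
  have h2 : v ∉ S := by
    intro h3
    rw [← QuotientGroup.eq_one_iff] at h3
    rw [h3, orderOf_one] at hu
    exact hp.one_lt.ne hu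
  exact h.pow_mem h2 h1

/-- `q` is a power of `p` -/
theorem AS.prime_pow (h : AS G ι q A S) {p : ℕ} (hp : p.Prime) (hpq : p ∣ q) :
    ∃ n, q = p ^ n := by
  haveI := h.finite
  haveI := h.normal
  haveI := Fact.mk hp
  have hpg : IsPGroup p (G ⧸ S) := by
    intro u
    obtain ⟨v, rfl⟩ := QuotientGroup.mk_surjective u
    refine ⟨1, ?_⟩
    rw [pow_one, ← QuotientGroup.mk_pow, QuotientGroup.eq_one_iff]
    exact h.prime hp hpq v
  obtain ⟨n, hn⟩ := hpg.exists_card_eq
  have hcard : Nat.card (G ⧸ S) = q ^ 2 := by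
    have h1 := S.card_eq_card_quotient_mul_card_subgroup
    rw [h.cardG, h.cardS] at h1
    have h2 : 0 < q := by have := h.hq; omega
    have h3 : q ^ 3 = q ^ 2 * q := by ring
    rw [h3] at h1
    exact (Nat.eq_of_mul_eq_mul_right h2 h1).symm
  have h1 : q ∣ p ^ n := by
    rw [← hn, hcard]
    exact dvd_pow_self q two_ne_zero
  obtain ⟨k, _, hk⟩ := (Nat.dvd_prime_pow hp).1 h1
  exact ⟨k, hk⟩

/-- `G` is a `p`-group -/
theorem AS.isPGroup (h : AS G ι q A S) {p : ℕ} (hp : p.Prime) (hpq : p ∣ q) : IsPGroup p G := by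
  haveI := h.finite
  haveI := Fact.mk hp
  obtain ⟨n, hn⟩ := h.prime_pow hp hpq
  apply IsPGroup.of_card (n := 3 * n)
  rw [h.cardG, hn]
  ring

/-- elements of `A i` have order dividing `p` -/
theorem AS.A_pow (h : AS G ι q A S) {p : ℕ} (hp : p.Prime) (hpq : p ∣ q) {i : ι} {a : G}
    (ha : a ∈ A i) : a ^ p = 1 :=
  h.disj i _ ((A i).pow_mem ha p) (h.prime hp hpq a)

/-- `A i` is abelian -/
theorem AS.A_comm (h : AS G ι q A S) {i : ι} {a b : G}
    (ha : a ∈ A i) (hb : b ∈ A i) : a * b = b * a := by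
  have h1 := h.disj i (a * b * a⁻¹ * b⁻¹) (mul_mem (mul_mem (mul_mem ha hb) (inv_mem ha))
    (inv_mem hb)) (h.comm_mem a b)
  calc a * b = (a * b * a⁻¹ * b⁻¹) * (b * a) := by group
    _ = b * a := by rw [h1, one_mul]

end basics

end Pool.Agent.Helper801.ASG
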