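import Pool.Agent.Helper801.ASA

/-!
Character sums on finite groups, and the central kernel for `q` odd.
-/

namespace Pool.Agent.Helper801.ASG

open Finset
open scoped commutatorElement IsMulCommutative

section sums

variable {G : Type*} [Group G] [Fintype G]

open Classical in
/-- elements of a subgroup as a finset -/
noncomputable def el (H : Subgroup G) : Finset G := univ.filter (· ∈ H)

theorem mem_el {H : Subgroup G} {x : G} : x ∈ el H ↔ x ∈ H := by
  classical
  simp [el]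

theorem card_el (H : Subgroup G) : (el H).card = Nat.card H := by
  classical
  rw [Nat.card_eq_fintype_card, Fintype.card_subtype]
  unfold el
  congr

theorem sum_char {R : Type*} [CommRing R] [IsDomain R] (H : Subgroup G) (f : G → R)
    (hf : ∀ a ∈ H, ∀ b ∈ H, f (a * b) = f a * f b) (hne : ∃ b ∈ H, f b ≠ 1) :
    ∑ x ∈ el H, f x = 0 := by
  obtain ⟨b, hb, hb1⟩ := hne
  have h1 : ∑ x ∈ el H, f x = ∑ x ∈ el H, f (b * x) := by
    symm
    apply Finset.sum_nbij' (fun x => b * x) (fun x => b⁻¹ * x)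
    · intro x hx; exact mem_el.2 (mul_mem hb (mem_el.1 hx))
    · intro x hx; exact mem_el.2 (mul_mem (inv_mem hb) (mem_el.1 hx))
    · intro x _; group
    · intro x _; group
    · intro x _; rfl
  have h2 : ∑ x ∈ el H, f (b * x) = f b * ∑ x ∈ el H, f x := by
    rw [Finset.mul_sum]
    apply Finset.sum_congr rfl
    intro x hx
    exact hf b hb x (mem_el.1 hx)
  have h3 : (f b - 1) * ∑ x ∈ el H, f x = 0 := by
    rw [sub_mul, one_mul, ← h2, ← h1, sub_self]
  rcases mul_eq_zero.1 h3 with h4 | h4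
  · exact absurd (sub_eq_zero.1 h4) hb1
  · exact h4

/-- duality for a bimultiplicative pairing -/
theorem pairing {R : Type*} [CommRing R] [IsDomain R] [CharZero R] (M N : Subgroup G)
    (c : G → G → R)
    (h1 : ∀ m ∈ M, ∀ m' ∈ M, ∀ n ∈ N, c (m * m') n = c m n * c m' n)
    (h2 : ∀ m ∈ M, ∀ n ∈ N, ∀ n' ∈ N, c m (n * n') = c m n * c m n') :
    (by classical exact ((el M).filter (fun m => ∀ n ∈ N, c m n = 1)).card) * Nat.card N =
    (by classical exact ((el N).filter (fun n => ∀ m ∈ M, c m n = 1)).card) * Nat.card M := by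
  classical
  have e1 : ∑ m ∈ el M, ∑ n ∈ el N, c m n =
      (((el M).filter (fun m => ∀ n ∈ N, c m n = 1)).card * Nat.card N : ℕ) := by
    rw [← Finset.sum_filter_add_sum_filter_not (el M) (fun m => ∀ n ∈ N, c m n = 1)]
    have h3 : ∀ m ∈ (el M).filter (fun m => ∀ n ∈ N, c m n = 1), ∑ n ∈ el N, c m n =
        (Nat.card N : R) := by
      intro m hm
      rw [Finset.mem_filter] at hm
      rw [Finset.sum_congr rfl (fun n hn => hm.2 n (mem_el.1 hn)), Finset.sum_const, card_el,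
        nsmul_eq_mul, mul_one]
    have h4 : ∀ m ∈ (el M).filter (fun m => ¬ ∀ n ∈ N, c m n = 1), ∑ n ∈ el N, c m n = 0 := by
      intro m hm
      rw [Finset.mem_filter] at hm
      apply sum_char N (c m) (h2 m (mem_el.1 hm.1))
      have := hm.2
      push Not at this
      exact this
    rw [Finset.sum_congr rfl h3, Finset.sum_congr rfl h4, Finset.sum_const, Finset.sum_const_zero,
      add_zero, nsmul_eq_mul]
    push_cast
    rfl
  have e2 : ∑ n ∈ el N, ∑ m ∈ el M, c m n =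
      (((el N).filter (fun n => ∀ m ∈ M, c m n = 1)).card * Nat.card M : ℕ) := by
    rw [← Finset.sum_filter_add_sum_filter_not (el N) (fun n => ∀ m ∈ M, c m n = 1)]
    have h3 : ∀ n ∈ (el N).filter (fun n => ∀ m ∈ M, c m n = 1), ∑ m ∈ el M, c m n =
        (Nat.card M : R) := by
      intro m hm
      rw [Finset.mem_filter] at hm
      rw [Finset.sum_congr rfl (fun n hn => hm.2 n (mem_el.1 hn)), Finset.sum_const, card_el,
        nsmul_eq_mul, mul_one]
    have h4 : ∀ n ∈ (el N).filter (fun n => ¬ ∀ m ∈ M, c m n = 1), ∑ m ∈ el M, c m n = 0 := by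
      intro n hn
      rw [Finset.mem_filter] at hn
      apply sum_char M (fun m => c m n) (fun a ha b hb => h1 a ha b hb n (mem_el.1 hn.1))
      have := hn.2
      push Not at this
      exact this
    rw [Finset.sum_congr rfl h3, Finset.sum_congr rfl h4, Finset.sum_const, Finset.sum_const_zero,
      add_zero, nsmul_eq_mul]
    push_cast
    rfl
  rw [Finset.sum_comm] at e1
  rw [e1] at e2
  exact_mod_cast e2

theorem pairing' {R : Type*} [CommRing R] [IsDomain R] [CharZero R] (M N : Subgroup G)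
    (c : G → G → R)
    (h1 : ∀ m ∈ M, ∀ m' ∈ M, ∀ n ∈ N, c (m * m') n = c m n * c m' n)
    (h2 : ∀ m ∈ M, ∀ n ∈ N, ∀ n' ∈ N, c m (n * n') = c m n * c m n') (U V : Finset G)
    (hU : ∀ x, x ∈ U ↔ x ∈ M ∧ ∀ n ∈ N, c x n = 1) (hV : ∀ x, x ∈ V ↔ x ∈ N ∧ ∀ m ∈ M, c m x = 1) :
    U.card * Nat.card N = V.card * Nat.card M := by
  classical
  have h := pairing M N c h1 h2
  have e1 : (el M).filter (fun m => ∀ n ∈ N, c m n = 1) = U := by
    ext x
    rw [Finset.mem_filter, mem_el, hU]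
  have e2 : (el N).filter (fun n => ∀ m ∈ M, c m n = 1) = V := by
    ext x
    rw [Finset.mem_filter, mem_el, hV]
  rw [← e1, ← e2]
  convert h

end sums

section omega

variable {G : Type*} [Group G] [Finite G]

/-- a nontrivial normal subgroup of a finite nilpotent group has a nontrivial invariant
character -/
theorem exists_omega [Group.IsNilpotent G] (X : Subgroup G) (hn : X.Normal) (hX : X ≠ ⊥) :
    ∃ ω : G → ℂ, (∀ x ∈ X, ∀ y ∈ X, ω (x * y) = ω x * ω y) ∧
      (∀ x ∈ X, ∀ g, ω (g * x * g⁻¹) = ω x) ∧ (∀ x, ω x ≠ 0) ∧ ∃ x ∈ X, ω x ≠ 1 := by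
  classical
  set Y := ⁅X, (⊤ : Subgroup G)⁆ with hY
  have hYX : Y ≤ X := Subgroup.commutator_le_left X ⊤
  have hne : Y ≠ X := by
    intro heq
    have h1 : ∀ n, X ≤ (⊤ : Subgroup G).lowerCentralSeries n := by
      intro n
      induction n with
      | zero => exact le_top
      | succ n ih =>
        have h2 : ⁅X, (⊤ : Subgroup G)⁆ ≤ ⁅(⊤ : Subgroup G).lowerCentralSeries n, (⊤ : Subgroup G)⁆ :=
          Subgroup.commutator_mono ih le_rfl
        calc X = ⁅X, (⊤ : Subgroup G)⁆ := heq.symm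
          _ ≤ _ := h2
    obtain ⟨n, hn'⟩ := Subgroup.nilpotent_iff_lowerCentralSeries.1 (inferInstance : Group.IsNilpotent G)
    apply hX
    rw [eq_bot_iff, ← hn']
    exact h1 n
  haveI hYn : Y.Normal := Subgroup.commutator_normal X ⊤
  obtain ⟨x0, hx0, hx0Y⟩ : ∃ x ∈ X, x ∉ Y := by
    by_contra hcon
    push Not at hcon
    exact hne (le_antisymm hYX hcon)
  have hcen : ∀ x ∈ X, (QuotientGroup.mk x : G ⧸ Y) ∈ Subgroup.center (G ⧸ Y) := by
    intro x hx
    rw [Subgroup.mem_center_iff]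
    intro g
    obtain ⟨g, rfl⟩ := QuotientGroup.mk_surjective g
    rw [← QuotientGroup.mk_mul, ← QuotientGroup.mk_mul, eq_comm, QuotientGroup.eq]
    have h1 : (x * g)⁻¹ * (g * x) = ⁅g⁻¹, x⁻¹⁆ := by
      rw [commutatorElement_def]; group
    rw [h1]
    have h2 : ⁅x⁻¹, g⁻¹⁆ ∈ Y := Subgroup.commutator_mem_commutator (X.inv_mem hx) (Subgroup.mem_top _)
    rw [← commutatorElement_inv]
    exact Y.inv_mem h2
  have hx1 : (⟨QuotientGroup.mk x0, hcen x0 hx0⟩ : Subgroup.center (G ⧸ Y)) ≠ 1 := by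
    intro h1
    apply hx0Y
    rw [← QuotientGroup.eq_one_iff]
    exact congrArg Subtype.val h1
  obtain ⟨φ, hφ⟩ := CommGroup.exists_apply_ne_one_of_hasEnoughRootsOfUnity
    (Subgroup.center (G ⧸ Y)) ℂ hx1
  refine ⟨fun x => if h : (QuotientGroup.mk x : G ⧸ Y) ∈ Subgroup.center (G ⧸ Y) then
    ((φ ⟨QuotientGroup.mk x, h⟩ : ℂˣ) : ℂ) else 1, ?_, ?_, ?_, ?_⟩
  · intro x hx y hy
    simp only [dif_pos (hcen x hx), dif_pos (hcen y hy), dif_pos (hcen (x * y) (mul_mem hx hy))]
    rw [← Units.val_mul, ← map_mul]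
    rfl
  · intro x hx g
    simp only [dif_pos (hcen x hx), dif_pos (hcen (g * x * g⁻¹) (hn.conj_mem x hx g))]
    congr 3
    have h1 := Subgroup.mem_center_iff.1 (hcen x hx) (QuotientGroup.mk g)
    rw [QuotientGroup.mk_mul, QuotientGroup.mk_mul, h1, mul_assoc, ← QuotientGroup.mk_mul,
      mul_inv_cancel, QuotientGroup.mk_one, mul_one]
  · intro x
    by_cases h : (QuotientGroup.mk x : G ⧸ Y) ∈ Subgroup.center (G ⧸ Y)
    · simp only [dif_pos h]; exact Units.ne_zero _
    · simp only [dif_neg h]; exact one_ne_zero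
  · refine ⟨x0, hx0, ?_⟩
    simp only [dif_pos (hcen x0 hx0)]
    intro h1
    apply hφ
    exact Units.ext h1

end omega

section odd

variable {G : Type*} [Group G] {ι : Type*} {q : ℕ} {A : ι → Subgroup G}
  {S : Subgroup G}

theorem AS.A_inter (h : AS G ι q A S) {i j : ι} (hij : i ≠ j) {x : G} (hi : x ∈ A i)
    (hj : x ∈ A j) : x = 1 :=
  h.disj i x hi (h.inter hij (inB_of_mem_A hi) (inB_of_mem_A hj))

/-- for odd `q` each element of `A_i S` outside `S` is conjugate to an element of `A_i` -/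
theorem AS.conj_into (h : AS G ι q A S) (hodd : Odd q) {i : ι} {g : G} (hg : InB (A i) S g)
    (hgS : g ∉ S) : ∃ k, k * g * k⁻¹ ∈ A i := by
  classical
  haveI := h.finite
  haveI := h.finiteι
  haveI : Fintype G := Fintype.ofFinite G
  haveI : Fintype ι := Fintype.ofFinite ι
  have hn := h.normal
  by_contra hcon
  push Not at hcon
  set C : Finset G := univ.filter (fun x => IsConj g x) with hC
  have hmem : ∀ x, x ∈ C ↔ IsConj g x := by
    intro x; simp [hC]
  have hCi : ∀ x ∈ C, InB (A i) S x := by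
    intro x hx
    obtain ⟨c, hc⟩ := isConj_iff.1 ((hmem x).1 hx)
    rw [← hc]
    exact h.conj i g c hg
  have hCS : ∀ x ∈ C, x ∉ S := by
    intro x hx hxS
    obtain ⟨c, hc⟩ := isConj_iff.1 ((hmem x).1 hx)
    apply hgS
    have h1 := hn.conj_mem x hxS c⁻¹
    have h2 : c⁻¹ * x * c⁻¹⁻¹ = g := by rw [← hc]; group
    rwa [h2] at h1
  have hCA : ∀ x ∈ C, x ∉ A i := by
    intro x hx hxA
    obtain ⟨c, hc⟩ := isConj_iff.1 ((hmem x).1 hx)
    apply hcon c
    rw [hc]; exact hxA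
  have hCc : ∀ x ∈ C, ∀ c, c * x * c⁻¹ ∈ C := by
    intro x hx c
    rw [hmem] at hx ⊢
    exact hx.trans (isConj_iff.2 ⟨c, rfl⟩)
  have hfac : ∀ x : G, ∀ j : ι, ∃ (l : ι) (a b : G), x ∈ C → j ≠ i →
      (l ≠ j ∧ l ≠ i ∧ a ∈ A j ∧ b ∈ A l ∧ x = a * b) := by
    intro x j
    by_cases hx : x ∈ C
    swap
    · exact ⟨i, 1, 1, fun h1 => absurd h1 hx⟩
    by_cases hj : j = i
    · exact ⟨i, 1, 1, fun _ h1 => absurd hj h1⟩
    have h1 : ¬ InB (A j) S x := fun h2 => hCS x hx (h.inter hj h2 (hCi x hx))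
    obtain ⟨l, hl, a, ha, b, hb, hab⟩ := h.f2_ex j x h1
    refine ⟨l, a, b, fun _ _ => ⟨hl, ?_, ha, hb, hab⟩⟩
    rintro rfl
    have h2 : InB (A l) S a := by
      have := inB_mul hn (hCi x hx) (inB_inv hn (inB_of_mem_A (S := S) hb))
      rw [hab] at this
      simpa using this
    have h3 : a ∈ S := h.inter hj (inB_of_mem_A ha) h2
    have h4 := h.disj j a ha h3
    rw [h4, one_mul] at hab
    exact hCA x hx (hab ▸ hb)
  choose L a b hfac using hfac
  have hx' : ∀ x ∈ C, ∀ j, j ≠ i → b x j * a x j ∈ C := by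
    intro x hx j hj
    obtain ⟨_, _, _, _, h1⟩ := hfac x j hx hj
    have h2 : ∀ u v y : G, y = u * v → v * u = u⁻¹ * y * u⁻¹⁻¹ := by
      rintro u v y rfl
      group
    rw [h2 _ _ _ h1]
    exact hCc x hx _
  have hsum : ∑ _p ∈ C ×ˢ (univ.erase i), (1 : ZMod 2) = 0 := by
    apply Finset.sum_involution (fun p _ => (b p.1 p.2 * a p.1 p.2, L p.1 p.2))
    · intro p hp; decide
    · intro p hp _ heq
      rw [Finset.mem_product, Finset.mem_erase] at hp
      obtain ⟨h1, _⟩ := hfac p.1 p.2 hp.1 hp.2.1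
      exact h1 (congrArg Prod.snd heq)
    · intro p hp
      rw [Finset.mem_product, Finset.mem_erase] at hp ⊢
      obtain ⟨h1, h2, _⟩ := hfac p.1 p.2 hp.1 hp.2.1
      exact ⟨hx' p.1 hp.1 p.2 hp.2.1, h2, mem_univ _⟩
    · intro p hp
      rw [Finset.mem_product, Finset.mem_erase] at hp
      obtain ⟨x, j⟩ := p
      obtain ⟨hx, hj, _⟩ := hp
      simp only at hx hj
      obtain ⟨h1, h2, h3, h4, h5⟩ := hfac x j hx hj
      obtain ⟨k1, k2, k3, k4, k5⟩ := hfac (b x j * a x j) (L x j) (hx' x hx j hj) h2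
      have hnB : ¬ InB (A (L x j)) S (b x j * a x j) := fun h6 =>
        hCS _ (hx' x hx j hj) (h.inter h2 h6 (hCi _ (hx' x hx j hj)))
      have hL : L (b x j * a x j) (L x j) = j :=
        h.f2_un (L x j) _ hnB _ _ ⟨_, k3, _, k4, k5⟩ ⟨_, h4, _, h3, rfl⟩
      rw [hL] at k4
      have h7 : (b x j)⁻¹ * a (b x j * a x j) (L x j) = a x j * (b (b x j * a x j) (L x j))⁻¹ := by
        have h8 : a (b x j * a x j) (L x j) = b x j * a x j * (b (b x j * a x j) (L x j))⁻¹ := by
          rw [eq_mul_inv_iff_mul_eq]; exact k5.symm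
        rw [h8]; group
      have h9 : (b x j)⁻¹ * a (b x j * a x j) (L x j) = 1 := by
        apply h.A_inter h1 (mul_mem (inv_mem h4) k3)
        rw [h7]
        exact mul_mem h3 (inv_mem k4)
      have h10 : a (b x j * a x j) (L x j) = b x j := by
        rw [inv_mul_eq_one] at h9; exact h9.symm
      have h11 : b (b x j * a x j) (L x j) = a x j := by
        rw [h9, eq_comm, mul_inv_eq_one] at h7; exact h7.symm
      simp only [Prod.mk.injEq]
      refine ⟨?_, hL⟩
      rw [h10, h11]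
      exact h5.symm
  have hcard : Odd (C ×ˢ (univ.erase i)).card := by
    rw [Finset.card_product, Finset.card_erase_of_mem (mem_univ _), Finset.card_univ,
      ← Nat.card_eq_fintype_card, h.cardι, Nat.add_sub_cancel]
    refine Odd.mul ?_ hodd
    have h1 : C.card = Nat.card (MulAction.orbit (ConjAct G) g) := by
      rw [Nat.card_eq_fintype_card, ← Set.toFinset_card]
      congr 1
      ext x
      rw [hmem, Set.mem_toFinset, ConjAct.mem_orbit_conjAct]
      exact ⟨IsConj.symm, IsConj.symm⟩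
    have h2 : Nat.card (MulAction.orbit (ConjAct G) g) ∣ Nat.card (ConjAct G) := by
      rw [Nat.card_eq_fintype_card, Nat.card_eq_fintype_card,
        ← MulAction.card_orbit_mul_card_stabilizer_eq_card_group (ConjAct G) g]
      exact Dvd.intro _ rfl
    have h3 : Nat.card (ConjAct G) = q ^ 3 := h.cardG
    rw [h3, ← h1] at h2
    exact Odd.of_dvd_nat (hodd.pow) h2
  rw [Finset.sum_const, nsmul_eq_mul, mul_one, ZMod.natCast_eq_zero_iff] at hsum
  exact absurd (even_iff_two_dvd.2 hsum) (Nat.not_even_iff_odd.2 hcard)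

/-- all elements of `hS` are conjugate to `h`, for `h ∉ S` -/
theorem AS.coset_conj (h : AS G ι q A S) (hodd : Odd q) {g z : G} (hgS : g ∉ S) (hz : z ∈ S) :
    ∃ k, z = g⁻¹ * k * g * k⁻¹ := by
  have hn := h.normal
  obtain ⟨i, hi⟩ := h.part_ex g hgS
  have hgz : g * z ∉ S := fun h1 => hgS (by
    have := mul_mem h1 (inv_mem hz)
    simpa using this)
  have hiz : InB (A i) S (g * z) := inB_mul hn hi (inB_of_mem_S hz)
  obtain ⟨k1, hk1⟩ := h.conj_into hodd hi hgS
  obtain ⟨k2, hk2⟩ := h.conj_into hodd hiz hgz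
  have h1 : k1 * g * k1⁻¹ = k2 * (g * z) * k2⁻¹ := by
    have h2 : (k1 * g * k1⁻¹)⁻¹ * (k2 * (g * z) * k2⁻¹) ∈ S := by
      have e1 : (k1 * g * k1⁻¹)⁻¹ * (k2 * (g * z) * k2⁻¹) =
          (k1 * (g⁻¹ * (k1⁻¹ * k2) * g⁻¹⁻¹ * (k1⁻¹ * k2)⁻¹) * k1⁻¹) * (k2 * z * k2⁻¹) := by
        group
      rw [e1]
      exact mul_mem (hn.conj_mem _ (h.comm_mem _ _) _) (hn.conj_mem _ hz _)
    have h3 := h.disj i _ (mul_mem (inv_mem hk1) hk2) h2
    rwa [inv_mul_eq_one] at h3
  refine ⟨k2⁻¹ * k1, ?_⟩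
  have h4 : g * z = (k2⁻¹ * k1) * g * (k2⁻¹ * k1)⁻¹ := by
    have : g * z = k2⁻¹ * (k2 * (g * z) * k2⁻¹) * k2 := by group
    rw [this, ← h1]; group
  have h5 : z = g⁻¹ * (g * z) := by group
  rw [h5]
  conv_lhs => rw [h4]
  group

end odd

end Pool.Agent.Helper801.ASG
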