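import Pool.Agent.Helper801.ASB

/-!
For `q` odd the kernel `S` is central.
-/

namespace Pool.Agent.Helper801.ASG

open Finset
open scoped commutatorElement

section odd

variable {G : Type*} [Group G] {ι : Type*} {q : ℕ} {A : ι → Subgroup G}
  {S : Subgroup G}

theorem AS.nilpotent (h : AS G ι q A S) : Group.IsNilpotent G := by
  haveI := h.finite
  obtain ⟨p, hp, hpq⟩ := Nat.exists_prime_and_dvd (n := q) (by have := h.hq; omega)
  haveI : Fact p.Prime := ⟨hp⟩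
  exact (h.isPGroup hp hpq).isNilpotent

theorem AS.central_odd (h : AS G ι q A S) (hodd : Odd q) {z g : G} (hz : z ∈ S) :
    z * g = g * z := by
  classical
  haveI := h.finite
  haveI : Fintype G := Fintype.ofFinite G
  have hn := h.normal
  haveI := h.nilpotent
  by_contra hne
  set X := ⁅S, (⊤ : Subgroup G)⁆ with hXdef
  have hXn : X.Normal := Subgroup.commutator_normal S ⊤
  have hcX : ∀ z ∈ S, ∀ g, z * g * z⁻¹ * g⁻¹ ∈ X := fun z hz g =>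
    Subgroup.commutator_mem_commutator hz (Subgroup.mem_top g)
  have hX : X ≠ ⊥ := by
    intro h1
    have h2 := hcX z hz g
    rw [h1, Subgroup.mem_bot] at h2
    apply hne
    calc z * g = (z * g * z⁻¹ * g⁻¹) * (g * z) := by group
      _ = g * z := by rw [h2, one_mul]
  have hXS : X ≤ S := Subgroup.commutator_le_left S ⊤
  obtain ⟨ω, ω1, ω2, ω0, x0, hx0, hx01⟩ := exists_omega X hXn hX
  have hω1 : ω 1 = 1 := by
    have h1 := ω1 1 X.one_mem 1 X.one_mem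
    rw [mul_one] at h1
    have h2 : ω 1 * (ω 1 - 1) = 0 := by rw [mul_sub, mul_one, ← h1, sub_self]
    rcases mul_eq_zero.1 h2 with h3 | h3
    · exact absurd h3 (ω0 1)
    · exact sub_eq_zero.1 h3
  set c : G → G → ℂ := fun z g => ω (z * g * z⁻¹ * g⁻¹) with hc
  have c1 : ∀ z ∈ S, ∀ z' ∈ S, ∀ g, c (z * z') g = c z g * c z' g := by
    intro z hz z' hz' g
    have e1 : z * z' * g * (z * z')⁻¹ * g⁻¹ =
        (z * (z' * g * z'⁻¹ * g⁻¹) * z⁻¹) * (z * g * z⁻¹ * g⁻¹) := by group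
    simp only [hc]
    rw [e1, ω1 _ (hXn.conj_mem _ (hcX z' hz' g) z) _ (hcX z hz g), ω2 _ (hcX z' hz' g), mul_comm]
  have c2 : ∀ z ∈ S, ∀ g g', c z (g * g') = c z g * c z g' := by
    intro z hz g g'
    have e1 : z * (g * g') * z⁻¹ * (g * g')⁻¹ =
        (z * g * z⁻¹ * g⁻¹) * (g * (z * g' * z⁻¹ * g'⁻¹) * g⁻¹) := by group
    simp only [hc]
    rw [e1, ω1 _ (hcX z hz g) _ (hXn.conj_mem _ (hcX z hz g') g), ω2 _ (hcX z hz g')]
  have c3 : ∀ x ∈ X, ∀ g, c x g = 1 := by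
    intro x hx g
    have e1 : x * g * x⁻¹ * g⁻¹ = x * (g * x⁻¹ * g⁻¹) := by group
    simp only [hc]
    rw [e1, ω1 _ hx _ (hXn.conj_mem _ (inv_mem hx) g), ω2 _ (inv_mem hx), ← ω1 _ hx _ (inv_mem hx),
      mul_inv_cancel, hω1]
  have c0 : ∀ z g, c z g ≠ 0 := fun z g => ω0 _
  have c10 : ∀ z ∈ S, c z 1 = 1 := by
    intro z hz
    simp only [hc]
    simp [hω1]
  have c01 : ∀ g, c 1 g = 1 := by
    intro g
    simp only [hc]
    simp [hω1]
  have cinv : ∀ z ∈ S, ∀ g, c z g⁻¹ * c z g = 1 := by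
    intro z hz g
    rw [← c2 z hz, inv_mul_cancel, c10 z hz]
  have cinv' : ∀ z ∈ S, ∀ g, c z⁻¹ g * c z g = 1 := by
    intro z hz g
    rw [← c1 _ (inv_mem hz) _ hz, inv_mul_cancel, c01]
  have cinv2 : ∀ z ∈ S, ∀ g, c z⁻¹ g⁻¹ = c z g := by
    intro z hz g
    have h1 := cinv z hz g
    have h2 := cinv' z hz g⁻¹
    have h3 : c z⁻¹ g⁻¹ * c z g⁻¹ * c z g = c z g := by rw [h2, one_mul]
    rw [mul_assoc, h1, mul_one] at h3
    exact h3
  -- Hall-Witt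
  have hHW : ∀ x y z, c (x⁻¹ * y * x⁻¹⁻¹ * y⁻¹) z * c (y⁻¹ * z * y⁻¹⁻¹ * z⁻¹) x *
      c (z⁻¹ * x * z⁻¹⁻¹ * x⁻¹) y = 1 := by
    intro x y z
    set u1 := x⁻¹ * y * x⁻¹⁻¹ * y⁻¹ with hu1
    set u2 := y⁻¹ * z * y⁻¹⁻¹ * z⁻¹ with hu2
    set u3 := z⁻¹ * x * z⁻¹⁻¹ * x⁻¹ with hu3
    have hu1S : u1 ∈ S := h.comm_mem _ _
    have hu2S : u2 ∈ S := h.comm_mem _ _
    have hu3S : u3 ∈ S := h.comm_mem _ _
    rw [← cinv2 u1 hu1S, ← cinv2 u2 hu2S, ← cinv2 u3 hu3S]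
    have m1 : u1⁻¹ * z⁻¹ * u1⁻¹⁻¹ * z⁻¹⁻¹ ∈ X := hcX _ (inv_mem hu1S) _
    have m2 : u2⁻¹ * x⁻¹ * u2⁻¹⁻¹ * x⁻¹⁻¹ ∈ X := hcX _ (inv_mem hu2S) _
    have m3 : u3⁻¹ * y⁻¹ * u3⁻¹⁻¹ * y⁻¹⁻¹ ∈ X := hcX _ (inv_mem hu3S) _
    have key : (y⁻¹ * (u1⁻¹ * z⁻¹ * u1⁻¹⁻¹ * z⁻¹⁻¹) * y⁻¹⁻¹) *
        (z⁻¹ * (u2⁻¹ * x⁻¹ * u2⁻¹⁻¹ * x⁻¹⁻¹) * z⁻¹⁻¹) *
        (x⁻¹ * (u3⁻¹ * y⁻¹ * u3⁻¹⁻¹ * y⁻¹⁻¹) * x⁻¹⁻¹) = 1 := by
      rw [hu1, hu2, hu3]
      group
    have k1 := ω1 _ (mul_mem (hXn.conj_mem _ m1 y⁻¹) (hXn.conj_mem _ m2 z⁻¹)) _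
      (hXn.conj_mem _ m3 x⁻¹)
    rw [key, hω1, ω1 _ (hXn.conj_mem _ m1 y⁻¹) _ (hXn.conj_mem _ m2 z⁻¹), ω2 _ m1, ω2 _ m2,
      ω2 _ m3] at k1
    exact k1.symm
  -- nontrivial value
  obtain ⟨z1, hz1, g1, hzg⟩ : ∃ z1 ∈ S, ∃ g1, c z1 g1 ≠ 1 := by
    by_contra hcon
    push Not at hcon
    let W : Subgroup G :=
      { carrier := {x | x ∈ X ∧ ω x = 1}
        mul_mem' := by
          rintro a b ⟨ha, ha1⟩ ⟨hb, hb1⟩
          exact ⟨mul_mem ha hb, by rw [ω1 a ha b hb, ha1, hb1, mul_one]⟩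
        one_mem' := ⟨X.one_mem, hω1⟩
        inv_mem' := by
          rintro a ⟨ha, ha1⟩
          refine ⟨inv_mem ha, ?_⟩
          have h1 := ω1 a ha _ (inv_mem ha)
          rw [mul_inv_cancel, hω1, ha1, one_mul] at h1
          exact h1.symm }
    have hXW : X ≤ W := by
      rw [hXdef, Subgroup.commutator_le]
      intro a ha b _
      exact ⟨hcX a ha b, hcon a ha b⟩
    exact hx01 (hXW hx0).2
  -- the centralizer
  let C : Subgroup G :=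
    { carrier := {g | ∀ z ∈ S, c z g = 1}
      mul_mem' := by
        intro a b ha hb z hz
        rw [c2 z hz, ha z hz, hb z hz, mul_one]
      one_mem' := c10
      inv_mem' := by
        intro a ha z hz
        have h1 := cinv z hz a
        rw [ha z hz, mul_one] at h1
        exact h1 }
  have hCmem : ∀ g, g ∈ C ↔ ∀ z ∈ S, c z g = 1 := fun g => Iff.rfl
  have P1 := pairing S ⊤ c (fun m hm m' hm' n _ => c1 m hm m' hm' n)
    (fun m hm n _ n' _ => c2 m hm n n')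
  have hcardC : (Finset.filter (fun n => ∀ m ∈ S, c m n = 1) (el (⊤ : Subgroup G))).card
      = Nat.card C := by
    rw [← card_el]
    congr 1
    ext x
    rw [Finset.mem_filter, mem_el, mem_el, hCmem]
    exact ⟨fun h => h.2, fun h => ⟨Subgroup.mem_top _, h⟩⟩
  have hcardZ : 2 ≤ (Finset.filter (fun m => ∀ n ∈ (⊤ : Subgroup G), c m n = 1) (el S)).card := by
    have h1 : (el X) ⊆ Finset.filter (fun m => ∀ n ∈ (⊤ : Subgroup G), c m n = 1) (el S) := by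
      intro x hx
      rw [mem_el] at hx
      rw [Finset.mem_filter, mem_el]
      exact ⟨hXS hx, fun n _ => c3 x hx n⟩
    have h2 := Finset.card_le_card h1
    rw [card_el] at h2
    have h3 : 1 < Nat.card X := by
      rw [Subgroup.one_lt_card_iff_ne_bot]; exact hX
    omega
  rw [hcardC, Subgroup.card_top, h.cardG, h.cardS] at P1
  -- λ
  set lam : G → ℂ := fun z => c z g1 with hlam
  have l1 : ∀ z ∈ S, ∀ z' ∈ S, lam (z * z') = lam z * lam z' := fun z hz z' hz' =>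
    c1 z hz z' hz' g1
  have l2 : ∀ z ∈ S, ∀ k, lam (k * z * k⁻¹) = lam z := by
    intro z hz k
    have e2 : k * z * k⁻¹ = (z * k * z⁻¹ * k⁻¹)⁻¹ * z := by group
    have h1 : (z * k * z⁻¹ * k⁻¹)⁻¹ ∈ X := inv_mem (hcX z hz k)
    rw [e2, l1 _ (hXS h1) _ hz]
    simp only [hlam]
    rw [c3 _ h1, one_mul]
  have P2 := pairing C ⊤ (fun g k => lam (g * k * g⁻¹ * k⁻¹))
    (by
      intro g _ g' _ k _
      have e1 : g * g' * k * (g * g')⁻¹ * k⁻¹ =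
        (g * (g' * k * g'⁻¹ * k⁻¹) * g⁻¹) * (g * k * g⁻¹ * k⁻¹) := by group
      rw [e1, l1 _ (hn.conj_mem _ (h.comm_mem _ _) _) _ (h.comm_mem _ _), l2 _ (h.comm_mem _ _),
        mul_comm])
    (by
      intro g _ k _ k' _
      have e1 : g * (k * k') * g⁻¹ * (k * k')⁻¹ =
        (g * k * g⁻¹ * k⁻¹) * (k * (g * k' * g⁻¹ * k'⁻¹) * k⁻¹) := by group
      rw [e1, l1 _ (h.comm_mem _ _) _ (hn.conj_mem _ (h.comm_mem _ _) _), l2 _ (h.comm_mem _ _)])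
  rw [Subgroup.card_top, h.cardG] at P2
  have hA : (Finset.filter (fun m => ∀ n ∈ (⊤ : Subgroup G), lam (m * n * m⁻¹ * n⁻¹) = 1)
      (el C)).card ≤ q := by
    rw [← h.cardS, ← card_el]
    apply Finset.card_le_card
    intro x hx
    rw [Finset.mem_filter] at hx
    rw [mem_el]
    by_contra hxS
    have hxS' : x⁻¹ ∉ S := fun h1 => hxS (by simpa using inv_mem h1)
    obtain ⟨k, hk⟩ := h.coset_conj hodd hxS' hz1
    have h1 := hx.2 k (Subgroup.mem_top k)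
    rw [inv_inv] at hk
    rw [← hk] at h1
    exact hzg h1
  have hB : Nat.card C ≤ (Finset.filter (fun n => ∀ m ∈ C, lam (m * n * m⁻¹ * n⁻¹) = 1)
      (el (⊤ : Subgroup G))).card := by
    rw [← card_el]
    apply Finset.card_le_card
    intro k hk
    rw [mem_el] at hk
    rw [Finset.mem_filter]
    refine ⟨mem_el.2 (Subgroup.mem_top _), ?_⟩
    intro g hg
    have h1 := hHW g⁻¹ k g1
    have hg' : g⁻¹ ∈ C := inv_mem hg
    rw [(hCmem _).1 hg' _ (h.comm_mem _ _), (hCmem _).1 hk _ (h.comm_mem _ _), mul_one, mul_one,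
      inv_inv] at h1
    exact h1
  have hq := h.hq
  set a := (Finset.filter (fun m => ∀ n ∈ (⊤ : Subgroup G), c m n = 1) (el S)).card
  set cc := Nat.card C
  have hcc : 2 * q ^ 2 ≤ cc := by
    have h1 : a * q ^ 2 * q = cc * q := by rw [← P1]; ring
    have h2 : a * q ^ 2 = cc := Nat.eq_of_mul_eq_mul_right (by omega) h1
    rw [← h2]
    exact Nat.mul_le_mul_right _ hcardZ
  have h5 : cc * cc ≤ q * q ^ 3 := by
    calc cc * cc ≤ _ := Nat.mul_le_mul_right cc hB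
      _ = _ := P2.symm
      _ ≤ q * q ^ 3 := Nat.mul_le_mul_right _ hA
  have h6 : (2 * q ^ 2) * (2 * q ^ 2) ≤ q * q ^ 3 := (Nat.mul_le_mul hcc hcc).trans h5
  have h7 : 0 < q ^ 4 := by positivity
  nlinarith

end odd

end Pool.Agent.Helper801.ASG
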