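import Pool.Agent.Helper801.ASB

/-!
Even `q`: sum decompositions and the quadratic form argument (first stage).
-/

namespace Pool.Agent.Helper801.ASG

open Finset

section decomp

variable {G : Type*} [Group G] [Fintype G] {ι : Type*} [Fintype ι] {q : ℕ} {A : ι → Subgroup G}
  {S : Subgroup G}

theorem AS.not_mem_of_ne_one (h : AS G ι q A S) {i : ι} {a : G} (ha : a ∈ A i) (ha1 : a ≠ 1) :
    a ∉ S := fun h1 => ha1 (h.disj i a ha h1)

/-- `G` is the union of `S` and the sets `(A_i \ 1) S` -/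
theorem AS.sum_G (h : AS G ι q A S) (F : G → ℤ) :
    ∑ g, F g = ∑ z ∈ el S, F z +
      ∑ i, ∑ a ∈ (by classical exact (el (A i)).erase 1), ∑ z ∈ el S, F (a * z) := by
  classical
  have h0 : ∑ g, F g = ∑ z ∈ el S, F z + ∑ g ∈ univ.filter (· ∉ S), F g := by
    rw [← Finset.sum_filter_add_sum_filter_not univ (· ∈ S)]
    rfl
  rw [h0]
  congr 1
  have h1 : ∀ i, ∑ a ∈ (el (A i)).erase 1, ∑ z ∈ el S, F (a * z) =
      ∑ p ∈ ((el (A i)).erase 1) ×ˢ (el S), F (p.1 * p.2) := by
    intro i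
    rw [Finset.sum_product]
  rw [Finset.sum_congr rfl (fun i _ => h1 i),
    Finset.sum_sigma' univ (fun i => ((el (A i)).erase 1) ×ˢ (el S)) (fun _ p => F (p.1 * p.2))]
  symm
  apply Finset.sum_nbij (fun p => p.2.1 * p.2.2)
  · rintro ⟨i, a, z⟩ hp
    rw [Finset.mem_sigma, Finset.mem_product, Finset.mem_erase, mem_el, mem_el] at hp
    obtain ⟨_, ⟨ha1, ha⟩, hz⟩ := hp
    simp only at ha1 ha hz ⊢
    rw [Finset.mem_filter]
    refine ⟨mem_univ _, ?_⟩
    intro h2
    apply h.not_mem_of_ne_one ha ha1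
    have := mul_mem h2 (inv_mem hz)
    simpa using this
  · rintro ⟨i, a, z⟩ hp ⟨j, b, w⟩ hp' heq
    rw [Finset.mem_coe, Finset.mem_sigma, Finset.mem_product, Finset.mem_erase, mem_el,
      mem_el] at hp hp'
    obtain ⟨_, ⟨ha1, ha⟩, hz⟩ := hp
    obtain ⟨_, ⟨hb1, hb⟩, hw⟩ := hp'
    simp only at ha1 ha hz hb1 hb hw heq
    have h2 : a * z ∉ S := by
      intro h2
      apply h.not_mem_of_ne_one ha ha1
      have := mul_mem h2 (inv_mem hz)
      simpa using this
    have h3 : i = j := h.part_un _ h2 i j ⟨a, ha, z, hz, rfl⟩ ⟨b, hb, w, hw, heq⟩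
    subst h3
    have h4 : b⁻¹ * a = w * z⁻¹ := by
      rw [inv_mul_eq_iff_eq_mul, ← mul_assoc, eq_mul_inv_iff_mul_eq]; exact heq
    have h5 : b⁻¹ * a = 1 := by
      apply h.disj i _ (mul_mem (inv_mem hb) ha)
      rw [h4]
      exact mul_mem hw (inv_mem hz)
    have h6 : a = b := (inv_mul_eq_one.1 h5).symm
    subst h6
    have h7 : z = w := mul_left_cancel heq
    subst h7
    rfl
  · intro g hg
    rw [Finset.mem_coe, Finset.mem_filter] at hg
    obtain ⟨i, a, ha, z, hz, hgaz⟩ := h.part_ex g hg.2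
    refine ⟨⟨i, a, z⟩, ?_, hgaz.symm⟩
    rw [Finset.mem_coe, Finset.mem_sigma, Finset.mem_product, Finset.mem_erase, mem_el, mem_el]
    refine ⟨mem_univ _, ⟨?_, ha⟩, hz⟩
    rintro h2
    simp only at h2
    apply hg.2
    rw [hgaz, h2, one_mul]
    exact hz
  · intro p _
    rfl

/-- decomposition with respect to `A_j` -/
theorem AS.sum_F2 (h : AS G ι q A S) (j : ι) (F : G → ℤ) :
    ∑ g, F g = ∑ a ∈ el (A j), ∑ z ∈ el S, F (a * z) +
      ∑ l ∈ (by classical exact univ.erase j), ∑ a ∈ el (A j),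
        ∑ b ∈ (by classical exact (el (A l)).erase 1), F (a * b) := by
  classical
  have hn := h.normal
  rw [← Finset.sum_filter_add_sum_filter_not univ (fun g => InB (A j) S g)]
  congr 1
  · rw [← Finset.sum_product (f := fun p : G × G => F (p.1 * p.2))]
    symm
    apply Finset.sum_nbij (fun p => p.1 * p.2)
    · rintro ⟨a, z⟩ hp
      rw [Finset.mem_product, mem_el, mem_el] at hp
      rw [Finset.mem_filter]
      exact ⟨mem_univ _, a, hp.1, z, hp.2, rfl⟩
    · rintro ⟨a, z⟩ hp ⟨b, w⟩ hp' heq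
      rw [Finset.mem_coe, Finset.mem_product, mem_el, mem_el] at hp hp'
      obtain ⟨ha, hz⟩ := hp
      obtain ⟨hb, hw⟩ := hp'
      simp only at ha hz hb hw heq
      have h4 : b⁻¹ * a = w * z⁻¹ := by
        rw [inv_mul_eq_iff_eq_mul, ← mul_assoc, eq_mul_inv_iff_mul_eq]; exact heq
      have h5 : b⁻¹ * a = 1 := by
        apply h.disj j _ (mul_mem (inv_mem hb) ha)
        rw [h4]
        exact mul_mem hw (inv_mem hz)
      have h6 : a = b := (inv_mul_eq_one.1 h5).symm
      subst h6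
      have h7 : z = w := mul_left_cancel heq
      subst h7
      rfl
    · intro g hg
      rw [Finset.mem_coe, Finset.mem_filter] at hg
      obtain ⟨a, ha, z, hz, hgaz⟩ := hg.2
      refine ⟨⟨a, z⟩, ?_, hgaz.symm⟩
      rw [Finset.mem_coe, Finset.mem_product, mem_el, mem_el]
      exact ⟨ha, hz⟩
    · intro p _
      rfl
  · have h1 : ∀ l, ∑ a ∈ el (A j), ∑ b ∈ (el (A l)).erase 1, F (a * b) =
        ∑ p ∈ (el (A j)) ×ˢ ((el (A l)).erase 1), F (p.1 * p.2) := by
      intro l
      rw [Finset.sum_product]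
    rw [Finset.sum_congr rfl (fun l _ => h1 l),
      Finset.sum_sigma' (univ.erase j) (fun l => (el (A j)) ×ˢ ((el (A l)).erase 1))
        (fun _ p => F (p.1 * p.2))]
    symm
    apply Finset.sum_nbij (fun p => p.2.1 * p.2.2)
    · rintro ⟨l, a, b⟩ hp
      rw [Finset.mem_sigma, Finset.mem_product, Finset.mem_erase, Finset.mem_erase, mem_el,
        mem_el] at hp
      obtain ⟨⟨hlj, _⟩, ha, hb1, hb⟩ := hp
      simp only at hlj ha hb1 hb ⊢
      rw [Finset.mem_filter]
      refine ⟨mem_univ _, ?_⟩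
      intro h2
      apply h.not_mem_of_ne_one hb hb1
      refine h.inter (Ne.symm hlj) ?_ (inB_of_mem_A hb)
      have := inB_mul hn (inB_inv hn (inB_of_mem_A (S := S) ha)) h2
      simpa using this
    · rintro ⟨l, a, b⟩ hp ⟨k, a', b'⟩ hp' heq
      rw [Finset.mem_coe, Finset.mem_sigma, Finset.mem_product, Finset.mem_erase, Finset.mem_erase,
        mem_el, mem_el] at hp hp'
      obtain ⟨⟨hlj, _⟩, ha, hb1, hb⟩ := hp
      obtain ⟨⟨hkj, _⟩, ha', hb1', hb'⟩ := hp'
      simp only at hlj ha hb1 hb hkj ha' hb1' hb' heq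
      have h2 : ¬ InB (A j) S (a * b) := by
        intro h2
        apply h.not_mem_of_ne_one hb hb1
        refine h.inter (Ne.symm hlj) ?_ (inB_of_mem_A hb)
        have := inB_mul hn (inB_inv hn (inB_of_mem_A (S := S) ha)) h2
        simpa using this
      have h3 : l = k := h.f2_un j _ h2 l k ⟨a, ha, b, hb, rfl⟩ ⟨a', ha', b', hb', heq⟩
      subst h3
      have h4 : a'⁻¹ * a = b' * b⁻¹ := by
        rw [inv_mul_eq_iff_eq_mul, ← mul_assoc, eq_mul_inv_iff_mul_eq]; exact heq
      have h5 : a'⁻¹ * a = 1 := by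
        apply h.A_inter (Ne.symm hlj) (mul_mem (inv_mem ha') ha)
        rw [h4]
        exact mul_mem hb' (inv_mem hb)
      have h6 : a = a' := (inv_mul_eq_one.1 h5).symm
      subst h6
      have h7 : b = b' := mul_left_cancel heq
      subst h7
      rfl
    · intro g hg
      rw [Finset.mem_coe, Finset.mem_filter] at hg
      obtain ⟨l, hlj, a, ha, b, hb, hgab⟩ := h.f2_ex j g hg.2
      refine ⟨⟨l, a, b⟩, ?_, hgab.symm⟩
      rw [Finset.mem_coe, Finset.mem_sigma, Finset.mem_product, Finset.mem_erase, Finset.mem_erase,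
        mem_el, mem_el]
      refine ⟨⟨hlj, mem_univ _⟩, ha, ?_, hb⟩
      intro h2
      simp only at h2
      apply hg.2
      rw [hgab, h2, mul_one]
      exact inB_of_mem_A ha
    · intro p _
      rfl

/-- the character sum over the union of the `A_i` -/
noncomputable def Gam (A : ι → Subgroup G) (f : G → ℤ) : ℤ :=
  1 + ∑ i, ∑ a ∈ (by classical exact (el (A i)).erase 1), f a

theorem AS.card_erase (h : AS G ι q A S) (i : ι) :
    ((by classical exact ((el (A i)).erase 1)) : Finset G).card = q - 1 := by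
  classical
  rw [Finset.card_erase_of_mem (mem_el.2 (A i).one_mem), card_el, h.cardA]

theorem AS.gam_one (h : AS G ι q A S) (f : G → ℤ) (hf : ∀ i, ∀ a ∈ A i, f a = 1) :
    Gam A f = (q : ℤ) ^ 2 := by
  classical
  unfold Gam
  have h1 : ∀ i, ∑ a ∈ (el (A i)).erase 1, f a = (q : ℤ) - 1 := by
    intro i
    rw [Finset.sum_congr rfl (fun a ha => hf i a (mem_el.1 (Finset.mem_of_mem_erase ha))),
      Finset.sum_const, h.card_erase, nsmul_eq_mul, mul_one, Nat.cast_sub (by have := h.hq; omega)]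
    simp
  rw [Finset.sum_congr rfl (fun i _ => h1 i), Finset.sum_const, Finset.card_univ,
    ← Nat.card_eq_fintype_card, h.cardι, nsmul_eq_mul]
  push_cast
  ring

theorem AS.gam_le (h : AS G ι q A S) (ρ : G → ℤ) (h1 : ρ 1 = 1)
    (hmul : ∀ x y, ρ (x * y) = ρ x * ρ y) (hne : ∃ x, ρ x ≠ 1) : |Gam A ρ| ≤ q := by
  classical
  have hq := h.hq
  have hsum : ∑ g, ρ g = 0 := by
    have := sum_char (⊤ : Subgroup G) ρ (fun a _ b _ => hmul a b)
      (by obtain ⟨x, hx⟩ := hne; exact ⟨x, Subgroup.mem_top x, hx⟩)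
    rw [← this]
    apply Finset.sum_congr _ (fun _ _ => rfl)
    ext x
    simp [mem_el]
  by_cases hj : ∃ j, ∀ a ∈ A j, ρ a = 1
  · obtain ⟨j, hj⟩ := hj
    have h2 := h.sum_F2 j ρ
    rw [hsum] at h2
    have h3 : ∑ a ∈ el (A j), ∑ z ∈ el S, ρ (a * z) = q * ∑ z ∈ el S, ρ z := by
      have h4 : ∀ a ∈ el (A j), ∑ z ∈ el S, ρ (a * z) = ∑ z ∈ el S, ρ z := by
        intro a ha
        apply Finset.sum_congr rfl
        intro z _
        rw [hmul, hj a (mem_el.1 ha), one_mul]
      rw [Finset.sum_congr rfl h4, Finset.sum_const, card_el, h.cardA, nsmul_eq_mul]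
    have h5 : ∑ l ∈ univ.erase j, ∑ a ∈ el (A j), ∑ b ∈ (el (A l)).erase 1, ρ (a * b) =
        q * ∑ l ∈ univ.erase j, ∑ b ∈ (el (A l)).erase 1, ρ b := by
      rw [Finset.mul_sum]
      apply Finset.sum_congr rfl
      intro l _
      have h4 : ∀ a ∈ el (A j), ∑ b ∈ (el (A l)).erase 1, ρ (a * b) =
          ∑ b ∈ (el (A l)).erase 1, ρ b := by
        intro a ha
        apply Finset.sum_congr rfl
        intro z _
        rw [hmul, hj a (mem_el.1 ha), one_mul]
      rw [Finset.sum_congr rfl h4, Finset.sum_const, card_el, h.cardA, nsmul_eq_mul]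
    rw [h3, h5, ← mul_add] at h2
    have hq0 : (q : ℤ) ≠ 0 := by
      have : q ≠ 0 := by omega
      exact_mod_cast this
    have h6 : ∑ z ∈ el S, ρ z + ∑ l ∈ univ.erase j, ∑ b ∈ (el (A l)).erase 1, ρ b = 0 := by
      rcases mul_eq_zero.1 h2.symm with h7 | h7
      · exact absurd h7 hq0
      · exact h7
    have h8 : ∑ b ∈ (el (A j)).erase 1, ρ b = (q : ℤ) - 1 := by
      rw [Finset.sum_congr rfl (fun a ha => hj a (mem_el.1 (Finset.mem_of_mem_erase ha))),
        Finset.sum_const, h.card_erase, nsmul_eq_mul, mul_one,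
        Nat.cast_sub (by omega)]
      simp
    have h9 : Gam A ρ = q - ∑ z ∈ el S, ρ z := by
      unfold Gam
      rw [← Finset.add_sum_erase univ _ (mem_univ j), h8]
      linarith
    have h10 : ∑ z ∈ el S, ρ z = 0 ∨ ∑ z ∈ el S, ρ z = q := by
      by_cases hS : ∃ z ∈ S, ρ z ≠ 1
      · left
        exact sum_char S ρ (fun a _ b _ => hmul a b) hS
      · right
        push Not at hS
        rw [Finset.sum_congr rfl (fun z hz => hS z (mem_el.1 hz)), Finset.sum_const, card_el,
          h.cardS, nsmul_eq_mul, mul_one]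
    rw [h9]
    rcases h10 with h11 | h11
    · rw [h11, sub_zero, abs_of_nonneg (by positivity)]
    · rw [h11, sub_self, abs_zero]; positivity
  · push Not at hj
    have h2 : ∀ i, ∑ a ∈ (el (A i)).erase 1, ρ a = -1 := by
      intro i
      have h3 := sum_char (A i) ρ (fun a _ b _ => hmul a b) (hj i)
      rw [← Finset.add_sum_erase (el (A i)) _ (mem_el.2 (A i).one_mem), h1] at h3
      linarith
    unfold Gam
    rw [Finset.sum_congr rfl (fun i _ => h2 i), Finset.sum_const, Finset.card_univ,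
      ← Nat.card_eq_fintype_card, h.cardι, nsmul_eq_mul]
    push_cast
    rw [abs_le]
    constructor
    · linarith
    · have : (0 : ℤ) ≤ q := by positivity
      linarith

/-- the `A_i` generate `G` -/
theorem AS.gen (h : AS G ι q A S) (P : G → Prop) (hA : ∀ i, ∀ a ∈ A i, P a)
    (hmul : ∀ x y, P x → P y → P (x * y)) (g : G) : P g := by
  classical
  have hn := h.normal
  haveI : Nonempty ι := by
    have h1 := h.cardι
    by_contra hcon
    rw [not_nonempty_iff] at hcon
    rw [Nat.card_of_isEmpty] at h1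
    omega
  obtain ⟨i⟩ := ‹Nonempty ι›
  by_cases hg : InB (A i) S g
  · obtain ⟨j, hji, _⟩ := h.exists_third i i
    have hAj : ∃ b ∈ A j, b ≠ 1 := by
      by_contra hcon
      push Not at hcon
      have h1 := h.cardA j
      have h2 : A j = ⊥ := by
        rw [Subgroup.eq_bot_iff_forall]
        exact hcon
      rw [h2, Subgroup.card_bot] at h1
      have := h.hq
      omega
    obtain ⟨b, hb, hb1⟩ := hAj
    have h1 : ¬ InB (A i) S (g * b) := by
      intro h2
      apply h.not_mem_of_ne_one hb hb1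
      refine h.inter (Ne.symm hji) ?_ (inB_of_mem_A hb)
      have := inB_mul hn (inB_inv hn hg) h2
      simpa using this
    obtain ⟨l, _, a, ha, b', hb', hgab⟩ := h.f2_ex i _ h1
    have h3 : g = (a * b') * b⁻¹ := by rw [← hgab]; group
    rw [h3]
    exact hmul _ _ (hmul _ _ (hA i a ha) (hA l b' hb')) (hA j _ (inv_mem hb))
  · obtain ⟨l, _, a, ha, b', hb', hgab⟩ := h.f2_ex i _ hg
    rw [hgab]
    exact hmul _ _ (hA i a ha) (hA l b' hb')

end decomp

end Pool.Agent.Helper801.ASG
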