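import Pool.Agent.Helper801.ASD

/-!
Even `q`: the quadratic form argument (first stage).
-/

namespace Pool.Agent.Helper801.ASG

open Finset

/-- a `±1`-valued quadratic form with its polar form, trivial on the `A_i` -/
structure QC {G : Type*} [Group G] {ι : Type*} (A : ι → Subgroup G) (Q : G → ℤ) (c : G → G → ℤ) :
    Prop where
  Qpm : ∀ x, Q x = 1 ∨ Q x = -1
  Qmul : ∀ x y, Q (x * y) = Q x * Q y * c x y
  cmul : ∀ x y z, c (x * y) z = c x z * c y z
  csymm : ∀ x y, c x y = c y x
  cself : ∀ x, c x x = 1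
  QA : ∀ i, ∀ a ∈ A i, Q a = 1

section basic

variable {G : Type*} [Group G] {ι : Type*} {A : ι → Subgroup G} {Q : G → ℤ} {c : G → G → ℤ}

theorem QC.Qsq (hQ : QC A Q c) (x : G) : Q x * Q x = 1 := by
  rcases hQ.Qpm x with h | h <;> rw [h] <;> norm_num

theorem QC.cmul' (hQ : QC A Q c) (x y z : G) : c z (x * y) = c z x * c z y := by
  rw [hQ.csymm z, hQ.cmul, hQ.csymm x, hQ.csymm y]

theorem QC.cpm (hQ : QC A Q c) (x y : G) : c x y = 1 ∨ c x y = -1 := by
  have h1 := hQ.Qmul x y
  have h2 := hQ.Qsq x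
  have h3 := hQ.Qsq y
  have h4 : c x y = Q (x * y) * Q x * Q y := by
    rw [h1]
    calc c x y = (Q x * Q x) * (Q y * Q y) * c x y := by rw [h2, h3]; ring
      _ = _ := by ring
  rw [h4]
  rcases hQ.Qpm x with h | h <;> rcases hQ.Qpm y with h' | h' <;>
    rcases hQ.Qpm (x * y) with h'' | h'' <;> rw [h, h', h''] <;> norm_num

theorem QC.csq (hQ : QC A Q c) (x y : G) : c x y * c x y = 1 := by
  rcases hQ.cpm x y with h | h <;> rw [h] <;> norm_num

theorem QC.c_one (hQ : QC A Q c) (x : G) : c x 1 = 1 := by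
  have h1 := hQ.cmul' 1 1 x
  rw [mul_one] at h1
  have h2 := hQ.csq x 1
  rw [h1]; exact h2

theorem QC.one_c (hQ : QC A Q c) (x : G) : c 1 x = 1 := by
  rw [hQ.csymm, hQ.c_one]

end basic

section stage1

variable {G : Type*} [Group G] [Fintype G] {ι : Type*} [Fintype ι] {q : ℕ} {A : ι → Subgroup G}
  {S : Subgroup G} {Q : G → ℤ} {c : G → G → ℤ}

theorem sum_univ_char {G : Type*} [Group G] [Fintype G] (f : G → ℤ)
    (hf : ∀ a b, f (a * b) = f a * f b) (hne : ∃ b, f b ≠ 1) : ∑ x, f x = 0 := by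
  classical
  have h1 := sum_char (⊤ : Subgroup G) f (fun a _ b _ => hf a b)
    (by obtain ⟨b, hb⟩ := hne; exact ⟨b, Subgroup.mem_top b, hb⟩)
  rw [← h1]
  apply Finset.sum_congr _ (fun _ _ => rfl)
  ext x
  simp [mem_el]

/-- the sum formula -/
theorem sum_Qc (h : AS G ι q A S) (hQ : QC A Q c) (y : G) :
    ∑ x, Q x * c x y = ∑ z ∈ el S, Q z * c z y * Gam A (fun x => c x (y * z)) := by
  classical
  rw [h.sum_G]
  have h1 : ∀ i, ∑ a ∈ (el (A i)).erase 1, ∑ z ∈ el S, Q (a * z) * c (a * z) y =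
      ∑ z ∈ el S, ∑ a ∈ (el (A i)).erase 1, Q z * c z y * c a (y * z) := by
    intro i
    rw [Finset.sum_comm]
    apply Finset.sum_congr rfl
    intro z _
    apply Finset.sum_congr rfl
    intro a ha
    rw [hQ.Qmul, hQ.QA i a (mem_el.1 (Finset.mem_of_mem_erase ha)), hQ.cmul, hQ.cmul']
    ring
  rw [Finset.sum_congr rfl (fun i _ => h1 i), Finset.sum_comm, ← Finset.sum_add_distrib]
  apply Finset.sum_congr rfl
  intro z _
  unfold Gam
  rw [mul_add, mul_one, Finset.mul_sum]
  congr 1
  apply Finset.sum_congr rfl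
  intro i _
  rw [Finset.mul_sum]

theorem sum_Q_shift (hQ : QC A Q c) (y : G) : Q y * ∑ x, Q x = ∑ x, Q x * c x y := by
  have h1 : ∑ x, Q x = ∑ x, Q (x * y) :=
    (Fintype.sum_equiv (Equiv.mulRight y) (fun x => Q (x * y)) Q (fun x => rfl)).symm
  rw [h1, Finset.mul_sum]
  apply Finset.sum_congr rfl
  intro x _
  rw [hQ.Qmul]
  have := hQ.Qsq y
  calc Q y * (Q x * Q y * c x y) = (Q y * Q y) * (Q x * c x y) := by ring
    _ = _ := by rw [this, one_mul]

theorem gam_small (h : AS G ι q A S) (hQ : QC A Q c) (w : G) (hw : ¬ ∀ x, c x w = 1) :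
    |Gam A (fun x => c x w)| ≤ q := by
  push Not at hw
  exact h.gam_le _ (hQ.one_c w) (fun x y => hQ.cmul x y w) hw

/-- Case II -/
theorem stage1_two (h : AS G ι q A S) (hQ : QC A Q c) {z0 : G} (hz0 : z0 ∈ S) (hz01 : z0 ≠ 1)
    (hc0 : ∀ g, c z0 g = 1) (hII : ∀ y ∈ S, (∀ g, c y g = 1) → Q y = 1) : ∀ x, Q x = 1 := by
  classical
  have hq := h.hq
  set Z := (el S).filter (fun z => ∀ g, c z g = 1) with hZ
  set n := Z.card with hn
  have hn2 : 2 ≤ n := by
    have h1 : ({1, z0} : Finset G) ⊆ Z := by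
      intro x hx
      rw [Finset.mem_insert, Finset.mem_singleton] at hx
      rw [hZ, Finset.mem_filter, mem_el]
      rcases hx with rfl | rfl
      · exact ⟨S.one_mem, hQ.one_c⟩
      · exact ⟨hz0, hc0⟩
    have h2 := Finset.card_le_card h1
    rwa [Finset.card_pair (Ne.symm hz01)] at h2
  have hnq : n ≤ q := by
    rw [← h.cardS, ← card_el]
    exact Finset.card_le_card (Finset.filter_subset _ _)
  set T := ∑ x, Q x with hT
  -- formula for T
  have hT1 : |T - (q : ℤ) ^ 2 * n| ≤ q * (q - n) := by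
    have h1 := sum_Qc h hQ 1
    have h2 : ∑ x, Q x * c x 1 = T := by
      apply Finset.sum_congr rfl
      intro x _
      rw [hQ.c_one, mul_one]
    rw [h2] at h1
    rw [h1, ← Finset.sum_filter_add_sum_filter_not (el S) (fun z => ∀ g, c z g = 1)]
    have h3 : ∑ z ∈ (el S).filter (fun z => ∀ g, c z g = 1),
        Q z * c z 1 * Gam A (fun x => c x (1 * z)) = (q : ℤ) ^ 2 * n := by
      have h4 : ∀ z ∈ (el S).filter (fun z => ∀ g, c z g = 1),
          Q z * c z 1 * Gam A (fun x => c x (1 * z)) = (q : ℤ) ^ 2 := by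
        intro z hz
        rw [Finset.mem_filter, mem_el] at hz
        rw [hII z hz.1 hz.2, hQ.c_one, one_mul, one_mul, one_mul]
        apply h.gam_one
        intro i a _
        rw [hQ.csymm]; exact hz.2 a
      rw [Finset.sum_congr rfl h4, Finset.sum_const, nsmul_eq_mul, hn, hZ]
      ring
    rw [h3, add_sub_cancel_left]
    calc |∑ z ∈ (el S).filter (fun z => ¬ ∀ g, c z g = 1),
        Q z * c z 1 * Gam A (fun x => c x (1 * z))| ≤
        ∑ z ∈ (el S).filter (fun z => ¬ ∀ g, c z g = 1),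
        |Q z * c z 1 * Gam A (fun x => c x (1 * z))| := Finset.abs_sum_le_sum_abs _ _
      _ ≤ ∑ z ∈ (el S).filter (fun z => ¬ ∀ g, c z g = 1), (q : ℤ) := by
        apply Finset.sum_le_sum
        intro z hz
        rw [Finset.mem_filter] at hz
        rw [one_mul, hQ.c_one, mul_one, abs_mul]
        have h4 : |Q z| = 1 := by
          rcases hQ.Qpm z with h5 | h5 <;> rw [h5] <;> norm_num
        rw [h4, one_mul]
        apply gam_small h hQ
        intro h5
        apply hz.2
        intro g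
        rw [hQ.csymm]; exact h5 g
      _ = q * (q - n) := by
        rw [Finset.sum_const, nsmul_eq_mul]
        have h5 : (((el S).filter (fun z => ¬ ∀ g, c z g = 1)).card : ℤ) = q - n := by
          have h6 := Finset.card_filter_add_card_filter_not (s := el S)
            (fun z => ∀ g, c z g = 1)
          rw [card_el, h.cardS] at h6
          rw [hn, hZ]
          have h7 : (q : ℤ) = (((el S).filter (fun z => ∀ g, c z g = 1)).card : ℤ) +
            (((el S).filter (fun z => ¬ ∀ g, c z g = 1)).card : ℤ) := by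
            exact_mod_cast h6.symm
          linarith
        rw [h5]; ring
  have hqZ : (2 : ℤ) ≤ q := by exact_mod_cast hq
  have hn2Z : (2 : ℤ) ≤ n := by exact_mod_cast hn2
  have hnqZ : (n : ℤ) ≤ q := by exact_mod_cast hnq
  rw [abs_le] at hT1
  have hT2 : (q : ℤ) ^ 2 < T := by nlinarith
  -- every class is represented in S
  have hrep : ∀ y, ∃ z ∈ S, ∀ g, c y g = c z g := by
    intro y
    by_contra hcon
    push Not at hcon
    have h1 := sum_Q_shift hQ y
    rw [sum_Qc h hQ y] at h1
    have h2 : |Q y * T| ≤ (q : ℤ) ^ 2 := by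
      rw [hT, h1]
      calc |∑ z ∈ el S, Q z * c z y * Gam A (fun x => c x (y * z))| ≤
          ∑ z ∈ el S, |Q z * c z y * Gam A (fun x => c x (y * z))| :=
            Finset.abs_sum_le_sum_abs _ _
        _ ≤ ∑ z ∈ el S, (q : ℤ) := by
          apply Finset.sum_le_sum
          intro z hz
          have h4 : |Q z| = 1 := by
            rcases hQ.Qpm z with h5 | h5 <;> rw [h5] <;> norm_num
          have h5 : |c z y| = 1 := by
            rcases hQ.cpm z y with h5 | h5 <;> rw [h5] <;> norm_num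
          rw [abs_mul, abs_mul, h4, h5, one_mul, one_mul]
          apply gam_small h hQ
          intro h6
          obtain ⟨g, hg⟩ := hcon z (mem_el.1 hz)
          apply hg
          have h7 := h6 g
          rw [hQ.cmul', hQ.csymm g y, hQ.csymm g z] at h7
          have h8 := hQ.csq z g
          calc c y g = c y g * (c z g * c z g) := by rw [h8, mul_one]
            _ = (c y g * c z g) * c z g := by ring
            _ = c z g := by rw [h7, one_mul]
        _ = (q : ℤ) ^ 2 := by
          rw [Finset.sum_const, card_el, h.cardS, nsmul_eq_mul]; ring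
    have h3 : |Q y * T| = T := by
      rw [abs_mul]
      have h4 : |Q y| = 1 := by
        rcases hQ.Qpm y with h5 | h5 <;> rw [h5] <;> norm_num
      rw [h4, one_mul, abs_of_pos (by nlinarith)]
    rw [h3] at h2
    linarith
  -- Q is trivial on the radical
  have hrad : ∀ r, (∀ g, c r g = 1) → Q r = 1 := by
    intro r hr
    have h1 := sum_Q_shift hQ r
    have h2 : ∑ x, Q x * c x r = T := by
      apply Finset.sum_congr rfl
      intro x _
      rw [hQ.csymm, hr, mul_one]
    rw [h2, ← hT] at h1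
    have h3 : (Q r - 1) * T = 0 := by rw [sub_mul, h1]; ring
    rcases mul_eq_zero.1 h3 with h4 | h4
    · linarith
    · exfalso; nlinarith
  -- size of the radical
  set R := univ.filter (fun x : G => ∀ g, c x g = 1) with hR
  have hcardR : (R.card : ℤ) = q ^ 2 * n := by
    have P := pairing' (⊤ : Subgroup G) S c (fun m _ m' _ n _ => hQ.cmul m m' n)
      (fun m _ n _ n' _ => hQ.cmul' n n' m) R Z (by
        intro x
        rw [hR, Finset.mem_filter]
        constructor
        · rintro ⟨_, h1⟩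
          exact ⟨Subgroup.mem_top _, fun n _ => h1 n⟩
        · rintro ⟨_, h1⟩
          refine ⟨mem_univ _, ?_⟩
          intro g
          obtain ⟨z, hz, hzg⟩ := hrep g
          rw [hQ.csymm, hzg x, hQ.csymm]
          exact h1 z hz) (by
        intro x
        rw [hZ, Finset.mem_filter, mem_el]
        constructor
        · rintro ⟨h1, h2⟩
          exact ⟨h1, fun g _ => by rw [hQ.csymm]; exact h2 g⟩
        · rintro ⟨h1, h2⟩
          exact ⟨h1, fun g => by rw [hQ.csymm]; exact h2 g (Subgroup.mem_top g)⟩)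
    rw [Subgroup.card_top, h.cardG, h.cardS] at P
    have h3 : (R.card : ℤ) * q = n * q ^ 3 := by exact_mod_cast P
    have h4 : (q : ℤ) ≠ 0 := by omega
    have h5 : (R.card : ℤ) * q = (q ^ 2 * n) * q := by rw [h3]; ring
    exact mul_right_cancel₀ h4 h5
  -- T^2
  have hTsq : T * T = q ^ 3 * R.card := by
    have h1 : T * T = ∑ y, ∑ x, Q x * c x y := by
      rw [hT, Finset.sum_mul]
      apply Finset.sum_congr rfl
      intro y _
      exact sum_Q_shift hQ y
    rw [h1, Finset.sum_comm]
    have h2 : ∀ x, ∑ y, Q x * c x y = if x ∈ R then (q : ℤ) ^ 3 else 0 := by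
      intro x
      rw [← Finset.mul_sum]
      by_cases hx : x ∈ R
      · rw [if_pos hx]
        rw [hR, Finset.mem_filter] at hx
        rw [hrad x hx.2, one_mul, Finset.sum_congr rfl (fun y _ => hx.2 y), Finset.sum_const,
          Finset.card_univ, ← Nat.card_eq_fintype_card, h.cardG, nsmul_eq_mul, mul_one]
        push_cast
        rfl
      · rw [if_neg hx]
        have h3 : ∃ y, c x y ≠ 1 := by
          by_contra hcon
          push Not at hcon
          apply hx
          rw [hR, Finset.mem_filter]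
          exact ⟨mem_univ _, hcon⟩
        rw [sum_univ_char (c x) (fun a b => hQ.cmul' a b x) h3, mul_zero]
    rw [Finset.sum_congr rfl (fun x _ => h2 x), ← Finset.sum_filter, Finset.sum_const,
      nsmul_eq_mul]
    have h4 : univ.filter (· ∈ R) = R := by
      ext x; simp
    rw [h4]; ring
  rw [hcardR] at hTsq
  -- q^2 ∣ T
  have hdvd : (q : ℤ) ^ 2 ∣ T := by
    have h1 : ((q : ℤ) ^ 2) ^ 2 ∣ T ^ 2 := ⟨q * n, by rw [pow_two T, hTsq]; ring⟩
    exact (Int.pow_dvd_pow_iff two_ne_zero).1 h1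
  obtain ⟨T1, hT1'⟩ := hdvd
  have hq4 : (0 : ℤ) < q ^ 2 := by positivity
  have hT1n : T1 = n := by
    rw [hT1'] at hT1
    obtain ⟨h1, h2⟩ := hT1
    have h3 : (q : ℤ) ^ 2 * (T1 - n) < q ^ 2 * 1 := by nlinarith
    have h4 : (q : ℤ) ^ 2 * (-1) < q ^ 2 * (T1 - n) := by nlinarith
    have h5 := lt_of_mul_lt_mul_left h3 hq4.le
    have h6 := lt_of_mul_lt_mul_left h4 hq4.le
    omega
  have hnq' : (n : ℤ) = q := by
    rw [hT1', hT1n] at hTsq
    have h1 : (q : ℤ) ^ 4 * n * n = q ^ 4 * n * q := by nlinarith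
    have h2 : (q : ℤ) ^ 4 * n ≠ 0 := by positivity
    exact mul_left_cancel₀ h2 h1
  have hnq'' : n = q := by exact_mod_cast hnq'
  have hZS : Z = el S := by
    apply Finset.eq_of_subset_of_card_le (Finset.filter_subset _ _)
    rw [card_el, h.cardS, ← hn, hnq'']
  have hc1 : ∀ y g, c y g = 1 := by
    intro y g
    obtain ⟨z, hz, hzg⟩ := hrep y
    rw [hzg g]
    have h1 : z ∈ Z := by rw [hZS]; exact mem_el.2 hz
    rw [hZ, Finset.mem_filter] at h1
    exact h1.2 g
  intro x
  apply h.gen (fun x => Q x = 1) (fun i a ha => hQ.QA i a ha)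
  intro x y hx hy
  rw [hQ.Qmul, hx, hy, hc1]
  norm_num

/-- Case I -/
theorem stage1_one (h : AS G ι q A S) (hQ : QC A Q c) {y : G} (hy : y ∈ S)
    (hcy : ∀ g, c y g = 1) (hQy : Q y ≠ 1) :
    (∀ z ∈ S, ∀ g, c z g = 1) ∧ ∀ l g, (∀ a ∈ A l, c g a = 1) → InB (A l) S g := by
  classical
  have hn := h.normal
  have hq := h.hq
  have claim : ∀ l g, (∀ a ∈ A l, c g a = 1) → InB (A l) S g := by
    intro l g hg
    by_contra hcon
    have key : ∀ g, (∀ a ∈ A l, c g a = 1) → ¬ InB (A l) S g → Q g = 1 := by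
      intro g hg hcon
      obtain ⟨k, _, a, ha, b, hb, hgab⟩ := h.f2_ex l g hcon
      have h1 : c g a = 1 := hg a ha
      rw [hgab, hQ.cmul, hQ.cself, one_mul, hQ.csymm] at h1
      rw [hgab, hQ.Qmul, hQ.QA l a ha, hQ.QA k b hb, h1]
      norm_num
    have h1 := key g hg hcon
    have h2 : ∀ a ∈ A l, c (g * y) a = 1 := by
      intro a ha
      rw [hQ.cmul, hg a ha, hcy, mul_one]
    have h3 : ¬ InB (A l) S (g * y) := by
      intro h4
      apply hcon
      have := inB_mul hn h4 (inB_inv hn (inB_of_mem_S (A := A l) hy))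
      simpa using this
    have h4 := key (g * y) h2 h3
    rw [hQ.Qmul, h1, one_mul, hQ.csymm, hcy, mul_one] at h4
    exact hQy h4
  refine ⟨?_, claim⟩
  -- |C_l| ≥ q^2
  have hcA : ∀ l, ∀ z ∈ S, ∀ a ∈ A l, c z a = 1 := by
    intro l z hz a ha
    set C := univ.filter (fun m => ∀ n ∈ A l, c m n = 1) with hC
    set V := (el (A l)).filter (fun n => ∀ m : G, c m n = 1) with hV
    have P := pairing' (⊤ : Subgroup G) (A l) c (fun m _ m' _ n _ => hQ.cmul m m' n)
      (fun m _ n _ n' _ => hQ.cmul' n n' m) C V (by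
        intro x
        rw [hC, Finset.mem_filter]
        exact ⟨fun h1 => ⟨Subgroup.mem_top _, h1.2⟩, fun h1 => ⟨mem_univ _, h1.2⟩⟩) (by
        intro x
        rw [hV, Finset.mem_filter, mem_el]
        exact ⟨fun h1 => ⟨h1.1, fun m _ => h1.2 m⟩, fun h1 => ⟨h1.1, fun m =>
          h1.2 m (Subgroup.mem_top m)⟩⟩)
    rw [Subgroup.card_top, h.cardG, h.cardA] at P
    have h1 : 1 ≤ V.card := by
      apply Finset.card_pos.2
      refine ⟨1, ?_⟩
      rw [hV, Finset.mem_filter]
      exact ⟨mem_el.2 (A l).one_mem, fun m => hQ.c_one m⟩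
    set B := univ.filter (fun g => InB (A l) S g) with hB
    have h2 : q ^ 2 ≤ C.card := by
      have h3 : 1 * q ^ 3 ≤ C.card * q := by
        rw [P]
        exact Nat.mul_le_mul_right _ h1
      have h4 : q ^ 2 * q ≤ C.card * q := by
        calc q ^ 2 * q = 1 * q ^ 3 := by ring
          _ ≤ _ := h3
      exact Nat.le_of_mul_le_mul_right h4 (by omega)
    have h3 : C ⊆ B := by
      intro g hg
      rw [hC, Finset.mem_filter] at hg
      rw [hB, Finset.mem_filter]
      exact ⟨mem_univ _, claim l g hg.2⟩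
    have h4 : B.card ≤ q ^ 2 := by
      have h5 : B ⊆ ((el (A l)) ×ˢ (el S)).image (fun p => p.1 * p.2) := by
        intro g hg
        rw [hB, Finset.mem_filter] at hg
        obtain ⟨a, ha, z, hz, hgaz⟩ := hg.2
        rw [Finset.mem_image]
        exact ⟨(a, z), Finset.mem_product.2 ⟨mem_el.2 ha, mem_el.2 hz⟩, hgaz.symm⟩
      calc B.card ≤ _ := Finset.card_le_card h5
        _ ≤ ((el (A l)) ×ˢ (el S)).card := Finset.card_image_le
        _ = q ^ 2 := by
          rw [Finset.card_product, card_el, card_el, h.cardA, h.cardS]; ring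
    have h5 : C = B := Finset.eq_of_subset_of_card_le h3 (h4.trans h2)
    have h6 : z ∈ C := by
      rw [h5, hB, Finset.mem_filter]
      exact ⟨mem_univ _, inB_of_mem_S hz⟩
    rw [hC, Finset.mem_filter] at h6
    exact h6.2 a ha
  intro z hz g
  apply h.gen (fun g => c z g = 1) (fun l a ha => hcA l z hz a ha)
  intro x y hx hy
  rw [hQ.cmul', hx, hy, one_mul]

end stage1

end Pool.Agent.Helper801.ASG
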