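import Pool.Agent.Helper801.ASE

/-!
Even `q`: second stage, Gaussian integers of norm `2^n`.
-/

namespace Pool.Agent.Helper801.ASG

open Finset

/-- an odd number of Gaussian integers of norm `2^n` cannot sum to zero -/
theorem gauss {κ : Type*} (s : Finset κ) (hs : Odd s.card) : ∀ (n : ℕ) (X Y : κ → ℤ),
    (∀ j ∈ s, X j ^ 2 + Y j ^ 2 = 2 ^ n) → ∑ j ∈ s, X j = 0 → ∑ j ∈ s, Y j = 0 → False := by
  classical
  intro n
  induction n with
  | zero =>
    intro X Y h hX hY
    have h1 : ∀ j : κ, ∃ k, j ∈ s → X j + Y j = 2 * k + 1 := by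
      intro j
      by_cases hj : j ∈ s
      · have h2 := h j hj
        have h3 : Odd (X j + Y j) := by
          have h4 : Odd ((X j) ^ 2 + (Y j) ^ 2) := by rw [h2]; norm_num
          have e1 : (X j) ^ 2 + (Y j) ^ 2 = (X j + Y j) * (X j + Y j) - 2 * (X j * Y j) := by ring
          rw [e1, Int.odd_sub] at h4
          have h5 : Odd ((X j + Y j) * (X j + Y j)) := h4.2 (by simp)
          exact (Int.odd_mul.1 h5).1
        obtain ⟨k, hk⟩ := h3
        exact ⟨k, fun _ => hk⟩
      · exact ⟨0, fun h2 => absurd h2 hj⟩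
    choose k hk using h1
    have h2 : ∑ j ∈ s, (X j + Y j) = ∑ j ∈ s, (2 * k j + 1) :=
      Finset.sum_congr rfl (fun j hj => hk j hj)
    rw [Finset.sum_add_distrib, hX, hY, Finset.sum_add_distrib, ← Finset.mul_sum, Finset.sum_const,
      nsmul_eq_mul, mul_one] at h2
    obtain ⟨w, hw⟩ := hs
    have h3 : (s.card : ℤ) = 2 * w + 1 := by exact_mod_cast hw
    omega
  | succ n ih =>
    intro X Y h hX hY
    have h1 : ∀ j : κ, ∃ U V : ℤ, j ∈ s → X j = U + V ∧ Y j = U - V := by
      intro j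
      by_cases hj : j ∈ s
      · have h2 := h j hj
        have h3 : Even (X j + Y j) := by
          have h4 : Even ((X j) ^ 2 + (Y j) ^ 2) := by
            rw [h2, pow_succ]; simp
          have e1 : (X j) ^ 2 + (Y j) ^ 2 = (X j + Y j) * (X j + Y j) - 2 * (X j * Y j) := by ring
          rw [e1, Int.even_sub] at h4
          have h5 : Even ((X j + Y j) * (X j + Y j)) := h4.2 (by simp)
          rcases Int.even_mul.1 h5 with h6 | h6 <;> exact h6
        obtain ⟨k, hk⟩ := h3
        exact ⟨k, X j - k, fun _ => ⟨by ring, by linarith⟩⟩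
      · exact ⟨0, 0, fun h2 => absurd h2 hj⟩
    choose U V hUV using h1
    have hX' : ∑ j ∈ s, (U j + V j) = 0 := by
      rw [← hX]
      exact Finset.sum_congr rfl (fun j hj => (hUV j hj).1.symm)
    have hY' : ∑ j ∈ s, (U j - V j) = 0 := by
      rw [← hY]
      exact Finset.sum_congr rfl (fun j hj => (hUV j hj).2.symm)
    rw [Finset.sum_add_distrib] at hX'
    rw [Finset.sum_sub_distrib] at hY'
    refine ih U V ?_ (by linarith) (by linarith)
    intro j hj
    have h2 := h j hj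
    rw [(hUV j hj).1, (hUV j hj).2] at h2
    have h5 : (2 : ℤ) ^ (n + 1) = 2 * 2 ^ n := by ring
    rw [h5] at h2
    linarith [h2, show (U j + V j) ^ 2 + (U j - V j) ^ 2 = 2 * (U j ^ 2 + V j ^ 2) by ring]

section stage2

variable {G : Type*} [Group G] [Fintype G] {ι : Type*} [Fintype ι] {q : ℕ} {A : ι → Subgroup G}
  {S : Subgroup G} {Q : G → ℤ} {c : G → G → ℤ}

omit [Fintype ι] in
theorem AS.exists_decomp (h : AS G ι q A S) {i l : ι} (hil : i ≠ l) (b : G) :
    ∃ a ∈ A i, ∃ d ∈ A l, a * b * d ∈ S := by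
  classical
  have hn := h.normal
  set P := ((el (A i)) ×ˢ (el (A l))) ×ˢ (el S) with hP
  set f : (G × G) × G → G := fun p => p.1.1 * p.1.2 * p.2 with hf
  have hinj : Set.InjOn f P := by
    rintro ⟨⟨a, d⟩, z⟩ hp ⟨⟨a', d'⟩, z'⟩ hp' heq
    rw [Finset.mem_coe, hP, Finset.mem_product, Finset.mem_product, mem_el, mem_el, mem_el] at hp hp'
    obtain ⟨⟨ha, hd⟩, hz⟩ := hp
    obtain ⟨⟨ha', hd'⟩, hz'⟩ := hp'
    simp only [hf] at ha hd hz ha' hd' hz' heq
    have h1 : a'⁻¹ * a = d' * (z' * z⁻¹) * d⁻¹ := by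
      have h2 : a = a' * d' * z' * z⁻¹ * d⁻¹ := by
        rw [← heq]; group
      rw [h2]; group
    have h2 : InB (A l) S (a'⁻¹ * a) := by
      rw [h1]
      exact inB_mul hn (inB_mul hn (inB_of_mem_A hd') (inB_of_mem_S (mul_mem hz' (inv_mem hz))))
        (inB_inv hn (inB_of_mem_A hd))
    have h3 := h.disj i _ (mul_mem (inv_mem ha') ha)
      (h.inter hil (inB_of_mem_A (mul_mem (inv_mem ha') ha)) h2)
    have h4 : a = a' := (inv_mul_eq_one.1 h3).symm
    subst h4
    have h5 : d * z = d' * z' := by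
      rw [mul_assoc, mul_assoc] at heq
      exact mul_left_cancel heq
    have h6 : d'⁻¹ * d = z' * z⁻¹ := by
      rw [inv_mul_eq_iff_eq_mul, ← mul_assoc, eq_mul_inv_iff_mul_eq]; exact h5
    have h7 := h.disj l (d'⁻¹ * d) (mul_mem (inv_mem hd') hd) (by
      rw [h6]; exact mul_mem hz' (inv_mem hz))
    have h8 : d = d' := (inv_mul_eq_one.1 h7).symm
    subst h8
    have h9 : z = z' := mul_left_cancel h5
    subst h9
    rfl
  have hcard : (P.image f).card = Fintype.card G := by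
    rw [Finset.card_image_of_injOn hinj, hP, Finset.card_product, Finset.card_product, card_el,
      card_el, card_el, h.cardA, h.cardA, h.cardS, ← Nat.card_eq_fintype_card, h.cardG]
    ring
  have huniv := Finset.eq_univ_of_card _ hcard
  have hb : b ∈ P.image f := by rw [huniv]; exact mem_univ _
  rw [Finset.mem_image] at hb
  obtain ⟨⟨⟨a, d⟩, z⟩, hp, hfb⟩ := hb
  rw [hP, Finset.mem_product, Finset.mem_product, mem_el, mem_el, mem_el] at hp
  obtain ⟨⟨ha, hd⟩, hz⟩ := hp
  simp only [hf] at ha hd hz hfb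
  refine ⟨a⁻¹, inv_mem ha, d⁻¹, inv_mem hd, ?_⟩
  rw [← hfb]
  have h1 : a⁻¹ * (a * d * z) * d⁻¹ = d * z * d⁻¹ := by group
  rw [h1]
  exact hn.conj_mem z hz d

omit [Fintype G] [Fintype ι] in
theorem AS.unique_decomp (h : AS G ι q A S) {i l : ι} (hil : i ≠ l) {b a d a' d' : G}
    (ha : a ∈ A i) (hd : d ∈ A l) (hz : a * b * d ∈ S) (ha' : a' ∈ A i) (hd' : d' ∈ A l)
    (hz' : a' * b * d' ∈ S) : a = a' ∧ d = d' := by
  have hn := h.normal
  have h1 : a' * a⁻¹ = (a' * b * d') * (d'⁻¹ * d) * (a * b * d)⁻¹ := by group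
  have h2 : InB (A l) S (a' * a⁻¹) := by
    rw [h1]
    exact inB_mul hn (inB_mul hn (inB_of_mem_S hz') (inB_of_mem_A (mul_mem (inv_mem hd') hd)))
      (inB_inv hn (inB_of_mem_S hz))
  have h3 := h.disj i _ (mul_mem ha' (inv_mem ha))
    (h.inter hil (inB_of_mem_A (mul_mem ha' (inv_mem ha))) h2)
  have h4 : a = a' := (mul_inv_eq_one.1 h3).symm
  subst h4
  refine ⟨rfl, ?_⟩
  have h5 : d⁻¹ * d' = (a * b * d)⁻¹ * (a * b * d') := by group
  have h6 := h.disj l (d⁻¹ * d') (mul_mem (inv_mem hd) hd') (by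
    rw [h5]; exact mul_mem (inv_mem hz) hz')
  exact inv_mul_eq_one.1 h6

open Complex in
theorem stage2 (h : AS G ι q A S) (hQ : QC A Q c) (hcS : ∀ z ∈ S, ∀ g, c z g = 1)
    (hcl : ∀ l g, (∀ a ∈ A l, c g a = 1) → InB (A l) S g) (lam : G → ℂ)
    (l1 : ∀ z ∈ S, ∀ w ∈ S, lam (z * w) = lam z * lam w)
    (l2 : ∀ x y, lam (x * y * x⁻¹ * y⁻¹) = c x y)
    (l4 : ∀ z ∈ S, lam z = 1 ∨ lam z = -1 ∨ lam z = I ∨ lam z = -I)
    (l5 : ∃ z ∈ S, lam z ≠ 1) {n : ℕ} (hqn : q = 2 ^ n) : False := by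
  classical
  have hn := h.normal
  have hq := h.hq
  have hn0 : n ≠ 0 := by
    rintro rfl
    rw [pow_zero] at hqn
    omega
  have hqe : Even q := by
    rw [hqn]
    exact (even_two).pow_of_ne_zero hn0
  have hlam1 : lam 1 = 1 := by
    have h1 := l1 1 S.one_mem 1 S.one_mem
    rw [mul_one] at h1
    rcases l4 1 S.one_mem with h2 | h2 | h2 | h2
    · exact h2
    all_goals
      rw [h2] at h1
      simp at h1
      try norm_num at h1
    · have := congrArg Complex.re h1
      simp at this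
    · have := congrArg Complex.re h1
      simp at this
  -- two indices
  obtain ⟨i, l, hil⟩ : ∃ i l : ι, i ≠ l := by
    haveI : Nonempty ι := by
      have h1 := h.cardι
      by_contra hcon
      rw [not_nonempty_iff] at hcon
      rw [Nat.card_of_isEmpty] at h1
      omega
    obtain ⟨i⟩ := ‹Nonempty ι›
    obtain ⟨j, hj, _⟩ := h.exists_third i i
    exact ⟨i, j, Ne.symm hj⟩
  have hdec : ∀ b, ∃ a d, a ∈ A i ∧ d ∈ A l ∧ a * b * d ∈ S := by
    intro b
    obtain ⟨a, ha, d, hd, hz⟩ := h.exists_decomp hil b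
    exact ⟨a, d, ha, hd, hz⟩
  choose α δ hα hδ hζ using hdec
  set ζ : G → G := fun b => α b * b * δ b with hζdef
  have huniq : ∀ b a d, a ∈ A i → d ∈ A l → a * b * d ∈ S → α b = a ∧ δ b = d := by
    intro b a d ha hd hz
    exact h.unique_decomp hil (hα b) (hδ b) (hζ b) ha hd hz
  have hident : ∀ a a' b b' d d' : G, (a * a') * (b * b') * (d * d') =
      (a * b * d) * ((b * d)⁻¹ * a' * (b * d)⁻¹⁻¹ * a'⁻¹) *
      (a' * (d⁻¹ * b' * d⁻¹⁻¹ * b'⁻¹) * a'⁻¹) * (a' * b' * d') := by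
    intro a a' b b' d d'
    group
  have hmem : ∀ b b', (α b * α b') * (b * b') * (δ b * δ b') ∈ S := by
    intro b b'
    rw [hident]
    exact mul_mem (mul_mem (mul_mem (hζ b) (h.comm_mem _ _))
      (hn.conj_mem _ (h.comm_mem _ _) _)) (hζ b')
  have hhom : ∀ b b', α (b * b') = α b * α b' ∧ δ (b * b') = δ b * δ b' := by
    intro b b'
    exact huniq _ _ _ (mul_mem (hα b) (hα b')) (mul_mem (hδ b) (hδ b')) (hmem b b')
  have hone : α 1 = 1 ∧ δ 1 = 1 := by
    apply huniq 1 1 1 (A i).one_mem (A l).one_mem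
    simp [S.one_mem]
  have hζ1 : ζ 1 = 1 := by
    simp only [hζdef]
    rw [hone.1, hone.2]; simp
  have l3 : ∀ z ∈ S, ∀ g, lam (g * z * g⁻¹) = lam z := by
    intro z hz g
    have h1 : g * z * g⁻¹ = (g * z * g⁻¹ * z⁻¹) * z := by group
    rw [h1, l1 _ (h.comm_mem _ _) _ hz, l2, hQ.csymm, hcS z hz]
    norm_num
  have hAA : ∀ k, ∀ a ∈ A k, ∀ a' ∈ A k, c a a' = 1 := by
    intro k a ha a' ha'
    have h1 := hQ.Qmul a a'
    rw [hQ.QA k _ (mul_mem ha ha'), hQ.QA k _ ha, hQ.QA k _ ha'] at h1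
    linarith
  have cinv : ∀ x y, c x⁻¹ y = c x y := by
    intro x y
    have h1 := hQ.cmul x⁻¹ x y
    rw [inv_mul_cancel, hQ.one_c] at h1
    rcases hQ.cpm x y with h2 | h2
    · rw [h2] at h1 ⊢; linarith
    · rw [h2] at h1 ⊢; linarith
  have hlamζ : ∀ b b', lam (ζ (b * b')) = lam (ζ b) * lam (ζ b') * c (δ b) b' := by
    intro b b'
    simp only [hζdef]
    rw [(hhom b b').1, (hhom b b').2, hident]
    have m1 := hζ b
    have m2 := hζ b'
    have m3 := h.comm_mem (b * δ b)⁻¹ (α b')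
    have m4 := h.comm_mem (δ b)⁻¹ b'
    have m5 := hn.conj_mem _ m4 (α b')
    rw [l1 _ (mul_mem (mul_mem m1 m3) m5) _ m2, l1 _ (mul_mem m1 m3) _ m5, l1 _ m1 _ m3,
      l3 _ m4, l2, l2]
    have h1 : c (b * δ b)⁻¹ (α b') = 1 := by
      have h2 : (b * δ b)⁻¹ = (α b * b * δ b)⁻¹ * α b := by group
      rw [h2, hQ.cmul, hcS _ (inv_mem m1), hAA i _ (hα b) _ (hα b'), mul_one]
    rw [h1, cinv]
    push_cast
    ring
  -- facts for j ≠ i, l
  have hαne : ∀ j, j ≠ l → ∀ b ∈ A j, b ≠ 1 → α b ≠ 1 := by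
    intro j hjl b hb hb1 h1
    apply hb1
    have h2 : InB (A l) S b := by
      have h3 : b = (α b * b * δ b) * (δ b)⁻¹ := by rw [h1]; group
      rw [h3]
      exact inB_mul hn (inB_of_mem_S (hζ b)) (inB_inv hn (inB_of_mem_A (hδ b)))
    exact h.disj j b hb (h.inter hjl (inB_of_mem_A hb) h2)
  have hδne : ∀ j, j ≠ i → ∀ b ∈ A j, δ b = 1 → b = 1 := by
    intro j hji b hb h1
    have h2 : InB (A i) S b := by
      have h3 : b = (α b)⁻¹ * (α b * b * δ b) := by rw [h1]; group
      rw [h3]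
      exact inB_mul hn (inB_inv hn (inB_of_mem_A (hα b))) (inB_of_mem_S (hζ b))
    exact h.disj j b hb (h.inter hji (inB_of_mem_A hb) h2)
  -- surjectivity of δ on A j
  have hδsurj : ∀ j, j ≠ i → ∀ d ∈ A l, ∃ b ∈ A j, δ b = d := by
    intro j hji d hd
    have hinj : Set.InjOn δ (el (A j)) := by
      intro b hb b' hb' heq
      rw [Finset.mem_coe, mem_el] at hb hb'
      have h1 := (hhom (b * b'⁻¹) b').2
      rw [inv_mul_cancel_right, heq] at h1
      have h2 : δ (b * b'⁻¹) = 1 := by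
        exact (mul_eq_right.1 h1.symm)
      have h3 := hδne j hji _ (mul_mem hb (inv_mem hb')) h2
      exact mul_inv_eq_one.1 h3
    have h1 : (el (A j)).image δ = el (A l) := by
      apply Finset.eq_of_subset_of_card_le
      · intro x hx
        rw [Finset.mem_image] at hx
        obtain ⟨b, _, rfl⟩ := hx
        exact mem_el.2 (hδ b)
      · rw [Finset.card_image_of_injOn hinj, card_el, card_el, h.cardA, h.cardA]
    have h2 : d ∈ (el (A j)).image δ := by rw [h1]; exact mem_el.2 hd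
    rw [Finset.mem_image] at h2
    obtain ⟨b, hb, hbd⟩ := h2
    exact ⟨b, mem_el.1 hb, hbd⟩
  -- unit modulus
  have hconj : ∀ z ∈ S, lam z * (starRingEnd ℂ) (lam z) = 1 := by
    intro z hz
    rcases l4 z hz with h2 | h2 | h2 | h2 <;> rw [h2] <;> simp
  -- norm
  have hnorm : ∀ j, j ≠ i → j ≠ l → (∑ b ∈ el (A j), lam (ζ b)) *
      (starRingEnd ℂ) (∑ b ∈ el (A j), lam (ζ b)) = q := by
    intro j hji hjl
    rw [map_sum, Finset.mul_sum]
    have h1 : ∀ b' ∈ el (A j), (∑ b ∈ el (A j), lam (ζ b)) * (starRingEnd ℂ) (lam (ζ b')) =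
        ∑ x ∈ el (A j), lam (ζ x) * c (δ b') x := by
      intro b' hb'
      rw [mem_el] at hb'
      have h2 : ∑ b ∈ el (A j), lam (ζ b) = ∑ x ∈ el (A j), lam (ζ (b' * x)) := by
        symm
        apply Finset.sum_nbij' (fun x => b' * x) (fun x => b'⁻¹ * x)
        · intro x hx; exact mem_el.2 (mul_mem hb' (mem_el.1 hx))
        · intro x hx; exact mem_el.2 (mul_mem (inv_mem hb') (mem_el.1 hx))
        · intro x _; group
        · intro x _; group
        · intro x _; rfl
      rw [h2, Finset.sum_mul]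
      apply Finset.sum_congr rfl
      intro x _
      rw [hlamζ]
      have h3 := hconj (ζ b') (hζ b')
      calc lam (ζ b') * lam (ζ x) * c (δ b') x * (starRingEnd ℂ) (lam (ζ b')) =
          (lam (ζ b') * (starRingEnd ℂ) (lam (ζ b'))) * (lam (ζ x) * c (δ b') x) := by ring
        _ = _ := by rw [h3, one_mul]
    rw [Finset.sum_congr rfl h1, Finset.sum_comm]
    have h4 : ∀ x ∈ el (A j), ∑ b' ∈ el (A j), lam (ζ x) * (c (δ b') x : ℂ) =
        if x = 1 then (q : ℂ) else 0 := by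
      intro x hx
      rw [← Finset.mul_sum]
      by_cases hx1 : x = 1
      · rw [if_pos hx1, hx1, hζ1, hlam1, one_mul]
        have h5 : ∀ b' ∈ el (A j), ((c (δ b') 1 : ℤ) : ℂ) = 1 := by
          intro b' _
          rw [hQ.c_one]; norm_num
        rw [Finset.sum_congr rfl h5, Finset.sum_const, card_el, h.cardA, nsmul_eq_mul, mul_one]
      · rw [if_neg hx1]
        have h5 : ∑ b' ∈ el (A j), c (δ b') x = 0 := by
          apply sum_char (A j) (fun b' => c (δ b') x)
          · intro a _ b _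
            rw [(hhom a b).2, hQ.cmul]
          · by_contra hcon
            push Not at hcon
            apply hx1
            rw [mem_el] at hx
            apply h.disj j x hx
            refine h.inter hjl (inB_of_mem_A hx) (hcl l x ?_)
            intro d hd
            obtain ⟨b, hb, hbd⟩ := hδsurj j hji d hd
            rw [hQ.csymm, ← hbd]
            exact hcon b hb
        have h6 : ∑ b' ∈ el (A j), ((c (δ b') x : ℤ) : ℂ) = 0 := by
          rw [← Int.cast_sum, h5, Int.cast_zero]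
        rw [h6, mul_zero]
    rw [Finset.sum_congr rfl h4, Finset.sum_ite_eq' , if_pos (mem_el.2 (A j).one_mem)]
  -- the total sum
  set J := (univ.erase i).erase l with hJ
  have hJcard : J.card = q - 1 := by
    rw [hJ, Finset.card_erase_of_mem (Finset.mem_erase.2 ⟨Ne.symm hil, mem_univ _⟩),
      Finset.card_erase_of_mem (mem_univ _), Finset.card_univ, ← Nat.card_eq_fintype_card,
      h.cardι]
    omega
  have hsumS : ∑ z ∈ (el S).erase 1, lam z = -1 := by
    have h1 := sum_char S lam l1 l5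
    rw [← Finset.add_sum_erase (el S) _ (mem_el.2 S.one_mem), hlam1] at h1
    linear_combination h1
  have htot : ∑ j ∈ J, ∑ b ∈ (el (A j)).erase 1, lam (ζ b) =
      ∑ a ∈ (el (A i)).erase 1, ∑ z ∈ (el S).erase 1, lam z := by
    rw [Finset.sum_sigma' J (fun j => (el (A j)).erase 1) (fun _ b => lam (ζ b)),
      ← Finset.sum_product (f := fun p : G × G => lam p.2)]
    apply Finset.sum_nbij (fun p => (α p.2, ζ p.2))
    · rintro ⟨j, b⟩ hp
      rw [Finset.mem_sigma, hJ, Finset.mem_erase, Finset.mem_erase, Finset.mem_erase, mem_el] at hp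
      obtain ⟨⟨hjl, hji, _⟩, hb1, hb⟩ := hp
      simp only at hjl hji hb1 hb ⊢
      rw [Finset.mem_product, Finset.mem_erase, Finset.mem_erase, mem_el, mem_el]
      refine ⟨⟨hαne j hjl b hb hb1, hα b⟩, ?_, hζ b⟩
      intro h1
      simp only [hζdef] at h1
      have h2 : ¬ InB (A i) S b := by
        intro h2
        exact hb1 (h.disj j b hb (h.inter hji (inB_of_mem_A hb) h2))
      apply hjl
      apply h.f2_un i b h2 j l ⟨1, (A i).one_mem, b, hb, by simp⟩
      refine ⟨(α b)⁻¹, inv_mem (hα b), (δ b)⁻¹, inv_mem (hδ b), ?_⟩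
      rw [eq_mul_inv_iff_mul_eq, eq_inv_iff_mul_eq_one, ← h1]
      have h3 : α b * b * δ b = 1 := h1
      have h4 : α b * (b * δ b) = 1 := by rw [← mul_assoc]; exact h3
      have h5 : b * δ b * α b = 1 := by
        rw [mul_eq_one_iff_eq_inv] at h4
        rw [h4]; group
      rw [h5, h1]
    · rintro ⟨j, b⟩ hp ⟨j', b'⟩ hp' heq
      rw [Finset.mem_coe, Finset.mem_sigma, hJ, Finset.mem_erase, Finset.mem_erase,
        Finset.mem_erase, mem_el] at hp hp'
      obtain ⟨⟨hjl, hji, _⟩, hb1, hb⟩ := hp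
      obtain ⟨⟨hjl', hji', _⟩, hb1', hb'⟩ := hp'
      simp only [Prod.mk.injEq] at hjl hji hb1 hb hjl' hji' hb1' hb' heq
      obtain ⟨h1, h2⟩ := heq
      simp only [hζdef] at h2
      have h3 : b * δ b = b' * δ b' := by
        rw [h1, mul_assoc, mul_assoc] at h2
        exact mul_left_cancel h2
      have h4 : (b * δ b)⁻¹ = (δ b')⁻¹ * b'⁻¹ := by rw [h3]; group
      have h5 : ¬ InB (A l) S (b * δ b)⁻¹ := by
        intro h6
        have h7 : InB (A l) S b := by
          have h8 : b = (b * δ b)⁻¹⁻¹ * (δ b)⁻¹ := by group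
          rw [h8]
          exact inB_mul hn (inB_inv hn h6) (inB_inv hn (inB_of_mem_A (hδ b)))
        exact hb1 (h.disj j b hb (h.inter hjl (inB_of_mem_A hb) h7))
      have h6 : j = j' := h.f2_un l _ h5 j j'
        ⟨(δ b)⁻¹, inv_mem (hδ b), b⁻¹, inv_mem hb, by group⟩
        ⟨(δ b')⁻¹, inv_mem (hδ b'), b'⁻¹, inv_mem hb', h4⟩
      subst h6
      have h7 : b'⁻¹ * b = δ b' * (δ b)⁻¹ := by
        rw [inv_mul_eq_iff_eq_mul, ← mul_assoc, eq_mul_inv_iff_mul_eq]; exact h3
      have h8 := h.A_inter hjl (mul_mem (inv_mem hb') hb) (by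
        rw [h7]; exact mul_mem (hδ b') (inv_mem (hδ b)))
      have h9 : b = b' := (inv_mul_eq_one.1 h8).symm
      subst h9
      rfl
    · rintro ⟨a, z⟩ hp
      rw [Finset.mem_coe, Finset.mem_product, Finset.mem_erase, Finset.mem_erase, mem_el,
        mem_el] at hp
      obtain ⟨⟨ha1, ha⟩, hz1, hz⟩ := hp
      simp only at ha1 ha hz1 hz
      have h1 : ¬ InB (A l) S (z⁻¹ * a) := by
        intro h2
        have h3 : InB (A l) S a := by
          have h4 : a = z * (z⁻¹ * a) := by group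
          rw [h4]
          exact inB_mul hn (inB_of_mem_S hz) h2
        exact ha1 (h.disj i a ha (h.inter hil (inB_of_mem_A ha) h3))
      obtain ⟨j, hjl, d', hd', b', hb', hzab⟩ := h.f2_ex l _ h1
      have h2 : a * b'⁻¹ * d'⁻¹ = z := by
        have h3 : a = z * (d' * b') := by rw [← hzab]; group
        rw [h3]; group
      have hji : j ≠ i := by
        intro h3
        rw [h3] at hb'
        have h4 : InB (A i) S d'⁻¹ := by
          have h5 : d'⁻¹ = (a * b'⁻¹)⁻¹ * z := by rw [← h2]; group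
          rw [h5]
          exact inB_mul hn (inB_inv hn (inB_of_mem_A (mul_mem ha (inv_mem hb'))))
            (inB_of_mem_S hz)
        have h5 := h.disj l _ (inv_mem hd') (h.inter hil h4 (inB_of_mem_A (inv_mem hd')))
        rw [h5, mul_one] at h2
        apply hz1
        apply h.disj i z _ hz
        rw [← h2]
        exact mul_mem ha (inv_mem hb')
      have hb1 : b'⁻¹ ≠ 1 := by
        intro h3
        rw [h3, mul_one] at h2
        apply ha1
        apply h.disj i a ha
        refine h.inter hil (inB_of_mem_A ha) ?_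
        have h4 : a = z * d'⁻¹⁻¹ := by rw [← h2]; group
        rw [h4]
        exact inB_mul hn (inB_of_mem_S hz) (inB_of_mem_A (inv_mem (inv_mem hd')))
      have h3 := huniq b'⁻¹ a d'⁻¹ ha (inv_mem hd') (by rw [h2]; exact hz)
      refine ⟨⟨j, b'⁻¹⟩, ?_, ?_⟩
      · rw [Finset.mem_coe, Finset.mem_sigma, hJ, Finset.mem_erase, Finset.mem_erase,
          Finset.mem_erase, mem_el]
        exact ⟨⟨hjl, hji, mem_univ _⟩, hb1, inv_mem hb'⟩
      · simp only [hζdef, Prod.mk.injEq]
        refine ⟨h3.1, ?_⟩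
        rw [h3.1, h3.2]; exact h2
    · intro p _
      rfl
  have htot0 : ∑ j ∈ J, ∑ b ∈ el (A j), lam (ζ b) = 0 := by
    have h1 : ∀ j ∈ J, ∑ b ∈ el (A j), lam (ζ b) = 1 + ∑ b ∈ (el (A j)).erase 1, lam (ζ b) := by
      intro j _
      rw [← Finset.add_sum_erase (el (A j)) _ (mem_el.2 (A j).one_mem), hζ1, hlam1]
    rw [Finset.sum_congr rfl h1, Finset.sum_add_distrib, htot, hsumS, Finset.sum_const,
      Finset.sum_const, hJcard, h.card_erase]
    simp
  -- real and imaginary parts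
  have hri : ∀ z : G, ∃ r m : ℤ, z ∈ S → lam z = r + m * I := by
    intro z
    by_cases hz : z ∈ S
    · rcases l4 z hz with h2 | h2 | h2 | h2
      · exact ⟨1, 0, fun _ => by rw [h2]; simp⟩
      · exact ⟨-1, 0, fun _ => by rw [h2]; simp⟩
      · exact ⟨0, 1, fun _ => by rw [h2]; simp⟩
      · exact ⟨0, -1, fun _ => by rw [h2]; simp⟩
    · exact ⟨0, 0, fun h1 => absurd h1 hz⟩
  choose r m hrm using hri
  have hg : ∀ j, ∑ b ∈ el (A j), lam (ζ b) =
      ((∑ b ∈ el (A j), r (ζ b) : ℤ) : ℂ) + ((∑ b ∈ el (A j), m (ζ b) : ℤ) : ℂ) * I := by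
    intro j
    push_cast
    rw [Finset.sum_mul, ← Finset.sum_add_distrib]
    exact Finset.sum_congr rfl (fun b _ => hrm (ζ b) (hζ b))
  refine gauss J ?_ n (fun j => ∑ b ∈ el (A j), r (ζ b)) (fun j => ∑ b ∈ el (A j), m (ζ b))
    ?_ ?_ ?_
  · rw [hJcard]
    obtain ⟨k, hk⟩ := hqe
    refine ⟨k - 1, ?_⟩
    omega
  · intro j hj
    rw [hJ, Finset.mem_erase, Finset.mem_erase] at hj
    have h1 := hnorm j hj.2.1 hj.1
    rw [hg j] at h1
    have h2 : (((∑ b ∈ el (A j), r (ζ b)) ^ 2 + (∑ b ∈ el (A j), m (ζ b)) ^ 2 : ℤ) : ℂ) =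
        ((2 ^ n : ℤ) : ℂ) := by
      have h3 : ((2 ^ n : ℤ) : ℂ) = (q : ℂ) := by rw [hqn]; push_cast; rfl
      rw [h3, ← h1]
      simp only [map_add, map_mul, Complex.conj_I, map_intCast]
      push_cast
      ring_nf
      rw [Complex.I_sq]
      ring
    exact_mod_cast h2
  · have h1 := htot0
    rw [Finset.sum_congr rfl (fun j _ => hg j), Finset.sum_add_distrib, ← Finset.sum_mul,
      ← Int.cast_sum, ← Int.cast_sum] at h1
    have h2 := congrArg Complex.re h1
    simp at h2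
    exact_mod_cast h2
  · have h1 := htot0
    rw [Finset.sum_congr rfl (fun j _ => hg j), Finset.sum_add_distrib, ← Finset.sum_mul,
      ← Int.cast_sum, ← Int.cast_sum] at h1
    have h2 := congrArg Complex.im h1
    simp at h2
    exact_mod_cast h2

end stage2

end Pool.Agent.Helper801.ASG
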