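import Pool.Agent.Helper801.ASC
import Pool.Agent.Helper801.ASF

/-!
Even `q`: the group is elementary abelian.  Conclusion: `S` is central.
-/

namespace Pool.Agent.Helper801.ASG

open Finset
open scoped commutatorElement IsMulCommutative

section even

variable {G : Type*} [Group G] {ι : Type*} {q : ℕ} {A : ι → Subgroup G}
  {S : Subgroup G}

theorem AS.sq_eq_one (h : AS G ι q A S) (he : Even q) (x : G) : x * x = 1 := by
  classical
  haveI := h.finite
  haveI := h.finiteι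
  haveI : Fintype G := Fintype.ofFinite G
  haveI : Fintype ι := Fintype.ofFinite ι
  have hn := h.normal
  haveI := h.nilpotent
  have h2q : 2 ∣ q := even_iff_two_dvd.1 he
  obtain ⟨n, hqn⟩ := h.prime_pow Nat.prime_two h2q
  by_contra hx
  set Φ : Subgroup G := Subgroup.normalClosure (Set.range (fun x : G => x * x)) with hΦdef
  have hΦn : Φ.Normal := Subgroup.normalClosure_normal
  have sqm : ∀ x : G, x * x ∈ Φ := fun x => Subgroup.subset_normalClosure ⟨x, rfl⟩
  have hΦS : Φ ≤ S := by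
    haveI := hn
    apply Subgroup.normalClosure_le_normal
    rintro _ ⟨y, rfl⟩
    have := h.prime Nat.prime_two h2q y
    rw [pow_two] at this
    exact this
  have hΦ : Φ ≠ ⊥ := by
    intro h1
    have h2 := sqm x
    rw [h1, Subgroup.mem_bot] at h2
    exact hx h2
  have cm : ∀ x y : G, x * y * x⁻¹ * y⁻¹ ∈ Φ := by
    intro x y
    have h1 : x * y * x⁻¹ * y⁻¹ = (x * x) * ((x⁻¹ * y) * (x⁻¹ * y)) * (y⁻¹ * y⁻¹) := by group
    rw [h1]
    exact mul_mem (mul_mem (sqm _) (sqm _)) (sqm _)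
  obtain ⟨ω, ω1, ω2, ω0, x0, hx0, hx01⟩ := exists_omega Φ hΦn hΦ
  have hω1 : ω 1 = 1 := by
    have h1 := ω1 1 Φ.one_mem 1 Φ.one_mem
    rw [mul_one] at h1
    have h2 : ω 1 * (ω 1 - 1) = 0 := by rw [mul_sub, mul_one, ← h1, sub_self]
    rcases mul_eq_zero.1 h2 with h3 | h3
    · exact absurd h3 (ω0 1)
    · exact sub_eq_zero.1 h3
  have hωpow : ∀ x ∈ Φ, ∀ k : ℕ, ω (x ^ k) = ω x ^ k := by
    intro x hx k
    induction k with
    | zero => rw [pow_zero, pow_zero, hω1]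
    | succ k ih => rw [pow_succ, pow_succ, ω1 _ (Φ.pow_mem hx k) _ hx, ih]
  have hex : ∃ k : ℕ, ∀ x ∈ Φ, ω x ^ (2 ^ k) = 1 := by
    refine ⟨3 * n, ?_⟩
    intro x hx
    have h1 : (2 : ℕ) ^ (3 * n) = Nat.card G := by
      rw [h.cardG, hqn, ← pow_mul, mul_comm]
    rw [← hωpow x hx, h1, pow_card_eq_one', hω1]
  set k := Nat.find hex with hk
  have hk1 := Nat.find_spec hex
  rw [← hk] at hk1
  have hk0 : k ≠ 0 := by
    intro h1
    rw [h1] at hk1
    have := hk1 x0 hx0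
    rw [pow_zero, pow_one] at this
    exact hx01 this
  have hk2 := Nat.find_min hex (m := k - 1) (by omega)
  set u : G → ℂ := fun x => ω x ^ (2 ^ (k - 1)) with hu
  have u1 : ∀ x ∈ Φ, ∀ y ∈ Φ, u (x * y) = u x * u y := by
    intro x hx y hy
    simp only [hu]
    rw [ω1 x hx y hy, mul_pow]
  have u2 : ∀ x ∈ Φ, ∀ g, u (g * x * g⁻¹) = u x := by
    intro x hx g
    simp only [hu]
    rw [ω2 x hx]
  have u3 : ∀ x ∈ Φ, u x = 1 ∨ u x = -1 := by
    intro x hx
    apply mul_self_eq_one_iff.1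
    simp only [hu]
    rw [← pow_add, ← hk1 x hx]
    congr 1
    obtain ⟨m, hm⟩ : ∃ m, k = m + 1 := ⟨k - 1, by omega⟩
    rw [hm]
    simp only [Nat.add_sub_cancel]
    rw [pow_succ]; ring
  have uone : u 1 = 1 := by
    simp only [hu]
    rw [hω1, one_pow]
  obtain ⟨x1, hx1, hx11⟩ : ∃ x1 ∈ Φ, u x1 ≠ 1 := by
    by_contra hcon
    push Not at hcon
    exact hk2 hcon
  have uinv : ∀ x ∈ Φ, u x⁻¹ = u x := by
    intro x hx
    have h1 := u1 x hx _ (inv_mem hx)
    rw [mul_inv_cancel, uone] at h1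
    rcases u3 x hx with h2 | h2
    · rw [h2] at h1 ⊢; rw [one_mul] at h1; exact h1.symm
    · rw [h2] at h1 ⊢; linear_combination h1
  set ev : G → ℤ := fun x => if u x = 1 then 1 else -1 with hev
  have hevc : ∀ x ∈ Φ, (ev x : ℂ) = u x := by
    intro x hx
    simp only [hev]
    rcases u3 x hx with h2 | h2
    · rw [if_pos h2, h2]; norm_num
    · have h3 : u x ≠ 1 := by rw [h2]; norm_num
      rw [if_neg h3, h2]; norm_num
  have hevpm : ∀ x, ev x = 1 ∨ ev x = -1 := by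
    intro x
    simp only [hev]
    by_cases h2 : u x = 1
    · left; rw [if_pos h2]
    · right; rw [if_neg h2]
  set Q : G → ℤ := fun x => ev (x * x) with hQdef
  set c : G → G → ℤ := fun x y => ev (x * y * x⁻¹ * y⁻¹) with hcdef
  have hQc : ∀ x, (Q x : ℂ) = u (x * x) := fun x => hevc _ (sqm x)
  have hcc : ∀ x y, (c x y : ℂ) = u (x * y * x⁻¹ * y⁻¹) := fun x y => hevc _ (cm x y)
  have csymm : ∀ x y, c x y = c y x := by
    intro x y
    have h1 : (c x y : ℂ) = (c y x : ℂ) := by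
      rw [hcc, hcc, ← uinv _ (cm y x)]
      congr 1
      group
    exact_mod_cast h1
  have hQ : QC A Q c := by
    refine ⟨fun x => hevpm _, ?_, ?_, csymm, ?_, ?_⟩
    · intro x y
      have h1 : ((Q (x * y) : ℤ) : ℂ) = ((Q x * Q y * c x y : ℤ) : ℂ) := by
        rw [csymm x y]
        push_cast
        rw [hQc, hQc, hQc, hcc]
        have e1 : x * y * (x * y) = (x * x) * (x⁻¹ * (y * x * y⁻¹ * x⁻¹) * x⁻¹⁻¹) * (y * y) := by
          group
        rw [e1, u1 _ (mul_mem (sqm x) (hΦn.conj_mem _ (cm y x) _)) _ (sqm y),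
          u1 _ (sqm x) _ (hΦn.conj_mem _ (cm y x) _), u2 _ (cm y x)]
        ring
      exact_mod_cast h1
    · intro x y z
      have h1 : ((c (x * y) z : ℤ) : ℂ) = ((c x z * c y z : ℤ) : ℂ) := by
        push_cast
        rw [hcc, hcc, hcc]
        have e1 : x * y * z * (x * y)⁻¹ * z⁻¹ =
            (x * (y * z * y⁻¹ * z⁻¹) * x⁻¹) * (x * z * x⁻¹ * z⁻¹) := by group
        rw [e1, u1 _ (hΦn.conj_mem _ (cm y z) _) _ (cm x z), u2 _ (cm y z)]
        ring
      exact_mod_cast h1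
    · intro x
      have h1 : ((c x x : ℤ) : ℂ) = ((1 : ℤ) : ℂ) := by
        rw [hcc]
        have e1 : x * x * x⁻¹ * x⁻¹ = 1 := by group
        rw [e1, uone]; norm_num
      exact_mod_cast h1
    · intro i a ha
      have h1 : ((Q a : ℤ) : ℂ) = ((1 : ℤ) : ℂ) := by
        rw [hQc]
        have e1 := h.A_pow Nat.prime_two h2q ha
        rw [pow_two] at e1
        rw [e1, uone]; norm_num
      exact_mod_cast h1
  have hcΦ : ∀ z ∈ Φ, ∀ g, c z g = 1 := by
    intro z hz g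
    have h1 : ((c z g : ℤ) : ℂ) = ((1 : ℤ) : ℂ) := by
      rw [hcc]
      have e1 : z * g * z⁻¹ * g⁻¹ = z * (g * z⁻¹ * g⁻¹) := by group
      rw [e1, u1 _ hz _ (hΦn.conj_mem _ (inv_mem hz) _), u2 _ (inv_mem hz), ← u1 _ hz _ (inv_mem hz),
        mul_inv_cancel, uone]
      norm_num
    exact_mod_cast h1
  -- the kernel of u
  let K : Subgroup G :=
    { carrier := {x | x ∈ Φ ∧ u x = 1}
      mul_mem' := by
        rintro a b ⟨ha, ha1⟩ ⟨hb, hb1⟩
        exact ⟨mul_mem ha hb, by rw [u1 a ha b hb, ha1, hb1, mul_one]⟩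
      one_mem' := ⟨Φ.one_mem, uone⟩
      inv_mem' := by
        rintro a ⟨ha, ha1⟩
        exact ⟨inv_mem ha, by rw [uinv a ha, ha1]⟩ }
  haveI hKn : K.Normal := by
    constructor
    rintro a ⟨ha, ha1⟩ g
    exact ⟨hΦn.conj_mem a ha g, by rw [u2 a ha, ha1]⟩
  have hKmem : ∀ x, x ∈ K ↔ x ∈ Φ ∧ u x = 1 := fun x => Iff.rfl
  by_cases hII : ∀ y ∈ S, (∀ g, c y g = 1) → Q y = 1
  · have h1 := stage1_two h hQ (hΦS (sqm x)) hx (hcΦ _ (sqm x)) hII
    have h2 : Φ ≤ K := by
      apply Subgroup.normalClosure_le_normal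
      rintro _ ⟨y, rfl⟩
      refine ⟨sqm y, ?_⟩
      change u (y * y) = 1
      rw [← hQc, h1 y]; norm_num
    exact hx11 (h2 hx1).2
  · push Not at hII
    obtain ⟨y, hy, hcy, hQy⟩ := hII
    obtain ⟨hcS, hcl⟩ := stage1_one h hQ hy hcy hQy
    have hcen : ∀ z ∈ S, (QuotientGroup.mk z : G ⧸ K) ∈ Subgroup.center (G ⧸ K) := by
      intro z hz
      rw [Subgroup.mem_center_iff]
      intro g
      obtain ⟨g, rfl⟩ := QuotientGroup.mk_surjective g
      rw [← QuotientGroup.mk_mul, ← QuotientGroup.mk_mul, eq_comm, QuotientGroup.eq]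
      have h1 : (z * g)⁻¹ * (g * z) = g⁻¹ * z⁻¹ * g⁻¹⁻¹ * z⁻¹⁻¹ := by group
      rw [h1]
      refine ⟨cm _ _, ?_⟩
      rw [← hcc, csymm, hcS _ (inv_mem hz)]
      norm_num
    have hx1' : (⟨QuotientGroup.mk x1, hcen x1 (hΦS hx1)⟩ : Subgroup.center (G ⧸ K)) ≠ 1 := by
      intro h1
      have h2 : (QuotientGroup.mk x1 : G ⧸ K) = 1 := congrArg Subtype.val h1
      rw [QuotientGroup.eq_one_iff] at h2
      exact hx11 h2.2
    obtain ⟨φ, hφ⟩ := CommGroup.exists_apply_ne_one_of_hasEnoughRootsOfUnity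
      (Subgroup.center (G ⧸ K)) ℂ hx1'
    set lam : G → ℂ := fun x => if hc : (QuotientGroup.mk x : G ⧸ K) ∈ Subgroup.center (G ⧸ K)
      then ((φ ⟨QuotientGroup.mk x, hc⟩ : ℂˣ) : ℂ) else 1 with hlam
    have hlamS : ∀ z (hz : z ∈ S), lam z = ((φ ⟨QuotientGroup.mk z, hcen z hz⟩ : ℂˣ) : ℂ) := by
      intro z hz
      simp only [hlam, dif_pos (hcen z hz)]
    have l1 : ∀ z ∈ S, ∀ w ∈ S, lam (z * w) = lam z * lam w := by
      intro z hz w hw
      rw [hlamS z hz, hlamS w hw, hlamS (z * w) (mul_mem hz hw), ← Units.val_mul, ← map_mul]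
      rfl
    have lK : ∀ t ∈ K, lam t = 1 := by
      intro t ht
      rw [hlamS t (hΦS ht.1)]
      have h1 : (⟨QuotientGroup.mk t, hcen t (hΦS ht.1)⟩ : Subgroup.center (G ⧸ K)) = 1 := by
        apply Subtype.ext
        exact (QuotientGroup.eq_one_iff t).2 ht
      rw [h1, map_one, Units.val_one]
    have lx1 : lam x1 = -1 := by
      have h1 : lam x1 * lam x1 = 1 := by
        rw [← l1 _ (hΦS hx1) _ (hΦS hx1)]
        apply lK
        refine ⟨mul_mem hx1 hx1, ?_⟩
        rw [u1 _ hx1 _ hx1]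
        rcases u3 x1 hx1 with h2 | h2 <;> rw [h2] <;> norm_num
      rcases mul_self_eq_one_iff.1 h1 with h2 | h2
      · exfalso
        apply hφ
        rw [hlamS x1 (hΦS hx1)] at h2
        exact Units.ext h2
      · exact h2
    have ux1 : u x1 = -1 := by
      rcases u3 x1 hx1 with h2 | h2
      · exact absurd h2 hx11
      · exact h2
    have lΦ : ∀ t ∈ Φ, lam t = u t := by
      intro t ht
      rcases u3 t ht with h2 | h2
      · rw [h2]; exact lK t ⟨ht, h2⟩
      · have h3 : x1⁻¹ * t ∈ K := by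
          refine ⟨mul_mem (inv_mem hx1) ht, ?_⟩
          rw [u1 _ (inv_mem hx1) _ ht, uinv _ hx1, ux1, h2]; norm_num
        have h4 : t = x1 * (x1⁻¹ * t) := by group
        rw [h4, l1 _ (hΦS hx1) _ (hΦS h3.1), lK _ h3, lx1, ← h4, h2, mul_one]
    refine stage2 h hQ hcS hcl lam l1 ?_ ?_ ⟨x1, hΦS hx1, ?_⟩ hqn
    · intro x y
      rw [lΦ _ (cm x y), hcc]
    · intro z hz
      have h1 : lam z * lam z = u (z * z) := by
        rw [← l1 z hz z hz, lΦ _ (sqm z)]
      rcases u3 _ (sqm z) with h2 | h2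
      · rw [h2] at h1
        rcases mul_self_eq_one_iff.1 h1 with h3 | h3
        · exact Or.inl h3
        · exact Or.inr (Or.inl h3)
      · rw [h2, ← Complex.I_mul_I] at h1
        rcases mul_self_eq_mul_self_iff.1 h1 with h3 | h3
        · exact Or.inr (Or.inr (Or.inl h3))
        · exact Or.inr (Or.inr (Or.inr h3))
    · rw [lx1]; norm_num

/-- the kernel `S` is central in all cases -/
theorem AS.central (h : AS G ι q A S) {z g : G} (hz : z ∈ S) : z * g = g * z := by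
  rcases Nat.even_or_odd q with he | ho
  · have hsq : ∀ x : G, x * x = 1 := h.sq_eq_one he
    have hinv : ∀ x : G, x⁻¹ = x := fun x => inv_eq_of_mul_eq_one_left (hsq x)
    calc z * g = (z * g)⁻¹ := (hinv _).symm
      _ = g⁻¹ * z⁻¹ := mul_inv_rev z g
      _ = g * z := by rw [hinv g, hinv z]
  · exact h.central_odd ho hz

end even

end Pool.Agent.Helper801.ASG
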