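import Pool.Agent.Helper801.GQC
import Pool.Agent.Helper801.ASH

/-!
From a skew translation quadrangle of order `(q,q)` to the group configuration `AS`.
-/

namespace Pool.Agent.Helper801.GQA

open Finset Pool.Agent.Helper801.ASG

section geom

variable {P L : Type*} {I : P → L → Prop} {s t : ℕ} {x : P}
  {G : Subgroup (Equiv.Perm P × Equiv.Perm L)}

/-- transitivity of the symmetries in `G` about `x` -/
def SymTrans {P L : Type*} (I : P → L → Prop) (x : P)
    (G : Subgroup (Equiv.Perm P × Equiv.Perm L)) : Prop :=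
  ∀ v w : P, Coll I v x → Coll I w x → ¬ Coll I v w →
    ∀ a b : P, a ≠ x → Coll I a v → Coll I a w → b ≠ x → Coll I b v → Coll I b w →
      ∃ σ ∈ G, IsSymmetry I x σ ∧ σ.1 a = b

/-- the stabilizer of a line -/
def lineStab (G : Subgroup (Equiv.Perm P × Equiv.Perm L)) (l : L) : Subgroup G where
  carrier := {g | (g : Equiv.Perm P × Equiv.Perm L).2 l = l}
  mul_mem' := by
    intro a b ha hb
    change (a : Equiv.Perm P × Equiv.Perm L).2 ((b : Equiv.Perm P × Equiv.Perm L).2 l) = l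
    rw [hb, ha]
  one_mem' := rfl
  inv_mem' := by
    intro a ha
    change ((a : Equiv.Perm P × Equiv.Perm L).2)⁻¹ l = l
    rw [Equiv.Perm.inv_eq_iff_eq]
    exact ha.symm

theorem mem_lineStab {l : L} {g : G} :
    g ∈ lineStab G l ↔ (g : Equiv.Perm P × Equiv.Perm L).2 l = l := Iff.rfl

/-- the symmetries in `G` -/
def symSub (I : P → L → Prop) (x : P) (G : Subgroup (Equiv.Perm P × Equiv.Perm L)) :
    Subgroup G where
  carrier := {g | IsSymmetry I x (g : Equiv.Perm P × Equiv.Perm L)}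
  mul_mem' := by
    rintro a b ⟨ha, ha'⟩ ⟨hb, hb'⟩
    refine ⟨(Aut I).mul_mem ha hb, ?_⟩
    intro p hp
    change (a : Equiv.Perm P × Equiv.Perm L).1 ((b : Equiv.Perm P × Equiv.Perm L).1 p) = p
    rw [hb' p hp, ha' p hp]
  one_mem' := ⟨(Aut I).one_mem, fun _ _ => rfl⟩
  inv_mem' := by
    rintro a ⟨ha, ha'⟩
    refine ⟨(Aut I).inv_mem ha, ?_⟩
    intro p hp
    change ((a : Equiv.Perm P × Equiv.Perm L).1)⁻¹ p = p
    rw [Equiv.Perm.inv_eq_iff_eq]
    exact (ha' p hp).symm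

theorem mem_symSub {g : G} :
    g ∈ symSub I x G ↔ IsSymmetry I x (g : Equiv.Perm P × Equiv.Perm L) := Iff.rfl

theorem coll_fix (hG : IsElationGroup I x G) {g : Equiv.Perm P × Equiv.Perm L} (hg : g ∈ G) {p : P} :
    Coll I x (g.1 p) ↔ Coll I x p := by
  constructor
  · intro h1
    have h2 := coll_map ((Aut I).inv_mem (hG.le_aut hg)) h1
    have h3 : (g⁻¹).1 (g.1 p) = p := by simp
    have h4 : (g⁻¹).1 x = x := hG.fix_pt _ (G.inv_mem hg)
    rwa [h3, h4] at h2
  · intro h1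
    have h2 := coll_map (hG.le_aut hg) h1
    rwa [hG.fix_pt g hg] at h2

theorem symSub_normal (hG : IsElationGroup I x G) : (symSub I x G).Normal := by
  constructor
  rintro ⟨a, haG⟩ ⟨ha, ha'⟩ ⟨g, hgG⟩
  refine ⟨(Aut I).mul_mem ((Aut I).mul_mem (hG.le_aut hgG) ha) ((Aut I).inv_mem (hG.le_aut hgG)), ?_⟩
  intro p hp
  change g.1 (a.1 ((g⁻¹).1 p)) = p
  have h1 : Coll I x ((g⁻¹).1 p) := (coll_fix hG (G.inv_mem hgG)).2 hp
  have h2 : a.1 ((g⁻¹).1 p) = (g⁻¹).1 p := ha' _ h1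
  rw [h2]
  simp

theorem not_coll_of_lines (h : IsGQ I s t) {y y' : P} {N N' : L} (hxN : I x N) (hyN : I y N)
    (hyx : y ≠ x) (hxN' : I x N') (hyN' : I y' N') (hyx' : y' ≠ x) (hNN : N ≠ N') :
    ¬ Coll I y y' := by
  rintro ⟨K, hyK, hyK'⟩
  by_cases hxK : I x K
  · have h1 : K = N := h.unique_line y x hyx K N hyK hxK hyN hxN
    have h2 : K = N' := h.unique_line y' x hyx' K N' hyK' hxK hyN' hxN'
    exact hNN (h1.symm.trans h2)
  · have h1 : y = y' := proj_unique h hxK hyK hyK' ⟨N, hxN, hyN⟩ ⟨N', hxN', hyN'⟩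
    subst h1
    exact hNN (h.unique_line y x hyx N N' hyN hxN hyN' hxN')

/-- Lemma (K): an elation fixing two noncollinear points collinear with `x` is a symmetry -/
theorem symm_of_fix (h : IsGQ I s t) (ht : 0 < t) (hG : IsElationGroup I x G)
    (hc : SymTrans I x G) {y y' : P} (hy : Coll I x y) (hy' : Coll I x y')
    (hyy : ¬ Coll I y y') {g : Equiv.Perm P × Equiv.Perm L} (hg : g ∈ G) (hgy : g.1 y = y)
    (hgy' : g.1 y' = y') : IsSymmetry I x g := by
  obtain ⟨N, hxN, hyN⟩ := hy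
  have hyx : y ≠ x := by
    rintro rfl; exact hyy hy'
  obtain ⟨M, hyM, hMN⟩ := exists_other_line h ht y N
  have hxM : ¬ I x M := fun h1 => hMN (h.unique_line y x hyx M N hyM h1 hyN hxN)
  have hy'M : ¬ I y' M := fun h1 => hyy ⟨M, hyM, h1⟩
  obtain ⟨u, ⟨huM, hu'⟩, _⟩ := h.proj y' M hy'M
  have hux : ¬ Coll I x u := by
    intro h1
    have h2 : u = y := proj_unique h hxM huM hyM h1 ⟨N, hxN, hyN⟩
    rw [h2] at hu'
    exact hyy (coll_symm hu')
  have hux' : u ≠ x := by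
    rintro rfl; exact hxM huM
  have hgux : ¬ Coll I x (g.1 u) := fun h1 => hux ((coll_fix hG hg).1 h1)
  have hgux' : g.1 u ≠ x := by
    intro h1
    apply hux'
    apply g.1.injective
    rw [h1, hG.fix_pt g hg]
  have hguy : Coll I (g.1 u) y := by
    have := coll_map (hG.le_aut hg) (⟨M, huM, hyM⟩ : Coll I u y)
    rwa [hgy] at this
  have hguy' : Coll I (g.1 u) y' := by
    have := coll_map (hG.le_aut hg) (coll_symm hu')
    rwa [hgy'] at this
  obtain ⟨σ, hσG, hσ, hσu⟩ := hc y y' ⟨N, hyN, hxN⟩ (coll_symm hy') hyy u (g.1 u) hux'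
    ⟨M, huM, hyM⟩ (coll_symm hu') hgux' hguy hguy'
  obtain ⟨_, _, hz⟩ := hG.sharp u (g.1 u) hux hgux
  have h1 : g = σ := by rw [hz g ⟨hg, rfl⟩, hz σ ⟨hσG, hσu⟩]
  rw [h1]; exact hσ

/-- a symmetry fixing a line not through `x` is trivial -/
theorem symm_fix_line (h : IsGQ I s t) (ht : 0 < t) (hG : IsElationGroup I x G) {p0 : P}
    (hp0 : ¬ Coll I x p0) {l : L} (hl : I p0 l) {g : Equiv.Perm P × Equiv.Perm L} (hg : g ∈ G)
    (hgs : IsSymmetry I x g) (hgl : g.2 l = l) : g = 1 := by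
  have hxl : ¬ I x l := fun h1 => hp0 ⟨l, h1, hl⟩
  obtain ⟨y, hyl, ⟨N, hxN, hyN⟩, hyx, hy4⟩ := exists_y h x hxl
  obtain ⟨N', hxN', hNN'⟩ := exists_other_line h ht x N
  have hyN' : ¬ I y N' := fun h1 => hNN' (h.unique_line x y hyx.symm N' N hxN' h1 hxN hyN)
  have hp0N' : ¬ I p0 N' := fun h1 => hp0 ⟨N', hxN', h1⟩
  obtain ⟨w, ⟨hw1, hw2⟩, _⟩ := h.proj p0 N' hp0N'
  have hgw : g.1 w = w := hgs.2 w ⟨N', hxN', hw1⟩
  have hwl : ¬ I w l := by
    intro h1
    by_cases h2 : w = y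
    · exact hyN' (h2 ▸ hw1)
    · exact hy4 w h1 h2 ⟨N', hxN', hw1⟩
  have hgA := hG.le_aut hg
  have h1 : I (g.1 p0) l := by
    have := (aut_iff hgA p0 l).2 hl
    rwa [hgl] at this
  have h2 : Coll I w (g.1 p0) := by
    have := coll_map hgA (coll_symm hw2)
    rwa [hgw] at this
  have h3 : g.1 p0 = p0 := proj_unique h hwl h1 hl h2 (coll_symm hw2)
  exact elation_eq_one hG hg hp0 h3

/-- symmetries are transitive on the lines `≠ xy` through `y` -/
theorem sym_trans_lines (h : IsGQ I s t) (ht : 0 < t) (hc : SymTrans I x G) {p0 : P}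
    (hp0 : ¬ Coll I x p0) {l : L} (hl : I p0 l) {y : P} (hyl : I y l) (hxy : Coll I x y) {M : L}
    (hyM : I y M) (hxM : ¬ I x M) : ∃ σ ∈ G, IsSymmetry I x σ ∧ σ.2 l = M := by
  have hxl : ¬ I x l := fun h1 => hp0 ⟨l, h1, hl⟩
  have hyx : y ≠ x := by
    rintro rfl; exact hxM hyM
  obtain ⟨N, hxN, hyN⟩ := hxy
  obtain ⟨N', hxN', hNN'⟩ := exists_other_line h ht x N
  have hp0N' : ¬ I p0 N' := fun h1 => hp0 ⟨N', hxN', h1⟩
  obtain ⟨w, ⟨hw1, hw2⟩, _⟩ := h.proj p0 N' hp0N'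
  have hp0x : p0 ≠ x := by
    rintro rfl; exact hp0 (coll_self h p0)
  have hwx : w ≠ x := by
    rintro rfl; exact hp0 (coll_symm hw2)
  have hyw : ¬ Coll I y w := not_coll_of_lines h hxN hyN hyx hxN' hw1 hwx hNN'.symm
  have hwM : ¬ I w M := fun h1 => hyw ⟨M, hyM, h1⟩
  obtain ⟨u, ⟨huM, huw⟩, _⟩ := h.proj w M hwM
  have hux : u ≠ x := by
    rintro rfl; exact hxM huM
  have huy : u ≠ y := by
    rintro rfl; exact hyw (coll_symm huw)
  obtain ⟨σ, hσG, hσ, hσu⟩ := hc y w ⟨N, hyN, hxN⟩ ⟨N', hw1, hxN'⟩ hyw p0 u hp0x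
    ⟨l, hl, hyl⟩ hw2 hux ⟨M, huM, hyM⟩ (coll_symm huw)
  refine ⟨σ, hσG, hσ, ?_⟩
  have h1 : I y (σ.2 l) := by
    have := (aut_iff hσ.1 y l).2 hyl
    rwa [hσ.2 y ⟨N, hxN, hyN⟩] at this
  have h2 : I u (σ.2 l) := by
    have := (aut_iff hσ.1 p0 l).2 hl
    rwa [hσu] at this
  exact h.unique_line u y huy _ _ h2 h1 huM hyM

/-- `A_l S` is the stabilizer of the point of `l` collinear with `x` -/
theorem inB_iff_fix (h : IsGQ I s t) (ht : 0 < t) (hG : IsElationGroup I x G)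
    (hc : SymTrans I x G) {p0 : P} (hp0 : ¬ Coll I x p0) {l : L} (hl : I p0 l) {y : P}
    (hyl : I y l) (hxy : Coll I x y) (g : G) :
    InB (lineStab G l) (symSub I x G) g ↔ (g : Equiv.Perm P × Equiv.Perm L).1 y = y := by
  have hxl : ¬ I x l := fun h1 => hp0 ⟨l, h1, hl⟩
  constructor
  · rintro ⟨a, ha, z, hz, rfl⟩
    change (a : Equiv.Perm P × Equiv.Perm L).1 ((z : Equiv.Perm P × Equiv.Perm L).1 y) = y
    rw [(mem_symSub.1 hz).2 y hxy]
    have h1 : I ((a : Equiv.Perm P × Equiv.Perm L).1 y) l := by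
      have := (aut_iff (hG.le_aut a.2) y l).2 hyl
      rwa [mem_lineStab.1 ha] at this
    exact proj_unique h hxl h1 hyl ((coll_fix hG a.2).2 hxy) hxy
  · intro hgy
    have h1 : I y ((g : Equiv.Perm P × Equiv.Perm L).2 l) := by
      have := (aut_iff (hG.le_aut g.2) y l).2 hyl
      rwa [hgy] at this
    have h2 : ¬ I x ((g : Equiv.Perm P × Equiv.Perm L).2 l) := by
      intro h3
      apply hxl
      have := (aut_iff (hG.le_aut g.2) x l).1 (by rwa [hG.fix_pt _ g.2])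
      exact this
    obtain ⟨σ, hσG, hσ, hσl⟩ := sym_trans_lines h ht hc hp0 hl hyl hxy h1 h2
    set σ' : G := ⟨σ, hσG⟩ with hσ'
    have hσS : σ' ∈ symSub I x G := hσ
    have ha : σ'⁻¹ * g ∈ lineStab G l := by
      rw [mem_lineStab]
      change (σ⁻¹).2 ((g : Equiv.Perm P × Equiv.Perm L).2 l) = l
      rw [← hσl]
      simp
    refine ⟨σ'⁻¹ * g, ha, (σ'⁻¹ * g)⁻¹ * σ' * (σ'⁻¹ * g)⁻¹⁻¹, ?_, by group⟩
    exact (symSub_normal hG).conj_mem _ hσS _

end geom

section count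

variable {P L : Type*} [Fintype P] [Fintype L] {I : P → L → Prop} {s t : ℕ} {x : P}
  {G : Subgroup (Equiv.Perm P × Equiv.Perm L)}

open Classical in
theorem card_noncoll (h : IsGQ I s t) (x : P) :
    (univ.filter (fun p => ¬ Coll I x p)).card = s * (t * s) := by
  obtain ⟨N, hxN⟩ := exists_line h x
  set F := ((pts I N).erase x).sigma (fun y => ((lns I y).erase N).sigma
    (fun M => (pts I M).erase y)) with hF
  have hFc : F.card = s * (t * s) := by
    rw [hF, Finset.card_sigma]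
    have h1 : ∀ y ∈ (pts I N).erase x, (((lns I y).erase N).sigma
        (fun M => (pts I M).erase y)).card = t * s := by
      intro y hy
      rw [Finset.mem_erase, mem_pts] at hy
      rw [Finset.card_sigma]
      have h2 : ∀ M ∈ (lns I y).erase N, ((pts I M).erase y).card = s := by
        intro M hM
        rw [Finset.mem_erase, mem_lns] at hM
        rw [Finset.card_erase_of_mem (mem_pts.2 hM.2), card_pts h, Nat.add_sub_cancel]
      rw [Finset.sum_congr rfl h2, Finset.sum_const, Finset.card_erase_of_mem (mem_lns.2 hy.2),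
        card_lns h, Nat.add_sub_cancel, smul_eq_mul]
    rw [Finset.sum_congr rfl h1, Finset.sum_const, Finset.card_erase_of_mem (mem_pts.2 hxN),
      card_pts h, Nat.add_sub_cancel, smul_eq_mul]
  rw [← hFc]
  symm
  apply Finset.card_nbij (fun r => r.2.2)
  · rintro ⟨y, M, p⟩ hr
    rw [Finset.mem_coe, hF, Finset.mem_sigma, Finset.mem_sigma, Finset.mem_erase, Finset.mem_erase,
      Finset.mem_erase, mem_pts, mem_lns, mem_pts] at hr
    obtain ⟨⟨hyx, hyN⟩, ⟨hMN, hyM⟩, hpy, hpM⟩ := hr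
    simp only at hyx hyN hMN hyM hpy hpM ⊢
    rw [Finset.mem_coe, Finset.mem_filter]
    refine ⟨mem_univ _, ?_⟩
    intro hcol
    have hxM : ¬ I x M := fun h1 => hMN (h.unique_line y x hyx M N hyM h1 hyN hxN)
    exact hpy (proj_unique h hxM hpM hyM hcol ⟨N, hxN, hyN⟩)
  · rintro ⟨y, M, p⟩ hr ⟨y', M', p'⟩ hr' heq
    rw [Finset.mem_coe, hF, Finset.mem_sigma, Finset.mem_sigma, Finset.mem_erase, Finset.mem_erase,
      Finset.mem_erase, mem_pts, mem_lns, mem_pts] at hr hr'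
    obtain ⟨⟨hyx, hyN⟩, ⟨hMN, hyM⟩, hpy, hpM⟩ := hr
    obtain ⟨⟨hyx', hyN'⟩, ⟨hMN', hyM'⟩, hpy', hpM'⟩ := hr'
    simp only at hyx hyN hMN hyM hpy hpM hyx' hyN' hMN' hyM' hpy' hpM' heq
    subst heq
    have hpN : ¬ I p N := by
      intro h1
      exact hMN (h.unique_line p y hpy M N hpM hyM h1 hyN)
    have h1 : y = y' := proj_unique h hpN hyN hyN' ⟨M, hpM, hyM⟩ ⟨M', hpM', hyM'⟩
    subst h1
    have h2 : M = M' := h.unique_line p y hpy M M' hpM hyM hpM' hyM'
    subst h2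
    rfl
  · intro p hp
    rw [Finset.mem_coe, Finset.mem_filter] at hp
    have hpN : ¬ I p N := fun h1 => hp.2 ⟨N, hxN, h1⟩
    obtain ⟨y, ⟨hyN, M, hpM, hyM⟩, _⟩ := h.proj p N hpN
    refine ⟨⟨y, M, p⟩, ?_, rfl⟩
    rw [Finset.mem_coe, hF, Finset.mem_sigma, Finset.mem_sigma, Finset.mem_erase, Finset.mem_erase,
      Finset.mem_erase, mem_pts, mem_lns, mem_pts]
    refine ⟨⟨?_, hyN⟩, ⟨?_, hyM⟩, ?_, hpM⟩
    · rintro h1
      simp only at h1
      subst h1
      exact hp.2 ⟨M, hyM, hpM⟩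
    · rintro h1
      simp only at h1
      subst h1
      exact hpN hpM
    · rintro h1
      simp only at h1
      subst h1
      exact hpN hyN

theorem card_G (h : IsGQ I s t) (hG : IsElationGroup I x G) {p0 : P} (hp0 : ¬ Coll I x p0) :
    Nat.card G = s * (t * s) := by
  classical
  rw [← card_noncoll h x]
  have h1 : Nat.card G = Nat.card {p : P // ¬ Coll I x p} := by
    apply Nat.card_eq_of_bijective
      (fun g : G => (⟨(g : Equiv.Perm P × Equiv.Perm L).1 p0,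
        fun h1 => hp0 ((coll_fix hG g.2).1 h1)⟩ : {p : P // ¬ Coll I x p}))
    constructor
    · intro g g' heq
      have h2 := congrArg Subtype.val heq
      simp only at h2
      obtain ⟨_, _, hz⟩ := hG.sharp p0 ((g' : Equiv.Perm P × Equiv.Perm L).1 p0) hp0
        (fun h1 => hp0 ((coll_fix hG g'.2).1 h1))
      apply Subtype.ext
      rw [hz g ⟨g.2, h2⟩, hz g' ⟨g'.2, rfl⟩]
    · rintro ⟨p, hp⟩
      obtain ⟨g, ⟨hg, hgp⟩, _⟩ := hG.sharp p0 p hp0 hp
      exact ⟨⟨g, hg⟩, Subtype.ext hgp⟩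
  rw [h1, Nat.card_eq_fintype_card, Fintype.card_subtype]

theorem card_lineStab (h : IsGQ I s t) (hG : IsElationGroup I x G) {p0 : P}
    (hp0 : ¬ Coll I x p0) {l : L} (hl : I p0 l) : Nat.card (lineStab G l) = s := by
  classical
  have hxl : ¬ I x l := fun h1 => hp0 ⟨l, h1, hl⟩
  obtain ⟨y, hyl, hxy, hyx, hy4⟩ := exists_y h x hxl
  have h1 : Nat.card (lineStab G l) = Nat.card {p : P // p ∈ (pts I l).erase y} := by
    apply Nat.card_eq_of_bijective
      (fun g : lineStab G l => (⟨((g : G) : Equiv.Perm P × Equiv.Perm L).1 p0, by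
        rw [Finset.mem_erase, mem_pts]
        constructor
        · intro h1
          apply hp0
          rw [← coll_fix hG (g : G).2, h1]
          exact hxy
        · have := (aut_iff (hG.le_aut (g : G).2) p0 l).2 hl
          rwa [mem_lineStab.1 g.2] at this⟩ : {p : P // p ∈ (pts I l).erase y}))
    constructor
    · intro g g' heq
      have h2 := congrArg Subtype.val heq
      simp only at h2
      obtain ⟨_, _, hz⟩ := hG.sharp p0 (((g' : G) : Equiv.Perm P × Equiv.Perm L).1 p0) hp0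
        (fun h1 => hp0 ((coll_fix hG (g' : G).2).1 h1))
      apply Subtype.ext
      apply Subtype.ext
      rw [hz (g : G) ⟨(g : G).2, h2⟩, hz (g' : G) ⟨(g' : G).2, rfl⟩]
    · rintro ⟨p, hp⟩
      rw [Finset.mem_erase, mem_pts] at hp
      have hxp : ¬ Coll I x p := hy4 p hp.2 hp.1
      obtain ⟨g, ⟨hg, hgp⟩, _⟩ := hG.sharp p0 p hp0 hxp
      have h2 : g.2 l = l := elation_fix h hG hg hl hp.2 hp0 hxp hgp
      exact ⟨⟨⟨g, hg⟩, h2⟩, Subtype.ext hgp⟩
  rw [h1, Nat.card_eq_fintype_card, Fintype.card_coe, Finset.card_erase_of_mem (mem_pts.2 hyl),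
    card_pts h, Nat.add_sub_cancel]

theorem card_symSub (h : IsGQ I s t) (ht : 0 < t) (hG : IsElationGroup I x G)
    (hc : SymTrans I x G) {p0 : P} (hp0 : ¬ Coll I x p0) : Nat.card (symSub I x G) = t := by
  classical
  obtain ⟨l, hl⟩ := exists_line h p0
  have hxl : ¬ I x l := fun h1 => hp0 ⟨l, h1, hl⟩
  obtain ⟨y, hyl, hxy, hyx, hy4⟩ := exists_y h x hxl
  obtain ⟨N, hxN, hyN⟩ := hxy
  have h1 : Nat.card (symSub I x G) = Nat.card {M : L // M ∈ (lns I y).erase N} := by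
    apply Nat.card_eq_of_bijective
      (fun g : symSub I x G => (⟨((g : G) : Equiv.Perm P × Equiv.Perm L).2 l, by
        rw [Finset.mem_erase, mem_lns]
        have hgs := mem_symSub.1 g.2
        constructor
        · intro h1
          apply hxl
          rw [← aut_iff hgs.1 x l, h1, hG.fix_pt _ (g : G).2]
          exact hxN
        · have := (aut_iff (hG.le_aut (g : G).2) y l).2 hyl
          rwa [hgs.2 y ⟨N, hxN, hyN⟩] at this⟩ : {M : L // M ∈ (lns I y).erase N}))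
    constructor
    · intro g g' heq
      have h2 := congrArg Subtype.val heq
      simp only at h2
      have h3 : (g'⁻¹ * g : symSub I x G) = 1 := by
        apply Subtype.ext
        apply Subtype.ext
        refine symm_fix_line h ht hG hp0 hl (g'⁻¹ * g : symSub I x G).1.2
          (g'⁻¹ * g : symSub I x G).2 ?_
        change (((g' : G) : Equiv.Perm P × Equiv.Perm L).2)⁻¹
          (((g : G) : Equiv.Perm P × Equiv.Perm L).2 l) = l
        rw [h2]
        simp
      exact (inv_mul_eq_one.1 h3).symm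
    · rintro ⟨M, hM⟩
      rw [Finset.mem_erase, mem_lns] at hM
      have hxM : ¬ I x M := fun h1 => hM.1 (h.unique_line y x hyx M N hM.2 h1 hyN hxN)
      obtain ⟨σ, hσG, hσ, hσl⟩ := sym_trans_lines h ht hc hp0 hl hyl ⟨N, hxN, hyN⟩ hM.2 hxM
      exact ⟨⟨⟨σ, hσG⟩, hσ⟩, Subtype.ext hσl⟩
  rw [h1, Nat.card_eq_fintype_card, Fintype.card_coe, Finset.card_erase_of_mem (mem_lns.2 hyN),
    card_lns h, Nat.add_sub_cancel]

end count

end Pool.Agent.Helper801.GQA
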