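import Pool.Agent.Helper801.ASI

/-!
The group configuration of a skew translation quadrangle of order `(q,q)`; centrality.
-/

namespace Pool.Agent.Helper801.GQA

open Finset Pool.Agent.Helper801.ASG

section main

variable {P L : Type*} [Fintype P] [Fintype L] {I : P → L → Prop} {q : ℕ} {x : P}
  {G : Subgroup (Equiv.Perm P × Equiv.Perm L)}

theorem toAS (h : IsGQ I q q) (hq : 1 < q) (hG : IsElationGroup I x G)
    (hc : SymTrans I x G) {p0 : P} (hp0 : ¬ Coll I x p0) :
    AS G {l : L // I p0 l} q (fun l => lineStab G l.1) (symSub I x G) := by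
  classical
  have ht : 0 < q := by omega
  haveI : Fintype G := Fintype.ofFinite G
  have hn : (symSub I x G).Normal := symSub_normal hG
  have hxl : ∀ l : {l : L // I p0 l}, ¬ I x l.1 := fun l h1 => hp0 ⟨l.1, h1, l.2⟩
  have hy : ∀ l : {l : L // I p0 l}, ∃ y, I y l.1 ∧ Coll I x y ∧ y ≠ x ∧
      ∀ r, I r l.1 → r ≠ y → ¬ Coll I x r := fun l => exists_y h x (hxl l)
  choose y hyl hxy hyx hy4 using hy
  have hp0y : ∀ l, p0 ≠ y l := by
    intro l h1
    apply hp0
    rw [h1]; exact hxy l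
  have fixB : ∀ l g, InB (lineStab G l.1) (symSub I x G) g ↔
      (g : Equiv.Perm P × Equiv.Perm L).1 (y l) = y l :=
    fun l g => inB_iff_fix h ht hG hc hp0 l.2 (hyl l) (hxy l) g
  -- a point of the line `x y_l`, and `y_m` with `m ≠ l`, are not collinear
  have noncol : ∀ l m : {l : L // I p0 l}, l ≠ m → ∀ u, u ≠ x → ∀ N, I x N → I (y l) N → I u N →
      ¬ Coll I u (y m) := by
    intro l m hlm u hux N hxN hyN huN
    obtain ⟨N', hxN', hyN'⟩ := hxy m
    have hNN : N ≠ N' := by
      rintro rfl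
      have hp0N : ¬ I p0 N := fun h1 => hp0 ⟨N, hxN, h1⟩
      have h1 : y l = y m := proj_unique h hp0N hyN hyN' ⟨l.1, l.2, hyl l⟩ ⟨m.1, m.2, hyl m⟩
      apply hlm
      apply Subtype.ext
      refine h.unique_line p0 (y l) (hp0y l) _ _ l.2 (hyl l) m.2 ?_
      rw [h1]; exact hyl m
    exact not_coll_of_lines h hxN huN hux hxN' hyN' (hyx m) hNN
  have keyK : ∀ l m : {l : L // I p0 l}, l ≠ m → ∀ u, u ≠ x → ∀ N, I x N → I (y l) N → I u N →
      ∀ g : G, (g : Equiv.Perm P × Equiv.Perm L).1 u = u →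
      (g : Equiv.Perm P × Equiv.Perm L).1 (y m) = y m → g ∈ symSub I x G := by
    intro l m hlm u hux N hxN hyN huN g hgu hgm
    exact symm_of_fix h ht hG hc ⟨N, hxN, huN⟩ (hxy m) (noncol l m hlm u hux N hxN hyN huN) g.2
      hgu hgm
  have hpu : ∀ g, g ∉ symSub I x G → ∀ l m : {l : L // I p0 l}, InB (lineStab G l.1) (symSub I x G) g →
      InB (lineStab G m.1) (symSub I x G) g → l = m := by
    intro g hg l m hl hm
    by_contra hlm
    obtain ⟨N, hxN, hyN⟩ := hxy l
    exact hg (keyK l m hlm (y l) (hyx l) N hxN hyN hyN g ((fixB l g).1 hl) ((fixB m g).1 hm))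
  have hdisj : ∀ l : {l : L // I p0 l}, ∀ a ∈ lineStab G l.1, a ∈ symSub I x G → a = 1 := by
    intro l a ha haS
    apply Subtype.ext
    exact symm_fix_line h ht hG hp0 l.2 a.2 haS ha
  have cG : Nat.card G = q ^ 3 := by
    rw [card_G h hG hp0]; ring
  have cA : ∀ l : {l : L // I p0 l}, Nat.card (lineStab G l.1) = q :=
    fun l => card_lineStab h hG hp0 l.2
  have cS : Nat.card (symSub I x G) = q := card_symSub h ht hG hc hp0
  have cι : Nat.card {l : L // I p0 l} = q + 1 := h.point_card p0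
  haveI : Fintype {l : L // I p0 l} := Fintype.ofFinite _
  -- counting
  have hpe : ∀ g, g ∉ symSub I x G → ∃ l : {l : L // I p0 l},
      InB (lineStab G l.1) (symSub I x G) g := by
    set F : Finset (Σ _ : {l : L // I p0 l}, G × G) := (univ : Finset {l : L // I p0 l}).sigma
      (fun l => ((el (lineStab G l.1)).erase 1) ×ˢ (el (symSub I x G))) with hF
    set f : (Σ _ : {l : L // I p0 l}, G × G) → G := fun r => r.2.1 * r.2.2 with hf
    have hFcard : F.card = (q + 1) * ((q - 1) * q) := by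
      rw [hF, Finset.card_sigma]
      have h1 : ∀ l ∈ (univ : Finset {l : L // I p0 l}),
          (((el (lineStab G l.1)).erase 1) ×ˢ (el (symSub I x G))).card = (q - 1) * q := by
        intro l _
        rw [Finset.card_product, Finset.card_erase_of_mem (mem_el.2 (Subgroup.one_mem _)), card_el,
          card_el, cA, cS]
      rw [Finset.sum_congr rfl h1, Finset.sum_const, Finset.card_univ, ← Nat.card_eq_fintype_card,
        cι, smul_eq_mul]
    have hne : ∀ (l : {l : L // I p0 l}) (a z : G), a ∈ lineStab G l.1 → a ≠ 1 →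
        z ∈ symSub I x G → a * z ∉ symSub I x G := by
      intro l a z ha ha1 hz h1
      apply ha1
      apply hdisj l a ha
      have := mul_mem h1 (inv_mem hz)
      simpa using this
    have hinj : Set.InjOn f F := by
      rintro ⟨l, a, z⟩ hp ⟨m, b, w⟩ hp' heq
      rw [Finset.mem_coe, hF, Finset.mem_sigma, Finset.mem_product, Finset.mem_erase, mem_el,
        mem_el] at hp hp'
      obtain ⟨_, ⟨ha1, ha⟩, hz⟩ := hp
      obtain ⟨_, ⟨hb1, hb⟩, hw⟩ := hp'
      simp only [hf] at ha1 ha hz hb1 hb hw heq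
      have h3 : l = m := hpu _ (hne l a z ha ha1 hz) l m ⟨a, ha, z, hz, rfl⟩ ⟨b, hb, w, hw, heq⟩
      subst h3
      have h4 : b⁻¹ * a = w * z⁻¹ := by
        rw [inv_mul_eq_iff_eq_mul, ← mul_assoc, eq_mul_inv_iff_mul_eq]; exact heq
      have h5 : b⁻¹ * a = 1 := by
        apply hdisj l _ (mul_mem (inv_mem hb) ha)
        rw [h4]
        exact mul_mem hw (inv_mem hz)
      have h6 : a = b := (inv_mul_eq_one.1 h5).symm
      subst h6
      have h7 : z = w := mul_left_cancel heq
      subst h7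
      rfl
    have himg : F.image f = univ.filter (fun g : G => g ∉ symSub I x G) := by
      apply Finset.eq_of_subset_of_card_le
      · intro g hg
        rw [Finset.mem_image] at hg
        obtain ⟨⟨l, a, z⟩, hp, rfl⟩ := hg
        rw [hF, Finset.mem_sigma, Finset.mem_product, Finset.mem_erase, mem_el, mem_el] at hp
        obtain ⟨_, ⟨ha1, ha⟩, hz⟩ := hp
        rw [Finset.mem_filter]
        exact ⟨mem_univ _, hne l a z ha ha1 hz⟩
      · rw [Finset.card_image_of_injOn hinj, hFcard]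
        have h1 : (univ.filter (fun g : G => g ∉ symSub I x G)).card = q ^ 3 - q := by
          have h2 := Finset.card_filter_add_card_filter_not (s := (univ : Finset G))
            (fun g => g ∈ symSub I x G)
          rw [Finset.card_univ, ← Nat.card_eq_fintype_card, cG] at h2
          have h3 : (univ.filter (fun g : G => g ∈ symSub I x G)).card = q := by
            rw [← cS, ← card_el]; rfl
          rw [h3] at h2
          omega
        rw [h1]
        obtain ⟨k, hk⟩ : ∃ k, q = k + 1 := ⟨q - 1, by omega⟩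
        rw [hk, Nat.add_sub_cancel]
        apply Nat.sub_le_of_le_add
        apply le_of_eq
        ring
    intro g hg
    have h1 : g ∈ F.image f := by
      rw [himg, Finset.mem_filter]
      exact ⟨mem_univ _, hg⟩
    rw [Finset.mem_image] at h1
    obtain ⟨⟨l, a, z⟩, hp, hgaz⟩ := h1
    rw [hF, Finset.mem_sigma, Finset.mem_product, Finset.mem_erase, mem_el, mem_el] at hp
    exact ⟨l, a, hp.2.1.2, z, hp.2.2, hgaz.symm⟩
  -- an elation `a` in `A_l` with prescribed image of `p0`
  refine ⟨cG, cA, cS, cι, hq, hn, hdisj, hpe, hpu, ?_, ?_, ?_⟩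
  · -- conjugation
    intro l g k hg
    by_cases hkS : k * g * k⁻¹ ∈ symSub I x G
    · exact inB_of_mem_S hkS
    obtain ⟨m, hm⟩ := hpe _ hkS
    by_cases hlm : l = m
    · subst hlm; exact hm
    exfalso
    apply hkS
    obtain ⟨N, hxN, hyN⟩ := hxy l
    have hkN : (k : Equiv.Perm P × Equiv.Perm L).2 N = N := hG.fix_ln _ k.2 N hxN
    refine keyK l m hlm ((k : Equiv.Perm P × Equiv.Perm L).1 (y l)) ?_ N hxN hyN ?_ _ ?_
      ((fixB m _).1 hm)
    · intro h1
      apply hyx l
      apply (k : Equiv.Perm P × Equiv.Perm L).1.injective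
      rw [h1, hG.fix_pt _ k.2]
    · have := (aut_iff (hG.le_aut k.2) (y l) N).2 hyN
      rwa [hkN] at this
    · change (k : Equiv.Perm P × Equiv.Perm L).1 ((g : Equiv.Perm P × Equiv.Perm L).1
        (((k : Equiv.Perm P × Equiv.Perm L).1)⁻¹ ((k : Equiv.Perm P × Equiv.Perm L).1 (y l)))) = _
      have h1 : ((k : Equiv.Perm P × Equiv.Perm L).1)⁻¹ ((k : Equiv.Perm P × Equiv.Perm L).1 (y l))
          = y l := by simp
      rw [h1, (fixB l g).1 hg]
  · -- F2 existence
    intro l g hg
    rw [fixB] at hg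
    set r := (g : Equiv.Perm P × Equiv.Perm L).1 p0 with hr
    have hxr : ¬ Coll I x r := fun h1 => hp0 ((coll_fix hG g.2).1 h1)
    have hrl : ¬ I r l.1 := by
      intro h1
      apply hg
      rw [← fixB]
      exact inB_of_mem_A (elation_fix h hG g.2 l.2 h1 hp0 hxr rfl)
    obtain ⟨u, ⟨hul, K, hrK, huK⟩, _⟩ := h.proj r l.1 hrl
    have huy : u ≠ y l := by
      intro h1
      apply hg
      obtain ⟨N, hxN, hyN⟩ := hxy l
      have hrN : ¬ I r N := fun h2 => hxr ⟨N, hxN, h2⟩
      have h2 : I ((g : Equiv.Perm P × Equiv.Perm L).1 (y l)) N := by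
        have := (aut_iff (hG.le_aut g.2) (y l) N).2 hyN
        rwa [hG.fix_ln _ g.2 N hxN] at this
      have h3 : Coll I r ((g : Equiv.Perm P × Equiv.Perm L).1 (y l)) :=
        coll_map (hG.le_aut g.2) ⟨l.1, l.2, hyl l⟩
      exact proj_unique h hrN h2 hyN h3 ⟨K, hrK, h1 ▸ huK⟩
    have hxu : ¬ Coll I x u := hy4 l u hul huy
    obtain ⟨a, ⟨haG, hau⟩, _⟩ := hG.sharp p0 u hp0 hxu
    have hal : a.2 l.1 = l.1 := elation_fix h hG haG l.2 hul hp0 hxu hau
    set a' : G := ⟨a, haG⟩ with ha'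
    -- b = a⁻¹ g
    have hbp : ((a'⁻¹ * g : G) : Equiv.Perm P × Equiv.Perm L).1 p0 = a.1⁻¹ r := rfl
    have h1 : I p0 (a.2⁻¹ K) := by
      rw [← aut_iff (hG.le_aut haG)]
      rw [hau]
      simpa using huK
    have h2 : I (a.1⁻¹ r) (a.2⁻¹ K) := by
      rw [← aut_iff (hG.le_aut haG)]
      simpa using hrK
    have hxar : ¬ Coll I x (a.1⁻¹ r) := by
      rw [← hbp]
      exact fun h3 => hp0 ((coll_fix hG (a'⁻¹ * g).2).1 h3)
    have hb : (a'⁻¹ * g) ∈ lineStab G (a.2⁻¹ K) :=
      elation_fix h hG (a'⁻¹ * g).2 h1 h2 hp0 hxar hbp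
    refine ⟨⟨a.2⁻¹ K, h1⟩, ?_, a', hal, a'⁻¹ * g, hb, by group⟩
    intro h3
    have h4 : a.2⁻¹ K = l.1 := congrArg Subtype.val h3
    rw [h4] at hb
    apply hg
    rw [← fixB]
    apply inB_of_mem_A
    have : g = a' * (a'⁻¹ * g) := by group
    rw [this]
    exact mul_mem hal hb
  · -- F2 uniqueness
    intro l g hg m k hm hk
    obtain ⟨a, ha, b, hb, hgab⟩ := hm
    obtain ⟨a', ha', b', hb', hgab'⟩ := hk
    set r := (g : Equiv.Perm P × Equiv.Perm L).1 p0 with hr
    have hxr : ¬ Coll I x r := fun h1 => hp0 ((coll_fix hG g.2).1 h1)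
    have hrl : ¬ I r l.1 := by
      intro h1
      apply hg
      exact inB_of_mem_A (elation_fix h hG g.2 l.2 h1 hp0 hxr rfl)
    have key : ∀ (m : {l : L // I p0 l}) (a b : G), a ∈ lineStab G l.1 → b ∈ lineStab G m.1 →
        g = a * b → I ((a : Equiv.Perm P × Equiv.Perm L).1 p0) l.1 ∧
          Coll I r ((a : Equiv.Perm P × Equiv.Perm L).1 p0) := by
      intro m a b ha hb hgab
      constructor
      · have := (aut_iff (hG.le_aut a.2) p0 l.1).2 l.2
        rwa [mem_lineStab.1 ha] at this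
      · have h1 : Coll I ((b : Equiv.Perm P × Equiv.Perm L).1 p0) p0 := by
          refine ⟨m.1, ?_, m.2⟩
          have := (aut_iff (hG.le_aut b.2) p0 m.1).2 m.2
          rwa [mem_lineStab.1 hb] at this
        have h2 := coll_map (hG.le_aut a.2) h1
        have h3 : (a : Equiv.Perm P × Equiv.Perm L).1 ((b : Equiv.Perm P × Equiv.Perm L).1 p0) = r := by
          rw [hr, hgab]; rfl
        rwa [h3] at h2
    obtain ⟨k1, k2⟩ := key m a b ha hb hgab
    obtain ⟨k3, k4⟩ := key k a' b' ha' hb' hgab'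
    have h1 : (a : Equiv.Perm P × Equiv.Perm L).1 p0 = (a' : Equiv.Perm P × Equiv.Perm L).1 p0 :=
      proj_unique h hrl k1 k3 k2 k4
    have h2 : a = a' := by
      obtain ⟨_, _, hz⟩ := hG.sharp p0 ((a' : Equiv.Perm P × Equiv.Perm L).1 p0) hp0
        (fun h1 => hp0 ((coll_fix hG a'.2).1 h1))
      apply Subtype.ext
      rw [hz a ⟨a.2, h1⟩, hz a' ⟨a'.2, rfl⟩]
    subst h2
    have h3 : b = b' := by
      rw [hgab] at hgab'
      exact mul_left_cancel hgab'
    subst h3
    by_contra hmk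
    have h4 : (b : Equiv.Perm P × Equiv.Perm L).1 p0 = p0 := by
      by_contra hne
      apply hmk
      apply Subtype.ext
      refine h.unique_line _ _ hne m.1 k.1 ?_ m.2 ?_ k.2
      · have := (aut_iff (hG.le_aut b.2) p0 m.1).2 m.2
        rwa [mem_lineStab.1 hb] at this
      · have := (aut_iff (hG.le_aut b.2) p0 k.1).2 k.2
        rwa [mem_lineStab.1 hb'] at this
    have h5 : (b : Equiv.Perm P × Equiv.Perm L) = 1 := elation_eq_one hG b.2 hp0 h4
    have h6 : b = 1 := Subtype.ext h5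
    apply hg
    rw [hgab, h6, mul_one]
    exact inB_of_mem_A ha

/-- In a skew translation quadrangle of order `(q,q)` every symmetry about `x` is central. -/
theorem central_eq (h : IsGQ I q q) (hq : 1 < q) (hG : IsElationGroup I x G)
    (hc : SymTrans I x G) {z : Equiv.Perm P × Equiv.Perm L} (hz : IsSymmetry I x z)
    (hzG : z ∈ G) {g : Equiv.Perm P × Equiv.Perm L} (hg : g ∈ G) : z * g = g * z := by
  obtain ⟨N, hxN⟩ := exists_line h x
  obtain ⟨y, hyN, hyx, _⟩ := exists_other_point h hq N x x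
  obtain ⟨M, hyM, hMN⟩ := exists_other_line h (by omega : 0 < q) y N
  have hxM : ¬ I x M := fun h1 => hMN (h.unique_line x y hyx.symm M N h1 hyM hxN hyN)
  obtain ⟨y', _, _, _, hy4⟩ := exists_y h x hxM
  obtain ⟨p, hpM, hpy, _⟩ := exists_other_point h hq M y' y'
  have hp : ¬ Coll I x p := hy4 p hpM hpy
  have hAS := toAS h hq hG hc hp
  have h1 := hAS.central (z := (⟨z, hzG⟩ : G)) (g := ⟨g, hg⟩) hz
  exact congrArg Subtype.val h1

end main

end Pool.Agent.Helper801.GQA
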