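import Mathlib

/-!
Finite generalized quadrangles: the matrix e(l,m) (t^2 on the diagonal, -t for concurrent lines,
1 for disjoint lines), its kernel property, the vanishing Krein parameter for s = t^2 and the local
fixed line identity for an automorphism.
-/

namespace Pool.Agent.Helper801.GQA

open Finset

/-- Two points are collinear if some line contains both of them. -/
def Coll {P L : Type*} (I : P → L → Prop) (p q : P) : Prop := ∃ l, I p l ∧ I q l

/-- `IsGQ I s t`: the incidence relation `I` is a generalized quadrangle of order `(s,t)`. -/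
structure IsGQ {P L : Type*} (I : P → L → Prop) (s t : ℕ) : Prop where
  /-- any two distinct points lie on at most one common line -/
  unique_line : ∀ p q : P, p ≠ q → ∀ l m : L, I p l → I q l → I p m → I q m → l = m
  /-- for a point `p` not on a line `l` exactly one point of `l` is collinear with `p` -/
  proj : ∀ (p : P) (l : L), ¬ I p l → ∃! q : P, I q l ∧ Coll I p q
  /-- every line carries `s+1` points -/
  line_card : ∀ l : L, Nat.card {p : P // I p l} = s + 1
  /-- every point is on `t+1` lines -/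
  point_card : ∀ p : P, Nat.card {l : L // I p l} = t + 1

variable {P L : Type*} [Fintype P] [Fintype L] {I : P → L → Prop} {s t : ℕ}

open Classical in
/-- points of a line -/
noncomputable def pts (I : P → L → Prop) (l : L) : Finset P := univ.filter (fun p => I p l)

open Classical in
/-- lines through a point -/
noncomputable def lns (I : P → L → Prop) (p : P) : Finset L := univ.filter (fun l => I p l)

omit [Fintype L] in
theorem mem_pts {l : L} {p : P} : p ∈ pts I l ↔ I p l := by
  classical
  simp [pts]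

omit [Fintype P] in
theorem mem_lns {l : L} {p : P} : l ∈ lns I p ↔ I p l := by
  classical
  simp [lns]

omit [Fintype L] in
theorem card_pts (h : IsGQ I s t) (l : L) : (pts I l).card = s + 1 := by
  classical
  rw [← h.line_card l, Nat.card_eq_fintype_card, Fintype.card_subtype]
  unfold pts
  congr

omit [Fintype P] in
theorem card_lns (h : IsGQ I s t) (p : P) : (lns I p).card = t + 1 := by
  classical
  rw [← h.point_card p, Nat.card_eq_fintype_card, Fintype.card_subtype]
  unfold lns
  congr

/-- `l` and `m` share a point -/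
def Meet (I : P → L → Prop) (l m : L) : Prop := ∃ p, I p l ∧ I p m

open Classical in
/-- the kernel matrix -/
noncomputable def e (I : P → L → Prop) (t : ℕ) (l m : L) : ℤ :=
  if l = m then (t : ℤ) ^ 2 else if Meet I l m then -(t : ℤ) else 1

omit [Fintype P] [Fintype L] in
theorem e_self (l : L) : e I t l l = (t : ℤ) ^ 2 := by
  simp [e]

omit [Fintype P] [Fintype L] in
theorem e_meet {l m : L} (h : l ≠ m) (hm : Meet I l m) : e I t l m = -(t : ℤ) := by
  simp [e, h, hm]

omit [Fintype P] [Fintype L] in
theorem e_disj {l m : L} (h : l ≠ m) (hm : ¬ Meet I l m) : e I t l m = 1 := by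
  simp [e, h, hm]

omit [Fintype P] [Fintype L] in
theorem e_symm (l m : L) : e I t l m = e I t m l := by
  classical
  by_cases h : l = m
  · subst h; rfl
  · by_cases hm : Meet I l m
    · have hm' : Meet I m l := by
        obtain ⟨p, h1, h2⟩ := hm
        exact ⟨p, h2, h1⟩
      rw [e_meet h hm, e_meet (Ne.symm h) hm']
    · have hm' : ¬ Meet I m l := by
        rintro ⟨p, h1, h2⟩
        exact hm ⟨p, h2, h1⟩
      rw [e_disj h hm, e_disj (Ne.symm h) hm']

omit [Fintype P] in
/-- the kernel property: the sum of `e(M, k)` over the lines `M` through a point `q` is zero -/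
theorem sum_lns (h : IsGQ I s t) (q : P) (k : L) : ∑ m ∈ lns I q, e I t m k = 0 := by
  classical
  by_cases hq : I q k
  · have hk : k ∈ lns I q := mem_lns.2 hq
    rw [← Finset.add_sum_erase _ _ hk]
    have h1 : ∀ m ∈ (lns I q).erase k, e I t m k = -(t : ℤ) := by
      intro m hm
      rw [Finset.mem_erase] at hm
      exact e_meet hm.1 ⟨q, mem_lns.1 hm.2, hq⟩
    rw [Finset.sum_congr rfl h1, Finset.sum_const, Finset.card_erase_of_mem hk, card_lns h,
      e_self, Nat.add_sub_cancel, nsmul_eq_mul]
    ring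
  · obtain ⟨r, ⟨hr1, m0, hm1, hm2⟩, hr3⟩ := h.proj q k hq
    have hm0 : m0 ∈ lns I q := mem_lns.2 hm1
    rw [← Finset.add_sum_erase _ _ hm0]
    have hne : m0 ≠ k := by
      rintro rfl; exact hq hm1
    rw [e_meet hne ⟨r, hm2, hr1⟩]
    have h1 : ∀ m ∈ (lns I q).erase m0, e I t m k = 1 := by
      intro m hm
      rw [Finset.mem_erase] at hm
      have hqm : I q m := mem_lns.1 hm.2
      have hne' : m ≠ k := by
        rintro rfl; exact hq hqm
      refine e_disj hne' ?_
      rintro ⟨r', h1, h2⟩
      have : r' = r := hr3 r' ⟨h2, m, hqm, h1⟩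
      subst this
      have hqr : q ≠ r' := by
        rintro rfl; exact hq h2
      exact hm.1 (h.unique_line q r' hqr m m0 hqm h1 hm1 hm2)
    rw [Finset.sum_congr rfl h1, Finset.sum_const, Finset.card_erase_of_mem hm0, card_lns h,
      Nat.add_sub_cancel, nsmul_eq_mul]
    ring

/-- sum over the lines concurrent with `l` (and different from it) -/
noncomputable def nb (I : P → L → Prop) (f : L → ℤ) (l : L) : ℤ := by
  classical
  exact ∑ q ∈ pts I l, ∑ m ∈ (lns I q).erase l, f m

theorem nb_e (h : IsGQ I s t) (l k : L) :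
    nb I (fun m => e I t m k) l = -((s : ℤ) + 1) * e I t l k := by
  classical
  unfold nb
  have h1 : ∀ q ∈ pts I l, ∑ m ∈ (lns I q).erase l, e I t m k = - e I t l k := by
    intro q hq
    have hl : l ∈ lns I q := mem_lns.2 (mem_pts.1 hq)
    have h2 := sum_lns h q k
    rw [← Finset.add_sum_erase _ _ hl] at h2
    linarith
  rw [Finset.sum_congr rfl h1, Finset.sum_const, card_pts h, nsmul_eq_mul]
  push_cast
  ring

theorem sum_e (h : IsGQ I s t) (k : L) : ∑ m, e I t m k = 0 := by
  classical
  have h1 : ∑ q : P, ∑ m ∈ lns I q, e I t m k = 0 :=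
    Finset.sum_eq_zero fun q _ => sum_lns h q k
  have h2 : ∑ q : P, ∑ m ∈ lns I q, e I t m k = ∑ m : L, ∑ q ∈ pts I m, e I t m k := by
    unfold lns pts
    simp_rw [Finset.sum_filter]
    rw [Finset.sum_comm]
  rw [h2] at h1
  simp_rw [Finset.sum_const, card_pts h, nsmul_eq_mul] at h1
  rw [← Finset.mul_sum] at h1
  have h3 : ((s + 1 : ℕ) : ℤ) ≠ 0 := by positivity
  exact (mul_eq_zero.1 h1).resolve_left h3

theorem nb_eq (h : IsGQ I s t) (f : L → ℤ) (l : L) :
    nb I f l = ∑ m, (by classical exact if m ≠ l ∧ Meet I l m then f m else 0) := by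
  classical
  unfold nb
  have h1 : ∀ q ∈ pts I l, ∑ m ∈ (lns I q).erase l, f m = ∑ m, if m ≠ l ∧ I q m then f m else 0 := by
    intro q _
    rw [← Finset.sum_filter]
    congr 1
    ext m
    rw [Finset.mem_erase, mem_lns, Finset.mem_filter]
    simp
  rw [Finset.sum_congr rfl h1, Finset.sum_comm]
  refine Finset.sum_congr rfl fun m _ => ?_
  by_cases hm : m ≠ l ∧ Meet I l m
  · obtain ⟨hne, p, hp1, hp2⟩ := hm
    rw [if_pos ⟨hne, p, hp1, hp2⟩]
    rw [Finset.sum_eq_single_of_mem p (mem_pts.2 hp1)]
    · rw [if_pos ⟨hne, hp2⟩]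
    · intro q hq hqp
      rw [if_neg]
      rintro ⟨_, h3⟩
      exact hne (h.unique_line q p hqp m l h3 hp2 (mem_pts.1 hq) hp1)
  · rw [if_neg hm]
    refine Finset.sum_eq_zero fun q hq => ?_
    rw [if_neg]
    rintro ⟨h2, h3⟩
    exact hm ⟨h2, q, mem_pts.1 hq, h3⟩

/-- a matrix in the span of identity, concurrency and disjointness -/
theorem sum_three (h : IsGQ I s t) (a b c : ℤ) (w : L → ℤ) (l : L) (hw : w l = a)
    (hb : ∀ m, m ≠ l → Meet I l m → w m = b) (hc : ∀ m, m ≠ l → ¬ Meet I l m → w m = c)
    (f : L → ℤ) :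
    ∑ m, w m * f m = a * f l + b * nb I f l + c * (∑ m, f m - f l - nb I f l) := by
  classical
  have h0 : ∑ m, f m - f l = ∑ m ∈ univ.erase l, f m := by
    rw [← Finset.add_sum_erase _ _ (Finset.mem_univ l)]; ring
  have h2 : nb I f l = ∑ m ∈ univ.erase l, if Meet I l m then f m else 0 := by
    rw [nb_eq h, ← Finset.add_sum_erase _ _ (Finset.mem_univ l)]
    simp only [ne_eq, not_true_eq_false, false_and, if_false, zero_add]
    refine Finset.sum_congr rfl fun m hm => ?_
    have : m ≠ l := (Finset.mem_erase.1 hm).1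
    simp [this]
  rw [← Finset.add_sum_erase _ _ (Finset.mem_univ l), hw, h0, h2, ← Finset.sum_sub_distrib,
    Finset.mul_sum, Finset.mul_sum, add_assoc, ← Finset.sum_add_distrib]
  congr 1
  refine Finset.sum_congr rfl fun m hm => ?_
  have hne : m ≠ l := (Finset.mem_erase.1 hm).1
  by_cases hmt : Meet I l m
  · rw [if_pos hmt, hb m hne hmt]; ring
  · rw [if_neg hmt, hc m hne hmt]; ring

theorem meet_symm {l m : L} : Meet I l m ↔ Meet I m l := by
  constructor <;> (rintro ⟨p, h1, h2⟩; exact ⟨p, h2, h1⟩)

theorem e_mul (h : IsGQ I s t) (l k : L) :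
    ∑ m, e I t l m * e I t m k = (((t : ℤ) + 1) * (t + s)) * e I t l k := by
  rw [sum_three h ((t : ℤ) ^ 2) (-(t : ℤ)) 1 (fun m => e I t l m) l (e_self l)
    (fun m hne hm => e_meet (Ne.symm hne) hm) (fun m hne hm => e_disj (Ne.symm hne) hm)
    (fun m => e I t m k)]
  rw [nb_e h, sum_e h]
  ring

theorem e_sq_mul (h : IsGQ I s t) (hst : s = t ^ 2) (l k : L) :
    ∑ m, e I t l m ^ 2 * e I t m k = 0 := by
  rw [sum_three h ((t : ℤ) ^ 4) ((t : ℤ) ^ 2) 1 (fun m => e I t l m ^ 2) l
    (by rw [e_self]; ring)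
    (fun m hne hm => by rw [e_meet (Ne.symm hne) hm]; ring)
    (fun m hne hm => by rw [e_disj (Ne.symm hne) hm]; ring)
    (fun m => e I t m k)]
  rw [nb_e h, sum_e h, hst]
  push_cast
  ring

/-- the vanishing Krein parameter of a generalized quadrangle of order `(t^2,t)` -/
theorem krein (h : IsGQ I s t) (hst : s = t ^ 2) (k l1 l2 : L) :
    ∑ m, e I t m l1 * e I t m l2 * e I t m k = 0 := by
  classical
  have key : ∑ a : L, ∑ b : L, (∑ m, e I t m a * e I t m b * e I t m k) ^ 2 = 0 := by
    have h1 : ∀ a b : L, (∑ m, e I t m a * e I t m b * e I t m k) ^ 2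
        = ∑ m, ∑ n, (e I t m k * e I t n k) * ((e I t m a * e I t a n) * (e I t m b * e I t b n)) := by
      intro a b
      rw [sq, Finset.sum_mul_sum]
      refine Finset.sum_congr rfl fun m _ => Finset.sum_congr rfl fun n _ => ?_
      rw [e_symm a n, e_symm b n]
      ring
    have h2 : ∑ a : L, ∑ b : L, (∑ m, e I t m a * e I t m b * e I t m k) ^ 2
        = ∑ m, ∑ n, (e I t m k * e I t n k) *
            ((∑ a, e I t m a * e I t a n) * (∑ b, e I t m b * e I t b n)) := by
      simp_rw [h1]
      rw [Finset.sum_congr rfl fun a _ => Finset.sum_comm]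
      rw [Finset.sum_comm]
      refine Finset.sum_congr rfl fun m _ => ?_
      rw [Finset.sum_congr rfl fun a _ => Finset.sum_comm]
      rw [Finset.sum_comm]
      refine Finset.sum_congr rfl fun n _ => ?_
      rw [Finset.sum_mul_sum, Finset.mul_sum]
      refine Finset.sum_congr rfl fun a _ => ?_
      rw [Finset.mul_sum]
    rw [h2]
    refine Finset.sum_eq_zero fun m _ => ?_
    have h3 : ∀ n : L, (e I t m k * e I t n k) *
            ((∑ a, e I t m a * e I t a n) * (∑ b, e I t m b * e I t b n))
        = (e I t m k * (((t : ℤ) + 1) * (t + s)) ^ 2) * (e I t m n ^ 2 * e I t n k) := by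
      intro n
      rw [e_mul h]
      ring
    rw [Finset.sum_congr rfl fun n _ => h3 n, ← Finset.mul_sum, e_sq_mul h hst, mul_zero]
  have h4 := (Finset.sum_eq_zero_iff_of_nonneg
    (fun a _ => Finset.sum_nonneg fun b _ => sq_nonneg _)).1 key l1 (Finset.mem_univ _)
  have h5 := (Finset.sum_eq_zero_iff_of_nonneg (fun b _ => sq_nonneg _)).1 h4 l2 (Finset.mem_univ _)
  exact pow_eq_zero_iff (two_ne_zero) |>.1 h5

theorem auto_orth0 (h : IsGQ I s t) (ht : 0 < t) (hst : s = t ^ 2) (g : Equiv.Perm L)
    (hg : ∀ l m, e I t (g l) (g m) = e I t l m) (k : L) :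
    ∑ m, e I t m k * e I t (g.symm m) m = 0 := by
  classical
  have h1 : ∑ a : L, ∑ m, e I t m a * e I t m (g a) * e I t m k = 0 :=
    Finset.sum_eq_zero fun a _ => krein h hst k a (g a)
  rw [Finset.sum_comm] at h1
  have h2 : ∀ m : L, ∑ a : L, e I t m a * e I t m (g a) * e I t m k
      = (((t : ℤ) + 1) * (t + s)) * (e I t m k * e I t (g.symm m) m) := by
    intro m
    have h3 : ∀ a : L, e I t m a * e I t m (g a) * e I t m k
        = e I t m k * (e I t (g.symm m) a * e I t a m) := by
      intro a
      have : e I t m (g a) = e I t (g.symm m) a := by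
        rw [← hg (g.symm m) a, Equiv.apply_symm_apply]
      rw [this, e_symm a m]
      ring
    rw [Finset.sum_congr rfl fun a _ => h3 a, ← Finset.mul_sum, e_mul h]
    ring
  rw [Finset.sum_congr rfl fun m _ => h2 m, ← Finset.mul_sum] at h1
  have hpos : (((t : ℤ) + 1) * (t + s)) ≠ 0 := by positivity
  exact (mul_eq_zero.1 h1).resolve_left hpos

/-- the function `m ↦ e(g m, m)` is orthogonal to the kernel for every automorphism `g` -/
theorem auto_orth (h : IsGQ I s t) (ht : 0 < t) (hst : s = t ^ 2) (g : Equiv.Perm L)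
    (hg : ∀ l m, e I t (g l) (g m) = e I t l m) (k : L) :
    ∑ m, e I t m k * e I t (g m) m = 0 := by
  have h1 := auto_orth0 h ht hst g.symm (fun l m => by
    rw [← hg (g.symm l) (g.symm m), Equiv.apply_symm_apply, Equiv.apply_symm_apply]) k
  simpa using h1

/-- local identity: `(t-1) φ(k) - (sum of φ over the lines meeting k)` does not depend on `k`,
for `φ(m) = e(g m, m)`. -/
theorem local_id (h : IsGQ I s t) (ht : 0 < t) (hst : s = t ^ 2) (g : Equiv.Perm L)
    (hg : ∀ l m, e I t (g l) (g m) = e I t l m) (k k' : L) :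
    ((t : ℤ) - 1) * e I t (g k) k - nb I (fun m => e I t (g m) m) k
      = ((t : ℤ) - 1) * e I t (g k') k' - nb I (fun m => e I t (g m) m) k' := by
  have key : ∀ k : L, ((t : ℤ) + 1) * (((t : ℤ) - 1) * e I t (g k) k
      - nb I (fun m => e I t (g m) m) k) = - ∑ m, e I t (g m) m := by
    intro k
    have h1 := auto_orth h ht hst g hg k
    rw [sum_three h ((t : ℤ) ^ 2) (-(t : ℤ)) 1 (fun m => e I t m k) k (e_self k)
      (fun m hne hm => e_meet hne (meet_symm.1 hm)) (fun m hne hm => e_disj hne
        (fun h' => hm (meet_symm.1 h')))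
      (fun m => e I t (g m) m)] at h1
    linarith
  have hpos : ((t : ℤ) + 1) ≠ 0 := by positivity
  exact mul_left_cancel₀ hpos ((key k).trans (key k').symm)

end Pool.Agent.Helper801.GQA
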