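import Pool.Agent.Helper801.GQA

/-!
Elation generalized quadrangles of order (t^2,t): an elation fixing a line L not through the
elation point x fixes every line through the point of L collinear with x; consequently the
symmetries about x are central.
-/

namespace Pool.Agent.Helper801.GQA

open Finset

/-- The automorphism group of the incidence structure. -/
def Aut {P L : Type*} (I : P → L → Prop) : Subgroup (Equiv.Perm P × Equiv.Perm L) where
  carrier := {g | ∀ p l, I (g.1 p) (g.2 l) ↔ I p l}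
  mul_mem' := by
    intro a b ha hb p l
    have h1 := ha (b.1 p) (b.2 l)
    have h2 := hb p l
    exact h1.trans h2
  one_mem' := by
    intro p l
    exact Iff.rfl
  inv_mem' := by
    intro a ha p l
    have h1 := ha (a.1⁻¹ p) (a.2⁻¹ l)
    have h2 : a.1 (a.1⁻¹ p) = p := by simp
    have h3 : a.2 (a.2⁻¹ l) = l := by simp
    rw [h2, h3] at h1
    exact h1.symm

/-- `G` is an elation group about `x`. -/
structure IsElationGroup {P L : Type*} (I : P → L → Prop) (x : P)
    (G : Subgroup (Equiv.Perm P × Equiv.Perm L)) : Prop where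
  /-- `G` consists of automorphisms -/
  le_aut : G ≤ Aut I
  /-- `G` fixes `x` -/
  fix_pt : ∀ g ∈ G, g.1 x = x
  /-- `G` fixes every line through `x` -/
  fix_ln : ∀ g ∈ G, ∀ l, I x l → g.2 l = l
  /-- `G` acts sharply transitively on the points not collinear with `x` -/
  sharp : ∀ p q, ¬ Coll I x p → ¬ Coll I x q → ∃! g, g ∈ G ∧ g.1 p = q

/-- `σ` is a symmetry about `u`: an automorphism fixing every point collinear with `u`. -/
def IsSymmetry {P L : Type*} (I : P → L → Prop) (u : P) (σ : Equiv.Perm P × Equiv.Perm L) : Prop :=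
  σ ∈ Aut I ∧ ∀ p, Coll I u p → σ.1 p = p

section basic

variable {P L : Type*} {I : P → L → Prop} {s t : ℕ} {x : P}
  {G : Subgroup (Equiv.Perm P × Equiv.Perm L)}

theorem aut_iff {g : Equiv.Perm P × Equiv.Perm L} (hg : g ∈ Aut I) (p : P) (l : L) :
    I (g.1 p) (g.2 l) ↔ I p l := hg p l

theorem coll_symm {p q : P} (h : Coll I p q) : Coll I q p := by
  obtain ⟨l, h1, h2⟩ := h
  exact ⟨l, h2, h1⟩

theorem coll_map {g : Equiv.Perm P × Equiv.Perm L} (hg : g ∈ Aut I) {p q : P} (h : Coll I p q) :
    Coll I (g.1 p) (g.1 q) := by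
  obtain ⟨l, h1, h2⟩ := h
  exact ⟨g.2 l, (hg p l).2 h1, (hg q l).2 h2⟩

theorem meet_map {g : Equiv.Perm P × Equiv.Perm L} (hg : g ∈ Aut I) (l m : L) :
    Meet I (g.2 l) (g.2 m) ↔ Meet I l m := by
  constructor
  · rintro ⟨p, h1, h2⟩
    refine ⟨g.1⁻¹ p, ?_, ?_⟩
    · rw [← aut_iff hg]; simpa using h1
    · rw [← aut_iff hg]; simpa using h2
  · rintro ⟨p, h1, h2⟩
    exact ⟨g.1 p, (hg p l).2 h1, (hg p m).2 h2⟩

theorem e_map {g : Equiv.Perm P × Equiv.Perm L} (hg : g ∈ Aut I) (l m : L) :
    e I t (g.2 l) (g.2 m) = e I t l m := by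
  classical
  by_cases h : l = m
  · subst h; rw [e_self, e_self]
  · have h' : g.2 l ≠ g.2 m := fun h1 => h (g.2.injective h1)
    by_cases hm : Meet I l m
    · rw [e_meet h hm, e_meet h' ((meet_map hg l m).2 hm)]
    · rw [e_disj h hm, e_disj h' (fun h1 => hm ((meet_map hg l m).1 h1))]

/-- two points on a line not through `p`, both collinear with `p`, are equal -/
theorem proj_unique (h : IsGQ I s t) {p q r : P} {l : L} (hp : ¬ I p l) (hq : I q l) (hr : I r l)
    (hpq : Coll I p q) (hpr : Coll I p r) : q = r := by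
  obtain ⟨z, _, hz⟩ := h.proj p l hp
  rw [hz q ⟨hq, hpq⟩, hz r ⟨hr, hpr⟩]

/-- regularity: an elation fixing a point not collinear with `x` is trivial -/
theorem elation_eq_one (hG : IsElationGroup I x G) {a : Equiv.Perm P × Equiv.Perm L} (ha : a ∈ G)
    {p : P} (hp : ¬ Coll I x p) (hfix : a.1 p = p) : a = 1 := by
  obtain ⟨z, _, hz⟩ := hG.sharp p p hp hp
  rw [hz a ⟨ha, hfix⟩, hz 1 ⟨G.one_mem, rfl⟩]

/-- if `a` fixes the line `K` but not the point `q` of `K`, then every line `m ≠ K` through `q`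
is disjoint from its image -/
theorem not_meet_image (h : IsGQ I s t) {a : Equiv.Perm P × Equiv.Perm L} (ha : a ∈ Aut I)
    {K m : L} {q : P} (hK : a.2 K = K) (hqK : I q K) (hq : a.1 q ≠ q) (hqm : I q m) (hmK : m ≠ K) :
    ¬ Meet I (a.2 m) m := by
  rintro ⟨r, h1, h2⟩
  have haq : I (a.1 q) K := by
    have := (aut_iff ha q K).2 hqK
    rwa [hK] at this
  have haqm : I (a.1 q) (a.2 m) := (aut_iff ha q m).2 hqm
  have hamK : a.2 m ≠ K := by
    intro h3
    apply hmK
    apply a.2.injective
    rw [h3, hK]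
  by_cases hr : I r K
  · have h3 : r = q := by
      by_contra hne
      exact hmK (h.unique_line r q hne m K h2 hqm hr hqK)
    have h4 : r = a.1 q := by
      by_contra hne
      exact hamK (h.unique_line r (a.1 q) hne (a.2 m) K h1 haqm hr haq)
    exact hq (h4.symm.trans h3)
  · exact hq (proj_unique h hr haq hqK ⟨a.2 m, h1, haqm⟩ ⟨m, h2, hqm⟩)

theorem exists_line (h : IsGQ I s t) (p : P) : ∃ l, I p l := by
  have h1 := h.point_card p
  by_contra hcon
  push Not at hcon
  haveI : IsEmpty {l : L // I p l} := ⟨fun l => hcon l.1 l.2⟩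
  simp at h1

theorem coll_self (h : IsGQ I s t) (p : P) : Coll I p p := by
  obtain ⟨l, hl⟩ := exists_line h p
  exact ⟨l, hl, hl⟩

/-- the point of a line collinear with `x` -/
theorem exists_y (h : IsGQ I s t) (x : P) {M : L} (hM : ¬ I x M) :
    ∃ y, I y M ∧ Coll I x y ∧ y ≠ x ∧ ∀ q, I q M → q ≠ y → ¬ Coll I x q := by
  obtain ⟨y, ⟨hy1, hy2⟩, hy3⟩ := h.proj x M hM
  refine ⟨y, hy1, hy2, ?_, ?_⟩
  · rintro rfl; exact hM hy1
  · intro q hq hne hc
    exact hne (hy3 q ⟨hq, hc⟩)

/-- another line through a point -/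
theorem exists_other_line (h : IsGQ I s t) (ht : 0 < t) (p : P) (l : L) : ∃ m, I p m ∧ m ≠ l := by
  have h1 := h.point_card p
  by_contra hcon
  push Not at hcon
  haveI : Subsingleton {l : L // I p l} := ⟨fun a b => by
    apply Subtype.ext
    rw [hcon a.1 a.2, hcon b.1 b.2]⟩
  have h2 : Nat.card {l : L // I p l} ≤ 1 := Finite.card_le_one_iff_subsingleton.2 inferInstance
  omega

/-- more points on a line -/
theorem exists_other_point (h : IsGQ I s t) (hs : 1 < s) (l : L) (p q : P) :
    ∃ r, I r l ∧ r ≠ p ∧ r ≠ q := by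
  classical
  have h1 := h.line_card l
  haveI : Finite {p : P // I p l} := Nat.finite_of_card_ne_zero (by omega)
  haveI : Fintype {p : P // I p l} := Fintype.ofFinite _
  rw [Nat.card_eq_fintype_card] at h1
  by_contra hcon
  push Not at hcon
  have h2 : (univ : Finset {p : P // I p l}).image Subtype.val ⊆ {p, q} := by
    intro r hr
    rw [Finset.mem_image] at hr
    obtain ⟨r', _, rfl⟩ := hr
    by_cases hrp : r'.1 = p
    · simp [hrp]
    · simp [hcon r'.1 r'.2 hrp]
  have h3 := Finset.card_le_card h2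
  rw [Finset.card_image_of_injective _ Subtype.val_injective, Finset.card_univ, h1] at h3
  have h4 : ({p, q} : Finset P).card ≤ 2 := Finset.card_le_two
  omega

end basic

end Pool.Agent.Helper801.GQA
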