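import Pool.Agent.Helper801.GQB

namespace Pool.Agent.Helper801.GQA

open Finset

section main

variable {P L : Type*} [Fintype P] [Fintype L] {I : P → L → Prop} {s t : ℕ} {x : P}
  {G : Subgroup (Equiv.Perm P × Equiv.Perm L)}

theorem nb_fixed (h : IsGQ I s t) {a : Equiv.Perm P × Equiv.Perm L} (ha : a ∈ Aut I) {K : L}
    (hK : a.2 K = K) {q0 : P} (hq0 : I q0 K) (hq : ∀ q, I q K → q ≠ q0 → a.1 q ≠ q) :
    nb I (fun m => e I t (a.2 m) m) K
      = (by classical exact ∑ m ∈ (lns I q0).erase K, e I t (a.2 m) m) + s * t := by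
  classical
  unfold nb
  rw [← Finset.add_sum_erase _ _ (mem_pts.2 hq0)]
  congr 1
  have h1 : ∀ q ∈ (pts I K).erase q0, ∑ m ∈ (lns I q).erase K, e I t (a.2 m) m = (t : ℤ) := by
    intro q hq'
    rw [Finset.mem_erase, mem_pts] at hq'
    have h2 : ∀ m ∈ (lns I q).erase K, e I t (a.2 m) m = 1 := by
      intro m hm
      rw [Finset.mem_erase, mem_lns] at hm
      have h3 := not_meet_image h ha hK hq'.2 (hq q hq'.2 hq'.1) hm.2 hm.1
      refine e_disj ?_ h3
      intro h4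
      apply h3
      rw [h4]
      exact ⟨q, hm.2, hm.2⟩
    rw [Finset.sum_congr rfl h2, Finset.sum_const,
      Finset.card_erase_of_mem (mem_lns.2 hq'.2), card_lns h, Nat.add_sub_cancel, nsmul_eq_mul,
      mul_one]
  rw [Finset.sum_congr rfl h1, Finset.sum_const, Finset.card_erase_of_mem (mem_pts.2 hq0),
    card_pts h, Nat.add_sub_cancel, nsmul_eq_mul]

/-- Key step: in an elation generalized quadrangle of order `(t^2,t)`, a nontrivial elation
fixing a line `M` not through `x` fixes every line through the point `y` of `M` collinear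
with `x`. -/
theorem fix_lines (h : IsGQ I s t) (ht : 1 < t) (hst : s = t ^ 2)
    (hG : IsElationGroup I x G) {a : Equiv.Perm P × Equiv.Perm L} (ha : a ∈ G)
    {M : L} (hM : ¬ I x M) (haM : a.2 M = M) {y : P} (hyM : I y M) (hxy : Coll I x y) {m : L}
    (hm : I y m) : a.2 m = m := by
  classical
  by_cases ha1 : a = 1
  · subst ha1; rfl
  have haA : a ∈ Aut I := hG.le_aut ha
  obtain ⟨y', hy1, hy2, hy3, hy4⟩ := exists_y h x hM
  have hyy : y = y' := by
    by_contra hne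
    exact hy4 y hyM hne hxy
  subst hyy
  obtain ⟨N, hxN, hyN⟩ := hxy
  obtain ⟨N', hxN', hNN'⟩ := exists_other_line h (by omega) x N
  have hyN' : ¬ I y N' := fun h1 => hNN' (h.unique_line x y hy3.symm N' N hxN' h1 hxN hyN)
  have haN' : a.2 N' = N' := hG.fix_ln a ha N' hxN'
  have hx' : ∀ q, I q N' → q ≠ x → a.1 q ≠ q := by
    intro q hq hqx haq
    have hqM : ¬ I q M := by
      intro h1
      by_cases h2 : q = y
      · exact hyN' (h2 ▸ hq)
      · exact hy4 q h1 h2 ⟨N', hxN', hq⟩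
    obtain ⟨r, ⟨hr1, hr2⟩, _⟩ := h.proj q M hqM
    have har : I (a.1 r) M := by
      have := (aut_iff haA r M).2 hr1
      rwa [haM] at this
    have hc : Coll I q (a.1 r) := by
      have := coll_map haA hr2
      rwa [haq] at this
    have h3 : a.1 r = r := proj_unique h hqM har hr1 hc hr2
    have h4 : r ≠ y := by
      rintro rfl
      exact hqx (proj_unique h hyN' hq hxN' (coll_symm hr2) ⟨N, hyN, hxN⟩)
    exact ha1 (elation_eq_one hG ha (hy4 r hr1 h4) h3)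
  have hy' : ∀ q, I q M → q ≠ y → a.1 q ≠ q := fun q hq hqy haq =>
    ha1 (elation_eq_one hG ha (hy4 q hq hqy) haq)
  have hloc := local_id h (by omega) hst a.2 (fun l m => e_map haA l m) M N'
  rw [haM, haN', e_self, e_self, nb_fixed h haA haM hyM hy', nb_fixed h haA haN' hxN' hx'] at hloc
  have hsumx : ∑ m ∈ (lns I x).erase N', e I t (a.2 m) m = (t : ℤ) * t ^ 2 := by
    have h2 : ∀ m ∈ (lns I x).erase N', e I t (a.2 m) m = (t : ℤ) ^ 2 := by
      intro m hm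
      rw [Finset.mem_erase, mem_lns] at hm
      rw [hG.fix_ln a ha m hm.2, e_self]
    rw [Finset.sum_congr rfl h2, Finset.sum_const,
      Finset.card_erase_of_mem (mem_lns.2 hxN'), card_lns h, Nat.add_sub_cancel, nsmul_eq_mul]
  rw [hsumx] at hloc
  have hsumy : ∑ m ∈ (lns I y).erase M, e I t (a.2 m) m = ∑ m ∈ (lns I y).erase M, (t : ℤ) ^ 2 := by
    rw [Finset.sum_const, Finset.card_erase_of_mem (mem_lns.2 hyM), card_lns h,
      Nat.add_sub_cancel, nsmul_eq_mul]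
    linarith
  have ht' : (1 : ℤ) < t := by exact_mod_cast ht
  have hlt : ∀ m, a.2 m ≠ m → e I t (a.2 m) m < (t : ℤ) ^ 2 := by
    intro m hne
    by_cases hmt : Meet I (a.2 m) m
    · rw [e_meet hne hmt]; nlinarith
    · rw [e_disj hne hmt]; nlinarith
  have hle : ∀ m ∈ (lns I y).erase M, e I t (a.2 m) m ≤ (t : ℤ) ^ 2 := by
    intro m _
    by_cases hne : a.2 m = m
    · rw [hne, e_self]
    · exact (hlt m hne).le
  by_cases hmM : m = M
  · rw [hmM]; exact haM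
  · have h5 := (Finset.sum_eq_sum_iff_of_le hle).1 hsumy m
      (Finset.mem_erase.2 ⟨hmM, mem_lns.2 hm⟩)
    by_contra hne
    exact absurd h5 (hlt m hne).ne

/-- a symmetry about `x` in `G` commutes with every element of `G` fixing a line not through `x` -/
theorem comm_of_fix (h : IsGQ I s t) (hs : 1 < s) (ht : 1 < t) (hst : s = t ^ 2)
    (hG : IsElationGroup I x G) {z a : Equiv.Perm P × Equiv.Perm L} (hz : IsSymmetry I x z)
    (hzG : z ∈ G) (ha : a ∈ G) {M : L} (hM : ¬ I x M) (haM : a.2 M = M) : z * a = a * z := by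
  obtain ⟨y, hyM, hxy, hyx, hy4⟩ := exists_y h x hM
  have haA := hG.le_aut ha
  have hzy : z.1 y = y := hz.2 y hxy
  have hzM : a.2 (z.2 M) = z.2 M := by
    refine fix_lines h ht hst hG ha hM haM hyM hxy ?_
    have := (aut_iff hz.1 y M).2 hyM
    rwa [hzy] at this
  set σ := a⁻¹ * z⁻¹ * a * z with hσ
  have hσG : σ ∈ G := G.mul_mem (G.mul_mem (G.mul_mem (G.inv_mem ha) (G.inv_mem hzG)) ha) hzG
  have hσM : σ.2 M = M := by
    have h1 : σ.2 M = a.2⁻¹ (z.2⁻¹ (a.2 (z.2 M))) := rfl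
    rw [h1, hzM]
    have h2 : z.2⁻¹ (z.2 M) = M := by simp
    rw [h2]
    rw [Equiv.Perm.inv_eq_iff_eq, haM]
  have hσx : ∀ p, Coll I x p → σ.1 p = p := by
    intro p hp
    have h1 : σ.1 p = a.1⁻¹ (z.1⁻¹ (a.1 (z.1 p))) := rfl
    rw [h1, hz.2 p hp]
    have h2 : Coll I x (a.1 p) := by
      have := coll_map haA hp
      rwa [hG.fix_pt a ha] at this
    have h3 : z.1⁻¹ (a.1 p) = a.1 p := by
      rw [Equiv.Perm.inv_eq_iff_eq, hz.2 _ h2]
    rw [h3]
    simp
  obtain ⟨N, hxN, hyN⟩ := hxy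
  obtain ⟨N', hxN', hNN'⟩ := exists_other_line h (by omega) x N
  have hyN' : ¬ I y N' := fun h1 => hNN' (h.unique_line x y hyx.symm N' N hxN' h1 hxN hyN)
  obtain ⟨q, hqM, hqy, _⟩ := exists_other_point h hs M y y
  have hxq : ¬ Coll I x q := hy4 q hqM hqy
  have hqN' : ¬ I q N' := fun h1 => hxq ⟨N', hxN', h1⟩
  obtain ⟨w, ⟨hw1, hw2⟩, _⟩ := h.proj q N' hqN'
  have hσw : σ.1 w = w := hσx w ⟨N', hxN', hw1⟩
  have hwM : ¬ I w M := by
    intro h1
    by_cases h2 : w = y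
    · exact hyN' (h2 ▸ hw1)
    · exact hy4 w h1 h2 ⟨N', hxN', hw1⟩
  have hσA := hG.le_aut hσG
  have h1 : I (σ.1 q) M := by
    have := (aut_iff hσA q M).2 hqM
    rwa [hσM] at this
  have h2 : Coll I w (σ.1 q) := by
    have := coll_map hσA (coll_symm hw2)
    rwa [hσw] at this
  have h3 : σ.1 q = q := proj_unique h hwM h1 hqM h2 (coll_symm hw2)
  have h4 : σ = 1 := elation_eq_one hG hσG hxq h3
  rw [hσ] at h4
  calc z * a = z * a * (a⁻¹ * z⁻¹ * a * z) := by rw [h4, mul_one]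
    _ = a * z := by group

/-- an elation mapping a point to a collinear one fixes the joining line -/
theorem elation_fix (h : IsGQ I s t) (hG : IsElationGroup I x G)
    {g : Equiv.Perm P × Equiv.Perm L} (hg : g ∈ G) {p q : P} {M : L} (hp : I p M) (hq : I q M)
    (hxp : ¬ Coll I x p) (hxq : ¬ Coll I x q) (hgp : g.1 p = q) : g.2 M = M := by
  have hgA := hG.le_aut hg
  have hM : ¬ I x M := fun h1 => hxp ⟨M, h1, hp⟩
  obtain ⟨y, hyM, ⟨N, hxN, hyN⟩, hyx, hy4⟩ := exists_y h x hM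
  have hgN : g.2 N = N := hG.fix_ln g hg N hxN
  have hgy : I (g.1 y) N := by
    have := (aut_iff hgA y N).2 hyN
    rwa [hgN] at this
  have hgyM : I (g.1 y) (g.2 M) := (aut_iff hgA y M).2 hyM
  have hqM' : I q (g.2 M) := by
    have := (aut_iff hgA p M).2 hp
    rwa [hgp] at this
  have hqN : ¬ I q N := fun h1 => hxq ⟨N, hxN, h1⟩
  have h1 : g.1 y = y := proj_unique h hqN hgy hyN ⟨g.2 M, hqM', hgyM⟩ ⟨M, hq, hyM⟩
  rw [h1] at hgyM
  have hqy : q ≠ y := by
    rintro rfl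
    exact hxq ⟨N, hxN, hyN⟩
  exact h.unique_line q y hqy _ _ hqM' hgyM hq hyM

/-- two points not collinear with `x` are joined by a path of points not collinear with `x` -/
theorem common_nb (h : IsGQ I s t) (ht : 0 < t) {p q q' : P} {K : L} (hp : ¬ Coll I x p)
    (hqK : I q K) (hq'K : I q' K) (hqq : q ≠ q') (hpq : ¬ Coll I p q) (hpq' : ¬ Coll I p q') :
    (∃ r, ¬ Coll I x r ∧ Coll I p r ∧ Coll I r q) ∨ (∃ r, ¬ Coll I x r ∧ Coll I p r ∧ Coll I r q') := by
  by_contra hcon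
  push Not at hcon
  obtain ⟨hc1, hc2⟩ := hcon
  have hpK : ¬ I p K := fun h1 => hpq ⟨K, h1, hqK⟩
  have key : ∀ M, I p M → ∀ y, I y M → Coll I x y → I y K := by
    intro M hpM y hyM hxy
    have hxM : ¬ I x M := fun h1 => hp ⟨M, h1, hpM⟩
    obtain ⟨y', hy1, hy2, hy3, hy4⟩ := exists_y h x hxM
    have hyy : y = y' := by
      by_contra hne
      exact hy4 y hyM hne hxy
    subst hyy
    have hqM : ¬ I q M := fun h1 => hpq ⟨M, hpM, h1⟩
    have hq'M : ¬ I q' M := fun h1 => hpq' ⟨M, hpM, h1⟩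
    obtain ⟨r, ⟨hr1, hr2⟩, _⟩ := h.proj q M hqM
    obtain ⟨r', ⟨hr1', hr2'⟩, _⟩ := h.proj q' M hq'M
    have h1 : r = y := by
      by_contra hne
      exact hc1 r (hy4 r hr1 hne) ⟨M, hpM, hr1⟩ (coll_symm hr2)
    have h2 : r' = y := by
      by_contra hne
      exact hc2 r' (hy4 r' hr1' hne) ⟨M, hpM, hr1'⟩ (coll_symm hr2')
    subst h1
    subst h2
    by_contra hyK
    exact hqq (proj_unique h hyK hqK hq'K (coll_symm hr2) (coll_symm hr2'))
  obtain ⟨M1, hM1⟩ := exists_line h p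
  obtain ⟨M2, hM2, hne⟩ := exists_other_line h ht p M1
  obtain ⟨y1, hy1, hxy1, _, _⟩ := exists_y h x (fun h1 => hp ⟨M1, h1, hM1⟩)
  obtain ⟨y2, hy2, hxy2, _, _⟩ := exists_y h x (fun h1 => hp ⟨M2, h1, hM2⟩)
  have h1 := key M1 hM1 y1 hy1 hxy1
  have h2 := key M2 hM2 y2 hy2 hxy2
  have h3 : y1 = y2 := proj_unique h hpK h1 h2 ⟨M1, hM1, hy1⟩ ⟨M2, hM2, hy2⟩
  subst h3
  have h4 : p ≠ y1 := by
    rintro rfl; exact hp hxy1
  exact hne (h.unique_line p y1 h4 M2 M1 hM2 hy2 hM1 hy1)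

/-- In an elation generalized quadrangle of order `(t^2,t)`, every symmetry about `x` in `G`
is central. -/
theorem central (h : IsGQ I s t) (hs : 1 < s) (ht : 1 < t) (hst : s = t ^ 2)
    (hG : IsElationGroup I x G) {z : Equiv.Perm P × Equiv.Perm L} (hz : IsSymmetry I x z)
    (hzG : z ∈ G) {g : Equiv.Perm P × Equiv.Perm L} (hg : g ∈ G) : z * g = g * z := by
  -- step for collinear points
  have step : ∀ p q, ¬ Coll I x p → ¬ Coll I x q → Coll I p q →
      ∃ k, k ∈ G ∧ z * k = k * z ∧ k.1 p = q := by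
    intro p q hp hq ⟨M, hpM, hqM⟩
    obtain ⟨k, ⟨hk1, hk2⟩, _⟩ := hG.sharp p q hp hq
    have hM : ¬ I x M := fun h1 => hp ⟨M, h1, hpM⟩
    exact ⟨k, hk1, comm_of_fix h hs ht hst hG hz hzG hk1 hM
      (elation_fix h hG hk1 hpM hqM hp hq hk2), hk2⟩
  have trans : ∀ p q r, (∃ k, k ∈ G ∧ z * k = k * z ∧ k.1 p = q) →
      (∃ k, k ∈ G ∧ z * k = k * z ∧ k.1 q = r) → ∃ k, k ∈ G ∧ z * k = k * z ∧ k.1 p = r := by
    rintro p q r ⟨k, hk1, hk2, hk3⟩ ⟨l, hl1, hl2, hl3⟩
    refine ⟨l * k, G.mul_mem hl1 hk1, ?_, ?_⟩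
    · rw [← mul_assoc, hl2, mul_assoc, hk2, mul_assoc]
    · change l.1 (k.1 p) = r
      rw [hk3, hl3]
  -- a point not collinear with x
  obtain ⟨N, hxN⟩ := exists_line h x
  obtain ⟨y, hyN, hyx, _⟩ := exists_other_point h hs N x x
  obtain ⟨M, hyM, hMN⟩ := exists_other_line h (by omega : 0 < t) y N
  have hxM : ¬ I x M := fun h1 => hMN (h.unique_line x y hyx.symm M N h1 hyM hxN hyN)
  obtain ⟨y', hy1, hy2, hy3, hy4⟩ := exists_y h x hxM
  obtain ⟨p, hpM, hpy, _⟩ := exists_other_point h hs M y' y'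
  have hp : ¬ Coll I x p := hy4 p hpM hpy
  have hgp : ¬ Coll I x (g.1 p) := by
    intro h1
    apply hp
    have h2 := coll_map ((Aut I).inv_mem (hG.le_aut hg)) h1
    have h3 : (g⁻¹).1 (g.1 p) = p := by simp
    have h4 : (g⁻¹).1 x = x := hG.fix_pt _ (G.inv_mem hg)
    rwa [h3, h4] at h2
  have main : ∃ k, k ∈ G ∧ z * k = k * z ∧ k.1 p = g.1 p := by
    set q := g.1 p with hq
    by_cases hpq : Coll I p q
    · exact step p q hp hgp hpq
    obtain ⟨K, hqK⟩ := exists_line h q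
    have hxK : ¬ I x K := fun h1 => hgp ⟨K, h1, hqK⟩
    obtain ⟨yK, _, _, _, hyK⟩ := exists_y h x hxK
    obtain ⟨q', hq'K, hq'1, hq'2⟩ := exists_other_point h hs K yK q
    have hxq' : ¬ Coll I x q' := hyK q' hq'K hq'1
    by_cases hpq' : Coll I p q'
    · exact trans p q' q (step p q' hp hxq' hpq') (step q' q hxq' hgp ⟨K, hq'K, hqK⟩)
    rcases common_nb h (by omega : 0 < t) hp hqK hq'K (Ne.symm hq'2) hpq hpq' with
      ⟨r, hr1, hr2, hr3⟩ | ⟨r, hr1, hr2, hr3⟩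
    · exact trans p r q (step p r hp hr1 hr2) (step r q hr1 hgp hr3)
    · exact trans p q' q (trans p r q' (step p r hp hr1 hr2) (step r q' hr1 hxq' hr3))
        (step q' q hxq' hgp ⟨K, hq'K, hqK⟩)
  obtain ⟨k, hk1, hk2, hk3⟩ := main
  obtain ⟨w, _, hw⟩ := hG.sharp p (g.1 p) hp hgp
  have : k = g := by rw [hw k ⟨hk1, hk3⟩, hw g ⟨hg, rfl⟩]
  rw [← this]
  exact hk2

end main

end Pool.Agent.Helper801.GQA
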