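import Mathlib

open Polynomial

namespace Pool.Agent.Helper801.NucA

variable {A : Type*} [CommRing A]

/-- weighted degree at most n : coefficient i has degree at most n - i -/
def Wt (n : ℕ) (F : A[X][X]) : Prop := ∀ i, (F.coeff i).degree + (i : WithBot ℕ) ≤ (n : WithBot ℕ)

theorem Wt.mono {n m : ℕ} {F : A[X][X]} (h : Wt n F) (hnm : n ≤ m) : Wt m F := fun i =>
  (h i).trans (by exact_mod_cast hnm)

theorem Wt.zero (n : ℕ) : Wt n (0 : A[X][X]) := by
  intro i; simp

theorem Wt.add {n : ℕ} {F G : A[X][X]} (hF : Wt n F) (hG : Wt n G) : Wt n (F + G) := by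
  intro i
  rw [coeff_add]
  rcases le_total (F.coeff i).degree (G.coeff i).degree with h | h
  · exact (add_le_add_left ((degree_add_le _ _).trans (max_le h le_rfl)) _).trans (hG i)
  · exact (add_le_add_left ((degree_add_le _ _).trans (max_le le_rfl h)) _).trans (hF i)

theorem Wt.neg {n : ℕ} {F : A[X][X]} (hF : Wt n F) : Wt n (-F) := by
  intro i; rw [coeff_neg, degree_neg]; exact hF i

theorem Wt.sub {n : ℕ} {F G : A[X][X]} (hF : Wt n F) (hG : Wt n G) : Wt n (F - G) := by
  rw [sub_eq_add_neg]; exact hF.add hG.neg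

theorem Wt.sum {ι : Type*} {n : ℕ} (s : Finset ι) (F : ι → A[X][X]) (h : ∀ i ∈ s, Wt n (F i)) :
    Wt n (∑ i ∈ s, F i) := by
  classical
  induction s using Finset.induction_on with
  | empty => simpa using Wt.zero n
  | insert a s ha ih =>
    rw [Finset.sum_insert ha]
    exact (h a (Finset.mem_insert_self _ _)).add (ih fun i hi => h i (Finset.mem_insert_of_mem hi))

theorem Wt.mul {n m : ℕ} {F G : A[X][X]} (hF : Wt n F) (hG : Wt m G) : Wt (n + m) (F * G) := by
  intro i
  rw [coeff_mul]
  have key : ∀ x ∈ Finset.HasAntidiagonal.antidiagonal i,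
      (F.coeff x.1 * G.coeff x.2).degree + (i : WithBot ℕ) ≤ ((n + m : ℕ) : WithBot ℕ) := by
    intro x hx
    have hx' : x.1 + x.2 = i := Finset.HasAntidiagonal.mem_antidiagonal.1 hx
    have h1 := hF x.1
    have h2 := hG x.2
    calc (F.coeff x.1 * G.coeff x.2).degree + (i : WithBot ℕ)
        ≤ (F.coeff x.1).degree + (G.coeff x.2).degree + (i : WithBot ℕ) :=
          add_le_add_left (degree_mul_le _ _) _
      _ = ((F.coeff x.1).degree + (x.1 : WithBot ℕ)) + ((G.coeff x.2).degree + (x.2 : WithBot ℕ)) := by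
          rw [← hx']; push_cast; ring
      _ ≤ (n : WithBot ℕ) + (m : WithBot ℕ) := add_le_add h1 h2
      _ = ((n + m : ℕ) : WithBot ℕ) := by push_cast; rfl
  refine Finset.sum_induction (fun x : ℕ × ℕ => F.coeff x.1 * G.coeff x.2)
    (fun f : A[X] => f.degree + (i : WithBot ℕ) ≤ ((n + m : ℕ) : WithBot ℕ)) ?_ ?_ key
  · intro a b ha hb
    rcases le_total a.degree b.degree with h | h
    · exact (add_le_add_left ((degree_add_le _ _).trans (max_le h le_rfl)) _).trans hb
    · exact (add_le_add_left ((degree_add_le _ _).trans (max_le le_rfl h)) _).trans ha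
  · simp

theorem Wt.one (n : ℕ) : Wt n (1 : A[X][X]) := by
  intro i
  rw [coeff_one]
  split_ifs with h
  · subst h
    simp only [Nat.cast_zero, add_zero]
    exact degree_one_le.trans (by exact_mod_cast Nat.zero_le n)
  · simp

theorem Wt.X_ {n : ℕ} (hn : 1 ≤ n) : Wt n (X : A[X][X]) := by
  intro i
  rw [coeff_X]
  split_ifs with h
  · subst h
    calc (1 : A[X]).degree + ((1 : ℕ) : WithBot ℕ) ≤ 0 + ((1 : ℕ) : WithBot ℕ) :=
          add_le_add_left degree_one_le _
      _ ≤ n := by simpa using (by exact_mod_cast hn : (1 : WithBot ℕ) ≤ (n : WithBot ℕ))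
  · simp

theorem Wt.C_ {n : ℕ} {f : A[X]} (hf : f.degree ≤ n) : Wt n (C f : A[X][X]) := by
  intro i
  rw [coeff_C]
  split_ifs with h
  · subst h; simpa using hf
  · simp

theorem Wt.prod {ι : Type*} (s : Finset ι) (F : ι → A[X][X]) (h : ∀ i ∈ s, Wt 1 (F i)) :
    Wt s.card (∏ i ∈ s, F i) := by
  classical
  induction s using Finset.induction_on with
  | empty => simpa using Wt.one 0
  | insert a s ha ih =>
    rw [Finset.prod_insert ha, Finset.card_insert_of_notMem ha, add_comm]
    exact (h a (Finset.mem_insert_self _ _)).mul (ih fun i hi => h i (Finset.mem_insert_of_mem hi))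

theorem Wt.degree_coeff {n i j : ℕ} {F : A[X][X]} (h : Wt n F) (hij : n ≤ i + j) :
    (F.coeff i).degree ≤ j := by
  by_cases h0 : F.coeff i = 0
  · simp [h0]
  · have h1 := h i
    rw [degree_eq_natDegree h0] at h1 ⊢
    have h2 : (F.coeff i).natDegree + i ≤ n := by exact_mod_cast h1
    exact_mod_cast (by omega : (F.coeff i).natDegree ≤ j)

theorem Wt.coeff_eq_zero {n i : ℕ} {F : A[X][X]} (h : Wt n F) (hi : n < i) : F.coeff i = 0 := by
  by_contra h0
  have h1 := h i
  rw [degree_eq_natDegree h0] at h1
  have h2 : (F.coeff i).natDegree + i ≤ n := by exact_mod_cast h1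
  omega

theorem Wt.natDegree_coeff {n i : ℕ} {F : A[X][X]} (h : Wt n F) :
    (F.coeff i).natDegree ≤ n - i := by
  by_cases h0 : F.coeff i = 0
  · simp [h0]
  · have h1 := h i
    rw [degree_eq_natDegree h0] at h1
    have h2 : (F.coeff i).natDegree + i ≤ n := by exact_mod_cast h1
    omega

/-- remainder of a power modulo a monic polynomial, with control of the weight -/
theorem exists_rem [Nontrivial A] {c : ℕ} (hc : 1 ≤ c) {R : A[X][X]} (hR : R.Monic)
    (hd : R.natDegree = c) (hw : Wt c R) (N : ℕ) :
    ∃ r : A[X][X], r.natDegree < c ∧ Wt N r ∧ R ∣ X ^ N - r := by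
  induction N with
  | zero =>
    refine ⟨if c = 0 then 0 else 1, ?_, ?_, ?_⟩
    · rw [if_neg (by omega), natDegree_one]; omega
    · rw [if_neg (by omega)]; exact Wt.one 0
    · rw [if_neg (by omega)]; simp
  | succ N ih =>
    obtain ⟨r, hr1, hr2, hr3⟩ := ih
    refine ⟨X * r - C (r.coeff (c - 1)) * R, ?_, ?_, ?_⟩
    · have h1 : (X * r - C (r.coeff (c - 1)) * R).natDegree ≤ c := by
        refine (natDegree_sub_le _ _).trans (max_le ?_ ?_)
        · exact (natDegree_mul_le).trans (by rw [natDegree_X]; omega)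
        · refine (natDegree_mul_le).trans ?_
          rw [natDegree_C]; omega
      have h2 : (X * r - C (r.coeff (c - 1)) * R).coeff c = 0 := by
        obtain ⟨c', rfl⟩ : ∃ c', c = c' + 1 := ⟨c - 1, by omega⟩
        rw [coeff_sub, coeff_X_mul, coeff_C_mul]
        have : R.coeff (c' + 1) = 1 := by rw [← hd]; exact hR
        rw [this]; simp
      by_contra h3
      have h4 : (X * r - C (r.coeff (c - 1)) * R).natDegree = c := by omega
      have h5 : X * r - C (r.coeff (c - 1)) * R ≠ 0 := by
        intro h; rw [h] at h4; simp at h4; omega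
      exact h5 (leadingCoeff_eq_zero.1 (by rw [leadingCoeff, h4, h2]))
    · refine Wt.sub ?_ ?_
      · rw [add_comm]; exact (Wt.X_ le_rfl).mul hr2
      · by_cases hN : c - 1 ≤ N
        · have h1 : Wt (N - (c - 1)) (C (r.coeff (c - 1)) : A[X][X]) :=
            Wt.C_ (hr2.degree_coeff (by omega))
          exact (h1.mul hw).mono (by omega)
        · rw [hr2.coeff_eq_zero (by omega)]
          simpa using Wt.zero _
    · have : X ^ (N + 1) - (X * r - C (r.coeff (c - 1)) * R)
          = X * (X ^ N - r) + C (r.coeff (c - 1)) * R := by ring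
      rw [this]
      exact dvd_add (hr3.mul_left _) (Dvd.intro_left _ rfl)

/-- coefficientwise derivative -/
noncomputable def dt (F : A[X][X]) : A[X][X] :=
  PolynomialModule.equivPolynomialSelf ((derivative' (R := A)).mapCoeffs F)

theorem coeff_dt (F : A[X][X]) (i : ℕ) : (dt F).coeff i = derivative (F.coeff i) := rfl

theorem dt_add (F G : A[X][X]) : dt (F + G) = dt F + dt G := by
  ext i : 1; simp [coeff_dt]

theorem dt_mul (F G : A[X][X]) : dt (F * G) = F * dt G + dt F * G := by
  ext i : 1
  rw [coeff_dt, coeff_add, coeff_mul, coeff_mul, coeff_mul, derivative_sum, ← Finset.sum_add_distrib]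
  refine Finset.sum_congr rfl fun x _ => ?_
  rw [derivative_mul, coeff_dt, coeff_dt]; ring

theorem dt_C (f : A[X]) : dt (C f) = C (derivative f) := by
  ext i : 1
  rw [coeff_dt, coeff_C, coeff_C]; split_ifs <;> simp

theorem dt_X : dt (X : A[X][X]) = 0 := by
  ext i : 1
  rw [coeff_dt, coeff_X]; split_ifs <;> simp

theorem dt_X_sub_C (f : A[X]) : dt (X - C f) = - C (derivative f) := by
  rw [sub_eq_add_neg, dt_add, dt_X, ← C_neg, dt_C]; simp

/-- chain rule -/
theorem derivative_eval_eq (F : A[X][X]) (f : A[X]) :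
    derivative (F.eval f) = (dt F).eval f + (derivative F).eval f * derivative f := by
  induction F using Polynomial.induction_on' with
  | add p q hp hq =>
    rw [eval_add, derivative_add, hp, hq, dt_add, derivative_add, eval_add, eval_add]; ring
  | monomial n a =>
    rw [eval_monomial, derivative_mul, derivative_monomial, eval_monomial, derivative_pow]
    have : dt (monomial n a) = monomial n (derivative a) := by
      ext i : 1
      rw [coeff_dt, coeff_monomial, coeff_monomial]; split_ifs <;> simp
    rw [this, eval_monomial]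
    simp only [map_natCast]
    ring

/-- the derivation  eta d/dt + Q d/dT -/
noncomputable def del (η : A[X]) (Q F : A[X][X]) : A[X][X] := C η * dt F + Q * derivative F

theorem del_mul (η : A[X]) (Q F G : A[X][X]) : del η Q (F * G) = F * del η Q G + del η Q F * G := by
  unfold del; rw [dt_mul, derivative_mul]; ring

theorem dt_one : dt (1 : A[X][X]) = 0 := by
  ext i : 1
  rw [coeff_dt, coeff_one]; split_ifs <;> simp

theorem del_one (η : A[X]) (Q : A[X][X]) : del η Q 1 = 0 := by
  unfold del; simp [dt_one]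

theorem dvd_del_prod {ι : Type*} (η : A[X]) (Q : A[X][X]) (s : Finset ι) (F : ι → A[X][X])
    (h : ∀ i ∈ s, F i ∣ del η Q (F i)) : (∏ i ∈ s, F i) ∣ del η Q (∏ i ∈ s, F i) := by
  classical
  induction s using Finset.induction_on with
  | empty => simp [del_one]
  | insert a s ha ih =>
    rw [Finset.prod_insert ha, del_mul]
    have h1 := ih fun i hi => h i (Finset.mem_insert_of_mem hi)
    have h2 := h a (Finset.mem_insert_self _ _)
    exact dvd_add (mul_dvd_mul_left _ h1) (mul_dvd_mul_right h2 _)

theorem dvd_del_lin {η : A[X]} {Q : A[X][X]} {τ : A[X]} (h : Q.eval τ = η * derivative τ) :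
    (X - C τ) ∣ del η Q (X - C τ) := by
  have : del η Q (X - C τ) = Q - C (Q.eval τ) := by
    unfold del
    rw [dt_X_sub_C, h, derivative_sub, derivative_X, derivative_C]
    rw [C_mul]; ring
  rw [this]
  exact X_sub_C_dvd_sub_C_eval

end Pool.Agent.Helper801.NucA
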