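import Pool.Agent.Helper801.NucA

open Polynomial

namespace Pool.Agent.Helper801.NucB

open Pool.Agent.Helper801.NucA

variable {K : Type*} [Field K] [Fintype K]

theorem prod_univ_X_sub_C :
    (∏ x : K, (X - C x : K[X])) = X ^ Fintype.card K - X := by
  have h := prod_multiset_X_sub_C_of_monic_of_roots_card_eq
    (p := (X ^ Fintype.card K - X : K[X])) ?_ ?_
  · rw [FiniteField.roots_X_pow_card_sub_X] at h
    exact h
  · apply monic_X_pow_sub
    rw [degree_X]; exact_mod_cast Fintype.one_lt_card
  · rw [FiniteField.roots_X_pow_card_sub_X,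
      FiniteField.X_pow_card_sub_X_natDegree_eq K Fintype.one_lt_card]
    rfl

theorem prod_X_sub_C_of_inj {ι : Type*} [Fintype ι] (z : ι → K)
    (hc : Fintype.card ι + 1 = Fintype.card K) (hz : Function.Injective z) (h0 : ∀ n, z n ≠ 0) :
    (∏ n, (X - C (z n) : K[X])) = X ^ (Fintype.card K - 1) - 1 := by
  classical
  have himg : Finset.univ.image z = Finset.univ.erase (0 : K) := by
    apply Finset.eq_of_subset_of_card_le
    · intro x hx
      obtain ⟨n, _, rfl⟩ := Finset.mem_image.1 hx
      exact Finset.mem_erase.2 ⟨h0 n, Finset.mem_univ _⟩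
    · rw [Finset.card_erase_of_mem (Finset.mem_univ _), Finset.card_image_of_injective _ hz,
        Finset.card_univ, Finset.card_univ]
      omega
  have h1 : (∏ n, (X - C (z n) : K[X])) = ∏ x ∈ Finset.univ.erase (0 : K), (X - C x) := by
    rw [← himg, Finset.prod_image (fun a _ b _ h => hz h)]
  have h2 : (X : K[X]) * ∏ x ∈ Finset.univ.erase (0 : K), (X - C x)
      = X ^ Fintype.card K - X := by
    rw [← prod_univ_X_sub_C, ← Finset.mul_prod_erase Finset.univ _ (Finset.mem_univ (0 : K))]
    simp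
  have h3 : (X : K[X]) * (X ^ (Fintype.card K - 1) - 1) = X ^ Fintype.card K - X := by
    rw [mul_sub, ← pow_succ', Nat.sub_add_cancel Fintype.card_pos]; simp
  rw [h1]
  exact mul_left_cancel₀ X_ne_zero (h2.trans h3.symm)

theorem coeff_sum_eq_zero [DecidableEq K] (f : K[X]) (hf : f.natDegree < 2 * (Fintype.card K - 1))
    (h : ∀ x, x ≠ 0 → f.eval x = 0) : f.coeff 0 + f.coeff (Fintype.card K - 1) = 0 := by
  set q := Fintype.card K with hq
  have hq1 : 1 < q := Fintype.one_lt_card
  have h1 : ∑ x : Kˣ, f.eval (x : K) = 0 :=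
    Finset.sum_eq_zero fun x _ => h _ (Units.ne_zero x)
  have h2 : ∑ x : Kˣ, f.eval (x : K)
      = ∑ i ∈ Finset.range (2 * (q - 1)), f.coeff i * (if q - 1 ∣ i then -1 else 0) := by
    have h0 : ∀ x : Kˣ, f.eval (x : K) = ∑ i ∈ Finset.range (2 * (q - 1)), f.coeff i * (x : K) ^ i :=
      fun x => eval_eq_sum_range' hf (x : K)
    simp_rw [h0]
    rw [Finset.sum_comm]
    refine Finset.sum_congr rfl fun i _ => ?_
    rw [← Finset.mul_sum, FiniteField.sum_pow_units K i]
  rw [h1] at h2
  have h3 : ∑ i ∈ Finset.range (2 * (q - 1)), f.coeff i * (if q - 1 ∣ i then (-1 : K) else 0)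
      = ∑ i ∈ ({0, q - 1} : Finset ℕ), f.coeff i * (-1) := by
    symm
    rw [← Finset.sum_subset (s₁ := ({0, q - 1} : Finset ℕ))
      (s₂ := Finset.range (2 * (q - 1)))
      (f := fun i => f.coeff i * (if q - 1 ∣ i then (-1 : K) else 0))]
    · refine Finset.sum_congr rfl fun i hi => ?_
      rw [if_pos]
      rcases Finset.mem_insert.1 hi with rfl | hi
      · simp
      · rw [Finset.mem_singleton.1 hi]
    · intro i hi
      rw [Finset.mem_range]
      rcases Finset.mem_insert.1 hi with rfl | hi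
      · omega
      · rw [Finset.mem_singleton.1 hi]; omega
    · intro i hi hi2
      rw [if_neg, mul_zero]
      rintro ⟨k, rfl⟩
      have hk : k < 2 := by
        by_contra hk
        have : 2 ≤ k := by omega
        have := Nat.mul_le_mul_left (q - 1) this
        have := Finset.mem_range.1 hi
        omega
      apply hi2
      interval_cases k <;> simp
  rw [h3, Finset.sum_pair (by omega)] at h2
  linear_combination h2

/-- filtration degree of the coefficients of a product of linear factors -/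
theorem filt_coeff_prod {B ι : Type*} [CommRing B] [Nontrivial B] (W : ℕ → B → Prop)
    (hmono : ∀ n m x, n ≤ m → W n x → W m x) (hzero : ∀ n, W n 0) (hone : W 0 1)
    (hsub : ∀ n x y, W n x → W n y → W n (x - y))
    (hmul : ∀ n m x y, W n x → W m y → W (n + m) (x * y))
    (ℓ : ι → B) (s : Finset ι) (h : ∀ n ∈ s, W 1 (ℓ n)) (i : ℕ) :
    W (s.card - i) ((∏ n ∈ s, (X - C (ℓ n))).coeff i) := by
  classical
  induction s using Finset.induction_on generalizing i with
  | empty =>
    simp only [Finset.prod_empty, Finset.card_empty, Nat.zero_sub, coeff_one]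
    split_ifs
    · exact hone
    · exact hzero 0
  | insert a s ha ih =>
    have ih' := ih fun n hn => h n (Finset.mem_insert_of_mem hn)
    have hdeg : (∏ n ∈ s, (X - C (ℓ n))).natDegree = s.card := by
      rw [natDegree_prod_of_monic _ _ fun n _ => monic_X_sub_C _]
      simp
    rw [Finset.prod_insert ha, Finset.card_insert_of_notMem ha, sub_mul]
    have ha1 : W 1 (ℓ a) := h a (Finset.mem_insert_self _ _)
    cases i with
    | zero =>
      rw [coeff_sub, coeff_X_mul_zero, coeff_C_mul]
      refine hsub _ _ _ (hzero _) ?_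
      exact hmono _ _ _ (by omega) (hmul _ _ _ _ ha1 (ih' 0))
    | succ i =>
      rw [coeff_sub, coeff_X_mul, coeff_C_mul]
      refine hsub _ _ _ (hmono _ _ _ (by omega) (ih' i)) ?_
      rcases lt_or_ge s.card (i + 1) with h1 | h1
      · rw [coeff_eq_zero_of_natDegree_lt (by omega), mul_zero]; exact hzero _
      · exact hmono _ _ _ (by omega) (hmul _ _ _ _ ha1 (ih' (i + 1)))

theorem wt_coeff_prod {A ι : Type*} [CommRing A] [Nontrivial A] (ℓ : ι → A[X][X]) (s : Finset ι)
    (h : ∀ n ∈ s, Wt 1 (ℓ n)) (i : ℕ) :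
    Wt (s.card - i) ((∏ n ∈ s, (X - C (ℓ n))).coeff i) :=
  filt_coeff_prod (fun n x => Wt n x) (fun _ _ _ h1 h2 => h2.mono h1) (fun n => Wt.zero n)
    (Wt.one 0) (fun _ _ _ h1 h2 => h1.sub h2) (fun _ _ _ _ h1 h2 => h1.mul h2) ℓ s h i

/-- the key lemma : on rational points the coefficient of a power of T times the product over the
other points agrees with a polynomial of small degree -/
theorem key_lemma {ι : Type*} [Fintype ι] (a α β : ι → K) (J : Finset (K × K))
    (hι : Fintype.card ι + 1 = Fintype.card K) (hJ : J.card = Fintype.card K)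
    (h0 : ∀ t c : K, c ≠ 0 → (∀ x ∈ J, c + (x.1 * t + x.2) ≠ 0) →
      Function.Injective (fun n => a n * c + (α n * t + β n)) ∧ ∀ n, a n * c + (α n * t + β n) ≠ 0)
    (j : ℕ) (hj1 : 1 ≤ j) (hj2 : j + 3 ≤ Fintype.card K) :
    ∃ ρ : K[X], ρ.natDegree ≤ j + 1 ∧ ∀ t, ρ.eval t =
      ((∏ n, (X - C (C (α n) * X + C (β n)) : K[X][X])).coeff (Fintype.card K - 1 - j)).eval t
        * ∏ x ∈ J, (x.1 * t + x.2) := by
  classical
  set q := Fintype.card K with hq
  set ℓ : ι → K[X][X] := fun n => C (C (α n) * X + C (β n)) + C (C (a n)) * X with hℓ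
  have hlin : ∀ u v : K, (C u * X + C v : K[X]).degree ≤ ((1 : ℕ) : WithBot ℕ) := fun u v => by
    simpa using degree_linear_le (a := u) (b := v)
  have hℓw : ∀ n, Wt 1 (ℓ n) := by
    intro n
    refine (Wt.C_ (hlin _ _)).add ?_
    have h1 : Wt 0 (C (C (a n)) : K[X][X]) := Wt.C_ (by simpa using degree_C_le)
    simpa using h1.mul (Wt.X_ le_rfl)
  set P : K[X][X][X] := ∏ n, (X - C (ℓ n)) with hP
  set G : K[X][X] := P.coeff (q - 1 - j) with hG
  have hGw : Wt j G := by
    have := wt_coeff_prod ℓ Finset.univ (fun n _ => hℓw n) (q - 1 - j)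
    rw [Finset.card_univ] at this
    exact this.mono (by omega)
  set k : K[X][X] := ∏ x ∈ J, (C (C x.1 * X + C x.2) + X) with hk
  have hkw : Wt q k := by
    rw [← hJ]
    exact Wt.prod _ _ fun x _ => (Wt.C_ (hlin _ _)).add (Wt.X_ le_rfl)
  have hΦw : Wt (j + q) (G * k) := hGw.mul hkw
  refine ⟨-(G * k).coeff (q - 1), ?_, ?_⟩
  · rw [natDegree_neg]
    exact (hΦw.natDegree_coeff).trans (by omega)
  intro t
  set f : K[X] := (G * k).map (evalRingHom t) with hf
  have hfdeg : f.natDegree < 2 * (q - 1) := by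
    refine lt_of_le_of_lt (natDegree_map_le) ?_
    refine lt_of_le_of_lt (b := j + q) ?_ (by omega)
    rw [natDegree_le_iff_coeff_eq_zero]
    intro N hN
    exact hΦw.coeff_eq_zero hN
  have hf0 : ∀ x, x ≠ 0 → f.eval x = 0 := by
    intro c hc
    rw [hf, Polynomial.map_mul, eval_mul]
    by_cases hkc : ∀ x ∈ J, c + (x.1 * t + x.2) ≠ 0
    · obtain ⟨hinj, hne⟩ := h0 t c hc hkc
      set ψ : K[X][X] →+* K := (evalRingHom c).comp (mapRingHom (evalRingHom t)) with hψ
      have h1 : eval c (G.map (evalRingHom t)) = (P.map ψ).coeff (q - 1 - j) := by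
        rw [coeff_map]; rfl
      have h2 : P.map ψ = X ^ (q - 1) - 1 := by
        rw [hP, Polynomial.map_prod]
        rw [← prod_X_sub_C_of_inj _ hι hinj hne]
        refine Finset.prod_congr rfl fun n _ => ?_
        rw [Polynomial.map_sub, map_X, map_C]
        congr 2
        simp [hψ, hℓ]
        ring
      rw [h1, h2, coeff_sub, coeff_X_pow, coeff_one, if_neg (by omega), if_neg (by omega)]
      simp
    · push Not at hkc
      obtain ⟨x, hx, hx0⟩ := hkc
      have : eval c (k.map (evalRingHom t)) = 0 := by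
        rw [hk, Polynomial.map_prod, eval_prod]
        refine Finset.prod_eq_zero hx ?_
        simp
        linear_combination hx0
      rw [this, mul_zero]
  have hsum := coeff_sum_eq_zero f hfdeg hf0
  rw [hf, coeff_map, coeff_map, coe_evalRingHom, mul_coeff_zero, eval_mul] at hsum
  have hG0 : G.coeff 0 = (∏ n, (X - C (C (α n) * X + C (β n)) : K[X][X])).coeff (q - 1 - j) := by
    have h1 : G.coeff 0 = (P.map (constantCoeff (R := K[X]))).coeff (q - 1 - j) := by
      rw [coeff_map]; rfl
    rw [h1, hP, Polynomial.map_prod]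
    congr 1
    refine Finset.prod_congr rfl fun n _ => ?_
    rw [Polynomial.map_sub, map_X, map_C]
    congr 2
    simp [hℓ]
  have hk0 : eval t (k.coeff 0) = ∏ x ∈ J, (x.1 * t + x.2) := by
    have h1 : k.coeff 0 = constantCoeff (R := K[X]) k := rfl
    rw [h1, hk, map_prod, eval_prod]
    refine Finset.prod_congr rfl fun x _ => ?_
    simp
  rw [hG0, hk0] at hsum
  rw [eval_neg]
  linear_combination -hsum

end Pool.Agent.Helper801.NucB
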