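import Pool.Agent.Helper801.NucB

open Polynomial

namespace Pool.Agent.Helper801.NucC

variable {L : Type*} [Field L]

theorem sum_le_natDegree (V : Finset L) (e : L → ℕ) (F : L[X]) (hF : F ≠ 0)
    (h : ∀ v ∈ V, (X - C v) ^ e v ∣ F) : ∑ v ∈ V, e v ≤ F.natDegree := by
  classical
  have hd : (∏ v ∈ V, (X - C v) ^ e v) ∣ F := by
    apply Finset.prod_dvd_of_coprime
    · intro v _ w _ hvw
      exact (pairwise_coprime_X_sub_C (s := (id : L → L)) Function.injective_id hvw).pow
    · exact h
  have h1 := natDegree_le_of_dvd hd hF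
  rw [natDegree_prod_of_monic _ _ fun v _ => (monic_X_sub_C v).pow _] at h1
  simpa using h1

/-- multiplicity of a value -/
noncomputable def mult {L ι : Type*} [Fintype ι] [DecidableEq L] (z : ι → L) (v : L) : ℕ :=
  (Finset.univ.filter fun i => z i = v).card

variable [DecidableEq L] {ι : Type*} [Fintype ι]

theorem pow_mult_factor (z : ι → L) (v : L) :
    ∃ Q : L[X], (∏ i, (X - C (z i))) = (X - C v) ^ mult z v * Q ∧ Q.eval v ≠ 0 := by
  refine ⟨∏ i ∈ Finset.univ.filter (fun i => ¬ z i = v), (X - C (z i)), ?_, ?_⟩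
  · rw [← Finset.prod_filter_mul_prod_filter_not Finset.univ (fun i => z i = v)]
    congr 1
    rw [mult, ← Finset.prod_const]
    refine Finset.prod_congr rfl fun i hi => ?_
    rw [(Finset.mem_filter.1 hi).2]
  · rw [eval_prod, Finset.prod_ne_zero_iff]
    intro i hi
    have := (Finset.mem_filter.1 hi).2
    simp only [eval_sub, eval_X, eval_C]
    intro h
    exact this (sub_eq_zero.1 h).symm

theorem pow_dvd_derivative (z : ι → L) (v : L) :
    (X - C v) ^ (mult z v - 1) ∣ derivative (∏ i, (X - C (z i))) := by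
  obtain ⟨Q, hQ, -⟩ := pow_mult_factor z v
  rw [hQ, derivative_mul, derivative_X_sub_C_pow]
  refine dvd_add ?_ ?_
  · exact (dvd_mul_left _ _).mul_right _
  · exact (pow_dvd_pow _ (Nat.sub_le _ _)).mul_right _

theorem pow_dvd_derivative' (z : ι → L) (v : L) (h : ((mult z v : ℕ) : L) = 0) :
    (X - C v) ^ mult z v ∣ derivative (∏ i, (X - C (z i))) := by
  obtain ⟨Q, hQ, -⟩ := pow_mult_factor z v
  rw [hQ, derivative_mul, derivative_X_sub_C_pow, h]
  simp

theorem derivative_ne_zero_of_mult (z : ι → L) (v : L) (h : ((mult z v : ℕ) : L) ≠ 0) :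
    derivative (∏ i, (X - C (z i))) ≠ 0 := by
  obtain ⟨Q, hQ, hQ0⟩ := pow_mult_factor z v
  rw [hQ, derivative_mul, derivative_X_sub_C_pow]
  intro h0
  obtain ⟨k, hk⟩ : ∃ k, mult z v = k + 1 := by
    rcases Nat.exists_eq_succ_of_ne_zero (n := mult z v) (by rintro h1; rw [h1] at h; simp at h) with ⟨k, hk⟩
    exact ⟨k, hk⟩
  rw [hk, Nat.add_sub_cancel] at h0
  have h1 : (X - C v) ^ k * (C (((k + 1 : ℕ)) : L) * Q + (X - C v) * derivative Q) = 0 := by
    rw [← h0]; ring
  have h2 := (mul_eq_zero.1 h1).resolve_left (pow_ne_zero _ (X_sub_C_ne_zero v))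
  have h3 := congrArg (eval v) h2
  simp at h3
  rcases h3 with h3 | h3
  · apply h; rw [hk]; exact_mod_cast h3
  · exact hQ0 h3

omit [Field L] in
theorem sum_mult (z : ι → L) : ∑ v ∈ Finset.univ.image z, mult z v = Fintype.card ι := by
  unfold mult
  rw [← Finset.card_univ]
  exact (Finset.card_eq_sum_card_image z Finset.univ).symm

omit [Field L] in
theorem mult_pos (z : ι → L) {v : L} (hv : v ∈ Finset.univ.image z) : 1 ≤ mult z v := by
  obtain ⟨i, _, rfl⟩ := Finset.mem_image.1 hv
  exact Finset.card_pos.2 ⟨i, Finset.mem_filter.2 ⟨Finset.mem_univ _, rfl⟩⟩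

/-- ML1 -/
theorem card_le_of_derivative (z : ι → L) (h : derivative (∏ i, (X - C (z i))) ≠ 0) :
    Fintype.card ι ≤ (derivative (∏ i, (X - C (z i)))).natDegree + (Finset.univ.image z).card := by
  have h1 := sum_le_natDegree (Finset.univ.image z) (fun v => mult z v - 1) _ h
    (fun v _ => pow_dvd_derivative z v)
  have h2 : ∑ v ∈ Finset.univ.image z, (mult z v - 1) + (Finset.univ.image z).card
      = Fintype.card ι := by
    rw [← sum_mult z, Finset.card_eq_sum_ones, ← Finset.sum_add_distrib]
    refine Finset.sum_congr rfl fun v hv => ?_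
    have := mult_pos z hv
    omega
  omega

/-- ML2 -/
theorem card_lt_of_derivative (z : ι → L) (h : derivative (∏ i, (X - C (z i))) ≠ 0)
    {v₀ : L} (hv₀ : v₀ ∈ Finset.univ.image z) (h0 : ((mult z v₀ : ℕ) : L) = 0) :
    Fintype.card ι + 1 ≤
      (derivative (∏ i, (X - C (z i)))).natDegree + (Finset.univ.image z).card := by
  have h1 := sum_le_natDegree (Finset.univ.image z) (fun v => if v = v₀ then mult z v else mult z v - 1)
    _ h (fun v _ => by
      split_ifs with hv
      · subst hv; exact pow_dvd_derivative' z v h0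
      · exact pow_dvd_derivative z v)
  have h2 : ∑ v ∈ Finset.univ.image z, (if v = v₀ then mult z v else mult z v - 1)
      + (Finset.univ.image z).card = Fintype.card ι + 1 := by
    rw [← sum_mult z, Finset.card_eq_sum_ones, ← Finset.sum_add_distrib]
    rw [← Finset.add_sum_erase _ _ hv₀, ← Finset.add_sum_erase _ (fun v => mult z v) hv₀]
    rw [if_pos rfl]
    have : ∑ x ∈ (Finset.univ.image z).erase v₀, ((if x = v₀ then mult z x else mult z x - 1) + 1)
        = ∑ x ∈ (Finset.univ.image z).erase v₀, mult z x := by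
      refine Finset.sum_congr rfl fun v hv => ?_
      rw [if_neg (Finset.ne_of_mem_erase hv)]
      have := mult_pos z (Finset.mem_of_mem_erase hv)
      omega
    rw [this]; ring
  omega

/-- the product divides (X + g) g' type bound -/
theorem card_le_of_dvd (z : ι → L) (F : L[X]) (hF : F ≠ 0)
    (hroot : ∀ i, F.eval (z i) = 0) (h : derivative (∏ i, (X - C (z i))) ≠ 0) :
    Fintype.card ι ≤ F.natDegree + (derivative (∏ i, (X - C (z i)))).natDegree := by
  rw [← natDegree_mul hF h, ← sum_mult z]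
  refine sum_le_natDegree _ (fun v => mult z v) _ (mul_ne_zero hF h) fun v hv => ?_
  have hp := mult_pos z hv
  obtain ⟨i, _, rfl⟩ := Finset.mem_image.1 hv
  have h1 : (X - C (z i)) ^ 1 ∣ F := by
    rw [pow_one]; exact dvd_iff_isRoot.2 (hroot i)
  have h2 := mul_dvd_mul h1 (pow_dvd_derivative z (z i))
  rwa [← pow_add, Nat.add_sub_cancel' hp] at h2

end Pool.Agent.Helper801.NucC
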