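import Pool.Agent.Helper801.NucC

open Polynomial

namespace Pool.Agent.Helper801.NucD

open Pool.Agent.Helper801.NucA Pool.Agent.Helper801.NucB Pool.Agent.Helper801.NucC

/-- planar data at a point of S -/
structure PData (K ι : Type*) [Field K] [Fintype K] [DecidableEq K] [Fintype ι] where
  a : ι → K
  α : ι → K
  β : ι → K
  J : Finset (K × K)
  n0 : ι
  n1 : ι
  hι : Fintype.card ι + 1 = Fintype.card K
  hJ : J.card = Fintype.card K
  h0 : ∀ t c : K, c ≠ 0 → (∀ x ∈ J, c + (x.1 * t + x.2) ≠ 0) →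
      Function.Injective (fun n => a n * c + (α n * t + β n)) ∧ ∀ n, a n * c + (α n * t + β n) ≠ 0
  h1 : ∀ n m, (α n, β n) ≠ (α m, β m) →
      ∃ x ∈ J, ∃ c : K, c ≠ 0 ∧ α n - α m = c * x.1 ∧ β n - β m = c * x.2
  h2 : ∀ x ∈ J, x.1 ≠ 0
  h3 : ∀ n t, α n ≠ 0 → α n * t + β n = 0 → ∀ x ∈ J, x.1 * t + x.2 ≠ 0
  h4 : ∑ n, α n = 0
  h4' : ∑ n, β n = 0
  hα0 : α n0 = 0
  hβ0 : β n0 ≠ 0
  hβ1 : β n1 = 0
  hα1 : α n1 ≠ 0
  hm : ((mult (fun n => (α n, β n)) (α n0, β n0) : ℕ) : K) ≠ 0 ∨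
    ((mult (fun n => (α n, β n)) (α n1, β n1) + 1 : ℕ) : K) ≠ 0

namespace PData

variable {K ι : Type*} [Field K] [Fintype K] [DecidableEq K] [Fintype ι] (P : PData K ι)

/-- the pair of a nucleus -/
def uu (n : ι) : K × K := (P.α n, P.β n)

/-- distinct pairs -/
def U : Finset (K × K) := Finset.univ.image P.uu

/-- number of distinct pairs -/
def c : ℕ := P.U.card

/-- linear polynomial of a pair -/
noncomputable def lin (u : K × K) : K[X] := C u.1 * X + C u.2

noncomputable def Rs : K[X][X] := ∏ n, (X - C (lin (P.uu n)))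

noncomputable def R : K[X][X] := X * P.Rs

noncomputable def Rc : K[X][X] := ∏ u ∈ P.U, (X - C (lin u))

def Dset : Finset K := Finset.univ.filter fun t => ∃ x ∈ P.J, x.1 * t + x.2 = 0

def D : ℕ := P.Dset.card

noncomputable def eta : K[X] := ∏ t ∈ P.Dset, (X - C t)

noncomputable def theta : K[X] := ∏ t ∈ P.Dsetᶜ, (X - C t)

theorem mem_U (n : ι) : P.uu n ∈ P.U := Finset.mem_image_of_mem _ (Finset.mem_univ _)

theorem exists_of_mem_U {u : K × K} (hu : u ∈ P.U) : ∃ n, P.uu n = u := by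
  obtain ⟨n, _, h⟩ := Finset.mem_image.1 hu
  exact ⟨n, h⟩

theorem fst_ne {u v : K × K} (hu : u ∈ P.U) (hv : v ∈ P.U) (h : u ≠ v) : u.1 ≠ v.1 := by
  obtain ⟨n, rfl⟩ := P.exists_of_mem_U hu
  obtain ⟨m, rfl⟩ := P.exists_of_mem_U hv
  obtain ⟨x, hx, c, hc, h1, -⟩ := P.h1 n m h
  intro h2
  have : c * x.1 = 0 := by rw [← h1]; exact sub_eq_zero.2 h2
  rcases mul_eq_zero.1 this with h3 | h3
  · exact hc h3
  · exact P.h2 x hx h3

theorem coincide {L : Type*} [Field L] [Algebra K L] {u v : K × K} (hu : u ∈ P.U) (hv : v ∈ P.U)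
    (h : u ≠ v) (t : L)
    (ht : algebraMap K L u.1 * t + algebraMap K L u.2 = algebraMap K L v.1 * t + algebraMap K L v.2) :
    ∃ t₁ ∈ P.Dset, t = algebraMap K L t₁ := by
  obtain ⟨n, rfl⟩ := P.exists_of_mem_U hu
  obtain ⟨m, rfl⟩ := P.exists_of_mem_U hv
  obtain ⟨x, hx, c, hc, h1, h2⟩ := P.h1 n m h
  have h1' : (P.uu n).1 - (P.uu m).1 = c * x.1 := h1
  have h2' : (P.uu n).2 - (P.uu m).2 = c * x.2 := h2
  have hx1 := P.h2 x hx
  refine ⟨-x.2 / x.1, ?_, ?_⟩
  · refine Finset.mem_filter.2 ⟨Finset.mem_univ _, x, hx, ?_⟩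
    field_simp; ring
  · have h3 : algebraMap K L (c * x.1) * t + algebraMap K L (c * x.2) = 0 := by
      rw [← h1', ← h2', map_sub, map_sub]
      linear_combination ht
    have hc' : algebraMap K L c ≠ 0 := by
      simpa using hc
    have hx' : algebraMap K L x.1 ≠ 0 := by
      simpa using hx1
    rw [map_mul, map_mul] at h3
    have h4 : algebraMap K L c * (algebraMap K L x.1 * t + algebraMap K L x.2) = 0 := by
      linear_combination h3
    have h5 := (mul_eq_zero.1 h4).resolve_left hc'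
    rw [map_div₀, map_neg]
    field_simp
    linear_combination h5

theorem inj_of_notMem {t : K} (ht : t ∉ P.Dset) :
    Set.InjOn (fun u : K × K => u.1 * t + u.2) (P.U : Set (K × K)) := by
  intro u hu v hv h
  by_contra hne
  obtain ⟨t₁, ht₁, h2⟩ := P.coincide (L := K) hu hv hne t h
  apply ht
  rw [show t = t₁ from h2]; exact ht₁

theorem eq_n0 {n : ι} (h : P.α n = 0) : P.uu n = P.uu P.n0 := by
  by_contra hne
  exact P.fst_ne (P.mem_U n) (P.mem_U P.n0) hne (by
    show P.α n = P.α P.n0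
    rw [h, P.hα0])

theorem zero_notMem : (0 : K) ∉ P.Dset := by
  intro h
  obtain ⟨x, hx, h2⟩ := (Finset.mem_filter.1 h).2
  exact P.h3 P.n1 0 P.hα1 (by rw [P.hβ1]; ring) x hx h2

theorem eq_n1 {n : ι} (h : P.β n = 0) : P.uu n = P.uu P.n1 := by
  refine P.inj_of_notMem P.zero_notMem (P.mem_U n) (P.mem_U P.n1) ?_
  show P.α n * 0 + P.β n = P.α P.n1 * 0 + P.β P.n1
  rw [h, P.hβ1]; ring

theorem notMem_of_root {n : ι} {t : K} (h : P.α n ≠ 0) (ht : P.α n * t + P.β n = 0) :
    t ∉ P.Dset := by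
  intro h1
  obtain ⟨x, hx, h2⟩ := (Finset.mem_filter.1 h1).2
  exact P.h3 n t h ht x hx h2

theorem theta_mul_eta : P.theta * P.eta = X ^ Fintype.card K - X := by
  rw [← prod_univ_X_sub_C, theta, eta, mul_comm, Finset.prod_mul_prod_compl]

theorem Rs_monic : P.Rs.Monic := monic_prod_of_monic _ _ fun _ _ => monic_X_sub_C _

theorem Rs_natDegree : P.Rs.natDegree = Fintype.card K - 1 := by
  rw [Rs, natDegree_prod_of_monic _ _ fun _ _ => monic_X_sub_C _]
  have := P.hι
  simp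
  omega

theorem R_monic : P.R.Monic := monic_X.mul P.Rs_monic

omit [DecidableEq K] in
theorem card_gt : 1 < Fintype.card K := Fintype.one_lt_card

theorem R_natDegree : P.R.natDegree = Fintype.card K := by
  rw [R, monic_X.natDegree_mul P.Rs_monic, natDegree_X, P.Rs_natDegree]
  have := card_gt (K := K)
  omega

theorem Rc_monic : P.Rc.Monic := monic_prod_of_monic _ _ fun _ _ => monic_X_sub_C _

theorem Rc_natDegree : P.Rc.natDegree = P.c := by
  rw [Rc, natDegree_prod_of_monic _ _ fun _ _ => monic_X_sub_C _]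
  simp [c]

omit [Fintype K] [DecidableEq K] in
theorem lin_degree (u : K × K) : (lin u).degree ≤ ((1 : ℕ) : WithBot ℕ) := by
  unfold lin
  simpa using degree_linear_le (a := u.1) (b := u.2)

theorem Rc_wt : Wt P.c P.Rc :=
  Wt.prod _ _ fun _ _ => (Wt.X_ le_rfl).sub (Wt.C_ (lin_degree _))

theorem R_wt : Wt (Fintype.card K) P.R := by
  have h1 : Wt (Fintype.card ι) P.Rs := by
    rw [← Finset.card_univ]
    exact Wt.prod _ _ fun _ _ => (Wt.X_ le_rfl).sub (Wt.C_ (lin_degree _))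
  have := (Wt.X_ (A := K) le_rfl).mul h1
  rw [add_comm, P.hι] at this
  exact this

theorem uu_n0_ne_n1 : P.uu P.n0 ≠ P.uu P.n1 := by
  intro h
  have := congrArg Prod.snd h
  exact P.hβ0 (this.trans P.hβ1)

theorem two_le_c : 2 ≤ P.c := by
  have h : ({P.uu P.n0, P.uu P.n1} : Finset (K × K)) ⊆ P.U := by
    intro x hx
    rcases Finset.mem_insert.1 hx with rfl | hx
    · exact P.mem_U _
    · rw [Finset.mem_singleton.1 hx]; exact P.mem_U _
  have := Finset.card_le_card h
  rwa [Finset.card_pair P.uu_n0_ne_n1] at this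

/-- number of tangents -/
theorem c_add_D : P.c + P.D ≤ Fintype.card K + 1 := by
  classical
  -- the map u ↦ -u.2/u.1 on U.erase (uu n0) is injective with values outside Dset
  set V := P.U.erase (P.uu P.n0) with hV
  have hV1 : V.card + 1 = P.c := by
    rw [hV, Finset.card_erase_of_mem (P.mem_U _)]
    have := P.two_le_c
    unfold c at *
    omega
  have hne : ∀ u ∈ V, u.1 ≠ 0 := by
    intro u hu h
    obtain ⟨n, rfl⟩ := P.exists_of_mem_U (Finset.mem_of_mem_erase hu)
    exact (Finset.ne_of_mem_erase hu) (P.eq_n0 h)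
  have himg : V.image (fun u => -u.2 / u.1) ⊆ P.Dsetᶜ := by
    intro t ht
    obtain ⟨u, hu, rfl⟩ := Finset.mem_image.1 ht
    rw [Finset.mem_compl]
    obtain ⟨n, rfl⟩ := P.exists_of_mem_U (Finset.mem_of_mem_erase hu)
    refine P.notMem_of_root (n := n) (hne _ hu) ?_
    have := hne _ hu
    have h1 : (P.uu n).1 = P.α n := rfl
    have h2 : (P.uu n).2 = P.β n := rfl
    rw [h1, h2]
    rw [h1] at this
    field_simp; ring
  have hinj : Set.InjOn (fun u : K × K => -u.2 / u.1) (V : Set (K × K)) := by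
    intro u hu v hv h
    have hu' : u ∈ V := hu
    have hv' : v ∈ V := hv
    by_contra hne2
    have h1 := hne _ hu'
    have h2 := hne _ hv'
    have h3 : u.1 * (-u.2 / u.1) + u.2 = v.1 * (-u.2 / u.1) + v.2 := by
      have h4 : -u.2 / u.1 = -v.2 / v.1 := h
      rw [show u.1 * (-u.2 / u.1) + u.2 = 0 by field_simp; ring, h4]
      field_simp; ring
    obtain ⟨t₁, ht₁, h5⟩ := P.coincide (L := K) (Finset.mem_of_mem_erase hu')
      (Finset.mem_of_mem_erase hv') hne2 (-u.2 / u.1) h3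
    have h6 := himg (Finset.mem_image_of_mem _ hu')
    rw [Finset.mem_compl] at h6
    apply h6
    show -u.2 / u.1 ∈ _
    rw [h5]; exact ht₁
  have h7 := Finset.card_le_card himg
  rw [Finset.card_image_of_injOn hinj, Finset.card_compl] at h7
  have h8 : P.D ≤ Fintype.card K := Finset.card_le_univ _
  unfold D at *
  omega

end PData

end Pool.Agent.Helper801.NucD
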