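import Pool.Agent.Helper801.NucD

open Polynomial

namespace Pool.Agent.Helper801.NucD

open Pool.Agent.Helper801.NucA Pool.Agent.Helper801.NucB Pool.Agent.Helper801.NucC

namespace PData

variable {K ι : Type*} [Field K] [Fintype K] [DecidableEq K] [Fintype ι] (P : PData K ι)

theorem mult_eq_sum {L κ : Type*} [Fintype κ] [DecidableEq L] (z : κ → L) (v : L) :
    mult z v = ∑ i, if z i = v then 1 else 0 := by
  rw [mult, Finset.card_filter]

theorem mult_option {L κ : Type*} [Fintype κ] [DecidableEq L] (z : Option κ → L) (v : L) :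
    mult z v = (if z none = v then 1 else 0) + mult (fun n => z (some n)) v := by
  rw [mult_eq_sum, mult_eq_sum, Fintype.sum_option]

theorem mult_comp {L : Type*} [DecidableEq L] (f : K × K → L)
    (hf : Set.InjOn f (P.U : Set (K × K))) (m : ι) :
    mult (fun n => f (P.uu n)) (f (P.uu m)) = mult P.uu (P.uu m) := by
  unfold mult
  congr 1
  ext n
  simp only [Finset.mem_filter, Finset.mem_univ, true_and]
  exact ⟨fun h => hf (P.mem_U n) (P.mem_U m) h, fun h => by rw [h]⟩

/-- values of the roots -/
def zz {L : Type*} [Zero L] (f : K × K → L) : Option ι → L := fun o => o.elim 0 fun n => f (P.uu n)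

theorem prod_zz {L : Type*} [Field L] (f : K × K → L) :
    (∏ o, (X - C (P.zz f o)) : L[X]) = X * ∏ n, (X - C (f (P.uu n))) := by
  rw [Fintype.prod_option]
  simp [zz]

theorem R_map {L : Type*} [Field L] [Algebra K L] (t : L) :
    P.R.map (aeval t : K[X] →ₐ[K] L).toRingHom =
      ∏ o, (X - C (P.zz (fun u => algebraMap K L u.1 * t + algebraMap K L u.2) o)) := by
  rw [prod_zz, R, Rs, Polynomial.map_mul, map_X, Polynomial.map_prod]
  congr 1
  refine Finset.prod_congr rfl fun n _ => ?_
  rw [Polynomial.map_sub, map_X, map_C]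
  congr 2
  simp [lin]

/-- value map at t in K -/
def ev (t : K) (u : K × K) : K := u.1 * t + u.2

theorem R_map_K (t : K) :
    P.R.map (evalRingHom t) = ∏ o, (X - C (P.zz (ev t) o)) := by
  rw [prod_zz, R, Rs, Polynomial.map_mul, map_X, Polynomial.map_prod]
  congr 1
  refine Finset.prod_congr rfl fun n _ => ?_
  rw [Polynomial.map_sub, map_X, map_C]
  congr 2
  simp [lin, ev]

theorem image_zz_card {L : Type*} [DecidableEq L] [Zero L] (f : K × K → L)
    (hf : Set.InjOn f (P.U : Set (K × K))) :
    (Finset.univ.image (P.zz f)).card = if (0 : L) ∈ P.U.image f then P.c else P.c + 1 := by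
  classical
  have h1 : Finset.univ.image (P.zz f) = insert 0 (P.U.image f) := by
    ext x
    simp only [Finset.mem_image, Finset.mem_univ, true_and, Finset.mem_insert]
    constructor
    · rintro ⟨o, rfl⟩
      cases o with
      | none => left; rfl
      | some n => right; exact ⟨P.uu n, P.mem_U n, rfl⟩
    · rintro (rfl | ⟨u, hu, rfl⟩)
      · exact ⟨none, rfl⟩
      · obtain ⟨n, rfl⟩ := P.exists_of_mem_U hu
        exact ⟨some n, rfl⟩
  rw [h1]
  split_ifs with h
  · rw [Finset.insert_eq_of_mem h, Finset.card_image_of_injOn hf, c]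
  · rw [Finset.card_insert_of_notMem h, Finset.card_image_of_injOn hf, c]

include P in
theorem card_option : Fintype.card (Option ι) = Fintype.card K := by
  rw [Fintype.card_option, P.hι]

theorem zz_pow (f : K × K → K) (o : Option ι) : (P.zz f o) ^ Fintype.card K = P.zz f o :=
  FiniteField.pow_card _

/-- the first analysis at t = 0 -/
theorem first_step : ∃ j, 2 ≤ j ∧ 2 * j + 1 ≤ Fintype.card K ∧
    (P.R.coeff (Fintype.card K - j)).eval 0 ≠ 0 ∧ j + 1 ≤ P.c := by
  set q := Fintype.card K with hq
  have hq1 : 1 < q := card_gt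
  set z := P.zz (ev (0 : K)) with hz
  set P0 : K[X] := ∏ o, (X - C (z o)) with hP0
  have hP0R : P.R.map (evalRingHom 0) = P0 := P.R_map_K 0
  have hinj : Set.InjOn (ev (0 : K)) (P.U : Set (K × K)) := P.inj_of_notMem P.zero_notMem
  -- multiplicities
  have hm0 : mult z (P.β P.n0) = mult P.uu (P.uu P.n0) := by
    rw [mult_option, if_neg, zero_add]
    · have := P.mult_comp (ev (0 : K)) hinj P.n0
      simp only [ev, uu, P.hα0, mul_zero, zero_add] at this
      have h2 : (fun n => z (some n)) = fun n => P.β n := by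
        funext n; simp [hz, zz, ev, uu]
      rw [h2]
      simp only [uu, P.hα0]
      exact this
    · show (0 : K) ≠ _
      exact P.hβ0.symm
  have hm1 : mult z 0 = mult P.uu (P.uu P.n1) + 1 := by
    have h1 : z none = 0 := rfl
    rw [mult_option, if_pos h1, add_comm]
    congr 1
    have := P.mult_comp (ev (0 : K)) hinj P.n1
    simp only [ev, uu, P.hβ1, mul_zero, zero_add] at this
    have h2 : (fun n => z (some n)) = fun n => P.β n := by
      funext n; simp [hz, zz, ev, uu]
    rw [h2]
    simp only [uu, P.hβ1]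
    exact this
  have hder : derivative P0 ≠ 0 := by
    rcases P.hm with h | h
    · exact derivative_ne_zero_of_mult z (P.β P.n0) (by rw [hm0]; exact h)
    · exact derivative_ne_zero_of_mult z 0 (by rw [hm1]; exact h)
  have hP0m : P0.Monic := monic_prod_of_monic _ _ fun _ _ => monic_X_sub_C _
  have hP0d : P0.natDegree = q := by
    rw [hP0, natDegree_prod_of_monic _ _ fun _ _ => monic_X_sub_C _]
    simp [P.hι, hq]
  set g0 : K[X] := P0 - X ^ q with hg0
  have hdg : derivative g0 = derivative P0 := by
    rw [hg0, derivative_sub, derivative_X_pow, hq, FiniteField.cast_card_eq_zero]; simp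
  have hg0ne : g0 ≠ 0 := by
    intro h; rw [h] at hdg; apply hder; rw [← hdg]; simp
  have hg0d1 : g0.natDegree ≠ 0 := by
    intro h
    apply hder; rw [← hdg]
    rw [eq_C_of_natDegree_eq_zero h]; simp
  have hg0lt : g0.natDegree < q := by
    have h1 : g0.degree < (q : WithBot ℕ) := by
      have h2 : P0.degree = (q : WithBot ℕ) := by
        rw [degree_eq_natDegree hP0m.ne_zero, hP0d]
      rw [← h2]
      refine degree_sub_lt_left ?_ hP0m.ne_zero ?_
      · rw [h2, degree_X_pow]
      · rw [hP0m.leadingCoeff, (monic_X_pow q).leadingCoeff]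
    exact (natDegree_lt_iff_degree_lt hg0ne).2 h1
  have hdd : (derivative P0).natDegree ≤ g0.natDegree - 1 := by
    rw [← hdg]; exact natDegree_derivative_le _
  -- X + g0
  set F : K[X] := X + g0 with hF
  have hFroot : ∀ o, F.eval (z o) = 0 := by
    intro o
    have h1 : P0.eval (z o) = 0 := by
      rw [hP0, eval_prod]
      exact Finset.prod_eq_zero (Finset.mem_univ o) (by simp)
    have h2 : (z o) ^ q = z o := P.zz_pow _ o
    rw [hF, hg0]; simp [h1, h2]
  have hF0 : F ≠ 0 := by
    intro h
    have h1 : P0 = X ^ q - X := by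
      have : g0 = - X := by rw [hF] at h; linear_combination h
      rw [hg0] at this; linear_combination this
    have h2 : derivative P0 = -1 := by
      rw [h1, derivative_sub, derivative_X_pow, hq, FiniteField.cast_card_eq_zero]; simp
    have h3 := pow_dvd_derivative z 0
    rw [← hP0, h2, hm1, Nat.add_sub_cancel] at h3
    have h4 : (X - C (0 : K)) ∣ (-1 : K[X]) := by
      refine dvd_trans (dvd_pow_self _ ?_) h3
      have := mult_pos P.uu (P.mem_U P.n1)
      omega
    have h5 := dvd_iff_isRoot.1 h4
    simp [IsRoot] at h5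
  have hFd : F.natDegree ≤ g0.natDegree := by
    refine (natDegree_add_le _ _).trans (max_le ?_ le_rfl)
    rw [natDegree_X]; omega
  have hbound := card_le_of_dvd z F hF0 hFroot hder
  rw [P.card_option, ← hP0] at hbound
  have hc := card_le_of_derivative z hder
  rw [P.card_option, ← hP0, hz, P.image_zz_card _ hinj, if_pos] at hc
  swap
  · exact Finset.mem_image.2 ⟨P.uu P.n1, P.mem_U _, by simp [ev, uu, P.hβ1]⟩
  have hcoeff : ∀ i, i ≠ q → (P.R.coeff i).eval 0 = g0.coeff i := by
    intro i hi
    have : (P.R.coeff i).eval 0 = P0.coeff i := by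
      rw [← hP0R, coeff_map]; rfl
    rw [this, hg0, coeff_sub, coeff_X_pow, if_neg hi, sub_zero]
  have hsum : g0.coeff (q - 1) = 0 := by
    rw [← hcoeff (q - 1) (by omega)]
    have h1 : (P.R.coeff (q - 1)).eval 0 = P0.coeff (q - 1) := by
      rw [← hP0R, coeff_map]; rfl
    rw [h1, hP0, P.prod_zz]
    obtain ⟨q', hq'⟩ : ∃ q', q - 1 = q' + 1 := by
      have : Nonempty ι := ⟨P.n0⟩
      have : Fintype.card ι ≠ 0 := Fintype.card_ne_zero
      have := P.hι
      exact ⟨q - 2, by omega⟩
    rw [hq', coeff_X_mul]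
    have h2 := prod_X_sub_C_nextCoeff (s := (Finset.univ : Finset ι)) (fun n => ev (0 : K) (P.uu n))
    have hnd : (∏ n, (X - C (ev (0 : K) (P.uu n))) : K[X]).natDegree = q - 1 := by
      rw [natDegree_prod_of_monic _ _ fun _ _ => monic_X_sub_C _]
      have := P.hι
      simp
      omega
    rw [nextCoeff_of_natDegree_pos (by omega), hnd, show q - 1 - 1 = q' by omega] at h2
    rw [h2]
    have h3 : ∑ i, ev (0 : K) (P.uu i) = ∑ i, P.β i := by
      refine Finset.sum_congr rfl fun i _ => ?_
      simp [ev, uu]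
    rw [h3, P.h4', neg_zero]
  have hj : g0.natDegree ≠ q - 1 := by
    intro h
    have h1 := leadingCoeff_ne_zero.2 hg0ne
    rw [leadingCoeff, h, hsum] at h1
    exact h1 rfl
  refine ⟨q - g0.natDegree, by omega, by omega, ?_, by omega⟩
  rw [Nat.sub_sub_self hg0lt.le, hcoeff _ (by omega)]
  exact leadingCoeff_ne_zero.2 hg0ne

end PData

end Pool.Agent.Helper801.NucD
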