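import Pool.Agent.Helper801.NucE

open Polynomial

namespace Pool.Agent.Helper801.NucD

open Pool.Agent.Helper801.NucA Pool.Agent.Helper801.NucB Pool.Agent.Helper801.NucC

namespace PData

variable {K ι : Type*} [Field K] [Fintype K] [DecidableEq K] [Fintype ι] (P : PData K ι)

/-- the exponent e -/
noncomputable def e : ℕ := Fintype.card K - (P.R - X ^ Fintype.card K).natDegree

theorem R_coeff (j : ℕ) (hj : j < Fintype.card K) :
    P.R.coeff (Fintype.card K - j) = P.Rs.coeff (Fintype.card K - 1 - j) := by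
  rw [R]
  obtain ⟨m, hm⟩ : ∃ m, Fintype.card K - j = m + 1 := ⟨Fintype.card K - j - 1, by omega⟩
  rw [hm, coeff_X_mul]
  congr 1
  omega

theorem R_sub_natDegree_lt : (P.R - X ^ Fintype.card K).natDegree < Fintype.card K := by
  by_cases h0 : P.R - X ^ Fintype.card K = 0
  · rw [h0, natDegree_zero]; exact Fintype.card_pos
  · rw [natDegree_lt_iff_degree_lt h0]
    have h2 : P.R.degree = (Fintype.card K : WithBot ℕ) := by
      rw [degree_eq_natDegree P.R_monic.ne_zero, P.R_natDegree]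
    rw [← h2]
    refine degree_sub_lt_left ?_ P.R_monic.ne_zero ?_
    · rw [h2, degree_X_pow]
    · rw [P.R_monic.leadingCoeff, (monic_X_pow _).leadingCoeff]

theorem sub_coeff (i : ℕ) (hi : i ≠ Fintype.card K) :
    (P.R - X ^ Fintype.card K).coeff i = P.R.coeff i := by
  rw [coeff_sub, coeff_X_pow, if_neg hi, sub_zero]

theorem e_pos : 1 ≤ P.e := by
  have := P.R_sub_natDegree_lt
  unfold e; omega

theorem e_le_card : P.e ≤ Fintype.card K := by unfold e; omega

theorem card_sub_e : Fintype.card K - P.e = (P.R - X ^ Fintype.card K).natDegree := by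
  have := P.R_sub_natDegree_lt
  unfold e; omega

theorem R_coeff_eq_zero (i : ℕ) (h1 : Fintype.card K - P.e < i) (h2 : i < Fintype.card K) :
    P.R.coeff i = 0 := by
  rw [← P.sub_coeff i (by omega)]
  apply coeff_eq_zero_of_natDegree_lt
  rw [← P.card_sub_e]; exact h1

theorem R_sub_ne_zero : P.R - X ^ Fintype.card K ≠ 0 := by
  intro h
  obtain ⟨j, hj1, hj2, hj3, -⟩ := P.first_step
  have h1 := P.sub_coeff (Fintype.card K - j) (by omega)
  rw [h, coeff_zero] at h1
  rw [← h1] at hj3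
  simp at hj3

theorem R_coeff_e_ne : P.R.coeff (Fintype.card K - P.e) ≠ 0 := by
  rw [← P.sub_coeff _ (by have := P.e_pos; have := P.e_le_card; omega), P.card_sub_e]
  exact leadingCoeff_ne_zero.2 P.R_sub_ne_zero

theorem e_le {j : ℕ} (hj : 1 ≤ j) (hj2 : j ≤ Fintype.card K)
    (h : P.R.coeff (Fintype.card K - j) ≠ 0) : P.e ≤ j := by
  by_contra hlt
  have := P.e_le_card
  exact h (P.R_coeff_eq_zero _ (by omega) (by omega))

theorem two_le_e : 2 ≤ P.e := by
  by_contra hlt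
  have he : P.e = 1 := by have := P.e_pos; omega
  have h := P.R_coeff_e_ne
  rw [he, P.R_coeff 1 (Fintype.one_lt_card)] at h
  apply h
  obtain ⟨j, hj1, hj2, -, -⟩ := P.first_step
  have h2 := prod_X_sub_C_nextCoeff (s := (Finset.univ : Finset ι)) (fun n => lin (P.uu n))
  have hnd := P.Rs_natDegree
  rw [Rs] at hnd
  rw [nextCoeff_of_natDegree_pos (by omega), hnd] at h2
  rw [Rs, h2]
  have h3 : ∑ i, lin (P.uu i) = C (∑ i, P.α i) * X + C (∑ i, P.β i) := by
    simp only [lin, uu, map_sum, Finset.sum_add_distrib, Finset.sum_mul]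
  rw [h3, P.h4, P.h4']; simp

/-- the rational weight function -/
noncomputable def kk (t : K) : K := ∏ x ∈ P.J, (x.1 * t + x.2)

theorem kk_eq_zero {t : K} : P.kk t = 0 ↔ t ∈ P.Dset := by
  rw [kk, Finset.prod_eq_zero_iff]
  simp [Dset]

theorem exists_rho (j : ℕ) (hj1 : 1 ≤ j) (hj2 : j + 3 ≤ Fintype.card K) :
    ∃ ρ : K[X], ρ.natDegree ≤ j + 1 ∧
      ∀ t, ρ.eval t = (P.R.coeff (Fintype.card K - j)).eval t * P.kk t := by
  obtain ⟨ρ, h1, h2⟩ := key_lemma P.a P.α P.β P.J P.hι P.hJ P.h0 j hj1 hj2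
  refine ⟨ρ, h1, fun t => ?_⟩
  rw [h2 t, P.R_coeff j (by omega)]
  rfl

theorem D_le_of_rho {j : ℕ} {ρ : K[X]} (h1 : ρ.natDegree ≤ j + 1)
    (h2 : ∀ t, ρ.eval t = (P.R.coeff (Fintype.card K - j)).eval t * P.kk t) (h3 : ρ ≠ 0) :
    P.D ≤ j + 1 := by
  by_contra hlt
  apply h3
  apply eq_zero_of_natDegree_lt_card_of_eval_eq_zero' ρ P.Dset
  · intro t ht
    rw [h2 t, P.kk_eq_zero.2 ht, mul_zero]
  · unfold D at hlt; omega

theorem second_step : 2 * P.e + 1 ≤ Fintype.card K ∧ P.e + 1 ≤ P.c ∧ P.D ≤ P.e + 1 ∧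
    ∃ ρ : K[X], ρ ≠ 0 ∧ ρ.natDegree ≤ P.e + 1 ∧
      ∀ t, ρ.eval t = (P.R.coeff (Fintype.card K - P.e)).eval t * P.kk t := by
  obtain ⟨j, hj1, hj2, hj3, hj4⟩ := P.first_step
  have hne : P.R.coeff (Fintype.card K - j) ≠ 0 := by
    intro h; rw [h] at hj3; simp at hj3
  have hej : P.e ≤ j := P.e_le (by omega) (by omega) hne
  have he1 := P.e_pos
  obtain ⟨ρ, hρ1, hρ2⟩ := P.exists_rho j (by omega) (by omega)
  obtain ⟨ρ', hρ1', hρ2'⟩ := P.exists_rho P.e (by omega) (by omega)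
  have hρ0 : ρ ≠ 0 := by
    intro h
    have h4 := hρ2 0
    rw [h, eval_zero] at h4
    rcases mul_eq_zero.1 h4.symm with h5 | h5
    · exact hj3 h5
    · exact P.zero_notMem (P.kk_eq_zero.1 h5)
  have hD := P.D_le_of_rho hρ1 hρ2 hρ0
  have hρ0' : ρ' ≠ 0 := by
    intro h
    have h5 : ∀ t ∈ P.Dsetᶜ, (P.R.coeff (Fintype.card K - P.e)).eval t = 0 := by
      intro t ht
      have h4 := hρ2' t
      rw [h, eval_zero] at h4
      rcases mul_eq_zero.1 h4.symm with h5 | h5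
      · exact h5
      · exact absurd (P.kk_eq_zero.1 h5) (Finset.mem_compl.1 ht)
    by_cases hlt : P.e = j
    · rw [hlt] at h5
      exact hj3 (h5 0 (Finset.mem_compl.2 P.zero_notMem))
    · apply P.R_coeff_e_ne
      apply eq_zero_of_natDegree_lt_card_of_eval_eq_zero' _ P.Dsetᶜ h5
      rw [Finset.card_compl]
      have h6 := P.R_wt.natDegree_coeff (i := Fintype.card K - P.e)
      have h7 : P.Dset.card = P.D := rfl
      rw [h7]
      omega
  exact ⟨by omega, by omega, P.D_le_of_rho hρ1' hρ2' hρ0', ρ', hρ0', hρ1', hρ2'⟩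

end PData

end Pool.Agent.Helper801.NucD
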