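import Pool.Agent.Helper801.NucF

open Polynomial

namespace Pool.Agent.Helper801.NucD

open Pool.Agent.Helper801.NucA Pool.Agent.Helper801.NucB Pool.Agent.Helper801.NucC

namespace PData

variable {K ι : Type*} [Field K] [Fintype K] [DecidableEq K] [Fintype ι] (P : PData K ι)

theorem theta_monic : P.theta.Monic := monic_prod_of_monic _ _ fun _ _ => monic_X_sub_C _

theorem theta_natDegree : P.theta.natDegree = Fintype.card K - P.D := by
  rw [theta, natDegree_prod_of_monic _ _ fun _ _ => monic_X_sub_C _]
  simp [D, Finset.card_compl]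

theorem eta_monic : P.eta.Monic := monic_prod_of_monic _ _ fun _ _ => monic_X_sub_C _

theorem eta_natDegree : P.eta.natDegree = P.D := by
  rw [eta, natDegree_prod_of_monic _ _ fun _ _ => monic_X_sub_C _]
  simp [D]

theorem D_le_card : P.D ≤ Fintype.card K := Finset.card_le_univ _

omit [DecidableEq K] in
theorem lin_pow_card (u : K × K) :
    (lin u) ^ Fintype.card K = lin u + C u.1 * (X ^ Fintype.card K - X) := by
  rw [← FiniteField.expand_card, lin]
  simp only [map_add, map_mul, expand_C, expand_X]
  ring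

theorem exists_Qt : ∃ Qt : K[X][X], (∀ u ∈ P.U, Qt.eval (lin u) = C u.1 * P.eta) ∧
    Wt P.D Qt ∧ Qt.natDegree ≤ P.c - 1 := by
  have hc2 := P.two_le_c
  obtain ⟨r, hr1, hr2, hr3⟩ := exists_rem (c := P.c) (by omega) P.Rc_monic P.Rc_natDegree P.Rc_wt
    (Fintype.card K)
  have hrX : (r - X).natDegree ≤ P.c - 1 := by
    refine (natDegree_sub_le _ _).trans (max_le (by omega) ?_)
    rw [natDegree_X]; omega
  have hzero : ∀ t ∈ P.Dsetᶜ, (r - X).map (evalRingHom t) = 0 := by
    intro t ht
    have hinj := P.inj_of_notMem (Finset.mem_compl.1 ht)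
    have hmap : P.Rc.map (evalRingHom t) = ∏ u ∈ P.U, (X - C (ev t u)) := by
      rw [Rc, Polynomial.map_prod]
      refine Finset.prod_congr rfl fun u _ => ?_
      rw [Polynomial.map_sub, map_X, map_C]
      congr 2
      simp [lin, ev]
    have hd1 : (∏ u ∈ P.U, (X - C (ev t u)) : K[X]) ∣ X ^ Fintype.card K - X := by
      rw [← prod_univ_X_sub_C, ← Finset.prod_image (g := ev t) (f := fun x => (X - C x : K[X]))
        (fun u hu v hv h => hinj hu hv h)]
      exact Finset.prod_dvd_prod_of_subset _ _ _ (Finset.subset_univ _)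
    have hd2 : P.Rc.map (evalRingHom t) ∣ X ^ Fintype.card K - r.map (evalRingHom t) := by
      have := Polynomial.map_dvd (evalRingHom t) hr3
      simpa using this
    rw [hmap] at hd2
    have hd3 : (∏ u ∈ P.U, (X - C (ev t u)) : K[X]) ∣ (r - X).map (evalRingHom t) := by
      have := dvd_sub hd1 hd2
      have h2 : (X ^ Fintype.card K - X : K[X]) - (X ^ Fintype.card K - r.map (evalRingHom t))
          = (r - X).map (evalRingHom t) := by
        rw [Polynomial.map_sub, map_X]; ring
      rwa [h2] at this
    by_contra h0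
    have h1 := natDegree_le_of_dvd hd3 h0
    rw [natDegree_prod_of_monic _ _ fun _ _ => monic_X_sub_C _] at h1
    have h2 : ((r - X).map (evalRingHom t)).natDegree ≤ P.c - 1 := natDegree_map_le.trans hrX
    have h3 : P.c ≤ ((r - X).map (evalRingHom t)).natDegree := by
      simpa [c] using h1
    omega
  have hdvd : C P.theta ∣ r - X := by
    rw [C_dvd_iff_dvd_coeff]
    intro i
    rw [theta]
    apply Finset.prod_dvd_of_coprime
    · intro v _ w _ hvw
      exact pairwise_coprime_X_sub_C (s := (id : K → K)) Function.injective_id hvw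
    · intro t ht
      rw [dvd_iff_isRoot, IsRoot]
      have := congrArg (fun f => f.coeff i) (hzero t ht)
      simpa only [coeff_map, coeff_zero, coe_evalRingHom] using this
  obtain ⟨Qt, hQt⟩ := hdvd
  have hθ0 : P.theta ≠ 0 := P.theta_monic.ne_zero
  refine ⟨Qt, ?_, ?_, ?_⟩
  · intro u hu
    have h1 : r.eval (lin u) = (lin u) ^ Fintype.card K := by
      obtain ⟨F, hF⟩ := hr3
      have h2 : P.Rc.eval (lin u) = 0 := by
        rw [Rc, eval_prod]
        exact Finset.prod_eq_zero hu (by simp)
      have h3 := congrArg (eval (lin u)) hF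
      rw [eval_mul, h2, zero_mul, eval_sub, eval_pow, eval_X] at h3
      exact (sub_eq_zero.1 h3).symm
    have h2 := congrArg (eval (lin u)) hQt
    rw [eval_sub, eval_X, h1, lin_pow_card, eval_mul, eval_C, ← P.theta_mul_eta] at h2
    have h3 : P.theta * (C u.1 * P.eta) = P.theta * Qt.eval (lin u) := by
      rw [← h2]; ring
    exact (mul_left_cancel₀ hθ0 h3).symm
  · intro i
    by_cases h0 : Qt.coeff i = 0
    · rw [h0]; simp
    have h1 : Wt (Fintype.card K) (r - X) :=
      hr2.sub (Wt.X_ Fintype.card_pos)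
    rw [hQt] at h1
    have h2 := h1 i
    rw [coeff_C_mul, degree_mul, degree_eq_natDegree hθ0, degree_eq_natDegree h0,
      P.theta_natDegree] at h2
    rw [degree_eq_natDegree h0]
    have h3 : Fintype.card K - P.D + (Qt.coeff i).natDegree + i ≤ Fintype.card K := by
      exact_mod_cast h2
    have h4 := P.D_le_card
    exact_mod_cast (by omega : (Qt.coeff i).natDegree + i ≤ P.D)
  · have h1 : (C P.theta * Qt).natDegree = Qt.natDegree := by
      by_cases h0 : Qt = 0
      · rw [h0]; simp
      · rw [natDegree_mul (by simpa using hθ0) h0]; simp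
    rw [← h1, ← hQt]; exact hrX

theorem Qt_top {Qt : K[X][X]} (h1 : ∀ u ∈ P.U, Qt.eval (lin u) = C u.1 * P.eta)
    (h2 : Wt P.D Qt) (h3 : Qt.natDegree ≤ P.c - 1) (i : ℕ) (hi : i ≤ P.D) :
    (Qt.coeff i).coeff (P.D - i) = if i = 1 then 1 else 0 := by
  classical
  have hc2 := P.two_le_c
  set h : K[X] := ∑ i ∈ Finset.range (P.D + 1), C ((Qt.coeff i).coeff (P.D - i)) * X ^ i with hh
  have hcoef : ∀ i, i ≤ P.D → h.coeff i = (Qt.coeff i).coeff (P.D - i) := by
    intro i hi
    rw [hh, finsetSum_coeff, Finset.sum_eq_single i]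
    · simp
    · intro j _ hj
      rw [coeff_C_mul, coeff_X_pow, if_neg (Ne.symm hj), mul_zero]
    · intro hi2; exact absurd (Finset.mem_range.2 (by omega)) hi2
  have hdeg : h.natDegree ≤ P.c - 1 := by
    rw [natDegree_le_iff_coeff_eq_zero]
    intro N hN
    by_cases hND : N ≤ P.D
    · rw [hcoef N hND, coeff_eq_zero_of_natDegree_lt (by omega : Qt.natDegree < N), coeff_zero]
    · rw [hh, finsetSum_coeff]
      refine Finset.sum_eq_zero fun j hj => ?_
      have := Finset.mem_range.1 hj
      rw [coeff_C_mul, coeff_X_pow, if_neg (by omega), mul_zero]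
  have hval : ∀ u ∈ P.U, h.eval u.1 = u.1 := by
    intro u hu
    have hQd : Qt.natDegree < P.D + 1 := by
      rw [Nat.lt_succ_iff, natDegree_le_iff_coeff_eq_zero]
      intro N hN
      exact h2.coeff_eq_zero hN
    have h4 : (Qt.eval (lin u)).coeff P.D = (C u.1 * P.eta).coeff P.D := by rw [h1 u hu]
    rw [coeff_C_mul] at h4
    have h5 : P.eta.coeff P.D = 1 := by
      have := P.eta_monic
      rw [Monic, leadingCoeff, P.eta_natDegree] at this
      exact this
    rw [h5, mul_one, eval_eq_sum_range' hQd, finsetSum_coeff] at h4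
    refine Eq.trans ?_ h4
    rw [hh, eval_finsetSum]
    refine Finset.sum_congr rfl fun j hj => ?_
    have hj' := Finset.mem_range.1 hj
    have hl : (lin u).natDegree ≤ 1 := natDegree_linear_le
    have h6 : ((lin u) ^ j).natDegree ≤ j := by
      simpa using natDegree_pow_le_of_le j hl
    have h7 : ((lin u) ^ j).coeff j = u.1 ^ j := by
      have := coeff_pow_of_natDegree_le (m := j) hl
      rw [mul_one] at this
      rw [this]; simp [lin]
    have h8 : (Qt.coeff j * lin u ^ j).coeff P.D = (Qt.coeff j).coeff (P.D - j) * ((lin u) ^ j).coeff j := by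
      have h9 := coeff_mul_add_eq_of_natDegree_le (f := Qt.coeff j) (g := lin u ^ j)
        (h2.natDegree_coeff (i := j)) h6
      rwa [Nat.sub_add_cancel (by omega)] at h9
    rw [h8, h7]; simp
  have hX : h - X = 0 := by
    apply eq_zero_of_natDegree_lt_card_of_eval_eq_zero' _ (P.U.image Prod.fst)
    · intro x hx
      obtain ⟨u, hu, rfl⟩ := Finset.mem_image.1 hx
      rw [eval_sub, hval u hu, eval_X, sub_self]
    · rw [Finset.card_image_of_injOn]
      · have : (h - X).natDegree ≤ P.c - 1 := by
          refine (natDegree_sub_le _ _).trans (max_le hdeg ?_)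
          rw [natDegree_X]; omega
        unfold c at *; omega
      · intro u hu v hv huv
        by_contra hne
        exact P.fst_ne hu hv hne huv
  rw [← hcoef i hi, sub_eq_zero.1 hX, coeff_X]
  simp only [eq_comm]

end PData

end Pool.Agent.Helper801.NucD
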