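import Pool.Agent.Helper801.NucG

open Polynomial

namespace Pool.Agent.Helper801.NucD

open Pool.Agent.Helper801.NucA Pool.Agent.Helper801.NucB Pool.Agent.Helper801.NucC

namespace PData

variable {K ι : Type*} [Field K] [Fintype K] [DecidableEq K] [Fintype ι] (P : PData K ι)

theorem hom_eval {A B : Type*} [CommRing A] [CommRing B] (φ : A →+* B) (Q : A[X]) (a : A) :
    φ (Q.eval a) = (Q.map φ).eval (φ a) := by
  rw [eval_map, eval₂_at_apply]

theorem uu_ne_zero (n : ι) : P.uu n ≠ 0 := by
  intro h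
  have h1 : P.α n = 0 := congrArg Prod.fst h
  have h2 := P.eq_n0 h1
  have h3 := congrArg Prod.snd (h2.symm.trans h)
  exact P.hβ0 h3

omit [Fintype K] [DecidableEq K] in
theorem lin_ne_zero {u : K × K} (hu : u ≠ 0) : lin u ≠ 0 := by
  intro h
  apply hu
  have h1 : (lin u).coeff 1 = 0 := by rw [h]; simp
  have h2 : (lin u).coeff 0 = 0 := by rw [h]; simp
  simp [lin] at h1 h2
  exact Prod.ext h1 h2

theorem Rs_coeff_zero_ne : P.Rs.coeff 0 ≠ 0 := by
  rw [coeff_zero_eq_eval_zero, Rs, eval_prod, Finset.prod_ne_zero_iff]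
  intro n _
  simpa using lin_ne_zero (P.uu_ne_zero n)

omit [Fintype K] [DecidableEq K] in
theorem derivative_lin (u : K × K) : derivative (lin u) = C u.1 := by
  simp [lin]

theorem Rs_dvd_del {Qt : K[X][X]} (h1 : ∀ u ∈ P.U, Qt.eval (lin u) = C u.1 * P.eta) :
    P.Rs ∣ del P.eta Qt P.R := by
  rw [R, del_mul]
  refine dvd_add ?_ (dvd_mul_left _ _)
  refine Dvd.dvd.mul_left ?_ _
  rw [Rs]
  apply dvd_del_prod
  intro n _
  apply dvd_del_lin
  rw [h1 _ (P.mem_U n), derivative_lin, mul_comm]

omit [DecidableEq K] in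
theorem derivative_X_pow_card : derivative (X ^ Fintype.card K : K[X][X]) = 0 := by
  rw [derivative_X_pow]
  have : ((Fintype.card K : ℕ) : K[X]) = 0 := by
    rw [← map_natCast (C : K →+* K[X]), FiniteField.cast_card_eq_zero, map_zero]
  simp [this]

theorem derivative_R : derivative P.R = derivative (P.R - X ^ Fintype.card K) := by
  rw [derivative_sub, derivative_X_pow_card, sub_zero]

theorem dt_R_coeff (i : ℕ) (hi : Fintype.card K - P.e < i) : (dt P.R).coeff i = 0 := by
  rw [coeff_dt]
  rcases lt_trichotomy i (Fintype.card K) with h | h | h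
  · rw [P.R_coeff_eq_zero i hi h, derivative_zero]
  · have := P.R_monic
    rw [Monic, leadingCoeff, P.R_natDegree] at this
    rw [h, this, derivative_one]
  · rw [coeff_eq_zero_of_natDegree_lt (by rw [P.R_natDegree]; exact h), derivative_zero]

theorem dt_R_natDegree : (dt P.R).natDegree ≤ Fintype.card K - P.e := by
  rw [natDegree_le_iff_coeff_eq_zero]
  exact fun N hN => P.dt_R_coeff N hN

theorem derivative_R_natDegree : (derivative P.R).natDegree ≤ Fintype.card K - P.e - 1 := by
  rw [derivative_R, card_sub_e]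
  exact natDegree_derivative_le _

/-- collected facts about Qt -/
structure QD (Qt : K[X][X]) (κ : K) : Prop where
  hQ : ∀ u ∈ P.U, Qt.eval (lin u) = C u.1 * P.eta
  hκ : κ ≠ 0
  hD : P.D = P.e + 1
  he : ((P.e : ℕ) : K) ≠ 0
  hdeg : Qt.natDegree = P.e
  hlead : Qt.coeff P.e = C κ
  hode : del P.eta Qt P.R = C (Qt.coeff 0) * P.Rs
  h0 : Qt.coeff 0 = - C ((P.e : K) * κ) * P.R.coeff (Fintype.card K - P.e)
  hw : ∀ i, i ≠ 1 → (Qt.coeff i).degree + (i : WithBot ℕ) ≤ (P.e : WithBot ℕ)
  hw1 : (Qt.coeff 1).natDegree ≤ P.e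
  hw1' : (Qt.coeff 1).coeff P.e = 1
  h00 : (Qt.coeff 0).coeff P.e ≠ 0

theorem exists_QD : ∃ Qt κ, P.QD Qt κ := by
  obtain ⟨Qt, hQ, hW, hd⟩ := P.exists_Qt
  have htop := P.Qt_top hQ hW hd
  obtain ⟨h2e, hec, hDe, -⟩ := P.second_step
  have he2 := P.two_le_e
  have hq1 : 1 < Fintype.card K := card_gt
  -- weight improvement
  have hw : ∀ i, i ≠ 1 → (Qt.coeff i).degree + (i : WithBot ℕ) ≤ ((P.D - 1 : ℕ) : WithBot ℕ) := by
    intro i hi
    by_cases h0 : Qt.coeff i = 0
    · rw [h0]; simp
    by_cases hiD : P.D < i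
    · exact absurd (hW.coeff_eq_zero hiD) h0
    have h1 := htop i (by omega)
    rw [if_neg hi] at h1
    have h2 := hW.natDegree_coeff (i := i)
    have h3 : (Qt.coeff i).natDegree ≠ P.D - i := by
      intro h3
      apply h0
      rw [← leadingCoeff_eq_zero, leadingCoeff, h3, h1]
    rw [degree_eq_natDegree h0]
    exact_mod_cast (by omega : (Qt.coeff i).natDegree + i ≤ P.D - 1)
  have hQde : Qt.natDegree ≤ P.e := by
    rw [natDegree_le_iff_coeff_eq_zero]
    intro N hN
    by_contra h0
    have h1 := hw N (by omega)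
    rw [degree_eq_natDegree h0] at h1
    have h2 : (Qt.coeff N).natDegree + N ≤ P.D - 1 := by exact_mod_cast h1
    omega
  -- the differential equation
  have hode : del P.eta Qt P.R = C (Qt.coeff 0) * P.Rs := by
    obtain ⟨F, hF⟩ := P.Rs_dvd_del hQ
    have hE : (del P.eta Qt P.R).natDegree ≤ Fintype.card K - 1 := by
      unfold del
      refine (natDegree_add_le _ _).trans (max_le ?_ ?_)
      · refine natDegree_mul_le.trans ?_
        rw [natDegree_C]
        have := P.dt_R_natDegree
        omega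
      · refine natDegree_mul_le.trans ?_
        have := P.derivative_R_natDegree
        omega
    have hF0 : F.natDegree = 0 := by
      by_cases hF1 : F = 0
      · rw [hF1, natDegree_zero]
      rw [hF, P.Rs_monic.natDegree_mul' hF1, P.Rs_natDegree] at hE
      omega
    obtain ⟨f, hf⟩ : ∃ f, F = C f := ⟨_, eq_C_of_natDegree_eq_zero hF0⟩
    have h0 := congrArg (fun G => eval 0 G) hF
    have h1 : eval 0 (del P.eta Qt P.R) = Qt.coeff 0 * P.Rs.coeff 0 := by
      unfold del
      rw [R, dt_mul, dt_X, derivative_mul, derivative_X]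
      simp [coeff_zero_eq_eval_zero]
    have h2 : eval 0 (P.Rs * F) = f * P.Rs.coeff 0 := by
      rw [hf, coeff_zero_eq_eval_zero]; simp [mul_comm]
    simp only [h1, h2] at h0
    have h3 := mul_right_cancel₀ P.Rs_coeff_zero_ne h0
    rw [hF, hf, h3, mul_comm]
  -- coefficient of degree q - 1
  have hc0 : Qt.coeff 0 = Qt.coeff P.e * (P.R.coeff (Fintype.card K - P.e) *
      ((Fintype.card K - P.e : ℕ) : K[X])) := by
    have h1 := congrArg (fun G => coeff G (Fintype.card K - 1)) hode
    have h2 : P.Rs.coeff (Fintype.card K - 1) = 1 := by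
      have := P.Rs_monic
      rw [Monic, leadingCoeff, P.Rs_natDegree] at this
      exact this
    simp only [coeff_C_mul, h2, mul_one] at h1
    rw [← h1, del, coeff_add, coeff_C_mul, P.dt_R_coeff _ (by omega), mul_zero, zero_add]
    have h3 := coeff_mul_add_eq_of_natDegree_le hQde P.derivative_R_natDegree
    rw [show P.e + (Fintype.card K - P.e - 1) = Fintype.card K - 1 by omega] at h3
    rw [h3, coeff_derivative]
    have h4 : Fintype.card K - P.e - 1 + 1 = Fintype.card K - P.e := by omega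
    rw [h4]
    congr 2
    rw [← h4]; push_cast; ring
  -- nonvanishing
  have hne : Qt.coeff 0 ≠ 0 := by
    intro h
    have h1 := congrArg (eval 0) (hQ _ (P.mem_U P.n1))
    rw [eval_mul, eval_C] at h1
    have h2 : eval 0 (eval (lin (P.uu P.n1)) Qt) = eval 0 (Qt.coeff 0) := by
      have h5 : (lin (P.uu P.n1)).eval 0 = 0 := by simp [lin, uu, P.hβ1]
      have h6 := hom_eval (evalRingHom (0 : K)) Qt (lin (P.uu P.n1))
      simp only [coe_evalRingHom] at h6
      rw [h6, h5, ← coeff_zero_eq_eval_zero, coeff_map]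
      rfl
    rw [h2, h, eval_zero] at h1
    rcases mul_eq_zero.1 h1.symm with h3 | h3
    · exact P.hα1 h3
    · rw [eta, eval_prod, Finset.prod_eq_zero_iff] at h3
      obtain ⟨t, ht, h4⟩ := h3
      simp at h4
      apply P.zero_notMem
      rwa [← h4]
  have hQe : Qt.coeff P.e ≠ 0 := by
    intro h; rw [h, zero_mul] at hc0; exact hne hc0
  have hcast : ((Fintype.card K - P.e : ℕ) : K) = - (P.e : K) := by
    rw [Nat.cast_sub (by omega), FiniteField.cast_card_eq_zero, zero_sub]
  have hcast' : ((Fintype.card K - P.e : ℕ) : K[X]) = - C ((P.e : ℕ) : K) := by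
    rw [← map_natCast (C : K →+* K[X]), hcast, C_neg]
  have heK : ((P.e : ℕ) : K) ≠ 0 := by
    intro h
    rw [hcast', h] at hc0
    apply hne; rw [hc0]; simp
  have hde : Qt.natDegree = P.e := le_antisymm hQde (le_natDegree_of_ne_zero hQe)
  have hD : P.D = P.e + 1 := by
    have h1 := hw P.e (by omega)
    rw [degree_eq_natDegree hQe] at h1
    have h2 : (Qt.coeff P.e).natDegree + P.e ≤ P.D - 1 := by exact_mod_cast h1
    omega
  have hD1 : P.D - 1 = P.e := by omega
  rw [hD1] at hw
  obtain ⟨κ, hκ⟩ : ∃ κ, Qt.coeff P.e = C κ := by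
    have h1 := hw P.e (by omega)
    rw [degree_eq_natDegree hQe] at h1
    have h2 : (Qt.coeff P.e).natDegree + P.e ≤ P.e := by exact_mod_cast h1
    exact ⟨_, eq_C_of_natDegree_eq_zero (by omega)⟩
  have hw1 : (Qt.coeff 1).natDegree ≤ P.e := by
    have := hW.natDegree_coeff (i := 1)
    omega
  have hw1' : (Qt.coeff 1).coeff P.e = 1 := by
    have := htop 1 (by omega)
    rwa [hD1, if_pos rfl] at this
  have h00 : (Qt.coeff 0).coeff P.e ≠ 0 := by
    have h1 := hQ _ (P.mem_U P.n0)
    have h2 : lin (P.uu P.n0) = C (P.β P.n0) := by simp [lin, uu, P.hα0]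
    have h3 : (P.uu P.n0).1 = 0 := P.hα0
    rw [h2, h3, C_0, zero_mul, eval_eq_sum_range' (show Qt.natDegree < P.e + 1 by omega)] at h1
    have h4 := congrArg (fun f => coeff f P.e) h1
    simp only [finsetSum_coeff, coeff_zero] at h4
    have h5 : ∀ i, (Qt.coeff i * C (P.β P.n0) ^ i).coeff P.e = (Qt.coeff i).coeff P.e * P.β P.n0 ^ i := by
      intro i
      rw [← C_pow, coeff_mul_C]
    simp only [h5] at h4
    rw [Finset.sum_range_succ', Finset.sum_eq_single 0] at h4
    · rw [hw1'] at h4
      intro h6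
      rw [h6] at h4
      simp at h4
      exact P.hβ0 h4
    · intro i _ hi
      by_cases h0 : Qt.coeff (i + 1) = 0
      · rw [h0]; simp
      have h7 := hw (i + 1) (by omega)
      rw [degree_eq_natDegree h0] at h7
      have h8 : (Qt.coeff (i + 1)).natDegree + (i + 1) ≤ P.e := by exact_mod_cast h7
      rw [coeff_eq_zero_of_natDegree_lt (by omega), zero_mul]
    · intro h; exact absurd (Finset.mem_range.2 (by omega)) h
  refine ⟨Qt, κ, hQ, ?_, hD, heK, hde, hκ, hode, ?_, hw, hw1, hw1', h00⟩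
  · rintro rfl
    rw [C_0] at hκ; exact hQe hκ
  · rw [hc0, hκ, hcast', C_mul]; ring

end PData

end Pool.Agent.Helper801.NucD
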