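import Pool.Agent.Helper801.NucH

open Polynomial

namespace Pool.Agent.Helper801.NucD

open Pool.Agent.Helper801.NucA Pool.Agent.Helper801.NucB Pool.Agent.Helper801.NucC

namespace PData

variable {K ι : Type*} [Field K] [Fintype K] [DecidableEq K] [Fintype ι] (P : PData K ι)

omit [Fintype K] [DecidableEq K] in
theorem lin_injective : Function.Injective (lin : K × K → K[X]) := by
  intro u v h
  have h1 : (lin u).coeff 1 = (lin v).coeff 1 := by rw [h]
  have h2 : (lin u).coeff 0 = (lin v).coeff 0 := by rw [h]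
  simp [lin] at h1 h2
  exact Prod.ext h1 h2

noncomputable def cl (Qt : K[X][X]) : K[X][X] :=
  C P.eta * dt Qt + Qt * derivative Qt - C (derivative P.eta) * Qt

variable {P} {Qt : K[X][X]} {κ : K}

theorem QD.cl_eval (hq : P.QD Qt κ) {u : K × K} (hu : u ∈ P.U) : (P.cl Qt).eval (lin u) = 0 := by
  have h1 := hq.hQ u hu
  have h2 := congrArg derivative h1
  rw [derivative_eval_eq, derivative_lin, derivative_C_mul] at h2
  unfold cl
  simp only [eval_sub, eval_add, eval_mul, eval_C]
  rw [h1]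
  linear_combination P.eta * h2

theorem QD.dt_natDegree (hq : P.QD Qt κ) : (dt Qt).natDegree ≤ P.e := by
  rw [natDegree_le_iff_coeff_eq_zero]
  intro N hN
  rw [coeff_dt, coeff_eq_zero_of_natDegree_lt (by rw [hq.hdeg]; exact hN), derivative_zero]

theorem QD.cl_natDegree_le (hq : P.QD Qt κ) : (P.cl Qt).natDegree ≤ 2 * P.e - 1 := by
  have he := P.two_le_e
  unfold cl
  refine (natDegree_sub_le _ _).trans (max_le ((natDegree_add_le _ _).trans (max_le ?_ ?_)) ?_)
  · refine natDegree_mul_le.trans ?_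
    rw [natDegree_C]
    have := hq.dt_natDegree
    omega
  · refine natDegree_mul_le.trans ?_
    have h1 := natDegree_derivative_le Qt
    rw [hq.hdeg] at *
    omega
  · refine natDegree_mul_le.trans ?_
    rw [natDegree_C, hq.hdeg]
    omega

theorem QD.cl_coeff (hq : P.QD Qt κ) : (P.cl Qt).coeff (2 * P.e - 1) = C ((P.e : K) * κ ^ 2) := by
  have he := P.two_le_e
  unfold cl
  rw [coeff_sub, coeff_add, coeff_C_mul, coeff_C_mul,
    coeff_eq_zero_of_natDegree_lt (lt_of_le_of_lt hq.dt_natDegree (by omega)),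
    coeff_eq_zero_of_natDegree_lt (show Qt.natDegree < 2 * P.e - 1 by rw [hq.hdeg]; omega)]
  have h1 : (derivative Qt).natDegree ≤ P.e - 1 := by
    have := natDegree_derivative_le Qt
    rwa [hq.hdeg] at this
  have h2 := coeff_mul_add_eq_of_natDegree_le hq.hdeg.le h1
  rw [show P.e + (P.e - 1) = 2 * P.e - 1 by omega] at h2
  rw [h2, coeff_derivative]
  have h3 : P.e - 1 + 1 = P.e := by omega
  rw [h3, hq.hlead]
  have h4 : ((P.e - 1 : ℕ) : K[X]) + 1 = C (P.e : K) := by
    have h5 : ((P.e - 1 : ℕ) : K[X]) + 1 = ((P.e - 1 + 1 : ℕ) : K[X]) := by push_cast; rfl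
    rw [h5, h3, map_natCast]
  rw [h4]
  simp only [C_mul, C_pow]
  ring

theorem QD.eκ_ne (hq : P.QD Qt κ) : (P.e : K) * κ ^ 2 ≠ 0 :=
  mul_ne_zero hq.he (pow_ne_zero _ hq.hκ)

theorem QD.c_le (hq : P.QD Qt κ) : P.c ≤ 2 * P.e - 1 := by
  by_contra hlt
  have h1 : P.cl Qt = 0 := by
    apply eq_zero_of_natDegree_lt_card_of_eval_eq_zero' _ (P.U.image lin)
    · intro x hx
      obtain ⟨u, hu, rfl⟩ := Finset.mem_image.1 hx
      exact hq.cl_eval hu
    · rw [Finset.card_image_of_injective _ lin_injective]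
      have := hq.cl_natDegree_le
      unfold c at hlt
      omega
  have h2 := hq.cl_coeff
  rw [h1, coeff_zero] at h2
  exact hq.eκ_ne (C_eq_zero.1 h2.symm)

theorem QD.cl_eq (hq : P.QD Qt κ) (hc : P.c = 2 * P.e - 1) :
    P.cl Qt = C (C ((P.e : K) * κ ^ 2)) * P.Rc := by
  have he := P.two_le_e
  rw [← sub_eq_zero]
  apply eq_zero_of_natDegree_lt_card_of_eval_eq_zero' _ (P.U.image lin)
  · intro x hx
    obtain ⟨u, hu, rfl⟩ := Finset.mem_image.1 hx
    rw [eval_sub, hq.cl_eval hu, eval_mul]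
    have : P.Rc.eval (lin u) = 0 := by
      rw [Rc, eval_prod]
      exact Finset.prod_eq_zero hu (by simp)
    rw [this]; simp
  · rw [Finset.card_image_of_injective _ lin_injective]
    have h1 : (P.cl Qt - C (C ((P.e : K) * κ ^ 2)) * P.Rc).natDegree ≤ 2 * P.e - 1 := by
      refine (natDegree_sub_le _ _).trans (max_le hq.cl_natDegree_le ?_)
      refine natDegree_mul_le.trans ?_
      rw [natDegree_C, P.Rc_natDegree]; omega
    have h2 : (P.cl Qt - C (C ((P.e : K) * κ ^ 2)) * P.Rc).coeff (2 * P.e - 1) = 0 := by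
      rw [coeff_sub, hq.cl_coeff, coeff_C_mul, ← hc]
      have := P.Rc_monic
      rw [Monic, leadingCoeff, P.Rc_natDegree] at this
      rw [this]; simp
    have h3 : (P.cl Qt - C (C ((P.e : K) * κ ^ 2)) * P.Rc).natDegree ≠ 2 * P.e - 1 := by
      intro h3
      have h4 : P.cl Qt - C (C ((P.e : K) * κ ^ 2)) * P.Rc = 0 := by
        rw [← leadingCoeff_eq_zero, leadingCoeff, h3, h2]
      rw [h4, natDegree_zero] at h3
      omega
    unfold c at hc
    omega

theorem ev_ne_zero {t : K} (ht : t ∈ P.Dset) (n : ι) : ev t (P.uu n) ≠ 0 := by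
  intro h
  have h' : P.α n * t + P.β n = 0 := h
  by_cases h0 : P.α n = 0
  · have h1 := P.eq_n0 h0
    have h2 : P.β n = P.β P.n0 := congrArg Prod.snd h1
    rw [h0, zero_mul, zero_add, h2] at h'
    exact P.hβ0 h'
  · exact P.notMem_of_root h0 h' ht

/-- O3 -/
theorem QD.coeff_zero_eval_ne (hq : P.QD Qt κ) {t : K} (ht : t ∈ P.Dset) :
    (Qt.coeff 0).eval t ≠ 0 := by
  intro h
  have h1 := congrArg (fun F => F.map (evalRingHom t)) hq.hode
  have h2 : P.eta.eval t = 0 := by
    rw [eta, eval_prod]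
    exact Finset.prod_eq_zero ht (by simp)
  simp only [del, Polynomial.map_add, Polynomial.map_mul, map_C, coe_evalRingHom, h2, h, C_0,
    zero_mul, zero_add] at h1
  rcases mul_eq_zero.1 h1 with h3 | h3
  · have h4 := congrArg (fun F => coeff F P.e) h3
    simp only [coeff_map, hq.hlead, coe_evalRingHom, eval_C, coeff_zero] at h4
    exact hq.hκ h4
  · have h4 := congrArg (fun F => coeff F 0) h3
    simp only [coeff_map, coe_evalRingHom, coeff_zero] at h4
    rw [coeff_derivative, R, coeff_X_mul] at h4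
    simp only [Nat.cast_zero, zero_add, mul_one] at h4
    rw [coeff_zero_eq_eval_zero, Rs, eval_prod, eval_prod, Finset.prod_eq_zero_iff] at h4
    obtain ⟨n, -, h5⟩ := h4
    simp only [eval_sub, eval_X, eval_C, zero_sub, eval_neg, neg_eq_zero] at h5
    apply ev_ne_zero ht n
    simpa [lin, ev] using h5

end PData

end Pool.Agent.Helper801.NucD
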