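import Pool.Agent.Helper801.NucI

open Polynomial

namespace Pool.Agent.Helper801.NucD

open Pool.Agent.Helper801.NucA Pool.Agent.Helper801.NucB Pool.Agent.Helper801.NucC

namespace PData

variable {K ι : Type*} [Field K] [Fintype K] [DecidableEq K] [Fintype ι] {P : PData K ι}
  {Qt : K[X][X]} {κ : K}

theorem QD.exists_t0 (hq : P.QD Qt κ) :
    ∃ t0 : AlgebraicClosure K, aeval t0 (Qt.coeff 0) = 0 := by
  apply IsAlgClosed.exists_aeval_eq_zero
  intro h
  have h1 : (Qt.coeff 0).natDegree = 0 := natDegree_eq_of_degree_eq_some (n := 0) (by simpa using h)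
  have h2 := P.two_le_e
  exact hq.h00 (coeff_eq_zero_of_natDegree_lt (by omega))

section

variable {L : Type*} [Field L] [Algebra K L]

theorem QD.t0_ne (hq : P.QD Qt κ) {t0 : L} (ht : aeval t0 (Qt.coeff 0) = 0) {t : K}
    (h : t ∈ P.Dset) : t0 ≠ algebraMap K L t := by
  rintro rfl
  rw [aeval_algebraMap_apply] at ht
  have h1 := (FaithfulSMul.algebraMap_injective K L) (ht.trans (map_zero _).symm)
  exact hq.coeff_zero_eval_ne h (by simpa using h1)

theorem QD.t0_value_ne (hq : P.QD Qt κ) {t0 : L} (ht : aeval t0 (Qt.coeff 0) = 0) (n : ι) :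
    algebraMap K L (P.uu n).1 * t0 + algebraMap K L (P.uu n).2 ≠ 0 := by
  intro h
  by_cases h0 : P.α n = 0
  · have h1 := P.eq_n0 h0
    rw [h1] at h
    have h2 : (P.uu P.n0).1 = 0 := P.hα0
    rw [h2, map_zero, zero_mul, zero_add] at h
    exact P.hβ0 ((map_eq_zero _).1 h)
  · have h0' : (P.uu n).1 ≠ 0 := h0
    set t : K := - (P.uu n).2 / (P.uu n).1 with htd
    have h1 : t0 = algebraMap K L t := by
      have h2 : algebraMap K L (P.uu n).1 ≠ 0 := by simpa using h0'
      rw [htd, map_div₀, map_neg]
      field_simp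
      linear_combination h
    rw [h1, aeval_algebraMap_apply] at ht
    have h2 := (FaithfulSMul.algebraMap_injective K L) (ht.trans (map_zero _).symm)
    have h3 : eval t (Qt.coeff 0) = 0 := by simpa using h2
    have h4 : (P.uu n).1 * t + (P.uu n).2 = 0 := by
      rw [htd]; field_simp; ring
    have h5 := congrArg (eval t) (hq.hQ _ (P.mem_U n))
    have h6 := hom_eval (evalRingHom t) Qt (lin (P.uu n))
    have h7 : eval t (lin (P.uu n)) = 0 := by
      rw [← h4]; simp [lin]
    simp only [coe_evalRingHom] at h6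
    rw [h6, h7, ← coeff_zero_eq_eval_zero, coeff_map, coe_evalRingHom, h3, eval_mul, eval_C] at h5
    rcases mul_eq_zero.1 h5.symm with h8 | h8
    · exact h0' h8
    · rw [eta, eval_prod, Finset.prod_eq_zero_iff] at h8
      obtain ⟨t', ht', h9⟩ := h8
      simp only [eval_sub, eval_X, eval_C] at h9
      have h10 : t' = t := (sub_eq_zero.1 h9).symm
      rw [h10] at ht'
      exact P.notMem_of_root h0 h4 ht'

theorem K2 {Qt : K[X][X]} {κ : K} (hq : P.QD Qt κ) {t0 : L} (ht : aeval t0 (Qt.coeff 0) = 0)
    (j : ℕ) (hj1 : 1 ≤ j) (hj2 : j + P.e + 2 ≤ Fintype.card K) :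
    aeval t0 (P.R.coeff (Fintype.card K - j)) = 0 := by
  classical
  obtain ⟨h2e, hec, hDe, ρ, hρ0, hρd, hρ⟩ := P.second_step
  have he2 := P.two_le_e
  obtain ⟨σ, hσd, hσ⟩ := P.exists_rho j hj1 (by omega)
  have hR0 : aeval t0 (P.R.coeff (Fintype.card K - P.e)) = 0 := by
    have h1 := hq.h0
    rw [h1] at ht
    simp only [map_mul, map_neg, aeval_C] at ht
    rcases mul_eq_zero.1 ht with h2 | h2
    · rw [neg_eq_zero] at h2
      exfalso
      rw [← map_mul] at h2
      exact mul_ne_zero hq.he hq.hκ ((map_eq_zero _).1 h2)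
    · exact h2
  have hρt : aeval t0 ρ ≠ 0 := by
    intro h
    apply hρ0
    have h1 : ρ.map (algebraMap K L) = 0 := by
      apply eq_zero_of_natDegree_lt_card_of_eval_eq_zero' _
        (insert t0 (P.Dset.image (algebraMap K L)))
      · intro x hx
        rcases Finset.mem_insert.1 hx with rfl | hx
        · rwa [eval_map_algebraMap]
        · obtain ⟨t, htD, rfl⟩ := Finset.mem_image.1 hx
          rw [eval_map_algebraMap, aeval_algebraMap_apply]
          have : ρ.eval t = 0 := by rw [hρ, P.kk_eq_zero.2 htD, mul_zero]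
          simp [this]
      · rw [Finset.card_insert_of_notMem, Finset.card_image_of_injective _
          (FaithfulSMul.algebraMap_injective K L)]
        · have h2 : (ρ.map (algebraMap K L)).natDegree ≤ P.e + 1 := natDegree_map_le.trans hρd
          have h3 := hq.hD
          unfold D at h3
          omega
        · intro hx
          obtain ⟨t, htD, h3⟩ := Finset.mem_image.1 hx
          exact hq.t0_ne ht htD h3.symm
    exact (Polynomial.map_eq_zero _).1 h1
  -- equality of polynomials
  have hpoly : P.R.coeff (Fintype.card K - j) * ρ = P.R.coeff (Fintype.card K - P.e) * σ := by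
    rw [← sub_eq_zero]
    apply eq_zero_of_natDegree_lt_card_of_eval_eq_zero' _ (Finset.univ : Finset K)
    · intro t _
      rw [eval_sub, eval_mul, eval_mul, hρ, hσ]; ring
    · rw [Finset.card_univ]
      have h1 := P.R_wt.natDegree_coeff (i := Fintype.card K - j)
      have h2 := P.R_wt.natDegree_coeff (i := Fintype.card K - P.e)
      refine lt_of_le_of_lt (natDegree_sub_le _ _) (max_lt ?_ ?_)
      · refine lt_of_le_of_lt natDegree_mul_le ?_
        omega
      · refine lt_of_le_of_lt natDegree_mul_le ?_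
        omega
  have h3 := congrArg (aeval t0) hpoly
  rw [map_mul, map_mul, hR0, zero_mul] at h3
  exact (mul_eq_zero.1 h3).resolve_right hρt

theorem QD.third_step_aux (hq : P.QD Qt κ) {t0 : L} (ht0 : aeval t0 (Qt.coeff 0) = 0) :
    P.c = 2 * P.e - 1 ∧
    (∀ n, ((mult P.uu (P.uu n) : ℕ) : K) ≠ 0) ∧ Fintype.card K ≤ 3 * P.e := by
  classical
  have he2 := P.two_le_e
  obtain ⟨h2e, hec, -, -⟩ := P.second_step
  set φ : K[X] →+* L := (aeval t0 : K[X] →ₐ[K] L).toRingHom with hφ
  set f : K × K → L := fun u => algebraMap K L u.1 * t0 + algebraMap K L u.2 with hf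
  have hinj : Set.InjOn f (P.U : Set (K × K)) := by
    intro u hu v hv h
    by_contra hne
    obtain ⟨t₁, ht₁, h2⟩ := P.coincide (L := L) hu hv hne t0 h
    exact hq.t0_ne ht0 ht₁ h2
  have hne0 : ∀ n, f (P.uu n) ≠ 0 := fun n => hq.t0_value_ne ht0 n
  have hnot : (0 : L) ∉ P.U.image f := by
    intro h
    obtain ⟨u, hu, h1⟩ := Finset.mem_image.1 h
    obtain ⟨n, rfl⟩ := P.exists_of_mem_U hu
    exact hne0 n h1
  have himg : (Finset.univ.image (P.zz f)).card = P.c + 1 := by
    rw [P.image_zz_card f hinj, if_neg hnot]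
  have hP0 : P.R.map φ = ∏ o, (X - C (P.zz f o)) := P.R_map t0
  have hder : derivative (∏ o, (X - C (P.zz f o))) = (derivative P.R).map φ := by
    rw [← hP0, derivative_map]
  have hderne : derivative (∏ o, (X - C (P.zz f o))) ≠ 0 := by
    intro h
    have h1 := congrArg (fun F => coeff F 0) h
    simp only [coeff_zero] at h1
    rw [coeff_derivative, P.prod_zz, coeff_X_mul] at h1
    simp only [Nat.cast_zero, zero_add, mul_one] at h1
    rw [coeff_zero_eq_eval_zero, eval_prod, Finset.prod_eq_zero_iff] at h1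
    obtain ⟨n, -, h5⟩ := h1
    simp only [eval_sub, eval_X, eval_C, zero_sub, neg_eq_zero] at h5
    exact hne0 n h5
  -- degree bound from the differential equation
  have hdeg1 : (derivative (∏ o, (X - C (P.zz f o)))).natDegree + P.e ≤ Fintype.card K - P.e := by
    have h1 := congrArg (fun F => F.map φ) hq.hode
    have h2 : φ (Qt.coeff 0) = 0 := ht0
    simp only [del, Polynomial.map_add, Polynomial.map_mul, map_C, h2, C_0, zero_mul] at h1
    rw [← hder] at h1
    have hQe : (Qt.map φ).coeff P.e = algebraMap K L κ := by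
      rw [coeff_map, hq.hlead]
      simp [hφ]
    have hQne : Qt.map φ ≠ 0 := by
      intro h; rw [h, coeff_zero] at hQe
      exact hq.hκ ((map_eq_zero _).1 hQe.symm)
    have hQd : P.e ≤ (Qt.map φ).natDegree := by
      apply le_natDegree_of_ne_zero
      rw [hQe]
      simpa using hq.hκ
    have h3 : Qt.map φ * derivative (∏ o, (X - C (P.zz f o))) = - (C (φ P.eta) * (dt P.R).map φ) := by
      linear_combination h1
    have h4 := congrArg natDegree h3
    rw [natDegree_mul hQne hderne, natDegree_neg] at h4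
    have h5 : (C (φ P.eta) * (dt P.R).map φ).natDegree ≤ Fintype.card K - P.e := by
      refine natDegree_mul_le.trans ?_
      rw [natDegree_C, zero_add]
      exact natDegree_map_le.trans P.dt_R_natDegree
    omega
  have hML1 := card_le_of_derivative (P.zz f) hderne
  rw [P.card_option, himg] at hML1
  have hc1 := hq.c_le
  have hc : P.c = 2 * P.e - 1 := by omega
  refine ⟨hc, ?_, ?_⟩
  · intro n h
    have h1 : mult (P.zz f) (f (P.uu n)) = mult P.uu (P.uu n) := by
      rw [mult_option, if_neg, zero_add]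
      · exact P.mult_comp f hinj n
      · show (0 : L) ≠ _
        exact (hne0 n).symm
    have h2 : ((mult (P.zz f) (f (P.uu n)) : ℕ) : L) = 0 := by
      rw [h1, ← map_natCast (algebraMap K L), h, map_zero]
    have h3 := card_lt_of_derivative (P.zz f) hderne (v₀ := f (P.uu n))
      (Finset.mem_image.2 ⟨some n, Finset.mem_univ _, rfl⟩) h2
    rw [P.card_option, himg] at h3
    omega
  · have hdeg2 : (derivative (∏ o, (X - C (P.zz f o)))).natDegree ≤ P.e := by
      rw [natDegree_le_iff_coeff_eq_zero]
      intro N hN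
      rw [hder, coeff_map, coeff_derivative]
      by_cases h1 : N + 1 < Fintype.card K
      · have h2 : aeval t0 (P.R.coeff (N + 1)) = 0 := by
          have := K2 hq ht0 (Fintype.card K - (N + 1)) (by omega) (by omega)
          rwa [Nat.sub_sub_self h1.le] at this
        have h3 : φ (P.R.coeff (N + 1)) = 0 := h2
        rw [map_mul, h3, zero_mul]
      · by_cases h2 : N + 1 = Fintype.card K
        · have h3 : ((N : K[X]) + 1) = 0 := by
            have h4 : ((N : K[X]) + 1) = ((N + 1 : ℕ) : K[X]) := by push_cast; rfl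
            rw [h4, h2, ← map_natCast (C : K →+* K[X]), FiniteField.cast_card_eq_zero, map_zero]
          rw [h3, mul_zero, map_zero]
        · rw [coeff_eq_zero_of_natDegree_lt (by rw [P.R_natDegree]; omega), zero_mul, map_zero]
    omega

end

theorem QD.third_step (hq : P.QD Qt κ) : P.c = 2 * P.e - 1 ∧
    (∀ n, ((mult P.uu (P.uu n) : ℕ) : K) ≠ 0) ∧ Fintype.card K ≤ 3 * P.e := by
  obtain ⟨t0, ht0⟩ := hq.exists_t0
  exact hq.third_step_aux ht0

theorem QD.three_e (hq : P.QD Qt κ) : Fintype.card K + 1 = 3 * P.e := by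
  obtain ⟨hc, -, h1⟩ := hq.third_step
  have h2 := P.c_add_D
  have h3 := hq.hD
  have he2 := P.two_le_e
  have h4 : Fintype.card K ≠ 3 * P.e := by
    intro h
    have h5 : ((3 : ℕ) : K) * (P.e : K) = 0 := by
      rw [← Nat.cast_mul, ← h, FiniteField.cast_card_eq_zero]
    have h6 := (mul_eq_zero.1 h5).resolve_right hq.he
    obtain ⟨p, hp⟩ := CharP.exists K
    have hpp : p.Prime := CharP.char_is_prime K p
    have h7 : p = 3 := by
      have := (CharP.cast_eq_zero_iff K p 3).1 h6
      exact (Nat.prime_dvd_prime_iff_eq hpp Nat.prime_three).1 this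
    obtain ⟨k, -, hk⟩ := FiniteField.card K p
    rw [h7] at hk
    have hkpos := k.pos
    obtain ⟨k', hk'⟩ : ∃ k', (k : ℕ) = k' + 1 := ⟨k - 1, by omega⟩
    rw [hk', pow_succ] at hk
    have h8 : P.e = 3 ^ k' := by omega
    have hk'' : k' ≠ 0 := by
      rintro rfl
      simp at h8
      omega
    apply hq.he
    rw [h8]
    obtain ⟨k2, rfl⟩ := Nat.exists_eq_succ_of_ne_zero hk''
    rw [pow_succ, Nat.cast_mul, h6, mul_zero]
  omega

end PData

end Pool.Agent.Helper801.NucD
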