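import Pool.Agent.Helper801.NucJ

open Polynomial

namespace Pool.Agent.Helper801.NucD

open Pool.Agent.Helper801.NucA Pool.Agent.Helper801.NucB Pool.Agent.Helper801.NucC

theorem eq_of_eval {A : Type*} [CommRing A] [IsDomain A] {F G : A[X]} {n : ℕ} (hn : 1 ≤ n)
    (hF : F.natDegree ≤ n) (hG : G.natDegree ≤ n) (hc : F.coeff n = G.coeff n) (s : Finset A)
    (hs : ∀ x ∈ s, F.eval x = G.eval x) (hns : n ≤ s.card) : F = G := by
  rw [← sub_eq_zero]
  apply eq_zero_of_natDegree_lt_card_of_eval_eq_zero' _ s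
  · intro x hx
    rw [eval_sub, hs x hx, sub_self]
  · have h1 : (F - G).natDegree ≤ n := (natDegree_sub_le _ _).trans (max_le hF hG)
    have h2 : (F - G).coeff n = 0 := by rw [coeff_sub, hc, sub_self]
    have h3 : (F - G).natDegree ≠ n := by
      intro h3
      have h4 : F - G = 0 := by
        rw [← leadingCoeff_eq_zero, leadingCoeff, h3, h2]
      rw [h4, natDegree_zero] at h3
      omega
    omega

theorem derivative_prod_eval {K : Type*} [Field K] [DecidableEq K] (H : Finset K) {h : K}
    (hh : h ∈ H) :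
    (derivative (∏ x ∈ H, (X - C x))).eval h = (∏ x ∈ H.erase h, (X - C x)).eval h := by
  rw [← Finset.mul_prod_erase H _ hh, derivative_mul]
  simp

theorem derivative_prod_eval_ne {K : Type*} [Field K] [DecidableEq K] (H : Finset K) {h : K}
    (hh : h ∈ H) : (derivative (∏ x ∈ H, (X - C x))).eval h ≠ 0 := by
  rw [derivative_prod_eval H hh, eval_prod, Finset.prod_ne_zero_iff]
  intro x hx
  rw [eval_sub, eval_X, eval_C, sub_ne_zero]
  exact (Finset.ne_of_mem_erase hx).symm

namespace PData

variable {K ι : Type*} [Field K] [Fintype K] [DecidableEq K] [Fintype ι] (P : PData K ι)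

/-- values at t -/
def H (t : K) : Finset K := P.U.image (ev t)

noncomputable def M (t : K) : K[X] := ∏ h ∈ P.H t, (X - C h)

/-- number of pairs over a value -/
def gam (t h : K) : ℕ := (P.U.filter fun u => ev t u = h).card

noncomputable def B (t : K) : K[X] := ∏ h ∈ P.H t, (X - C h) ^ (P.gam t h - 1)

theorem mem_H (t : K) (n : ι) : ev t (P.uu n) ∈ P.H t := Finset.mem_image_of_mem _ (P.mem_U n)

theorem gam_pos {t h : K} (hh : h ∈ P.H t) : 1 ≤ P.gam t h := by
  obtain ⟨u, hu, rfl⟩ := Finset.mem_image.1 hh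
  exact Finset.card_pos.2 ⟨u, Finset.mem_filter.2 ⟨hu, rfl⟩⟩

theorem sum_gam (t : K) : ∑ h ∈ P.H t, P.gam t h = P.c :=
  (Finset.card_eq_sum_card_image (ev t) P.U).symm

theorem H_eq (t : K) : P.H t = Finset.univ.image (fun n => ev t (P.uu n)) := by
  rw [H, U, Finset.image_image]; rfl

theorem M_monic (t : K) : (P.M t).Monic := monic_prod_of_monic _ _ fun _ _ => monic_X_sub_C _

theorem M_natDegree (t : K) : (P.M t).natDegree = (P.H t).card := by
  rw [M, natDegree_prod_of_monic _ _ fun _ _ => monic_X_sub_C _]; simp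

theorem eta_eval {t : K} (ht : t ∈ P.Dset) : P.eta.eval t = 0 := by
  rw [eta, eval_prod]
  exact Finset.prod_eq_zero ht (by simp)

theorem eta'_eval {t : K} (ht : t ∈ P.Dset) : (derivative P.eta).eval t ≠ 0 :=
  derivative_prod_eval_ne _ ht

omit [Fintype K] [DecidableEq K] in
theorem eval_lin (t : K) (u : K × K) : (lin u).eval t = ev t u := by simp [lin, ev]

omit [Fintype K] [DecidableEq K] in
theorem eval_eval_lin (Q : K[X][X]) (t : K) (u : K × K) :
    (Q.eval (lin u)).eval t = (Q.map (evalRingHom t)).eval (ev t u) := by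
  have := hom_eval (evalRingHom t) Q (lin u)
  simpa only [coe_evalRingHom, eval_lin] using this

variable {P} {Qt : K[X][X]} {κ : K}

theorem QD.map_natDegree (hq : P.QD Qt κ) (t : K) : (Qt.map (evalRingHom t)).natDegree = P.e := by
  apply le_antisymm
  · exact natDegree_map_le.trans hq.hdeg.le
  · apply le_natDegree_of_ne_zero
    rw [coeff_map, hq.hlead, coe_evalRingHom, eval_C]
    exact hq.hκ

theorem QD.map_eval (hq : P.QD Qt κ) {t : K} (ht : t ∈ P.Dset) {h : K} (hh : h ∈ P.H t) :
    (Qt.map (evalRingHom t)).eval h = 0 := by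
  obtain ⟨u, hu, rfl⟩ := Finset.mem_image.1 hh
  rw [← eval_eval_lin, hq.hQ u hu, eval_mul, P.eta_eval ht, mul_zero]

theorem QD.ode_t (hq : P.QD Qt κ) {t : K} (ht : t ∈ P.Dset) :
    Qt.map (evalRingHom t) * derivative (∏ o, (X - C (P.zz (ev t) o)))
      = C ((Qt.coeff 0).eval t) * ∏ n, (X - C (ev t (P.uu n))) := by
  have h1 := congrArg (fun F => F.map (evalRingHom t)) hq.hode
  simp only [del, Polynomial.map_add, Polynomial.map_mul, map_C, coe_evalRingHom, P.eta_eval ht,
    C_0, zero_mul, zero_add] at h1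
  rw [← derivative_map, P.R_map_K] at h1
  rw [h1, Rs, Polynomial.map_prod]
  congr 1
  refine Finset.prod_congr rfl fun n _ => ?_
  rw [Polynomial.map_sub, map_X, map_C, coe_evalRingHom, eval_lin]

theorem QD.H_card (hq : P.QD Qt κ) {t : K} (ht : t ∈ P.Dset) : (P.H t).card = P.e := by
  have hd := hq.map_natDegree t
  have he2 := P.two_le_e
  have hne : Qt.map (evalRingHom t) ≠ 0 := by
    intro h; rw [h, natDegree_zero] at hd; omega
  apply le_antisymm
  · rw [← hd]
    by_contra hlt
    exact hne (eq_zero_of_natDegree_lt_card_of_eval_eq_zero' _ _ (fun h hh => hq.map_eval ht hh)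
      (by omega))
  · have h1 := hq.ode_t ht
    have h0 := hq.coeff_zero_eval_ne ht
    have hmon : (∏ n, (X - C (ev t (P.uu n))) : K[X]).Monic :=
      monic_prod_of_monic _ _ fun _ _ => monic_X_sub_C _
    have hder : derivative (∏ o, (X - C (P.zz (ev t) o))) ≠ 0 := by
      intro h
      rw [h, mul_zero] at h1
      exact (mul_ne_zero (C_ne_zero.2 h0) hmon.ne_zero) h1.symm
    have h2 := congrArg natDegree h1
    rw [natDegree_mul hne hder, natDegree_C_mul h0, hd,
      natDegree_prod_of_monic _ _ fun _ _ => monic_X_sub_C _] at h2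
    simp only [natDegree_X_sub_C, Finset.sum_const, Finset.card_univ, smul_eq_mul, mul_one] at h2
    have h3 := sum_le_natDegree (P.H t) (fun h => mult (P.zz (ev t)) h - 1) _ hder
      (fun v _ => pow_dvd_derivative _ v)
    have h4 : ∀ h ∈ P.H t, mult (P.zz (ev t)) h = mult (fun n => ev t (P.uu n)) h := by
      intro h hh
      rw [mult_option, if_neg, zero_add]
      · rfl
      · intro h5
        obtain ⟨u, hu, h6⟩ := Finset.mem_image.1 hh
        obtain ⟨n, rfl⟩ := P.exists_of_mem_U hu
        exact ev_ne_zero ht n (h6.trans h5.symm)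
    have h5 : ∑ h ∈ P.H t, (mult (P.zz (ev t)) h - 1) + (P.H t).card = Fintype.card ι := by
      rw [← sum_mult (fun n => ev t (P.uu n)), ← P.H_eq, Finset.card_eq_sum_ones,
        ← Finset.sum_add_distrib]
      refine Finset.sum_congr rfl fun h hh => ?_
      rw [h4 h hh]
      have : h ∈ Finset.univ.image (fun n => ev t (P.uu n)) := by rw [← P.H_eq]; exact hh
      have := mult_pos (fun n => ev t (P.uu n)) this
      omega
    omega

theorem QD.map_eq (hq : P.QD Qt κ) {t : K} (ht : t ∈ P.Dset) :
    Qt.map (evalRingHom t) = C κ * P.M t := by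
  have he2 := P.two_le_e
  have hH := hq.H_card ht
  refine eq_of_eval (n := P.e) (by omega) (hq.map_natDegree t).le ?_ ?_ (P.H t) ?_ hH.ge
  · rw [natDegree_C_mul hq.hκ, P.M_natDegree, hH]
  · rw [coeff_map, hq.hlead, coeff_C_mul]
    have := P.M_monic t
    rw [Monic, leadingCoeff, P.M_natDegree, hH] at this
    rw [this]; simp
  · intro x hx
    rw [hq.map_eval ht hx, eval_mul, M, eval_prod, Finset.prod_eq_zero hx (by simp), mul_zero]

theorem QD.M_zero_ne (hq : P.QD Qt κ) {t : K} (ht : t ∈ P.Dset) : (P.M t).eval 0 ≠ 0 := by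
  intro h
  apply hq.coeff_zero_eval_ne ht
  have h1 := congrArg (eval 0) (hq.map_eq ht)
  rw [eval_mul, h, mul_zero, ← coeff_zero_eq_eval_zero, coeff_map] at h1
  exact h1

/-- J identity -/
theorem QD.J_id (hq : P.QD Qt κ) {t : K} (ht : t ∈ P.Dset) {h : K} (hh : h ∈ P.H t) :
    h * ((mult (fun n => ev t (P.uu n)) h : ℕ) : K) * (derivative (P.M t)).eval h
      = (P.M t).eval 0 := by
  have h1 := hq.ode_t ht
  have h2 : (Qt.coeff 0).eval t = κ * (P.M t).eval 0 := by
    have h3 := congrArg (eval 0) (hq.map_eq ht)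
    rw [← coeff_zero_eq_eval_zero, coeff_map, eval_mul, eval_C] at h3
    exact h3
  rw [hq.map_eq ht, h2, P.prod_zz, derivative_mul, derivative_X, one_mul] at h1
  obtain ⟨Q, hQ, hQ0⟩ := pow_mult_factor (fun n => ev t (P.uu n)) h
  have hmp : 1 ≤ mult (fun n => ev t (P.uu n)) h := by
    apply mult_pos
    rw [← P.H_eq]; exact hh
  obtain ⟨k, hk⟩ : ∃ k, mult (fun n => ev t (P.uu n)) h = k + 1 :=
    ⟨mult (fun n => ev t (P.uu n)) h - 1, by omega⟩
  rw [hk] at hQ
  rw [hQ] at h1
  have hMh : P.M t = (X - C h) * ∏ x ∈ (P.H t).erase h, (X - C x) := by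
    rw [M, ← Finset.mul_prod_erase _ _ hh]
  have hM' : (derivative (P.M t)).eval h = (∏ x ∈ (P.H t).erase h, (X - C x)).eval h := by
    rw [M]; exact derivative_prod_eval _ hh
  set Mh : K[X] := ∏ x ∈ (P.H t).erase h, (X - C x) with hMhd
  rw [derivative_mul, derivative_X_sub_C_pow, Nat.add_sub_cancel] at h1
  have h3 : (C κ * (X - C h) ^ (k + 1)) *
      (Mh * ((X - C h) * Q + X * (C ((k + 1 : ℕ) : K) * Q + (X - C h) * derivative Q)))
      = (C κ * (X - C h) ^ (k + 1)) * (C ((P.M t).eval 0) * Q) := by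
    rw [hMh] at h1
    rw [hMh]
    simp only [C_mul] at h1 ⊢
    linear_combination h1
  have h4 := mul_left_cancel₀ (mul_ne_zero (C_ne_zero.2 hq.hκ) (pow_ne_zero _ (X_sub_C_ne_zero h))) h3
  have h5 := congrArg (eval h) h4
  simp only [eval_mul, eval_add, eval_sub, eval_X, eval_C, sub_self, zero_mul, zero_add,
    add_zero] at h5
  rw [hk, hM']
  apply mul_right_cancel₀ hQ0
  linear_combination h5

theorem QD.B_eq (hq : P.QD Qt κ) {t : K} (ht : t ∈ P.Dset) :
    C (P.e : K) * P.B t = derivative (P.M t) - C ((derivative P.eta).eval t / κ) := by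
  obtain ⟨hc, -, -⟩ := hq.third_step
  have h1 := congrArg (fun F => F.map (evalRingHom t)) (hq.cl_eq hc)
  simp only [cl, Polynomial.map_add, Polynomial.map_sub, Polynomial.map_mul, map_C,
    coe_evalRingHom, P.eta_eval ht, C_0, zero_mul, zero_add, eval_C] at h1
  rw [← derivative_map, hq.map_eq ht, derivative_C_mul] at h1
  have h2 : P.Rc.map (evalRingHom t) = P.M t * P.B t := by
    rw [Rc, Polynomial.map_prod]
    have h3 : ∀ u ∈ P.U, (X - C (lin u)).map (evalRingHom t) = X - C (ev t u) := by
      intro u _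
      rw [Polynomial.map_sub, map_X, map_C, coe_evalRingHom, eval_lin]
    rw [Finset.prod_congr rfl h3, Finset.prod_comp (fun x : K => (X - C x : K[X])) (ev t), M, B,
      ← Finset.prod_mul_distrib]
    refine Finset.prod_congr rfl fun h hh => ?_
    rw [← pow_succ']
    congr 1
    have := P.gam_pos hh
    unfold gam at *
    omega
  rw [h2] at h1
  have hκ := hq.hκ
  have h4 : (C (κ ^ 2) * P.M t) * (C (P.e : K) * P.B t)
      = (C (κ ^ 2) * P.M t) * (derivative (P.M t) - C ((derivative P.eta).eval t / κ)) := by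
    have h5 : C ((derivative P.eta).eval t) = C κ * C ((derivative P.eta).eval t / κ) := by
      rw [← C_mul]; congr 1; field_simp
    rw [h5] at h1
    simp only [C_mul, C_pow] at h1 ⊢
    linear_combination -h1
  exact mul_left_cancel₀ (mul_ne_zero (C_ne_zero.2 (pow_ne_zero _ hκ)) (P.M_monic t).ne_zero) h4

theorem QD.exists_gam_one (hq : P.QD Qt κ) {u : K × K} (hu : u ∈ P.U) :
    ∃ t ∈ P.Dset, P.gam t (ev t u) = 1 := by
  by_contra hcon
  push Not at hcon
  have he2 := P.two_le_e
  set F : K[X] := (derivative Qt).eval (lin u) - derivative P.eta with hF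
  have hzero : ∀ t ∈ P.Dset, F.eval t = 0 := by
    intro t ht
    have hh : ev t u ∈ P.H t := Finset.mem_image_of_mem _ hu
    have h1 := hcon t ht
    have h2 := P.gam_pos hh
    have h3 : (P.B t).eval (ev t u) = 0 := by
      rw [B, eval_prod]
      apply Finset.prod_eq_zero hh
      rw [eval_pow, eval_sub, eval_X, eval_C, sub_self, zero_pow]
      omega
    have h4 := congrArg (eval (ev t u)) (hq.B_eq ht)
    rw [eval_mul, h3, mul_zero, eval_sub, eval_C] at h4
    rw [hF, eval_sub, eval_eval_lin, ← derivative_map, hq.map_eq ht, derivative_C_mul, eval_mul,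
      eval_C]
    have hκ := hq.hκ
    have h5 : eval (ev t u) (derivative (P.M t)) = (derivative P.eta).eval t / κ :=
      (sub_eq_zero.1 h4.symm)
    rw [h5]; field_simp; ring
  have hder : (derivative Qt).natDegree < P.e := by
    have := natDegree_derivative_le Qt
    rw [hq.hdeg] at this
    omega
  have hterm : ∀ i, ((derivative Qt).coeff i * lin u ^ i).natDegree ≤ P.e ∧
      ((derivative Qt).coeff i * lin u ^ i).coeff P.e = if i = 0 then 1 else 0 := by
    intro i
    rw [coeff_derivative]
    cases i with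
    | zero =>
      simp only [Nat.cast_zero, zero_add, mul_one, pow_zero, if_true]
      exact ⟨hq.hw1, hq.hw1'⟩
    | succ i =>
      rw [if_neg (Nat.succ_ne_zero i)]
      by_cases h0 : Qt.coeff (i + 1 + 1) = 0
      · rw [h0]; simp
      have h1 := hq.hw (i + 1 + 1) (by omega)
      rw [degree_eq_natDegree h0] at h1
      have h2 : (Qt.coeff (i + 1 + 1)).natDegree + (i + 1 + 1) ≤ P.e := by exact_mod_cast h1
      have hl : ((lin u) ^ (i + 1)).natDegree ≤ i + 1 := by
        have h3 : (lin u).natDegree ≤ 1 := natDegree_linear_le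
        simpa using natDegree_pow_le_of_le (i + 1) h3
      have h3 : (Qt.coeff (i + 1 + 1) * (((i + 1 : ℕ) : K[X]) + 1) * lin u ^ (i + 1)).natDegree
          < P.e := by
        have h4 : (((i + 1 : ℕ) : K[X]) + 1) = C (((i + 1 + 1 : ℕ)) : K) := by
          rw [map_natCast]; push_cast; ring
        rw [h4]
        refine lt_of_le_of_lt natDegree_mul_le ?_
        have := natDegree_mul_le (p := Qt.coeff (i + 1 + 1)) (q := C (((i + 1 + 1 : ℕ)) : K))
        rw [natDegree_C] at this
        omega
      exact ⟨h3.le, coeff_eq_zero_of_natDegree_lt h3⟩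
  have hFe : F.natDegree ≤ P.e := by
    refine (natDegree_sub_le _ _).trans (max_le ?_ ?_)
    · rw [eval_eq_sum_range' hder]
      exact natDegree_sum_le_of_forall_le _ _ fun i _ => (hterm i).1
    · have := natDegree_derivative_le P.eta
      rw [P.eta_natDegree, hq.hD] at this
      simpa using this
  have hF0 : F = 0 := by
    apply eq_zero_of_natDegree_lt_card_of_eval_eq_zero' _ _ hzero
    have := hq.hD
    unfold D at this
    omega
  have hc := congrArg (fun G => coeff G P.e) hF0
  simp only [coeff_zero] at hc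
  rw [hF, coeff_sub, eval_eq_sum_range' hder, finsetSum_coeff,
    Finset.sum_congr rfl (fun i _ => (hterm i).2), Finset.sum_ite_eq', if_pos, coeff_derivative]
    at hc
  · have h1 : P.eta.coeff (P.e + 1) = 1 := by
      have := P.eta_monic
      rw [Monic, leadingCoeff, P.eta_natDegree, hq.hD] at this
      exact this
    rw [h1] at hc
    apply hq.he
    linear_combination -hc
  · exact Finset.mem_range.2 (by omega)

end PData

end Pool.Agent.Helper801.NucD
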