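import Pool.Agent.Helper801.NucK

open Polynomial

namespace Pool.Agent.Helper801.NucL

open Pool.Agent.Helper801.NucD

variable {K : Type*} [Field K] [DecidableEq K]

omit [DecidableEq K] in
theorem pow_eq_zero_iff_aux {x : K} {n : ℕ} (h : x ^ n = 0) : x = 0 := by
  by_contra h1
  exact pow_ne_zero n h1 h

/-- logarithmic derivative numerator -/
noncomputable def NN (H : Finset K) (g : K → ℕ) : K[X] :=
  ∑ h ∈ H, C (g h : K) * ∏ x ∈ H.erase h, (X - C x)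

theorem mul_derivative_prod (H : Finset K) (g : K → ℕ) :
    (∏ h ∈ H, (X - C h)) * derivative (∏ h ∈ H, (X - C h) ^ g h)
      = (∏ h ∈ H, (X - C h) ^ g h) * NN H g := by
  rw [derivative_prod_finset, Finset.mul_sum, NN, Finset.mul_sum]
  refine Finset.sum_congr rfl fun h hh => ?_
  rw [derivative_X_sub_C_pow, ← Finset.mul_prod_erase H _ hh,
    ← Finset.mul_prod_erase H (fun h => (X - C h) ^ g h) hh]
  by_cases h0 : g h = 0
  · rw [h0]; simp
  · obtain ⟨k, hk⟩ : ∃ k, g h = k + 1 := ⟨g h - 1, by omega⟩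
    rw [hk, Nat.add_sub_cancel]
    ring

theorem NN_natDegree (H : Finset K) (g : K → ℕ) : (NN H g).natDegree ≤ H.card - 1 := by
  rw [NN]
  apply natDegree_sum_le_of_forall_le
  intro h hh
  refine natDegree_mul_le.trans ?_
  rw [natDegree_C, zero_add, natDegree_prod_of_monic _ _ fun _ _ => monic_X_sub_C _]
  simp [Finset.card_erase_of_mem hh]

theorem NN_coeff (H : Finset K) (g : K → ℕ) :
    (NN H g).coeff (H.card - 1) = ((∑ h ∈ H, g h : ℕ) : K) := by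
  rw [NN, finsetSum_coeff, Nat.cast_sum]
  refine Finset.sum_congr rfl fun h hh => ?_
  rw [coeff_C_mul]
  have h1 : (∏ x ∈ H.erase h, (X - C x) : K[X]).Monic :=
    monic_prod_of_monic _ _ fun _ _ => monic_X_sub_C _
  have h2 : (∏ x ∈ H.erase h, (X - C x) : K[X]).natDegree = H.card - 1 := by
    rw [natDegree_prod_of_monic _ _ fun _ _ => monic_X_sub_C _]
    simp [Finset.card_erase_of_mem hh]
  rw [Monic, leadingCoeff, h2] at h1
  rw [h1, mul_one]

theorem NN_eval (H : Finset K) (g : K → ℕ) {h : K} (hh : h ∈ H) :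
    (NN H g).eval h = (g h : K) * (derivative (∏ x ∈ H, (X - C x))).eval h := by
  rw [NN, eval_finsetSum, Finset.sum_eq_single h]
  · rw [eval_mul, eval_C, derivative_prod_eval H hh]
  · intro x hx hne
    rw [eval_mul, eval_prod, Finset.prod_eq_zero (Finset.mem_erase.2 ⟨hne.symm, hh⟩) (by simp),
      mul_zero]
  · intro h1; exact absurd hh h1

theorem step (H : Finset K) (e : ℕ) (he : H.card = e) (he1 : 2 ≤ e)
    (g₁ g₂ : K → ℕ) (hs₁ : ∑ h ∈ H, g₁ h = e - 1) (hs₂ : ∑ h ∈ H, g₂ h = e - 1)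
    (hdisj : ∀ h ∈ H, g₁ h = 0 ∨ g₂ h = 0)
    (hB : derivative (∏ h ∈ H, (X - C h) ^ g₁ h) = derivative (∏ h ∈ H, (X - C h) ^ g₂ h)) :
    NN H g₁ = C ((e : K) - 1) * ∏ h ∈ H, (X - C h) ^ g₂ h := by
  set M : K[X] := ∏ h ∈ H, (X - C h) with hM
  set B₁ : K[X] := ∏ h ∈ H, (X - C h) ^ g₁ h with hB₁
  set B₂ : K[X] := ∏ h ∈ H, (X - C h) ^ g₂ h with hB₂
  have h1 : B₁ * NN H g₁ = B₂ * NN H g₂ := by
    rw [← mul_derivative_prod H g₁, ← mul_derivative_prod H g₂, ← hB₁, ← hB₂, hB]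
  have hcop : IsCoprime B₂ B₁ := by
    rw [hB₁, hB₂]
    apply IsCoprime.prod_left
    intro h hh
    apply IsCoprime.prod_right
    intro x hx
    by_cases hne : h = x
    · subst hne
      rcases hdisj h hh with h2 | h2
      · rw [h2, pow_zero]; exact isCoprime_one_right
      · rw [h2, pow_zero]; exact isCoprime_one_left
    · exact (isCoprime_X_sub_C_of_isUnit_sub (by
        rw [isUnit_iff_ne_zero, sub_ne_zero]; exact hne)).pow
  have hdvd : B₂ ∣ NN H g₁ := by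
    apply hcop.dvd_of_dvd_mul_left
    rw [h1]; exact dvd_mul_right _ _
  obtain ⟨G, hG⟩ := hdvd
  have hmon₂ : B₂.Monic := monic_prod_of_monic _ _ fun _ _ => (monic_X_sub_C _).pow _
  have hdeg₂ : B₂.natDegree = e - 1 := by
    rw [hB₂, natDegree_prod_of_monic _ _ fun _ _ => (monic_X_sub_C _).pow _, ← hs₂]
    simp
  have hG0 : G.natDegree = 0 := by
    by_cases hG1 : G = 0
    · rw [hG1, natDegree_zero]
    have h2 := NN_natDegree H g₁
    rw [hG, hmon₂.natDegree_mul' hG1, hdeg₂, he] at h2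
    omega
  obtain ⟨γ, hγ⟩ : ∃ γ, G = C γ := ⟨_, eq_C_of_natDegree_eq_zero hG0⟩
  have h3 := NN_coeff H g₁
  rw [hG, hγ, coeff_mul_C, he] at h3
  have h4 : B₂.coeff (e - 1) = 1 := by
    rw [Monic, leadingCoeff, hdeg₂] at hmon₂
    exact hmon₂
  rw [h4, one_mul, hs₁, Nat.cast_sub (by omega), Nat.cast_one] at h3
  rw [hG, hγ, h3, mul_comm]

theorem card_le_one (H : Finset K) (e : ℕ) (he : H.card = e) (he1 : 2 ≤ e)
    (g₁ g₂ : K → ℕ) (hs₁ : ∑ h ∈ H, g₁ h = e - 1) (hs₂ : ∑ h ∈ H, g₂ h = e - 1)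
    (hdisj : ∀ h ∈ H, g₁ h = 0 ∨ g₂ h = 0) (heK : (e : K) ≠ 0)
    (ε₁ ε₂ m0 : K) (hm0 : m0 ≠ 0) (h1 : ε₁ ≠ 0)
    (hB₁ : C (e : K) * ∏ h ∈ H, (X - C h) ^ g₁ h = derivative (∏ h ∈ H, (X - C h)) - C ε₁)
    (hB₂ : C (e : K) * ∏ h ∈ H, (X - C h) ^ g₂ h = derivative (∏ h ∈ H, (X - C h)) - C ε₂)
    (hJ : ∀ h ∈ H, h * ((g₁ h + g₂ h + 1 : ℕ) : K) * (derivative (∏ h ∈ H, (X - C h))).eval h = m0) :
    (H.filter fun h => g₁ h ≠ 0).card ≤ 1 := by
  have hB : derivative (∏ h ∈ H, (X - C h) ^ g₁ h) = derivative (∏ h ∈ H, (X - C h) ^ g₂ h) := by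
    have h2 := congrArg derivative hB₁
    have h3 := congrArg derivative hB₂
    rw [derivative_C_mul, derivative_sub, derivative_C] at h2 h3
    exact mul_left_cancel₀ (C_ne_zero.2 heK) (h2.trans h3.symm)
  have hN := step H e he he1 g₁ g₂ hs₁ hs₂ hdisj hB
  have key : ∀ h ∈ H, g₁ h ≠ 0 → (g₁ h : K) * ε₁ = ((e : K) - 1) * ((ε₁ - ε₂) / e) ∧
      h * ((g₁ h : K) + 1) * ε₁ = m0 := by
    intro h hh hg
    have hM : (derivative (∏ x ∈ H, (X - C x))).eval h = ε₁ := by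
      have h2 := congrArg (eval h) hB₁
      rw [eval_mul, eval_prod, Finset.prod_eq_zero hh, mul_zero, eval_sub, eval_C] at h2
      · exact sub_eq_zero.1 h2.symm
      · rw [eval_pow, eval_sub, eval_X, eval_C, sub_self, zero_pow hg]
    constructor
    · have h3 := congrArg (eval h) hN
      rw [NN_eval H g₁ hh, hM, eval_mul, eval_C] at h3
      have h4 := congrArg (eval h) hB₂
      rw [eval_mul, eval_C, eval_sub, eval_C, hM] at h4
      rw [h3, ← h4]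
      field_simp
    · have h3 := hJ h hh
      rw [hM, (hdisj h hh).resolve_left hg] at h3
      push_cast at h3
      rw [← h3]; ring
  rw [Finset.card_le_one]
  intro x hx y hy
  obtain ⟨hx1, hx2⟩ := Finset.mem_filter.1 hx
  obtain ⟨hy1, hy2⟩ := Finset.mem_filter.1 hy
  obtain ⟨a1, a2⟩ := key x hx1 hx2
  obtain ⟨b1, b2⟩ := key y hy1 hy2
  have h5 : (g₁ x : K) = g₁ y := mul_right_cancel₀ h1 (a1.trans b1.symm)
  rw [h5] at a2
  have h6 : ((g₁ y : K) + 1) * ε₁ ≠ 0 := by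
    intro h
    apply hm0
    rw [← b2, mul_assoc, h, mul_zero]
  apply mul_right_cancel₀ h6
  rw [← mul_assoc, ← mul_assoc, a2, b2]

theorem final (H : Finset K) (e : ℕ) (he : H.card = e)
    (g₁ g₂ : K → ℕ) (hs₁ : ∑ h ∈ H, g₁ h = e - 1) (hs₂ : ∑ h ∈ H, g₂ h = e - 1)
    (hdisj : ∀ h ∈ H, g₁ h = 0 ∨ g₂ h = 0) (heK : (e : K) ≠ 0) (heK1 : (e : K) - 1 ≠ 0)
    (ε₁ ε₂ m0 : K) (hm0 : m0 ≠ 0) (h1 : ε₁ ≠ 0) (h2 : ε₂ ≠ 0)
    (hB₁ : C (e : K) * ∏ h ∈ H, (X - C h) ^ g₁ h = derivative (∏ h ∈ H, (X - C h)) - C ε₁)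
    (hB₂ : C (e : K) * ∏ h ∈ H, (X - C h) ^ g₂ h = derivative (∏ h ∈ H, (X - C h)) - C ε₂)
    (hJ : ∀ h ∈ H, h * ((g₁ h + g₂ h + 1 : ℕ) : K) * (derivative (∏ h ∈ H, (X - C h))).eval h = m0) :
    e ≤ 2 := by
  by_contra hlt
  have he1 : 2 ≤ e := by omega
  have hB : derivative (∏ h ∈ H, (X - C h) ^ g₁ h) = derivative (∏ h ∈ H, (X - C h) ^ g₂ h) := by
    have h2 := congrArg derivative hB₁
    have h3 := congrArg derivative hB₂
    rw [derivative_C_mul, derivative_sub, derivative_C] at h2 h3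
    exact mul_left_cancel₀ (C_ne_zero.2 heK) (h2.trans h3.symm)
  have hN := step H e he he1 g₁ g₂ hs₁ hs₂ hdisj hB
  have hc1 := card_le_one H e he he1 g₁ g₂ hs₁ hs₂ hdisj heK ε₁ ε₂ m0 hm0 h1 hB₁ hB₂ hJ
  have hc2 := card_le_one H e he he1 g₂ g₁ hs₂ hs₁ (fun h hh => (hdisj h hh).symm) heK ε₂ ε₁ m0 hm0
    h2 hB₂ hB₁ (fun h hh => by rw [add_comm (g₂ h)]; exact hJ h hh)
  have hcov : H ⊆ (H.filter fun h => g₁ h ≠ 0) ∪ (H.filter fun h => g₂ h ≠ 0) := by
    intro h hh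
    rw [Finset.mem_union, Finset.mem_filter, Finset.mem_filter]
    by_contra hcon
    push Not at hcon
    have a1 := hcon.1 hh
    have a2 := hcon.2 hh
    have h3 := congrArg (eval h) hN
    rw [NN_eval H g₁ hh, a1, Nat.cast_zero, zero_mul, eval_mul, eval_C, eval_prod] at h3
    rcases mul_eq_zero.1 h3.symm with h4 | h4
    · exact heK1 h4
    · rw [Finset.prod_eq_zero_iff] at h4
      obtain ⟨x, hx, h5⟩ := h4
      rw [eval_pow, eval_sub, eval_X, eval_C] at h5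
      by_cases hne : h = x
      · subst hne
        rw [a2, pow_zero] at h5
        exact one_ne_zero h5
      · exact hne (sub_eq_zero.1 (pow_eq_zero_iff_aux h5))
  have := Finset.card_le_card hcov
  have := Finset.card_union_le (H.filter fun h => g₁ h ≠ 0) (H.filter fun h => g₂ h ≠ 0)
  omega

end Pool.Agent.Helper801.NucL
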