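import Mathlib

open Polynomial

namespace Pool.Agent.Helper801.NucM

variable {K : Type*} [Field K]

/-- determinant of two vectors -/
def det (v w : K × K) : K := v.1 * w.2 - v.2 * w.1

theorem det_self (v : K × K) : det v v = 0 := by simp [det]; ring

theorem det_swap (v w : K × K) : det v w = - det w v := by simp [det]; ring

theorem det_smul_left (r : K) (v w : K × K) : det (r • v) w = r * det v w := by
  simp [det]; ring

theorem det_smul_right (r : K) (v w : K × K) : det v (r • w) = r * det v w := by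
  simp [det]; ring

theorem det_add_right (v w x : K × K) : det v (w + x) = det v w + det v x := by
  simp [det]; ring

theorem det_sub_right (v w x : K × K) : det v (w - x) = det v w - det v x := by
  simp [det]; ring

theorem det_add_left (v w x : K × K) : det (v + w) x = det v x + det w x := by
  simp [det]; ring

theorem det_sub_left (v w x : K × K) : det (v - w) x = det v x - det w x := by
  simp [det]; ring

theorem exists_of_det_eq_zero {v w : K × K} (hv : v ≠ 0) (h : det v w = 0) : ∃ r : K, w = r • v := by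
  have h' : v.1 * w.2 - v.2 * w.1 = 0 := h
  by_cases h1 : v.1 = 0
  · have h2 : v.2 ≠ 0 := fun h2 => hv (Prod.ext h1 h2)
    have h3 : w.1 = 0 := by
      rw [h1] at h'
      have : v.2 * w.1 = 0 := by linear_combination -h'
      exact (mul_eq_zero.1 this).resolve_left h2
    refine ⟨w.2 / v.2, Prod.ext ?_ ?_⟩
    · simp [h1, h3]
    · simp [div_mul_cancel₀ _ h2]
  · refine ⟨w.1 / v.1, Prod.ext ?_ ?_⟩
    · simp [div_mul_cancel₀ _ h1]
    · simp only [Prod.smul_snd, smul_eq_mul]
      field_simp
      linear_combination h'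

/-- if det v w ≠ 0 then v w is a basis -/
theorem det_cramer (v w x : K × K) : det v w • x = det x w • v + det v x • w := by
  apply Prod.ext <;> simp [det] <;> ring

theorem det_eq_zero_of {d v w : K × K} (hd : d ≠ 0) (h1 : det d v = 0) (h2 : det d w = 0) :
    det v w = 0 := by
  obtain ⟨a, rfl⟩ := exists_of_det_eq_zero hd h1
  obtain ⟨b, rfl⟩ := exists_of_det_eq_zero hd h2
  rw [det_smul_left, det_smul_right, det_self]; ring

variable [DecidableEq K]

/-- label of a vector -/
def lab (v : K × K) : K := if v.1 = 0 then v.2 else v.1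

/-- slope of a vector -/
def slope (v : K × K) : Option K := if v.1 = 0 then none else some (v.2 / v.1)

def rep : Option K → K × K
  | none => (0, 1)
  | some m => (1, m)

theorem lab_smul_rep (v : K × K) : lab v • rep (slope v) = v := by
  unfold lab slope
  split_ifs with h
  · apply Prod.ext <;> simp [rep, h]
  · apply Prod.ext
    · simp [rep]
    · simp only [rep, Prod.smul_snd, smul_eq_mul]
      field_simp

theorem lab_ne {v : K × K} (hv : v ≠ 0) : lab v ≠ 0 := by
  intro h
  apply hv
  rw [← lab_smul_rep v, h, zero_smul]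

theorem det_lab (v w : K × K) :
    det v w = lab v * lab w * det (rep (slope v)) (rep (slope w)) := by
  conv_lhs => rw [← lab_smul_rep v, ← lab_smul_rep w]
  rw [det_smul_left, det_smul_right]; ring

variable [Fintype K]

theorem prod_erase_sub (m : K) : ∏ x ∈ Finset.univ.erase m, (x - m) = -1 := by
  have h1 : ∏ x ∈ Finset.univ.erase m, (x - m) = ∏ x ∈ Finset.univ.erase (0 : K), x := by
    refine Finset.prod_nbij' (fun x => x - m) (fun x => x + m) ?_ ?_ ?_ ?_ ?_
    · intro a ha
      rw [Finset.mem_erase] at *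
      exact ⟨sub_ne_zero.2 ha.1, Finset.mem_univ _⟩
    · intro a ha
      rw [Finset.mem_erase] at *
      exact ⟨by simpa using ha.1, Finset.mem_univ _⟩
    · intro a _; ring
    · intro a _; ring
    · intro a _; rfl
  rw [h1]
  have h2 := FiniteField.prod_univ_units_id_eq_neg_one (K := K)
  have h3 : ((∏ x : Kˣ, x : Kˣ) : K) = -1 := by rw [h2]; simp
  rw [← h3, Units.coe_prod]
  symm
  refine Finset.prod_bij (fun x _ => (x : K)) ?_ ?_ ?_ ?_
  · intro a _
    exact Finset.mem_erase.2 ⟨a.ne_zero, Finset.mem_univ _⟩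
  · intro a _ b _ h; exact Units.ext h
  · intro b hb
    exact ⟨Units.mk0 b (Finset.ne_of_mem_erase hb), Finset.mem_univ _, rfl⟩
  · intro a _; rfl

omit [DecidableEq K] in
theorem neg_one_pow_card : (-1 : K) ^ Fintype.card K = -1 := FiniteField.pow_card _

theorem prod_det_rep (σ₀ : Option K) :
    ∏ σ ∈ Finset.univ.erase σ₀, det (rep σ₀) (rep σ) = -1 := by
  classical
  cases σ₀ with
  | none =>
    have h1 : (Finset.univ.erase (none : Option K)) = Finset.univ.image (some : K → Option K) := by
      ext x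
      cases x <;> simp
    rw [h1, Finset.prod_image (fun a _ b _ h => Option.some_injective _ h)]
    have h2 : ∀ x : K, det (rep none) (rep (some x)) = -1 := by
      intro x; simp [det, rep]
    simp only [h2, Finset.prod_const, Finset.card_univ]
    exact neg_one_pow_card
  | some m =>
    have h1 : (Finset.univ.erase (some m : Option K))
        = insert none ((Finset.univ.erase m).image (some : K → Option K)) := by
      ext x
      cases x <;> simp
    rw [h1, Finset.prod_insert (by simp), Finset.prod_image (fun a _ b _ h => Option.some_injective _ h)]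
    have h2 : ∀ x : K, det (rep (some m)) (rep (some x)) = x - m := by
      intro x; simp [det, rep]
    have h3 : det (rep (some m)) (rep (none : Option K)) = 1 := by simp [det, rep]
    simp only [h2, h3, one_mul]
    exact prod_erase_sub m

/-- a set of points with many nuclei -/
structure Conf (K : Type*) [Field K] [DecidableEq K] [Fintype K] where
  S : Finset (K × K)
  N : Finset (K × K)
  hS : S.card = Fintype.card K + 1
  hN : N.card + 1 = Fintype.card K
  hnot : ∀ n ∈ N, n ∉ S
  hnuc : ∀ n ∈ N, ∀ d : K × K, d ≠ 0 → ∃ r : K, n + r • d ∈ S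
  hall : ∀ n : K × K, n ∉ S → (∀ d : K × K, d ≠ 0 → ∃ r : K, n + r • d ∈ S) → n ∈ N

namespace Conf

variable (Γ : Conf K)

theorem sub_ne {n s : K × K} (hn : n ∈ Γ.N) (hs : s ∈ Γ.S) : s - n ≠ 0 := by
  intro h
  exact Γ.hnot n hn (by rw [← sub_eq_zero.1 h]; exact hs)

theorem slope_image {n : K × K} (hn : n ∈ Γ.N) :
    Γ.S.image (fun s => slope (s - n)) = Finset.univ := by
  classical
  rw [Finset.eq_univ_iff_forall]
  intro σ
  have hr : rep σ ≠ (0 : K × K) := by
    cases σ with
    | none => intro h; have := congrArg Prod.snd h; simp [rep] at this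
    | some m => intro h; have := congrArg Prod.fst h; simp [rep] at this
  obtain ⟨r, hr2⟩ := Γ.hnuc n hn (rep σ) hr
  have hr0 : r ≠ 0 := by
    rintro rfl
    rw [zero_smul, add_zero] at hr2
    exact Γ.hnot n hn hr2
  refine Finset.mem_image.2 ⟨_, hr2, ?_⟩
  rw [add_sub_cancel_left]
  cases σ with
  | none => simp [slope, rep]
  | some m => simp [slope, rep, hr0]

theorem slope_inj {n : K × K} (hn : n ∈ Γ.N) :
    Set.InjOn (fun s => slope (s - n)) (Γ.S : Set (K × K)) := by
  classical
  rw [← Finset.card_image_iff, Γ.slope_image hn, Finset.card_univ, Fintype.card_option, Γ.hS]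

/-- a line through a nucleus contains only one point of S -/
theorem eq_of_det {n s s' : K × K} (hn : n ∈ Γ.N) (hs : s ∈ Γ.S) (hs' : s' ∈ Γ.S)
    (h : det (s - n) (s' - n) = 0) : s = s' := by
  apply Γ.slope_inj hn hs hs'
  show slope (s - n) = slope (s' - n)
  rw [det_lab] at h
  have h1 := lab_ne (Γ.sub_ne hn hs)
  have h2 := lab_ne (Γ.sub_ne hn hs')
  have h3 := (mul_eq_zero.1 h).resolve_left (mul_ne_zero h1 h2)
  revert h3
  cases slope (s - n) <;> cases slope (s' - n) <;> simp [rep, det]
  intro h3
  linear_combination -h3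

/-- the label product of a nucleus -/
def cc (n : K × K) : K := ∏ s ∈ Γ.S, lab (s - n)

theorem cc_ne {n : K × K} (hn : n ∈ Γ.N) : Γ.cc n ≠ 0 :=
  Finset.prod_ne_zero_iff.2 fun _ hs => lab_ne (Γ.sub_ne hn hs)

theorem lemma1 {n s₀ : K × K} (hn : n ∈ Γ.N) (hs₀ : s₀ ∈ Γ.S) :
    ∏ s ∈ Γ.S.erase s₀, det (s₀ - n) (s - n) = - Γ.cc n := by
  classical
  have h1 : ∏ s ∈ Γ.S.erase s₀, det (s₀ - n) (s - n)
      = (lab (s₀ - n)) ^ Fintype.card K * (∏ s ∈ Γ.S.erase s₀, lab (s - n)) *
        ∏ s ∈ Γ.S.erase s₀, det (rep (slope (s₀ - n))) (rep (slope (s - n))) := by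
    have h2 : (lab (s₀ - n)) ^ Fintype.card K = ∏ s ∈ Γ.S.erase s₀, lab (s₀ - n) := by
      rw [Finset.prod_const, Finset.card_erase_of_mem hs₀, Γ.hS, Nat.add_sub_cancel]
    rw [h2, ← Finset.prod_mul_distrib, ← Finset.prod_mul_distrib]
    exact Finset.prod_congr rfl fun s _ => det_lab _ _
  have h3 : ∏ s ∈ Γ.S.erase s₀, det (rep (slope (s₀ - n))) (rep (slope (s - n))) = -1 := by
    rw [← prod_det_rep (slope (s₀ - n))]
    have h4 : Finset.univ.erase (slope (s₀ - n))
        = (Γ.S.erase s₀).image (fun s => slope (s - n)) := by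
      rw [← Γ.slope_image hn]
      ext x
      simp only [Finset.mem_erase, Finset.mem_image]
      constructor
      · rintro ⟨h5, s, hs, rfl⟩
        exact ⟨s, ⟨fun h => h5 (by rw [h]), hs⟩, rfl⟩
      · rintro ⟨s, ⟨h5, hs⟩, rfl⟩
        exact ⟨fun h => h5 (Γ.slope_inj hn hs hs₀ h), s, hs, rfl⟩
    rw [h4, Finset.prod_image]
    intro a ha b hb h
    exact Γ.slope_inj hn (Finset.mem_of_mem_erase ha) (Finset.mem_of_mem_erase hb) h
  rw [h1, h3, FiniteField.pow_card, cc, ← Finset.mul_prod_erase Γ.S _ hs₀]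
  ring

theorem lemma2 {n n' s : K × K} (hn : n ∈ Γ.N) (hn' : n' ∈ Γ.N) (hne : n ≠ n') (hs : s ∈ Γ.S)
    (h : det (n' - n) (s - n) = 0) :
    (Γ.cc n)⁻¹ • (n - s) = (Γ.cc n')⁻¹ • (n' - s) ∧ (Γ.cc n)⁻¹ ≠ (Γ.cc n')⁻¹ := by
  classical
  have hd : n' - n ≠ 0 := sub_ne_zero.2 hne.symm
  obtain ⟨r, hr⟩ := exists_of_det_eq_zero hd h
  have hr' : s - n' = (r - 1) • (n' - n) := by
    rw [sub_smul, one_smul, ← hr]; abel
  set k := ∏ x ∈ Γ.S.erase s, det (n' - n) (x - n) with hk
  have hcard : (Γ.S.erase s).card = Fintype.card K := by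
    rw [Finset.card_erase_of_mem hs, Γ.hS, Nat.add_sub_cancel]
  have h1 : - Γ.cc n = r * k := by
    rw [← Γ.lemma1 hn hs]
    have : ∀ x ∈ Γ.S.erase s, det (s - n) (x - n) = r * det (n' - n) (x - n) := by
      intro x _; rw [hr, det_smul_left]
    rw [Finset.prod_congr rfl this, Finset.prod_mul_distrib, Finset.prod_const, hcard,
      FiniteField.pow_card]
  have h2 : - Γ.cc n' = (r - 1) * k := by
    rw [← Γ.lemma1 hn' hs]
    have : ∀ x ∈ Γ.S.erase s, det (s - n') (x - n') = (r - 1) * det (n' - n) (x - n) := by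
      intro x _
      rw [hr', det_smul_left]
      congr 1
      have h3 : x - n' = (x - n) - (n' - n) := by abel
      rw [h3, det_sub_right, det_self, sub_zero]
    rw [Finset.prod_congr rfl this, Finset.prod_mul_distrib, Finset.prod_const, hcard,
      FiniteField.pow_card]
  have hc1 := Γ.cc_ne hn
  have hc2 := Γ.cc_ne hn'
  constructor
  · have h3 : n - s = (-r) • (n' - n) := by
      rw [neg_smul, ← hr]; abel
    have h4 : n' - s = (-(r - 1)) • (n' - n) := by
      rw [neg_smul, ← hr']; abel
    rw [h3, h4, smul_smul, smul_smul]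
    congr 1
    field_simp
    linear_combination r * h2 - (r - 1) * h1
  · intro h3
    have h4 := inv_injective h3
    have h5 : k = 0 := by
      have : r * k = (r - 1) * k := by rw [← h1, ← h2, h4]
      linear_combination this
    rw [h5, mul_zero, neg_eq_zero] at h1
    exact hc1 h1

end Conf

end Pool.Agent.Helper801.NucM
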