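import Pool.Agent.Helper801.NucM

open Polynomial

namespace Pool.Agent.Helper801.NucM

variable {K : Type*} [Field K] [DecidableEq K] [Fintype K]

namespace Conf

variable (Γ : Conf K)

/-- weight of a nucleus -/
def ac (n : K × K) : K := (Γ.cc n)⁻¹

theorem ac_ne {n : K × K} (hn : n ∈ Γ.N) : Γ.ac n ≠ 0 := inv_ne_zero (Γ.cc_ne hn)

theorem exists_s {n n' : K × K} (hn : n ∈ Γ.N) (hn' : n' ∈ Γ.N) (hne : n ≠ n') :
    ∃ s ∈ Γ.S, det (n' - n) (s - n) = 0 ∧ Γ.ac n • (n - s) = Γ.ac n' • (n' - s) ∧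
      Γ.ac n ≠ Γ.ac n' := by
  obtain ⟨r, hr⟩ := Γ.hnuc n hn (n' - n) (sub_ne_zero.2 hne.symm)
  have h1 : det (n' - n) ((n + r • (n' - n)) - n) = 0 := by
    rw [add_sub_cancel_left, det_smul_right, det_self, mul_zero]
  exact ⟨_, hr, h1, Γ.lemma2 hn hn' hne hr h1⟩

theorem ac_inj {n n' : K × K} (hn : n ∈ Γ.N) (hn' : n' ∈ Γ.N) (h : Γ.ac n = Γ.ac n') : n = n' := by
  by_contra hne
  obtain ⟨s, -, -, -, h2⟩ := Γ.exists_s hn hn' hne
  exact h2 h

/-- scaled difference -/
def uv (s n : K × K) : K × K := Γ.ac n • (n - s)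

theorem uv_ne {s n : K × K} (hs : s ∈ Γ.S) (hn : n ∈ Γ.N) : Γ.uv s n ≠ 0 := by
  unfold uv
  refine smul_ne_zero (Γ.ac_ne hn) ?_
  rw [← neg_sub, neg_ne_zero]
  exact Γ.sub_ne hn hs

theorem det_of_uv {s n n' : K × K} (hn' : n' ∈ Γ.N) (h : Γ.uv s n = Γ.uv s n') :
    det (n - s) (n' - s) = 0 := by
  have h1 : Γ.ac n' * det (n - s) (n' - s) = 0 := by
    rw [← det_smul_right]
    have : Γ.ac n' • (n' - s) = Γ.ac n • (n - s) := h.symm
    rw [this, det_smul_right, det_self, mul_zero]
  exact (mul_eq_zero.1 h1).resolve_left (Γ.ac_ne hn')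

theorem uv_of_det {s n n' : K × K} (hs : s ∈ Γ.S) (hn : n ∈ Γ.N) (hn' : n' ∈ Γ.N)
    (h : det (n - s) (n' - s) = 0) : Γ.uv s n = Γ.uv s n' := by
  by_cases hne : n = n'
  · rw [hne]
  · refine (Γ.lemma2 hn hn' hne hs ?_).1
    have h1 : n' - n = (n' - s) - (n - s) := by abel
    have h2 : s - n = (-1 : K) • (n - s) := by rw [neg_one_smul]; abel
    rw [h1, h2, det_smul_right, det_sub_left, det_self, det_swap, h]; ring

theorem uv_sub {s n n' : K × K} (hn : n ∈ Γ.N) (hn' : n' ∈ Γ.N)
    (hne : Γ.uv s n ≠ Γ.uv s n') : ∃ s' ∈ Γ.S, s' ≠ s ∧ ∃ c : K, c ≠ 0 ∧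
      Γ.uv s n - Γ.uv s n' = c • (s' - s) := by
  have hnn : n ≠ n' := by rintro rfl; exact hne rfl
  obtain ⟨s', hs', -, h1, h2⟩ := Γ.exists_s hn hn' hnn
  refine ⟨s', hs', ?_, Γ.ac n - Γ.ac n', sub_ne_zero.2 h2, ?_⟩
  · rintro rfl; exact hne h1
  · unfold uv
    have h3 : Γ.ac n • (n - s) = Γ.ac n • (n - s') + Γ.ac n • (s' - s) := by
      rw [← smul_add]; congr 1; abel
    have h4 : Γ.ac n' • (n' - s) = Γ.ac n' • (n' - s') + Γ.ac n' • (s' - s) := by
      rw [← smul_add]; congr 1; abel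
    rw [h3, h4, h1, sub_smul]; abel

theorem det_ne {s s' n : K × K} (hs : s ∈ Γ.S) (hs' : s' ∈ Γ.S) (hne : s' ≠ s) (hn : n ∈ Γ.N) :
    det (n - s) (s' - s) ≠ 0 := by
  intro h
  apply hne
  apply Γ.eq_of_det hn hs' hs
  have h1 : s' - n = (s' - s) - (n - s) := by abel
  have h2 : s - n = (-1 : K) • (n - s) := by rw [neg_one_smul]; abel
  rw [h1, h2, det_smul_right, det_sub_left, det_self, det_swap, h]; ring

theorem det_uv (s n p : K × K) : det p (Γ.uv s n) = Γ.ac n * det p (n - s) := by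
  rw [uv, det_smul_right]

/-- bijection property -/
theorem h0_prop {s p : K × K} {c : K} (hc : c ≠ 0)
    (h : ∀ s' ∈ Γ.S, s' ≠ s → c + det p (s' - s) ≠ 0) :
    (∀ n ∈ Γ.N, ∀ n' ∈ Γ.N, Γ.ac n * c + det p (Γ.uv s n) = Γ.ac n' * c + det p (Γ.uv s n') →
      n = n') ∧ ∀ n ∈ Γ.N, Γ.ac n * c + det p (Γ.uv s n) ≠ 0 := by
  constructor
  · intro n hn n' hn' heq
    by_contra hne
    obtain ⟨s', hs', -, h1, h2⟩ := Γ.exists_s hn hn' hne
    have h3 : Γ.uv s n = Γ.ac n • (n - s') + Γ.ac n • (s' - s) := by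
      rw [← smul_add, uv]; congr 1; abel
    have h4 : Γ.uv s n' = Γ.ac n' • (n' - s') + Γ.ac n' • (s' - s) := by
      rw [← smul_add, uv]; congr 1; abel
    rw [h3, h4, h1] at heq
    simp only [det_add_right, det_smul_right] at heq
    have h5 : (Γ.ac n - Γ.ac n') * (c + det p (s' - s)) = 0 := by linear_combination heq
    rcases mul_eq_zero.1 h5 with h6 | h6
    · exact h2 (sub_eq_zero.1 h6)
    · by_cases hss : s' = s
      · rw [hss, sub_self] at h6
        simp [det] at h6
        exact hc h6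
      · exact h s' hs' hss h6
  · intro n hn h1
    rw [det_uv, ← mul_add] at h1
    have h2 := (mul_eq_zero.1 h1).resolve_left (Γ.ac_ne hn)
    have hp : p ≠ 0 := by
      rintro rfl
      simp [det] at h2
      exact hc h2
    obtain ⟨r, hr⟩ := Γ.hnuc n hn p hp
    have h3 : c + det p ((n + r • p) - s) = 0 := by
      have : (n + r • p) - s = (n - s) + r • p := by abel
      rw [this, det_add_right, det_smul_right, det_self, mul_zero, add_zero, h2]
    by_cases hss : n + r • p = s
    · rw [hss, sub_self] at h3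
      simp [det] at h3
      exact hc h3
    · exact h _ hr hss h3

theorem N_nonempty : Γ.N.Nonempty := by
  rw [← Finset.card_pos]
  have := Γ.hN
  have : 1 < Fintype.card K := Fintype.one_lt_card
  omega

theorem S_nonempty : Γ.S.Nonempty := by
  rw [← Finset.card_pos, Γ.hS]; omega

theorem sum_eq_zero (hq : 2 < Fintype.card K) (f : K × K → K) (hinj : ∀ n ∈ Γ.N, ∀ n' ∈ Γ.N,
    f n = f n' → n = n') (h0 : ∀ n ∈ Γ.N, f n ≠ 0) : ∑ n ∈ Γ.N, f n = 0 := by
  have h1 : Γ.N.image f = Finset.univ.erase (0 : K) := by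
    apply Finset.eq_of_subset_of_card_le
    · intro x hx
      obtain ⟨n, hn, rfl⟩ := Finset.mem_image.1 hx
      exact Finset.mem_erase.2 ⟨h0 n hn, Finset.mem_univ _⟩
    · rw [Finset.card_erase_of_mem (Finset.mem_univ _), Finset.card_image_of_injOn
        (fun a ha b hb h => hinj a ha b hb h), Finset.card_univ]
      have := Γ.hN
      omega
  have h2 : ∑ n ∈ Γ.N, f n = ∑ x ∈ Γ.N.image f, x := by
    rw [Finset.sum_image (fun a ha b hb h => hinj a ha b hb h)]
  rw [h2, h1]
  have h3 := FiniteField.sum_pow_lt_card_sub_one K 1 (by omega)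
  rw [← Finset.add_sum_erase _ _ (Finset.mem_univ (0 : K))] at h3
  simpa using h3

theorem sum_ac (hq : 2 < Fintype.card K) : ∑ n ∈ Γ.N, Γ.ac n = 0 :=
  Γ.sum_eq_zero hq _ (fun _ hn _ hn' h => Γ.ac_inj hn hn' h) (fun _ hn => Γ.ac_ne hn)

/-- the weighted centre -/
def vv : K × K := ∑ n ∈ Γ.N, Γ.ac n • n

theorem sum_uv (hq : 2 < Fintype.card K) (s : K × K) : ∑ n ∈ Γ.N, Γ.uv s n = Γ.vv := by
  unfold uv vv
  simp only [smul_sub, Finset.sum_sub_distrib]
  rw [← Finset.sum_smul, Γ.sum_ac hq, zero_smul, sub_zero]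

omit [Fintype K] in
theorem det_sum (p : K × K) (f : K × K → K × K) (T : Finset (K × K)) :
    det p (∑ n ∈ T, f n) = ∑ n ∈ T, det p (f n) := by
  classical
  induction T using Finset.induction_on with
  | empty => simp [det]
  | insert a T ha ih => rw [Finset.sum_insert ha, Finset.sum_insert ha, det_add_right, ih]

theorem det_vv (hq : 2 < Fintype.card K) {s p : K × K} {c : K} (hs : s ∈ Γ.S)
    (h : ∀ s' ∈ Γ.S, c + det p (s' - s) ≠ 0) : det p Γ.vv = 0 := by
  have hc : c ≠ 0 := by
    have := h s hs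
    rw [sub_self] at this
    simpa [det] using this
  obtain ⟨h1, h2⟩ := Γ.h0_prop hc (fun s' hs' _ => h s' hs')
  have h3 := Γ.sum_eq_zero hq _ h1 h2
  rw [Finset.sum_add_distrib, ← Finset.sum_mul, Γ.sum_ac hq, zero_mul, zero_add, ← det_sum,
    Γ.sum_uv hq] at h3
  exact h3

/-- points outside S on a line of direction vv meeting S are nuclei -/
theorem mem_N_of (hq : 2 < Fintype.card K) {P : K × K} (hP : P ∉ Γ.S)
    (r₀ : K) (h : P + r₀ • Γ.vv ∈ Γ.S) : P ∈ Γ.N := by
  apply Γ.hall P hP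
  intro d hd
  by_contra hcon
  push Not at hcon
  obtain ⟨s, hs⟩ := Γ.S_nonempty
  have h1 : ∀ s' ∈ Γ.S, det d (s - P) + det d (s' - s) ≠ 0 := by
    intro s' hs' h2
    rw [← det_add_right] at h2
    have h3 : (s - P) + (s' - s) = s' - P := by abel
    rw [h3] at h2
    obtain ⟨r, hr⟩ := exists_of_det_eq_zero hd h2
    apply hcon r
    rw [← hr, add_sub_cancel]
    exact hs'
  have h2 := Γ.det_vv hq hs h1
  obtain ⟨r, hr⟩ := exists_of_det_eq_zero hd h2
  apply hcon (r₀ * r)
  rw [mul_smul, ← hr]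
  exact h

/-- all nuclei on a line -/
def Coll : Prop := ∃ s₀ ∈ Γ.S, ∃ d : K × K, d ≠ 0 ∧ ∀ n ∈ Γ.N, det d (n - s₀) = 0

theorem coll_of_vv_ne (hq : 2 < Fintype.card K) (hv : Γ.vv ≠ 0) : Γ.Coll := by
  classical
  have hline : ∀ s : K × K, (Finset.univ.image (fun r : K => s + r • Γ.vv)).card
      = Fintype.card K := by
    intro s
    rw [Finset.card_image_of_injective, Finset.card_univ]
    intro r r' h
    have h1 : r • Γ.vv = r' • Γ.vv := add_left_cancel h
    have h2 : (r - r') • Γ.vv = 0 := by rw [sub_smul, h1, sub_self]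
    exact sub_eq_zero.1 ((smul_eq_zero.1 h2).resolve_right hv)
  by_cases hex : ∃ s ∈ Γ.S, ∃ r : K, s + r • Γ.vv ∉ Γ.S
  · obtain ⟨s, hs, r, hr⟩ := hex
    have h1 : s + r • Γ.vv ∈ Γ.N := by
      apply Γ.mem_N_of hq hr (-r)
      rw [neg_smul, add_neg_cancel_right]; exact hs
    have h2 : ∀ r' : K, r' ≠ 0 → s + r' • Γ.vv ∉ Γ.S := by
      intro r' hr' h3
      have h4 := Γ.eq_of_det h1 hs h3 (by
        have a1 : s - (s + r • Γ.vv) = (-r) • Γ.vv := by rw [neg_smul]; abel
        have a2 : s + r' • Γ.vv - (s + r • Γ.vv) = (r' - r) • Γ.vv := by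
          rw [sub_smul]; abel
        rw [a1, a2, det_smul_left, det_smul_right, det_self]; ring)
      have h5 : r' • Γ.vv = 0 := by
        have : s + r' • Γ.vv = s + 0 := by rw [← h4, add_zero]
        exact add_left_cancel this
      exact hr' ((smul_eq_zero.1 h5).resolve_right hv)
    have h3 : (Finset.univ.image (fun r : K => s + r • Γ.vv)).erase s ⊆ Γ.N := by
      intro x hx
      obtain ⟨hx1, hx2⟩ := Finset.mem_erase.1 hx
      obtain ⟨r', -, rfl⟩ := Finset.mem_image.1 hx2
      have hr' : r' ≠ 0 := by rintro rfl; apply hx1; simp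
      apply Γ.mem_N_of hq (h2 r' hr') (-r')
      rw [neg_smul, add_neg_cancel_right]; exact hs
    have h4 := Finset.eq_of_subset_of_card_le h3 (by
      rw [Finset.card_erase_of_mem (Finset.mem_image.2 ⟨0, Finset.mem_univ _, by simp⟩), hline]
      have := Γ.hN
      omega)
    refine ⟨s, hs, Γ.vv, hv, ?_⟩
    intro n hn
    rw [← h4] at hn
    obtain ⟨r', -, rfl⟩ := Finset.mem_image.1 (Finset.mem_of_mem_erase hn)
    rw [add_sub_cancel_left, det_smul_right, det_self, mul_zero]
  · exfalso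
    push Not at hex
    obtain ⟨s, hs⟩ := Γ.S_nonempty
    set T := Finset.univ.image (fun r : K => s + r • Γ.vv) with hT
    have hTS : T ⊆ Γ.S := by
      intro x hx
      obtain ⟨r', -, rfl⟩ := Finset.mem_image.1 hx
      exact hex s hs r'
    have hT1 : T.card = Fintype.card K := hline s
    obtain ⟨s', hs', hs'T⟩ : ∃ s' ∈ Γ.S, s' ∉ T := by
      by_contra hcon
      push Not at hcon
      have := Finset.card_le_card (show Γ.S ⊆ T from hcon)
      rw [hT1, Γ.hS] at this
      omega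
    set T' := Finset.univ.image (fun r : K => s' + r • Γ.vv) with hT'
    have hTS' : T' ⊆ Γ.S := by
      intro x hx
      obtain ⟨r', -, rfl⟩ := Finset.mem_image.1 hx
      exact hex s' hs' r'
    have hdis : Disjoint T T' := by
      rw [Finset.disjoint_left]
      intro x hx hx'
      obtain ⟨r, -, rfl⟩ := Finset.mem_image.1 hx
      obtain ⟨r', -, h1⟩ := Finset.mem_image.1 hx'
      apply hs'T
      refine Finset.mem_image.2 ⟨r - r', Finset.mem_univ _, ?_⟩
      have h2 : s' + r' • Γ.vv = s + r • Γ.vv := h1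
      show s + (r - r') • Γ.vv = s'
      rw [sub_smul, ← add_sub_assoc, ← h2, add_sub_cancel_right]
    have h1 := Finset.card_le_card (Finset.union_subset hTS hTS')
    rw [Finset.card_union_of_disjoint hdis, hT1, hline s', Γ.hS] at h1
    omega

theorem coll_of_two (hq : Fintype.card K ≤ 2) : Γ.Coll := by
  obtain ⟨s, hs⟩ := Γ.S_nonempty
  obtain ⟨n, hn⟩ := Γ.N_nonempty
  refine ⟨s, hs, n - s, ?_, ?_⟩
  · rw [← neg_sub, neg_ne_zero]; exact Γ.sub_ne hn hs
  · intro m hm
    have h1 : Γ.N.card ≤ 1 := by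
      have := Γ.hN
      omega
    rw [Finset.card_le_one.1 h1 m hm n hn, det_self]

/-- collinear nuclei : S is a line and a point -/
theorem type_one (h : Γ.Coll) : ∃ s₀ ∈ Γ.S, ∃ P d : K × K, d ≠ 0 ∧ det d (s₀ - P) ≠ 0 ∧
    ∀ x, x ∈ Γ.S ↔ x = s₀ ∨ ∃ r : K, x = P + r • d := by
  classical
  obtain ⟨s₀, hs₀, d, hd, hN⟩ := h
  have hline : ∀ s : K × K, (Finset.univ.image (fun r : K => s + r • d)).card
      = Fintype.card K := by
    intro s
    rw [Finset.card_image_of_injective, Finset.card_univ]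
    intro r r' h
    have h1 : r • d = r' • d := add_left_cancel h
    have h2 : (r - r') • d = 0 := by rw [sub_smul, h1, sub_self]
    exact sub_eq_zero.1 ((smul_eq_zero.1 h2).resolve_right hd)
  -- every point of the line except s₀ is a nucleus
  have hsub : Γ.N ⊆ (Finset.univ.image (fun r : K => s₀ + r • d)).erase s₀ := by
    intro n hn
    refine Finset.mem_erase.2 ⟨?_, ?_⟩
    · rintro rfl; exact Γ.hnot _ hn hs₀
    · obtain ⟨r, hr⟩ := exists_of_det_eq_zero hd (hN n hn)
      exact Finset.mem_image.2 ⟨r, Finset.mem_univ _, by rw [← hr]; abel⟩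
  have hNeq := Finset.eq_of_subset_of_card_le hsub (by
    rw [Finset.card_erase_of_mem (Finset.mem_image.2 ⟨0, Finset.mem_univ _, by simp⟩), hline]
    have := Γ.hN
    omega)
  have hmem : ∀ r : K, r ≠ 0 → s₀ + r • d ∈ Γ.N := by
    intro r hr
    rw [hNeq]
    refine Finset.mem_erase.2 ⟨?_, Finset.mem_image_of_mem _ (Finset.mem_univ _)⟩
    intro h1
    have h2 : r • d = 0 := by
      have : s₀ + r • d = s₀ + 0 := by rw [h1, add_zero]
      exact add_left_cancel this
    exact hr ((smul_eq_zero.1 h2).resolve_right hd)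
  -- the other points are off the line
  have hoff : ∀ s ∈ Γ.S, s ≠ s₀ → det d (s - s₀) ≠ 0 := by
    intro s hs hne h1
    obtain ⟨n, hn⟩ := Γ.N_nonempty
    apply hne
    apply Γ.eq_of_det hn hs hs₀
    apply det_eq_zero_of hd
    · have : s - n = (s - s₀) - (n - s₀) := by abel
      rw [this, det_sub_right, h1, hN n hn, sub_zero]
    · have : s₀ - n = (s₀ - s₀) - (n - s₀) := by abel
      rw [this, det_sub_right, hN n hn, sub_self]; simp [det]
  -- two points are collinear with s₀ or parallel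
  have hpair : ∀ s ∈ Γ.S, ∀ s' ∈ Γ.S, s ≠ s' → det (s' - s) d = 0 ∨ det (s' - s) (s₀ - s) = 0 := by
    intro s hs s' hs' hne
    by_contra hcon
    push Not at hcon
    obtain ⟨h1, h2⟩ := hcon
    set r : K := - det (s' - s) (s₀ - s) / det (s' - s) d with hr
    have hr0 : r ≠ 0 := div_ne_zero (neg_ne_zero.2 h2) h1
    have h3 := hmem r hr0
    apply hne
    apply Γ.eq_of_det h3 hs hs'
    have h4 : det (s' - s) (s₀ + r • d - s) = 0 := by
      have : s₀ + r • d - s = (s₀ - s) + r • d := by abel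
      rw [this, det_add_right, det_smul_right, hr]
      field_simp; ring
    have h5 : s - (s₀ + r • d) = (-1 : K) • (s₀ + r • d - s) := by rw [neg_one_smul]; abel
    have h6 : s' - (s₀ + r • d) = (s' - s) - (s₀ + r • d - s) := by abel
    rw [h5, h6, det_smul_left, det_sub_right, det_self, det_swap, h4]; ring
  -- all other points are on a parallel line
  have hpar : ∀ s ∈ Γ.S, s ≠ s₀ → ∀ s' ∈ Γ.S, s' ≠ s₀ → det d (s' - s) = 0 := by
    by_contra hcon
    push Not at hcon
    obtain ⟨s, hs, hne, s', hs', hne', h1⟩ := hcon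
    have hss : s ≠ s' := by
      rintro rfl
      rw [sub_self] at h1
      simp [det] at h1
    have h1' : det (s' - s) d ≠ 0 := by rw [det_swap]; exact neg_ne_zero.2 h1
    have h2 := (hpair s hs s' hs' hss).resolve_left h1'
    have hw : s₀ - s ≠ 0 := sub_ne_zero.2 hne.symm
    have hall : ∀ x ∈ Γ.S, det (s₀ - s) (x - s) = 0 := by
      intro x hx
      by_contra h3
      have hxs : s ≠ x := by
        rintro rfl
        rw [sub_self] at h3
        simp [det] at h3
      have h4 : det (x - s) d = 0 := by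
        apply (hpair s hs x hx hxs).resolve_right
        rw [det_swap]; exact neg_ne_zero.2 h3
      have hxs' : s' ≠ x := by
        rintro rfl
        apply h3
        rw [det_swap, h2, neg_zero]
      have h5 : det (x - s') d = 0 := by
        apply (hpair s' hs' x hx hxs').resolve_right
        intro h6
        apply h3
        have hw' : s₀ - s' ≠ 0 := sub_ne_zero.2 hne'.symm
        have h7 : det (s₀ - s') (s₀ - s) = 0 := by
          have : s₀ - s' = (s₀ - s) - (s' - s) := by abel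
          rw [this, det_sub_left, det_self, h2, sub_zero]
        have h8 : det (s₀ - s') (x - s) = 0 := by
          have : x - s = (x - s') + (s' - s) := by abel
          rw [this, det_add_right]
          have a1 : det (s₀ - s') (x - s') = 0 := by rw [det_swap, h6, neg_zero]
          have a2 : det (s₀ - s') (s' - s) = 0 := by
            have : s' - s = (s₀ - s) - (s₀ - s') := by abel
            rw [this, det_sub_right, det_self, h7, sub_zero]
          rw [a1, a2, add_zero]
        exact det_eq_zero_of hw' h7 h8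
      apply h1'
      have : s' - s = (x - s) - (x - s') := by abel
      rw [this, det_sub_left, h4, h5, sub_zero]
    have h3 : Γ.S ⊆ Finset.univ.image (fun r : K => s + r • (s₀ - s)) := by
      intro x hx
      obtain ⟨r, hr⟩ := exists_of_det_eq_zero hw (hall x hx)
      exact Finset.mem_image.2 ⟨r, Finset.mem_univ _, by rw [← hr]; abel⟩
    have h4 := Finset.card_le_card h3
    have h5 := Finset.card_image_le (s := (Finset.univ : Finset K))
      (f := fun r : K => s + r • (s₀ - s))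
    rw [Finset.card_univ] at h5
    rw [Γ.hS] at h4
    omega
  obtain ⟨P, hP⟩ : (Γ.S.erase s₀).Nonempty := by
    rw [← Finset.card_pos, Finset.card_erase_of_mem hs₀, Γ.hS]
    have : 1 < Fintype.card K := Fintype.one_lt_card
    omega
  obtain ⟨hP1, hP2⟩ := Finset.mem_erase.1 hP
  have hsub2 : Γ.S.erase s₀ ⊆ Finset.univ.image (fun r : K => P + r • d) := by
    intro x hx
    obtain ⟨hx1, hx2⟩ := Finset.mem_erase.1 hx
    obtain ⟨r, hr⟩ := exists_of_det_eq_zero hd (hpar P hP2 hP1 x hx2 hx1)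
    exact Finset.mem_image.2 ⟨r, Finset.mem_univ _, by rw [← hr]; abel⟩
  have heq := Finset.eq_of_subset_of_card_le hsub2 (by
    rw [hline, Finset.card_erase_of_mem hs₀, Γ.hS]; omega)
  refine ⟨s₀, hs₀, P, d, hd, ?_, ?_⟩
  · have := hoff P hP2 hP1
    have h2 : s₀ - P = (-1 : K) • (P - s₀) := by rw [neg_one_smul]; abel
    rw [h2, det_smul_right]
    simpa using this
  · intro x
    constructor
    · intro hx
      by_cases hx0 : x = s₀
      · exact Or.inl hx0
      · right
        have : x ∈ Γ.S.erase s₀ := Finset.mem_erase.2 ⟨hx0, hx⟩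
        rw [heq] at this
        obtain ⟨r, -, hr⟩ := Finset.mem_image.1 this
        exact ⟨r, hr.symm⟩
    · rintro (rfl | ⟨r, rfl⟩)
      · exact hs₀
      · have : P + r • d ∈ Γ.S.erase s₀ := by
          rw [heq]; exact Finset.mem_image_of_mem _ (Finset.mem_univ _)
        exact Finset.mem_of_mem_erase this

end Conf

end Pool.Agent.Helper801.NucM
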