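import Pool.Agent.Helper801.NucL
import Pool.Agent.Helper801.NucN

open Polynomial

namespace Pool.Agent.Helper801.NucM

open Pool.Agent.Helper801.NucA Pool.Agent.Helper801.NucB Pool.Agent.Helper801.NucC
open Pool.Agent.Helper801.NucD

variable {K : Type*} [Field K] [DecidableEq K] [Fintype K]

namespace Conf

variable (Γ : Conf K)

/-- multiplicity of the class of a nucleus -/
def mm (s n : K × K) : ℕ := (Γ.N.filter fun m => Γ.uv s m = Γ.uv s n).card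

/-- coordinates -/
def co (w0 w1 : K × K) (a0 b0 : K) (v : K × K) : K × K := (a0 * det w0 v, b0 * det w1 v)

omit [DecidableEq K] [Fintype K] in
theorem co_inj {w0 w1 : K × K} {a0 b0 : K} (hw : det w0 w1 ≠ 0) (ha : a0 ≠ 0) (hb : b0 ≠ 0) :
    Function.Injective (co w0 w1 a0 b0) := by
  intro x y h
  have h1 := mul_left_cancel₀ ha (congrArg Prod.fst h)
  have h2 := mul_left_cancel₀ hb (congrArg Prod.snd h)
  have h3 := det_cramer w0 w1 x
  have h4 := det_cramer w0 w1 y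
  rw [det_swap x w1, h1, h2, ← det_swap y w1, ← h4] at h3
  have h5 : det w0 w1 • (x - y) = 0 := by rw [smul_sub, h3, sub_self]
  exact sub_eq_zero.1 ((smul_eq_zero.1 h5).resolve_left hw)

omit [DecidableEq K] [Fintype K] in
/-- functional -/
theorem co_fun (w0 w1 : K × K) (a0 b0 t : K) (v : K × K) :
    (co w0 w1 a0 b0 v).1 * t + (co w0 w1 a0 b0 v).2 = det ((t * a0) • w0 + b0 • w1) v := by
  rw [det_add_left, det_smul_left, det_smul_left, co]; ring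

theorem mult_subtype {A : Type*} [DecidableEq A] (f : K × K → A) (v : A) :
    mult (fun n : {n // n ∈ Γ.N} => f n) v = (Γ.N.filter fun m => f m = v).card := by
  unfold mult
  refine Finset.card_bij (fun a _ => (a : K × K)) ?_ ?_ ?_
  · intro a ha
    exact Finset.mem_filter.2 ⟨a.2, (Finset.mem_filter.1 ha).2⟩
  · intro a _ b _ h; exact Subtype.ext h
  · intro b hb
    obtain ⟨h1, h2⟩ := Finset.mem_filter.1 hb
    exact ⟨⟨b, h1⟩, Finset.mem_filter.2 ⟨Finset.mem_univ _, h2⟩, rfl⟩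

theorem image_subtype {A : Type*} [DecidableEq A] (f : K × K → A) :
    Finset.univ.image (fun n : {n // n ∈ Γ.N} => f n) = Γ.N.image f := by
  ext x
  simp

theorem mk_mult (s : K × K) (f : K × K → K × K) (hf : Function.Injective f) (m : K × K) :
    mult (fun n : {n // n ∈ Γ.N} => f (Γ.uv s n)) (f (Γ.uv s m)) = Γ.mm s m := by
  rw [Γ.mult_subtype (fun n => f (Γ.uv s n)), mm]
  congr 1
  ext n
  simp only [Finset.mem_filter, hf.eq_iff]

/-- construction of the planar data -/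
def mkP (hv : Γ.vv = 0) (hq : 2 < Fintype.card K) {s : K × K} (hs : s ∈ Γ.S) {n0 n1 : K × K}
    (hn0 : n0 ∈ Γ.N) (hn1 : n1 ∈ Γ.N) (hne : Γ.uv s n0 ≠ Γ.uv s n1) {a0 b0 : K} (ha : a0 ≠ 0)
    (hb : b0 ≠ 0) (hmm : ((Γ.mm s n0 : ℕ) : K) ≠ 0 ∨ ((Γ.mm s n1 + 1 : ℕ) : K) ≠ 0) :
    PData K {n // n ∈ Γ.N} where
  a n := Γ.ac n
  α n := (co (n0 - s) (n1 - s) a0 b0 (Γ.uv s n)).1
  β n := (co (n0 - s) (n1 - s) a0 b0 (Γ.uv s n)).2
  J := (Γ.S.erase s).image fun s' => co (n0 - s) (n1 - s) a0 b0 (s' - s)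
  n0 := ⟨n0, hn0⟩
  n1 := ⟨n1, hn1⟩
  hι := by rw [Fintype.card_coe]; exact Γ.hN
  hJ := by
    have hw : det (n0 - s) (n1 - s) ≠ 0 := fun h => hne (Γ.uv_of_det hs hn0 hn1 h)
    rw [Finset.card_image_of_injective, Finset.card_erase_of_mem hs, Γ.hS, Nat.add_sub_cancel]
    intro x y h
    have := co_inj hw ha hb h
    exact sub_left_injective this
  h0 := by
    intro t c hc hx
    have h1 := Γ.h0_prop (s := s) (p := (t * a0) • (n0 - s) + b0 • (n1 - s)) hc (by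
      intro s' hs' hss
      rw [← co_fun]
      exact hx _ (Finset.mem_image_of_mem _ (Finset.mem_erase.2 ⟨hss, hs'⟩)))
    constructor
    · intro n n' h2
      simp only [co_fun] at h2
      exact Subtype.ext (h1.1 n n.2 n' n'.2 h2)
    · intro n h2
      rw [co_fun] at h2
      exact h1.2 n n.2 h2
  h1 := by
    intro n m hnm
    have h1 : Γ.uv s n ≠ Γ.uv s m := by
      intro h; apply hnm; rw [h]
    obtain ⟨s', hs', hss, c, hc, h2⟩ := Γ.uv_sub n.2 m.2 h1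
    refine ⟨_, Finset.mem_image_of_mem _ (Finset.mem_erase.2 ⟨hss, hs'⟩), c, hc, ?_, ?_⟩
    · have h3 : det (n0 - s) (Γ.uv s n) - det (n0 - s) (Γ.uv s m) = c * det (n0 - s) (s' - s) := by
        rw [← det_sub_right, h2, det_smul_right]
      simp only [co]; linear_combination a0 * h3
    · have h3 : det (n1 - s) (Γ.uv s n) - det (n1 - s) (Γ.uv s m) = c * det (n1 - s) (s' - s) := by
        rw [← det_sub_right, h2, det_smul_right]
      simp only [co]; linear_combination b0 * h3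
  h2 := by
    intro x hx
    obtain ⟨s', hs', rfl⟩ := Finset.mem_image.1 hx
    obtain ⟨hss, hs''⟩ := Finset.mem_erase.1 hs'
    exact mul_ne_zero ha (Γ.det_ne hs hs'' hss hn0)
  h3 := by
    intro n t _ h1 x hx h2
    obtain ⟨s', hs', rfl⟩ := Finset.mem_image.1 hx
    obtain ⟨hss, hs''⟩ := Finset.mem_erase.1 hs'
    rw [co_fun] at h1 h2
    have hp : (t * a0) • (n0 - s) + b0 • (n1 - s) ≠ 0 := by
      intro h
      have h3 : det (n0 - s) ((t * a0) • (n0 - s) + b0 • (n1 - s)) = 0 := by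
        rw [h]; simp [det]
      rw [det_add_right, det_smul_right, det_smul_right, det_self, mul_zero, zero_add] at h3
      rcases mul_eq_zero.1 h3 with h4 | h4
      · exact hb h4
      · exact hne (Γ.uv_of_det hs hn0 hn1 h4)
    have h3 := det_eq_zero_of hp h1 h2
    rw [uv, det_smul_left] at h3
    exact Γ.det_ne hs hs'' hss n.2 ((mul_eq_zero.1 h3).resolve_left (Γ.ac_ne n.2))
  h4 := by
    have h1 : ∑ n : {n // n ∈ Γ.N}, det (n0 - s) (Γ.uv s n) = 0 := by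
      rw [Finset.sum_coe_sort Γ.N (fun n => det (n0 - s) (Γ.uv s n)), ← det_sum, Γ.sum_uv hq, hv]
      simp [det]
    simp only [co]
    rw [← Finset.mul_sum, h1, mul_zero]
  h4' := by
    have h1 : ∑ n : {n // n ∈ Γ.N}, det (n1 - s) (Γ.uv s n) = 0 := by
      rw [Finset.sum_coe_sort Γ.N (fun n => det (n1 - s) (Γ.uv s n)), ← det_sum, Γ.sum_uv hq, hv]
      simp [det]
    simp only [co]
    rw [← Finset.mul_sum, h1, mul_zero]
  hα0 := by
    show a0 * det (n0 - s) (Γ.uv s n0) = 0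
    rw [det_uv, det_self]; ring
  hβ0 := by
    show b0 * det (n1 - s) (Γ.uv s n0) ≠ 0
    rw [det_uv]
    refine mul_ne_zero hb (mul_ne_zero (Γ.ac_ne hn0) ?_)
    rw [det_swap, neg_ne_zero]
    exact fun h => hne (Γ.uv_of_det hs hn0 hn1 h)
  hβ1 := by
    show b0 * det (n1 - s) (Γ.uv s n1) = 0
    rw [det_uv, det_self]; ring
  hα1 := by
    show a0 * det (n0 - s) (Γ.uv s n1) ≠ 0
    rw [det_uv]
    exact mul_ne_zero ha (mul_ne_zero (Γ.ac_ne hn1) (fun h => hne (Γ.uv_of_det hs hn0 hn1 h)))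
  hm := by
    have hw : det (n0 - s) (n1 - s) ≠ 0 := fun h => hne (Γ.uv_of_det hs hn0 hn1 h)
    have h1 := Γ.mk_mult s _ (co_inj hw ha hb) n0
    have h2 := Γ.mk_mult s _ (co_inj hw ha hb) n1
    show ((mult (fun n : {n // n ∈ Γ.N} => co (n0 - s) (n1 - s) a0 b0 (Γ.uv s n))
        (co (n0 - s) (n1 - s) a0 b0 (Γ.uv s n0)) : ℕ) : K) ≠ 0 ∨
      ((mult (fun n : {n // n ∈ Γ.N} => co (n0 - s) (n1 - s) a0 b0 (Γ.uv s n))
        (co (n0 - s) (n1 - s) a0 b0 (Γ.uv s n1)) + 1 : ℕ) : K) ≠ 0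
    rw [h1, h2]
    exact hmm

theorem exists_pair (hc : ¬ Γ.Coll) {s : K × K} (hs : s ∈ Γ.S) :
    ∃ n0 ∈ Γ.N, ∃ n1 ∈ Γ.N, Γ.uv s n0 ≠ Γ.uv s n1 ∧
      (((Γ.mm s n0 : ℕ) : K) ≠ 0 ∨ ((Γ.mm s n1 + 1 : ℕ) : K) ≠ 0) := by
  obtain ⟨x, hx, y, hy, hxy⟩ : ∃ x ∈ Γ.N, ∃ y ∈ Γ.N, Γ.uv s x ≠ Γ.uv s y := by
    by_contra hcon
    push Not at hcon
    apply hc
    obtain ⟨n, hn⟩ := Γ.N_nonempty
    refine ⟨s, hs, n - s, ?_, ?_⟩
    · rw [← neg_sub, neg_ne_zero]; exact Γ.sub_ne hn hs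
    · intro m hm
      exact Γ.det_of_uv hm (hcon n hn m hm)
  by_cases h : ((Γ.mm s x : ℕ) : K) = 0
  · refine ⟨y, hy, x, hx, hxy.symm, Or.inr ?_⟩
    rw [Nat.cast_add, h]; simp
  · exact ⟨x, hx, y, hy, hxy, Or.inl h⟩

/-- distinct scaled differences -/
def UU (s : K × K) : Finset (K × K) := Γ.N.image (Γ.uv s)

def HH (s d : K × K) : Finset K := Γ.N.image fun n => det d (Γ.uv s n)

def gg (s d : K × K) (h : K) : ℕ := ((Γ.UU s).filter fun u => det d u = h).card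

def mu (s d : K × K) (h : K) : ℕ := (Γ.N.filter fun n => det d (Γ.uv s n) = h).card

section

variable (hv : Γ.vv = 0) (hq : 2 < Fintype.card K) {s : K × K} (hs : s ∈ Γ.S) {n0 n1 : K × K}
    (hn0 : n0 ∈ Γ.N) (hn1 : n1 ∈ Γ.N) (hne : Γ.uv s n0 ≠ Γ.uv s n1) {a0 b0 : K} (ha : a0 ≠ 0)
    (hb : b0 ≠ 0) (hmm : ((Γ.mm s n0 : ℕ) : K) ≠ 0 ∨ ((Γ.mm s n1 + 1 : ℕ) : K) ≠ 0)

theorem mkP_uu (n : {n // n ∈ Γ.N}) :
    (Γ.mkP hv hq hs hn0 hn1 hne ha hb hmm).uu n = co (n0 - s) (n1 - s) a0 b0 (Γ.uv s n) := rfl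

theorem mkP_U : (Γ.mkP hv hq hs hn0 hn1 hne ha hb hmm).U
    = (Γ.UU s).image (co (n0 - s) (n1 - s) a0 b0) := by
  rw [UU, Finset.image_image]
  exact Γ.image_subtype (fun n => co (n0 - s) (n1 - s) a0 b0 (Γ.uv s n))

theorem mkP_c : (Γ.mkP hv hq hs hn0 hn1 hne ha hb hmm).c = (Γ.UU s).card := by
  have hw : det (n0 - s) (n1 - s) ≠ 0 := fun h => hne (Γ.uv_of_det hs hn0 hn1 h)
  rw [PData.c, mkP_U, Finset.card_image_of_injective _ (co_inj hw ha hb)]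

theorem mkP_mult (n : {n // n ∈ Γ.N}) :
    mult (Γ.mkP hv hq hs hn0 hn1 hne ha hb hmm).uu
      ((Γ.mkP hv hq hs hn0 hn1 hne ha hb hmm).uu n) = Γ.mm s n := by
  have hw : det (n0 - s) (n1 - s) ≠ 0 := fun h => hne (Γ.uv_of_det hs hn0 hn1 h)
  exact Γ.mk_mult s _ (co_inj hw ha hb) n

theorem mkP_ev (t : K) (n : {n // n ∈ Γ.N}) :
    PData.ev t ((Γ.mkP hv hq hs hn0 hn1 hne ha hb hmm).uu n)
      = det ((t * a0) • (n0 - s) + b0 • (n1 - s)) (Γ.uv s n) := by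
  rw [mkP_uu, ← co_fun]; rfl

end

/-- the basic conclusions -/
theorem basic (hc : ¬ Γ.Coll) {s : K × K} (hs : s ∈ Γ.S) :
    ∃ e : ℕ, 2 ≤ e ∧ Fintype.card K + 1 = 3 * e ∧ (e : K) ≠ 0 ∧ (Γ.UU s).card = 2 * e - 1 ∧
      (∀ n ∈ Γ.N, ((Γ.mm s n : ℕ) : K) ≠ 0) ∧
      (∀ n ∈ Γ.N, ∃ s' ∈ Γ.S, s' ≠ s ∧ ∀ m ∈ Γ.N,
        det (s' - s) (Γ.uv s m) = det (s' - s) (Γ.uv s n) → Γ.uv s m = Γ.uv s n) := by
  have hq : 2 < Fintype.card K := by
    by_contra h; exact hc (Γ.coll_of_two (by omega))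
  have hv : Γ.vv = 0 := by
    by_contra h; exact hc (Γ.coll_of_vv_ne hq h)
  obtain ⟨n0, hn0, n1, hn1, hne, hmm⟩ := Γ.exists_pair hc hs
  have hw : det (n0 - s) (n1 - s) ≠ 0 := fun h => hne (Γ.uv_of_det hs hn0 hn1 h)
  set P := Γ.mkP hv hq hs hn0 hn1 hne (one_ne_zero (α := K)) (one_ne_zero (α := K)) hmm with hP
  obtain ⟨Qt, κ, hQ⟩ := P.exists_QD
  obtain ⟨hcc, hmul, -⟩ := hQ.third_step
  refine ⟨P.e, P.two_le_e, hQ.three_e, hQ.he, ?_, ?_, ?_⟩
  · rw [← hcc, hP, Γ.mkP_c]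
  · intro n hn
    have := hmul ⟨n, hn⟩
    rwa [hP, Γ.mkP_mult] at this
  · intro n hn
    obtain ⟨t, ht, hg⟩ := hQ.exists_gam_one (P.mem_U ⟨n, hn⟩)
    obtain ⟨x, hx, h1⟩ := (Finset.mem_filter.1 ht).2
    obtain ⟨s', hs', rfl⟩ := Finset.mem_image.1 hx
    obtain ⟨hss, hs''⟩ := Finset.mem_erase.1 hs'
    refine ⟨s', hs'', hss, ?_⟩
    intro m hm h2
    rw [co_fun] at h1
    set p := (t * 1) • (n0 - s) + (1 : K) • (n1 - s) with hp
    -- p is a multiple of s' - s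
    have hd : s' - s ≠ 0 := sub_ne_zero.2 hss
    have h3 : det (s' - s) p = 0 := by rw [det_swap, h1, neg_zero]
    obtain ⟨r, hr⟩ := exists_of_det_eq_zero hd h3
    have h4 : PData.ev t (P.uu ⟨m, hm⟩) = PData.ev t (P.uu ⟨n, hn⟩) := by
      rw [hP, Γ.mkP_ev, Γ.mkP_ev, ← hp, hr, det_smul_left, det_smul_left, h2]
    have h5 : P.uu ⟨m, hm⟩ = P.uu ⟨n, hn⟩ := by
      rw [PData.gam, Finset.card_eq_one] at hg
      obtain ⟨y, hy⟩ := hg
      have h6 : P.uu ⟨m, hm⟩ ∈ P.U.filter (fun u => PData.ev t u = PData.ev t (P.uu ⟨n, hn⟩)) :=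
        Finset.mem_filter.2 ⟨P.mem_U _, h4⟩
      have h7 : P.uu ⟨n, hn⟩ ∈ P.U.filter (fun u => PData.ev t u = PData.ev t (P.uu ⟨n, hn⟩)) :=
        Finset.mem_filter.2 ⟨P.mem_U _, rfl⟩
      rw [hy, Finset.mem_singleton] at h6 h7
      rw [h6, h7]
    exact co_inj hw one_ne_zero one_ne_zero h5

/-- the local structure in a direction joining two points of S -/
theorem local_structure (hc : ¬ Γ.Coll) {s : K × K} (hs : s ∈ Γ.S) {s' d : K × K} (hs' : s' ∈ Γ.S)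
    (hss : s' ≠ s) (hd : d ≠ 0) (hds : det d (s' - s) = 0) {e : ℕ}
    (he : Fintype.card K + 1 = 3 * e) :
    (Γ.HH s d).card = e ∧ ∑ h ∈ Γ.HH s d, Γ.gg s d h = 2 * e - 1 ∧
    (∏ h ∈ Γ.HH s d, (X - C h)).eval 0 ≠ 0 ∧
    (∀ h ∈ Γ.HH s d, h * ((Γ.mu s d h : ℕ) : K) *
      (derivative (∏ h ∈ Γ.HH s d, (X - C h))).eval h = (∏ h ∈ Γ.HH s d, (X - C h)).eval 0) ∧
    ∃ ε : K, ε ≠ 0 ∧ C (e : K) * ∏ h ∈ Γ.HH s d, (X - C h) ^ (Γ.gg s d h - 1)
      = derivative (∏ h ∈ Γ.HH s d, (X - C h)) - C ε := by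
  have hq : 2 < Fintype.card K := by
    by_contra h; exact hc (Γ.coll_of_two (by omega))
  have hv : Γ.vv = 0 := by
    by_contra h; exact hc (Γ.coll_of_vv_ne hq h)
  obtain ⟨n0, hn0, n1, hn1, hne, hmm⟩ := Γ.exists_pair hc hs
  have hw : det (n0 - s) (n1 - s) ≠ 0 := fun h => hne (Γ.uv_of_det hs hn0 hn1 h)
  have hw' : det (n1 - s) (n0 - s) ≠ 0 := by rw [det_swap, neg_ne_zero]; exact hw
  have hdn : ∀ n ∈ Γ.N, det d (n - s) ≠ 0 := by
    intro n hn h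
    exact Γ.det_ne hs hs' hss hn (det_eq_zero_of hd h hds)
  have ha : det d (n1 - s) / det (n0 - s) (n1 - s) ≠ 0 := div_ne_zero (hdn n1 hn1) hw
  have hb : det d (n0 - s) / det (n1 - s) (n0 - s) ≠ 0 := div_ne_zero (hdn n0 hn0) hw'
  set P := Γ.mkP hv hq hs hn0 hn1 hne ha hb hmm with hP
  obtain ⟨Qt, κ, hQ⟩ := P.exists_QD
  have he' : P.e = e := by
    have := hQ.three_e
    omega
  -- the functional
  have hfun : (1 * (det d (n1 - s) / det (n0 - s) (n1 - s))) • (n0 - s)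
      + (det d (n0 - s) / det (n1 - s) (n0 - s)) • (n1 - s) = d := by
    have h1 := det_cramer (n0 - s) (n1 - s) d
    have h2 : d = (det (n0 - s) (n1 - s))⁻¹ • (det (n0 - s) (n1 - s) • d) := by
      rw [smul_smul, inv_mul_cancel₀ hw, one_smul]
    conv_rhs => rw [h2, h1]
    rw [smul_add, smul_smul, smul_smul]
    congr 2
    · field_simp
    · rw [det_swap (n1 - s) (n0 - s), det_swap (n0 - s) d]
      field_simp
  have h1D : (1 : K) ∈ P.Dset := by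
    refine Finset.mem_filter.2 ⟨Finset.mem_univ _, _,
      Finset.mem_image_of_mem _ (Finset.mem_erase.2 ⟨hss, hs'⟩), ?_⟩
    rw [co_fun, hfun]; exact hds
  have hev : ∀ n : {n // n ∈ Γ.N}, PData.ev 1 (P.uu n) = det d (Γ.uv s n) := by
    intro n
    rw [hP, Γ.mkP_ev, hfun]
  have hH : P.H 1 = Γ.HH s d := by
    rw [P.H_eq, HH, ← Γ.image_subtype]
    refine Finset.image_congr fun n _ => hev n
  have hgam : ∀ h, P.gam 1 h = Γ.gg s d h := by
    intro h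
    rw [PData.gam, gg, hP, mkP_U]
    rw [Finset.filter_image, Finset.card_image_of_injective _ (co_inj hw ha hb)]
    congr 1
    ext u
    simp only [Finset.mem_filter, and_congr_right_iff]
    intro _
    have : PData.ev 1 (co (n0 - s) (n1 - s) (det d (n1 - s) / det (n0 - s) (n1 - s))
        (det d (n0 - s) / det (n1 - s) (n0 - s)) u) = det d u := by
      have h2 := co_fun (n0 - s) (n1 - s) (det d (n1 - s) / det (n0 - s) (n1 - s))
        (det d (n0 - s) / det (n1 - s) (n0 - s)) 1 u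
      rw [hfun] at h2
      exact h2
    rw [this]
  have hmult : ∀ h, mult (fun n => PData.ev 1 (P.uu n)) h = Γ.mu s d h := by
    intro h
    rw [mu, ← Γ.mult_subtype (fun n => det d (Γ.uv s n))]
    congr 1
    funext n
    exact hev n
  obtain ⟨hcc, -, -⟩ := hQ.third_step
  refine ⟨?_, ?_, ?_, ?_, (derivative P.eta).eval 1 / κ, div_ne_zero (P.eta'_eval h1D) hQ.hκ, ?_⟩
  · rw [← hH, hQ.H_card h1D, he']
  · rw [← hH, ← he', ← hcc, ← P.sum_gam 1]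
    exact Finset.sum_congr rfl fun h _ => (hgam h).symm
  · rw [← hH]; exact hQ.M_zero_ne h1D
  · intro h hh
    rw [← hH] at hh ⊢
    rw [← hmult]
    exact hQ.J_id h1D hh
  · have := hQ.B_eq h1D
    rw [he', PData.B, PData.M, hH] at this
    simp only [hgam] at this
    exact this

end Conf

end Pool.Agent.Helper801.NucM
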