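import Pool.Agent.Helper801.NucO

open Polynomial

namespace Pool.Agent.Helper801.NucM

open Pool.Agent.Helper801.NucD

variable {K : Type*} [Field K] [DecidableEq K] [Fintype K]

namespace Conf

variable (Γ : Conf K)

theorem not_both {s s' n n' : K × K} (hs : s ∈ Γ.S) (hs' : s' ∈ Γ.S) (hss : s ≠ s')
    (hn : n ∈ Γ.N) (hn' : n' ∈ Γ.N) (h1 : Γ.uv s n = Γ.uv s n') (h2 : Γ.uv s' n = Γ.uv s' n') :
    n = n' := by
  by_contra hne
  apply hss
  apply Γ.eq_of_det hn hs hs'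
  have h3 := Γ.det_of_uv hn' h1
  have h4 := Γ.det_of_uv hn' h2
  apply det_eq_zero_of (sub_ne_zero.2 (Ne.symm hne))
  · have a1 : n' - n = (n' - s) - (n - s) := by abel
    have a2 : s - n = (-1 : K) • (n - s) := by rw [neg_one_smul]; abel
    rw [a1, a2, det_smul_right, det_sub_left, det_self, det_swap, h3]; ring
  · have a1 : n' - n = (n' - s') - (n - s') := by abel
    have a2 : s' - n = (-1 : K) • (n - s') := by rw [neg_one_smul]; abel
    rw [a1, a2, det_smul_right, det_sub_left, det_self, det_swap, h4]; ring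

theorem gg_eq (s d : K × K) (h : K) :
    Γ.gg s d h = ((Γ.N.filter fun n => det d (Γ.uv s n) = h).image (Γ.uv s)).card := by
  rw [gg, UU, Finset.filter_image]

theorem gg_eq_mu {s s' d : K × K} (hs : s ∈ Γ.S) (hs' : s' ∈ Γ.S) (hss : s ≠ s')
    (hval : ∀ n, det d (Γ.uv s n) = det d (Γ.uv s' n)) {h : K} (hg : Γ.gg s d h = 1) :
    Γ.gg s' d h = Γ.mu s d h := by
  rw [gg_eq, mu]
  simp only [← hval]
  rw [Finset.card_image_of_injOn]
  intro n hn n' hn' h2
  rw [gg_eq, Finset.card_eq_one] at hg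
  obtain ⟨u, hu⟩ := hg
  have h3 : Γ.uv s n ∈ (Γ.N.filter fun n => det d (Γ.uv s n) = h).image (Γ.uv s) :=
    Finset.mem_image_of_mem _ hn
  have h4 : Γ.uv s n' ∈ (Γ.N.filter fun n => det d (Γ.uv s n) = h).image (Γ.uv s) :=
    Finset.mem_image_of_mem _ hn'
  rw [hu, Finset.mem_singleton] at h3 h4
  exact Γ.not_both hs hs' hss (Finset.mem_filter.1 hn).1 (Finset.mem_filter.1 hn').1
    (h3.trans h4.symm) h2

theorem odd_case (hc : ¬ Γ.Coll) (h2 : (2 : K) ≠ 0) : Fintype.card K = 5 := by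
  obtain ⟨s, hs⟩ := Γ.S_nonempty
  obtain ⟨e, he2, he, heK, hU, -, hex⟩ := Γ.basic hc hs
  have hNc := Γ.hN
  obtain ⟨n, hn, n', hn', hne, huv⟩ : ∃ n ∈ Γ.N, ∃ n' ∈ Γ.N, n ≠ n' ∧ Γ.uv s n = Γ.uv s n' := by
    apply Finset.exists_ne_map_eq_of_card_lt_of_maps_to (t := Γ.UU s)
    · omega
    · intro x hx; exact Finset.mem_image_of_mem _ hx
  obtain ⟨s', hs', hss, hclass⟩ := hex n hn
  set d : K × K := s' - s with hd
  have hd0 : d ≠ 0 := sub_ne_zero.2 hss
  have hds : det d (s' - s) = 0 := by rw [hd, det_self]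
  have hds' : det d (s - s') = 0 := by
    have : s - s' = (-1 : K) • (s' - s) := by rw [neg_one_smul]; abel
    rw [this, det_smul_right, hds, mul_zero]
  have hval : ∀ n, det d (Γ.uv s n) = det d (Γ.uv s' n) := by
    intro n
    rw [det_uv, det_uv]
    have : n - s = (n - s') + (s' - s) := by abel
    rw [this, det_add_right, hds, add_zero]
  have hHH : Γ.HH s d = Γ.HH s' d := by
    unfold HH
    refine Finset.image_congr fun n _ => hval n
  have hmu : ∀ h, Γ.mu s d h = Γ.mu s' d h := by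
    intro h; unfold mu; simp only [hval]
  obtain ⟨hH, hsum, hM0, hJ, ε, hε, hB⟩ := Γ.local_structure hc hs hs' hss hd0 hds he
  obtain ⟨hH', hsum', -, -, ε', hε', hB'⟩ := Γ.local_structure hc hs' hs hss.symm hd0 hds' he
  rw [← hHH] at hH' hsum' hB'
  have hpos : ∀ h ∈ Γ.HH s d, 1 ≤ Γ.gg s d h := by
    intro h hh
    obtain ⟨m, hm, rfl⟩ := Finset.mem_image.1 hh
    exact Finset.card_pos.2 ⟨Γ.uv s m, Finset.mem_filter.2 ⟨Finset.mem_image_of_mem _ hm, rfl⟩⟩
  have hpos' : ∀ h ∈ Γ.HH s d, 1 ≤ Γ.gg s' d h := by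
    intro h hh
    obtain ⟨m, hm, rfl⟩ := Finset.mem_image.1 hh
    exact Finset.card_pos.2 ⟨Γ.uv s' m, Finset.mem_filter.2 ⟨Finset.mem_image_of_mem _ hm,
      (hval m).symm⟩⟩
  -- the special value
  set h0 := det d (Γ.uv s n) with hh0
  have hh0H : h0 ∈ Γ.HH s d := Finset.mem_image.2 ⟨n, hn, rfl⟩
  have hg0 : Γ.gg s d h0 = 1 := by
    rw [gg_eq, Finset.card_eq_one]
    refine ⟨Γ.uv s n, ?_⟩
    apply Finset.eq_singleton_iff_unique_mem.2
    constructor
    · exact Finset.mem_image.2 ⟨n, Finset.mem_filter.2 ⟨hn, rfl⟩, rfl⟩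
    · intro x hx
      obtain ⟨m, hm, rfl⟩ := Finset.mem_image.1 hx
      obtain ⟨hm1, hm2⟩ := Finset.mem_filter.1 hm
      exact hclass m hm1 hm2
  have hg0' : 2 ≤ Γ.gg s' d h0 := by
    rw [Γ.gg_eq_mu hs hs' hss.symm hval hg0, mu]
    have h3 : ({n, n'} : Finset (K × K)) ⊆ Γ.N.filter (fun n => det d (Γ.uv s n) = h0) := by
      intro x hx
      rcases Finset.mem_insert.1 hx with rfl | hx
      · exact Finset.mem_filter.2 ⟨hn, rfl⟩
      · rw [Finset.mem_singleton.1 hx]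
        exact Finset.mem_filter.2 ⟨hn', by rw [← huv]⟩
    have h4 := Finset.card_le_card h3
    rwa [Finset.card_pair hne] at h4
  have hM' : ∀ h ∈ Γ.HH s d, 2 ≤ Γ.gg s d h →
      (derivative (∏ x ∈ Γ.HH s d, (X - C x))).eval h = ε := by
    intro h hh h3
    have h4 := congrArg (eval h) hB
    rw [eval_mul, eval_prod, Finset.prod_eq_zero hh, mul_zero, eval_sub, eval_C] at h4
    · exact sub_eq_zero.1 h4.symm
    · rw [eval_pow, eval_sub, eval_X, eval_C, sub_self, zero_pow (by omega)]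
  have hM'' : ∀ h ∈ Γ.HH s d, 2 ≤ Γ.gg s' d h →
      (derivative (∏ x ∈ Γ.HH s d, (X - C x))).eval h = ε' := by
    intro h hh h3
    have h4 := congrArg (eval h) hB'
    rw [eval_mul, eval_prod, Finset.prod_eq_zero hh, mul_zero, eval_sub, eval_C] at h4
    · exact sub_eq_zero.1 h4.symm
    · rw [eval_pow, eval_sub, eval_X, eval_C, sub_self, zero_pow (by omega)]
  have hεne : ε ≠ ε' := by
    intro h3
    have h4 := hM'' h0 hh0H hg0'
    have h5 := congrArg (eval h0) hB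
    rw [eval_mul, eval_C, eval_sub, eval_C, h4, h3, sub_self, eval_prod] at h5
    rcases mul_eq_zero.1 h5 with h6 | h6
    · exact heK h6
    · rw [Finset.prod_eq_zero_iff] at h6
      obtain ⟨x, hx, h7⟩ := h6
      rw [eval_pow, eval_sub, eval_X, eval_C] at h7
      by_cases h8 : h0 = x
      · rw [← h8, hg0] at h7
        simp at h7
      · exact h8 (sub_eq_zero.1 (NucL.pow_eq_zero_iff_aux h7))
  have hdisj : ∀ h ∈ Γ.HH s d, Γ.gg s d h - 1 = 0 ∨ Γ.gg s' d h - 1 = 0 := by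
    intro h hh
    by_contra hcon
    push Not at hcon
    exact hεne ((hM' h hh (by omega)).symm.trans (hM'' h hh (by omega)))
  have hmuh : ∀ h ∈ Γ.HH s d, Γ.mu s d h = (Γ.gg s d h - 1) + (Γ.gg s' d h - 1) + 1 := by
    intro h hh
    have a1 := hpos h hh
    have a2 := hpos' h hh
    rcases hdisj h hh with h3 | h3
    · have h4 : Γ.gg s d h = 1 := by omega
      rw [← Γ.gg_eq_mu hs hs' hss.symm hval h4]
      omega
    · have h4 : Γ.gg s' d h = 1 := by omega
      rw [hmu, ← Γ.gg_eq_mu hs' hs hss (fun n => (hval n).symm) h4]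
      omega
  have hsum1 : ∑ h ∈ Γ.HH s d, (Γ.gg s d h - 1) = e - 1 := by
    have h3 : ∑ h ∈ Γ.HH s d, (Γ.gg s d h - 1) + (Γ.HH s d).card = 2 * e - 1 := by
      rw [← hsum, Finset.card_eq_sum_ones, ← Finset.sum_add_distrib]
      refine Finset.sum_congr rfl fun h hh => ?_
      have := hpos h hh
      omega
    omega
  have hsum2 : ∑ h ∈ Γ.HH s d, (Γ.gg s' d h - 1) = e - 1 := by
    have h3 : ∑ h ∈ Γ.HH s d, (Γ.gg s' d h - 1) + (Γ.HH s d).card = 2 * e - 1 := by
      rw [← hsum', Finset.card_eq_sum_ones, ← Finset.sum_add_distrib]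
      refine Finset.sum_congr rfl fun h hh => ?_
      have := hpos' h hh
      omega
    omega
  have heK1 : (e : K) - 1 ≠ 0 := by
    intro h3
    apply h2
    have h4 : ((Fintype.card K + 1 : ℕ) : K) = ((3 * e : ℕ) : K) := by rw [he]
    push_cast at h4
    rw [FiniteField.cast_card_eq_zero] at h4
    linear_combination -h4 - 3 * h3
  have hfin := NucL.final (Γ.HH s d) e hH (fun h => Γ.gg s d h - 1) (fun h => Γ.gg s' d h - 1)
    hsum1 hsum2 hdisj heK heK1 ε ε' _ hM0 hε hε' hB hB' (by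
      intro h hh
      have := hJ h hh
      rw [hmuh h hh] at this
      exact this)
  omega

theorem even_case (hc : ¬ Γ.Coll) (h2 : (2 : K) = 0) : False := by
  have hNc := Γ.hN
  -- upper bound
  have hup : ∑ s ∈ Γ.S, ∑ n ∈ Γ.N, (Γ.mm s n - 1) ≤ Γ.N.card * (Γ.N.card - 1) := by
    have h1 : ∀ s ∈ Γ.S, ∀ n ∈ Γ.N, Γ.mm s n - 1
        = ∑ m ∈ Γ.N.erase n, if Γ.uv s m = Γ.uv s n then 1 else 0 := by
      intro s _ n hn
      rw [← Finset.card_filter, mm, Finset.filter_erase, Finset.card_erase_of_mem]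
      exact Finset.mem_filter.2 ⟨hn, rfl⟩
    rw [Finset.sum_congr rfl fun s hs => Finset.sum_congr rfl (h1 s hs), Finset.sum_comm]
    have h3 : ∀ n ∈ Γ.N, ∑ s ∈ Γ.S, ∑ m ∈ Γ.N.erase n, (if Γ.uv s m = Γ.uv s n then 1 else 0)
        ≤ Γ.N.card - 1 := by
      intro n hn
      rw [Finset.sum_comm]
      have h4 : ∀ m ∈ Γ.N.erase n, ∑ s ∈ Γ.S, (if Γ.uv s m = Γ.uv s n then 1 else 0) ≤ 1 := by
        intro m hm
        obtain ⟨hm1, hm2⟩ := Finset.mem_erase.1 hm
        rw [← Finset.card_filter, Finset.card_le_one]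
        intro a ha b hb
        obtain ⟨ha1, ha2⟩ := Finset.mem_filter.1 ha
        obtain ⟨hb1, hb2⟩ := Finset.mem_filter.1 hb
        by_contra hab
        exact hm1 (Γ.not_both ha1 hb1 hab hm2 hn ha2 hb2)
      refine (Finset.sum_le_sum h4).trans ?_
      rw [Finset.sum_const, Finset.card_erase_of_mem hn]
      simp
    refine (Finset.sum_le_sum h3).trans ?_
    rw [Finset.sum_const]
    simp
  obtain ⟨s₀, hs₀⟩ := Γ.S_nonempty
  obtain ⟨e, he2, he, -⟩ := Γ.basic hc hs₀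
  have hlow : ∀ s ∈ Γ.S, 3 * (e - 1) ≤ ∑ n ∈ Γ.N, (Γ.mm s n - 1) := by
    intro s hs
    obtain ⟨e', he2', he', -, hU, hodd, -⟩ := Γ.basic hc hs
    have hee : e' = e := by omega
    subst hee
    set f : K × K → ℕ := fun u => (Γ.N.filter fun m => Γ.uv s m = u).card with hf
    have h1 : ∑ n ∈ Γ.N, (Γ.mm s n - 1) = ∑ u ∈ Γ.UU s, f u * (f u - 1) := by
      have := Finset.sum_comp (s := Γ.N) (fun u => f u - 1) (Γ.uv s)
      simpa [mm, hf, UU] using this
    have h3 : ∑ u ∈ Γ.UU s, f u = Γ.N.card :=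
      (Finset.card_eq_sum_card_image (Γ.uv s) Γ.N).symm
    have h4 : ∀ u ∈ Γ.UU s, 3 * (f u - 1) ≤ f u * (f u - 1) := by
      intro u hu
      obtain ⟨n, hn, rfl⟩ := Finset.mem_image.1 hu
      have h5 : ((f (Γ.uv s n) : ℕ) : K) ≠ 0 := hodd n hn
      have h6 : ¬ (2 ∣ f (Γ.uv s n)) := by
        rintro ⟨k, hk⟩
        apply h5
        rw [hk]; push_cast; rw [h2, zero_mul]
      by_cases h7 : f (Γ.uv s n) = 1
      · rw [h7]
      · exact Nat.mul_le_mul_right _ (by omega)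
    have h5 : ∀ u ∈ Γ.UU s, 1 ≤ f u := by
      intro u hu
      obtain ⟨n, hn, rfl⟩ := Finset.mem_image.1 hu
      exact Finset.card_pos.2 ⟨n, Finset.mem_filter.2 ⟨hn, rfl⟩⟩
    have h6 : ∑ u ∈ Γ.UU s, (f u - 1) + (Γ.UU s).card = Γ.N.card := by
      rw [← h3, Finset.card_eq_sum_ones, ← Finset.sum_add_distrib]
      refine Finset.sum_congr rfl fun u hu => ?_
      have := h5 u hu
      omega
    have h7 := Finset.sum_le_sum h4
    rw [← Finset.mul_sum] at h7
    rw [h1]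
    refine le_trans ?_ h7
    omega
  have h3 := (Finset.sum_le_sum hlow).trans hup
  rw [Finset.sum_const, Γ.hS, smul_eq_mul] at h3
  have h4 : Γ.N.card = 3 * (e - 1) + 1 := by omega
  obtain ⟨k, rfl⟩ : ∃ k, e = k + 1 := ⟨e - 1, by omega⟩
  rw [h4, he] at h3
  simp only [Nat.add_sub_cancel] at h3
  nlinarith

theorem card_eq_five (hc : ¬ Γ.Coll) : Fintype.card K = 5 := by
  by_cases h2 : (2 : K) = 0
  · exact (Γ.even_case hc h2).elim
  · exact Γ.odd_case hc h2

end Conf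

end Pool.Agent.Helper801.NucM
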