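import Pool.Agent.Helper801.NucP

open Polynomial

namespace Pool.Agent.Helper801.NucM

variable {K : Type*} [Field K] [DecidableEq K] [Fintype K]

namespace Conf

variable (Γ : Conf K)

/-- the point of S on the line of two nuclei -/
def sp (n n' : K × K) : K × K := (Γ.ac n - Γ.ac n')⁻¹ • (Γ.ac n • n - Γ.ac n' • n')

theorem sp_symm (n n' : K × K) : Γ.sp n n' = Γ.sp n' n := by
  unfold sp
  rw [← neg_sub (Γ.ac n') (Γ.ac n), ← neg_sub (Γ.ac n' • n') (Γ.ac n • n), inv_neg, neg_smul_neg]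

theorem eq_sp {s n n' : K × K} (hn : n ∈ Γ.N) (hn' : n' ∈ Γ.N) (hne : n ≠ n')
    (h : Γ.uv s n = Γ.uv s n') : s = Γ.sp n n' := by
  have h1 : Γ.ac n - Γ.ac n' ≠ 0 := sub_ne_zero.2 fun h => hne (Γ.ac_inj hn hn' h)
  have h2 : Γ.ac n • n - Γ.ac n' • n' = (Γ.ac n - Γ.ac n') • s := by
    have h3 : Γ.ac n • (n - s) = Γ.ac n' • (n' - s) := h
    rw [smul_sub, smul_sub] at h3
    rw [sub_smul, sub_eq_sub_iff_add_eq_add]
    rw [sub_eq_sub_iff_add_eq_add] at h3
    rw [h3, add_comm]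
  rw [sp, h2, smul_smul, inv_mul_cancel₀ h1, one_smul]

theorem sp_spec {n n' : K × K} (hn : n ∈ Γ.N) (hn' : n' ∈ Γ.N) (hne : n ≠ n') :
    Γ.sp n n' ∈ Γ.S ∧ det (n' - n) (Γ.sp n n' - n) = 0 ∧
      Γ.uv (Γ.sp n n') n = Γ.uv (Γ.sp n n') n' := by
  obtain ⟨s, hs, h1, h2, -⟩ := Γ.exists_s hn hn' hne
  have h3 : s = Γ.sp n n' := Γ.eq_sp hn hn' hne h2
  rw [← h3]
  exact ⟨hs, h1, h2⟩

theorem sp_col {a b c : K × K} (ha : a ∈ Γ.N) (hb : b ∈ Γ.N) (hc : c ∈ Γ.N) (hab : a ≠ b)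
    (hbc : b ≠ c) (hac : a ≠ c) :
    det (Γ.sp b c - Γ.sp a c) (Γ.sp a b - Γ.sp a c) = 0 := by
  have h1 : Γ.ac a - Γ.ac b ≠ 0 := sub_ne_zero.2 fun h => hab (Γ.ac_inj ha hb h)
  have h2 : Γ.ac b - Γ.ac c ≠ 0 := sub_ne_zero.2 fun h => hbc (Γ.ac_inj hb hc h)
  have h3 : Γ.ac a - Γ.ac c ≠ 0 := sub_ne_zero.2 fun h => hac (Γ.ac_inj ha hc h)
  simp only [det, sp, Prod.fst_sub, Prod.snd_sub, Prod.smul_fst, Prod.smul_snd, smul_eq_mul]
  field_simp
  ring

theorem pair_unique (h5 : Fintype.card K = 5) (hc : ¬ Γ.Coll) {s n n' m : K × K} (hs : s ∈ Γ.S)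
    (hn : n ∈ Γ.N) (hn' : n' ∈ Γ.N) (hm : m ∈ Γ.N) (hne : n ≠ n')
    (h : Γ.uv s n = Γ.uv s n') (hmn : m ≠ n) (hmn' : m ≠ n') {y : K × K} (hy : y ∈ Γ.N)
    (hym : y ≠ m) : Γ.uv s m ≠ Γ.uv s y := by
  intro h1
  obtain ⟨e, he2, he, -, hU, -⟩ := Γ.basic hc hs
  have hN := Γ.hN
  have hsub : Γ.UU s ⊆ ((Γ.N.erase n').erase m).image (Γ.uv s) := by
    intro x hx
    obtain ⟨z, hz, rfl⟩ := Finset.mem_image.1 hx
    have hnm : n ∈ (Γ.N.erase n').erase m :=
      Finset.mem_erase.2 ⟨hmn.symm, Finset.mem_erase.2 ⟨hne, hn⟩⟩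
    by_cases hz1 : z = n'
    · rw [hz1, ← h]
      exact Finset.mem_image_of_mem _ hnm
    · by_cases hz2 : z = m
      · rw [hz2, h1]
        by_cases hy1 : y = n'
        · rw [hy1, ← h]
          exact Finset.mem_image_of_mem _ hnm
        · exact Finset.mem_image_of_mem _
            (Finset.mem_erase.2 ⟨hym, Finset.mem_erase.2 ⟨hy1, hy⟩⟩)
      · exact Finset.mem_image_of_mem _
          (Finset.mem_erase.2 ⟨hz2, Finset.mem_erase.2 ⟨hz1, hz⟩⟩)
  have h2 := (Finset.card_le_card hsub).trans Finset.card_image_le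
  rw [Finset.card_erase_of_mem (Finset.mem_erase.2 ⟨hmn', hm⟩),
    Finset.card_erase_of_mem hn'] at h2
  omega

theorem sp_inj (h5 : Fintype.card K = 5) (hc : ¬ Γ.Coll) {a b c d : K × K} (ha : a ∈ Γ.N)
    (hb : b ∈ Γ.N) (hc' : c ∈ Γ.N) (hd : d ∈ Γ.N) (hab : a ≠ b) (hcd : c ≠ d)
    (h : Γ.sp a b = Γ.sp c d) : (c = a ∨ c = b) ∧ (d = a ∨ d = b) := by
  obtain ⟨h1, -, h2⟩ := Γ.sp_spec ha hb hab
  obtain ⟨-, -, h3⟩ := Γ.sp_spec hc' hd hcd
  rw [← h] at h3
  constructor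
  · by_contra hcon
    push Not at hcon
    exact Γ.pair_unique h5 hc h1 ha hb hc' hab h2 hcon.1 hcon.2 hd hcd.symm h3
  · by_contra hcon
    push Not at hcon
    exact Γ.pair_unique h5 hc h1 ha hb hd hab h2 hcon.1 hcon.2 hc' hcd h3.symm

theorem exists_pair_of (h5 : Fintype.card K = 5) (hc : ¬ Γ.Coll) {s : K × K} (hs : s ∈ Γ.S) :
    ∃ n ∈ Γ.N, ∃ n' ∈ Γ.N, n ≠ n' ∧ s = Γ.sp n n' := by
  obtain ⟨e, he2, he, -, hU, -⟩ := Γ.basic hc hs
  have hN := Γ.hN
  obtain ⟨n, hn, n', hn', hne, h⟩ : ∃ n ∈ Γ.N, ∃ n' ∈ Γ.N, n ≠ n' ∧ Γ.uv s n = Γ.uv s n' := by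
    apply Finset.exists_ne_map_eq_of_card_lt_of_maps_to (t := Γ.UU s)
    · omega
    · intro x hx; exact Finset.mem_image_of_mem _ hx
  exact ⟨n, hn, n', hn', hne, Γ.eq_sp hn hn' hne h⟩

theorem det_sp {n n' : K × K} (hn : n ∈ Γ.N) (hn' : n' ∈ Γ.N) (hne : n ≠ n') (d P : K × K) :
    (Γ.ac n - Γ.ac n') * det d (Γ.sp n n' - P)
      = Γ.ac n * det d (n - P) - Γ.ac n' * det d (n' - P) := by
  have h1 : Γ.ac n - Γ.ac n' ≠ 0 := sub_ne_zero.2 fun h => hne (Γ.ac_inj hn hn' h)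
  simp only [det, sp, Prod.fst_sub, Prod.snd_sub, Prod.smul_fst, Prod.smul_snd, smul_eq_mul]
  field_simp
  ring

omit [Field K] [Fintype K] in
theorem count_pairs (f : Fin 4 → K) (hf : ¬ (f 0 = f 1 ∧ f 0 = f 2 ∧ f 0 = f 3)) :
    ((Finset.univ : Finset (Fin 4 × Fin 4)).filter fun p => p.1 < p.2 ∧ f p.1 = f p.2).card ≤ 3 := by
  rw [Finset.card_filter, Fintype.sum_prod_type]
  simp only [Fin.sum_univ_four]
  simp only [show ((0 : Fin 4) < 0) = False from by simp, show ((1 : Fin 4) < 1) = False from by simp,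
    show ((2 : Fin 4) < 2) = False from by simp, show ((3 : Fin 4) < 3) = False from by simp,
    show ((1 : Fin 4) < 0) = False from by simp, show ((2 : Fin 4) < 0) = False from by simp,
    show ((3 : Fin 4) < 0) = False from by simp, show ((2 : Fin 4) < 1) = False from by simp,
    show ((3 : Fin 4) < 1) = False from by simp, show ((3 : Fin 4) < 2) = False from by simp,
    show ((0 : Fin 4) < 1) = True from by simp, show ((0 : Fin 4) < 2) = True from by simp,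
    show ((0 : Fin 4) < 3) = True from by simp, show ((1 : Fin 4) < 2) = True from by simp,
    show ((1 : Fin 4) < 3) = True from by simp, show ((2 : Fin 4) < 3) = True from by simp,
    false_and, true_and, if_false]
  split_ifs <;> first | omega | (exfalso; grind)

theorem exists_enum (h5 : Fintype.card K = 5) : ∃ g : Fin 4 → K × K, Function.Injective g ∧
    (∀ i, g i ∈ Γ.N) ∧ ∀ n ∈ Γ.N, ∃ i, g i = n := by
  have h4 : Γ.N.card = 4 := by have := Γ.hN; omega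
  refine ⟨fun i => ((Γ.N.equivFinOfCardEq h4).symm i : K × K), ?_, ?_, ?_⟩
  · intro i j h
    exact (Γ.N.equivFinOfCardEq h4).symm.injective (Subtype.ext h)
  · intro i
    exact ((Γ.N.equivFinOfCardEq h4).symm i).2
  · intro n hn
    exact ⟨Γ.N.equivFinOfCardEq h4 ⟨n, hn⟩, by simp⟩

theorem line_bound (h5 : Fintype.card K = 5) (hc : ¬ Γ.Coll) (P d : K × K) (hd : d ≠ 0) :
    ((Γ.S ∪ Γ.N).filter fun x => det d (x - P) = 0).card ≤ 3 := by
  rw [Finset.filter_union]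
  refine (Finset.card_union_le _ _).trans ?_
  set SL := Γ.S.filter fun x => det d (x - P) = 0 with hSL
  set NL := Γ.N.filter fun x => det d (x - P) = 0 with hNL
  have hspL : ∀ a ∈ Γ.N, ∀ b ∈ Γ.N, a ≠ b →
      Γ.ac a * det d (a - P) = Γ.ac b * det d (b - P) → Γ.sp a b ∈ SL := by
    intro a ha b hb hab h
    refine Finset.mem_filter.2 ⟨(Γ.sp_spec ha hb hab).1, ?_⟩
    have h1 := Γ.det_sp ha hb hab d P
    rw [h, sub_self] at h1
    exact (mul_eq_zero.1 h1).resolve_left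
      (sub_ne_zero.2 fun h => hab (Γ.ac_inj ha hb h))
  by_cases hne : NL.Nonempty
  · obtain ⟨n, hn⟩ := hne
    obtain ⟨hn1, hn2⟩ := Finset.mem_filter.1 hn
    have h1 : SL.card ≤ 1 := by
      rw [Finset.card_le_one]
      intro a ha b hb
      obtain ⟨ha1, ha2⟩ := Finset.mem_filter.1 ha
      obtain ⟨hb1, hb2⟩ := Finset.mem_filter.1 hb
      apply Γ.eq_of_det hn1 ha1 hb1
      apply det_eq_zero_of hd
      · have : a - n = (a - P) - (n - P) := by abel
        rw [this, det_sub_right, ha2, hn2, sub_zero]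
      · have : b - n = (b - P) - (n - P) := by abel
        rw [this, det_sub_right, hb2, hn2, sub_zero]
    have h2 : NL.card ≤ 2 := by
      by_contra hlt
      obtain ⟨a, b, c, ha, hb, hc', hab, hac, hbc⟩ := Finset.two_lt_card_iff.1 (not_le.1 hlt)
      obtain ⟨ha1, ha2⟩ := Finset.mem_filter.1 ha
      obtain ⟨hb1, hb2⟩ := Finset.mem_filter.1 hb
      obtain ⟨hc1, hc2⟩ := Finset.mem_filter.1 hc'
      have h3 := hspL a ha1 b hb1 hab (by rw [ha2, hb2, mul_zero, mul_zero])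
      have h4 := hspL a ha1 c hc1 hac (by rw [ha2, hc2, mul_zero, mul_zero])
      have h5' := Finset.card_le_one.1 h1 _ h3 _ h4
      obtain ⟨-, h6⟩ := Γ.sp_inj h5 hc ha1 hb1 ha1 hc1 hab hac h5'
      rcases h6 with h6 | h6
      · exact hac h6.symm
      · exact hbc h6.symm
    omega
  · rw [Finset.not_nonempty_iff_eq_empty] at hne
    rw [hne, Finset.card_empty, add_zero]
    obtain ⟨g, hg1, hg2, hg3⟩ := Γ.exists_enum h5
    set f : Fin 4 → K := fun i => Γ.ac (g i) * det d (g i - P) with hf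
    have hnot : ¬ (f 0 = f 1 ∧ f 0 = f 2 ∧ f 0 = f 3) := by
      rintro ⟨e1, e2, e3⟩
      have hall : ∀ i, f i = f 0 := by
        intro i
        fin_cases i
        · rfl
        · exact e1.symm
        · exact e2.symm
        · exact e3.symm
      have hsub : Γ.S ⊆ Finset.univ.image (fun r : K => P + r • d) := by
        intro s hs
        obtain ⟨n, hn, n', hn', hnn, rfl⟩ := Γ.exists_pair_of h5 hc hs
        obtain ⟨i, rfl⟩ := hg3 n hn
        obtain ⟨j, rfl⟩ := hg3 n' hn'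
        have h1 := hspL _ hn _ hn' hnn ((hall i).trans (hall j).symm)
        obtain ⟨r, hr⟩ := exists_of_det_eq_zero hd (Finset.mem_filter.1 h1).2
        exact Finset.mem_image.2 ⟨r, Finset.mem_univ _, by rw [← hr]; abel⟩
      have h1 := (Finset.card_le_card hsub).trans Finset.card_image_le
      rw [Γ.hS, Finset.card_univ] at h1
      omega
    refine le_trans ?_ (count_pairs f hnot)
    refine le_trans (Finset.card_le_card (t := ((Finset.univ : Finset (Fin 4 × Fin 4)).filter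
      fun p => p.1 < p.2 ∧ f p.1 = f p.2).image (fun p => Γ.sp (g p.1) (g p.2))) ?_)
      Finset.card_image_le
    intro s hs
    obtain ⟨hs1, hs2⟩ := Finset.mem_filter.1 hs
    obtain ⟨n, hn, n', hn', hnn, rfl⟩ := Γ.exists_pair_of h5 hc hs1
    obtain ⟨i, rfl⟩ := hg3 n hn
    obtain ⟨j, rfl⟩ := hg3 n' hn'
    have h1 := Γ.det_sp hn hn' hnn d P
    rw [hs2, mul_zero] at h1
    have h2 : f i = f j := sub_eq_zero.1 h1.symm
    rcases lt_trichotomy i j with h3 | h3 | h3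
    · exact Finset.mem_image.2 ⟨(i, j), Finset.mem_filter.2 ⟨Finset.mem_univ _, h3, h2⟩, rfl⟩
    · exact absurd (congrArg g h3) hnn
    · exact Finset.mem_image.2 ⟨(j, i), Finset.mem_filter.2 ⟨Finset.mem_univ _, h3, h2.symm⟩,
        Γ.sp_symm _ _⟩

/-- the Desargues configuration -/
theorem desargues (h5 : Fintype.card K = 5) (hc : ¬ Γ.Coll) :
    ∃ (O : K × K) (A B C : Fin 3 → K × K),
      (∀ x, x ∈ Γ.S ∪ Γ.N ↔ x = O ∨ (∃ i, x = A i) ∨ (∃ i, x = B i) ∨ ∃ i, x = C i) ∧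
      (∀ i, det (A i - O) (B i - O) = 0 ∧ A i ≠ O) ∧
      (∀ i j k, i ≠ j → j ≠ k → i ≠ k → det (A j - A i) (C k - A i) = 0 ∧ A j ≠ A i ∧
        det (B j - B i) (C k - B i) = 0 ∧ B j ≠ B i) ∧
      det (C 1 - C 0) (C 2 - C 0) = 0 ∧ C 1 ≠ C 0 := by
  obtain ⟨g, hg1, hg2, hg3⟩ := Γ.exists_enum h5
  have hgne : ∀ i j, i ≠ j → g i ≠ g j := fun i j h h' => h (hg1 h')
  have hNN : ∀ i j, i ≠ j → det (g j - g i) (Γ.sp (g i) (g j) - g i) = 0 := fun i j h =>
    (Γ.sp_spec (hg2 i) (hg2 j) (hgne i j h)).2.1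
  have hSS : ∀ i j k, i ≠ j → j ≠ k → i ≠ k →
      det (Γ.sp (g j) (g k) - Γ.sp (g i) (g k)) (Γ.sp (g i) (g j) - Γ.sp (g i) (g k)) = 0 :=
    fun i j k h1 h2 h3 => Γ.sp_col (hg2 i) (hg2 j) (hg2 k) (hgne _ _ h1) (hgne _ _ h2) (hgne _ _ h3)
  have hne : ∀ i j k, i ≠ j → j ≠ k → i ≠ k → Γ.sp (g j) (g k) ≠ Γ.sp (g i) (g k) := by
    intro i j k h1 h2 h3 h
    have := (Γ.sp_inj h5 hc (hg2 j) (hg2 k) (hg2 i) (hg2 k) (hgne _ _ h2) (hgne _ _ h3) h).1
    rcases this with h4 | h4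
    · exact hgne _ _ h1 h4
    · exact hgne _ _ h3 h4
  refine ⟨g 3, ![g 0, g 1, g 2], ![Γ.sp (g 0) (g 3), Γ.sp (g 1) (g 3), Γ.sp (g 2) (g 3)],
    ![Γ.sp (g 1) (g 2), Γ.sp (g 0) (g 2), Γ.sp (g 0) (g 1)], ?_, ?_, ?_, ?_, ?_⟩
  · intro x
    rw [Finset.mem_union]
    constructor
    · rintro (hx | hx)
      · obtain ⟨n, hn, n', hn', hnn, rfl⟩ := Γ.exists_pair_of h5 hc hx
        obtain ⟨i, rfl⟩ := hg3 n hn
        obtain ⟨j, rfl⟩ := hg3 n' hn'
        right; right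
        fin_cases i <;> fin_cases j
        · exact absurd rfl hnn
        · right; exact ⟨2, rfl⟩
        · right; exact ⟨1, rfl⟩
        · left; exact ⟨0, rfl⟩
        · right; exact ⟨2, Γ.sp_symm _ _⟩
        · exact absurd rfl hnn
        · right; exact ⟨0, rfl⟩
        · left; exact ⟨1, rfl⟩
        · right; exact ⟨1, Γ.sp_symm _ _⟩
        · right; exact ⟨0, Γ.sp_symm _ _⟩
        · exact absurd rfl hnn
        · left; exact ⟨2, rfl⟩
        · left; exact ⟨0, Γ.sp_symm _ _⟩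
        · left; exact ⟨1, Γ.sp_symm _ _⟩
        · left; exact ⟨2, Γ.sp_symm _ _⟩
        · exact absurd rfl hnn
      · obtain ⟨i, rfl⟩ := hg3 x hx
        fin_cases i
        · right; left; exact ⟨0, rfl⟩
        · right; left; exact ⟨1, rfl⟩
        · right; left; exact ⟨2, rfl⟩
        · left; rfl
    · rintro (rfl | ⟨i, rfl⟩ | ⟨i, rfl⟩ | ⟨i, rfl⟩)
      · right; exact hg2 _
      · right; fin_cases i <;> exact hg2 _
      · left; fin_cases i <;> exact (Γ.sp_spec (hg2 _) (hg2 _) (hgne _ _ (by decide))).1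
      · left; fin_cases i <;> exact (Γ.sp_spec (hg2 _) (hg2 _) (hgne _ _ (by decide))).1
  · intro i
    fin_cases i
    · exact ⟨by
        have := hNN 3 0 (by decide)
        rwa [Γ.sp_symm] at this, hgne _ _ (by decide)⟩
    · exact ⟨by
        have := hNN 3 1 (by decide)
        rwa [Γ.sp_symm] at this, hgne _ _ (by decide)⟩
    · exact ⟨by
        have := hNN 3 2 (by decide)
        rwa [Γ.sp_symm] at this, hgne _ _ (by decide)⟩
  · intro i j k hij hjk hik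
    have hA : ∀ a b : Fin 4, a ≠ b → det (g b - g a) (Γ.sp (g a) (g b) - g a) = 0 ∧ 
        det (g b - g a) (Γ.sp (g b) (g a) - g a) = 0 := by
      intro a b hab
      exact ⟨hNN a b hab, by rw [Γ.sp_symm (g b) (g a)]; exact hNN a b hab⟩
    have hB : ∀ a b : Fin 4, a ≠ b → a ≠ 3 → b ≠ 3 →
        det (Γ.sp (g b) (g 3) - Γ.sp (g a) (g 3)) (Γ.sp (g a) (g b) - Γ.sp (g a) (g 3)) = 0 ∧
        det (Γ.sp (g b) (g 3) - Γ.sp (g a) (g 3)) (Γ.sp (g b) (g a) - Γ.sp (g a) (g 3)) = 0 := by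
      intro a b hab ha hb
      exact ⟨hSS a b 3 hab hb ha, by rw [Γ.sp_symm (g b) (g a)]; exact hSS a b 3 hab hb ha⟩
    fin_cases i <;> fin_cases j <;> fin_cases k <;>
      first
        | exact absurd rfl hij
        | exact absurd rfl hjk
        | exact absurd rfl hik
        | exact ⟨(hA _ _ (by decide)).1, hgne _ _ (by decide),
            (hB _ _ (by decide) (by decide) (by decide)).1,
            hne _ _ _ (by decide) (by decide) (by decide)⟩
        | exact ⟨(hA _ _ (by decide)).2, hgne _ _ (by decide),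
            (hB _ _ (by decide) (by decide) (by decide)).2,
            hne _ _ _ (by decide) (by decide) (by decide)⟩
  · -- C 0 = sp 1 2, C 1 = sp 0 2, C 2 = sp 0 1
    have h1 := hSS 1 0 2 (by decide) (by decide) (by decide)
    rw [Γ.sp_symm (g 1) (g 0)] at h1
    exact h1
  · exact hne 1 0 2 (by decide) (by decide) (by decide)

end Conf

end Pool.Agent.Helper801.NucM
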