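import Mathlib

open MvPolynomial Finset

namespace Pool.Agent.Helper801.SubA

variable {p : ℕ} [Fact p.Prime] {j : ℕ}

/-- the Vandermonde polynomial -/
noncomputable def Vd (p j : ℕ) : MvPolynomial (Fin j) (ZMod p) :=
  (Matrix.vandermonde (fun i : Fin j => (X i : MvPolynomial (Fin j) (ZMod p)))).det

theorem Vd_eq (p j : ℕ) : Vd p j = ∑ σ : Equiv.Perm (Fin j), Equiv.Perm.sign σ •
    monomial (Finsupp.equivFunOnFinite.symm fun i => ((σ i : Fin j) : ℕ)) (1 : ZMod p) := by
  unfold Vd
  rw [← Matrix.det_transpose, Matrix.det_apply]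
  refine sum_congr rfl fun σ _ => ?_
  congr 1
  rw [monomial_eq]
  simp only [Matrix.transpose_apply, Matrix.vandermonde_apply, C_1, one_mul]
  rw [Finsupp.prod_fintype]
  · rfl
  · intro i; simp

theorem Vd_hom (p j : ℕ) : (Vd p j).IsHomogeneous (∑ i : Fin j, (i : ℕ)) := by
  rw [Vd_eq]
  refine IsHomogeneous.sum _ _ _ fun σ _ => ?_
  have h : (monomial (Finsupp.equivFunOnFinite.symm fun i => ((σ i : Fin j) : ℕ))
      (1 : ZMod p)).IsHomogeneous (∑ i : Fin j, (i : ℕ)) := by
    apply isHomogeneous_monomial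
    rw [Finsupp.degree_eq_sum]
    simp only [Finsupp.equivFunOnFinite_symm_apply_apply]
    exact Equiv.sum_comp σ (fun i : Fin j => (i : ℕ))
  rw [Units.smul_def, zsmul_eq_mul]
  have h2 : (((Equiv.Perm.sign σ : ℤˣ) : ℤ) : MvPolynomial (Fin j) (ZMod p)).IsHomogeneous 0 := by
    have : (((Equiv.Perm.sign σ : ℤˣ) : ℤ) : MvPolynomial (Fin j) (ZMod p)) =
      C ((((Equiv.Perm.sign σ : ℤˣ) : ℤ) : ZMod p)) := by simp
    rw [this]; exact isHomogeneous_C _ _
  simpa using h2.mul h

/-- linear form -/
noncomputable def Lf (p j : ℕ) : MvPolynomial (Fin j) (ZMod p) := ∑ i : Fin j, X i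

theorem Lf_hom (p j : ℕ) : (Lf p j).IsHomogeneous 1 := by
  unfold Lf
  exact IsHomogeneous.sum _ _ _ fun i _ => isHomogeneous_X _ _

theorem coeff_Lf_pow (m : ℕ) (d : Fin j →₀ ℕ) (hd : ∑ i, d i = m) :
    coeff d (Lf p j ^ m) = (Nat.multinomial univ (fun i => d i) : ZMod p) := by
  unfold Lf
  rw [Finset.sum_pow_eq_sum_piAntidiag, coeff_sum]
  have h1 : ∀ k : Fin j → ℕ, (∏ i : Fin j, (X i : MvPolynomial (Fin j) (ZMod p)) ^ k i) =
      monomial (Finsupp.equivFunOnFinite.symm k) 1 := by
    intro k
    rw [monomial_eq, C_1, one_mul, Finsupp.prod_fintype]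
    · rfl
    · intro i; simp
  rw [Finset.sum_eq_single (fun i => d i)]
  · rw [h1]
    have h2 : (Finsupp.equivFunOnFinite.symm fun i => d i) = d := by
      ext i; simp
    rw [h2]
    have h3 : ((Nat.multinomial univ (fun i => d i) : ℕ) : MvPolynomial (Fin j) (ZMod p)) =
      C ((Nat.multinomial univ (fun i => d i) : ℕ) : ZMod p) := by simp
    rw [h3, coeff_C_mul, coeff_monomial, if_pos rfl, mul_one]
  · intro k _ hk
    rw [h1]
    have h3 : ((Nat.multinomial univ k : ℕ) : MvPolynomial (Fin j) (ZMod p)) =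
      C ((Nat.multinomial univ k : ℕ) : ZMod p) := by simp
    rw [h3, coeff_C_mul, coeff_monomial, if_neg, mul_zero]
    intro h
    apply hk
    rw [← h]
    funext i; simp
  · intro h
    exfalso
    apply h
    rw [mem_piAntidiag]
    exact ⟨hd, by simp⟩

theorem coeff_main (m : ℕ) (c : Fin j →₀ ℕ) (hc : ∑ i, c i = m + ∑ i : Fin j, (i : ℕ)) :
    ((∏ i, (c i).factorial : ℕ) : ZMod p) * coeff c (Lf p j ^ m * Vd p j) =
      (m.factorial : ZMod p) * (Matrix.vandermonde (fun i : Fin j => ((c i : ℕ) : ZMod p))).det := by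
  have hdet : (Matrix.vandermonde (fun i : Fin j => ((c i : ℕ) : ZMod p))).det =
      ∑ σ : Equiv.Perm (Fin j), Equiv.Perm.sign σ • ∏ i, (((c i).descFactorial (σ i) : ℕ) : ZMod p) := by
    rw [Matrix.det_eval_matrixOfPolynomials_eq_det_vandermonde (fun i : Fin j => ((c i : ℕ) : ZMod p))
      (fun k => descPochhammer (ZMod p) k) (fun k => descPochhammer_natDegree _ _)
      (fun k => monic_descPochhammer _ _)]
    rw [← Matrix.det_transpose, Matrix.det_apply]
    refine sum_congr rfl fun σ _ => ?_
    congr 1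
    refine prod_congr rfl fun i _ => ?_
    rw [Matrix.transpose_apply, Matrix.of_apply, descPochhammer_eval_eq_descFactorial]
  rw [hdet, Vd_eq, mul_sum, coeff_sum, mul_sum, mul_sum]
  refine sum_congr rfl fun σ _ => ?_
  rw [mul_smul_comm, coeff_smul, mul_smul_comm, mul_smul_comm]
  congr 1
  rw [coeff_mul_monomial', mul_one]
  split_ifs with h
  · have hle : ∀ i, ((σ i : Fin j) : ℕ) ≤ c i := by
      intro i
      have := h i
      simpa using this
    rw [coeff_Lf_pow]
    · have h1 : (∏ i, (c i).factorial) * Nat.multinomial univ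
          (fun i => (c - Finsupp.equivFunOnFinite.symm fun i => ((σ i : Fin j) : ℕ)) i) =
          m.factorial * ∏ i, (c i).descFactorial (σ i) := by
        have h2 : (∏ i, (c i).factorial) = (∏ i, (c i - (σ i : ℕ)).factorial) *
            ∏ i, (c i).descFactorial (σ i) := by
          rw [← prod_mul_distrib]
          refine prod_congr rfl fun i _ => ?_
          rw [Nat.factorial_mul_descFactorial (hle i)]
        have h3 := Nat.multinomial_spec (s := (univ : Finset (Fin j))) (f := fun i => c i - (σ i : ℕ))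
        have h4 : (fun i => (c - Finsupp.equivFunOnFinite.symm fun i => ((σ i : Fin j) : ℕ)) i) =
            fun i => c i - (σ i : ℕ) := by
          funext i; simp
        rw [h4, h2, mul_right_comm, h3]
        congr 2
        have h5 : ∑ i, (c i - (σ i : ℕ)) + ∑ i : Fin j, ((σ i : Fin j) : ℕ) = ∑ i, c i := by
          rw [← sum_add_distrib]
          exact sum_congr rfl fun i _ => Nat.sub_add_cancel (hle i)
        have h6 : ∑ i : Fin j, ((σ i : Fin j) : ℕ) = ∑ i : Fin j, (i : ℕ) :=
          Equiv.sum_comp σ (fun i : Fin j => (i : ℕ))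
        omega
      exact_mod_cast congrArg (Nat.cast : ℕ → ZMod p) h1
    · have h4 : ∀ i, (c - Finsupp.equivFunOnFinite.symm fun i => ((σ i : Fin j) : ℕ)) i =
            c i - (σ i : ℕ) := by
          intro i; simp
      simp only [h4]
      have h5 : ∑ i, (c i - (σ i : ℕ)) + ∑ i : Fin j, ((σ i : Fin j) : ℕ) = ∑ i, c i := by
          rw [← sum_add_distrib]
          exact sum_congr rfl fun i _ => Nat.sub_add_cancel (hle i)
      have h6 : ∑ i : Fin j, ((σ i : Fin j) : ℕ) = ∑ i : Fin j, (i : ℕ) :=
          Equiv.sum_comp σ (fun i : Fin j => (i : ℕ))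
      omega
  · have : ∃ i, c i < (σ i : ℕ) := by
      by_contra hcon
      push Not at hcon
      apply h
      intro i
      simpa using hcon i
    obtain ⟨i, hi⟩ := this
    rw [mul_zero]
    symm
    have h0 : (∏ i, (((c i).descFactorial (σ i) : ℕ) : ZMod p)) = 0 := by
      refine prod_eq_zero (mem_univ i) ?_
      rw [Nat.descFactorial_eq_zero_iff_lt.mpr hi]; simp
    rw [h0, mul_zero]


/-- exponents used for the sumset polynomial -/
def ex (j m : ℕ) (i : ℕ) : ℕ := i + m / j + (if j - m % j ≤ i then 1 else 0)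

theorem ex_strictMono (j m : ℕ) : StrictMono (ex j m) := by
  refine strictMono_nat_of_lt_succ fun i => ?_
  unfold ex
  split_ifs <;> omega

theorem ex_sum (j m : ℕ) (hj : 0 < j) :
    ∑ i : Fin j, ex j m i = m + ∑ i : Fin j, (i : ℕ) := by
  unfold ex
  rw [sum_add_distrib, sum_add_distrib]
  have h1 : ∑ i : Fin j, (if j - m % j ≤ (i : ℕ) then 1 else 0) = m % j := by
    rw [Fin.sum_univ_eq_sum_range (fun i => if j - m % j ≤ i then 1 else 0) j]
    rw [sum_ite, sum_const_zero, add_zero, sum_const, smul_eq_mul, mul_one]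
    have : (range j).filter (fun i => j - m % j ≤ i) = Ico (j - m % j) j := by
      ext i; simp only [mem_filter, mem_range, mem_Ico]; tauto
    rw [this, Nat.card_Ico]
    have := Nat.mod_lt m hj
    omega
  rw [h1, sum_const, card_univ, Fintype.card_fin, smul_eq_mul]
  have := Nat.div_add_mod m j
  omega

theorem ex_lt (j m t : ℕ) (hj : 0 < j) (hjt : j ≤ t) (hm : m ≤ j * (t - j)) (i : ℕ) (hi : i < j) :
    ex j m i < t := by
  unfold ex
  have h1 := Nat.div_add_mod m j
  have h2 := Nat.mod_lt m hj
  have h3 : m / j ≤ t - j := by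
    rw [Nat.div_le_iff_le_mul_add_pred hj]
    omega
  rcases Nat.eq_or_lt_of_le h3 with h4 | h4
  · have h5 : m % j = 0 := by
      rw [h4] at h1; omega
    rw [h5]
    split_ifs <;> omega
  · split_ifs <;> omega

theorem ddsh (j : ℕ) (A : Finset (ZMod p)) (hj : j ≤ A.card) :
    min p (j * (A.card - j) + 1) ≤ ((A.powersetCard j).image (fun B => ∑ x ∈ B, x)).card := by
  classical
  have hp : p.Prime := Fact.out
  rcases Nat.eq_zero_or_pos j with rfl | hj0
  · simp
  by_contra hcon
  push Not at hcon
  set Cs := (A.powersetCard j).image (fun B => ∑ x ∈ B, x) with hCs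
  set m := Cs.card with hm
  have hmp : m < p := lt_of_lt_of_le hcon (min_le_left _ _)
  have hmj : m ≤ j * (A.card - j) := by
    have := lt_of_lt_of_le hcon (min_le_right _ _)
    omega
  have hAp : A.card ≤ p := by
    have := card_le_univ A
    rwa [ZMod.card] at this
  set c : Fin j →₀ ℕ := Finsupp.equivFunOnFinite.symm fun i => ex j m i with hc
  have hci : ∀ i, c i = ex j m i := fun i => by simp [hc]
  have hclt : ∀ i, c i < A.card := fun i => by
    rw [hci]; exact ex_lt j m A.card hj0 hj hmj i i.2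
  have hcsum : ∑ i, c i = m + ∑ i : Fin j, (i : ℕ) := by
    simp only [hci]; exact ex_sum j m hj0
  -- the coefficient
  have hcoef : coeff c (Lf p j ^ m * Vd p j) ≠ 0 := by
    intro h0
    have h1 := coeff_main (p := p) m c hcsum
    rw [h0, mul_zero] at h1
    have h2 : ((m.factorial : ℕ) : ZMod p) ≠ 0 := by
      intro h
      rw [ZMod.natCast_eq_zero_iff] at h
      rw [hp.dvd_factorial] at h
      omega
    have h3 : (Matrix.vandermonde (fun i : Fin j => ((c i : ℕ) : ZMod p))).det ≠ 0 := by
      rw [Matrix.det_vandermonde_ne_zero_iff]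
      intro a b hab
      simp only at hab
      rw [ZMod.natCast_eq_natCast_iff', Nat.mod_eq_of_lt ((hclt a).trans_le hAp),
        Nat.mod_eq_of_lt ((hclt b).trans_le hAp), hci, hci] at hab
      exact Fin.ext ((ex_strictMono j m).injective hab)
    exact (mul_ne_zero h2 h3) h1.symm
  set P : Polynomial (ZMod p) := ∏ s ∈ Cs, (Polynomial.X - Polynomial.C s) with hP
  have hPmonic : P.Monic := Polynomial.monic_prod_of_monic _ _ fun s _ => Polynomial.monic_X_sub_C s
  have hPdeg : P.natDegree = m := by
    rw [hP, Polynomial.natDegree_prod_of_monic _ _ fun s _ => Polynomial.monic_X_sub_C s]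
    simp [hm]
  set f : MvPolynomial (Fin j) (ZMod p) := Polynomial.aeval (Lf p j) P * Vd p j with hf
  have hf2 : f = ∑ k ∈ range (m + 1), P.coeff k • (Lf p j ^ k * Vd p j) := by
    rw [hf, Polynomial.aeval_eq_sum_range, hPdeg, sum_mul]
    exact sum_congr rfl fun k _ => by rw [smul_mul_assoc]
  have hhom : ∀ k, (Lf p j ^ k * Vd p j).IsHomogeneous (k + ∑ i : Fin j, (i : ℕ)) := by
    intro k
    have := ((Lf_hom p j).pow k).mul (Vd_hom p j)
    simpa using this
  have hfc : coeff c f = coeff c (Lf p j ^ m * Vd p j) := by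
    rw [hf2, coeff_sum, sum_range_succ, sum_eq_zero, zero_add]
    · have : P.coeff m = 1 := by rw [← hPdeg]; exact hPmonic
      rw [this, one_smul]
    · intro k hk
      rw [mem_range] at hk
      rw [coeff_smul, (hhom k).coeff_eq_zero, smul_zero]
      rw [Finsupp.degree_eq_sum, hcsum]
      omega
  have hcf : coeff c f ≠ 0 := by rw [hfc]; exact hcoef
  have hdegc : c.degree = m + ∑ i : Fin j, (i : ℕ) := by rw [Finsupp.degree_eq_sum, hcsum]
  have htd : f.totalDegree = c.degree := by
    apply le_antisymm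
    · rw [hf2]
      refine totalDegree_finsetSum_le fun k hk => ?_
      rw [mem_range] at hk
      refine (totalDegree_smul_le _ _).trans ?_
      refine (hhom k).totalDegree_le.trans ?_
      rw [hdegc]; omega
    · have := le_totalDegree (mem_support_iff.mpr hcf)
      rwa [Finsupp.degree_eq_sum, ← Finsupp.sum_fintype c (fun _ e => e) (fun _ => rfl)]
  obtain ⟨x, hxA, hx⟩ := combinatorial_nullstellensatz_exists_eval_nonzero f c hcf htd
    (fun _ => A) hclt
  apply hx
  by_cases hinj : Function.Injective x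
  · have hmem : (∑ i, x i) ∈ Cs := by
      rw [hCs, mem_image]
      refine ⟨univ.image x, ?_, ?_⟩
      · rw [mem_powersetCard]
        refine ⟨?_, ?_⟩
        · intro y hy
          obtain ⟨i, _, rfl⟩ := mem_image.mp hy
          exact hxA i
        · rw [card_image_of_injective _ hinj, card_univ, Fintype.card_fin]
      · rw [sum_image (fun a _ b _ h => hinj h)]
    have h1 : eval x (Polynomial.aeval (Lf p j) P) = 0 := by
      rw [hP, map_prod, map_prod]
      refine prod_eq_zero hmem ?_
      simp [Lf]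
    rw [hf, map_mul, h1, zero_mul]
  · have h1 : eval x (Vd p j) = 0 := by
      unfold Vd
      rw [RingHom.map_det]
      have h2 : (eval x).mapMatrix (Matrix.vandermonde fun i : Fin j => (X i : MvPolynomial (Fin j) (ZMod p)))
          = Matrix.vandermonde x := by
        ext a b
        simp [Matrix.vandermonde_apply]
      rw [h2]
      by_contra h3
      exact hinj (Matrix.det_vandermonde_ne_zero_iff.mp h3)
    rw [hf, map_mul, h1, mul_zero]

end Pool.Agent.Helper801.SubA
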