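import Pool.Agent.Helper801.SubA

open Finset
open scoped Pointwise

namespace Pool.Agent.Helper801.SubB

variable {p : ℕ} [Fact p.Prime]

theorem nonempty_of_le_card {p t : ℕ} (hp : 0 < p) {F : Finset (ZMod p)}
    (h : min p (1 + t) ≤ F.card) : F.Nonempty := by
  rw [← card_pos]
  have : 0 < min p (1 + t) := lt_min hp (by omega)
  omega

theorem cd_two {F G : Finset (ZMod p)} {s t : ℕ} (h1 : min p (1 + s) ≤ F.card)
    (h2 : min p (1 + t) ≤ G.card) : min p (1 + (s + t)) ≤ (F + G).card := by
  have hp : p.Prime := Fact.out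
  have h3 := ZMod.cauchy_davenport hp (nonempty_of_le_card hp.pos h1)
    (nonempty_of_le_card hp.pos h2)
  have := hp.pos
  omega

theorem cd_iter {ι : Type*} [DecidableEq ι] (J : Finset ι) (F : ι → Finset (ZMod p)) (t : ι → ℕ)
    (h : ∀ i ∈ J, min p (1 + t i) ≤ (F i).card) :
    min p (1 + ∑ i ∈ J, t i) ≤ (∑ i ∈ J, F i).card := by
  induction J using Finset.induction_on with
  | empty => simp
  | insert a J ha ih =>
    rw [sum_insert ha, sum_insert ha]
    exact cd_two (h a (mem_insert_self _ _)) (ih fun i hi => h i (mem_insert_of_mem hi))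

/-- half system of nonzero residues -/
def Hf (p : ℕ) [NeZero p] : Finset (ZMod p) := univ.filter fun c => 1 ≤ c.val ∧ c.val ≤ (p - 1) / 2

instance neZ : NeZero p := ⟨(Fact.out : p.Prime).ne_zero⟩

theorem mem_Hf {c : ZMod p} : c ∈ Hf p ↔ 1 ≤ c.val ∧ c.val ≤ (p - 1) / 2 := by
  unfold Hf; simp

theorem Hf_ne_zero {c : ZMod p} (h : c ∈ Hf p) : c ≠ 0 := by
  rintro rfl
  rw [mem_Hf] at h
  simp at h

theorem Hf_neg {c : ZMod p} (hc : c ≠ 0) (h2 : p ≠ 2) : -c ∈ Hf p ↔ c ∉ Hf p := by
  have hp : p.Prime := Fact.out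
  have hodd : p % 2 = 1 := hp.eq_two_or_odd.resolve_left h2
  rw [mem_Hf, mem_Hf]
  haveI : NeZero c := ⟨hc⟩
  rw [ZMod.val_neg_of_ne_zero]
  have h3 := ZMod.val_lt c
  have h4 : c.val ≠ 0 := by rwa [Ne, ZMod.val_eq_zero]
  omega

theorem Hf_card (h2 : p ≠ 2) : (Hf p).card = (p - 1) / 2 := by
  have hp : p.Prime := Fact.out
  have hodd : p % 2 = 1 := hp.eq_two_or_odd.resolve_left h2
  have h1 : (Hf p).image ZMod.val = Icc 1 ((p - 1) / 2) := by
    ext n
    simp only [mem_image, mem_Icc, mem_Hf]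
    constructor
    · rintro ⟨c, hc, rfl⟩; exact hc
    · intro hn
      have hlt : n < p := by omega
      refine ⟨(n : ZMod p), ?_, ZMod.val_cast_of_lt hlt⟩
      rw [ZMod.val_cast_of_lt hlt]; exact hn
  rw [← card_image_of_injective _ (ZMod.val_injective p), h1, Nat.card_Icc]
  omega

/-- subset sums of a set of nonzero residues -/
theorem subsetSum_card (Y : Finset (ZMod p)) (hY : (0 : ZMod p) ∉ Y) :
    min p (1 + (Y.card + 1) ^ 2 / 4) ≤ Y.subsetSum.card := by
  classical
  have hc : (insert (0 : ZMod p) Y).card = Y.card + 1 := card_insert_of_notMem hY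
  have h := SubA.ddsh (p := p) ((Y.card + 1) / 2) (insert 0 Y) (by rw [hc]; omega)
  have hsub : ((insert (0 : ZMod p) Y).powersetCard ((Y.card + 1) / 2)).image
      (fun B => ∑ x ∈ B, x) ⊆ Y.subsetSum := by
    intro z hz
    obtain ⟨B, hB, rfl⟩ := mem_image.mp hz
    rw [mem_powersetCard] at hB
    rw [mem_subsetSum_iff]
    refine ⟨B.erase 0, ?_, ?_⟩
    · intro x hx
      rw [mem_erase] at hx
      have := hB.1 hx.2
      rw [mem_insert] at this
      exact this.resolve_left hx.1
    · exact sum_erase _ rfl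
  have h3 := card_le_card hsub
  have h4 : ∀ y : ℕ, (y + 1) / 2 * (y + 1 - (y + 1) / 2) = (y + 1) ^ 2 / 4 := by
    intro y
    rcases Nat.even_or_odd' y with ⟨k, rfl | rfl⟩
    · have h5 : (2 * k + 1) / 2 = k := by omega
      rw [h5]
      have h6 : 2 * k + 1 - k = k + 1 := by omega
      rw [h6]
      have h7 : (2 * k + 1) ^ 2 = 4 * (k * (k + 1)) + 1 := by ring
      rw [h7]; omega
    · have h5 : (2 * k + 1 + 1) / 2 = k + 1 := by omega
      rw [h5]
      have h6 : 2 * k + 1 + 1 - (k + 1) = k + 1 := by omega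
      rw [h6]
      have h7 : (2 * k + 1 + 1) ^ 2 = 4 * ((k + 1) * (k + 1)) := by ring
      rw [h7]; omega
  rw [hc, h4] at h
  omega

/-- sums of j element subsets of an injective family -/
theorem ddsh_family {ι : Type*} [DecidableEq ι] (P : Finset ι) (f : ι → ZMod p)
    (hf : Set.InjOn f P) (j : ℕ) (hj : j ≤ P.card) :
    min p (1 + j * (P.card - j)) ≤ ((P.powersetCard j).image (fun B => ∑ x ∈ B, f x)).card := by
  classical
  have h := SubA.ddsh (p := p) j (P.image f) (by rwa [card_image_of_injOn hf])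
  rw [card_image_of_injOn hf] at h
  have hsub : ((P.image f).powersetCard j).image (fun B => ∑ x ∈ B, x) ⊆
      (P.powersetCard j).image (fun B => ∑ x ∈ B, f x) := by
    intro z hz
    obtain ⟨B, hB, rfl⟩ := mem_image.mp hz
    rw [mem_powersetCard] at hB
    rw [mem_image]
    obtain ⟨B', hB', hB2⟩ := subset_image_iff.mp hB.1
    have hinj : Set.InjOn f (B' : Set ι) := hf.mono (by exact_mod_cast hB')
    refine ⟨B', ?_, ?_⟩
    · rw [mem_powersetCard]
      refine ⟨hB', ?_⟩
      rw [← hB.2, ← hB2, card_image_of_injOn hinj]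
    · rw [← hB2, sum_image hinj]
  have h3 := card_le_card hsub
  omega

theorem range_smul_card (c : ZMod p) (hc : c ≠ 0) (w : ℕ) :
    min p (1 + w) ≤ ((range (w + 1)).image fun k : ℕ => (k : ZMod p) * c).card := by
  have h1 : ((range (min p (w + 1))).image fun k : ℕ => (k : ZMod p) * c).card = min p (w + 1) := by
    rw [card_image_of_injOn, card_range]
    intro a ha b hb hab
    simp only [coe_range, Set.mem_Iio, lt_min_iff] at ha hb
    simp only at hab
    have := mul_right_cancel₀ hc hab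
    rw [ZMod.natCast_eq_natCast_iff', Nat.mod_eq_of_lt ha.1, Nat.mod_eq_of_lt hb.1] at this
    exact this
  have h2 : ((range (min p (w + 1))).image fun k : ℕ => (k : ZMod p) * c) ⊆
      ((range (w + 1)).image fun k : ℕ => (k : ZMod p) * c) := by
    apply image_subset_image
    apply range_subset_range.mpr
    exact min_le_right _ _
  have h3 := card_le_card h2
  omega

/-- coverage lemma -/
theorem coverage (h2 : p ≠ 2) (w : ZMod p → ℕ)
    (h : p - 1 ≤ (∑ c ∈ Hf p, min (w c) 2 + 1) ^ 2 / 4 + ∑ c ∈ Hf p, (w c - min (w c) 2)) (r : ZMod p) :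
    ∃ k : ZMod p → ℕ, (∀ c ∈ Hf p, k c ≤ w c) ∧ ∑ c ∈ Hf p, (k c : ZMod p) * c = r := by
  classical
  have hp : p.Prime := Fact.out
  set Y1 := (Hf p).filter fun c => 1 ≤ w c with hY1
  set Y2 := ((Hf p).filter fun c => 2 ≤ w c).image (fun c => -c) with hY2
  have hdisj : Disjoint Y1 Y2 := by
    rw [disjoint_left]
    intro x hx1 hx2
    rw [hY1, mem_filter] at hx1
    rw [hY2, mem_image] at hx2
    obtain ⟨c, hc, rfl⟩ := hx2
    rw [mem_filter] at hc
    exact (Hf_neg (Hf_ne_zero hc.1) h2).mp hx1.1 hc.1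
  have h0 : (0 : ZMod p) ∉ Y1 ∪ Y2 := by
    rw [mem_union, not_or]
    constructor
    · intro hx; rw [hY1, mem_filter] at hx; exact Hf_ne_zero hx.1 rfl
    · intro hx
      rw [hY2, mem_image] at hx
      obtain ⟨c, hc, hc0⟩ := hx
      rw [mem_filter] at hc
      exact Hf_ne_zero hc.1 (by simpa using hc0)
  have hcard : (Y1 ∪ Y2).card = ∑ c ∈ Hf p, min (w c) 2 := by
    rw [card_union_of_disjoint hdisj, hY1, hY2, card_image_of_injective _ neg_injective,
      card_filter, card_filter, ← sum_add_distrib]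
    refine sum_congr rfl fun c _ => ?_
    split_ifs <;> omega
  have hS := subsetSum_card (Y1 ∪ Y2) h0
  rw [hcard] at hS
  have hF := cd_iter (Hf p) (fun c => (range (w c - min (w c) 2 + 1)).image fun k : ℕ => (k : ZMod p) * c)
    (fun c => w c - min (w c) 2) (fun c hc => range_smul_card c (Hf_ne_zero hc) _)
  have hT := cd_two hS hF
  have hfull : ((Y1 ∪ Y2).subsetSum + ∑ c ∈ Hf p, (range (w c - min (w c) 2 + 1)).image
      fun k : ℕ => (k : ZMod p) * c) = univ := by
    rw [← card_eq_iff_eq_univ, ZMod.card]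
    apply le_antisymm
    · have := card_le_univ ((Y1 ∪ Y2).subsetSum + ∑ c ∈ Hf p, (range (w c - min (w c) 2 + 1)).image
        fun k : ℕ => (k : ZMod p) * c)
      rwa [ZMod.card] at this
    · have := hp.pos
      omega
  have hr : r - ∑ c ∈ (Hf p).filter (fun c => 2 ≤ w c), c ∈ ((Y1 ∪ Y2).subsetSum + ∑ c ∈ Hf p,
      (range (w c - min (w c) 2 + 1)).image fun k : ℕ => (k : ZMod p) * c) := by
    rw [hfull]; exact mem_univ _
  rw [mem_add] at hr
  obtain ⟨u, hu, v, hv, huv⟩ := hr
  rw [mem_subsetSum_iff] at hu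
  obtain ⟨B, hB, rfl⟩ := hu
  have hv' : v ∈ (∑ c ∈ Hf p, (((range (w c - min (w c) 2 + 1)).image
      fun k : ℕ => (k : ZMod p) * c : Finset (ZMod p)) : Set (ZMod p))) := by
    rw [← coe_sum]; exact_mod_cast hv
  rw [Set.mem_finset_sum] at hv'
  obtain ⟨g, hg, rfl⟩ := hv'
  have hk' : ∀ c, ∃ k : ℕ, c ∈ Hf p → k ≤ w c - min (w c) 2 ∧ (k : ZMod p) * c = g c := by
    intro c
    by_cases hc : c ∈ Hf p
    · have := hg hc
      simp only [coe_image, Set.mem_image, coe_range, Set.mem_Iio] at this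
      obtain ⟨k, hk, hk2⟩ := this
      exact ⟨k, fun _ => ⟨by omega, hk2⟩⟩
    · exact ⟨0, fun h => absurd h hc⟩
  choose k' hk' using hk'
  refine ⟨fun c => k' c + (if c ∈ B then 1 else 0) + (if 2 ≤ w c ∧ -c ∉ B then 1 else 0), ?_, ?_⟩
  · intro c hc
    have h1 := (hk' c hc).1
    have h3 : c ∈ B → 1 ≤ w c := by
      intro hcB
      have := hB hcB
      rw [mem_union] at this
      rcases this with h | h
      · rw [hY1, mem_filter] at h; exact h.2
      · exfalso
        rw [hY2, mem_image] at h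
        obtain ⟨d, hd, hd2⟩ := h
        rw [mem_filter] at hd
        rw [← hd2] at hc
        exact (Hf_neg (Hf_ne_zero hd.1) h2).mp hc hd.1
    simp only
    split_ifs with ha hb hb <;> (try have := h3 ha) <;> omega
  · have hsplit : ∑ x ∈ B, x = ∑ c ∈ Hf p, ((if c ∈ B then c else 0) +
        (if 2 ≤ w c ∧ -c ∈ B then -c else 0)) := by
      have hB1 : B = (B ∩ Y1) ∪ (B ∩ Y2) := by
        rw [← inter_union_distrib_left]
        exact (inter_eq_left.mpr hB).symm
      have hBd : Disjoint (B ∩ Y1) (B ∩ Y2) :=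
        disjoint_of_subset_left inter_subset_right (disjoint_of_subset_right inter_subset_right hdisj)
      conv_lhs => rw [hB1]
      rw [sum_union hBd, sum_add_distrib]
      congr 1
      · rw [← sum_filter]
        apply sum_congr _ (fun _ _ => rfl)
        ext c
        rw [mem_inter, hY1, mem_filter, mem_filter]
        constructor
        · rintro ⟨ha, hb, _⟩; exact ⟨hb, ha⟩
        · rintro ⟨ha, hb⟩
          refine ⟨hb, ha, ?_⟩
          have := hB hb
          rw [mem_union] at this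
          rcases this with h | h
          · rw [hY1, mem_filter] at h; exact h.2
          · exfalso
            rw [hY2, mem_image] at h
            obtain ⟨d, hd, hd2⟩ := h
            rw [mem_filter] at hd
            rw [← hd2] at ha
            exact (Hf_neg (Hf_ne_zero hd.1) h2).mp ha hd.1
      · rw [← sum_filter]
        have : B ∩ Y2 = ((Hf p).filter fun c => 2 ≤ w c ∧ -c ∈ B).image (fun c => -c) := by
          ext x
          rw [mem_inter, hY2, mem_image, mem_image]
          constructor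
          · rintro ⟨ha, c, hc, rfl⟩
            rw [mem_filter] at hc
            exact ⟨c, by rw [mem_filter]; exact ⟨hc.1, hc.2, ha⟩, rfl⟩
          · rintro ⟨c, hc, rfl⟩
            rw [mem_filter] at hc
            exact ⟨hc.2.2, c, by rw [mem_filter]; exact ⟨hc.1, hc.2.1⟩, rfl⟩
        rw [this, sum_image (fun a _ b _ h => neg_injective h)]
    have hf2 : ∑ c ∈ (Hf p).filter (fun c => 2 ≤ w c), c = ∑ c ∈ Hf p, if 2 ≤ w c then c else 0 := by
      rw [sum_filter]
    have hr2 : r = ∑ x ∈ B, x + ∑ c ∈ Hf p, g c + ∑ c ∈ (Hf p).filter (fun c => 2 ≤ w c), c := by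
      rw [huv]; ring
    rw [hr2, hsplit, hf2, ← sum_add_distrib, ← sum_add_distrib]
    refine sum_congr rfl fun c hc => ?_
    rw [← (hk' c hc).2]
    push_cast
    by_cases ha : c ∈ B <;> by_cases hb : 2 ≤ w c <;> by_cases hd : -c ∈ B <;> simp [ha, hb, hd] <;> ring

end Pool.Agent.Helper801.SubB
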