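import Mathlib

open Finset

namespace Pool.Agent.Helper801.SubC

/-- existence of an intermediate function with prescribed sum -/
theorem exists_between {ι : Type*} [DecidableEq ι] (J : Finset ι) (l0 u : ι → ℕ) (L : ℕ)
    (h : ∀ i ∈ J, l0 i ≤ u i) (h1 : ∑ i ∈ J, l0 i ≤ L) (h2 : L ≤ ∑ i ∈ J, u i) :
    ∃ l : ι → ℕ, (∀ i ∈ J, l0 i ≤ l i ∧ l i ≤ u i) ∧ ∑ i ∈ J, l i = L := by
  induction J using Finset.induction_on generalizing L with
  | empty => 
    simp at h2
    exact ⟨fun _ => 0, by simp, by simp [h2]⟩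
  | insert a J ha ih =>
    rw [sum_insert ha] at h1 h2
    have hsum : ∑ i ∈ J, l0 i ≤ ∑ i ∈ J, u i := sum_le_sum fun i hi => h i (mem_insert_of_mem hi)
    have ha0 := h a (mem_insert_self _ _)
    set x := max (l0 a) (L - ∑ i ∈ J, u i) with hx
    have hx1 : l0 a ≤ x := le_max_left _ _
    have hx2 : x ≤ u a := max_le ha0 (by omega)
    have hx3 : x + ∑ i ∈ J, l0 i ≤ L := by
      rcases max_cases (l0 a) (L - ∑ i ∈ J, u i) with ⟨h5, _⟩ | ⟨h5, h6⟩ <;> rw [hx, h5] <;> omega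
    have hx4 : L ≤ x + ∑ i ∈ J, u i := by
      have : L - ∑ i ∈ J, u i ≤ x := le_max_right _ _
      omega
    obtain ⟨l, hl1, hl2⟩ := ih (L - x) (fun i hi => h i (mem_insert_of_mem hi)) (by omega) (by omega)
    refine ⟨Function.update l a x, ?_, ?_⟩
    · intro i hi
      rw [mem_insert] at hi
      rcases hi with rfl | hi
      · rw [Function.update_self]; exact ⟨hx1, hx2⟩
      · have : i ≠ a := fun h => ha (h ▸ hi)
        rw [Function.update_of_ne this]; exact hl1 i hi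
    · rw [sum_insert ha, Function.update_self]
      have : ∑ i ∈ J, Function.update l a x i = ∑ i ∈ J, l i := by
        refine sum_congr rfl fun i hi => ?_
        have : i ≠ a := fun h => ha (h ▸ hi)
        rw [Function.update_of_ne this]
      rw [this, hl2]; omega

/-- indicator of a positive even number -/
def ev (n : ℕ) : ℕ := if n % 2 = 0 ∧ 0 < n then 1 else 0

theorem ev_le (n : ℕ) : ev n ≤ 1 := by unfold ev; split_ifs <;> omega

theorem ev_cases (n : ℕ) : (n = 0 ∧ ev n = 0 ∧ n % 2 = 0) ∨ (n % 2 = 1 ∧ ev n = 0) ∨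
    (n % 2 = 0 ∧ 2 ≤ n ∧ ev n = 1) := by
  unfold ev
  split_ifs with h <;> omega

theorem decomp (n : ℕ) : n = 2 * ((n - 1) / 2) + (n % 2 + 2 * ev n) := by
  rcases ev_cases n with ⟨h, h2, h3⟩ | ⟨h, h2⟩ | ⟨h, h1, h2⟩ <;> rw [h2] <;> omega

theorem sq_lower (n : ℕ) : 6 * n ≤ n ^ 2 + 8 * ev n + 9 * (n % 2) := by
  rcases ev_cases n with ⟨h, h2, h3⟩ | ⟨h, h2⟩ | ⟨h, h1, h2⟩ <;> rw [h2]
  · rw [h]; norm_num
  · rw [h]
    have : (n : ℤ) ^ 2 + 9 ≥ 6 * n := by nlinarith [sq_nonneg ((n : ℤ) - 3)]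
    zify; linarith
  · rw [h]
    obtain ⟨k, rfl⟩ : ∃ k, n = 2 * k := ⟨n / 2, by omega⟩
    have hk : 1 ≤ k := by omega
    rcases Nat.lt_or_ge k 2 with h5 | h5
    · have : k = 1 := by omega
      subst this; norm_num
    · obtain ⟨t, rfl⟩ := Nat.exists_eq_add_of_le h5
      nlinarith

theorem sq_mod (n : ℕ) : ∃ k, n ^ 2 = 4 * k + n % 2 := by
  rcases Nat.even_or_odd' n with ⟨k, rfl | rfl⟩
  · exact ⟨k ^ 2, by ring_nf; omega⟩
  · refine ⟨k ^ 2 + k, ?_⟩
    have : (2 * k + 1) % 2 = 1 := by omega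
    rw [this]; ring

theorem arith_exc {p O E e s S : ℕ} (hs : s ≤ p - 2) (hS : S = 2 * p - 3 - s)
    (hex : (p = 11 ∧ O = 0 ∧ e = 3) ∨ (p = 11 ∧ O = 1 ∧ e = 3) ∨ (p = 13 ∧ O = 0 ∧ e = 4))
    (hlow : s ^ 2 + 2 * s + 6 * S ≤ 4 * (p - 1) + (O + 4 * e) + 8 * E + 9 * O) :
    2 * e ≤ E + 1 := by
  have h4 : s ^ 2 + 4 ≥ 4 * s := by zify; nlinarith [sq_nonneg ((s : ℤ) - 2)]
  subst hS
  rcases hex with ⟨rfl, rfl, rfl⟩ | ⟨rfl, rfl, rfl⟩ | ⟨rfl, rfl, rfl⟩ <;> omega

theorem arith_small (p K O e : ℕ) (hO : O ≤ 15) (hK : K ≤ (O + e + 1) ^ 2 / 4 + e ∨ 8 ≤ e)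
    (hK2 : K ≤ 16) : K ≤ (O + e + 1) ^ 2 / 4 + e := by
  rcases hK with h | h
  · exact h
  · have : (9 : ℕ) ^ 2 ≤ (O + e + 1) ^ 2 := Nat.pow_le_pow_left (by omega) 2
    omega

theorem arithA {p O e : ℕ} (hp : 11 ≤ p) (hodd : p % 2 = 1) (hOle : O ≤ p - 1)
    (hD1 : 2 * p ≤ O + 4 * e + 12)
    (hQ1 : 6 * p ^ 2 + 4 ≤ (p + 1) * (4 * (p - 1) + (O + 4 * e)) + 11 * p)
    (hex : ¬ ((p = 11 ∧ O = 0 ∧ e = 3) ∨ (p = 11 ∧ O = 1 ∧ e = 3) ∨ (p = 13 ∧ O = 0 ∧ e = 4))) :
    p - 1 ≤ (O + e + 1) ^ 2 / 4 + e := by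
  rcases Nat.lt_or_ge p 17 with hp17 | hp17
  · have hO16 : O ≤ 15 := by omega
    rcases Nat.lt_or_ge e 8 with he8 | he8
    · have hpc : p = 11 ∨ p = 13 ∨ p = 15 := by omega
      rcases hpc with rfl | rfl | rfl
      · clear hp17 hp hodd
        norm_num at hQ1 hex hOle ⊢
        interval_cases e <;> interval_cases O <;> first | omega | norm_num
      · clear hp17 hp hodd
        norm_num at hQ1 hex hOle ⊢
        interval_cases e <;> interval_cases O <;> first | omega | norm_num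
      · clear hp17 hp hodd
        norm_num at hQ1 hex hOle ⊢
        interval_cases e <;> interval_cases O <;> first | omega | norm_num
    · have : (9 : ℕ) ^ 2 ≤ (O + e + 1) ^ 2 := Nat.pow_le_pow_left (by omega) 2
      omega
  · have h4 : 4 * (p - 1) ≤ 2 * (O + 4 * e) + 20 := by omega
    have h5 : 2 * e + 20 ≤ (O + e) ^ 2 := by
      rcases Nat.lt_or_ge e 6 with h | h
      · have h6 : 7 ≤ O + e := by omega
        have : (7 : ℕ) ^ 2 ≤ (O + e) ^ 2 := Nat.pow_le_pow_left h6 2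
        omega
      · nlinarith
    have h6 : (O + e + 1) ^ 2 = (O + e) ^ 2 + 2 * (O + e) + 1 := by ring
    rw [h6]
    omega

theorem arithB {p O E U s S : ℕ} (hp : 11 ≤ p) (hs : s ≤ 2) (h3 : U ≤ O + E)
    (hS : S + s = 2 * p - 3) (hdec : S = 2 * U + (O + 2 * E)) :
    p - 1 ≤ (O + E + 1) ^ 2 / 4 + E := by
  have h4 : 12 * (O + E) ≤ (O + E + 1) ^ 2 + 24 := by
    zify; nlinarith [sq_nonneg (((O : ℤ) + E) - 5)]
  omega

theorem arithQ {p Q : ℕ} (hp : 11 ≤ p) (hQ1 : 6 * p ^ 2 + 4 ≤ (p + 1) * Q + 11 * p) :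
    6 * p ≤ Q + 16 := by
  by_contra hcon
  push Not at hcon
  have h1 : Q + 17 ≤ 6 * p := by omega
  have h2 : (p + 1) * (Q + 17) ≤ (p + 1) * (6 * p) := Nat.mul_le_mul_left _ h1
  nlinarith

theorem arithU {p s : ℕ} (hp : 11 ≤ p) (hodd : p % 2 = 1) (hs : s ≤ p - 2) :
    p - 1 ≤ (s + 1) ^ 2 / 4 + (2 * ((p - 2 - s) / 2) + (if 3 ≤ s then 0 else 2)) := by
  split_ifs with h
  · rcases Nat.eq_or_lt_of_le h with h6 | h6
    · rw [← h6]; norm_num; omega
    · have h7 : 4 * (s + 2) ≤ (s + 1) ^ 2 := by nlinarith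
      omega
  · have : s = 0 ∨ s = 1 ∨ s = 2 := by omega
    rcases this with h6 | h6 | h6 <;> rw [h6] <;> norm_num <;> omega

theorem unit_bound {n l : ℕ} (h5 : l ≤ (n - 1) / 2) :
    2 * l + (if 5 ≤ n ∧ 1 ≤ l then 2 else 0) ≤ l * (n - l) := by
  rcases Nat.eq_zero_or_pos l with h0 | h0
  · rw [h0]; simp
  · obtain ⟨t, ht⟩ : ∃ t, n = 2 * l + 1 + t := ⟨n - (2 * l + 1), by omega⟩
    rw [ht]
    have h6 : 2 * l + 1 + t - l = l + 1 + t := by omega
    rw [h6]
    split_ifs with h7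
    · rcases Nat.lt_or_ge l 2 with h8 | h8
      · have : l = 1 := by omega
        rw [this] at h7 ⊢
        omega
      · have h9 : 4 ≤ l * 2 := by omega
        have h10 : l * 2 ≤ l * l := Nat.mul_le_mul_left _ h8
        have h11 : l * (l + 1 + t) = l * l + l + l * t := by ring
        rw [h11]
        omega
    · have h11 : l * (l + 1 + t) = l * l + l + l * t := by ring
      have h12 : l * 1 ≤ l * l := Nat.mul_le_mul_left _ h0
      rw [h11]
      omega

section
variable {ι : Type*} [DecidableEq ι] (C : Finset ι)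

/-- the coverage bound -/
def cov (m : ι × Bool → ℕ) : ℕ :=
  (∑ c ∈ C, min (m (c, false) + m (c, true)) 2 + 1) ^ 2 / 4 +
    ∑ c ∈ C, (m (c, false) + m (c, true) - min (m (c, false) + m (c, true)) 2)

theorem sum_J (F : ι × Bool → ℕ) :
    ∑ i ∈ C ×ˢ (univ : Finset Bool), F i = ∑ c ∈ C, (F (c, false) + F (c, true)) := by
  rw [sum_product]
  refine sum_congr rfl fun c _ => ?_
  rw [Fintype.sum_bool, add_comm]

theorem cov_ge (m : ι × Bool → ℕ) (y : ℕ)
    (hy : y ≤ ∑ c ∈ C, min (m (c, false) + m (c, true)) 2) :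
    (y + 1) ^ 2 / 4 + (∑ i ∈ C ×ˢ (univ : Finset Bool), m i) ≤ cov C m + y := by
  unfold cov
  rw [sum_J]
  set Y := ∑ c ∈ C, min (m (c, false) + m (c, true)) 2 with hY
  have h1 : ∑ c ∈ C, (m (c, false) + m (c, true)) =
      ∑ c ∈ C, (m (c, false) + m (c, true) - min (m (c, false) + m (c, true)) 2) + Y := by
    rw [hY, ← sum_add_distrib]
    refine sum_congr rfl fun c _ => ?_
    omega
  rw [h1]
  obtain ⟨d, hd⟩ := Nat.exists_eq_add_of_le hy
  have h2 : (y + 1) ^ 2 / 4 + d ≤ (Y + 1) ^ 2 / 4 + 0 ∨ y = 0 := by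
    rcases Nat.eq_zero_or_pos y with h | h
    · right; exact h
    · left
      rw [hd]
      have h3 : (y + 1) ^ 2 + 4 * d ≤ (y + d + 1) ^ 2 := by nlinarith
      omega
  rcases h2 with h2 | h2
  · omega
  · subst h2
    have h5 : (0 + 1) ^ 2 / 4 = 0 := by norm_num
    rw [h5]
    have h6 : Y ≤ (Y + 1) ^ 2 / 4 := by
      rcases Nat.lt_or_ge Y 2 with h | h
      · interval_cases Y <;> norm_num
      · have : 4 * Y ≤ (Y + 1) ^ 2 := by nlinarith
        omega
    omega

/-- crude bound -/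
theorem cov_ge_sum (m : ι × Bool → ℕ) : (∑ i ∈ C ×ˢ (univ : Finset Bool), m i) ≤ cov C m := by
  have := cov_ge C m 0 (Nat.zero_le _)
  norm_num at this
  exact this

theorem numeric (p : ℕ) (hp : 11 ≤ p) (hodd : p % 2 = 1) (hC : 2 * C.card = p - 1)
    (N : ι × Bool → ℕ) (s : ℕ) (hs : s ≤ p - 2)
    (hsum : ∑ i ∈ C ×ˢ (univ : Finset Bool), N i + s = 2 * p - 3)
    (hQ : 6 * p ^ 2 + 4 ≤ (p + 1) * (4 * ((s + 1) ^ 2 / 4) +
      ∑ i ∈ C ×ˢ (univ : Finset Bool), N i ^ 2) + 11 * p) :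
    ∃ m : ι × Bool → ℕ, (∀ i ∈ C ×ˢ (univ : Finset Bool), m i ≤ N i ∧ (N i - m i) % 2 = 0) ∧
      4 * (p - 1) + ∑ i ∈ C ×ˢ (univ : Finset Bool), m i ^ 2 ≤
        4 * ((s + 1) ^ 2 / 4) + ∑ i ∈ C ×ˢ (univ : Finset Bool), N i ^ 2 ∧
      p - 1 ≤ cov C m := by
  set J := C ×ˢ (univ : Finset Bool) with hJ
  set g := (s + 1) ^ 2 / 4 with hg
  set Q := 4 * g + ∑ i ∈ J, N i ^ 2 with hQdef
  set O := ∑ i ∈ J, (N i % 2) with hO
  set E := ∑ i ∈ J, ev (N i) with hE
  set U := ∑ i ∈ J, ((N i - 1) / 2) with hU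
  have hJcard : J.card = p - 1 := by
    rw [hJ, card_product]; simp; omega
  have hOle : O ≤ p - 1 := by
    rw [← hJcard, hO, card_eq_sum_ones]
    exact sum_le_sum fun i _ => by omega
  -- D
  have hmod : ∃ k, Q = 4 * k + O := by
    choose k hk using sq_mod
    refine ⟨g + ∑ i ∈ J, k (N i), ?_⟩
    rw [hQdef, hO, mul_add, mul_sum, add_assoc, ← sum_add_distrib]
    congr 1
    exact sum_congr rfl fun i _ => hk (N i)
  have hQ1 : 6 * p ^ 2 + 4 ≤ (p + 1) * Q + 11 * p := hQ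
  have hD0 : 6 * p ≤ Q + 16 := arithQ hp hQ1
  obtain ⟨kq, hkq⟩ := hmod
  -- sums
  have hdec : ∑ i ∈ J, N i = 2 * U + (O + 2 * E) := by
    rw [hU, hO, hE, mul_sum, mul_sum, ← sum_add_distrib, ← sum_add_distrib]
    exact sum_congr rfl fun i _ => decomp (N i)
  have hg4 : (s + 1) ^ 2 ≤ 4 * g + 1 := by
    rw [hg]
    obtain ⟨k, hk⟩ := sq_mod (s + 1)
    rw [hk]; omega
  have hlow : s ^ 2 + 2 * s + 6 * ∑ i ∈ J, N i ≤ Q + 8 * E + 9 * O := by
    have h1 : 6 * ∑ i ∈ J, N i ≤ ∑ i ∈ J, N i ^ 2 + 8 * E + 9 * O := by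
      rw [hE, hO, mul_sum, mul_sum, mul_sum, ← sum_add_distrib, ← sum_add_distrib]
      exact sum_le_sum fun i _ => sq_lower (N i)
    have h2 : (s + 1) ^ 2 = s ^ 2 + 2 * s + 1 := by ring
    rw [hQdef]; omega
  -- choice by a function v below ev
  have key : ∀ v : ι × Bool → ℕ, (∀ i ∈ J, v i ≤ ev (N i)) →
      4 * (p - 1) + (O + 4 * ∑ i ∈ J, v i) ≤ Q →
      p - 1 ≤ cov C (fun i => N i % 2 + 2 * v i) →
      ∃ m : ι × Bool → ℕ, (∀ i ∈ J, m i ≤ N i ∧ (N i - m i) % 2 = 0) ∧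
      4 * (p - 1) + ∑ i ∈ J, m i ^ 2 ≤ Q ∧ p - 1 ≤ cov C m := by
    intro v hv h1 h2
    refine ⟨fun i => N i % 2 + 2 * v i, ?_, ?_, h2⟩
    · intro i hi
      have h3 := hv i hi
      rcases ev_cases (N i) with ⟨h, h4, h5⟩ | ⟨h, h4⟩ | ⟨h, h5, h4⟩ <;> rw [h4] at h3 <;>
        simp only <;> omega
    · have h3 : ∑ i ∈ J, (N i % 2 + 2 * v i) ^ 2 = O + 4 * ∑ i ∈ J, v i := by
        rw [hO, mul_sum, ← sum_add_distrib]
        refine sum_congr rfl fun i hi => ?_
        have h3 := hv i hi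
        rcases ev_cases (N i) with ⟨h, h4, h5⟩ | ⟨h, h4⟩ | ⟨h, h5, h4⟩ <;> rw [h4] at h3
        · have : v i = 0 := by omega
          rw [this, h5]; norm_num
        · have : v i = 0 := by omega
          rw [this, h]; norm_num
        · rcases (show v i = 0 ∨ v i = 1 by omega) with h6 | h6 <;> rw [h6, h] <;> norm_num
      simp only [h3]; exact h1
  -- lower bound of y
  have ykey : ∀ v : ι × Bool → ℕ, (∀ i ∈ J, v i ≤ ev (N i)) →
      O + ∑ i ∈ J, v i ≤ ∑ c ∈ C, min ((N (c, false) % 2 + 2 * v (c, false)) +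
        (N (c, true) % 2 + 2 * v (c, true))) 2 := by
    intro v hv
    rw [hO, ← sum_add_distrib, hJ, sum_J C (fun i => N i % 2 + v i)]
    refine sum_le_sum fun c hc => ?_
    have h1 := hv (c, false) (by rw [hJ]; simp [hc])
    have h2 := hv (c, true) (by rw [hJ]; simp [hc])
    have h3 : ∀ n, ev n + n % 2 ≤ 1 := by
      intro n
      rcases ev_cases n with ⟨h, h4, h5⟩ | ⟨h, h4⟩ | ⟨h, h5, h4⟩ <;> omega
    have h4 := h3 (N (c, false))
    have h5 := h3 (N (c, true))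
    omega
  have hWkey : ∀ v : ι × Bool → ℕ, ∑ i ∈ J, (N i % 2 + 2 * v i) = O + 2 * ∑ i ∈ J, v i := by
    intro v
    rw [hO, mul_sum, ← sum_add_distrib]
  by_cases hA : Q ≤ 4 * (p - 1) + (O + 4 * E)
  · -- case A
    set e := kq - (p - 1) with he
    have hQe : Q = 4 * (p - 1) + (O + 4 * e) := by omega
    have heE : e ≤ E := by omega
    have hD1 : 2 * p ≤ O + 4 * e + 12 := by omega
    -- exceptional triples
    by_cases hex : (p = 11 ∧ O = 0 ∧ e = 3) ∨ (p = 11 ∧ O = 1 ∧ e = 3) ∨ (p = 13 ∧ O = 0 ∧ e = 4)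
    · have hE2 : 2 * e ≤ E + 1 := by
        have h1 : ∑ i ∈ J, N i = 2 * p - 3 - s := by omega
        rw [h1, hQe] at hlow
        rcases hex with ⟨h1, h2, h3⟩ | ⟨h1, h2, h3⟩ | ⟨h1, h2, h3⟩ <;> rw [h2, h3, h1] at hlow <;>
          rw [h3] <;> rw [h1] at hs <;>
          (have : s ^ 2 + 4 ≥ 4 * s := by zify; nlinarith [sq_nonneg ((s : ℤ) - 2)]) <;> omega
      have hcl : e ≤ ∑ c ∈ C, min (ev (N (c, false)) + ev (N (c, true))) 1 := by
        have h1 : E ≤ 2 * ∑ c ∈ C, min (ev (N (c, false)) + ev (N (c, true))) 1 := by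
          rw [hE, hJ, sum_J C (fun i => ev (N i)), mul_sum]
          refine sum_le_sum fun c _ => ?_
          have h2 := ev_le (N (c, false))
          have h3 := ev_le (N (c, true))
          omega
        omega
      obtain ⟨v', hv1, hv2⟩ := exists_between C (fun _ => 0)
        (fun c => min (ev (N (c, false)) + ev (N (c, true))) 1) e (fun _ _ => Nat.zero_le _)
        (by simp) hcl
      set v : ι × Bool → ℕ := fun i => if i.2 = (if ev (N (i.1, false)) = 1 then false else true)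
        then v' i.1 else 0 with hv
      have hvc : ∀ c ∈ C, v (c, false) + v (c, true) = v' c ∧ v (c, false) ≤ ev (N (c, false)) ∧
          v (c, true) ≤ ev (N (c, true)) := by
        intro c hc
        have h1 := (hv1 c hc).2
        have h2 := ev_le (N (c, false))
        have h3 := ev_le (N (c, true))
        rw [hv]
        simp only
        by_cases h4 : ev (N (c, false)) = 1
        · rw [if_pos h4]; simp; omega
        · rw [if_neg h4]; simp; omega
      have hvle : ∀ i ∈ J, v i ≤ ev (N i) := by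
        intro i hi
        obtain ⟨c, b⟩ := i
        rw [hJ, mem_product] at hi
        cases b
        · exact (hvc c hi.1).2.1
        · exact (hvc c hi.1).2.2
      have hvsum : ∑ i ∈ J, v i = e := by
        rw [hJ, sum_J C v, ← hv2]
        exact sum_congr rfl fun c hc => (hvc c hc).1
      refine key v hvle (by rw [hvsum]; omega) ?_
      have h2 := cov_ge C (fun i => N i % 2 + 2 * v i) (2 * e) (by
        rw [← hv2, mul_sum]
        refine sum_le_sum fun c hc => ?_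
        have h5 := (hvc c hc).1
        have h6 := (hv1 c hc).2
        omega)
      rw [← hJ, hWkey, hvsum] at h2
      rcases hex with ⟨h1, h3, h4⟩ | ⟨h1, h3, h4⟩ | ⟨h1, h3, h4⟩ <;> rw [h4, h3] at h2 <;>
        norm_num at h2 <;> omega
    · obtain ⟨v, hv1, hv2⟩ := exists_between J (fun _ => 0) (fun i => ev (N i)) e
        (fun _ _ => Nat.zero_le _) (by simp) heE
      have hvle : ∀ i ∈ J, v i ≤ ev (N i) := fun i hi => (hv1 i hi).2
      refine key v hvle (by rw [hv2]; omega) ?_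
      have h2 := cov_ge C (fun i => N i % 2 + 2 * v i) (O + e) (by rw [← hv2]; exact ykey v hvle)
      rw [← hJ, hWkey, hv2] at h2
      -- (O+e+1)^2/4 + e ≥ p - 1
      have h3 : p - 1 ≤ (O + e + 1) ^ 2 / 4 + e :=
        arithA hp hodd hOle hD1 (by rw [← hQe]; exact hQ1) hex
      omega
  · -- case B
    push Not at hA
    by_cases hB1 : p - 1 ≤ O + 2 * E
    · refine key (fun i => ev (N i)) (fun i _ => le_rfl) (by rw [← hE]; omega) ?_
      refine le_trans ?_ (cov_ge_sum C _)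
      rw [← hJ, hWkey, ← hE]; exact hB1
    · push Not at hB1
      by_cases hsm : s ≤ 2 ∧ ∀ i ∈ J, N i ≤ 4
      · refine key (fun i => ev (N i)) (fun i _ => le_rfl) (by rw [← hE]; omega) ?_
        have h2 := cov_ge C (fun i => N i % 2 + 2 * ev (N i)) (O + E)
          (by rw [hE]; exact ykey _ fun i _ => le_rfl)
        rw [← hJ, hWkey, ← hE] at h2
        have h3 : U ≤ O + E := by
          rw [hU, hO, hE, ← sum_add_distrib]
          refine sum_le_sum fun i hi => ?_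
          have := hsm.2 i hi
          rcases ev_cases (N i) with ⟨h, h4, h5⟩ | ⟨h, h4⟩ | ⟨h, h5, h4⟩ <;> rw [h4] <;> omega
        have h5 := arithB hp hsm.1 h3 hsum hdec
        omega
      · -- units
        set L := (p - 2 - s) / 2 with hL
        have hUL : L ≤ U := by omega
        have hl0 : ∃ l0 : ι × Bool → ℕ, (∀ i ∈ J, l0 i ≤ (N i - 1) / 2) ∧ ∑ i ∈ J, l0 i ≤ L ∧
            (3 ≤ s ∨ ∃ i ∈ J, 5 ≤ N i ∧ l0 i = 1) := by
          by_cases hs3 : 3 ≤ s
          · exact ⟨fun _ => 0, fun _ _ => Nat.zero_le _, by simp, Or.inl hs3⟩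
          · have : ∃ i ∈ J, 4 < N i := by
              by_contra hcon
              push Not at hcon
              exact hsm ⟨by omega, hcon⟩
            obtain ⟨i, hi, hN⟩ := this
            refine ⟨fun k => if k = i then 1 else 0, ?_, ?_, Or.inr ⟨i, hi, hN, if_pos rfl⟩⟩
            · intro k hk
              simp only
              split_ifs with h
              · rw [h]; omega
              · omega
            · rw [sum_ite_eq' J i, if_pos hi]; omega
        obtain ⟨l0, hl1, hl2, hl3⟩ := hl0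
        obtain ⟨l, hl4, hl5⟩ := exists_between J l0 (fun i => (N i - 1) / 2) L hl1 hl2 hUL
        refine ⟨fun i => N i - 2 * l i, ?_, ?_, ?_⟩
        · intro i hi
          have := (hl4 i hi).2
          simp only
          omega
        · have h1 : ∀ i ∈ J, (N i - 2 * l i) ^ 2 + 4 * (l i * (N i - l i)) = N i ^ 2 := by
            intro i hi
            have := (hl4 i hi).2
            obtain ⟨t, ht⟩ : ∃ t, N i = 2 * l i + t := ⟨N i - 2 * l i, by omega⟩
            rw [ht]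
            have h2 : 2 * l i + t - 2 * l i = t := by omega
            have h3 : 2 * l i + t - l i = l i + t := by omega
            rw [h2, h3]; ring
          have h2 : ∑ i ∈ J, (N i - 2 * l i) ^ 2 + 4 * ∑ i ∈ J, l i * (N i - l i) =
              ∑ i ∈ J, N i ^ 2 := by
            rw [mul_sum, ← sum_add_distrib]
            exact sum_congr rfl h1
          have h3 : ∀ i ∈ J, 2 * l i + (if 5 ≤ N i ∧ 1 ≤ l i then 2 else 0) ≤ l i * (N i - l i) :=
            fun i hi => unit_bound (hl4 i hi).2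
          have h4 : 2 * L + (if 3 ≤ s then 0 else 2) ≤ ∑ i ∈ J, l i * (N i - l i) := by
            refine le_trans ?_ (sum_le_sum h3)
            rw [sum_add_distrib, ← mul_sum, hl5]
            have : (if 3 ≤ s then 0 else 2) ≤ ∑ i ∈ J, if 5 ≤ N i ∧ 1 ≤ l i then 2 else 0 := by
              split_ifs with h
              · exact Nat.zero_le _
              · rcases hl3 with h5 | ⟨i, hi, hN, hl⟩
                · exact absurd h5 h
                · have h6 : 1 ≤ l i := by rw [← hl]; exact (hl4 i hi).1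
                  calc 2 = if 5 ≤ N i ∧ 1 ≤ l i then 2 else 0 := by rw [if_pos ⟨hN, h6⟩]
                    _ ≤ _ := single_le_sum (f := fun i => if 5 ≤ N i ∧ 1 ≤ l i then 2 else 0)
                      (fun _ _ => Nat.zero_le _) hi
            omega
          have h5 : p - 1 ≤ g + (2 * L + (if 3 ≤ s then 0 else 2)) := arithU hp hodd hs
          simp only
          rw [hQdef, ← h2]
          omega
        · refine le_trans ?_ (cov_ge_sum C _)
          have h1 : ∑ i ∈ J, (N i - 2 * l i) + 2 * ∑ i ∈ J, l i = ∑ i ∈ J, N i := by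
            rw [mul_sum, ← sum_add_distrib]
            refine sum_congr rfl fun i hi => ?_
            have := (hl4 i hi).2
            omega
          simp only [← hJ]
          omega

end

end Pool.Agent.Helper801.SubC
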