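import Pool.Agent.Helper801.SubB

open Finset

namespace Pool.Agent.Helper801.SubD

open SubB

variable {p : ℕ} [Fact p.Prime]

/-- the directions -/
def phi (d : Option (ZMod p)) (x : ZMod p × ZMod p) : ZMod p :=
  match d with
  | none => x.1
  | some m => x.2 - m * x.1

theorem phi_add (d : Option (ZMod p)) (x y : ZMod p × ZMod p) : phi d (x + y) = phi d x + phi d y := by
  cases d with
  | none => rfl
  | some m => simp only [phi, Prod.fst_add, Prod.snd_add]; ring

theorem phi_neg (d : Option (ZMod p)) (x : ZMod p × ZMod p) : phi d (-x) = - phi d x := by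
  cases d with
  | none => rfl
  | some m => simp only [phi, Prod.fst_neg, Prod.snd_neg]; ring

theorem phi_sub (d : Option (ZMod p)) (x y : ZMod p × ZMod p) : phi d (x - y) = phi d x - phi d y := by
  rw [sub_eq_add_neg, phi_add, phi_neg, sub_eq_add_neg]

theorem phi_none (x : ZMod p × ZMod p) : phi none x = x.1 := rfl

theorem phi_some (m : ZMod p) (x : ZMod p × ZMod p) : phi (some m) x = x.2 - m * x.1 := rfl

theorem phi_unique (v : ZMod p × ZMod p) (hv : v ≠ 0) :
    ∑ d : Option (ZMod p), (if phi d v = 0 then 1 else 0) = 1 := by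
  rw [Fintype.sum_option]
  by_cases h1 : v.1 = 0
  · have h2 : v.2 ≠ 0 := fun h => hv (Prod.ext h1 h)
    have h3 : ∑ m : ZMod p, (if phi (some m) v = 0 then 1 else 0) = 0 := by
      apply sum_eq_zero
      intro m _
      rw [if_neg]
      rw [phi_some, h1, mul_zero, sub_zero]
      exact h2
    rw [if_pos (by rw [phi_none]; exact h1), h3]
  · rw [if_neg (by rw [phi_none]; exact h1), zero_add]
    rw [Finset.sum_eq_single (v.2 / v.1)]
    · rw [if_pos]
      rw [phi_some]; field_simp; simp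
    · intro b _ hb
      rw [if_neg]
      intro h
      apply hb
      rw [eq_div_iff h1]
      rw [phi_some, sub_eq_zero] at h
      exact h.symm
    · intro h; exact absurd (mem_univ _) h

/-- number of elements on the kernel line -/
def z (d : Option (ZMod p)) (P : Finset (ZMod p × ZMod p)) : ℕ := ∑ x ∈ P, if phi d x = 0 then 1 else 0

/-- pairs in the same nonzero class up to sign -/
def T (d : Option (ZMod p)) (P : Finset (ZMod p × ZMod p)) : ℕ :=
  ∑ x ∈ P, ∑ y ∈ P, if phi d x ≠ 0 ∧ (phi d x = phi d y ∨ phi d x = - phi d y) then 1 else 0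

theorem sum_z (P : Finset (ZMod p × ZMod p)) (h0 : (0 : ZMod p × ZMod p) ∉ P) :
    ∑ d : Option (ZMod p), z d P = P.card := by
  unfold z
  rw [sum_comm, card_eq_sum_ones]
  exact sum_congr rfl fun x hx => phi_unique x (fun h => h0 (h ▸ hx))

theorem two_ne (h2 : p ≠ 2) : (2 : ZMod p) ≠ 0 := by
  have hp : p.Prime := Fact.out
  intro h
  have : ((2 : ℕ) : ZMod p) = 0 := by exact_mod_cast h
  rw [ZMod.natCast_eq_zero_iff] at this
  exact h2 ((Nat.prime_dvd_prime_iff_eq hp Nat.prime_two).mp this)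

theorem sum_T (h2 : p ≠ 2) (P : Finset (ZMod p × ZMod p)) (h0 : (0 : ZMod p × ZMod p) ∉ P)
    (hP : ∀ x ∈ P, -x ∉ P) :
    ∑ d : Option (ZMod p), T d P + 2 * ∑ d : Option (ZMod p), z d P ^ 2 =
      2 * P.card ^ 2 + p * P.card := by
  have h2' := two_ne h2
  have h1 : ∀ d : Option (ZMod p), z d P ^ 2 = ∑ x ∈ P, ∑ y ∈ P,
      if phi d x = 0 ∧ phi d y = 0 then 1 else 0 := by
    intro d
    unfold z
    rw [sq, sum_mul_sum]
    refine sum_congr rfl fun x _ => sum_congr rfl fun y _ => ?_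
    by_cases hx : phi d x = 0 <;> by_cases hy : phi d y = 0 <;> simp [hx, hy]
  have h3 : ∀ x ∈ P, ∀ y ∈ P, ∑ d : Option (ZMod p),
      ((if phi d x ≠ 0 ∧ (phi d x = phi d y ∨ phi d x = - phi d y) then 1 else 0) +
        2 * (if phi d x = 0 ∧ phi d y = 0 then 1 else 0)) = 2 + (if x = y then p else 0) := by
    intro x hx y hy
    by_cases hxy : x = y
    · subst hxy
      rw [if_pos rfl]
      have h4 : ∀ d : Option (ZMod p), ((if phi d x ≠ 0 ∧ (phi d x = phi d x ∨ phi d x = - phi d x)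
          then 1 else 0) + 2 * (if phi d x = 0 ∧ phi d x = 0 then 1 else 0)) =
          1 + (if phi d x = 0 then 1 else 0) := by
        intro d
        by_cases h : phi d x = 0 <;> simp [h]
      rw [sum_congr rfl fun d _ => h4 d, sum_add_distrib, phi_unique x (fun h => h0 (h ▸ hx))]
      simp [ZMod.card]
      ring
    · rw [if_neg hxy]
      have h5 : x - y ≠ 0 := sub_ne_zero.mpr hxy
      have h6 : x + y ≠ 0 := by
        intro h
        have : y = -x := by rw [eq_neg_iff_add_eq_zero, add_comm]; exact h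
        exact hP x hx (this ▸ hy)
      have h4 : ∀ d : Option (ZMod p), ((if phi d x ≠ 0 ∧ (phi d x = phi d y ∨ phi d x = - phi d y)
          then 1 else 0) + 2 * (if phi d x = 0 ∧ phi d y = 0 then 1 else 0)) =
          (if phi d (x - y) = 0 then 1 else 0) + (if phi d (x + y) = 0 then 1 else 0) := by
        intro d
        rw [phi_sub, phi_add]
        by_cases ha : phi d x - phi d y = 0 <;> by_cases hb : phi d x + phi d y = 0
        · have hx0 : phi d x = 0 := by
            have : 2 * phi d x = 0 := by linear_combination ha + hb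
            exact (mul_eq_zero.mp this).resolve_left h2'
          have hy0 : phi d y = 0 := by rw [hx0, zero_add] at hb; exact hb
          simp [hx0, hy0]
        · have hxy' : phi d x = phi d y := sub_eq_zero.mp ha
          have hx0 : phi d x ≠ 0 := by
            intro h; apply hb; rw [← hxy', h, add_zero]
          have hy0 : phi d y ≠ 0 := hxy' ▸ hx0
          rw [if_pos ha, if_neg hb, if_pos ⟨hx0, Or.inl hxy'⟩, if_neg (fun h => hx0 h.1)]
        · have hxy' : phi d x = - phi d y := eq_neg_iff_add_eq_zero.mpr hb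
          have hx0 : phi d x ≠ 0 := by
            intro h; apply ha
            rw [h, zero_eq_neg] at hxy'
            rw [h, hxy', sub_zero]
          rw [if_neg ha, if_pos hb, if_pos ⟨hx0, Or.inr hxy'⟩, if_neg (fun h => hx0 h.1)]
        · rw [if_neg ha, if_neg hb, if_neg, if_neg]
          · rintro ⟨h, h'⟩; apply ha; rw [h, h', sub_zero]
          · rintro ⟨_, h | h⟩
            · exact ha (sub_eq_zero.mpr h)
            · exact hb (eq_neg_iff_add_eq_zero.mp h)
      rw [sum_congr rfl fun d _ => h4 d, sum_add_distrib, phi_unique _ h5, phi_unique _ h6]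
  have h7 : ∑ d : Option (ZMod p), T d P + 2 * ∑ d : Option (ZMod p), z d P ^ 2 =
      ∑ x ∈ P, ∑ y ∈ P, ∑ d : Option (ZMod p),
      ((if phi d x ≠ 0 ∧ (phi d x = phi d y ∨ phi d x = - phi d y) then 1 else 0) +
        2 * (if phi d x = 0 ∧ phi d y = 0 then 1 else 0)) := by
    rw [sum_congr rfl fun d _ => h1 d, mul_sum, ← sum_add_distrib]
    unfold T
    rw [sum_congr rfl (g := fun d : Option (ZMod p) => ∑ x ∈ P, ∑ y ∈ P,
      ((if phi d x ≠ 0 ∧ (phi d x = phi d y ∨ phi d x = - phi d y) then 1 else 0) +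
        2 * (if phi d x = 0 ∧ phi d y = 0 then 1 else 0)))]
    · rw [sum_comm]
      refine sum_congr rfl fun x _ => ?_
      rw [sum_comm]
    · intro d _
      rw [mul_sum, ← sum_add_distrib]
      refine sum_congr rfl fun x _ => ?_
      rw [mul_sum, ← sum_add_distrib]
  rw [h7, sum_congr rfl fun x hx => sum_congr rfl fun y hy => h3 x hx y hy]
  have h8 : ∀ x ∈ P, ∑ y ∈ P, (2 + (if x = y then p else 0)) = 2 * P.card + p := by
    intro x hx
    rw [sum_add_distrib, sum_const, smul_eq_mul, sum_ite_eq, if_pos hx, mul_comm]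
  rw [sum_congr rfl h8, sum_const, smul_eq_mul]
  ring

/-- the quantity that is averaged -/
def Qd (d : Option (ZMod p)) (P R : Finset (ZMod p × ZMod p)) : ℕ :=
  4 * ((z d P + z d R + 1) ^ 2 / 4) + (T d P + T d R)

theorem four_floor (s : ℕ) : 4 * ((s + 1) ^ 2 / 4) + 1 = (s + 1) ^ 2 + s % 2 := by
  rcases Nat.even_or_odd' s with ⟨k, rfl | rfl⟩
  · have h1 : (2 * k + 1) ^ 2 = 4 * (k ^ 2 + k) + 1 := by ring
    rw [h1]; omega
  · have h1 : (2 * k + 1 + 1) ^ 2 = 4 * (k + 1) ^ 2 := by ring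
    rw [h1]; omega

theorem sum_Qd (h2 : p ≠ 2) (P R : Finset (ZMod p × ZMod p)) (h0 : (0 : ZMod p × ZMod p) ∉ P)
    (h0' : (0 : ZMod p × ZMod p) ∉ R)
    (hP : ∀ x ∈ P, -x ∉ P) (hR : ∀ x ∈ R, -x ∉ R) (hPR : ∀ x ∈ R, -x ∈ P)
    (hodd : (P.card + R.card) % 2 = 1) :
    (P.card + R.card) ^ 2 + (p + 2) * (P.card + R.card) + 1 ≤ ∑ d : Option (ZMod p), Qd d P R := by
  have hz : ∀ d, z d R ≤ z d P := by
    intro d
    unfold z
    rw [← sum_filter, ← sum_filter, ← card_eq_sum_ones, ← card_eq_sum_ones]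
    refine card_le_card_of_injOn (fun x => -x) ?_ (fun a _ b _ h => neg_injective h)
    intro x hx
    simp only [coe_filter, Set.mem_setOf_eq] at hx ⊢
    exact ⟨hPR x hx.1, by rw [phi_neg, hx.2, neg_zero]⟩
  have hTP := sum_T h2 P h0 hP
  have hTR := sum_T h2 R h0' hR
  have hzP := sum_z P h0
  have hzR := sum_z R h0'
  have hsq : ∑ d : Option (ZMod p), ((z d P : ℤ) - z d R) ^ 2 ≤
      (∑ d : Option (ZMod p), ((z d P : ℤ) - z d R)) ^ 2 := by
    rw [sq (∑ d : Option (ZMod p), ((z d P : ℤ) - z d R)), sum_mul]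
    refine sum_le_sum fun d _ => ?_
    rw [sq]
    have hnn : ∀ d : Option (ZMod p), 0 ≤ (z d P : ℤ) - z d R := by
      intro d
      have := hz d
      omega
    apply mul_le_mul_of_nonneg_left _ (hnn d)
    exact single_le_sum (f := fun d : Option (ZMod p) => ((z d P : ℤ) - z d R)) (fun i _ => hnn i)
      (mem_univ d)
  have hone : 1 ≤ ∑ d : Option (ZMod p), (z d P + z d R) % 2 := by
    by_contra hcon
    push Not at hcon
    have h3 : ∑ d : Option (ZMod p), (z d P + z d R) % 2 = 0 := by omega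
    rw [sum_eq_zero_iff] at h3
    have h4 : (∑ d : Option (ZMod p), (z d P + z d R)) % 2 = 0 := by
      rw [← Nat.dvd_iff_mod_eq_zero]
      exact dvd_sum fun d hd => Nat.dvd_of_mod_eq_zero (h3 d hd)
    rw [sum_add_distrib, hzP, hzR] at h4
    omega
  have hQ : ∀ d : Option (ZMod p), (Qd d P R : ℤ) = 2 * (z d P : ℤ) ^ 2 + 2 * (z d R : ℤ) ^ 2 -
      ((z d P : ℤ) - z d R) ^ 2 + 2 * (z d P : ℤ) + 2 * z d R + (((z d P + z d R) % 2 : ℕ) : ℤ) +
      T d P + T d R := by
    intro d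
    unfold Qd
    have h5 := four_floor (z d P + z d R)
    have h6 : (4 * ((z d P + z d R + 1) ^ 2 / 4) : ℤ) + 1 = (z d P + z d R + 1) ^ 2 +
      (((z d P + z d R) % 2 : ℕ) : ℤ) := by exact_mod_cast h5
    push_cast at h6 ⊢
    linear_combination h6
  have hsum : (∑ d : Option (ZMod p), (Qd d P R : ℤ)) =
      2 * (∑ d : Option (ZMod p), (z d P : ℤ) ^ 2) + 2 * (∑ d : Option (ZMod p), (z d R : ℤ) ^ 2) -
      ∑ d : Option (ZMod p), ((z d P : ℤ) - z d R) ^ 2 + 2 * (∑ d : Option (ZMod p), (z d P : ℤ)) +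
      2 * (∑ d : Option (ZMod p), (z d R : ℤ)) +
      (∑ d : Option (ZMod p), (((z d P + z d R) % 2 : ℕ) : ℤ)) +
      (∑ d : Option (ZMod p), (T d P : ℤ)) + (∑ d : Option (ZMod p), (T d R : ℤ)) := by
    rw [sum_congr rfl fun d _ => hQ d]
    simp only [sum_add_distrib, sum_sub_distrib, mul_sum]
  zify at hTP hTR hzP hzR hone ⊢
  have hsub : (∑ d : Option (ZMod p), ((z d P : ℤ) - z d R)) = (P.card : ℤ) - R.card := by
    rw [sum_sub_distrib, hzP, hzR]
  rw [hsub] at hsq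
  rw [hsum]
  rw [hzP, hzR]
  push_cast at hone ⊢
  nlinarith [hTP, hTR, hsq, hone]

theorem exists_dir (h2 : p ≠ 2) (P R : Finset (ZMod p × ZMod p)) (h0 : (0 : ZMod p × ZMod p) ∉ P)
    (h0' : (0 : ZMod p × ZMod p) ∉ R)
    (hP : ∀ x ∈ P, -x ∉ P) (hR : ∀ x ∈ R, -x ∉ R) (hPR : ∀ x ∈ R, -x ∈ P)
    (hN : P.card + R.card = 2 * p - 3) :
    ∃ d : Option (ZMod p), 6 * p ^ 2 + 4 ≤ (p + 1) * Qd d P R + 11 * p := by
  have hp : p.Prime := Fact.out
  have hp3 : 3 ≤ p := by
    have := hp.two_le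
    omega
  have h := sum_Qd h2 P R h0 h0' hP hR hPR (by omega)
  rw [hN] at h
  by_contra hcon
  push Not at hcon
  have h1 : ∑ d : Option (ZMod p), ((p + 1) * Qd d P R + 11 * p + 1) ≤
      ∑ d : Option (ZMod p), (6 * p ^ 2 + 4) := sum_le_sum fun d _ => hcon d
  rw [sum_const, sum_add_distrib, sum_add_distrib, sum_const, sum_const, ← mul_sum] at h1
  simp only [card_univ, Fintype.card_option, ZMod.card, smul_eq_mul] at h1
  obtain ⟨q, rfl⟩ : ∃ q, p = q + 3 := ⟨p - 3, by omega⟩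
  have h3 : 2 * (q + 3) - 3 = 2 * q + 3 := by omega
  rw [h3] at h
  set X := ∑ d : Option (ZMod (q + 3)), Qd d P R
  nlinarith

/-- splitting a set into two antipode free parts -/
theorem exists_split (h2 : p ≠ 2) (S : Finset (ZMod p × ZMod p)) (h0 : (0 : ZMod p × ZMod p) ∉ S) :
    ∃ P R : Finset (ZMod p × ZMod p), Disjoint P R ∧ P ∪ R = S ∧ (∀ x ∈ P, -x ∉ P) ∧
      (∀ x ∈ R, -x ∉ R) ∧ (∀ x ∈ R, -x ∈ P) := by
  classical
  have hpos : ∀ x : ZMod p × ZMod p, x ≠ 0 → ((x.1 ∈ Hf p ∨ (x.1 = 0 ∧ x.2 ∈ Hf p)) ↔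
      ¬ ((-x).1 ∈ Hf p ∨ ((-x).1 = 0 ∧ (-x).2 ∈ Hf p))) := by
    intro x hx
    by_cases h1 : x.1 = 0
    · have h3 : x.2 ≠ 0 := fun h => hx (Prod.ext h1 h)
      have h4 := Hf_neg h3 h2
      have h5 : (0 : ZMod p) ∉ Hf p := fun h => Hf_ne_zero h rfl
      simp [h1, h5, h4]
    · have h4 := Hf_neg h1 h2
      simp [h1, h4]
  set R := S.filter (fun x => -x ∈ S ∧ ¬ (x.1 ∈ Hf p ∨ (x.1 = 0 ∧ x.2 ∈ Hf p))) with hR
  refine ⟨S \ R, R, sdiff_disjoint, ?_, ?_, ?_, ?_⟩
  · rw [sdiff_union_of_subset]; exact filter_subset _ _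
  · intro x hx hnx
    rw [mem_sdiff, hR, mem_filter] at hx hnx
    have hx0 : x ≠ 0 := fun h => h0 (h ▸ hx.1)
    have h3 := hpos x hx0
    have h4 : x.1 ∈ Hf p ∨ (x.1 = 0 ∧ x.2 ∈ Hf p) := by
      by_contra h; exact hx.2 ⟨hx.1, hnx.1, h⟩
    have h5 : (-x).1 ∈ Hf p ∨ ((-x).1 = 0 ∧ (-x).2 ∈ Hf p) := by
      by_contra h; exact hnx.2 ⟨hnx.1, by rw [neg_neg]; exact hx.1, h⟩
    exact (h3.mp h4) h5
  · intro x hx hnx
    rw [hR, mem_filter] at hx hnx
    have hx0 : x ≠ 0 := fun h => h0 (h ▸ hx.1)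
    have h3 := hpos x hx0
    exact hx.2.2 (h3.mpr hnx.2.2)
  · intro x hx
    rw [mem_sdiff]
    rw [hR, mem_filter] at hx ⊢
    have hx0 : x ≠ 0 := fun h => h0 (h ▸ hx.1)
    have h3 := hpos x hx0
    refine ⟨hx.2.1, ?_⟩
    rintro ⟨_, _, h5⟩
    exact hx.2.2 (h3.mpr h5)

end Pool.Agent.Helper801.SubD
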