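import Pool.Agent.Helper801.SubC
import Pool.Agent.Helper801.SubD

open Finset
open scoped Pointwise

namespace Pool.Agent.Helper801.SubE

open SubB SubC SubD

theorem flip {G : Type*} [AddCommGroup G] [DecidableEq G] (S : Finset G) (ng : G → Prop)
    [DecidablePred ng] (B' : Finset G) (hB' : B' ⊆ S) :
    ∃ B ⊆ S, ∑ x ∈ B, x = ∑ x ∈ S.filter ng, x + ∑ x ∈ B', (if ng x then -x else x) := by
  refine ⟨S.filter (fun x => (¬ ng x ∧ x ∈ B') ∨ (ng x ∧ x ∉ B')), filter_subset _ _, ?_⟩
  have h1 : ∑ x ∈ B', (if ng x then -x else x) = ∑ x ∈ S, if x ∈ B' then (if ng x then -x else x) else 0 := by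
    rw [← sum_filter]
    apply sum_congr _ (fun _ _ => rfl)
    ext x
    rw [mem_filter]
    exact ⟨fun h => ⟨hB' h, h⟩, fun h => h.2⟩
  rw [h1, sum_filter, sum_filter, ← sum_add_distrib]
  refine sum_congr rfl fun x _ => ?_
  by_cases h2 : ng x <;> by_cases h3 : x ∈ B' <;> simp [h2, h3]

variable {p : ℕ} [Fact p.Prime]

/-- elements in a class up to sign -/
def cls (X : Finset (ZMod p × ZMod p)) (c : ZMod p) : Finset (ZMod p × ZMod p) :=
  X.filter fun x => x.1 = c ∨ x.1 = -c

/-- representative in the half system -/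
def rp (u : ZMod p) : ZMod p := if u ∈ Hf p then u else -u

theorem rp_mem (h2 : p ≠ 2) {u : ZMod p} (hu : u ≠ 0) : rp u ∈ Hf p := by
  unfold rp
  split_ifs with h
  · exact h
  · exact (Hf_neg hu h2).mpr h

theorem rp_iff (h2 : p ≠ 2) {u c : ZMod p} (hu : u ≠ 0) (hc : c ∈ Hf p) :
    (u = c ∨ u = -c) ↔ c = rp u := by
  unfold rp
  constructor
  · rintro (h | h)
    · rw [h, if_pos hc]
    · rw [h, if_neg, neg_neg]
      intro h3
      exact (Hf_neg (Hf_ne_zero hc) h2).mp h3 hc
  · intro h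
    split_ifs at h with h3
    · left; exact h.symm
    · right; rw [h, neg_neg]

theorem sum_cls_one (h2 : p ≠ 2) (u : ZMod p) :
    ∑ c ∈ Hf p, (if u = c ∨ u = -c then 1 else 0) = if u = 0 then 0 else 1 := by
  by_cases hu : u = 0
  · rw [if_pos hu]
    apply sum_eq_zero
    intro c hc
    rw [if_neg]
    have := Hf_ne_zero hc
    rw [hu]
    rintro (h | h)
    · exact this h.symm
    · exact this (by rw [zero_eq_neg] at h; exact h)
  · rw [if_neg hu]
    rw [sum_congr rfl (g := fun c => if c = rp u then 1 else 0)]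
    · rw [sum_ite_eq', if_pos (rp_mem h2 hu)]
    · intro c hc
      simp only [rp_iff h2 hu hc]

theorem sum_cls_two (h2 : p ≠ 2) (u v : ZMod p) :
    ∑ c ∈ Hf p, (if u = c ∨ u = -c then 1 else 0) * (if v = c ∨ v = -c then 1 else 0) =
      if u ≠ 0 ∧ (u = v ∨ u = -v) then 1 else 0 := by
  by_cases hu : u = 0
  · rw [if_neg (by simp [hu])]
    apply sum_eq_zero
    intro c hc
    rw [if_neg, zero_mul]
    have := Hf_ne_zero hc
    rw [hu]
    rintro (h | h)
    · exact this h.symm
    · exact this (by rw [zero_eq_neg] at h; exact h)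
  · rw [sum_congr rfl (g := fun c => if c = rp u then (if v = c ∨ v = -c then 1 else 0) else 0)]
    · rw [sum_ite_eq', if_pos (rp_mem h2 hu)]
      have h3 : (v = rp u ∨ v = - rp u) ↔ (u ≠ 0 ∧ (u = v ∨ u = -v)) := by
        unfold rp
        split_ifs with h
        · constructor
          · rintro (h4 | h4)
            · exact ⟨hu, Or.inl h4.symm⟩
            · exact ⟨hu, Or.inr (by rw [h4, neg_neg])⟩
          · rintro ⟨_, h4 | h4⟩
            · left; exact h4.symm
            · right; rw [h4, neg_neg]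
        · constructor
          · rintro (h4 | h4)
            · exact ⟨hu, Or.inr (by rw [h4, neg_neg])⟩
            · exact ⟨hu, Or.inl (by rw [h4, neg_neg])⟩
          · rintro ⟨_, h4 | h4⟩
            · right; rw [h4, neg_neg]
            · left; rw [h4, neg_neg]
      simp only [h3]
    · intro c hc
      simp only [rp_iff h2 hu hc]
      by_cases h4 : c = rp u <;> simp [h4]

theorem cls_card (X : Finset (ZMod p × ZMod p)) (c : ZMod p) :
    (cls X c).card = ∑ x ∈ X, if x.1 = c ∨ x.1 = -c then 1 else 0 := by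
  unfold cls
  rw [card_filter]

theorem sum_cls_card (h2 : p ≠ 2) (X : Finset (ZMod p × ZMod p)) :
    ∑ c ∈ Hf p, (cls X c).card + z none X = X.card := by
  simp only [cls_card]
  rw [sum_comm, sum_congr rfl fun x _ => sum_cls_one h2 x.1]
  unfold z
  rw [← sum_add_distrib, card_eq_sum_ones]
  refine sum_congr rfl fun x _ => ?_
  rw [phi_none]
  split_ifs <;> rfl

theorem sum_cls_sq (h2 : p ≠ 2) (X : Finset (ZMod p × ZMod p)) :
    ∑ c ∈ Hf p, (cls X c).card ^ 2 = T none X := by
  simp only [cls_card, sq, sum_mul_sum]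
  rw [sum_comm]
  unfold T
  refine sum_congr rfl fun x _ => ?_
  rw [sum_comm]
  refine sum_congr rfl fun y _ => ?_
  rw [sum_cls_two h2]
  exact if_congr (by rw [phi_none, phi_none]) rfl rfl

/-- orientation predicate -/
def ng (x : ZMod p × ZMod p) : Prop := x.1 ≠ 0 ∧ x.1 ∉ Hf p

instance : DecidablePred (ng (p := p)) := fun x => by unfold ng; infer_instance

/-- oriented vector -/
def vv (x : ZMod p × ZMod p) : ZMod p × ZMod p := if ng x then -x else x

theorem vv_fst (h2 : p ≠ 2) {X : Finset (ZMod p × ZMod p)} {c : ZMod p} (hc : c ∈ Hf p)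
    {x : ZMod p × ZMod p} (hx : x ∈ cls X c) : (vv x).1 = c := by
  unfold cls at hx
  rw [mem_filter] at hx
  unfold vv
  rcases hx.2 with h | h
  · have h4 : ¬ ng x := by
      unfold ng
      rw [h]; rintro ⟨_, h3⟩; exact h3 hc
    rw [if_neg h4, h]
  · have h4 : ng x := by
      unfold ng
      rw [h]
      refine ⟨neg_ne_zero.mpr (Hf_ne_zero hc), ?_⟩
      intro h3
      exact (Hf_neg (Hf_ne_zero hc) h2).mp h3 hc
    rw [if_pos h4, Prod.fst_neg, h, neg_neg]

theorem vv_injOn (h2 : p ≠ 2) {X : Finset (ZMod p × ZMod p)} (hX : ∀ x ∈ X, -x ∉ X)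
    {c : ZMod p} (hc : c ∈ Hf p) : Set.InjOn (fun x => (vv x).2) (cls X c : Set (ZMod p × ZMod p)) := by
  intro x hx y hy hxy
  have h3 : vv x = vv y := Prod.ext (by rw [vv_fst h2 hc hx, vv_fst h2 hc hy]) hxy
  unfold cls at hx hy
  rw [mem_coe, mem_filter] at hx hy
  unfold vv at h3
  split_ifs at h3 with h4 h5 h5
  · exact neg_injective h3
  · exfalso
    apply hX x hx.1
    rw [h3]; exact hy.1
  · exfalso
    apply hX y hy.1
    rw [← h3]; exact hx.1
  · exact h3

/-- number of elements of the components -/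
def NN (P R : Finset (ZMod p × ZMod p)) (i : ZMod p × Bool) : ℕ :=
  (cls (if i.2 then R else P) i.1).card

theorem NN_sum (h2 : p ≠ 2) (P R : Finset (ZMod p × ZMod p)) :
    ∑ i ∈ Hf p ×ˢ (univ : Finset Bool), NN P R i + (z none P + z none R) = P.card + R.card := by
  rw [sum_J (Hf p) (NN P R), sum_add_distrib]
  have h3 := sum_cls_card h2 P
  have h4 := sum_cls_card h2 R
  change ∑ c ∈ Hf p, (cls P c).card + ∑ c ∈ Hf p, (cls R c).card + _ = _
  omega

theorem NN_sq (h2 : p ≠ 2) (P R : Finset (ZMod p × ZMod p)) :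
    ∑ i ∈ Hf p ×ˢ (univ : Finset Bool), NN P R i ^ 2 = T none P + T none R := by
  rw [sum_J (Hf p) (fun i => NN P R i ^ 2), sum_add_distrib, ← sum_cls_sq h2 P, ← sum_cls_sq h2 R]
  rfl

theorem span_core (h2 : p ≠ 2) (S P R : Finset (ZMod p × ZMod p))
    (h0 : (0 : ZMod p × ZMod p) ∉ S) (hdisj : Disjoint P R) (hPR : P ∪ R = S)
    (hP : ∀ x ∈ P, -x ∉ P) (hR : ∀ x ∈ R, -x ∉ R)
    (m : ZMod p × Bool → ℕ)
    (hm1 : ∀ i ∈ Hf p ×ˢ (univ : Finset Bool), m i ≤ NN P R i ∧ (NN P R i - m i) % 2 = 0)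
    (hm2 : 4 * (p - 1) + ∑ i ∈ Hf p ×ˢ (univ : Finset Bool), m i ^ 2 ≤
        4 * ((z none P + z none R + 1) ^ 2 / 4) + ∑ i ∈ Hf p ×ˢ (univ : Finset Bool), NN P R i ^ 2)
    (hm3 : p - 1 ≤ cov (Hf p) m) (t : ZMod p × ZMod p) :
    ∃ B ⊆ S, ∑ x ∈ B, x = t := by
  classical
  have hp : p.Prime := Fact.out
  have hodd : p % 2 = 1 := hp.eq_two_or_odd.resolve_left h2
  set X : Bool → Finset (ZMod p × ZMod p) := fun b => if b then R else P with hX
  have hXanti : ∀ b, ∀ x ∈ X b, -x ∉ X b := by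
    intro b; cases b
    · exact hP
    · exact hR
  have hXS : ∀ b, X b ⊆ S := by
    intro b; rw [← hPR]; cases b
    · exact subset_union_left
    · exact subset_union_right
  set comp : ZMod p × Bool → Finset (ZMod p × ZMod p) := fun i => cls (X i.2) i.1 with hcomp
  set N : ZMod p × Bool → ℕ := NN P R with hN
  set s := z none P + z none R with hsdef
  -- translation
  set τ := ∑ x ∈ S.filter ng, x with hτ
  set J := Hf p ×ˢ (univ : Finset Bool) with hJ
  suffices hmain : ∃ B' ⊆ S, ∑ x ∈ B', vv x = t - τ by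
    obtain ⟨B', hB', hsumB⟩ := hmain
    obtain ⟨B, hB, hB2⟩ := flip S ng B' hB'
    refine ⟨B, hB, ?_⟩
    rw [hB2]
    change τ + ∑ x ∈ B', vv x = t
    rw [hsumB]; abel
  -- choice of the numbers j
  obtain ⟨k, hk1, hk2⟩ := coverage h2 (fun c => m (c, false) + m (c, true)) hm3
    ((t - τ).1 - ∑ i ∈ J, (((N i - m i) / 2 : ℕ) : ZMod p) * i.1)
  set kk : ZMod p × Bool → ℕ := fun i => if i.2 then k i.1 - min (k i.1) (m (i.1, false))
    else min (k i.1) (m (i.1, false)) with hkk
  have hkk1 : ∀ i ∈ J, kk i ≤ m i := by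
    rintro ⟨c, b⟩ hi
    rw [hJ, mem_product] at hi
    have h3 := hk1 c hi.1
    cases b
    · simp [hkk]
    · simp [hkk]; omega
  have hkk2 : ∑ i ∈ J, (kk i : ZMod p) * i.1 = ∑ c ∈ Hf p, (k c : ZMod p) * c := by
    rw [hJ, sum_product]
    refine sum_congr rfl fun c hc => ?_
    rw [Fintype.sum_bool]
    have h3 : k c = kk (c, true) + kk (c, false) := by
      simp [hkk]
    rw [h3]; push_cast; ring
  set j : ZMod p × Bool → ℕ := fun i => (N i - m i) / 2 + kk i with hj
  have hjN : ∀ i ∈ J, j i ≤ N i := by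
    intro i hi
    have h3 := hm1 i hi
    have h4 := hkk1 i hi
    simp only [hj]
    omega
  have hjsum : ∑ i ∈ J, (j i : ZMod p) * i.1 = (t - τ).1 := by
    simp only [hj]
    push_cast
    simp only [add_mul, sum_add_distrib]
    rw [hkk2, hk2]
    abel
  have hgrow : p - 1 ≤ (s + 1) ^ 2 / 4 + ∑ i ∈ J, j i * (N i - j i) := by
    have h3 : ∀ i ∈ J, N i ^ 2 ≤ 4 * (j i * (N i - j i)) + m i ^ 2 := by
      intro i hi
      have h4 := hm1 i hi
      have h5 := hkk1 i hi
      obtain ⟨a, ha⟩ : ∃ a, N i = m i + 2 * a := ⟨(N i - m i) / 2, by omega⟩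
      obtain ⟨b, hb⟩ : ∃ b, m i = kk i + b := ⟨m i - kk i, by omega⟩
      have h6 : j i = a + kk i := by simp only [hj]; omega
      have h7 : N i - j i = a + b := by omega
      rw [h7, h6, ha, hb]
      nlinarith [Nat.zero_le (a * a), Nat.zero_le (kk i * b)]
    have h4 := sum_le_sum h3
    rw [sum_add_distrib, ← mul_sum] at h4
    omega
  -- the fibres
  set F : ZMod p × Bool → Finset (ZMod p) := fun i =>
    ((comp i).powersetCard (j i)).image (fun B => ∑ x ∈ B, (vv x).2) with hF
  have hFcard : ∀ i ∈ J, min p (1 + j i * (N i - j i)) ≤ (F i).card := by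
    intro i hi
    rw [hJ, mem_product] at hi
    exact ddsh_family (comp i) (fun x => (vv x).2) (vv_injOn h2 (hXanti i.2) hi.1) (j i)
      (hjN i (by rw [hJ, mem_product]; exact hi))
  set S0 := S.filter (fun x => x.1 = 0) with hS0
  have hS0card : S0.card = s := by
    rw [hS0, ← hPR, filter_union, card_union_of_disjoint (disjoint_filter_filter hdisj), hsdef]
    unfold z
    rw [card_filter, card_filter]
    rfl
  set F0 := S0.powerset.image (fun B => ∑ x ∈ B, x.2) with hF0
  have hinj0 : Set.InjOn Prod.snd (S0 : Set (ZMod p × ZMod p)) := by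
    intro x hx y hy hxy
    rw [hS0, mem_coe, mem_filter] at hx hy
    exact Prod.ext (by rw [hx.2, hy.2]) hxy
  have hF0card : min p (1 + (s + 1) ^ 2 / 4) ≤ F0.card := by
    have h3 := subsetSum_card (S0.image Prod.snd) (by
      intro h
      obtain ⟨x, hx, hx2⟩ := mem_image.mp h
      rw [hS0, mem_filter] at hx
      exact h0 ((Prod.ext hx.2 hx2 : x = 0) ▸ hx.1))
    rw [card_image_of_injOn hinj0, hS0card] at h3
    refine h3.trans (card_le_card ?_)
    intro y hy
    rw [mem_subsetSum_iff] at hy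
    obtain ⟨B, hB, rfl⟩ := hy
    obtain ⟨B', hB', rfl⟩ := subset_image_iff.mp hB
    have hB'' : B' ⊆ S0 := by exact_mod_cast hB'
    rw [hF0, mem_image]
    refine ⟨B', mem_powerset.mpr hB'', ?_⟩
    rw [sum_image (hinj0.mono hB')]
  have htot := cd_two hF0card (cd_iter J F (fun i => j i * (N i - j i)) hFcard)
  have hfull : F0 + ∑ i ∈ J, F i = univ := by
    rw [← card_eq_iff_eq_univ, ZMod.card]
    apply le_antisymm
    · have := card_le_univ (F0 + ∑ i ∈ J, F i)
      rwa [ZMod.card] at this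
    · have := hp.pos
      omega
  have hmem : (t - τ).2 ∈ F0 + ∑ i ∈ J, F i := by rw [hfull]; exact mem_univ _
  rw [mem_add] at hmem
  obtain ⟨u, hu, v, hv, huv⟩ := hmem
  rw [hF0, mem_image] at hu
  obtain ⟨B0, hB0, rfl⟩ := hu
  rw [mem_powerset] at hB0
  have hv' : v ∈ (∑ i ∈ J, ((F i : Finset (ZMod p)) : Set (ZMod p))) := by
    rw [← coe_sum]; exact_mod_cast hv
  rw [Set.mem_finset_sum] at hv'
  obtain ⟨g, hg, rfl⟩ := hv'
  have hBi : ∀ i, ∃ B : Finset (ZMod p × ZMod p), i ∈ J → B ⊆ comp i ∧ B.card = j i ∧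
      ∑ x ∈ B, (vv x).2 = g i := by
    intro i
    by_cases hi : i ∈ J
    · have h3 := hg hi
      rw [mem_coe, hF, mem_image] at h3
      obtain ⟨B, hB, hB2⟩ := h3
      rw [mem_powersetCard] at hB
      exact ⟨B, fun _ => ⟨hB.1, hB.2, hB2⟩⟩
    · exact ⟨∅, fun h => absurd h hi⟩
  choose Bi hBi using hBi
  refine ⟨B0 ∪ J.biUnion Bi, ?_, ?_⟩
  · apply union_subset
    · exact hB0.trans (filter_subset _ _)
    · rw [biUnion_subset]
      intro i hi
      exact ((hBi i hi).1.trans (filter_subset _ _)).trans (hXS i.2)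
  · have hd1 : Disjoint B0 (J.biUnion Bi) := by
      rw [disjoint_biUnion_right]
      intro i hi
      rw [disjoint_left]
      intro x hx hx2
      have h3 := hB0 hx
      rw [hS0, mem_filter] at h3
      have h4 := (hBi i hi).1 hx2
      rw [hJ, mem_product] at hi
      have h5 := Hf_ne_zero hi.1
      simp only [hcomp] at h4
      unfold cls at h4
      rw [mem_filter, h3.2] at h4
      rcases h4.2 with h | h
      · exact h5 h.symm
      · exact h5 (by rw [zero_eq_neg] at h; exact h)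
    have hd2 : Set.PairwiseDisjoint (J : Set (ZMod p × Bool)) Bi := by
      intro i hi i' hi' hne
      rw [Function.onFun, disjoint_left]
      intro x hx hx'
      apply hne
      have h3 := (hBi i hi).1 hx
      have h4 := (hBi i' hi').1 hx'
      rw [mem_coe, hJ, mem_product] at hi hi'
      simp only [hcomp] at h3 h4
      unfold cls at h3 h4
      rw [mem_filter] at h3 h4
      have hx0 : x.1 ≠ 0 := by
        intro h
        rw [h] at h3
        rcases h3.2 with h5 | h5
        · exact Hf_ne_zero hi.1 h5.symm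
        · exact Hf_ne_zero hi.1 (by rw [zero_eq_neg] at h5; exact h5)
      have h5 := (rp_iff h2 hx0 hi.1).mp h3.2
      have h6 := (rp_iff h2 hx0 hi'.1).mp h4.2
      have h7 : i.2 = i'.2 := by
        have h8 := h3.1
        have h9 := h4.1
        rcases hb : i.2 with _ | _ <;> rcases hb' : i'.2 with _ | _
        · rfl
        · exfalso
          rw [hb] at h8; rw [hb'] at h9
          exact (disjoint_left.mp hdisj) h8 h9
        · exfalso
          rw [hb] at h8; rw [hb'] at h9
          exact (disjoint_left.mp hdisj) h9 h8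
        · rfl
      exact Prod.ext (h5.trans h6.symm) h7
    rw [sum_union hd1, sum_biUnion hd2]
    have hv0 : ∀ x ∈ B0, vv x = (0, x.2) := by
      intro x hx
      have h3 := hB0 hx
      rw [hS0, mem_filter] at h3
      have h4 : ¬ ng x := by
        unfold ng
        exact fun h => h.1 h3.2
      unfold vv
      rw [if_neg h4]
      exact Prod.ext h3.2 rfl
    apply Prod.ext
    · rw [Prod.fst_add, Prod.fst_sum, Prod.fst_sum]
      rw [sum_eq_zero (fun x hx => by rw [hv0 x hx]), zero_add, ← hjsum]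
      refine sum_congr rfl fun i hi => ?_
      rw [Prod.fst_sum, ← (hBi i hi).2.1]
      rw [sum_congr rfl (g := fun _ => i.1)]
      · rw [sum_const, nsmul_eq_mul]
      · intro x hx
        rw [hJ, mem_product] at hi
        exact vv_fst h2 hi.1 ((hBi i (by rw [hJ, mem_product]; exact hi)).1 hx)
    · rw [Prod.snd_add, Prod.snd_sum, Prod.snd_sum, ← huv]
      congr 1
      · exact sum_congr rfl fun x hx => by rw [hv0 x hx]
      · refine sum_congr rfl fun i hi => ?_
        rw [Prod.snd_sum, (hBi i hi).2.2]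

theorem span_fst (hp11 : 11 ≤ p) (S P R : Finset (ZMod p × ZMod p))
    (h0 : (0 : ZMod p × ZMod p) ∉ S) (hdisj : Disjoint P R) (hPR : P ∪ R = S)
    (hP : ∀ x ∈ P, -x ∉ P) (hR : ∀ x ∈ R, -x ∉ R)
    (hcard : S.card = 2 * p - 3) (hs : z none P + z none R ≤ p - 2)
    (hQ : 6 * p ^ 2 + 4 ≤ (p + 1) * Qd none P R + 11 * p) (t : ZMod p × ZMod p) :
    ∃ B ⊆ S, ∑ x ∈ B, x = t := by
  have hp : p.Prime := Fact.out
  have h2 : p ≠ 2 := by omega
  have hodd : p % 2 = 1 := hp.eq_two_or_odd.resolve_left h2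
  have hPcard : P.card + R.card = 2 * p - 3 := by
    rw [← card_union_of_disjoint hdisj, hPR, hcard]
  obtain ⟨m, hm1, hm2, hm3⟩ := numeric (Hf p) p hp11 hodd (by rw [Hf_card h2]; omega) (NN P R)
    (z none P + z none R) hs (by rw [NN_sum h2, hPcard]) (by rw [NN_sq h2]; exact hQ)
  exact span_core h2 S P R h0 hdisj hPR hP hR m hm1 hm2 hm3 t

theorem span_rich (h2 : p ≠ 2) (S P R : Finset (ZMod p × ZMod p))
    (h0 : (0 : ZMod p × ZMod p) ∉ S) (hdisj : Disjoint P R) (hPR : P ∪ R = S)
    (hP : ∀ x ∈ P, -x ∉ P) (hR : ∀ x ∈ R, -x ∉ R)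
    (hcard : p - 1 + (z none P + z none R) ≤ S.card)
    (hg : p - 1 ≤ (z none P + z none R + 1) ^ 2 / 4) (t : ZMod p × ZMod p) :
    ∃ B ⊆ S, ∑ x ∈ B, x = t := by
  have hPcard : P.card + R.card = S.card := by
    rw [← card_union_of_disjoint hdisj, hPR]
  refine span_core h2 S P R h0 hdisj hPR hP hR (NN P R) (fun i _ => ⟨le_rfl, by simp⟩) ?_ ?_ t
  · omega
  · refine le_trans ?_ (cov_ge_sum (Hf p) _)
    have := NN_sum h2 P R
    omega

end Pool.Agent.Helper801.SubE
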