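import Pool.Agent.Helper801.SubE

open Finset

namespace Pool.Agent.Helper801.SubF

open SubB SubC SubD SubE

variable {p : ℕ} [Fact p.Prime]

/-- every element is a subset sum -/
def Spans (S : Finset (ZMod p × ZMod p)) : Prop := ∀ t, ∃ B ⊆ S, ∑ x ∈ B, x = t

/-- linear automorphism -/
def lin (a b c d : ZMod p) (h : a * d - b * c ≠ 0) : (ZMod p × ZMod p) ≃+ (ZMod p × ZMod p) where
  toFun x := (a * x.1 + b * x.2, c * x.1 + d * x.2)
  invFun y := ((d * y.1 - b * y.2) * (a * d - b * c)⁻¹, (a * y.2 - c * y.1) * (a * d - b * c)⁻¹)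
  left_inv x := by
    apply Prod.ext
    · simp only
      have h1 : (d * (a * x.1 + b * x.2) - b * (c * x.1 + d * x.2)) = x.1 * (a * d - b * c) := by ring
      rw [h1, mul_assoc, mul_inv_cancel₀ h, mul_one]
    · simp only
      have h1 : (a * (c * x.1 + d * x.2) - c * (a * x.1 + b * x.2)) = x.2 * (a * d - b * c) := by ring
      rw [h1, mul_assoc, mul_inv_cancel₀ h, mul_one]
  right_inv y := by
    apply Prod.ext
    · simp only
      have h1 : a * ((d * y.1 - b * y.2) * (a * d - b * c)⁻¹) +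
        b * ((a * y.2 - c * y.1) * (a * d - b * c)⁻¹) = y.1 * ((a * d - b * c) * (a * d - b * c)⁻¹) := by
        ring
      rw [h1, mul_inv_cancel₀ h, mul_one]
    · simp only
      have h1 : c * ((d * y.1 - b * y.2) * (a * d - b * c)⁻¹) +
        d * ((a * y.2 - c * y.1) * (a * d - b * c)⁻¹) = y.2 * ((a * d - b * c) * (a * d - b * c)⁻¹) := by
        ring
      rw [h1, mul_inv_cancel₀ h, mul_one]
  map_add' x y := by
    apply Prod.ext
    · simp only [Prod.fst_add, Prod.snd_add]; ring
    · simp only [Prod.fst_add, Prod.snd_add]; ring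

theorem lin_apply (a b c d : ZMod p) (h : a * d - b * c ≠ 0) (x : ZMod p × ZMod p) :
    lin a b c d h x = (a * x.1 + b * x.2, c * x.1 + d * x.2) := rfl

theorem spans_of_image (e : (ZMod p × ZMod p) ≃+ (ZMod p × ZMod p)) (S : Finset (ZMod p × ZMod p))
    (h : Spans (S.image e)) : Spans S := by
  intro t
  obtain ⟨B, hB, hB2⟩ := h (e t)
  obtain ⟨B', hB', hB3⟩ := subset_image_iff.mp hB
  have hB'' : B' ⊆ S := by exact_mod_cast hB'
  refine ⟨B', hB'', ?_⟩
  apply e.injective
  rw [map_sum, ← hB2, ← hB3, sum_image (fun a _ b _ h => e.injective h)]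

theorem exists_coord (d : Option (ZMod p)) :
    ∃ e : (ZMod p × ZMod p) ≃+ (ZMod p × ZMod p), ∀ x, (e x).1 = phi d x := by
  cases d with
  | none => exact ⟨AddEquiv.refl _, fun x => rfl⟩
  | some m =>
    refine ⟨lin (-m) 1 1 0 (by simp), fun x => ?_⟩
    rw [lin_apply, phi_some]; ring

theorem z_image (d : Option (ZMod p)) (e : (ZMod p × ZMod p) ≃+ (ZMod p × ZMod p))
    (he : ∀ x, (e x).1 = phi d x) (X : Finset (ZMod p × ZMod p)) :
    z none (X.image e) = z d X := by
  unfold z
  rw [sum_image (fun a _ b _ h => e.injective h)]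
  refine sum_congr rfl fun x _ => ?_
  rw [phi_none, he]

theorem T_image (d : Option (ZMod p)) (e : (ZMod p × ZMod p) ≃+ (ZMod p × ZMod p))
    (he : ∀ x, (e x).1 = phi d x) (X : Finset (ZMod p × ZMod p)) :
    T none (X.image e) = T d X := by
  unfold T
  rw [sum_image (fun a _ b _ h => e.injective h)]
  refine sum_congr rfl fun x _ => ?_
  rw [sum_image (fun a _ b _ h => e.injective h)]
  refine sum_congr rfl fun y _ => ?_
  simp only [phi_none, he]

theorem anti_image (e : (ZMod p × ZMod p) ≃+ (ZMod p × ZMod p)) (X : Finset (ZMod p × ZMod p))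
    (hX : ∀ x ∈ X, -x ∉ X) : ∀ x ∈ X.image e, -x ∉ X.image e := by
  intro x hx hnx
  obtain ⟨y, hy, rfl⟩ := mem_image.mp hx
  obtain ⟨y', hy', h⟩ := mem_image.mp hnx
  have : y' = -y := by
    apply e.injective; rw [h, map_neg]
  exact hX y hy (this ▸ hy')

theorem zero_image (e : (ZMod p × ZMod p) ≃+ (ZMod p × ZMod p)) (X : Finset (ZMod p × ZMod p))
    (hX : (0 : ZMod p × ZMod p) ∉ X) : (0 : ZMod p × ZMod p) ∉ X.image e := by
  intro h
  obtain ⟨y, hy, h2⟩ := mem_image.mp h
  have : y = 0 := by apply e.injective; rw [h2, map_zero]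
  exact hX (this ▸ hy)

theorem z_union (d : Option (ZMod p)) {P R : Finset (ZMod p × ZMod p)} (h : Disjoint P R) :
    z d (P ∪ R) = z d P + z d R := by
  unfold z
  rw [sum_union h]

theorem spans_large (hp11 : 11 ≤ p) (S : Finset (ZMod p × ZMod p))
    (h0 : (0 : ZMod p × ZMod p) ∉ S) (hcard : S.card = 2 * p - 3)
    (hz : ∀ d : Option (ZMod p), z d S ≤ p - 2) : Spans S := by
  classical
  have h2 : p ≠ 2 := by omega
  obtain ⟨P, R, hdisj, hPR, hP, hR, hRP⟩ := exists_split h2 S h0
  have h0P : (0 : ZMod p × ZMod p) ∉ P := fun h => h0 (hPR ▸ mem_union_left _ h)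
  have h0R : (0 : ZMod p × ZMod p) ∉ R := fun h => h0 (hPR ▸ mem_union_right _ h)
  have hPcard : P.card + R.card = 2 * p - 3 := by
    rw [← card_union_of_disjoint hdisj, hPR, hcard]
  obtain ⟨d, hd⟩ := exists_dir h2 P R h0P h0R hP hR hRP hPcard
  obtain ⟨e, he⟩ := exists_coord d
  apply spans_of_image e
  intro t
  refine span_fst hp11 (S.image e) (P.image e) (R.image e) (zero_image e S h0) ?_ ?_
    (anti_image e P hP) (anti_image e R hR) ?_ ?_ ?_ t
  · exact (disjoint_image e.injective).mpr hdisj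
  · rw [← image_union, hPR]
  · rw [card_image_of_injective _ e.injective, hcard]
  · rw [z_image d e he, z_image d e he, ← z_union d hdisj, hPR]; exact hz d
  · unfold Qd at hd ⊢
    rw [z_image d e he, z_image d e he, T_image d e he, T_image d e he]; exact hd

theorem spans_rich (h2 : p ≠ 2) (S : Finset (ZMod p × ZMod p))
    (h0 : (0 : ZMod p × ZMod p) ∉ S) (d : Option (ZMod p)) (hcard : p - 1 + z d S ≤ S.card)
    (hg : p - 1 ≤ (z d S + 1) ^ 2 / 4) : Spans S := by
  classical
  obtain ⟨P, R, hdisj, hPR, hP, hR, hRP⟩ := exists_split h2 S h0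
  obtain ⟨e, he⟩ := exists_coord d
  apply spans_of_image e
  intro t
  refine span_rich h2 (S.image e) (P.image e) (R.image e) (zero_image e S h0) ?_ ?_
    (anti_image e P hP) (anti_image e R hR) ?_ ?_ t
  · exact (disjoint_image e.injective).mpr hdisj
  · rw [← image_union, hPR]
  · rw [card_image_of_injective _ e.injective, z_image d e he, z_image d e he,
      ← z_union d hdisj, hPR]; exact hcard
  · rw [z_image d e he, z_image d e he, ← z_union d hdisj, hPR]; exact hg

end Pool.Agent.Helper801.SubF
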