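import Mathlib

open Finset

namespace Pool.Agent.Helper801.SubG

/-- search entry: capacity reset (0 = keep), allowed multiplicities, vector, shift data -/
structure Ent where
  cp : ℕ
  a0 : Bool
  a1 : Bool
  a2 : Bool
  x : ℕ
  y : ℕ
  t : ℕ
  t' : ℕ
  m : ℕ
  m' : ℕ
  v : ℕ
  v' : ℕ

/-- shift of a mask -/
def sh (full t t' m m' v v' b : ℕ) : ℕ :=
  (fun r => Nat.lor (Nat.shiftLeft (Nat.land r m) v) (Nat.shiftRight (Nat.land r m') v'))
    (Nat.land (Nat.lor (Nat.shiftLeft b t) (Nat.shiftRight b t')) full)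

/-- strict application -/
def st (n : ℕ) (f : ℕ → Bool) : Bool := Nat.rec (f 0) (fun k _ => f (Nat.succ k)) n

theorem st_eq (n : ℕ) (f : ℕ → Bool) : st n f = f n := by
  cases n <;> rfl

/-- the search -/
def dfs (full : ℕ) (chk : List ℕ → Bool) (l : List Ent) : ℕ → ℕ → ℕ → List ℕ → Bool :=
  l.rec (fun k _ b acc => cond (Nat.beq b full) true (cond (Nat.blt 0 k) true (chk acc)))
   (fun e _ ih k c b acc =>
     match e with
     | Ent.mk cp a0 a1 a2 _ _ t t' m m' v v' =>
      cond (Nat.beq b full) true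
        ((fun c' =>
          and (cond a0 (ih k c' b (0 :: acc)) true)
          (cond (Nat.beq c' 0) true (cond (Nat.beq k 0) true
            (st (Nat.lor b (sh full t t' m m' v v' b)) (fun b1 =>
              and (cond a1 (ih (Nat.sub k 1) (Nat.sub c' 1) b1 (1 :: acc)) true)
              (cond (Nat.beq c' 1) true (cond (Nat.beq k 1) true (cond a2
                (st (Nat.lor b1 (sh full t t' m m' v v' b1)) (fun b2 =>
                  ih (Nat.sub k 2) (Nat.sub c' 2) b2 (2 :: acc))) true)))))))) 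
          (cond (Nat.beq cp 0) c cp)))

variable (w : ℕ)

/-- element coded by an index -/
def el (i : ℕ) : ZMod w × ZMod w := (((i / w : ℕ) : ZMod w), ((i : ℕ) : ZMod w))

/-- vector of an entry -/
def vc (e : Ent) : ZMod w × ZMod w := ((e.x : ZMod w), (e.y : ZMod w))

/-- validity of the shift data -/
def vld (e : Ent) : Bool :=
  Nat.beq e.t (w * e.x) && Nat.beq e.t' (w * w - w * e.x) && Nat.beq e.v e.y && Nat.beq e.v' (w - e.y)
   && Nat.blt e.x w && Nat.blt e.y w && Nat.blt e.m (2 ^ (w * w)) && Nat.blt e.m' (2 ^ (w * w)) &&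
   (List.range (w * w)).all (fun i => !(e.m.testBit i) || Nat.blt (i % w) (w - e.y)) &&
   (List.range (w * w)).all (fun i => !(e.m'.testBit i) || Nat.ble (w - e.y) (i % w))

theorem shift_sound {w : ℕ} (full : ℕ) (e : Ent) (he : vld w e = true) (b i : ℕ)
    (h : (sh full e.t e.t' e.m e.m' e.v e.v' b).testBit i = true) :
    ∃ j, b.testBit j = true ∧ el w i = el w j + vc w e := by
  unfold vld at he
  simp only [Bool.and_eq_true, Nat.beq_eq_true_eq, Nat.blt_eq, List.all_eq_true, List.mem_range,
    Bool.or_eq_true, Bool.not_eq_true', Nat.ble_eq] at he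
  obtain ⟨⟨⟨⟨⟨⟨⟨⟨⟨h1, h2⟩, h3⟩, h4⟩, h5⟩, h6⟩, h7⟩, h8⟩, h9⟩, h10⟩ := he
  replace h1 := Nat.eq_of_beq_eq_true h1
  replace h2 := Nat.eq_of_beq_eq_true h2
  replace h3 := Nat.eq_of_beq_eq_true h3
  replace h4 := Nat.eq_of_beq_eq_true h4
  have hw : 0 < w := by omega
  have hm : ∀ i, e.m.testBit i = true → i % w < w - e.y := by
    intro i hi
    by_cases hlt : i < w * w
    · rcases h9 i hlt with h | h
      · rw [hi] at h; exact absurd h (by simp)
      · exact h
    · exfalso
      rw [Nat.testBit_lt_two_pow (h7.trans_le (Nat.pow_le_pow_right (by norm_num) (by omega)))] at hi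
      exact absurd hi (by simp)
  have hm' : ∀ i, e.m'.testBit i = true → w - e.y ≤ i % w := by
    intro i hi
    by_cases hlt : i < w * w
    · rcases h10 i hlt with h | h
      · rw [hi] at h; exact absurd h (by simp)
      · exact h
    · exfalso
      rw [Nat.testBit_lt_two_pow (h8.trans_le (Nat.pow_le_pow_right (by norm_num) (by omega)))] at hi
      exact absurd hi (by simp)
  unfold sh at h
  -- first rotation
  have key : ∀ j1, (Nat.land (Nat.lor (Nat.shiftLeft b e.t) (Nat.shiftRight b e.t')) full).testBit j1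
      = true → ∃ j, b.testBit j = true ∧ ((j1 / w : ℕ) : ZMod w) = ((j / w : ℕ) : ZMod w) + e.x ∧
        ((j1 : ℕ) : ZMod w) = (j : ZMod w) := by
    intro j1 hj1
    change ((b <<< e.t ||| b >>> e.t') &&& full).testBit j1 = true at hj1
    rw [Nat.testBit_and, Nat.testBit_or, Nat.testBit_shiftLeft, Nat.testBit_shiftRight] at hj1
    simp only [Bool.and_eq_true, Bool.or_eq_true, decide_eq_true_eq] at hj1
    rcases hj1.1 with ⟨h11, h12⟩ | h11
    · refine ⟨j1 - e.t, h12, ?_, ?_⟩
      · rw [h1] at h11 ⊢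
        have h13 : j1 / w = (j1 - w * e.x) / w + e.x := by
          have h14 : j1 = (j1 - w * e.x) + w * e.x := by omega
          conv_lhs => rw [h14]
          rw [Nat.add_mul_div_left _ _ hw]
        rw [h13]; push_cast; ring
      · rw [h1] at h11 ⊢
        have h14 : j1 = (j1 - w * e.x) + w * e.x := by omega
        conv_lhs => rw [h14]
        push_cast
        simp
    · refine ⟨e.t' + j1, h11, ?_, ?_⟩
      · rw [h2]
        have h12 : w * w - w * e.x = w * (w - e.x) := by rw [Nat.mul_sub]
        rw [h12, Nat.mul_add_div hw]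
        push_cast
        rw [Nat.cast_sub h5.le]
        simp
      · rw [h2]
        have h12 : w * w - w * e.x = w * (w - e.x) := by rw [Nat.mul_sub]
        rw [h12]; push_cast; simp
  change ((Nat.land (Nat.lor (Nat.shiftLeft b e.t) (Nat.shiftRight b e.t')) full &&& e.m) <<< e.v |||
    (Nat.land (Nat.lor (Nat.shiftLeft b e.t) (Nat.shiftRight b e.t')) full &&& e.m') >>> e.v').testBit i
      = true at h
  rw [Nat.testBit_or, Nat.testBit_shiftLeft, Nat.testBit_shiftRight, Nat.testBit_and,
    Nat.testBit_and] at h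
  simp only [Bool.and_eq_true, Bool.or_eq_true, decide_eq_true_eq] at h
  rcases h with ⟨h11, h12, h13⟩ | ⟨h12, h13⟩
  · obtain ⟨j, hj1, hj2, hj3⟩ := key _ h12
    refine ⟨j, hj1, ?_⟩
    have h14 := hm _ h13
    rw [h3] at h11 h14 hj2 hj3
    have h15 : i / w = (i - e.y) / w := by
      have h16 := Nat.div_add_mod (i - e.y) w
      have h17 : i = w * ((i - e.y) / w) + ((i - e.y) % w + e.y) := by omega
      rw [Nat.div_eq_of_lt_le]
      · rw [mul_comm]; omega
      · rw [add_mul, mul_comm]; omega
    unfold el vc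
    apply Prod.ext
    · simp only [Prod.fst_add]
      rw [h15, hj2]
    · simp only [Prod.snd_add]
      rw [← hj3, Nat.cast_sub h11]; ring
  · obtain ⟨j, hj1, hj2, hj3⟩ := key _ h12
    refine ⟨j, hj1, ?_⟩
    have h14 := hm' _ h13
    rw [h4] at h14 hj2 hj3
    have h15 : i / w = (w - e.y + i) / w := by
      have h16 := Nat.div_add_mod (w - e.y + i) w
      have h18 := Nat.mod_lt (w - e.y + i) hw
      rw [Nat.div_eq_of_lt_le]
      · rw [mul_comm]; omega
      · rw [add_mul, mul_comm]; omega
    unfold el vc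
    apply Prod.ext
    · simp only [Prod.fst_add]
      rw [h15, hj2]
    · simp only [Prod.snd_add]
      rw [← hj3]
      push_cast
      rw [Nat.cast_sub h6.le]
      simp

/-- set of reachable sums -/
def rch : List Ent → List ℕ → Set (ZMod w × ZMod w)
  | [], _ => {0}
  | _ :: _, [] => {0}
  | e :: l, n :: μ => {z | ∃ s ≤ n, ∃ u ∈ rch l μ, z = s • vc w e + u}

theorem zero_mem_rch (l : List Ent) (μ : List ℕ) : (0 : ZMod w × ZMod w) ∈ rch w l μ := by
  induction l generalizing μ with
  | nil => simp [rch]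
  | cons e l ih =>
    cases μ with
    | nil => simp [rch]
    | cons n μ => exact ⟨0, Nat.zero_le _, 0, ih μ, by simp⟩

/-- allowed multiplicity lists -/
def adm : List Ent → ℕ → List ℕ → Prop
  | [], _, μ => μ = []
  | _ :: _, _, [] => False
  | e :: l, c, n :: μ => n ≤ (if e.cp = 0 then c else e.cp) ∧
      ((n = 0 ∧ e.a0 = true) ∨ (n = 1 ∧ e.a1 = true) ∨ (n = 2 ∧ e.a2 = true)) ∧
      adm l ((if e.cp = 0 then c else e.cp) - n) μ

theorem dfs_nil (full : ℕ) (chk : List ℕ → Bool) (k c b : ℕ) (acc : List ℕ) :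
    dfs full chk [] k c b acc = (b == full || decide (0 < k) || chk acc) := by
  change cond (Nat.beq b full) true (cond (Nat.blt 0 k) true (chk acc)) = _
  have h1 : Nat.beq b full = (b == full) := by
    rw [Bool.eq_iff_iff, Nat.beq_eq, beq_iff_eq]
  have h2 : Nat.blt 0 k = decide (0 < k) := by
    rw [Bool.eq_iff_iff]; simp [Nat.blt_eq]
  rw [h1, h2]
  cases (b == full) <;> cases decide (0 < k) <;> rfl

theorem dfs_cons (full : ℕ) (chk : List ℕ → Bool) (e : Ent) (l : List Ent) (k c b : ℕ) (acc : List ℕ)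
    (h : dfs full chk (e :: l) k c b acc = true) (hb : b ≠ full) :
    (e.a0 = true → dfs full chk l k (if e.cp = 0 then c else e.cp) b (0 :: acc) = true) ∧
    (e.a1 = true → 1 ≤ (if e.cp = 0 then c else e.cp) → 1 ≤ k →
      dfs full chk l (k - 1) ((if e.cp = 0 then c else e.cp) - 1)
        (b ||| sh full e.t e.t' e.m e.m' e.v e.v' b) (1 :: acc) = true) ∧
    (e.a2 = true → 2 ≤ (if e.cp = 0 then c else e.cp) → 2 ≤ k →
      dfs full chk l (k - 2) ((if e.cp = 0 then c else e.cp) - 2)
        ((b ||| sh full e.t e.t' e.m e.m' e.v e.v' b) ||| sh full e.t e.t' e.m e.m' e.v e.v'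
          (b ||| sh full e.t e.t' e.m e.m' e.v e.v' b)) (2 :: acc) = true) := by
  obtain ⟨cp, a0, a1, a2, x, y, t, t', m, m', v, v'⟩ := e
  have hb' : Nat.beq b full = false := by
    rw [Bool.eq_false_iff]; intro h; exact hb (Nat.eq_of_beq_eq_true h)
  have hc : (if cp = 0 then c else cp) = cond (Nat.beq cp 0) c cp := by
    rcases Nat.eq_zero_or_pos cp with h | h
    · subst h; rfl
    · have : Nat.beq cp 0 = false := by
        rw [Bool.eq_false_iff]; intro h'; exact h.ne' (Nat.eq_of_beq_eq_true h')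
      rw [this, if_neg h.ne']; rfl
  have h' : cond (Nat.beq b full) true
        ((fun c' =>
          and (cond a0 (dfs full chk l k c' b (0 :: acc)) true)
          (cond (Nat.beq c' 0) true (cond (Nat.beq k 0) true
            (st (Nat.lor b (sh full t t' m m' v v' b)) (fun b1 =>
              and (cond a1 (dfs full chk l (Nat.sub k 1) (Nat.sub c' 1) b1 (1 :: acc)) true)
              (cond (Nat.beq c' 1) true (cond (Nat.beq k 1) true (cond a2
                (st (Nat.lor b1 (sh full t t' m m' v v' b1)) (fun b2 =>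
                  dfs full chk l (Nat.sub k 2) (Nat.sub c' 2) b2 (2 :: acc))) true)))))))) 
          (cond (Nat.beq cp 0) c cp)) = true := h
  rw [hb', cond_false] at h'
  simp only [st_eq] at h'
  simp only [hc]
  set c' := cond (Nat.beq cp 0) c cp with hc'
  rw [Bool.and_eq_true] at h'
  obtain ⟨h0, h1⟩ := h'
  refine ⟨?_, ?_, ?_⟩
  · intro ha; rw [ha, cond_true] at h0; exact h0
  · intro ha hc1 hk1
    have e1 : Nat.beq c' 0 = false := by
      rw [Bool.eq_false_iff]; intro h; have := Nat.eq_of_beq_eq_true h; omega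
    have e2 : Nat.beq k 0 = false := by
      rw [Bool.eq_false_iff]; intro h; have := Nat.eq_of_beq_eq_true h; omega
    rw [e1, e2, cond_false, cond_false, Bool.and_eq_true] at h1
    have h3 := h1.1
    rw [ha, cond_true] at h3
    exact h3
  · intro ha hc1 hk1
    have e1 : Nat.beq c' 0 = false := by
      rw [Bool.eq_false_iff]; intro h; have := Nat.eq_of_beq_eq_true h; omega
    have e2 : Nat.beq k 0 = false := by
      rw [Bool.eq_false_iff]; intro h; have := Nat.eq_of_beq_eq_true h; omega
    have e3 : Nat.beq c' 1 = false := by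
      rw [Bool.eq_false_iff]; intro h; have := Nat.eq_of_beq_eq_true h; omega
    have e4 : Nat.beq k 1 = false := by
      rw [Bool.eq_false_iff]; intro h; have := Nat.eq_of_beq_eq_true h; omega
    rw [e1, e2, cond_false, cond_false, Bool.and_eq_true] at h1
    have h3 := h1.2
    rw [e3, e4, cond_false, cond_false, ha, cond_true] at h3
    exact h3

theorem dfs_sound (hw : 0 < w) (full : ℕ) (hfull : ∀ i < w * w, full.testBit i = true)
    (chk : List ℕ → Bool) (l : List Ent) (hl : l.all (vld w) = true) :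
    ∀ (k c b : ℕ) (acc μ : List ℕ), dfs full chk l k c b acc = true → adm l c μ → μ.sum = k →
      (∀ z : ZMod w × ZMod w, ∃ j, b.testBit j = true ∧ ∃ u ∈ rch w l μ, z = el w j + u) ∨
        chk (μ.reverse ++ acc) = true := by
  haveI : NeZero w := ⟨hw.ne'⟩
  have hel : ∀ z : ZMod w × ZMod w, ∃ i < w * w, el w i = z := by
    intro z
    refine ⟨w * z.1.val + z.2.val, ?_, ?_⟩
    · have h1 := ZMod.val_lt z.1
      have h2 := ZMod.val_lt z.2
      nlinarith
    · unfold el
      have h2 := ZMod.val_lt z.2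
      apply Prod.ext
      · simp only
        rw [Nat.mul_add_div hw, Nat.div_eq_of_lt h2, add_zero, ZMod.natCast_zmod_val]
      · simp only
        push_cast
        simp
  have hfullcase : ∀ (l : List Ent) (μ : List ℕ), ∀ z : ZMod w × ZMod w,
      ∃ j, full.testBit j = true ∧ ∃ u ∈ rch w l μ, z = el w j + u := by
    intro l μ z
    obtain ⟨i, hi, hi2⟩ := hel z
    exact ⟨i, hfull i hi, 0, zero_mem_rch w l μ, by rw [hi2, add_zero]⟩
  induction l with
  | nil =>
    intro k c b acc μ h1 h2 h3
    rw [dfs_nil] at h1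
    simp only [adm] at h2
    subst h2
    simp only [List.sum_nil] at h3
    subst h3
    simp only [lt_self_iff_false, decide_false, Bool.or_false, Bool.or_eq_true, beq_iff_eq] at h1
    rcases h1 with h1 | h1
    · left; rw [h1]; exact hfullcase _ _
    · right; simpa using h1
  | cons e l ih =>
    intro k c b acc μ h1 h2 h3
    rw [List.all_cons, Bool.and_eq_true] at hl
    by_cases hb : b = full
    · left; rw [hb]; exact hfullcase _ _
    obtain ⟨h4, h5, h6⟩ := dfs_cons full chk e l k c b acc h1 hb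
    cases μ with
    | nil => simp [adm] at h2
    | cons n μ =>
      simp only [adm] at h2
      obtain ⟨h7, h8, h9⟩ := h2
      rw [List.sum_cons] at h3
      rcases h8 with ⟨rfl, ha⟩ | ⟨rfl, ha⟩ | ⟨rfl, ha⟩
      · rcases ih hl.2 _ _ _ _ μ (h4 ha) h9 (by omega) with h | h
        · left
          intro z
          obtain ⟨j, hj, u, hu, hz⟩ := h z
          exact ⟨j, hj, u, ⟨0, le_rfl, u, hu, by simp⟩, hz⟩
        · right; simpa using h
      · rcases ih hl.2 _ _ _ _ μ (h5 ha h7 (by omega)) h9 (by omega) with h | h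
        · left
          intro z
          obtain ⟨j, hj, u, hu, hz⟩ := h z
          rw [Nat.testBit_or, Bool.or_eq_true] at hj
          rcases hj with hj | hj
          · exact ⟨j, hj, u, ⟨0, by omega, u, hu, by simp⟩, hz⟩
          · obtain ⟨j', hj', he⟩ := shift_sound full e hl.1 b j hj
            exact ⟨j', hj', vc w e + u, ⟨1, le_rfl, u, hu, by simp⟩, by rw [hz, he]; abel⟩
        · right; simpa using h
      · rcases ih hl.2 _ _ _ _ μ (h6 ha h7 (by omega)) h9 (by omega) with h | h
        · left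
          intro z
          obtain ⟨j, hj, u, hu, hz⟩ := h z
          rw [Nat.testBit_or, Bool.or_eq_true] at hj
          rcases hj with hj | hj
          · rw [Nat.testBit_or, Bool.or_eq_true] at hj
            rcases hj with hj | hj
            · exact ⟨j, hj, u, ⟨0, by omega, u, hu, by simp⟩, hz⟩
            · obtain ⟨j', hj', he⟩ := shift_sound full e hl.1 b j hj
              exact ⟨j', hj', vc w e + u, ⟨1, by omega, u, hu, by simp⟩, by rw [hz, he]; abel⟩
          · obtain ⟨j', hj', he⟩ := shift_sound full e hl.1 _ j hj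
            rw [Nat.testBit_or, Bool.or_eq_true] at hj'
            rcases hj' with hj' | hj'
            · exact ⟨j', hj', vc w e + u, ⟨1, by omega, u, hu, by simp⟩, by rw [hz, he]; abel⟩
            · obtain ⟨j2, hj2, he2⟩ := shift_sound full e hl.1 b j' hj'
              exact ⟨j2, hj2, 2 • vc w e + u, ⟨2, le_rfl, u, hu, rfl⟩, by
                rw [hz, he, he2, two_smul]; abel⟩
        · right; simpa using h

/-- multiplicity of a vector up to sign -/
def mu {w : ℕ} (S : Finset (ZMod w × ZMod w)) (v : ZMod w × ZMod w) : ℕ :=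
  (if v ∈ S then 1 else 0) + (if -v ∈ S then 1 else 0)

theorem mu_le' {w : ℕ} (S : Finset (ZMod w × ZMod w)) (v : ZMod w × ZMod w) : mu S v ≤ 2 := by
  unfold mu
  split_ifs <;> omega

theorem step_sum {w : ℕ} (S : Finset (ZMod w × ZMod w)) (v : ZMod w × ZMod w) (hv : v ≠ -v) (s : ℕ)
    (hs : s ≤ mu S v) :
    ∃ B ⊆ S ∩ {v, -v}, ∑ x ∈ B, x = (if -v ∈ S then -v else 0) + s • v := by
  unfold mu at hs
  by_cases h1 : v ∈ S <;> by_cases h2 : -v ∈ S <;> simp only [h1, h2, if_true, if_false] at hs ⊢
  · have : s = 0 ∨ s = 1 ∨ s = 2 := by omega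
    rcases this with rfl | rfl | rfl
    · exact ⟨{-v}, by simp [h2], by simp⟩
    · exact ⟨∅, by simp, by simp⟩
    · exact ⟨{v}, by simp [h1], by simp [two_smul]⟩
  · have : s = 0 ∨ s = 1 := by omega
    rcases this with rfl | rfl
    · exact ⟨∅, by simp, by simp⟩
    · exact ⟨{v}, by simp [h1], by simp⟩
  · have : s = 0 ∨ s = 1 := by omega
    rcases this with rfl | rfl
    · exact ⟨{-v}, by simp [h2], by simp⟩
    · exact ⟨∅, by simp, by simp⟩
  · have : s = 0 := by omega
    subst this
    exact ⟨∅, by simp, by simp⟩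

theorem rch_sums (S : Finset (ZMod w × ZMod w)) (l : List Ent)
    (hl : l.Pairwise (fun e f => vc w e ≠ vc w f ∧ vc w e ≠ - vc w f))
    (hne : ∀ e ∈ l, vc w e ≠ - vc w e) :
    ∃ τ : ZMod w × ZMod w, ∀ u ∈ rch w l (l.map fun e => mu S (vc w e)),
      ∃ B ⊆ S, (∀ x ∈ B, ∃ e ∈ l, x = vc w e ∨ x = - vc w e) ∧ ∑ x ∈ B, x = τ + u := by
  induction l with
  | nil =>
    refine ⟨0, ?_⟩
    intro u hu
    simp only [rch, Set.mem_singleton_iff] at hu
    subst hu
    exact ⟨∅, by simp, by simp, by simp⟩
  | cons e l ih =>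
    rw [List.pairwise_cons] at hl
    obtain ⟨τ, hτ⟩ := ih hl.2 (fun f hf => hne f (List.mem_cons_of_mem _ hf))
    refine ⟨(if - vc w e ∈ S then - vc w e else 0) + τ, ?_⟩
    intro u hu
    rw [List.map_cons] at hu
    obtain ⟨s, hs, u', hu', rfl⟩ := hu
    obtain ⟨B1, hB1, hB1s⟩ := step_sum S (vc w e) (hne e (List.mem_cons_self)) s hs
    obtain ⟨B2, hB2, hB2m, hB2s⟩ := hτ u' hu'
    have hB1' : ∀ x ∈ B1, x = vc w e ∨ x = - vc w e := by
      intro x hx
      have := hB1 hx
      rw [mem_inter, mem_insert, mem_singleton] at this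
      exact this.2
    refine ⟨B1 ∪ B2, union_subset (hB1.trans inter_subset_left) hB2, ?_, ?_⟩
    · intro x hx
      rw [mem_union] at hx
      rcases hx with hx | hx
      · exact ⟨e, List.mem_cons_self, hB1' x hx⟩
      · obtain ⟨f, hf, hf2⟩ := hB2m x hx
        exact ⟨f, List.mem_cons_of_mem _ hf, hf2⟩
    · rw [sum_union, hB1s, hB2s]
      · abel
      · rw [disjoint_left]
        intro x hx hx2
        obtain ⟨f, hf, hf2⟩ := hB2m x hx2
        have h3 := hl.1 f hf
        rcases hB1' x hx with h4 | h4 <;> rcases hf2 with h5 | h5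
        · exact h3.1 (h4.symm.trans h5)
        · exact h3.2 (h4.symm.trans h5)
        · apply h3.2; rw [← h5, h4, neg_neg]
        · apply h3.1; rw [h4] at h5; exact neg_injective h5

end Pool.Agent.Helper801.SubG
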