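import Pool.Agent.Helper801.SubG
import Pool.Agent.Helper801.SubF

open Finset

namespace Pool.Agent.Helper801.SubH

open SubB SubD SubF SubG

def mkl (a b : ℕ × ℕ × ℕ) (cap : ℕ) : List Ent :=
  [⟨3, Nat.beq a.1 0, Nat.beq a.1 1, Nat.beq a.1 2, 1, 0, 7, 42, 562949953421311, 0, 0, 7⟩,
   ⟨0, Nat.beq a.2.1 0, Nat.beq a.2.1 1, Nat.beq a.2.1 2, 2, 0, 14, 35, 562949953421311, 0, 0, 7⟩,
   ⟨0, Nat.beq a.2.2 0, Nat.beq a.2.2 1, Nat.beq a.2.2 2, 3, 0, 21, 28, 562949953421311, 0, 0, 7⟩,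
   ⟨3, Nat.beq b.1 0, Nat.beq b.1 1, Nat.beq b.1 2, 0, 1, 0, 49, 279258638311359, 283691315109952, 1, 6⟩,
   ⟨0, Nat.beq b.2.1 0, Nat.beq b.2.1 1, Nat.beq b.2.1 2, 0, 2, 0, 49, 137412980756383, 425536972664928, 2, 5⟩,
   ⟨0, Nat.beq b.2.2 0, Nat.beq b.2.2 1, Nat.beq b.2.2 2, 0, 3, 0, 49, 66490151978895, 496459801442416, 3, 4⟩,
   ⟨cap, true, true, true, 1, 1, 7, 42, 279258638311359, 283691315109952, 1, 6⟩,
   ⟨0, true, true, true, 2, 2, 14, 35, 137412980756383, 425536972664928, 2, 5⟩,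
   ⟨0, true, true, true, 3, 3, 21, 28, 66490151978895, 496459801442416, 3, 4⟩,
   ⟨cap, true, true, true, 1, 2, 7, 42, 137412980756383, 425536972664928, 2, 5⟩,
   ⟨0, true, true, true, 2, 4, 14, 35, 31028737590151, 531921215831160, 4, 3⟩,
   ⟨0, true, true, true, 3, 6, 21, 28, 4432676798593, 558517276622718, 6, 1⟩,
   ⟨cap, true, true, true, 1, 3, 7, 42, 66490151978895, 496459801442416, 3, 4⟩,
   ⟨0, true, true, true, 2, 6, 14, 35, 4432676798593, 558517276622718, 6, 1⟩,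
   ⟨0, true, true, true, 3, 2, 21, 28, 137412980756383, 425536972664928, 2, 5⟩,
   ⟨cap, true, true, true, 1, 4, 7, 42, 31028737590151, 531921215831160, 4, 3⟩,
   ⟨0, true, true, true, 2, 1, 14, 35, 279258638311359, 283691315109952, 1, 6⟩,
   ⟨0, true, true, true, 3, 5, 21, 28, 13298030395779, 549651923025532, 5, 2⟩,
   ⟨cap, true, true, true, 1, 5, 7, 42, 13298030395779, 549651923025532, 5, 2⟩,
   ⟨0, true, true, true, 2, 3, 14, 35, 66490151978895, 496459801442416, 3, 4⟩,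
   ⟨0, true, true, true, 3, 1, 21, 28, 279258638311359, 283691315109952, 1, 6⟩,
   ⟨cap, true, true, true, 1, 6, 7, 42, 4432676798593, 558517276622718, 6, 1⟩,
   ⟨0, true, true, true, 2, 5, 14, 35, 13298030395779, 549651923025532, 5, 2⟩,
   ⟨0, true, true, true, 3, 4, 21, 28, 31028737590151, 531921215831160, 4, 3⟩]


def combos : List ((ℕ × ℕ × ℕ) × (ℕ × ℕ × ℕ) × ℕ) :=
  [((2,1,0),(2,1,0),3),((2,1,0),(2,0,1),3),((2,1,0),(1,1,1),3),
   ((2,0,1),(2,1,0),3),((2,0,1),(2,0,1),3),((2,0,1),(1,1,1),3),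
   ((1,1,1),(2,1,0),3),((1,1,1),(2,0,1),3),((1,1,1),(1,1,1),3),
   ((2,1,0),(2,0,0),2),((2,1,0),(1,1,0),2),((2,0,1),(2,0,0),2),((2,0,1),(1,1,0),2),
   ((1,1,1),(2,0,0),2),((1,1,1),(1,1,0),2),
   ((2,0,0),(2,0,0),2),((2,0,0),(1,1,0),2),((1,1,0),(2,0,0),2),((1,1,0),(1,1,0),2)]

set_option maxRecDepth 100000 in
theorem search7 : combos.all (fun q =>
    dfs 562949953421311 (fun _ => false) (mkl q.1 q.2.1 q.2.2) 11 0 1 []) = true := by
  decide +kernel

set_option maxRecDepth 100000 in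
theorem valid7 : combos.all (fun q => (mkl q.1 q.2.1 q.2.2).all (vld 7)) = true := by
  decide +kernel


theorem search7' : ∀ q ∈ combos,
    dfs 562949953421311 (fun _ => false) (mkl q.1 q.2.1 q.2.2) 11 0 1 [] = true :=
  List.all_eq_true.mp search7

theorem valid7' : ∀ q ∈ combos, (mkl q.1 q.2.1 q.2.2).all (vld 7) = true :=
  List.all_eq_true.mp valid7

/-- direction vector -/
def dv {p : ℕ} (d : Option (ZMod p)) : ZMod p × ZMod p :=
  match d with
  | none => (0, 1)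
  | some m => (1, m)

section
variable {p : ℕ} [Fact p.Prime]

theorem dv_ne (d : Option (ZMod p)) : dv d ≠ 0 := by
  cases d with
  | none => intro h; have := congrArg Prod.snd h; simp [dv] at this
  | some m => intro h; have := congrArg Prod.fst h; simp [dv] at this

theorem phi_iff_par (d : Option (ZMod p)) (x : ZMod p × ZMod p) :
    phi d x = 0 ↔ x.1 * (dv d).2 = x.2 * (dv d).1 := by
  cases d with
  | none => rw [phi_none]; simp [dv]
  | some m =>
    rw [phi_some]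
    simp only [dv, mul_one]
    rw [sub_eq_zero, mul_comm m]
    exact eq_comm

theorem exists_dir_of (u : ZMod p × ZMod p) (hu : u ≠ 0) :
    ∃ d : Option (ZMod p), phi d u = 0 ∧ ∀ x, phi d x = 0 ↔ x.1 * u.2 = x.2 * u.1 := by
  by_cases h1 : u.1 = 0
  · have h2 : u.2 ≠ 0 := fun h => hu (Prod.ext h1 h)
    refine ⟨none, by rw [phi_none]; exact h1, fun x => ?_⟩
    rw [phi_none, h1, mul_zero]
    constructor
    · intro h; rw [h, zero_mul]
    · intro h; exact (mul_eq_zero.mp h).resolve_right h2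
  · refine ⟨some (u.2 / u.1), ?_, fun x => ?_⟩
    · rw [phi_some]; field_simp; simp
    · rw [phi_some, sub_eq_zero]
      constructor
      · intro h; rw [h]; field_simp
      · intro h; field_simp; rw [← h]; ring

theorem phi_inj {d d' : Option (ZMod p)} {u : ZMod p × ZMod p} (hu : u ≠ 0) (h : phi d u = 0)
    (h' : phi d' u = 0) : d = d' := by
  classical
  have h1 := phi_unique u hu
  by_contra hne
  have h2 : ∑ e ∈ ({d, d'} : Finset (Option (ZMod p))), (if phi e u = 0 then 1 else 0) ≤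
      ∑ e : Option (ZMod p), (if phi e u = 0 then 1 else 0) :=
    sum_le_sum_of_subset (subset_univ _)
  rw [sum_pair hne, if_pos h, if_pos h', h1] at h2
  omega

theorem phi_dv (d : Option (ZMod p)) : phi d (dv d) = 0 := by
  rw [phi_iff_par]; ring

/-- change of basis -/
theorem exists_basis_change (v1 v2 : ZMod p × ZMod p) (h : v1.1 * v2.2 - v2.1 * v1.2 ≠ 0) :
    ∃ e : (ZMod p × ZMod p) ≃+ (ZMod p × ZMod p),
      (∀ x : ZMod p × ZMod p, e.symm x = (v1.1 * x.1 + v2.1 * x.2, v1.2 * x.1 + v2.2 * x.2)) := by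
  refine ⟨(lin v1.1 v2.1 v1.2 v2.2 h).symm, fun x => ?_⟩
  rw [AddEquiv.symm_symm, lin_apply]

theorem z_transport (v1 v2 : ZMod p × ZMod p) (h : v1.1 * v2.2 - v2.1 * v1.2 ≠ 0)
    (e : (ZMod p × ZMod p) ≃+ (ZMod p × ZMod p))
    (he : ∀ x : ZMod p × ZMod p, e.symm x = (v1.1 * x.1 + v2.1 * x.2, v1.2 * x.1 + v2.2 * x.2))
    (S : Finset (ZMod p × ZMod p)) (d' d : Option (ZMod p)) (hd : phi d (e.symm (dv d')) = 0) :
    z d' (S.image e) = z d S := by
  have hne : e.symm (dv d') ≠ 0 := by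
    intro h0
    have : dv d' = 0 := by
      have := congrArg e h0
      rwa [AddEquiv.apply_symm_apply, map_zero] at this
    exact dv_ne d' this
  obtain ⟨d2, hd2, hd3⟩ := exists_dir_of _ hne
  have : d2 = d := phi_inj hne hd2 hd
  subst this
  unfold z
  rw [sum_image (fun a _ b _ h => e.injective h)]
  refine sum_congr rfl fun x _ => ?_
  have h4 : phi d' (e x) = 0 ↔ phi d2 x = 0 := by
    rw [hd3, phi_iff_par]
    have hx : x = e.symm (e x) := by simp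
    set y := e x with hy
    rw [hx, he, he]
    simp only
    constructor
    · intro h5
      linear_combination (v1.1 * v2.2 - v2.1 * v1.2) * h5
    · intro h5
      have h6 : (v1.1 * v2.2 - v2.1 * v1.2) * (y.1 * (dv d').2 - y.2 * (dv d').1) = 0 := by
        linear_combination h5
      have h7 := (mul_eq_zero.mp h6).resolve_left h
      exact sub_eq_zero.mp h7
  simp only [h4]

theorem mu_neg (S : Finset (ZMod p × ZMod p)) (v : ZMod p × ZMod p) : mu S (-v) = mu S v := by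
  unfold mu
  rw [neg_neg, add_comm]

theorem mu_le (S : Finset (ZMod p × ZMod p)) (v : ZMod p × ZMod p) : mu S v ≤ 2 := by
  unfold mu
  split_ifs <;> omega

theorem mu_image (e : (ZMod p × ZMod p) ≃+ (ZMod p × ZMod p)) (S : Finset (ZMod p × ZMod p))
    (v : ZMod p × ZMod p) : mu (S.image e) v = mu S (e.symm v) := by
  unfold mu
  have h1 : ∀ v, v ∈ S.image e ↔ e.symm v ∈ S := by
    intro v
    rw [mem_image]
    constructor
    · rintro ⟨a, ha, rfl⟩; simpa using ha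
    · intro h; exact ⟨e.symm v, h, by simp⟩
  simp only [h1, map_neg]

/-- the elements on a line as multiples of the direction vector -/
theorem z_eq_sum (S : Finset (ZMod p × ZMod p)) (d : Option (ZMod p)) :
    z d S = ∑ k : ZMod p, if (k * (dv d).1, k * (dv d).2) ∈ S then 1 else 0 := by
  unfold z
  rw [← sum_filter, ← sum_filter, ← card_eq_sum_ones, ← card_eq_sum_ones]
  symm
  apply card_bij (fun k _ => (k * (dv d).1, k * (dv d).2))
  · intro k hk
    rw [mem_filter] at hk ⊢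
    refine ⟨hk.2, ?_⟩
    rw [phi_iff_par]; simp only; ring
  · intro k _ k' _ h
    have h1 := congrArg Prod.fst h
    have h2 := congrArg Prod.snd h
    simp only at h1 h2
    cases d with
    | none => simpa [dv] using h2
    | some m => simpa [dv] using h1
  · intro x hx
    rw [mem_filter] at hx
    rw [phi_iff_par] at hx
    cases d with
    | none =>
      simp only [dv, mul_one, mul_zero] at hx ⊢
      refine ⟨x.2, ?_, ?_⟩
      · rw [mem_filter]; refine ⟨mem_univ _, ?_⟩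
        have : (0, x.2) = x := Prod.ext hx.2.symm rfl
        rw [this]; exact hx.1
      · exact Prod.ext hx.2.symm rfl
    | some m =>
      simp only [dv, mul_one] at hx ⊢
      refine ⟨x.1, ?_, ?_⟩
      · rw [mem_filter]; refine ⟨mem_univ _, ?_⟩
        have : (x.1, x.1 * m) = x := Prod.ext rfl hx.2
        rw [this]; exact hx.1
      · exact Prod.ext rfl hx.2

end

instance fact7 : Fact (Nat.Prime 7) := ⟨by norm_num⟩

theorem sum7 (F : ZMod 7 → ℕ) : ∑ k : ZMod 7, F k = F 0 + F 1 + F 2 + F 3 + F 4 + F 5 + F 6 := by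
  have h : (univ : Finset (ZMod 7)) = {0, 1, 2, 3, 4, 5, 6} := by decide
  rw [h]
  rw [sum_insert (by decide), sum_insert (by decide), sum_insert (by decide), sum_insert (by decide),
    sum_insert (by decide), sum_insert (by decide), sum_singleton]
  ring

theorem z_mu7 (S : Finset (ZMod 7 × ZMod 7)) (h0 : (0 : ZMod 7 × ZMod 7) ∉ S) (d : Option (ZMod 7)) :
    z d S = mu S (1 * (dv d).1, 1 * (dv d).2) + mu S (2 * (dv d).1, 2 * (dv d).2) +
      mu S (3 * (dv d).1, 3 * (dv d).2) := by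
  rw [z_eq_sum, sum7]
  have hz : ((0 : ZMod 7) * (dv d).1, (0 : ZMod 7) * (dv d).2) ∉ S := by
    rw [zero_mul, zero_mul]; exact h0
  have hn : ∀ k : ZMod 7, -((k * (dv d).1, k * (dv d).2) : ZMod 7 × ZMod 7) =
      ((-k) * (dv d).1, (-k) * (dv d).2) := by
    intro k
    apply Prod.ext
    · simp
    · simp
  rw [if_neg hz]
  unfold mu
  rw [hn, hn, hn]
  have e1 : (-1 : ZMod 7) = 6 := by decide
  have e2 : (-2 : ZMod 7) = 5 := by decide
  have e3 : (-3 : ZMod 7) = 4 := by decide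
  rw [e1, e2, e3]
  ring

theorem norm3 (f : ZMod 7 → ℕ) (hneg : ∀ k, f (-k) = f k) (hle : ∀ k, f k ≤ 2)
    (hsum : f 1 + f 2 + f 3 = 3) :
    ∃ l : ZMod 7, l ≠ 0 ∧ ((f l, f (2 * l), f (3 * l)) = (2, 1, 0) ∨
      (f l, f (2 * l), f (3 * l)) = (2, 0, 1) ∨ (f l, f (2 * l), f (3 * l)) = (1, 1, 1)) := by
  have h1 := hle 1
  have h2 := hle 2
  have h3 := hle 3
  have h4 : f 4 = f 3 := by rw [← hneg 3]; congr 1
  have h6 : f 6 = f 1 := by rw [← hneg 1]; congr 1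
  have m1 : (f 1, f (2 * 1), f (3 * 1)) = (f 1, f 2, f 3) := by
    rw [mul_one, mul_one]
  have m2 : (f 2, f (2 * 2), f (3 * 2)) = (f 2, f 3, f 1) := by
    have e1 : (2 * 2 : ZMod 7) = 4 := by decide
    have e2 : (3 * 2 : ZMod 7) = 6 := by decide
    rw [e1, e2, h4, h6]
  have m3 : (f 3, f (2 * 3), f (3 * 3)) = (f 3, f 1, f 2) := by
    have e1 : (2 * 3 : ZMod 7) = 6 := by decide
    have e2 : (3 * 3 : ZMod 7) = 2 := by decide
    rw [e1, e2, h6]
  have n1 : (1 : ZMod 7) ≠ 0 := by decide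
  have n2 : (2 : ZMod 7) ≠ 0 := by decide
  have n3 : (3 : ZMod 7) ≠ 0 := by decide
  have key : ∀ a b c : ℕ, a ≤ 2 → b ≤ 2 → c ≤ 2 → a + b + c = 3 →
      ((a, b, c) = (2, 1, 0) ∨ (a, b, c) = (2, 0, 1) ∨ (a, b, c) = (1, 1, 1)) ∨
      ((b, c, a) = (2, 1, 0) ∨ (b, c, a) = (2, 0, 1) ∨ (b, c, a) = (1, 1, 1)) ∨
      ((c, a, b) = (2, 1, 0) ∨ (c, a, b) = (2, 0, 1) ∨ (c, a, b) = (1, 1, 1)) := by
    intro a b c ha hb hc habc
    simp only [Prod.mk.injEq]
    omega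
  rcases key _ _ _ h1 h2 h3 hsum with h | h | h
  · exact ⟨1, n1, by rw [m1]; exact h⟩
  · exact ⟨2, n2, by rw [m2]; exact h⟩
  · exact ⟨3, n3, by rw [m3]; exact h⟩

theorem norm2 (f : ZMod 7 → ℕ) (hneg : ∀ k, f (-k) = f k) (hle : ∀ k, f k ≤ 2)
    (hsum : f 1 + f 2 + f 3 = 2) :
    ∃ l : ZMod 7, l ≠ 0 ∧ ((f l, f (2 * l), f (3 * l)) = (2, 0, 0) ∨
      (f l, f (2 * l), f (3 * l)) = (1, 1, 0)) := by
  have h1 := hle 1
  have h2 := hle 2
  have h3 := hle 3
  have h4 : f 4 = f 3 := by rw [← hneg 3]; congr 1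
  have h6 : f 6 = f 1 := by rw [← hneg 1]; congr 1
  have m1 : (f 1, f (2 * 1), f (3 * 1)) = (f 1, f 2, f 3) := by
    rw [mul_one, mul_one]
  have m2 : (f 2, f (2 * 2), f (3 * 2)) = (f 2, f 3, f 1) := by
    have e1 : (2 * 2 : ZMod 7) = 4 := by decide
    have e2 : (3 * 2 : ZMod 7) = 6 := by decide
    rw [e1, e2, h4, h6]
  have m3 : (f 3, f (2 * 3), f (3 * 3)) = (f 3, f 1, f 2) := by
    have e1 : (2 * 3 : ZMod 7) = 6 := by decide
    have e2 : (3 * 3 : ZMod 7) = 2 := by decide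
    rw [e1, e2, h6]
  have n1 : (1 : ZMod 7) ≠ 0 := by decide
  have n2 : (2 : ZMod 7) ≠ 0 := by decide
  have n3 : (3 : ZMod 7) ≠ 0 := by decide
  have key : ∀ a b c : ℕ, a ≤ 2 → b ≤ 2 → c ≤ 2 → a + b + c = 2 →
      ((a, b, c) = (2, 0, 0) ∨ (a, b, c) = (1, 1, 0)) ∨
      ((b, c, a) = (2, 0, 0) ∨ (b, c, a) = (1, 1, 0)) ∨
      ((c, a, b) = (2, 0, 0) ∨ (c, a, b) = (1, 1, 0)) := by
    intro a b c ha hb hc habc
    simp only [Prod.mk.injEq]
    omega
  rcases key _ _ _ h1 h2 h3 hsum with h | h | h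
  · exact ⟨1, n1, by rw [m1]; exact h⟩
  · exact ⟨2, n2, by rw [m2]; exact h⟩
  · exact ⟨3, n3, by rw [m3]; exact h⟩

theorem adm_line {e1 e2 e3 : Ent} {l : List Ent} {n1 n2 n3 cp c : ℕ} {μ : List ℕ}
    (h1 : e1.cp = cp) (hcp : cp ≠ 0) (h2 : e2.cp = 0) (h3 : e3.cp = 0)
    (hs : n1 + n2 + n3 ≤ cp)
    (a1 : (n1 = 0 ∧ e1.a0 = true) ∨ (n1 = 1 ∧ e1.a1 = true) ∨ (n1 = 2 ∧ e1.a2 = true))
    (a2 : (n2 = 0 ∧ e2.a0 = true) ∨ (n2 = 1 ∧ e2.a1 = true) ∨ (n2 = 2 ∧ e2.a2 = true))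
    (a3 : (n3 = 0 ∧ e3.a0 = true) ∨ (n3 = 1 ∧ e3.a1 = true) ∨ (n3 = 2 ∧ e3.a2 = true))
    (hr : ∀ c, adm l c μ) : adm (e1 :: e2 :: e3 :: l) c (n1 :: n2 :: n3 :: μ) := by
  simp only [adm, h1, h2, h3, if_true, if_neg hcp]
  exact ⟨by omega, a1, by omega, a2, by omega, a3, hr _⟩

theorem free_ok {n : ℕ} (h : n ≤ 2) : (n = 0 ∧ true = true) ∨ (n = 1 ∧ true = true) ∨
    (n = 2 ∧ true = true) := by interval_cases n <;> simp

theorem fix_ok {n a : ℕ} (h : n ≤ 2) (ha : n = a) :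
    (n = 0 ∧ Nat.beq a 0 = true) ∨ (n = 1 ∧ Nat.beq a 1 = true) ∨ (n = 2 ∧ Nat.beq a 2 = true) := by
  subst ha
  simp only [Nat.beq_eq]
  omega

theorem sum24 (M : ℕ → ℕ → ℕ) (htot : M 0 1 + M 0 2 + M 0 3 + (M 1 0 + M 2 0 + M 3 0 +
    (M 1 1 + M 2 2 + M 3 3) + (M 1 2 + M 2 4 + M 3 6) + (M 1 3 + M 2 6 + M 3 2) +
    (M 1 4 + M 2 1 + M 3 5) + (M 1 5 + M 2 3 + M 3 1) + (M 1 6 + M 2 5 + M 3 4)) = 11) :
    [M 1 0, M 2 0, M 3 0, M 0 1, M 0 2, M 0 3, M 1 1, M 2 2, M 3 3, M 1 2, M 2 4, M 3 6,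
       M 1 3, M 2 6, M 3 2, M 1 4, M 2 1, M 3 5, M 1 5, M 2 3, M 3 1, M 1 6, M 2 5, M 3 4].sum = 11 := by
  simp only [List.sum_cons, List.sum_nil]
  rw [← htot]; ring

theorem pw7 (A B : ℕ × ℕ × ℕ) (cap : ℕ) :
    (mkl A B cap).Pairwise (fun e f => vc 7 e ≠ vc 7 f ∧ vc 7 e ≠ - vc 7 f) := by
  have h : ((mkl A B cap).map (vc 7)).Pairwise (fun a b => a ≠ b ∧ a ≠ -b) := by
    change ([(1, 0), (2, 0), (3, 0), (0, 1), (0, 2), (0, 3), (1, 1), (2, 2), (3, 3), (1, 2), (2, 4), (3, 6), (1, 3), (2, 6), (3, 2), (1, 4), (2, 1), (3, 5), (1, 5), (2, 3), (3, 1), (1, 6), (2, 5), (3, 4)] : List (ZMod 7 × ZMod 7)).Pairwise (fun a b => a ≠ b ∧ a ≠ -b)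
    decide +kernel
  exact List.pairwise_map.mp h

theorem nn7 (A B : ℕ × ℕ × ℕ) (cap : ℕ) : ∀ e ∈ mkl A B cap, vc 7 e ≠ - vc 7 e := by
  have h : ∀ a ∈ (mkl A B cap).map (vc 7), a ≠ -a := by
    change ∀ a ∈ ([(1, 0), (2, 0), (3, 0), (0, 1), (0, 2), (0, 3), (1, 1), (2, 2), (3, 3), (1, 2), (2, 4), (3, 6), (1, 3), (2, 6), (3, 2), (1, 4), (2, 1), (3, 5), (1, 5), (2, 3), (3, 1), (1, 6), (2, 5), (3, 4)] : List (ZMod 7 × ZMod 7)), a ≠ -a
    decide +kernel
  intro e he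
  exact h _ (List.mem_map_of_mem he)

theorem seven_tail (S' : Finset (ZMod 7 × ZMod 7)) (h0' : (0 : ZMod 7 × ZMod 7) ∉ S')
    (hcard' : S'.card = 11) (cap : ℕ) (hcap0 : cap ≠ 0) (A B : ℕ × ℕ × ℕ)
    (hcapm : ∀ m : ZMod 7, m ≠ 0 → z (some m) S' ≤ cap)
    (hA1 : mu S' (((1 : ℕ) : ZMod 7), ((0 : ℕ) : ZMod 7)) = A.1)
    (hA2 : mu S' (((2 : ℕ) : ZMod 7), ((0 : ℕ) : ZMod 7)) = A.2.1)
    (hA3 : mu S' (((3 : ℕ) : ZMod 7), ((0 : ℕ) : ZMod 7)) = A.2.2)
    (hB1 : mu S' (((0 : ℕ) : ZMod 7), ((1 : ℕ) : ZMod 7)) = B.1)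
    (hB2 : mu S' (((0 : ℕ) : ZMod 7), ((2 : ℕ) : ZMod 7)) = B.2.1)
    (hB3 : mu S' (((0 : ℕ) : ZMod 7), ((3 : ℕ) : ZMod 7)) = B.2.2)
    (hAs : A.1 + A.2.1 + A.2.2 ≤ 3) (hBs : B.1 + B.2.1 + B.2.2 ≤ 3)
    (hmem : (A, B, cap) ∈ combos) : Spans S' := by
  obtain ⟨M, hM⟩ : ∃ M : ℕ → ℕ → ℕ, ∀ x y, M x y = mu S' ((x : ZMod 7), (y : ZMod 7)) :=
    ⟨fun x y => mu S' ((x : ZMod 7), (y : ZMod 7)), fun _ _ => rfl⟩
  have hMle : ∀ x y, M x y ≤ 2 := fun x y => by rw [hM]; exact mu_le _ _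
  have z0 : z (some 0) S' = M 1 0 + M 2 0 + M 3 0 := by
    rw [z_mu7 S' h0' (some 0), hM, hM, hM]; rfl
  have z1 : z (some 1) S' = M 1 1 + M 2 2 + M 3 3 := by
    rw [z_mu7 S' h0' (some 1), hM, hM, hM]; rfl
  have z2 : z (some 2) S' = M 1 2 + M 2 4 + M 3 6 := by
    rw [z_mu7 S' h0' (some 2), hM, hM, hM]; rfl
  have z3 : z (some 3) S' = M 1 3 + M 2 6 + M 3 2 := by
    rw [z_mu7 S' h0' (some 3), hM, hM, hM]; rfl
  have z4 : z (some 4) S' = M 1 4 + M 2 1 + M 3 5 := by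
    rw [z_mu7 S' h0' (some 4), hM, hM, hM]; rfl
  have z5 : z (some 5) S' = M 1 5 + M 2 3 + M 3 1 := by
    rw [z_mu7 S' h0' (some 5), hM, hM, hM]; rfl
  have z6 : z (some 6) S' = M 1 6 + M 2 5 + M 3 4 := by
    rw [z_mu7 S' h0' (some 6), hM, hM, hM]; rfl
  have zn : z none S' = M 0 1 + M 0 2 + M 0 3 := by
    rw [z_mu7 S' h0' none, hM, hM, hM]; rfl
  have htot : z none S' + (z (some 0) S' + z (some 1) S' + z (some 2) S' + z (some 3) S' +
      z (some 4) S' + z (some 5) S' + z (some 6) S') = 11 := by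
    have := sum_z S' h0'
    rw [Fintype.sum_option, sum7, hcard'] at this
    exact this
  have A1 : M 1 0 = A.1 := by rw [hM]; exact hA1
  have A2 : M 2 0 = A.2.1 := by rw [hM]; exact hA2
  have A3 : M 3 0 = A.2.2 := by rw [hM]; exact hA3
  have B1 : M 0 1 = B.1 := by rw [hM]; exact hB1
  have B2 : M 0 2 = B.2.1 := by rw [hM]; exact hB2
  have B3 : M 0 3 = B.2.2 := by rw [hM]; exact hB3
  have c1 := hcapm 1 (by decide)
  have c2 := hcapm 2 (by decide)
  have c3 := hcapm 3 (by decide)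
  have c4 := hcapm 4 (by decide)
  have c5 := hcapm 5 (by decide)
  have c6 := hcapm 6 (by decide)
  rw [z1] at c1
  rw [z2] at c2
  rw [z3] at c3
  rw [z4] at c4
  rw [z5] at c5
  rw [z6] at c6
  rw [zn, z0, z1, z2, z3, z4, z5, z6] at htot
  set L := mkl A B cap with hL
  have hmu : L.map (fun e => mu S' (vc 7 e)) =
      [M 1 0, M 2 0, M 3 0, M 0 1, M 0 2, M 0 3, M 1 1, M 2 2, M 3 3, M 1 2, M 2 4, M 3 6,
       M 1 3, M 2 6, M 3 2, M 1 4, M 2 1, M 3 5, M 1 5, M 2 3, M 3 1, M 1 6, M 2 5, M 3 4] := by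
    simp only [hM]; rfl
  have hadm : adm L 0 (L.map (fun e => mu S' (vc 7 e))) := by
    rw [hmu, hL]
    unfold mkl
    refine adm_line rfl (by norm_num) rfl rfl (by rw [A1, A2, A3]; exact hAs)
      (fix_ok (hMle _ _) A1) (fix_ok (hMle _ _) A2) (fix_ok (hMle _ _) A3) fun _ => ?_
    refine adm_line rfl (by norm_num) rfl rfl (by rw [B1, B2, B3]; exact hBs)
      (fix_ok (hMle _ _) B1) (fix_ok (hMle _ _) B2) (fix_ok (hMle _ _) B3) fun _ => ?_
    refine adm_line rfl hcap0 rfl rfl c1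
      (free_ok (hMle _ _)) (free_ok (hMle _ _)) (free_ok (hMle _ _)) fun _ => ?_
    refine adm_line rfl hcap0 rfl rfl c2
      (free_ok (hMle _ _)) (free_ok (hMle _ _)) (free_ok (hMle _ _)) fun _ => ?_
    refine adm_line rfl hcap0 rfl rfl c3
      (free_ok (hMle _ _)) (free_ok (hMle _ _)) (free_ok (hMle _ _)) fun _ => ?_
    refine adm_line rfl hcap0 rfl rfl c4
      (free_ok (hMle _ _)) (free_ok (hMle _ _)) (free_ok (hMle _ _)) fun _ => ?_
    refine adm_line rfl hcap0 rfl rfl c5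
      (free_ok (hMle _ _)) (free_ok (hMle _ _)) (free_ok (hMle _ _)) fun _ => ?_
    refine adm_line rfl hcap0 rfl rfl c6
      (free_ok (hMle _ _)) (free_ok (hMle _ _)) (free_ok (hMle _ _)) fun _ => ?_
    simp only [adm]
  have hsum : (L.map (fun e => mu S' (vc 7 e))).sum = 11 := by
    rw [hmu]
    exact sum24 M htot
  have hv : L.all (vld 7) = true := valid7' _ hmem
  have hs : dfs 562949953421311 (fun _ => false) L 11 0 1 [] = true := search7' _ hmem
  have hfull : ∀ i < 7 * 7, (562949953421311 : ℕ).testBit i = true := by decide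
  rcases dfs_sound 7 (by norm_num) 562949953421311 hfull (fun _ => false) L hv 11 0 1 [] _ hs hadm hsum
    with h | h
  · obtain ⟨τ, hτ⟩ := rch_sums 7 S' L (pw7 A B cap) (nn7 A B cap)
    intro t
    obtain ⟨j, hj, u, hu, hz⟩ := h (t - τ)
    have hj0 : j = 0 := by rwa [Nat.testBit_one_eq_true_iff_self_eq_zero] at hj
    subst hj0
    have hel : el 7 0 = 0 := by unfold el; simp
    rw [hel, zero_add] at hz
    obtain ⟨B', hB', _, hB2⟩ := hτ u hu
    exact ⟨B', hB', by rw [hB2, ← hz]; abel⟩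
  · exact absurd h (by simp)

theorem seven_core (S : Finset (ZMod 7 × ZMod 7)) (h0 : (0 : ZMod 7 × ZMod 7) ∉ S)
    (hcard : S.card = 11) (d1 d2 : Option (ZMod 7)) (hne : d1 ≠ d2) (cap : ℕ) (hcap0 : cap ≠ 0)
    (hcap : ∀ d, d ≠ d1 → d ≠ d2 → z d S ≤ cap) (l1 l2 : ZMod 7) (hl1 : l1 ≠ 0) (hl2 : l2 ≠ 0)
    (A B : ℕ × ℕ × ℕ)
    (hA : ∀ k : ZMod 7, k ∈ [(1 : ZMod 7), 2, 3] → mu S (k * l1 * (dv d1).1, k * l1 * (dv d1).2) =
      if k = 1 then A.1 else if k = 2 then A.2.1 else A.2.2)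
    (hB : ∀ k : ZMod 7, k ∈ [(1 : ZMod 7), 2, 3] → mu S (k * l2 * (dv d2).1, k * l2 * (dv d2).2) =
      if k = 1 then B.1 else if k = 2 then B.2.1 else B.2.2)
    (hAs : A.1 + A.2.1 + A.2.2 ≤ 3) (hBs : B.1 + B.2.1 + B.2.2 ≤ 3)
    (hmem : (A, B, cap) ∈ combos) : Spans S := by
  set v1 : ZMod 7 × ZMod 7 := (l1 * (dv d1).1, l1 * (dv d1).2) with hv1
  set v2 : ZMod 7 × ZMod 7 := (l2 * (dv d2).1, l2 * (dv d2).2) with hv2
  have hp1 : phi d1 v1 = 0 := by rw [phi_iff_par, hv1]; simp only; ring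
  have hp2 : phi d2 v2 = 0 := by rw [phi_iff_par, hv2]; simp only; ring
  have hv1n : v1 ≠ 0 := by
    intro h
    have h1 := congrArg Prod.fst h
    have h2 := congrArg Prod.snd h
    simp only [hv1, Prod.fst_zero, Prod.snd_zero, mul_eq_zero, hl1, false_or] at h1 h2
    exact dv_ne d1 (Prod.ext h1 h2)
  have hv2n : v2 ≠ 0 := by
    intro h
    have h1 := congrArg Prod.fst h
    have h2 := congrArg Prod.snd h
    simp only [hv2, Prod.fst_zero, Prod.snd_zero, mul_eq_zero, hl2, false_or] at h1 h2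
    exact dv_ne d2 (Prod.ext h1 h2)
  have hp12 : phi d1 v2 ≠ 0 := fun h => hne (phi_inj hv2n h hp2)
  have hp21 : phi d2 v1 ≠ 0 := fun h => hne (phi_inj hv1n hp1 h)
  have hdet : v1.1 * v2.2 - v2.1 * v1.2 ≠ 0 := by
    intro h
    apply hp21
    rw [phi_iff_par]
    have : l2 * (v1.1 * (dv d2).2 - v1.2 * (dv d2).1) = 0 := by
      rw [hv2] at h
      simp only at h
      linear_combination h
    exact sub_eq_zero.mp ((mul_eq_zero.mp this).resolve_left hl2)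
  obtain ⟨e, he⟩ := exists_basis_change v1 v2 hdet
  apply spans_of_image e
  set S' := S.image e with hS'
  have h0' : (0 : ZMod 7 × ZMod 7) ∉ S' := zero_image e S h0
  have hcard' : S'.card = 11 := by rw [hS', card_image_of_injective _ e.injective, hcard]
  have hcapm : ∀ m : ZMod 7, m ≠ 0 → z (some m) S' ≤ cap := by
    intro m hm
    have hne' : e.symm (dv (some m)) ≠ 0 := by
      intro h3
      have := congrArg e h3
      rw [AddEquiv.apply_symm_apply, map_zero] at this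
      exact dv_ne _ this
    obtain ⟨d, hd, _⟩ := exists_dir_of _ hne'
    have hsplit : e.symm (dv (some m)) = v1 + (m * v2.1, m * v2.2) := by
      rw [he]
      simp only [dv]
      apply Prod.ext
      · simp only [Prod.fst_add]; ring
      · simp only [Prod.snd_add]; ring
    have hmul : ∀ d : Option (ZMod 7), phi d (m * v2.1, m * v2.2) = m * phi d v2 := by
      intro d
      cases d with
      | none => rfl
      | some q => rw [phi_some, phi_some]; ring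
    rw [z_transport v1 v2 hdet e he S (some m) d hd]
    rw [hsplit, phi_add, hmul] at hd
    apply hcap
    · rintro rfl
      rw [hp1, zero_add] at hd
      exact hp12 ((mul_eq_zero.mp hd).resolve_left hm)
    · rintro rfl
      rw [hp2, mul_zero, add_zero] at hd
      exact hp21 hd
  have hMA : ∀ x : ℕ, mu S' ((x : ZMod 7), ((0 : ℕ) : ZMod 7)) = mu S ((x : ZMod 7) * l1 * (dv d1).1, (x : ZMod 7) * l1 * (dv d1).2) := by
    intro x
    rw [hS', mu_image, he, hv1, hv2]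
    congr 1
    apply Prod.ext
    · simp only; push_cast; ring
    · simp only; push_cast; ring
  have hMB : ∀ x : ℕ, mu S' (((0 : ℕ) : ZMod 7), (x : ZMod 7)) = mu S ((x : ZMod 7) * l2 * (dv d2).1, (x : ZMod 7) * l2 * (dv d2).2) := by
    intro x
    rw [hS', mu_image, he, hv1, hv2]
    congr 1
    apply Prod.ext
    · simp only; push_cast; ring
    · simp only; push_cast; ring
  exact seven_tail S' h0' hcard' cap hcap0 A B hcapm ((hMA 1).trans (hA 1 (by decide)))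
    ((hMA 2).trans (hA 2 (by decide))) ((hMA 3).trans (hA 3 (by decide)))
    ((hMB 1).trans (hB 1 (by decide))) ((hMB 2).trans (hB 2 (by decide)))
    ((hMB 3).trans (hB 3 (by decide))) hAs hBs hmem

/-- multiplicity function along a line -/
def fl (S : Finset (ZMod 7 × ZMod 7)) (d : Option (ZMod 7)) (k : ZMod 7) : ℕ :=
  mu S (k * (dv d).1, k * (dv d).2)

theorem fl_neg (S : Finset (ZMod 7 × ZMod 7)) (d : Option (ZMod 7)) (k : ZMod 7) :
    fl S d (-k) = fl S d k := by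
  unfold fl
  rw [← mu_neg S (k * (dv d).1, k * (dv d).2)]
  congr 1
  apply Prod.ext
  · simp
  · simp

theorem patt (S : Finset (ZMod 7 × ZMod 7)) (d : Option (ZMod 7)) (l : ZMod 7) (A : ℕ × ℕ × ℕ)
    (h : (fl S d l, fl S d (2 * l), fl S d (3 * l)) = A) :
    ∀ k : ZMod 7, k ∈ [(1 : ZMod 7), 2, 3] → mu S (k * l * (dv d).1, k * l * (dv d).2) =
      if k = 1 then A.1 else if k = 2 then A.2.1 else A.2.2 := by
  subst h
  intro k hk
  simp only [List.mem_cons, List.not_mem_nil, or_false] at hk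
  rcases hk with rfl | rfl | rfl
  · rw [if_pos rfl]
    unfold fl
    simp only [one_mul]
  · rw [if_neg (by decide), if_pos rfl]
    unfold fl
    rfl
  · rw [if_neg (by decide), if_neg (by decide)]
    unfold fl
    rfl

theorem exists_dirs (f : Option (ZMod 7) → ℕ) (h3 : ∀ d, f d ≤ 3) (hs : ∑ d, f d = 11) :
    (∃ d1 d2, d1 ≠ d2 ∧ f d1 = 3 ∧ f d2 = 3) ∨
    (∃ d1 d2, d1 ≠ d2 ∧ f d1 = 3 ∧ f d2 = 2 ∧ ∀ d, d ≠ d1 → f d ≤ 2) ∨
    (∃ d1 d2, d1 ≠ d2 ∧ f d1 = 2 ∧ f d2 = 2 ∧ ∀ d, f d ≤ 2) := by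
  have hcard : Fintype.card (Option (ZMod 7)) = 8 := by
    rw [Fintype.card_option, ZMod.card]
  have hsum1 : ∀ d1, (∀ d, d ≠ d1 → f d ≤ 1) → ∑ d, f d ≤ f d1 + 7 := by
    intro d1 h
    rw [← add_sum_erase univ f (mem_univ d1)]
    have h5 : ∑ d ∈ univ.erase d1, f d ≤ ∑ d ∈ univ.erase d1, 1 :=
      sum_le_sum fun d hd => h d (ne_of_mem_erase hd)
    rw [sum_const, card_erase_of_mem (mem_univ d1), card_univ, hcard] at h5
    simp only [smul_eq_mul, mul_one] at h5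
    omega
  by_cases hA : ∃ d1 d2, d1 ≠ d2 ∧ f d1 = 3 ∧ f d2 = 3
  · left; exact hA
  right
  by_cases hB : ∃ d1, f d1 = 3
  · left
    obtain ⟨d1, hd1⟩ := hB
    have hle : ∀ d, d ≠ d1 → f d ≤ 2 := by
      intro d hd
      have := h3 d
      by_contra hcon
      exact hA ⟨d1, d, hd.symm, hd1, by omega⟩
    by_cases hC : ∃ d2, d1 ≠ d2 ∧ f d2 = 2
    · obtain ⟨d2, hd2, hd3⟩ := hC
      exact ⟨d1, d2, hd2, hd1, hd3, hle⟩
    · exfalso
      have := hsum1 d1 (fun d hd => by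
        have h5 := hle d hd
        by_contra hcon
        exact hC ⟨d, hd.symm, by omega⟩)
      omega
  · right
    have hle : ∀ d, f d ≤ 2 := by
      intro d
      have := h3 d
      by_contra hcon
      exact hB ⟨d, by omega⟩
    by_cases hC : ∃ d1, f d1 = 2
    · obtain ⟨d1, hd1⟩ := hC
      by_cases hD : ∃ d2, d1 ≠ d2 ∧ f d2 = 2
      · obtain ⟨d2, hd2, hd3⟩ := hD
        exact ⟨d1, d2, hd2, hd1, hd3, hle⟩
      · exfalso
        have := hsum1 d1 (fun d hd => by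
          have h5 := hle d
          by_contra hcon
          exact hD ⟨d, hd.symm, by omega⟩)
        omega
    · exfalso
      have h5 : ∑ d, f d ≤ ∑ d : Option (ZMod 7), 1 := sum_le_sum fun d _ => by
        have h5 := hle d
        by_contra hcon
        exact hC ⟨d, by omega⟩
      rw [sum_const, card_univ, hcard] at h5
      simp only [smul_eq_mul, mul_one] at h5
      omega

theorem spans_seven (S : Finset (ZMod 7 × ZMod 7)) (h0 : (0 : ZMod 7 × ZMod 7) ∉ S)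
    (hcard : S.card = 11) (hz : ∀ d : Option (ZMod 7), z d S ≤ 5) : Spans S := by
  by_cases hrich : ∃ d, 4 ≤ z d S
  · obtain ⟨d, hd⟩ := hrich
    have h5 := hz d
    apply spans_rich (by norm_num) S h0 d (by omega)
    have h6 : (4 + 1) ^ 2 ≤ (z d S + 1) ^ 2 := Nat.pow_le_pow_left (by omega) 2
    omega
  · push Not at hrich
    have h3 : ∀ d, z d S ≤ 3 := fun d => by have := hrich d; omega
    have hsum := sum_z S h0
    rw [hcard] at hsum
    have hfle : ∀ d k, fl S d k ≤ 2 := fun d k => mu_le _ _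
    have hfz : ∀ d, fl S d 1 + fl S d 2 + fl S d 3 = z d S := fun d => (z_mu7 S h0 d).symm
    rcases exists_dirs (fun d => z d S) h3 hsum with ⟨d1, d2, hne, h1, h2⟩ |
      ⟨d1, d2, hne, h1, h2, hle⟩ | ⟨d1, d2, hne, h1, h2, hle⟩
    · obtain ⟨l1, hl1, hA⟩ := norm3 (fl S d1) (fl_neg S d1) (hfle d1) ((hfz d1).trans h1)
      obtain ⟨l2, hl2, hB⟩ := norm3 (fl S d2) (fl_neg S d2) (hfle d2) ((hfz d2).trans h2)
      rcases hA with hA | hA | hA <;> rcases hB with hB | hB | hB <;>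
      exact seven_core S h0 hcard d1 d2 hne 3 (by norm_num) (fun d _ _ => h3 d) l1 l2 hl1 hl2 _ _
        (patt S d1 l1 _ hA) (patt S d2 l2 _ hB) (by norm_num) (by norm_num)
        (by simp only [combos]; decide)
    · obtain ⟨l1, hl1, hA⟩ := norm3 (fl S d1) (fl_neg S d1) (hfle d1) ((hfz d1).trans h1)
      obtain ⟨l2, hl2, hB⟩ := norm2 (fl S d2) (fl_neg S d2) (hfle d2) ((hfz d2).trans h2)
      rcases hA with hA | hA | hA <;> rcases hB with hB | hB <;>
      exact seven_core S h0 hcard d1 d2 hne 2 (by norm_num) (fun d hd _ => hle d hd) l1 l2 hl1 hl2 _ _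
        (patt S d1 l1 _ hA) (patt S d2 l2 _ hB) (by norm_num) (by norm_num)
        (by simp only [combos]; decide)
    · obtain ⟨l1, hl1, hA⟩ := norm2 (fl S d1) (fl_neg S d1) (hfle d1) ((hfz d1).trans h1)
      obtain ⟨l2, hl2, hB⟩ := norm2 (fl S d2) (fl_neg S d2) (hfle d2) ((hfz d2).trans h2)
      rcases hA with hA | hA <;> rcases hB with hB | hB <;>
      exact seven_core S h0 hcard d1 d2 hne 2 (by norm_num) (fun d _ _ => hle d) l1 l2 hl1 hl2 _ _
        (patt S d1 l1 _ hA) (patt S d2 l2 _ hB) (by norm_num) (by norm_num)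
        (by simp only [combos]; decide)

end Pool.Agent.Helper801.SubH
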