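import Pool.Agent.Helper801.SubG
import Pool.Agent.Helper801.SubF

open Finset

namespace Pool.Agent.Helper801.SubI

open SubB SubD SubF SubG

def l5 : List Ent :=
  [⟨4, true, true, true, 0, 1, 0, 25, 16236015, 17318416, 1, 4⟩,
   ⟨0, true, true, true, 0, 2, 0, 25, 7576807, 25977624, 2, 3⟩,
   ⟨4, true, true, true, 1, 0, 5, 20, 33554431, 0, 0, 5⟩,
   ⟨0, true, true, true, 2, 0, 10, 15, 33554431, 0, 0, 5⟩,
   ⟨4, true, true, true, 1, 1, 5, 20, 16236015, 17318416, 1, 4⟩,
   ⟨0, true, true, true, 2, 2, 10, 15, 7576807, 25977624, 2, 3⟩,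
   ⟨4, true, true, true, 1, 2, 5, 20, 7576807, 25977624, 2, 3⟩,
   ⟨0, true, true, true, 2, 4, 10, 15, 1082401, 32472030, 4, 1⟩,
   ⟨4, true, true, true, 1, 3, 5, 20, 3247203, 30307228, 3, 2⟩,
   ⟨0, true, true, true, 2, 1, 10, 15, 16236015, 17318416, 1, 4⟩,
   ⟨4, true, true, true, 1, 4, 5, 20, 1082401, 32472030, 4, 1⟩,
   ⟨0, true, true, true, 2, 3, 10, 15, 3247203, 30307228, 3, 2⟩]
/-- values of the six linear forms on the twelve vectors -/
def phT : List (List ℕ) := [[0, 0, 1, 2, 1, 2, 1, 2, 1, 2, 1, 2], [1, 2, 0, 0, 1, 2, 2, 4, 3, 1, 4, 3], [1, 2, 4, 3, 0, 0, 1, 2, 2, 4, 3, 1], [1, 2, 3, 1, 4, 3, 0, 0, 1, 2, 2, 4], [1, 2, 2, 4, 3, 1, 4, 3, 0, 0, 1, 2], [1, 2, 1, 2, 2, 4, 3, 1, 4, 3, 0, 0]]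
def xT : List ℕ := [0, 0, 1, 2, 1, 2, 1, 2, 1, 2, 1, 2]
def yT : List ℕ := [1, 2, 0, 0, 1, 2, 2, 4, 3, 1, 4, 3]

/-- sign of a class value -/
def sg (c v : ℕ) : ℕ := cond (Nat.beq v c) 1 (cond (Nat.beq v (5 - c)) 4 0)

/-- support condition -/
def supp (c : ℕ) : List ℕ → List ℕ → Bool
  | n :: ns, v :: vs => and (or (Nat.beq n 0) (or (Nat.beq v 0) (or (Nat.beq v c) (Nat.beq v (5 - c)))))
      (supp c ns vs)
  | _, _ => true

/-- signed sum -/
def tau (c : ℕ) : List ℕ → List ℕ → List ℕ → ℕ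
  | n :: ns, v :: vs, x :: xs => n * sg c v * x + tau c ns vs xs
  | _, _, _ => 0

/-- number of elements on the line -/
def zs : List ℕ → List ℕ → ℕ
  | n :: ns, v :: vs => cond (Nat.beq v 0) n 0 + zs ns vs
  | _, _ => 0

/-- an antipodal pair on the line equal to the signed sum -/
def hany (tx ty : ℕ) : List ℕ → List ℕ → List ℕ → List ℕ → Bool
  | n :: ns, v :: vs, x :: xs, y :: ys =>
      or (and (Nat.beq v 0) (and (Nat.beq n 2) (or (and (Nat.beq tx x) (Nat.beq ty y))
        (and (Nat.beq tx ((5 - x) % 5)) (Nat.beq ty ((5 - y) % 5)))))) (hany tx ty ns vs xs ys)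
  | _, _, _, _ => false

/-- exotic condition for class c -/
def ec (c : ℕ) (ns vs : List ℕ) : Bool :=
  and (supp c ns vs) ((fun tx ty => or (and (Nat.beq tx 0) (Nat.beq ty 0)) (hany tx ty ns vs xT yT))
      (tau c ns vs xT % 5) (tau c ns vs yT % 5))

/-- condition in one direction -/
def chkd (ns vs : List ℕ) : Bool :=
  or (Nat.beq (zs ns vs) 4) (and (Nat.beq (zs ns vs) 2) (or (ec 1 ns vs) (ec 2 ns vs)))

/-- final check -/
def chk (acc : List ℕ) : Bool := (fun ns => phT.any (chkd ns)) acc.reverse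

set_option maxRecDepth 100000 in
theorem search5 : dfs 33554431 chk l5 7 0 1 [] = true := by
  decide +kernel

set_option maxRecDepth 100000 in
theorem search5' : dfs 33554431 (fun _ => false) l5 8 0 1 [] = true := by
  decide +kernel

set_option maxRecDepth 100000 in
theorem valid5 : l5.all (vld 5) = true := by
  decide +kernel

instance fact5 : Fact (Nat.Prime 5) := ⟨by norm_num⟩

/-- value of the form with number d -/
def pv (d : ℕ) (e : Ent) : ℕ := if d = 0 then e.x else (e.y + (6 - d) * e.x) % 5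

/-- direction with number d -/
def dd (d : ℕ) : Option (ZMod 5) := if d = 0 then none else some ((d - 1 : ℕ) : ZMod 5)

theorem phT_eq : phT = (List.range 6).map (fun d => l5.map (pv d)) := by decide +kernel

theorem xT_eq : xT = l5.map Ent.x := rfl

theorem yT_eq : yT = l5.map Ent.y := rfl

theorem pv_phi : ∀ d ∈ List.range 6, ∀ e ∈ l5, phi (dd d) (vc 5 e) = ((pv d e : ℕ) : ZMod 5) := by
  decide +kernel

theorem zs_map (n g : Ent → ℕ) (l : List Ent) :
    zs (l.map n) (l.map g) = (l.map (fun e => if g e = 0 then n e else 0)).sum := by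
  induction l with
  | nil => rfl
  | cons e l ih =>
    rw [List.map_cons, List.map_cons, List.map_cons, List.sum_cons, zs, ih]
    congr 1
    rcases Nat.eq_zero_or_pos (g e) with h | h
    · rw [h]; rfl
    · have : Nat.beq (g e) 0 = false := by
        rw [Bool.eq_false_iff]; intro h'; exact h.ne' (Nat.eq_of_beq_eq_true h')
      rw [this, if_neg h.ne']; rfl

theorem supp_map (c : ℕ) (n g : Ent → ℕ) (l : List Ent)
    (h : supp c (l.map n) (l.map g) = true) :
    ∀ e ∈ l, n e = 0 ∨ g e = 0 ∨ g e = c ∨ g e = 5 - c := by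
  induction l with
  | nil => simp
  | cons e l ih =>
    rw [List.map_cons, List.map_cons, supp, Bool.and_eq_true, Bool.or_eq_true, Bool.or_eq_true,
      Bool.or_eq_true, Nat.beq_eq, Nat.beq_eq, Nat.beq_eq, Nat.beq_eq] at h
    intro e' he'
    rw [List.mem_cons] at he'
    rcases he' with rfl | he'
    · exact h.1
    · exact ih h.2 e' he'

theorem tau_map (c : ℕ) (n g x : Ent → ℕ) (l : List Ent) :
    tau c (l.map n) (l.map g) (l.map x) = (l.map (fun e => n e * sg c (g e) * x e)).sum := by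
  induction l with
  | nil => rfl
  | cons e l ih =>
    rw [List.map_cons, List.map_cons, List.map_cons, List.map_cons, List.sum_cons, tau, ih]

theorem hany_map (tx ty : ℕ) (n g x y : Ent → ℕ) (l : List Ent)
    (h : hany tx ty (l.map n) (l.map g) (l.map x) (l.map y) = true) :
    ∃ e ∈ l, g e = 0 ∧ n e = 2 ∧ ((tx = x e ∧ ty = y e) ∨
      (tx = (5 - x e) % 5 ∧ ty = (5 - y e) % 5)) := by
  induction l with
  | nil => simp [hany] at h
  | cons e l ih =>
    rw [List.map_cons, List.map_cons, List.map_cons, List.map_cons, hany, Bool.or_eq_true,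
      Bool.and_eq_true, Bool.and_eq_true, Bool.or_eq_true, Bool.and_eq_true, Bool.and_eq_true,
      Nat.beq_eq, Nat.beq_eq, Nat.beq_eq, Nat.beq_eq, Nat.beq_eq, Nat.beq_eq] at h
    rcases h with h | h
    · exact ⟨e, List.mem_cons_self, h.1, h.2.1, h.2.2⟩
    · obtain ⟨e', he', h'⟩ := ih h
      exact ⟨e', List.mem_cons_of_mem _ he', h'⟩

/-- the twelve vectors -/
def L5 : List (ZMod 5 × ZMod 5) := [(0, 1), (0, 2), (1, 0), (2, 0), (1, 1), (2, 2), (1, 2), (2, 4), (1, 3), (2, 1), (1, 4), (2, 3)]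

theorem L5_eq : l5.map (vc 5) = L5 := by decide +kernel

theorem sum_even {α : Type*} [AddCommMonoid α] (S : Finset (ZMod 5 × ZMod 5))
    (h0 : (0 : ZMod 5 × ZMod 5) ∉ S) (t : ZMod 5 × ZMod 5 → α) (ht : ∀ x, t (-x) = t x) :
    ∑ x ∈ S, t x = (l5.map (fun e => mu S (vc 5 e) • t (vc 5 e))).sum := by
  have h1 : (univ : Finset (ZMod 5 × ZMod 5)).erase 0 = L5.toFinset ∪ L5.toFinset.image (fun x => -x) := by
    decide +kernel
  have h2 : Disjoint L5.toFinset (L5.toFinset.image (fun x => -x)) := by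
    decide +kernel
  have h3 : L5.Nodup := by decide +kernel
  have h4 : ∑ x ∈ S, t x = ∑ x ∈ (univ : Finset (ZMod 5 × ZMod 5)).erase 0, if x ∈ S then t x else 0 := by
    rw [← sum_filter]
    apply sum_congr _ (fun _ _ => rfl)
    ext x
    rw [mem_filter, mem_erase]
    constructor
    · intro hx; exact ⟨⟨fun h => h0 (h ▸ hx), mem_univ _⟩, hx⟩
    · intro hx; exact hx.2
  rw [h4, h1, sum_union h2, sum_image (fun a _ b _ h => neg_injective h), ← sum_add_distrib]
  have h5 : (l5.map (fun e => mu S (vc 5 e) • t (vc 5 e))).sum = (L5.map (fun x => mu S x • t x)).sum := by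
    rw [← L5_eq, List.map_map]; rfl
  rw [h5, ← List.sum_toFinset _ h3]
  refine sum_congr rfl fun x _ => ?_
  unfold mu
  rw [ht]
  by_cases ha : x ∈ S <;> by_cases hb : -x ∈ S <;> simp [ha, hb, two_smul]

theorem adm_pair {e1 e2 : Ent} {l : List Ent} {n1 n2 c : ℕ} {μ : List ℕ}
    (h1 : e1.cp = 4) (h2 : e2.cp = 0) (a : e1.a0 = true ∧ e1.a1 = true ∧ e1.a2 = true)
    (b : e2.a0 = true ∧ e2.a1 = true ∧ e2.a2 = true)
    (b1 : n1 ≤ 2) (b2 : n2 ≤ 2) (hr : ∀ c, adm l c μ) : adm (e1 :: e2 :: l) c (n1 :: n2 :: μ) := by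
  have h4 : (4 : ℕ) ≠ 0 := by norm_num
  simp only [adm, h1, h2, if_true, if_neg h4, a.1, a.2.1, a.2.2, b.1, b.2.1, b.2.2, and_true]
  exact ⟨by omega, by omega, by omega, by omega, hr _⟩

theorem adm5 (S : Finset (ZMod 5 × ZMod 5)) : adm l5 0 (l5.map fun e => mu S (vc 5 e)) := by
  unfold l5
  simp only [List.map_cons, List.map_nil]
  refine adm_pair rfl rfl ⟨rfl, rfl, rfl⟩ ⟨rfl, rfl, rfl⟩ (SubG.mu_le' _ _) (SubG.mu_le' _ _) fun _ => ?_
  refine adm_pair rfl rfl ⟨rfl, rfl, rfl⟩ ⟨rfl, rfl, rfl⟩ (SubG.mu_le' _ _) (SubG.mu_le' _ _) fun _ => ?_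
  refine adm_pair rfl rfl ⟨rfl, rfl, rfl⟩ ⟨rfl, rfl, rfl⟩ (SubG.mu_le' _ _) (SubG.mu_le' _ _) fun _ => ?_
  refine adm_pair rfl rfl ⟨rfl, rfl, rfl⟩ ⟨rfl, rfl, rfl⟩ (SubG.mu_le' _ _) (SubG.mu_le' _ _) fun _ => ?_
  refine adm_pair rfl rfl ⟨rfl, rfl, rfl⟩ ⟨rfl, rfl, rfl⟩ (SubG.mu_le' _ _) (SubG.mu_le' _ _) fun _ => ?_
  refine adm_pair rfl rfl ⟨rfl, rfl, rfl⟩ ⟨rfl, rfl, rfl⟩ (SubG.mu_le' _ _) (SubG.mu_le' _ _) fun _ => ?_
  simp only [adm]

theorem mu_sum (S : Finset (ZMod 5 × ZMod 5)) (h0 : (0 : ZMod 5 × ZMod 5) ∉ S) :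
    (l5.map fun e => mu S (vc 5 e)).sum = S.card := by
  have := sum_even S h0 (fun _ => (1 : ℕ)) (fun _ => rfl)
  simp only [smul_eq_mul, mul_one] at this
  rw [← this, card_eq_sum_ones]

theorem pw5 : l5.Pairwise (fun e f => vc 5 e ≠ vc 5 f ∧ vc 5 e ≠ - vc 5 f) := by
  have h : (l5.map (vc 5)).Pairwise (fun a b => a ≠ b ∧ a ≠ -b) := by
    rw [L5_eq]
    decide +kernel
  exact List.pairwise_map.mp h

theorem nn5 : ∀ e ∈ l5, vc 5 e ≠ - vc 5 e := by
  have h : ∀ a ∈ l5.map (vc 5), a ≠ -a := by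
    rw [L5_eq]
    decide +kernel
  intro e he
  exact h _ (List.mem_map_of_mem he)

theorem spans_or (S : Finset (ZMod 5 × ZMod 5)) (h0 : (0 : ZMod 5 × ZMod 5) ∉ S) (chk' : List ℕ → Bool)
    (hs : dfs 33554431 chk' l5 S.card 0 1 [] = true) :
    Spans S ∨ chk' (l5.map fun e => mu S (vc 5 e)).reverse = true := by
  have hfull : ∀ i < 5 * 5, (33554431 : ℕ).testBit i = true := by decide
  rcases dfs_sound 5 (by norm_num) 33554431 hfull chk' l5 valid5 S.card 0 1 [] _ hs (adm5 S)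
    (mu_sum S h0) with h | h
  · left
    obtain ⟨τ, hτ⟩ := rch_sums 5 S l5 pw5 nn5
    intro t
    obtain ⟨j, hj, u, hu, hz⟩ := h (t - τ)
    have hj0 : j = 0 := by rwa [Nat.testBit_one_eq_true_iff_self_eq_zero] at hj
    subst hj0
    have hel : el 5 0 = 0 := by unfold el; simp
    rw [hel, zero_add] at hz
    obtain ⟨B', hB', _, hB2⟩ := hτ u hu
    exact ⟨B', hB', by rw [hB2, ← hz]; abel⟩
  · right; simpa using h

theorem five_eight (S : Finset (ZMod 5 × ZMod 5)) (h0 : (0 : ZMod 5 × ZMod 5) ∉ S)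
    (hcard : S.card = 8) : Spans S := by
  rcases spans_or S h0 (fun _ => false) (by rw [hcard]; exact search5') with h | h
  · exact h
  · exact absurd h (by simp)

/-- oriented sum of the elements off the line -/
def tv {p : ℕ} [Fact p.Prime] (S : Finset (ZMod p × ZMod p)) (d : Option (ZMod p)) (c : ZMod p) : ZMod p × ZMod p :=
  ∑ x ∈ S, if phi d x = c then x else if phi d x = -c then -x else 0

theorem sg_spec : ∀ c ∈ [1, 2], ∀ v ∈ List.range 5, ∀ x ∈ List.range 5,
    ((sg c v * x : ℕ) : ZMod 5) = if ((v : ℕ) : ZMod 5) = ((c : ℕ) : ZMod 5) then ((x : ℕ) : ZMod 5)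
      else if ((v : ℕ) : ZMod 5) = - ((c : ℕ) : ZMod 5) then - ((x : ℕ) : ZMod 5) else 0 := by
  decide +kernel

theorem ranges : ∀ e ∈ l5, e.x ∈ List.range 5 ∧ e.y ∈ List.range 5 ∧
    ∀ d ∈ List.range 6, pv d e ∈ List.range 5 := by
  decide +kernel

theorem cls_spec : ∀ c ∈ [1, 2], ∀ v ∈ List.range 5, (v = c ∨ v = 5 - c) →
    (((v : ℕ) : ZMod 5) = ((c : ℕ) : ZMod 5) ∨ ((v : ℕ) : ZMod 5) = - ((c : ℕ) : ZMod 5)) := by
  decide +kernel

theorem zero_spec : ∀ v ∈ List.range 5, ((v : ℕ) : ZMod 5) = 0 ↔ v = 0 := by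
  decide +kernel

theorem zs_eq (S : Finset (ZMod 5 × ZMod 5)) (h0 : (0 : ZMod 5 × ZMod 5) ∉ S) (d : ℕ)
    (hd : d ∈ List.range 6) :
    zs (l5.map fun e => mu S (vc 5 e)) (l5.map (pv d)) = z (dd d) S := by
  rw [zs_map]
  unfold z
  rw [sum_even S h0 (fun x => if phi (dd d) x = 0 then 1 else 0) (fun x => by
    simp only [phi_neg, neg_eq_zero])]
  congr 1
  refine List.map_congr_left fun e he => ?_
  simp only [pv_phi d hd e he, zero_spec _ ((ranges e he).2.2 d hd)]
  by_cases h : pv d e = 0 <;> simp [h]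

theorem tv_eq (S : Finset (ZMod 5 × ZMod 5)) (h0 : (0 : ZMod 5 × ZMod 5) ∉ S) (d : ℕ)
    (hd : d ∈ List.range 6) (c : ℕ) (hc : c ∈ [1, 2]) :
    tv S (dd d) ((c : ℕ) : ZMod 5) =
      (((tau c (l5.map fun e => mu S (vc 5 e)) (l5.map (pv d)) (l5.map Ent.x) : ℕ) : ZMod 5),
       ((tau c (l5.map fun e => mu S (vc 5 e)) (l5.map (pv d)) (l5.map Ent.y) : ℕ) : ZMod 5)) := by
  have hc0 : ((c : ℕ) : ZMod 5) ≠ - ((c : ℕ) : ZMod 5) := by
    simp only [List.mem_cons, List.not_mem_nil, or_false] at hc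
    rcases hc with rfl | rfl <;> decide
  unfold tv
  rw [sum_even S h0 _ (fun x => by
    rw [phi_neg]
    by_cases h1 : phi (dd d) x = ((c : ℕ) : ZMod 5)
    · rw [if_neg, if_pos, if_pos h1, neg_neg]
      · rw [h1]
      · rw [h1]; exact hc0.symm
    · by_cases h2 : phi (dd d) x = - ((c : ℕ) : ZMod 5)
      · rw [if_pos, if_neg h1, if_pos h2]
        rw [h2, neg_neg]
      · rw [if_neg, if_neg, if_neg h1, if_neg h2]
        · intro h; exact h1 (neg_injective h)
        · intro h; apply h2; rw [← h, neg_neg])]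
  rw [tau_map, tau_map]
  have h5 : ∀ l : List Ent, (∀ e ∈ l, e ∈ l5) →
      (l.map (fun e => mu S (vc 5 e) • (if phi (dd d) (vc 5 e) = ((c : ℕ) : ZMod 5) then vc 5 e
        else if phi (dd d) (vc 5 e) = - ((c : ℕ) : ZMod 5) then - vc 5 e else 0))).sum =
      ((((l.map (fun e => mu S (vc 5 e) * sg c (pv d e) * e.x)).sum : ℕ) : ZMod 5),
       (((l.map (fun e => mu S (vc 5 e) * sg c (pv d e) * e.y)).sum : ℕ) : ZMod 5)) := by
    intro l hl
    induction l with
    | nil => rfl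
    | cons e l ih =>
      rw [List.map_cons, List.map_cons, List.map_cons, List.sum_cons, List.sum_cons, List.sum_cons,
        ih (fun e' he' => hl e' (List.mem_cons_of_mem _ he'))]
      have he := hl e List.mem_cons_self
      have hr := ranges e he
      have hx := sg_spec c hc (pv d e) (hr.2.2 d hd) e.x hr.1
      have hy := sg_spec c hc (pv d e) (hr.2.2 d hd) e.y hr.2.1
      rw [pv_phi d hd e he]
      have key : (if ((pv d e : ℕ) : ZMod 5) = ((c : ℕ) : ZMod 5) then vc 5 e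
          else if ((pv d e : ℕ) : ZMod 5) = - ((c : ℕ) : ZMod 5) then - vc 5 e else 0) =
          (((sg c (pv d e) * e.x : ℕ) : ZMod 5), ((sg c (pv d e) * e.y : ℕ) : ZMod 5)) := by
        rw [hx, hy]
        split_ifs <;> rfl
      rw [key, Prod.smul_mk, Prod.mk_add_mk, nsmul_eq_mul, nsmul_eq_mul]
      apply Prod.ext
      · simp only [Nat.cast_add, Nat.cast_mul, mul_assoc]
      · simp only [Nat.cast_add, Nat.cast_mul, mul_assoc]
  exact h5 l5 (fun e he => he)

theorem five_class (S : Finset (ZMod 5 × ZMod 5)) (h0 : (0 : ZMod 5 × ZMod 5) ∉ S)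
    (hcard : S.card = 7) (hns : ¬ Spans S) :
    (∃ d, z d S = 4) ∨ (∃ d c, c ≠ 0 ∧ z d S = 2 ∧
      (∀ x ∈ S, phi d x = 0 ∨ phi d x = c ∨ phi d x = -c) ∧
      (tv S d c = 0 ∨ ∃ h ∈ S, -h ∈ S ∧ phi d h = 0 ∧ (tv S d c = h ∨ tv S d c = -h))) := by
  rcases spans_or S h0 chk (by rw [hcard]; exact search5) with h | h
  · exact absurd h hns
  · unfold chk at h
    simp only [List.reverse_reverse, phT_eq] at h
    rw [List.any_eq_true] at h
    obtain ⟨vs, hvs, h⟩ := h
    rw [List.mem_map] at hvs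
    obtain ⟨d, hd, rfl⟩ := hvs
    unfold chkd at h
    rw [zs_eq S h0 d hd, Bool.or_eq_true, Bool.and_eq_true, Bool.or_eq_true, Nat.beq_eq, Nat.beq_eq] at h
    rcases h with h | ⟨h1, h2⟩
    · left; exact ⟨dd d, h⟩
    · right
      have h3 : ∃ c ∈ [1, 2], ec c (l5.map fun e => mu S (vc 5 e)) (l5.map (pv d)) = true := by
        rcases h2 with h2 | h2
        · exact ⟨1, by simp, h2⟩
        · exact ⟨2, by simp, h2⟩
      obtain ⟨c, hc, h4⟩ := h3
      unfold ec at h4
      rw [Bool.and_eq_true] at h4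
      obtain ⟨h5, h6⟩ := h4
      have hc0 : ((c : ℕ) : ZMod 5) ≠ 0 := by
        simp only [List.mem_cons, List.not_mem_nil, or_false] at hc
        rcases hc with rfl | rfl <;> decide
      refine ⟨dd d, ((c : ℕ) : ZMod 5), hc0, h1, ?_, ?_⟩
      · intro x hx
        have hx0 : x ≠ 0 := fun h => h0 (h ▸ hx)
        have hmem : x ∈ L5.toFinset ∪ L5.toFinset.image (fun x => -x) := by
          have h1 : (univ : Finset (ZMod 5 × ZMod 5)).erase 0 =
              L5.toFinset ∪ L5.toFinset.image (fun x => -x) := by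
            decide +kernel
          rw [← h1, mem_erase]; exact ⟨hx0, mem_univ _⟩
        have key : ∀ v ∈ L5, (v ∈ S ∨ -v ∈ S) → phi (dd d) v = 0 ∨
            phi (dd d) v = ((c : ℕ) : ZMod 5) ∨ phi (dd d) v = - ((c : ℕ) : ZMod 5) := by
          intro v hv hvS
          rw [← L5_eq, List.mem_map] at hv
          obtain ⟨e, he, rfl⟩ := hv
          rw [pv_phi d hd e he]
          rcases supp_map c _ _ l5 h5 e he with h7 | h7 | h7
          · exfalso
            unfold mu at h7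
            rcases hvS with h8 | h8
            · rw [if_pos h8] at h7; omega
            · rw [if_pos h8] at h7; omega
          · left; rw [h7]; rfl
          · right
            exact cls_spec c hc _ ((ranges e he).2.2 d hd) h7
        rw [mem_union] at hmem
        rcases hmem with hm | hm
        · exact key x (List.mem_toFinset.mp hm) (Or.inl hx)
        · rw [mem_image] at hm
          obtain ⟨v, hv, rfl⟩ := hm
          have := key v (List.mem_toFinset.mp hv) (Or.inr hx)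
          rw [phi_neg]
          rcases this with h7 | h7 | h7
          · left; rw [h7, neg_zero]
          · right; right; rw [h7]
          · right; left; rw [h7, neg_neg]
      · have h8 : ∀ n : ℕ, ((n : ℕ) : ZMod 5) = ((n % 5 : ℕ) : ZMod 5) := by
          intro n; simp
        have h7 := tv_eq S h0 d hd c hc
        rw [h8 (tau c (l5.map fun e => mu S (vc 5 e)) (l5.map (pv d)) (l5.map Ent.x)),
          h8 (tau c (l5.map fun e => mu S (vc 5 e)) (l5.map (pv d)) (l5.map Ent.y))] at h7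
        simp only [xT_eq, yT_eq] at h6
        rw [h7]
        set tx := tau c (l5.map fun e => mu S (vc 5 e)) (l5.map (pv d)) (l5.map Ent.x) % 5 with htx
        set ty := tau c (l5.map fun e => mu S (vc 5 e)) (l5.map (pv d)) (l5.map Ent.y) % 5 with hty
        rw [Bool.or_eq_true, Bool.and_eq_true, Nat.beq_eq, Nat.beq_eq] at h6
        rcases h6 with ⟨h9, h10⟩ | h9
        · left; rw [h9, h10]; rfl
        · right
          obtain ⟨e, he, h10, h11, h12⟩ := hany_map tx ty _ _ _ _ l5 h9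
          have hS : vc 5 e ∈ S ∧ - vc 5 e ∈ S := by
            unfold mu at h11
            by_cases ha : vc 5 e ∈ S <;> by_cases hb : - vc 5 e ∈ S <;> simp [ha, hb] at h11 ⊢
          refine ⟨vc 5 e, hS.1, hS.2, ?_, ?_⟩
          · rw [pv_phi d hd e he, h10]; rfl
          · rcases h12 with ⟨h13, h14⟩ | ⟨h13, h14⟩
            · left; rw [h13, h14]; rfl
            · right
              rw [h13, h14]
              have hneg : ∀ n ∈ List.range 5, (((5 - n) % 5 : ℕ) : ZMod 5) = - ((n : ℕ) : ZMod 5) := by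
                decide +kernel
              have hr := ranges e he
              rw [hneg _ hr.1, hneg _ hr.2.1]
              rfl

end Pool.Agent.Helper801.SubI
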