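import Pool.Agent.Helper801.SubH
import Pool.Agent.Helper801.SubI

open Finset

namespace Pool.Agent.Helper801.SubJ

open SubB SubC SubD SubE SubF

section
variable {p : ℕ} [Fact p.Prime]

theorem full_fst (hp5 : 5 ≤ p) (S P R : Finset (ZMod p × ZMod p))
    (h0 : (0 : ZMod p × ZMod p) ∉ S) (hdisj : Disjoint P R) (hPR : P ∪ R = S)
    (hP : ∀ x ∈ P, -x ∉ P) (hR : ∀ x ∈ R, -x ∉ R)
    (hcard : S.card = 2 * p - 3) (hz : z none S = p - 1) (hns : ¬ Spans S) :
    ∃ c : ZMod p, c ≠ 0 ∧ ∀ x ∈ S, x.1 = 0 ∨ x.1 = c ∨ x.1 = -c := by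
  have h2 : p ≠ 2 := by omega
  have hzz : z none P + z none R = p - 1 := by rw [← z_union none hdisj, hPR, hz]
  have hPcard : P.card + R.card = 2 * p - 3 := by
    rw [← card_union_of_disjoint hdisj, hPR, hcard]
  have hNsum := NN_sum h2 P R
  have hN2 : ∑ i ∈ Hf p ×ˢ (univ : Finset Bool), NN P R i = p - 2 := by omega
  have hcov : cov (Hf p) (NN P R) < p - 1 := by
    by_contra hcon
    push Not at hcon
    apply hns
    intro t
    refine span_core h2 S P R h0 hdisj hPR hP hR (NN P R) (fun i _ => ⟨le_rfl, by simp⟩) ?_ hcon t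
    have : p - 1 ≤ (z none P + z none R + 1) ^ 2 / 4 := by
      rw [hzz]
      have h3 : p - 1 + 1 = p := by omega
      rw [h3]
      have : 5 * p ≤ p ^ 2 := by nlinarith
      omega
    omega
  have hy : ∑ c ∈ Hf p, min (NN P R (c, false) + NN P R (c, true)) 2 ≤ 2 := by
    by_contra hcon
    push Not at hcon
    have := cov_ge (Hf p) (NN P R) 3 hcon
    rw [hN2] at this
    norm_num at this
    omega
  have hw : ∀ c, NN P R (c, false) + NN P R (c, true) = (cls S c).card := by
    intro c
    unfold NN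
    simp only
    unfold cls
    rw [← hPR, filter_union, card_union_of_disjoint (disjoint_filter_filter hdisj)]
    rfl
  simp only [hw] at hy
  have hsumw : ∑ c ∈ Hf p, (cls S c).card = p - 2 := by
    rw [← hN2, sum_J (Hf p) (NN P R)]
    exact sum_congr rfl fun c _ => (hw c).symm
  -- a class with an element
  have hex : ∃ c ∈ Hf p, 1 ≤ (cls S c).card := by
    by_contra hcon
    push Not at hcon
    have : ∑ c ∈ Hf p, (cls S c).card = 0 := sum_eq_zero fun c hc => by
      have := hcon c hc; omega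
    omega
  obtain ⟨c, hc, hc1⟩ := hex
  refine ⟨c, Hf_ne_zero hc, ?_⟩
  intro x hx
  by_cases hx0 : x.1 = 0
  · left; exact hx0
  right
  have hrp := rp_mem h2 hx0
  by_cases heq : rp x.1 = c
  · exact (rp_iff h2 hx0 hc).mpr heq.symm
  exfalso
  have hc2 : 1 ≤ (cls S (rp x.1)).card := by
    rw [Nat.one_le_iff_ne_zero, ← Nat.pos_iff_ne_zero, card_pos]
    refine ⟨x, ?_⟩
    unfold cls
    rw [mem_filter]
    exact ⟨hx, (rp_iff h2 hx0 hrp).mpr rfl⟩
  -- the two classes
  have hsub : ({c, rp x.1} : Finset (ZMod p)) ⊆ Hf p := by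
    intro y hy'
    rw [mem_insert, mem_singleton] at hy'
    rcases hy' with rfl | rfl
    · exact hc
    · exact hrp
  have hne : c ≠ rp x.1 := fun h => heq h.symm
  have hsplit : ∀ f : ZMod p → ℕ, ∑ y ∈ Hf p, f y = ∑ y ∈ Hf p \ {c, rp x.1}, f y + (f c + f (rp x.1)) := by
    intro f
    rw [← sum_pair hne, sum_sdiff hsub]
  rw [hsplit] at hy hsumw
  have hle : ∑ y ∈ Hf p \ {c, rp x.1}, (cls S y).card = 0 := by
    have h5 : ∑ y ∈ Hf p \ {c, rp x.1}, min (cls S y).card 2 = 0 := by omega
    rw [sum_eq_zero_iff] at h5 ⊢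
    intro y hy'
    have := h5 y hy'
    omega
  omega

theorem full_line (hp5 : 5 ≤ p) (S : Finset (ZMod p × ZMod p))
    (h0 : (0 : ZMod p × ZMod p) ∉ S) (d : Option (ZMod p))
    (hcard : S.card = 2 * p - 3) (hz : z d S = p - 1) (hns : ¬ Spans S) :
    ∃ c : ZMod p, c ≠ 0 ∧ ∀ x ∈ S, phi d x = 0 ∨ phi d x = c ∨ phi d x = -c := by
  classical
  have h2 : p ≠ 2 := by omega
  obtain ⟨P, R, hdisj, hPR, hP, hR, hRP⟩ := exists_split h2 S h0
  obtain ⟨e, he⟩ := exists_coord d
  obtain ⟨c, hc, hc2⟩ := full_fst hp5 (S.image e) (P.image e) (R.image e) (zero_image e S h0)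
    ((disjoint_image e.injective).mpr hdisj) (by rw [← image_union, hPR])
    (anti_image e P hP) (anti_image e R hR) (by rw [card_image_of_injective _ e.injective, hcard])
    (by rw [z_image d e he, hz]) (fun h => hns (spans_of_image e S h))
  refine ⟨c, hc, fun x hx => ?_⟩
  rw [← he x]
  exact hc2 (e x) (mem_image_of_mem _ hx)

/-- the linear form as an additive homomorphism -/
def phiHom (d : Option (ZMod p)) : (ZMod p × ZMod p) →+ ZMod p where
  toFun := phi d
  map_zero' := by cases d <;> simp [phi]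
  map_add' := phi_add d

theorem z_univ (d : Option (ZMod p)) : z d (univ : Finset (ZMod p × ZMod p)) = p := by
  rw [SubH.z_eq_sum]
  simp [ZMod.card]

theorem z_eq_card (d : Option (ZMod p)) (S : Finset (ZMod p × ZMod p)) :
    z d S = (S.filter fun x => phi d x = 0).card := by
  unfold z
  rw [card_filter]

theorem card_ker (d : Option (ZMod p)) : Nat.card (phiHom d).ker = p := by
  have h := z_univ d
  rw [z_eq_card] at h
  refine Eq.trans ?_ h
  exact Nat.subtype_card _ (fun x => by
    rw [mem_filter]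
    simp only [mem_univ, true_and]
    rfl)

theorem z_le (d : Option (ZMod p)) (S : Finset (ZMod p × ZMod p))
    (h0 : (0 : ZMod p × ZMod p) ∉ S) : z d S ≤ p - 1 := by
  have h := z_univ d
  rw [z_eq_card] at h ⊢
  have h1 : S.filter (fun x => phi d x = 0) ⊆
      ((univ : Finset (ZMod p × ZMod p)).filter fun x => phi d x = 0).erase 0 := by
    intro x hx
    rw [mem_filter] at hx
    rw [mem_erase, mem_filter]
    exact ⟨fun h => h0 (h ▸ hx.1), mem_univ _, hx.2⟩
  have h2 := card_le_card h1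
  rw [card_erase_of_mem (by rw [mem_filter]; exact ⟨mem_univ _, (phiHom d).map_zero⟩), h] at h2
  exact h2

/-- a subgroup of order p is the kernel of one of the forms -/
theorem exists_form (H : AddSubgroup (ZMod p × ZMod p)) (hH : Nat.card H = p) :
    ∃ d : Option (ZMod p), H = (phiHom d).ker := by
  have hp : p.Prime := Fact.out
  haveI : Finite H := Nat.finite_of_card_ne_zero (by rw [hH]; exact hp.ne_zero)
  have hnt : Nontrivial H := by
    rw [← Finite.one_lt_card_iff_nontrivial, hH]; exact hp.one_lt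
  obtain ⟨u, hu⟩ := exists_ne (0 : H)
  have hu0 : (u : ZMod p × ZMod p) ≠ 0 := fun h => hu (Subtype.ext h)
  obtain ⟨d, hd, hd2⟩ := SubH.exists_dir_of (u : ZMod p × ZMod p) hu0
  refine ⟨d, ?_⟩
  have hle : (phiHom d).ker ≤ H := by
    intro x hx
    have hx2 : phi d x = 0 := hx
    rw [hd2] at hx2
    have : ∃ k : ZMod p, x = (k * (u : ZMod p × ZMod p).1, k * (u : ZMod p × ZMod p).2) := by
      by_cases h1 : (u : ZMod p × ZMod p).1 = 0
      · have h3 : (u : ZMod p × ZMod p).2 ≠ 0 := fun h => hu0 (Prod.ext h1 h)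
        refine ⟨x.2 / (u : ZMod p × ZMod p).2, ?_⟩
        rw [h1, mul_zero] at hx2
        apply Prod.ext
        · simp only [h1, mul_zero]
          exact (mul_eq_zero.mp hx2).resolve_right h3
        · simp only; field_simp
      · refine ⟨x.1 / (u : ZMod p × ZMod p).1, ?_⟩
        apply Prod.ext
        · simp only; field_simp
        · simp only; field_simp; rw [← hx2]
    obtain ⟨k, hk⟩ := this
    have h4 : x = k.val • (u : ZMod p × ZMod p) := by
      have h5 : k.val • (u : ZMod p × ZMod p) =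
          (k.val • (u : ZMod p × ZMod p).1, k.val • (u : ZMod p × ZMod p).2) := rfl
      rw [h5, nsmul_eq_mul, nsmul_eq_mul, ZMod.natCast_zmod_val]
      exact hk
    rw [h4]
    exact H.nsmul_mem u.2 _
  exact (AddSubgroup.eq_of_le_of_card_ge hle (by rw [card_ker, hH])).symm

end

end Pool.Agent.Helper801.SubJ
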