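import Pool.Agent.Helper801.SubJ

open Finset

namespace Pool.Agent.Helper801.SubK

open SubB SubD SubE SubF SubJ

/-- the structure of the extremal sets -/
def Struct (p : ℕ) (A : Finset (ZMod p × ZMod p)) : Prop :=
  ∃ (H : AddSubgroup (ZMod p × ZMod p)) (a : ZMod p × ZMod p)
    (H₁ A₁ A₂ : Finset (ZMod p × ZMod p)),
    Nat.card H = p ∧ a ∉ H ∧ A = H₁ ∪ A₁ ∪ A₂ ∧
    (∀ x ∈ H₁, x ∈ H) ∧ (∀ x ∈ A₁, x - a ∈ H) ∧ (∀ x ∈ A₂, x + a ∈ H) ∧
    ((∀ x ∈ H, x ∈ H₁) ∨
      (p = 5 ∧ 0 ∈ H₁ ∧ H₁.card = 3 ∧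
        (∑ x ∈ A₁, x - ∑ x ∈ A₂, x = 0 ∨
          H₁ = {0, ∑ x ∈ A₁, x - ∑ x ∈ A₂, x, ∑ x ∈ A₂, x - ∑ x ∈ A₁, x})))

section
variable {p : ℕ} [Fact p.Prime]

theorem spans_mono {S A : Finset (ZMod p × ZMod p)} (h : S ⊆ A) (hS : Spans S) : Spans A := by
  intro t
  obtain ⟨B, hB, hB2⟩ := hS t
  exact ⟨B, hB.trans h, hB2⟩

theorem phi_zero (d : Option (ZMod p)) : phi d 0 = 0 := (phiHom d).map_zero

theorem exists_phi_eq (d : Option (ZMod p)) (c : ZMod p) : ∃ a, phi d a = c := by
  cases d with
  | none => exact ⟨(c, 0), rfl⟩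
  | some m => exact ⟨(0, c), by rw [phi_some]; simp⟩

/-- exotic condition -/
def Exo (S : Finset (ZMod p × ZMod p)) : Prop :=
  ∃ (d : Option (ZMod p)) (c : ZMod p), c ≠ 0 ∧ z d S = 2 ∧
    (∀ x ∈ S, phi d x = 0 ∨ phi d x = c ∨ phi d x = -c) ∧
    (SubI.tv S d c = 0 ∨ ∃ h ∈ S, -h ∈ S ∧ phi d h = 0 ∧ (SubI.tv S d c = h ∨ SubI.tv S d c = -h))

end

theorem step1 {p : ℕ} [hF : Fact p.Prime] (hp5 : 5 ≤ p) (S : Finset (ZMod p × ZMod p))
    (h0 : (0 : ZMod p × ZMod p) ∉ S) (hcard : S.card = 2 * p - 3) (hns : ¬ Spans S) :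
    (∃ d, z d S = p - 1) ∨ (p = 5 ∧ Exo S) := by
  have hp : p.Prime := Fact.out
  have hcases : p = 5 ∨ p = 7 ∨ 11 ≤ p := by
    by_contra hcon
    push Not at hcon
    obtain ⟨h1, h2, h3⟩ := hcon
    interval_cases p <;> first | exact h1 rfl | exact h2 rfl | exact absurd hp (by norm_num)
  rcases hcases with rfl | rfl | h11
  · rcases SubI.five_class S h0 hcard hns with h | h
    · left; exact h
    · right; exact ⟨rfl, h⟩
  · left
    by_contra hcon
    push Not at hcon
    apply hns
    apply SubH.spans_seven S h0 hcard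
    intro d
    have h1 := z_le d S h0
    have h2 := hcon d
    omega
  · left
    by_contra hcon
    push Not at hcon
    apply hns
    apply spans_large h11 S h0 hcard
    intro d
    have h1 := z_le d S h0
    have h2 := hcon d
    omega

theorem eight {p : ℕ} [hF : Fact p.Prime] (h5 : p = 5) (A : Finset (ZMod p × ZMod p))
    (h0 : (0 : ZMod p × ZMod p) ∉ A) (hcard : A.card = 2 * p - 2) : Spans A := by
  subst h5
  exact SubI.five_eight A h0 hcard

theorem zero_mem {p : ℕ} [hF : Fact p.Prime] (hp5 : 5 ≤ p) (A : Finset (ZMod p × ZMod p))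
    (hcard : A.card = 2 * p - 2) (hns : ¬ Spans A) : (0 : ZMod p × ZMod p) ∈ A := by
  by_contra h0
  rcases Nat.eq_or_lt_of_le hp5 with h5 | h5
  · exact hns (eight h5.symm A h0 hcard)
  · have hne : A.Nonempty := by rw [← card_pos]; omega
    obtain ⟨x, hx⟩ := hne
    have hS0 : (0 : ZMod p × ZMod p) ∉ A.erase x := fun h => h0 (mem_of_mem_erase h)
    have hSc : (A.erase x).card = 2 * p - 3 := by rw [card_erase_of_mem hx, hcard]; omega
    have hSn : ¬ Spans (A.erase x) := fun h => hns (spans_mono (erase_subset _ _) h)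
    rcases step1 hp5 _ hS0 hSc hSn with ⟨d, hd⟩ | ⟨h, _⟩
    · apply hns
      have h1 := z_le d A h0
      have h2 : z d (A.erase x) ≤ z d A := by
        rw [z_eq_card, z_eq_card]
        exact card_le_card (filter_subset_filter _ (erase_subset _ _))
      have h3 : z d A = p - 1 := by omega
      apply spans_rich (by omega) A h0 d (by omega)
      rw [h3]
      have h4 : p - 1 + 1 = p := by omega
      rw [h4]
      have : 5 * p ≤ p ^ 2 := by nlinarith
      omega
    · omega

theorem forward {p : ℕ} [hF : Fact p.Prime] (hp5 : 5 ≤ p) (A : Finset (ZMod p × ZMod p))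
    (hcard : A.card = 2 * p - 2) (hns : ¬ Spans A) : Struct p A := by
  classical
  have hp : p.Prime := Fact.out
  have h2 : p ≠ 2 := by omega
  have h0A := zero_mem hp5 A hcard hns
  set S := A.erase 0 with hS
  have h0 : (0 : ZMod p × ZMod p) ∉ S := notMem_erase _ _
  have hSc : S.card = 2 * p - 3 := by rw [hS, card_erase_of_mem h0A, hcard]; omega
  have hSn : ¬ Spans S := fun h => hns (spans_mono (erase_subset _ _) h)
  have hAS : A = insert 0 S := (insert_erase h0A).symm
  -- general construction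
  have hcons : ∀ (d : Option (ZMod p)) (c : ZMod p), c ≠ 0 →
      (∀ x ∈ S, phi d x = 0 ∨ phi d x = c ∨ phi d x = -c) →
      ((∀ x ∈ (phiHom d).ker, x ∈ A.filter (fun x => phi d x = 0)) ∨
      (p = 5 ∧ 0 ∈ A.filter (fun x => phi d x = 0) ∧ (A.filter (fun x => phi d x = 0)).card = 3 ∧
        (∑ x ∈ A.filter (fun x => phi d x = c), x - ∑ x ∈ A.filter (fun x => phi d x = -c), x = 0 ∨
          A.filter (fun x => phi d x = 0) =
            {0, ∑ x ∈ A.filter (fun x => phi d x = c), x - ∑ x ∈ A.filter (fun x => phi d x = -c), x,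
              ∑ x ∈ A.filter (fun x => phi d x = -c), x - ∑ x ∈ A.filter (fun x => phi d x = c), x})))
      → Struct p A := by
    intro d c hc hcl hrest
    obtain ⟨a, ha⟩ := exists_phi_eq d c
    refine ⟨(phiHom d).ker, a, A.filter (fun x => phi d x = 0), A.filter (fun x => phi d x = c),
      A.filter (fun x => phi d x = -c), card_ker d, ?_, ?_, ?_, ?_, ?_, hrest⟩
    · intro h
      have : phi d a = 0 := h
      rw [ha] at this; exact hc this
    · ext x
      rw [mem_union, mem_union, mem_filter, mem_filter, mem_filter]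
      constructor
      · intro hx
        rw [hAS, mem_insert] at hx
        rcases hx with rfl | hx
        · left; left; exact ⟨h0A, phi_zero d⟩
        · have hxA : x ∈ A := mem_of_mem_erase hx
          rcases hcl x hx with h | h | h
          · left; left; exact ⟨hxA, h⟩
          · left; right; exact ⟨hxA, h⟩
          · right; exact ⟨hxA, h⟩
      · rintro ((h | h) | h) <;> exact h.1
    · intro x hx
      rw [mem_filter] at hx
      exact hx.2
    · intro x hx
      rw [mem_filter] at hx
      change phi d (x - a) = 0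
      rw [phi_sub, hx.2, ha, sub_self]
    · intro x hx
      rw [mem_filter] at hx
      change phi d (x + a) = 0
      rw [phi_add, hx.2, ha, neg_add_cancel]
  have hfil0 : ∀ d : Option (ZMod p), A.filter (fun x => phi d x = 0) =
      insert 0 (S.filter (fun x => phi d x = 0)) := by
    intro d
    rw [hAS, filter_insert, if_pos (phi_zero d)]
  have hfilc : ∀ (d : Option (ZMod p)) (c : ZMod p), c ≠ 0 → A.filter (fun x => phi d x = c) =
      S.filter (fun x => phi d x = c) := by
    intro d c hc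
    rw [hAS, filter_insert, if_neg]
    rw [phi_zero]; exact hc.symm
  have hcard0 : ∀ d : Option (ZMod p), (A.filter (fun x => phi d x = 0)).card = z d S + 1 := by
    intro d
    rw [hfil0, card_insert_of_notMem, z_eq_card]
    intro h
    rw [mem_filter] at h
    exact h0 h.1
  rcases step1 hp5 S h0 hSc hSn with ⟨d, hd⟩ | ⟨h5, d, c, hc, hz, hcl, htv⟩
  · obtain ⟨c, hc, hcl⟩ := full_line hp5 S h0 d hSc hd hSn
    refine hcons d c hc hcl (Or.inl ?_)
    have h3 : A.filter (fun x => phi d x = 0) = univ.filter (fun x => phi d x = 0) := by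
      apply eq_of_subset_of_card_le (filter_subset_filter _ (subset_univ _))
      rw [hcard0, hd]
      have := z_univ d
      rw [z_eq_card] at this
      rw [this]
      omega
    intro x hx
    rw [h3, mem_filter]
    exact ⟨mem_univ _, hx⟩
  · refine hcons d c hc hcl (Or.inr ⟨h5, ?_, ?_, ?_⟩)
    · rw [mem_filter]; exact ⟨h0A, phi_zero d⟩
    · rw [hcard0, hz]
    · have hcn : c ≠ -c := by
        intro h
        have : 2 * c = 0 := by linear_combination h
        exact hc ((mul_eq_zero.mp this).resolve_left (two_ne h2))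
      have htveq : ∑ x ∈ A.filter (fun x => phi d x = c), x - ∑ x ∈ A.filter (fun x => phi d x = -c), x =
          SubI.tv S d c := by
        rw [hfilc d c hc, hfilc d (-c) (neg_ne_zero.mpr hc)]
        unfold SubI.tv
        rw [sum_filter, sum_filter, ← sum_sub_distrib]
        refine sum_congr rfl fun x _ => ?_
        by_cases h3 : phi d x = c
        · rw [if_pos h3, if_neg, if_pos h3, sub_zero]
          rw [h3]; exact hcn
        · rw [if_neg h3, if_neg h3]
          by_cases h4 : phi d x = -c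
          · rw [if_pos h4, if_pos h4, zero_sub]
          · rw [if_neg h4, if_neg h4, sub_zero]
      have htveq2 : ∑ x ∈ A.filter (fun x => phi d x = -c), x - ∑ x ∈ A.filter (fun x => phi d x = c), x =
          - SubI.tv S d c := by
        rw [← htveq, neg_sub]
      rw [htveq, htveq2]
      rcases htv with h | ⟨h, hhS, hhS', hph, hth⟩
      · left; exact h
      · right
        have hh0 : h ≠ 0 := fun h' => h0 (h' ▸ hhS)
        have hne : h ≠ -h := by
          intro h'
          have h6 : h.1 = -h.1 := congrArg Prod.fst h'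
          have h7 : h.2 = -h.2 := congrArg Prod.snd h'
          apply hh0
          apply Prod.ext
          · have : 2 * h.1 = 0 := by linear_combination h6
            exact (mul_eq_zero.mp this).resolve_left (two_ne h2)
          · have : 2 * h.2 = 0 := by linear_combination h7
            exact (mul_eq_zero.mp this).resolve_left (two_ne h2)
        have hset : ({0, h, -h} : Finset (ZMod p × ZMod p)) = A.filter (fun x => phi d x = 0) := by
          apply eq_of_subset_of_card_le
          · intro x hx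
            rw [mem_insert, mem_insert, mem_singleton] at hx
            rw [mem_filter]
            rcases hx with rfl | rfl | rfl
            · exact ⟨h0A, phi_zero d⟩
            · exact ⟨mem_of_mem_erase hhS, hph⟩
            · exact ⟨mem_of_mem_erase hhS', by rw [phi_neg, hph, neg_zero]⟩
          · rw [hcard0, hz, card_insert_of_notMem, card_pair hne]
            rw [mem_insert, mem_singleton, not_or]
            exact ⟨hh0.symm, fun h' => hh0 (by rw [zero_eq_neg] at h'; exact h')⟩
        rcases hth with h8 | h8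
        · rw [h8, ← hset]
        · rw [h8, neg_neg, ← hset]
          ext x
          simp only [mem_insert, mem_singleton]
          tauto

section
variable {p : ℕ} [Fact p.Prime]

theorem phi_sum_const (d : Option (ZMod p)) (X : Finset (ZMod p × ZMod p)) (v : ZMod p)
    (h : ∀ x ∈ X, phi d x = v) : phi d (∑ x ∈ X, x) = ((X.card : ℕ) : ZMod p) * v := by
  have h1 : phi d (∑ x ∈ X, x) = ∑ x ∈ X, phi d x := map_sum (phiHom d) (fun x => x) X
  rw [h1, sum_congr rfl h, sum_const, nsmul_eq_mul]

theorem filter_mem_zero {A B : Finset (ZMod p × ZMod p)} (h : (A.filter (· ∈ B)).card = 0) :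
    ∑ x ∈ A.filter (· ∈ B), x = 0 := by
  rw [card_eq_zero.mp h, sum_empty]

theorem filter_mem_all {A B : Finset (ZMod p × ZMod p)} (h : (A.filter (· ∈ B)).card = A.card) :
    ∑ x ∈ A.filter (· ∈ B), x = ∑ x ∈ A, x := by
  rw [eq_of_subset_of_card_le (filter_subset _ _) h.ge]

theorem backward (hp5 : 5 ≤ p) (A : Finset (ZMod p × ZMod p))
    (hcard : A.card = 2 * p - 2) (h : Struct p A) : ¬ Spans A := by
  classical
  have hp : p.Prime := Fact.out
  have h2 : p ≠ 2 := by omega
  obtain ⟨H, a, H₁, A₁, A₂, hH, ha, hA, hH1, hA1, hA2, hrest⟩ := h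
  obtain ⟨d, rfl⟩ := exists_form H hH
  set c := phi d a with hc
  have hc0 : c ≠ 0 := fun h => ha h
  have hcn : c ≠ -c := by
    intro h
    have : 2 * c = 0 := by linear_combination h
    exact hc0 ((mul_eq_zero.mp this).resolve_left (two_ne h2))
  have v0 : ∀ x ∈ H₁, phi d x = 0 := hH1
  have v1 : ∀ x ∈ A₁, phi d x = c := by
    intro x hx
    have h3 : phi d (x - a) = 0 := hA1 x hx
    rw [phi_sub, sub_eq_zero] at h3
    exact h3
  have v2 : ∀ x ∈ A₂, phi d x = -c := by
    intro x hx
    have h3 : phi d (x + a) = 0 := hA2 x hx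
    rw [phi_add] at h3
    exact eq_neg_of_add_eq_zero_left h3
  have d01 : Disjoint H₁ A₁ := by
    rw [disjoint_left]; intro x hx hx'
    exact hc0 ((v1 x hx').symm.trans (v0 x hx))
  have d02 : Disjoint (H₁ ∪ A₁) A₂ := by
    rw [disjoint_left]; intro x hx hx'
    rw [mem_union] at hx
    rcases hx with hx | hx
    · exact hc0 (neg_eq_zero.mp ((v2 x hx').symm.trans (v0 x hx)))
    · exact hcn ((v1 x hx).symm.trans (v2 x hx'))
  have hcards : H₁.card + A₁.card + A₂.card = 2 * p - 2 := by
    rw [← hcard, hA, card_union_of_disjoint d02, card_union_of_disjoint d01]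
  -- sums over subsets
  have hsplit : ∀ B ⊆ A, ∑ x ∈ B, x = ∑ x ∈ H₁.filter (· ∈ B), x + ∑ x ∈ A₁.filter (· ∈ B), x +
      ∑ x ∈ A₂.filter (· ∈ B), x := by
    intro B hB
    have h3 : B = (H₁.filter (· ∈ B) ∪ A₁.filter (· ∈ B)) ∪ A₂.filter (· ∈ B) := by
      rw [← filter_union, ← filter_union, ← hA]
      ext x
      rw [mem_filter]
      exact ⟨fun h => ⟨hB h, h⟩, fun h => h.2⟩
    conv_lhs => rw [h3]
    rw [sum_union, sum_union]
    · exact disjoint_filter_filter d01
    · rw [← filter_union]; exact disjoint_filter_filter d02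
  have hphi : ∀ B ⊆ A, phi d (∑ x ∈ B, x) = (((A₁.filter (· ∈ B)).card : ℕ) : ZMod p) * c -
      (((A₂.filter (· ∈ B)).card : ℕ) : ZMod p) * c := by
    intro B hB
    rw [hsplit B hB, phi_add, phi_add]
    have e0 := phi_sum_const d (H₁.filter (· ∈ B)) 0 (fun x hx => v0 x (mem_filter.mp hx).1)
    have e1 := phi_sum_const d (A₁.filter (· ∈ B)) c (fun x hx => v1 x (mem_filter.mp hx).1)
    have e2 := phi_sum_const d (A₂.filter (· ∈ B)) (-c) (fun x hx => v2 x (mem_filter.mp hx).1)
    rw [e0, e1, e2]; ring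
  intro hsp
  rcases hrest with hfull | ⟨h5, h0H, h3, hτ⟩
  · -- full line
    have hHc : H₁.card = p := by
      have h4 : H₁ = univ.filter (fun x => phi d x = 0) := by
        ext x
        rw [mem_filter]
        exact ⟨fun hx => ⟨mem_univ _, v0 x hx⟩, fun hx => hfull x hx.2⟩
      have := z_univ d
      rw [z_eq_card] at this
      rw [h4]; exact this
    obtain ⟨B, hB, hB2⟩ := hsp ((A₁.card + 1) • a)
    have h6 := hphi B hB
    have h7 : phi d ((A₁.card + 1) • a) = ((A₁.card + 1 : ℕ) : ZMod p) * c := by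
      have := map_nsmul (phiHom d) (A₁.card + 1) a
      refine this.trans ?_
      rw [nsmul_eq_mul]; rfl
    rw [hB2, h7, ← sub_mul] at h6
    have h8 := mul_right_cancel₀ hc0 h6
    have hb1 : (A₁.filter (· ∈ B)).card ≤ A₁.card := card_le_card (filter_subset _ _)
    have hb2 : (A₂.filter (· ∈ B)).card ≤ A₂.card := card_le_card (filter_subset _ _)
    set b1 := (A₁.filter (· ∈ B)).card with hb1d
    set b2 := (A₂.filter (· ∈ B)).card with hb2d
    have h9 : ((A₁.card + 1 + b2 - b1 : ℕ) : ZMod p) = 0 := by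
      rw [Nat.cast_sub (by omega), Nat.cast_add, h8]; ring
    rw [ZMod.natCast_eq_zero_iff] at h9
    have h10 := Nat.le_of_dvd (by omega) h9
    omega
  · -- exotic
    set τ := ∑ x ∈ A₁, x - ∑ x ∈ A₂, x with hτd
    have hne : ∃ h₁ h₂, h₁ ≠ h₂ ∧ h₁ ≠ 0 ∧ h₂ ≠ 0 ∧ H₁ = {0, h₁, h₂} ∧ ∃ W : Finset (ZMod p × ZMod p),
        W.card ≤ 4 ∧ ∀ s : ZMod p × ZMod p, (s = 0 ∨ s = h₁ ∨ s = h₂ ∨ s = h₁ + h₂) →
          s ∈ W ∧ s + τ ∈ W := by
      rcases hτ with h6 | h6
      · have h7 : (H₁.erase 0).card = 2 := by rw [card_erase_of_mem h0H, h3]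
        rw [card_eq_two] at h7
        obtain ⟨h₁, h₂, hne, heq⟩ := h7
        have m1 : h₁ ∈ H₁.erase 0 := by rw [heq]; exact mem_insert_self _ _
        have m2 : h₂ ∈ H₁.erase 0 := by rw [heq]; exact mem_insert_of_mem (mem_singleton_self _)
        refine ⟨h₁, h₂, hne, ne_of_mem_erase m1, ne_of_mem_erase m2, ?_, {0, h₁, h₂, h₁ + h₂}, ?_, ?_⟩
        · rw [← heq, insert_erase h0H]
        · exact card_le_four
        · intro s hs
          rw [h6, add_zero]
          simp only [mem_insert, mem_singleton]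
          exact ⟨hs, hs⟩
      · have hτ2 : ∑ x ∈ A₂, x - ∑ x ∈ A₁, x = -τ := by rw [hτd, neg_sub]
        rw [hτ2] at h6
        have hτ0 : τ ≠ 0 := by
          intro h
          rw [h, neg_zero] at h6
          rw [h6] at h3
          simp at h3
        have hττ : τ ≠ -τ := by
          intro h
          rw [← h] at h6
          rw [h6] at h3
          have : ({0, τ, τ} : Finset (ZMod p × ZMod p)).card ≤ 2 := by
            simp only [mem_singleton, insert_eq_of_mem]
            exact card_le_two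
          omega
        refine ⟨τ, -τ, hττ, hτ0, neg_ne_zero.mpr hτ0, h6, {0, τ, -τ, τ + τ}, card_le_four, ?_⟩
        intro s hs
        simp only [mem_insert, mem_singleton]
        rcases hs with rfl | rfl | rfl | rfl
        · simp
        · simp
        · simp
        · simp
    obtain ⟨h₁, h₂, hne12, hn1, hn2, hHeq, W, hW, hWm⟩ := hne
    -- choose a missing element of the line
    have hex : ∃ h ∈ (univ : Finset (ZMod p × ZMod p)).filter (fun x => phi d x = 0), h ∉ W := by
      apply exists_mem_notMem_of_card_lt_card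
      have := z_univ d
      rw [z_eq_card] at this
      rw [this]; omega
    obtain ⟨h, hh, hhW⟩ := hex
    rw [mem_filter] at hh
    obtain ⟨B, hB, hB2⟩ := hsp (∑ x ∈ A₂, x + h)
    have h6 := hphi B hB
    have e2 : phi d (∑ x ∈ A₂, x) = - (((A₂.card : ℕ) : ZMod p) * c) := by
      rw [phi_sum_const d A₂ (-c) v2]; ring
    rw [hB2, phi_add, hh.2, add_zero, e2, ← neg_mul, ← sub_mul] at h6
    have h8 := mul_right_cancel₀ hc0 h6
    have hb1 : (A₁.filter (· ∈ B)).card ≤ A₁.card := card_le_card (filter_subset _ _)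
    have hb2 : (A₂.filter (· ∈ B)).card ≤ A₂.card := card_le_card (filter_subset _ _)
    have hsB := hsplit B hB
    -- the part in the line
    have hline : ∑ x ∈ H₁.filter (· ∈ B), x = 0 ∨ ∑ x ∈ H₁.filter (· ∈ B), x = h₁ ∨
        ∑ x ∈ H₁.filter (· ∈ B), x = h₂ ∨ ∑ x ∈ H₁.filter (· ∈ B), x = h₁ + h₂ := by
      rw [sum_filter, hHeq, sum_insert, sum_pair hne12]
      · by_cases q1 : h₁ ∈ B <;> by_cases q2 : h₂ ∈ B <;> simp [q1, q2]
      · rw [mem_insert, mem_singleton, not_or]
        exact ⟨hn1.symm, hn2.symm⟩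
    obtain ⟨hW1, hW2⟩ := hWm _ hline
    generalize hq0 : ∑ x ∈ H₁.filter (· ∈ B), x = s0 at *
    have h9 : (((A₁.filter (· ∈ B)).card + (A₂.card - (A₂.filter (· ∈ B)).card) : ℕ) : ZMod p) = 0 := by
      rw [Nat.cast_add, Nat.cast_sub hb2]
      linear_combination -h8
    rw [ZMod.natCast_eq_zero_iff] at h9
    have hA12 : A₁.card + A₂.card = 5 := by omega
    have hcases : ((A₁.filter (· ∈ B)).card = 0 ∧ (A₂.filter (· ∈ B)).card = A₂.card) ∨
        ((A₁.filter (· ∈ B)).card = A₁.card ∧ (A₂.filter (· ∈ B)).card = 0) := by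
      obtain ⟨q, hq⟩ := h9
      have hq2 : q = 0 ∨ q = 1 := by
        rcases Nat.lt_or_ge q 2 with h | h
        · omega
        · exfalso
          have : p * 2 ≤ p * q := Nat.mul_le_mul_left _ h
          omega
      rcases hq2 with rfl | rfl
      · left; omega
      · right; omega
    rcases hcases with ⟨q1, q2⟩ | ⟨q1, q2⟩
    · rw [filter_mem_zero q1, filter_mem_all q2, hB2, add_zero] at hsB
      apply hhW
      have : h = s0 := by
        have h12 : h = (∑ x ∈ A₂, x + h) - ∑ x ∈ A₂, x := by abel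
        rw [h12, hsB]; abel
      rw [this]; exact hW1
    · rw [filter_mem_all q1, filter_mem_zero q2, hB2, add_zero] at hsB
      apply hhW
      have : h = s0 + τ := by
        have h12 : h = (∑ x ∈ A₂, x + h) - ∑ x ∈ A₂, x := by abel
        rw [h12, hsB, hτd]; abel
      rw [this]; exact hW2

end

theorem main : ∀ p : ℕ, p.Prime → 5 ≤ p → ∀ A : Finset (ZMod p × ZMod p), A.card = 2 * p - 2 →
    (¬ (∀ g : ZMod p × ZMod p, ∃ B ⊆ A, ∑ x ∈ B, x = g) ↔ Struct p A) := by
  intro p hp hp5 A hA
  haveI : Fact p.Prime := ⟨hp⟩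
  exact ⟨fun h => forward hp5 A hA h, fun h => backward hp5 A hA h⟩

end Pool.Agent.Helper801.SubK
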