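import Mathlib
set_option autoImplicit false
namespace Pool.Agent.Helper801.TF
open Finset

section basics
variable {A B : Type*} [AddCommGroup A] [Fintype A] [Fintype B] [DecidableEq A]

/-- an injection from `B` to `A ∖ 0` is onto if `|A| = |B|+1`. -/
theorem image_nz (hcard : Fintype.card A = Fintype.card B + 1) (h : B → A)
    (hinj : Function.Injective h) (h0 : ∀ b, h b ≠ 0) :
    (Finset.univ : Finset B).image h = Finset.univ.erase 0 := by
  apply Finset.eq_of_subset_of_card_le
  · intro x hx
    simp only [Finset.mem_image, Finset.mem_univ, true_and] at hx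
    obtain ⟨b, rfl⟩ := hx
    simp [h0 b]
  · rw [Finset.card_image_of_injective _ hinj, Finset.card_erase_of_mem (Finset.mem_univ _),
      Finset.card_univ, Finset.card_univ, hcard]
    simp

theorem surj_nz (hcard : Fintype.card A = Fintype.card B + 1) (h : B → A)
    (hinj : Function.Injective h) (h0 : ∀ b, h b ≠ 0) (a : A) (ha : a ≠ 0) : ∃ b, h b = a := by
  have : a ∈ (Finset.univ : Finset B).image h := by
    rw [image_nz hcard h hinj h0]; simp [ha]
  simpa using this

theorem sum_nz {M : Type*} [AddCommGroup M] (hcard : Fintype.card A = Fintype.card B + 1)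
    (h : B → A) (hinj : Function.Injective h) (h0 : ∀ b, h b ≠ 0) (F : A → M) :
    ∑ b, F (h b) = (∑ a, F a) - F 0 := by
  rw [← Finset.sum_erase_eq_sub (Finset.mem_univ (0 : A)), ← image_nz hcard h hinj h0,
    Finset.sum_image (fun x _ y _ hxy => hinj hxy)]

end basics

section exponent
variable {A B : Type} [AddCommGroup A] [AddCommGroup B] [Fintype A] [Fintype B]
  [DecidableEq A] [DecidableEq B]

/-- basis element of the group algebra -/
noncomputable def ee (p : ℕ) (g : A × B) : AddMonoidAlgebra (ZMod p) (A × B) :=
  AddMonoidAlgebra.single g 1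

theorem ee_add (p : ℕ) (g h : A × B) : ee p (g + h) = ee p g * ee p h := by
  simp [ee, AddMonoidAlgebra.single_mul_single]

theorem ee_zero (p : ℕ) : ee p (0 : A × B) = 1 := rfl

theorem ee_nsmul (p k : ℕ) (g : A × B) : ee p (k • g) = ee p g ^ k := by
  induction k with
  | zero => simp [ee_zero]
  | succ k ih => rw [succ_nsmul, ee_add, ih, pow_succ]

theorem coeff_sum_ee {ι : Type*} [Fintype ι] (p : ℕ) (h : ι → A × B) (g : A × B) :
    (∑ i, ee p (h i)).coeff g = ((Finset.univ.filter fun i => h i = g).card : ZMod p) := by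
  simp only [AddMonoidAlgebra.coeff_sum, ee, AddMonoidAlgebra.coeff_single]
  rw [Finsupp.finset_sum_apply]
  simp only [Finsupp.single_apply]
  rw [Finset.sum_boole]

theorem exponent (f : B → A) (hcard : Fintype.card A = Fintype.card B + 1)
    (hinj : Function.Injective f) (h0 : ∀ b, f b ≠ 0)
    (hd : ∀ c : B, c ≠ 0 → Function.Injective (fun b => f (b + c) - f b))
    (p : ℕ) [hp : Fact p.Prime] (hpn : p ∣ Fintype.card A) (a : A) : p • a = 0 := by
  classical
  -- the group ring
  let R := AddMonoidAlgebra (ZMod p) (A × B)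
  haveI : CharP R p := charP_of_injective_algebraMap (FaithfulSMul.algebraMap_injective (ZMod p) R) p
  set GG : R := ∑ g : A × B, ee p g with hGG
  set AA : R := ∑ a : A, ee p ((a, 0) : A × B) with hAA
  set BB : R := ∑ b : B, ee p ((0, b) : A × B) with hBB
  set D : R := ∑ b : B, ee p ((f b, b) : A × B) with hD
  set D' : R := ∑ b : B, ee p ((- f b, - b) : A × B) with hD'
  have hn0 : ((Fintype.card A : ℕ) : R) = 0 := by
    rw [CharP.cast_eq_zero_iff R p]; exact hpn
  have hB1 : ((Fintype.card B : ℕ) : R) = -1 := by
    have := hn0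
    rw [hcard] at this
    push_cast at this
    linear_combination this
  have split : ∀ (a : A) (b : B), ee p ((a, b) : A × B) = ee p (a, 0) * ee p (0, b) := by
    intro a b; rw [← ee_add]; simp
  have hAB : AA * BB = GG := by
    rw [hAA, hBB, hGG, Finset.sum_mul_sum, Fintype.sum_prod_type]
    refine Finset.sum_congr rfl fun a _ => Finset.sum_congr rfl fun b _ => (split a b).symm
  have hgG : ∀ g : A × B, ee p g * GG = GG := by
    intro g
    rw [hGG, Finset.mul_sum]
    refine Fintype.sum_equiv (Equiv.addLeft g) _ _ fun x => ?_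
    simp [ee_add]
  have haA : ∀ a : A, ee p ((a, 0) : A × B) * AA = AA := by
    intro a
    rw [hAA, Finset.mul_sum]
    refine Fintype.sum_equiv (Equiv.addLeft a) _ _ fun x => ?_
    rw [← ee_add]; simp
  have hbB : ∀ b : B, ee p ((0, b) : A × B) * BB = BB := by
    intro b
    rw [hBB, Finset.mul_sum]
    refine Fintype.sum_equiv (Equiv.addLeft b) _ _ fun x => ?_
    rw [← ee_add]; simp
  have hDG : D * GG = - GG := by
    rw [hD, Finset.sum_mul, Finset.sum_congr rfl (fun b _ => hgG _)]
    rw [Finset.sum_const, Finset.card_univ, nsmul_eq_mul, hB1]; ring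
  have hDA : D * AA = GG := by
    rw [hD, Finset.sum_mul, ← hAB]
    have : ∀ b ∈ (Finset.univ : Finset B), ee p ((f b, b) : A × B) * AA
        = ee p ((0, b) : A × B) * AA := by
      intro b _
      rw [split, mul_comm (ee p (f b, 0)), mul_assoc, haA]
    rw [Finset.sum_congr rfl this, ← Finset.sum_mul, mul_comm]
  have hDB : D * BB = GG - BB := by
    rw [hD, Finset.sum_mul]
    have : ∀ b ∈ (Finset.univ : Finset B), ee p ((f b, b) : A × B) * BB
        = ee p ((f b, 0) : A × B) * BB := by
      intro b _
      rw [split, mul_assoc, hbB]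
    rw [Finset.sum_congr rfl this, ← Finset.sum_mul,
      sum_nz hcard f hinj h0 (fun a => ee p ((a, 0) : A × B)), sub_mul, ← hAA, hAB]
    congr 1
    change ee p (0 : A × B) * BB = BB
    rw [ee_zero, one_mul]
  have hDD : D * D' = GG - AA - BB := by
    have e1 : D * D' = ∑ c : B, ∑ b : B, ee p ((f (b + c) - f b, c) : A × B) := by
      rw [hD, hD', Finset.sum_mul_sum, Finset.sum_comm, Finset.sum_comm (γ := B)]
      rw [Finset.sum_comm]
      rw [Finset.sum_comm (f := fun c b => ee p ((f (b + c) - f b, c) : A × B))]
      refine Finset.sum_congr rfl fun b _ => ?_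
      refine (Fintype.sum_equiv (Equiv.addLeft b) _ _ fun x => ?_).symm
      rw [← ee_add]
      congr 1
      ext
      · simp [sub_eq_add_neg]
      · simp
    have e2 : ∀ c ∈ (Finset.univ : Finset B), ∑ b : B, ee p ((f (b + c) - f b, c) : A × B)
        = (∑ a : A, ee p ((a, c) : A × B)) - ee p ((0, c) : A × B)
          + (if c = 0 then (Fintype.card B : R) - (AA - 1) else 0) := by
      intro c _
      by_cases hc : c = 0
      · subst hc
        simp only [add_zero, sub_self, if_true]
        rw [← hAA]
        change ∑ b : B, ee p (0 : A × B) = AA - ee p (0 : A × B) + _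
        rw [ee_zero]
        simp
      · rw [if_neg hc, add_zero]
        refine sum_nz hcard (fun b => f (b + c) - f b) (hd c hc) ?_
          (fun a => ee p ((a, c) : A × B))
        intro b hb
        apply hc
        have := hinj (sub_eq_zero.mp hb)
        simpa using this
    rw [e1, Finset.sum_congr rfl e2, Finset.sum_add_distrib, Finset.sum_sub_distrib,
      Finset.sum_ite_eq' Finset.univ (0 : B)]
    simp only [Finset.mem_univ, if_true]
    rw [hB1, Finset.sum_comm, ← Fintype.sum_prod_type, ← hGG, ← hBB]
    ring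
  have hrec : ∀ j : ℕ, D ^ (j + 1) * (GG - AA - BB)
      = (-1) ^ j * BB - (-1) ^ j * ((j : R) + 3) * GG := by
    intro j
    induction j with
    | zero =>
      simp only [zero_add, pow_one, pow_zero, Nat.cast_zero]
      rw [mul_sub, mul_sub, hDG, hDA, hDB]; ring
    | succ j ih =>
      rw [pow_succ', mul_assoc, ih]
      have : D * ((-1) ^ j * BB - (-1) ^ j * ((j : R) + 3) * GG)
          = (-1) ^ j * (D * BB) - (-1) ^ j * ((j : R) + 3) * (D * GG) := by ring
      rw [this, hDG, hDB]
      push_cast
      ring
  have hp2 : 2 ≤ p := hp.out.two_le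
  have hpc : ((p : ℕ) : R) = 0 := CharP.cast_eq_zero R p
  have hneg : ((-1 : R)) ^ p = -1 := by
    rcases hp.out.eq_two_or_odd' with h2 | h2
    · subst h2
      have : (2 : R) = 0 := by exact_mod_cast hpc
      rw [show ((-1 : R)) ^ 2 = 1 by ring]
      linear_combination this
    · exact h2.neg_one_pow
  have hDp1 : D ^ p * D' = GG - BB := by
    obtain ⟨j, hj⟩ : ∃ j, p = j + 2 := ⟨p - 2, by omega⟩
    have e0 : D ^ p = D ^ (j + 2) := congrArg (fun k => D ^ k) hj
    have e1 : D ^ p * D' = D ^ (j + 1) * (D * D') := by
      rw [e0]; ring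
    have hjc : (j : R) + 2 = 0 := by
      have h : ((j + 2 : ℕ) : R) = 0 := by rw [← hj]; exact hpc
      push_cast at h; exact h
    have hj1 : ((-1 : R)) ^ j = -1 := by
      have h : ((-1 : R)) ^ (j + 2) = -1 := by rw [← hj]; exact hneg
      rw [pow_add] at h
      simpa using h
    rw [e1, hDD, hrec j, hj1]
    linear_combination (GG) * hjc
  have hDp2 : D ^ p = ∑ b : B, ee p ((p • f b, p • b) : A × B) := by
    rw [hD, sum_pow_char]
    refine Finset.sum_congr rfl fun b _ => ?_
    rw [← ee_nsmul]; rfl
  -- counting function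
  let N : A × B → ℕ := fun g =>
    (Finset.univ.filter fun q : B × B => ((p • f q.1 - f q.2, p • q.1 - q.2) : A × B) = g).card
  have hcoef : ∀ g : A × B, (N g : ZMod p) = 1 - (if g.1 = 0 then 1 else 0) := by
    intro g
    have e3 : D ^ p * D' = ∑ q : B × B, ee p ((p • f q.1 - f q.2, p • q.1 - q.2) : A × B) := by
      rw [hDp2, hD', Finset.sum_mul_sum, Fintype.sum_prod_type]
      refine Finset.sum_congr rfl fun b _ => Finset.sum_congr rfl fun b' _ => ?_
      rw [← ee_add]
      congr 1
      ext <;> simp [sub_eq_add_neg]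
    have e4 : (∑ q : B × B, ee p ((p • f q.1 - f q.2, p • q.1 - q.2) : A × B)).coeff g
        = (N g : ZMod p) := coeff_sum_ee p _ g
    rw [← e4, ← e3, hDp1]
    have e5 : (GG - BB).coeff g = GG.coeff g - BB.coeff g :=
      congrFun (congrArg DFunLike.coe (AddMonoidAlgebra.coeff_sub GG BB)) g
    have e6 : GG.coeff g = ((Finset.univ.filter fun i : A × B => i = g).card : ZMod p) :=
      coeff_sum_ee p (fun i => i) g
    have e7 : BB.coeff g = ((Finset.univ.filter fun b : B => ((0, b) : A × B) = g).card : ZMod p) :=
      coeff_sum_ee p (fun b => ((0, b) : A × B)) g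
    rw [e5, e6, e7]
    rw [Finset.filter_eq' Finset.univ g, if_pos (Finset.mem_univ _), Finset.card_singleton]
    by_cases hg : g.1 = 0
    · rw [if_pos hg]
      have : (Finset.univ.filter fun b : B => ((0, b) : A × B) = g) = {g.2} := by
        ext b
        simp only [Finset.mem_filter, Finset.mem_univ, true_and, Finset.mem_singleton]
        constructor
        · intro h; rw [← h]
        · intro h; ext
          · exact hg.symm
          · exact h
      rw [this]
      simp
    · rw [if_neg hg]
      have : (Finset.univ.filter fun b : B => ((0, b) : A × B) = g) = ∅ := by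
        rw [Finset.filter_eq_empty_iff]
        intro b _ h
        apply hg
        rw [← h]
      rw [this]
      simp
  have hsum : ∑ g : A × B, N g = Fintype.card B * Fintype.card B := by
    rw [← Fintype.card_prod, ← Finset.card_univ]
    exact (Finset.card_eq_sum_card_fiberwise (fun x _ => Finset.mem_univ _)).symm
  have hsum2 : ∑ g : A × B, (if g.1 = 0 then 0 else 1) = Fintype.card B * Fintype.card B := by
    rw [Fintype.sum_prod_type]
    have h1 : ∀ x ∈ (Finset.univ : Finset A), (∑ y : B, if ((x, y) : A × B).1 = 0 then 0 else 1)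
        = Fintype.card B * (if x = 0 then 0 else 1) := by
      intro x _
      by_cases hx : x = 0 <;> simp [hx]
    rw [Finset.sum_congr rfl h1, ← Finset.mul_sum]
    congr 1
    have : ∑ i : A, (if i = 0 then 0 else 1) = (Finset.univ.erase (0 : A)).card := by
      rw [Finset.card_eq_sum_ones, ← Finset.sum_erase_add _ _ (Finset.mem_univ (0 : A))]
      simp only [if_true, add_zero]
      refine Finset.sum_congr rfl fun x hx => ?_
      rw [if_neg (Finset.ne_of_mem_erase hx)]
    rw [this, Finset.card_erase_of_mem (Finset.mem_univ _), Finset.card_univ, hcard]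
    simp
  have hle : ∀ g : A × B, (if g.1 = 0 then 0 else 1) ≤ N g := by
    intro g
    split_ifs with hg
    · exact Nat.zero_le _
    · by_contra hcon
      have hN0 : N g = 0 := by omega
      have := hcoef g
      rw [hN0, if_neg hg] at this
      simp at this
  have hNz : ∀ g : A × B, g.1 = 0 → N g = 0 := by
    intro g hg
    have heq := (Finset.sum_eq_sum_iff_of_le (fun g _ => hle g)).mp (by rw [hsum, hsum2])
    have := heq g (Finset.mem_univ _)
    rw [if_pos hg] at this
    exact this.symm
  have hne : ∀ b b' : B, p • f b ≠ f b' := by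
    intro b b' hbb
    have h1 := hNz (p • f b - f b', p • b - b') (by simp [hbb])
    simp only [N, Finset.card_eq_zero, Finset.filter_eq_empty_iff] at h1
    exact h1 (Finset.mem_univ (b, b')) rfl
  by_cases ha : a = 0
  · simp [ha]
  · obtain ⟨b, rfl⟩ := surj_nz hcard f hinj h0 a ha
    by_contra hcon
    obtain ⟨b', hb'⟩ := surj_nz hcard f hinj h0 _ hcon
    exact hne b b' hb'.symm

end exponent
end Pool.Agent.Helper801.TF
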