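import Pool.Agent.Helper801.TFA
set_option autoImplicit false
namespace Pool.Agent.Helper801.TF
open Finset

/-- A place of `ℂ` above the prime `p`. -/
structure Place (p : ℕ) where
  O : Subring ℂ
  k : Type
  [fld : Field k]
  rd : ℂ → k
  rd_add : ∀ x y, x ∈ O → y ∈ O → rd (x + y) = rd x + rd y
  rd_mul : ∀ x y, x ∈ O → y ∈ O → rd (x * y) = rd x * rd y
  rd_one : rd 1 = 1
  root : ∀ (x : ℂ) (m : ℕ), 0 < m → x ^ m = 1 → x ∈ O
  char : (p : k) = 0
  inv : ∀ x, x ∈ O → rd x ≠ 0 → x⁻¹ ∈ O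

attribute [instance] Place.fld

theorem exists_place (p : ℕ) (hp : p.Prime) : Nonempty (Place p) := by
  classical
  let A : Subring ℂ := ⊥
  let pA : A := ⟨(p : ℂ), natCast_mem A p⟩
  have hI : Ideal.span {pA} ≠ ⊤ := by
    intro h
    rw [Ideal.eq_top_iff_one, Ideal.mem_span_singleton'] at h
    obtain ⟨⟨c, hc⟩, hcp⟩ := h
    obtain ⟨m, rfl⟩ := Subring.mem_bot.mp hc
    have h1 := congrArg Subtype.val hcp
    simp only [pA, Subring.coe_mul, Subring.coe_one] at h1
    have h2 : m * (p : ℤ) = 1 := by exact_mod_cast h1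
    have h3 : (p : ℤ) ∣ 1 := ⟨m, by rw [← h2]; ring⟩
    have h4 : p ∣ 1 := by exact_mod_cast h3
    exact hp.one_lt.ne' (Nat.dvd_one.mp h4)
  obtain ⟨V, hAV, hIV⟩ := Ideal.image_subset_nonunits_valuationSubring _ hI
  have hpV : (p : ℂ) ∈ V.nonunits := hIV ⟨pA, Ideal.mem_span_singleton_self _, rfl⟩
  refine ⟨{
    O := V.toSubring
    k := IsLocalRing.ResidueField V
    rd := fun x => if h : x ∈ V then IsLocalRing.residue V ⟨x, h⟩ else 0
    rd_add := ?_
    rd_mul := ?_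
    rd_one := ?_
    root := ?_
    char := ?_
    inv := ?_ }⟩
  · intro x y hx hy
    have hx' : x ∈ V := hx
    have hy' : y ∈ V := hy
    rw [dif_pos hx', dif_pos hy', dif_pos (V.add_mem _ _ hx' hy'), ← map_add]
    rfl
  · intro x y hx hy
    have hx' : x ∈ V := hx
    have hy' : y ∈ V := hy
    rw [dif_pos hx', dif_pos hy', dif_pos (V.mul_mem _ _ hx' hy'), ← map_mul]
    rfl
  · rw [dif_pos V.one_mem]
    exact map_one _
  · intro x m hm hx
    rcases V.mem_or_inv_mem x with h | h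
    · exact h
    · have hx0 : x ≠ 0 := by
        rintro rfl
        rw [zero_pow hm.ne'] at hx
        exact zero_ne_one hx
      have : x = (x⁻¹) ^ (m - 1) := by
        have h1 : x ^ (m - 1) * x = 1 := by
          rw [← pow_succ, Nat.sub_add_cancel hm]; exact hx
        rw [inv_pow]
        field_simp
        rw [mul_comm]; exact h1
      rw [this]
      have h' : x⁻¹ ∈ V.toSubring := h
      exact pow_mem h' _
  · have hpm : (p : V) ∈ IsLocalRing.maximalIdeal V := by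
      have hpV' : (p : ℂ) ∈ (V.nonunits : Set ℂ) := hpV
      rw [← V.image_maximalIdeal] at hpV'
      obtain ⟨y, hy, hyp⟩ := hpV'
      have : y = (p : V) := by
        apply Subtype.ext
        rw [hyp]
        simp
      rw [← this]; exact hy
    have : IsLocalRing.residue V (p : V) = 0 := by
      rw [IsLocalRing.residue_eq_zero_iff]; exact hpm
    rw [map_natCast] at this
    exact this
  · intro x hx hrx
    have hx' : x ∈ V := hx
    rw [dif_pos hx'] at hrx
    have : IsUnit (⟨x, hx'⟩ : V) := by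
      by_contra hnu
      apply hrx
      rw [IsLocalRing.residue_eq_zero_iff]
      exact (IsLocalRing.mem_maximalIdeal _).mpr hnu
    obtain ⟨y, hy⟩ := isUnit_iff_exists_inv.mp this
    have hxy : x * (y : ℂ) = 1 := congrArg Subtype.val hy
    have : x⁻¹ = (y : ℂ) := by
      rw [eq_comm]; exact eq_inv_of_mul_eq_one_right hxy
    rw [this]
    exact y.2

namespace Place
variable {p : ℕ} (P : Place p)

theorem rd_zero : P.rd 0 = 0 := by
  have := P.rd_add 0 0 P.O.zero_mem P.O.zero_mem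
  simpa using this

theorem rd_neg {x : ℂ} (hx : x ∈ P.O) : P.rd (-x) = - P.rd x := by
  have := P.rd_add x (-x) hx (P.O.neg_mem hx)
  rw [add_neg_cancel, rd_zero] at this
  exact (neg_eq_of_add_eq_zero_right this.symm).symm

theorem rd_sub {x y : ℂ} (hx : x ∈ P.O) (hy : y ∈ P.O) : P.rd (x - y) = P.rd x - P.rd y := by
  rw [sub_eq_add_neg, P.rd_add x (-y) hx (P.O.neg_mem hy), P.rd_neg hy, sub_eq_add_neg]

theorem rd_sum {ι : Type*} (s : Finset ι) (f : ι → ℂ) (hf : ∀ i ∈ s, f i ∈ P.O) :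
    P.rd (∑ i ∈ s, f i) = ∑ i ∈ s, P.rd (f i) := by
  classical
  induction s using Finset.induction_on with
  | empty => simp [rd_zero]
  | insert a s has ih =>
    rw [Finset.sum_insert has, Finset.sum_insert has,
      P.rd_add _ _ (hf a (Finset.mem_insert_self _ _))
        (sum_mem fun i hi => hf i (Finset.mem_insert_of_mem hi)),
      ih fun i hi => hf i (Finset.mem_insert_of_mem hi)]

theorem rd_pow {x : ℂ} (hx : x ∈ P.O) (m : ℕ) : P.rd (x ^ m) = P.rd x ^ m := by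
  induction m with
  | zero => simp [P.rd_one]
  | succ m ih => rw [pow_succ, pow_succ, P.rd_mul _ _ (pow_mem hx m) hx, ih]

theorem rd_natCast (m : ℕ) : P.rd (m : ℂ) = m := by
  induction m with
  | zero => simp [P.rd_zero]
  | succ m ih =>
    push_cast
    rw [P.rd_add _ _ (natCast_mem _ m) P.O.one_mem, ih, P.rd_one]

theorem rd_inv {x : ℂ} (hx : x ∈ P.O) (h : P.rd x ≠ 0) : P.rd x⁻¹ = (P.rd x)⁻¹ := by
  have hx0 : x ≠ 0 := by
    rintro rfl; exact h P.rd_zero
  have := P.rd_mul x x⁻¹ hx (P.inv x hx h)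
  rw [mul_inv_cancel₀ hx0, P.rd_one] at this
  exact eq_inv_of_mul_eq_one_right this.symm

theorem rd_root_ne {x : ℂ} {m : ℕ} (hm : 0 < m) (hx : x ^ m = 1) : P.rd x ≠ 0 := by
  intro h
  have h1 := P.rd_pow (P.root x m hm hx) m
  rw [hx, P.rd_one, h, zero_pow hm.ne'] at h1
  exact one_ne_zero h1

theorem charP (hp : p.Prime) : CharP P.k p := by
  have := (CharP.charP_iff_prime_eq_zero (R := P.k) hp).mpr P.char
  exact this

end Place

section pairing
variable {A : Type} [AddCommGroup A]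

/-- the standard primitive `p`-th root of unity -/
noncomputable def zt (p : ℕ) : ℂ := Complex.exp (2 * Real.pi * Complex.I / p)

theorem zt_prim {p : ℕ} (hp : p.Prime) : IsPrimitiveRoot (zt p) p :=
  Complex.isPrimitiveRoot_exp p hp.ne_zero

theorem zt_ne {p : ℕ} (hp : p.Prime) : zt p - 1 ≠ 0 :=
  sub_ne_zero.mpr ((zt_prim hp).ne_one hp.one_lt)

noncomputable def sp (p : ℕ) (ψ : AddChar A ℂ) (a : A) : ℂ := (ψ a - 1) / (zt p - 1)

theorem sp_eq {p : ℕ} (hp : p.Prime) (ψ : AddChar A ℂ) (a : A) :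
    ψ a = 1 + (zt p - 1) * sp p ψ a := by
  unfold sp
  field_simp [zt_ne hp]
  ring

theorem char_pow {p : ℕ} (hA : ∀ a : A, p • a = 0) (ψ : AddChar A ℂ) (a : A) : ψ a ^ p = 1 := by
  rw [← AddChar.map_nsmul_eq_pow, hA, AddChar.map_zero_eq_one]

theorem char_exists {p : ℕ} (hp : p.Prime) (hA : ∀ a : A, p • a = 0) (ψ : AddChar A ℂ) (a : A) :
    ∃ k, k < p ∧ ψ a = zt p ^ k ∧ sp p ψ a = ∑ i ∈ Finset.range k, zt p ^ i := by
  haveI : NeZero p := ⟨hp.ne_zero⟩
  obtain ⟨k, hk, hk'⟩ := (zt_prim hp).eq_pow_of_pow_eq_one (char_pow hA ψ a)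
  refine ⟨k, hk, hk'.symm, ?_⟩
  rw [geom_sum_eq ((zt_prim hp).ne_one hp.one_lt), hk']
  rfl

variable {p : ℕ} (P : Place p)

theorem zt_mem (hp : p.Prime) : zt p ∈ P.O := P.root _ p hp.pos (zt_prim hp).pow_eq_one

theorem rd_zt (hp : p.Prime) : P.rd (zt p) = 1 := by
  haveI := P.charP hp
  haveI : Fact p.Prime := ⟨hp⟩
  have h1 := P.rd_pow (zt_mem P hp) p
  rw [(zt_prim hp).pow_eq_one, P.rd_one] at h1
  have h2 : (P.rd (zt p) - 1) ^ p = 0 := by
    rw [sub_pow_char, one_pow, ← h1, sub_self]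
  exact sub_eq_zero.mp (pow_eq_zero_iff hp.ne_zero |>.mp h2)

theorem char_mem {m : ℕ} (hm : 0 < m) (hA : ∀ a : A, m • a = 0) (ψ : AddChar A ℂ) (a : A) :
    ψ a ∈ P.O := P.root _ m hm (char_pow hA ψ a)

theorem sp_mem (hp : p.Prime) (hA : ∀ a : A, p • a = 0) (ψ : AddChar A ℂ) (a : A) :
    sp p ψ a ∈ P.O := by
  obtain ⟨k, _, _, h⟩ := char_exists hp hA ψ a
  rw [h]
  exact sum_mem fun i _ => pow_mem (zt_mem P hp) i

noncomputable def ll (ψ : AddChar A ℂ) (a : A) : P.k := P.rd (sp p ψ a)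

theorem rd_char (hp : p.Prime) (hA : ∀ a : A, p • a = 0) (ψ : AddChar A ℂ) (a : A) :
    P.rd (ψ a) = 1 := by
  obtain ⟨k, _, h, _⟩ := char_exists hp hA ψ a
  rw [h, P.rd_pow (zt_mem P hp), rd_zt P hp, one_pow]

theorem sp_add_left (ψ ψ' : AddChar A ℂ) (a : A) :
    sp p (ψ + ψ') a = ψ a * sp p ψ' a + sp p ψ a := by
  unfold sp
  rw [AddChar.add_apply]
  ring

theorem sp_add_right (ψ : AddChar A ℂ) (a a' : A) :
    sp p ψ (a + a') = ψ a * sp p ψ a' + sp p ψ a := by
  unfold sp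
  rw [AddChar.map_add_eq_mul]
  ring

theorem ll_add_left (hp : p.Prime) (hA : ∀ a : A, p • a = 0) (ψ ψ' : AddChar A ℂ) (a : A) :
    ll P (ψ + ψ') a = ll P ψ a + ll P ψ' a := by
  unfold ll
  rw [sp_add_left, P.rd_add _ _ (P.O.mul_mem (char_mem P hp.pos hA ψ a) (sp_mem P hp hA ψ' a))
    (sp_mem P hp hA ψ a), P.rd_mul _ _ (char_mem P hp.pos hA ψ a) (sp_mem P hp hA ψ' a),
    rd_char P hp hA, one_mul, add_comm]

theorem ll_add_right (hp : p.Prime) (hA : ∀ a : A, p • a = 0) (ψ : AddChar A ℂ) (a a' : A) :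
    ll P ψ (a + a') = ll P ψ a + ll P ψ a' := by
  unfold ll
  rw [sp_add_right, P.rd_add _ _ (P.O.mul_mem (char_mem P hp.pos hA ψ a) (sp_mem P hp hA ψ a'))
    (sp_mem P hp hA ψ a), P.rd_mul _ _ (char_mem P hp.pos hA ψ a) (sp_mem P hp hA ψ a'),
    rd_char P hp hA, one_mul, add_comm]

theorem sp_one {ψ : AddChar A ℂ} {a : A} (h : ψ a = 1) : sp p ψ a = 0 := by
  unfold sp; rw [h]; simp

theorem ll_eq_zero_iff (hp : p.Prime) (hA : ∀ a : A, p • a = 0) (ψ : AddChar A ℂ) (a : A) :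
    ll P ψ a = 0 ↔ ψ a = 1 := by
  constructor
  · intro h
    obtain ⟨k, hk, h1, h2⟩ := char_exists hp hA ψ a
    unfold ll at h
    rw [h2, P.rd_sum _ _ (fun i _ => pow_mem (zt_mem P hp) i)] at h
    have h3 : ∀ i ∈ Finset.range k, P.rd (zt p ^ i) = 1 := by
      intro i _
      rw [P.rd_pow (zt_mem P hp), rd_zt P hp, one_pow]
    rw [Finset.sum_congr rfl h3] at h
    simp only [Finset.sum_const, Finset.card_range, nsmul_eq_mul, mul_one] at h
    haveI := P.charP hp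
    rw [CharP.cast_eq_zero_iff P.k p] at h
    have : k = 0 := Nat.eq_zero_of_dvd_of_lt h hk
    rw [h1, this, pow_zero]
  · intro h
    unfold ll
    rw [sp_one h, P.rd_zero]

end pairing
end Pool.Agent.Helper801.TF
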