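import Pool.Agent.Helper801.TFB
set_option autoImplicit false
namespace Pool.Agent.Helper801.TF
open Finset

section gauss
variable {A B : Type} [AddCommGroup A] [AddCommGroup B] [Fintype A] [Fintype B]
  [DecidableEq A] [DecidableEq B]

noncomputable def GS (f : B → A) (χ : AddChar B ℂ) (ψ : AddChar A ℂ) : ℂ :=
  ∑ b, χ (-b) * ψ (f b)

noncomputable def gs (f : B → A) (χ : AddChar B ℂ) (ψ : AddChar A ℂ) : ℂ :=
  ∑ b, χ b * ψ (f b)

noncomputable def us (p : ℕ) (f : B → A) (χ : AddChar B ℂ) (ψ : AddChar A ℂ) : ℂ :=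
  ∑ b, χ (-b) * sp p ψ (f b)

theorem sum_char_neg (χ : AddChar B ℂ) (hχ : χ ≠ 0) : ∑ b, χ (-b) = 0 := by
  rw [← AddChar.sum_eq_zero_iff_ne_zero.mpr hχ]
  exact Fintype.sum_equiv (Equiv.neg B) _ _ fun x => rfl

theorem GS_eq {p : ℕ} (hp : p.Prime) (f : B → A) (χ : AddChar B ℂ) (hχ : χ ≠ 0)
    (ψ : AddChar A ℂ) : GS f χ ψ = (zt p - 1) * us p f χ ψ := by
  unfold GS us
  have : ∀ b ∈ (Finset.univ : Finset B), χ (-b) * ψ (f b)
      = χ (-b) + (zt p - 1) * (χ (-b) * sp p ψ (f b)) := by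
    intro b _
    conv_lhs => rw [sp_eq hp ψ (f b)]
    ring
  rw [Finset.sum_congr rfl this, Finset.sum_add_distrib, sum_char_neg χ hχ, ← Finset.mul_sum,
    zero_add]

theorem gs_mul (f : B → A) (hcard : Fintype.card A = Fintype.card B + 1)
    (hinj : Function.Injective f)
    (hd : ∀ c : B, c ≠ 0 → Function.Injective (fun b => f (b + c) - f b))
    (χ : AddChar B ℂ) (hχ : χ ≠ 0) (μ : AddChar A ℂ) (hμ : μ ≠ 0) :
    gs f χ μ * GS f χ (-μ) = Fintype.card A := by
  have e1 : gs f χ μ * GS f χ (-μ) = ∑ c : B, ∑ b : B, χ c * μ (f (b + c) - f b) := by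
    unfold gs GS
    rw [Finset.sum_mul_sum, Finset.sum_comm,
      Finset.sum_comm (f := fun c b => χ c * μ (f (b + c) - f b))]
    refine Finset.sum_congr rfl fun b _ => ?_
    refine (Fintype.sum_equiv (Equiv.addLeft b) _ _ fun x => ?_).symm
    simp only [Equiv.coe_addLeft]
    rw [AddChar.map_add_eq_mul, sub_eq_add_neg, AddChar.map_add_eq_mul, AddChar.neg_apply,
      AddChar.map_neg_eq_inv χ b]
    have hb : χ b ≠ 0 := (AddChar.val_isUnit χ b).ne_zero
    field_simp
  have e2 : ∀ c ∈ (Finset.univ : Finset B), ∑ b : B, χ c * μ (f (b + c) - f b)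
      = - χ c + (if c = 0 then (Fintype.card B : ℂ) + 1 else 0) := by
    intro c _
    by_cases hc : c = 0
    · subst hc
      simp
    · rw [if_neg hc, add_zero, ← Finset.mul_sum,
        sum_nz hcard (fun b => f (b + c) - f b) (hd c hc) ?_ (fun a => μ a),
        AddChar.sum_eq_zero_iff_ne_zero.mpr hμ]
      · simp
      · intro b hb
        apply hc
        have := hinj (sub_eq_zero.mp hb)
        simpa using this
  rw [e1, Finset.sum_congr rfl e2, Finset.sum_add_distrib, Finset.sum_neg_distrib,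
    AddChar.sum_eq_zero_iff_ne_zero.mpr hχ, Finset.sum_ite_eq' Finset.univ (0 : B), hcard]
  simp

theorem inversion {p : ℕ} (hp : p.Prime) (f : B → A)
    (hcard : Fintype.card A = Fintype.card B + 1)
    (hinj : Function.Injective f) (h0 : ∀ b, f b ≠ 0)
    (hd : ∀ c : B, c ≠ 0 → Function.Injective (fun b => f (b + c) - f b))
    (χ : AddChar B ℂ) (hχ : χ ≠ 0) (b : B) :
    χ b = ∑ μ : AddChar A ℂ, sp p μ (f b) / us p f χ μ := by
  have hn : (Fintype.card A : ℂ) ≠ 0 := by
    rw [hcard]; push_cast; exact Nat.cast_add_one_ne_zero _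
  have e1 : ∑ μ : AddChar A ℂ, gs f χ (-μ) * μ (f b) = Fintype.card A * χ b := by
    unfold gs
    simp only [Finset.sum_mul]
    rw [Finset.sum_comm]
    have : ∀ b' ∈ (Finset.univ : Finset B), ∑ μ : AddChar A ℂ, χ b' * (-μ) (f b') * μ (f b)
        = if b' = b then Fintype.card A * χ b else 0 := by
      intro b' _
      have h1 : ∀ μ ∈ (Finset.univ : Finset (AddChar A ℂ)),
          χ b' * (-μ) (f b') * μ (f b) = χ b' * μ (f b - f b') := by
        intro μ _
        rw [AddChar.neg_apply, sub_eq_add_neg, AddChar.map_add_eq_mul]; ring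
      rw [Finset.sum_congr rfl h1, ← Finset.mul_sum, AddChar.sum_apply_eq_ite]
      by_cases hb : b' = b
      · subst hb
        simp [mul_comm]
      · rw [if_neg hb, if_neg, mul_zero]
        intro h
        exact hb (hinj (sub_eq_zero.mp h).symm)
    rw [Finset.sum_congr rfl this, Finset.sum_ite_eq' Finset.univ b]
    simp
  have e2 : ∑ μ : AddChar A ℂ, gs f χ (-μ) = 0 := by
    unfold gs
    rw [Finset.sum_comm]
    apply Finset.sum_eq_zero
    intro b' _
    simp only [AddChar.neg_apply]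
    rw [← Finset.mul_sum, AddChar.sum_apply_eq_ite, if_neg (by simpa using h0 b'), mul_zero]
  have e3 : ∀ μ ∈ (Finset.univ : Finset (AddChar A ℂ)), gs f χ (-μ) * (μ (f b) - 1)
      = Fintype.card A * (sp p μ (f b) / us p f χ μ) := by
    intro μ _
    by_cases hμ : μ = 0
    · subst hμ
      simp [sp]
    · have h1 := gs_mul f hcard hinj hd χ hχ (-μ) (neg_ne_zero.mpr hμ)
      rw [neg_neg, GS_eq hp f χ hχ μ] at h1
      have hu : us p f χ μ ≠ 0 := by
        intro h
        rw [h] at h1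
        simp only [mul_zero] at h1
        exact hn h1.symm
      rw [sp_eq hp μ (f b)]
      rw [← h1]
      field_simp
      ring
  have e4 : Fintype.card A * χ b = Fintype.card A *
      ∑ μ : AddChar A ℂ, sp p μ (f b) / us p f χ μ := by
    rw [Finset.mul_sum, ← Finset.sum_congr rfl e3, ← e1]
    simp only [mul_sub, mul_one]
    rw [Finset.sum_sub_distrib, e2, sub_zero]
  exact mul_left_cancel₀ hn e4

variable {p : ℕ} (P : Place p)

noncomputable def ws (f : B → A) (χ : AddChar B ℂ) (ψ : AddChar A ℂ) : P.k :=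
  P.rd (us p f χ ψ)

theorem chiB_mem (χ : AddChar B ℂ) (b : B) : χ b ∈ P.O :=
  char_mem P Fintype.card_pos (fun b => card_nsmul_eq_zero) χ b

theorem us_mem (hp : p.Prime) (hA : ∀ a : A, p • a = 0) (f : B → A) (χ : AddChar B ℂ)
    (ψ : AddChar A ℂ) : us p f χ ψ ∈ P.O :=
  sum_mem fun b _ => P.O.mul_mem (chiB_mem P χ _) (sp_mem P hp hA ψ _)

theorem ws_eq (hp : p.Prime) (hA : ∀ a : A, p • a = 0) (f : B → A) (χ : AddChar B ℂ)
    (ψ : AddChar A ℂ) : ws P f χ ψ = ∑ b, P.rd (χ (-b)) * ll P ψ (f b) := by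
  unfold ws us
  rw [P.rd_sum _ _ (fun b _ => P.O.mul_mem (chiB_mem P χ _) (sp_mem P hp hA ψ _))]
  refine Finset.sum_congr rfl fun b _ => ?_
  rw [P.rd_mul _ _ (chiB_mem P χ _) (sp_mem P hp hA ψ _)]
  rfl

theorem ws_add (hp : p.Prime) (hA : ∀ a : A, p • a = 0) (f : B → A) (χ : AddChar B ℂ)
    (ψ ψ' : AddChar A ℂ) : ws P f χ (ψ + ψ') = ws P f χ ψ + ws P f χ ψ' := by
  rw [ws_eq P hp hA, ws_eq P hp hA, ws_eq P hp hA, ← Finset.sum_add_distrib]
  refine Finset.sum_congr rfl fun b _ => ?_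
  rw [ll_add_left P hp hA, mul_add]

theorem keyred (hp : p.Prime) (hA : ∀ a : A, p • a = 0) (f : B → A)
    (hcard : Fintype.card A = Fintype.card B + 1)
    (hinj : Function.Injective f) (h0 : ∀ b, f b ≠ 0)
    (hd : ∀ c : B, c ≠ 0 → Function.Injective (fun b => f (b + c) - f b))
    (χ : AddChar B ℂ) (hχ : χ ≠ 0) (b : B)
    (hb : ∀ μ : AddChar A ℂ, ws P f χ μ = 0 → μ (f b) = 1) :
    P.rd (χ b) = ∑ μ : AddChar A ℂ, ll P μ (f b) / ws P f χ μ := by
  have key : ∀ μ : AddChar A ℂ, sp p μ (f b) / us p f χ μ ∈ P.O ∧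
      P.rd (sp p μ (f b) / us p f χ μ) = ll P μ (f b) / ws P f χ μ := by
    intro μ
    by_cases hw : ws P f χ μ = 0
    · have := hb μ hw
      rw [hw, sp_one this]
      simp [P.rd_zero, P.O.zero_mem]
    · have h1 := us_mem P hp hA f χ μ
      have h2 := P.inv _ h1 hw
      have h3 := sp_mem P hp hA μ (f b)
      rw [div_eq_mul_inv, div_eq_mul_inv]
      refine ⟨P.O.mul_mem h3 h2, ?_⟩
      rw [P.rd_mul _ _ h3 h2, P.rd_inv h1 hw]
      rfl
  rw [inversion hp f hcard hinj h0 hd χ hχ b, P.rd_sum _ _ (fun μ _ => (key μ).1)]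
  exact Finset.sum_congr rfl fun μ _ => (key μ).2

/-- `w` as an additive homomorphism -/
noncomputable def wHom (hp : p.Prime) (hA : ∀ a : A, p • a = 0) (f : B → A) (χ : AddChar B ℂ) :
    AddChar A ℂ →+ P.k :=
  AddMonoidHom.mk' (ws P f χ) (ws_add P hp hA f χ)

/-- a proper subgroup of the dual has a nonzero annihilator. -/
theorem annih (V : AddSubgroup (AddChar A ℂ)) (hV : V ≠ ⊤) :
    ∃ a : A, a ≠ 0 ∧ ∀ μ ∈ V, μ a = 1 := by
  classical
  by_contra hcon
  push Not at hcon
  let F : A → AddChar V ℂ := fun a =>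
    { toFun := fun μ => (μ : AddChar A ℂ) a
      map_zero_eq_one' := by simp
      map_add_eq_mul' := fun x y => by simp }
  have hF : Function.Injective F := by
    intro a a' haa
    by_contra hne
    obtain ⟨μ, hμ, hμa⟩ := hcon (a - a') (sub_ne_zero.mpr hne)
    apply hμa
    have h1 : μ a = μ a' := congrArg (fun G : AddChar V ℂ => G ⟨μ, hμ⟩) haa
    rw [sub_eq_add_neg, AddChar.map_add_eq_mul, h1, ← AddChar.map_add_eq_mul, add_neg_cancel,
      AddChar.map_zero_eq_one]
  have h1 := Fintype.card_le_of_injective F hF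
  rw [AddChar.card_eq] at h1
  have h2 : Fintype.card V < Fintype.card (AddChar A ℂ) := by
    refine lt_of_le_of_ne (Fintype.card_subtype_le _) ?_
    intro h
    apply hV
    have h3 : Nat.card V = Nat.card (AddChar A ℂ) := by
      rw [Nat.card_eq_fintype_card, Nat.card_eq_fintype_card]; exact h
    exact AddSubgroup.eq_top_of_card_eq V h3
  rw [AddChar.card_eq] at h2
  omega

theorem dich (hp : p.Prime) (hA : ∀ a : A, p • a = 0) (f : B → A)
    (hcard : Fintype.card A = Fintype.card B + 1)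
    (hinj : Function.Injective f) (h0 : ∀ b, f b ≠ 0)
    (hd : ∀ c : B, c ≠ 0 → Function.Injective (fun b => f (b + c) - f b))
    (χ : AddChar B ℂ) (hχ : χ ≠ 0) (hw : ∃ μ, ws P f χ μ ≠ 0) (v : AddChar A ℂ)
    (hv : ws P f χ v = 0) : v = 0 := by
  by_contra hv0
  let V : AddSubgroup (AddChar A ℂ) := (wHom P hp hA f χ).ker
  have hVtop : V ≠ ⊤ := by
    intro h
    obtain ⟨μ, hμ⟩ := hw
    apply hμ
    have : μ ∈ V := by rw [h]; trivial
    exact this
  obtain ⟨a, ha0, ha⟩ := annih V hVtop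
  obtain ⟨b, rfl⟩ := surj_nz hcard f hinj h0 a ha0
  have hred := keyred P hp hA f hcard hinj h0 hd χ hχ b (fun μ hμ => ha μ hμ)
  obtain ⟨a', ha'⟩ := AddChar.ne_zero_iff.mp hv0
  have hl : ll P v a' ≠ 0 := by
    intro h; exact ha' ((ll_eq_zero_iff P hp hA v a').mp h)
  let F : AddChar A ℂ → P.k := fun μ => ll P μ (f b) / ws P f χ μ
  have hF : ∀ μ, F (μ + v) = F μ := by
    intro μ
    simp only [F]
    rw [ll_add_left P hp hA, ws_add P hp hA, hv, add_zero,
      (ll_eq_zero_iff P hp hA v (f b)).mpr (ha v hv), add_zero]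
  have h1 : ∑ μ, F μ * ll P μ a' = ∑ μ, F μ * ll P μ a' + (∑ μ, F μ) * ll P v a' := by
    conv_lhs => rw [← Fintype.sum_equiv (Equiv.addRight v) (fun μ => F (μ + v) * ll P (μ + v) a')
      (fun μ => F μ * ll P μ a') (fun μ => rfl)]
    rw [Finset.sum_mul, ← Finset.sum_add_distrib]
    refine Finset.sum_congr rfl fun μ _ => ?_
    rw [hF, ll_add_left P hp hA, mul_add]
  have h2 : (∑ μ, F μ) * ll P v a' = 0 := by
    have := h1
    rw [left_eq_add] at this
    exact this
  have h3 : ∑ μ, F μ = 0 := (mul_eq_zero.mp h2).resolve_right hl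
  have h4 : P.rd (χ b) = 0 := by rw [hred]; exact h3
  exact P.rd_root_ne (m := Fintype.card B) (Fintype.card_pos_iff.mpr ⟨b⟩)
    (char_pow (fun b => card_nsmul_eq_zero) χ b) h4

theorem exists_chi (hp : p.Prime) (hA : ∀ a : A, p • a = 0) (f : B → A)
    (hcard : Fintype.card A = Fintype.card B + 1)
    (hinj : Function.Injective f) (h0 : ∀ b, f b ≠ 0) (h3 : 2 < Fintype.card A)
    (hpA : p ∣ Fintype.card A) :
    ∃ χ : AddChar B ℂ, χ ≠ 0 ∧ ∃ μ, ws P f χ μ ≠ 0 := by
  by_contra hcon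
  push Not at hcon
  have hBk : ((Fintype.card B : ℕ) : P.k) = -1 := by
    haveI := P.charP hp
    have h1 : ((Fintype.card A : ℕ) : P.k) = 0 := by
      rw [CharP.cast_eq_zero_iff P.k p]; exact hpA
    rw [hcard] at h1
    push_cast at h1
    linear_combination h1
  have key : ∀ (ψ : AddChar A ℂ) (c : B), ll P ψ (f c) = - ws P f 0 ψ := by
    intro ψ c
    have e1 : ∑ χ : AddChar B ℂ, χ c * us p f χ ψ = Fintype.card B * sp p ψ (f c) := by
      unfold us
      simp only [Finset.mul_sum]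
      rw [Finset.sum_comm]
      have : ∀ b ∈ (Finset.univ : Finset B), ∑ χ : AddChar B ℂ, χ c * (χ (-b) * sp p ψ (f b))
          = if b = c then Fintype.card B * sp p ψ (f c) else 0 := by
        intro b _
        have h1 : ∀ χ ∈ (Finset.univ : Finset (AddChar B ℂ)),
            χ c * (χ (-b) * sp p ψ (f b)) = χ (c - b) * sp p ψ (f b) := by
          intro χ _
          rw [sub_eq_add_neg, AddChar.map_add_eq_mul]; ring
        rw [Finset.sum_congr rfl h1, ← Finset.sum_mul, AddChar.sum_apply_eq_ite]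
        by_cases hb : b = c
        · subst hb; simp
        · rw [if_neg hb, if_neg, zero_mul]
          intro h
          exact hb (sub_eq_zero.mp h).symm
      rw [Finset.sum_congr rfl this, Finset.sum_ite_eq' Finset.univ c]
      simp
    have e2 : P.rd (∑ χ : AddChar B ℂ, χ c * us p f χ ψ) = ws P f 0 ψ := by
      rw [P.rd_sum _ _ (fun χ _ => P.O.mul_mem (chiB_mem P χ _) (us_mem P hp hA f χ ψ))]
      rw [Finset.sum_eq_single (0 : AddChar B ℂ)]
      · rw [P.rd_mul _ _ (chiB_mem P _ _) (us_mem P hp hA f _ ψ), AddChar.zero_apply, P.rd_one,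
          one_mul]
        rfl
      · intro χ _ hχ
        rw [P.rd_mul _ _ (chiB_mem P _ _) (us_mem P hp hA f _ ψ)]
        have := hcon χ hχ ψ
        unfold ws at this
        rw [this, mul_zero]
      · intro h; exact absurd (Finset.mem_univ _) h
    rw [e1, P.rd_mul _ _ (natCast_mem _ _) (sp_mem P hp hA ψ _), P.rd_natCast, hBk] at e2
    rw [← e2]
    unfold ll
    ring
  obtain ⟨a, ha⟩ : ∃ a : A, a ≠ 0 := by
    haveI : Nontrivial A := Fintype.one_lt_card_iff_nontrivial.mp (by omega)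
    exact exists_ne 0
  obtain ⟨ψ, hψ⟩ := AddChar.exists_apply_ne_zero.mpr ha
  obtain ⟨a', ha'⟩ : ∃ a' : A, a' ∉ ({0, -a} : Finset A) := by
    by_contra hc
    push Not at hc
    have h1 : (Finset.univ : Finset A) ⊆ {0, -a} := fun x _ => hc x
    have h2 := Finset.card_le_card h1
    rw [Finset.card_univ] at h2
    have h3' : ({0, -a} : Finset A).card ≤ 2 := Finset.card_le_two
    omega
  simp only [Finset.mem_insert, Finset.mem_singleton, not_or] at ha'
  have hs : ∀ x : A, x ≠ 0 → ll P ψ x = - ws P f 0 ψ := by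
    intro x hx
    obtain ⟨b, rfl⟩ := surj_nz hcard f hinj h0 x hx
    exact key ψ b
  have h4 : a + a' ≠ 0 := by
    intro h; exact ha'.2 (eq_neg_of_add_eq_zero_right h)
  have h5 := ll_add_right P hp hA ψ a a'
  rw [hs _ h4, hs a ha, hs a' ha'.1] at h5
  have h6 : ll P ψ a = 0 := by
    rw [hs a ha]
    have := h5
    rw [left_eq_add] at this
    exact this
  exact hψ ((ll_eq_zero_iff P hp hA ψ a).mp h6)

end gauss
end Pool.Agent.Helper801.TF
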