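import Pool.Agent.Helper801.TFC
set_option autoImplicit false
namespace Pool.Agent.Helper801.TF
open Finset

section field
variable {A B : Type} [AddCommGroup A] [AddCommGroup B] [Fintype A] [Fintype B]
  [DecidableEq A] [DecidableEq B]

theorem fieldOf_big (f : B → A) (hcard : Fintype.card A = Fintype.card B + 1)
    (hinj : Function.Injective f) (h0 : ∀ b, f b ≠ 0)
    (hd : ∀ c : B, c ≠ 0 → Function.Injective (fun b => f (b + c) - f b))
    (h3 : 2 < Fintype.card A) :
    ∃ (K : Type) (_ : Field K) (_ : Fintype K) (α : A ≃+ K),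
      ∀ b b', α (f (b + b')) = α (f b) * α (f b') := by
  classical
  obtain ⟨p, hp, hpA⟩ := Nat.exists_prime_and_dvd (n := Fintype.card A) (by omega)
  haveI : Fact p.Prime := ⟨hp⟩
  have hA : ∀ a : A, p • a = 0 := exponent f hcard hinj h0 hd p hpA
  obtain ⟨P⟩ := exists_place p hp
  obtain ⟨χ, hχ, hw⟩ := exists_chi P hp hA f hcard hinj h0 h3 hpA
  have hV := dich P hp hA f hcard hinj h0 hd χ hχ hw
  let Λ : A →+ P.k := AddMonoidHom.mk' (fun a => ∑ μ : AddChar A ℂ, ll P μ a / ws P f χ μ) (by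
    intro a a'
    rw [← Finset.sum_add_distrib]
    refine Finset.sum_congr rfl fun μ _ => ?_
    rw [ll_add_right P hp hA, add_div])
  have hΛ : ∀ b, Λ (f b) = P.rd (χ b) := by
    intro b
    rw [keyred P hp hA f hcard hinj h0 hd χ hχ b (fun μ hμ => by rw [hV μ hμ]; rfl)]
    rfl
  have hne : ∀ b, P.rd (χ b) ≠ 0 := fun b =>
    P.rd_root_ne (m := Fintype.card B) (Fintype.card_pos_iff.mpr ⟨b⟩)
      (char_pow (fun b => card_nsmul_eq_zero) χ b)
  have hmul : ∀ b b', P.rd (χ (b + b')) = P.rd (χ b) * P.rd (χ b') := by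
    intro b b'
    rw [AddChar.map_add_eq_mul, P.rd_mul _ _ (chiB_mem P χ _) (chiB_mem P χ _)]
  have hone : P.rd (χ 0) = 1 := by rw [AddChar.map_zero_eq_one, P.rd_one]
  have hcases : ∀ a : A, a = 0 ∨ ∃ b, f b = a := by
    intro a
    by_cases ha : a = 0
    · exact Or.inl ha
    · exact Or.inr (surj_nz hcard f hinj h0 a ha)
  have hinjΛ : Function.Injective Λ := by
    rw [injective_iff_map_eq_zero]
    intro a ha
    rcases hcases a with h | ⟨b, rfl⟩
    · exact h
    · rw [hΛ] at ha; exact absurd ha (hne b)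
  let K : Subfield P.k :=
    { carrier := Set.range Λ
      mul_mem' := by
        rintro _ _ ⟨a, rfl⟩ ⟨a', rfl⟩
        rcases hcases a with rfl | ⟨b, rfl⟩
        · exact ⟨0, by simp⟩
        · rcases hcases a' with rfl | ⟨b', rfl⟩
          · exact ⟨0, by simp⟩
          · exact ⟨f (b + b'), by rw [hΛ, hΛ, hΛ, hmul]⟩
      one_mem' := ⟨f 0, by rw [hΛ, hone]⟩
      add_mem' := by
        rintro _ _ ⟨a, rfl⟩ ⟨a', rfl⟩
        exact ⟨a + a', map_add _ _ _⟩
      zero_mem' := ⟨0, map_zero _⟩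
      neg_mem' := by
        rintro _ ⟨a, rfl⟩
        exact ⟨-a, map_neg _ _⟩
      inv_mem' := by
        rintro _ ⟨a, rfl⟩
        rcases hcases a with rfl | ⟨b, rfl⟩
        · exact ⟨0, by simp⟩
        · refine ⟨f (-b), ?_⟩
          rw [hΛ, hΛ]
          apply eq_inv_of_mul_eq_one_left
          rw [← hmul, neg_add_cancel, hone] }
  let α0 : A →+ K :=
    { toFun := fun a => ⟨Λ a, ⟨a, rfl⟩⟩
      map_zero' := Subtype.ext (map_zero Λ)
      map_add' := fun a a' => Subtype.ext (map_add Λ a a') }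
  have hbij : Function.Bijective α0 := by
    constructor
    · intro a a' h
      exact hinjΛ (congrArg Subtype.val h)
    · rintro ⟨_, ⟨a, rfl⟩⟩
      exact ⟨a, rfl⟩
  let α : A ≃+ K := AddEquiv.ofBijective α0 hbij
  refine ⟨K, inferInstance, Fintype.ofEquiv A α.toEquiv, α, ?_⟩
  intro b b'
  apply Subtype.ext
  change Λ (f (b + b')) = Λ (f b) * Λ (f b')
  rw [hΛ, hΛ, hΛ, hmul]

theorem fieldOf (f : B → A) (hcard : Fintype.card A = Fintype.card B + 1)
    (hinj : Function.Injective f) (h0 : ∀ b, f b ≠ 0)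
    (hd : ∀ c : B, c ≠ 0 → Function.Injective (fun b => f (b + c) - f b)) :
    ∃ (K : Type) (_ : Field K) (_ : Fintype K) (α : A ≃+ K),
      ∀ b b', α (f (b + b')) = α (f b) * α (f b') := by
  by_cases h3 : 2 < Fintype.card A
  · exact fieldOf_big f hcard hinj h0 hd h3
  · have hB : 0 < Fintype.card B := Fintype.card_pos
    have hA2 : Fintype.card A = 2 := by omega
    have hcyc : IsAddCyclic A := by
      haveI : Fact (Nat.Prime 2) := ⟨Nat.prime_two⟩
      exact isAddCyclic_of_prime_card (p := 2) (by rw [Nat.card_eq_fintype_card]; exact hA2)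
    have e : ZMod 2 ≃+ A := by
      have := zmodAddCyclicAddEquiv hcyc
      rw [Nat.card_eq_fintype_card, hA2] at this
      exact this
    refine ⟨ZMod 2, inferInstance, inferInstance, e.symm, ?_⟩
    have h1 : ∀ b, e.symm (f b) = 1 := by
      intro b
      have h2 : e.symm (f b) ≠ 0 := by
        intro h
        exact h0 b ((AddEquiv.map_eq_zero_iff e.symm).mp h)
      revert h2
      generalize e.symm (f b) = x
      revert x
      decide
    intro b b'
    rw [h1, h1, h1, mul_one]

end field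
end Pool.Agent.Helper801.TF
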