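import Pool.Agent.Helper801.TFD
set_option autoImplicit false
namespace Pool.Agent.Helper801.TF
open Finset Configuration

/-- a projective plane with an abelian group of type (f), with chosen base flags -/
structure Cfg (P L : Type) [Fintype P] [Fintype L] [Membership P L] [ProjectivePlane P L]
    (G : Type) [CommGroup G] [Fintype G] where
  φ : G →* Equiv.Perm P
  ψ : G →* Equiv.Perm L
  a : P
  b : P
  l₀ : L
  l₁ : L
  inc : ∀ (g : G) (p : P) (l : L), p ∈ l ↔ (φ g) p ∈ (ψ g) l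
  hab : a ≠ b
  ha0 : a ∈ l₀
  hb0 : b ∈ l₀
  ha1 : a ∈ l₁
  h10 : l₁ ≠ l₀
  fa : ∀ g, φ g a = a
  fb : ∀ g, φ g b = b
  f0 : ∀ g, ψ g l₀ = l₀
  f1 : ∀ g, ψ g l₁ = l₁
  card : Fintype.card G = ProjectivePlane.order P L * (ProjectivePlane.order P L - 1)
  regP : ∀ p q : P, p ∉ l₀ → p ∉ l₁ → q ∉ l₀ → q ∉ l₁ → ∃! g : G, (φ g) p = q
  regL : ∀ l m : L, a ∉ l → b ∉ l → a ∉ m → b ∉ m → ∃! g : G, (ψ g) l = m
  p₀ : P
  m₀ : L
  la : L
  lb : L
  Q₀ : P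
  Q₁ : P
  p00 : p₀ ∉ l₀
  p01 : p₀ ∉ l₁
  am : a ∉ m₀
  bm : b ∉ m₀
  ala : a ∈ la
  pla : p₀ ∈ la
  blb : b ∈ lb
  plb : p₀ ∈ lb
  Q1b : Q₁ ∈ lb
  Q11 : Q₁ ∈ l₁
  Q1m : Q₁ ∈ m₀
  Q00 : Q₀ ∈ l₀
  Q0m : Q₀ ∈ m₀

namespace Cfg
variable {P L : Type} [Fintype P] [Fintype L] [Membership P L] [ProjectivePlane P L]
    {G : Type} [CommGroup G] [Fintype G] (C : Cfg P L G)

omit [Fintype P] [Fintype L] in
theorem eqp {p q : P} {l m : L} (hlm : l ≠ m) (h1 : p ∈ l) (h2 : p ∈ m) (h3 : q ∈ l)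
    (h4 : q ∈ m) : p = q := (Nondegenerate.eq_or_eq h1 h3 h2 h4).resolve_right hlm

omit [Fintype P] [Fintype L] in
theorem eql {p q : P} {l m : L} (hpq : p ≠ q) (h1 : p ∈ l) (h2 : p ∈ m) (h3 : q ∈ l)
    (h4 : q ∈ m) : l = m := (Nondegenerate.eq_or_eq h1 h3 h2 h4).resolve_left hpq

omit [Fintype P] [Fintype L] in
theorem ne_of_mem_of_notMem_line {p : P} {l m : L} (h1 : p ∈ l) (h2 : p ∉ m) : l ≠ m := by
  rintro rfl; exact h2 h1

theorem hb1 : C.b ∉ C.l₁ := fun h => C.h10 (eql C.hab C.ha1 C.ha0 h C.hb0)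

theorem φmul (g h : G) (p : P) : C.φ (g * h) p = C.φ g (C.φ h p) := by
  rw [map_mul]; rfl
theorem ψmul (g h : G) (l : L) : C.ψ (g * h) l = C.ψ g (C.ψ h l) := by
  rw [map_mul]; rfl
theorem φone (p : P) : C.φ 1 p = p := by rw [map_one]; rfl
theorem ψone (l : L) : C.ψ 1 l = l := by rw [map_one]; rfl

theorem la0 : C.la ≠ C.l₀ := ne_of_mem_of_notMem_line C.pla C.p00
theorem la1 : C.la ≠ C.l₁ := ne_of_mem_of_notMem_line C.pla C.p01
theorem lb0 : C.lb ≠ C.l₀ := ne_of_mem_of_notMem_line C.plb C.p00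
theorem lb1 : C.lb ≠ C.l₁ := ne_of_mem_of_notMem_line C.plb C.p01
theorem bla : C.b ∉ C.la := fun h => C.la0 (eql C.hab C.ala C.ha0 h C.hb0)
theorem alb : C.a ∉ C.lb := fun h => C.lb0 (eql C.hab h C.ha0 C.blb C.hb0)
theorem lab : C.la ≠ C.lb := ne_of_mem_of_notMem_line C.ala C.alb
theorem Q1a : C.Q₁ ≠ C.a := by
  intro h; apply C.alb; rw [← h]; exact C.Q1b
theorem Q10 : C.Q₁ ∉ C.l₀ := fun h => C.Q1a (eqp C.h10 C.Q11 h C.ha1 C.ha0)
theorem Q0a : C.Q₀ ≠ C.a := by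
  intro h; apply C.am; rw [← h]; exact C.Q0m
theorem Q0b : C.Q₀ ≠ C.b := by
  intro h; apply C.bm; rw [← h]; exact C.Q0m
theorem Q01 : C.Q₀ ∉ C.l₁ := fun h => C.Q0a (eqp C.h10 h C.Q00 C.ha1 C.ha0)
theorem mla : C.la ≠ C.m₀ := ne_of_mem_of_notMem_line C.ala C.am
theorem mlb : C.lb ≠ C.m₀ := ne_of_mem_of_notMem_line C.blb C.bm
theorem ml0 : C.l₀ ≠ C.m₀ := ne_of_mem_of_notMem_line C.ha0 C.am
theorem ml1 : C.l₁ ≠ C.m₀ := ne_of_mem_of_notMem_line C.ha1 C.am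

theorem m0iff (g : G) (p : P) : C.φ g p ∈ C.l₀ ↔ p ∈ C.l₀ := by
  rw [C.inc g p C.l₀, C.f0]
theorem m1iff (g : G) (p : P) : C.φ g p ∈ C.l₁ ↔ p ∈ C.l₁ := by
  rw [C.inc g p C.l₁, C.f1]
theorem aiff (g : G) (l : L) : C.a ∈ C.ψ g l ↔ C.a ∈ l := by
  rw [C.inc g C.a l, C.fa]
theorem biff (g : G) (l : L) : C.b ∈ C.ψ g l ↔ C.b ∈ l := by
  rw [C.inc g C.b l, C.fb]

theorem regp {g h : G} (hgh : C.φ g C.p₀ = C.φ h C.p₀) : g = h := by
  obtain ⟨k, _, hk⟩ := C.regP C.p₀ (C.φ h C.p₀) C.p00 C.p01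
    (by rw [C.m0iff]; exact C.p00) (by rw [C.m1iff]; exact C.p01)
  rw [hk g hgh, hk h rfl]

theorem regm {g h : G} (hgh : C.ψ g C.m₀ = C.ψ h C.m₀) : g = h := by
  obtain ⟨k, _, hk⟩ := C.regL C.m₀ (C.ψ h C.m₀) C.am C.bm
    (by rw [C.aiff]; exact C.am) (by rw [C.biff]; exact C.bm)
  rw [hk g hgh, hk h rfl]

theorem trans (p : P) (h0 : p ∉ C.l₀) (h1 : p ∉ C.l₁) : ∃ g, C.φ g C.p₀ = p :=
  (C.regP C.p₀ p C.p00 C.p01 h0 h1).exists

/-- stabiliser of `la` -/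
def A : Subgroup G where
  carrier := {g | C.ψ g C.la = C.la}
  mul_mem' := by
    intro g h hg hh
    simp only [Set.mem_setOf_eq] at *
    rw [C.ψmul, hh, hg]
  one_mem' := C.ψone _
  inv_mem' := by
    intro g hg
    simp only [Set.mem_setOf_eq] at *
    conv_lhs => rw [← hg]
    rw [← C.ψmul, inv_mul_cancel, C.ψone]

/-- stabiliser of `lb` -/
def B : Subgroup G where
  carrier := {g | C.ψ g C.lb = C.lb}
  mul_mem' := by
    intro g h hg hh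
    simp only [Set.mem_setOf_eq] at *
    rw [C.ψmul, hh, hg]
  one_mem' := C.ψone _
  inv_mem' := by
    intro g hg
    simp only [Set.mem_setOf_eq] at *
    conv_lhs => rw [← hg]
    rw [← C.ψmul, inv_mul_cancel, C.ψone]

theorem memA (g : G) : g ∈ C.A ↔ C.φ g C.p₀ ∈ C.la := by
  constructor
  · intro h
    have h' : C.ψ g C.la = C.la := h
    rw [← h', ← C.inc]; exact C.pla
  · intro h
    have h1 : C.φ g C.p₀ ∉ C.l₀ := by rw [C.m0iff]; exact C.p00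
    refine eql (p := C.φ g C.p₀) (q := C.a) ?_ ((C.inc _ _ _).mp C.pla) h
      ((C.aiff _ _).mpr C.ala) C.ala
    intro h2; apply h1; rw [h2]; exact C.ha0

theorem memB (g : G) : g ∈ C.B ↔ C.φ g C.p₀ ∈ C.lb := by
  constructor
  · intro h
    have h' : C.ψ g C.lb = C.lb := h
    rw [← h', ← C.inc]; exact C.plb
  · intro h
    have h1 : C.φ g C.p₀ ∉ C.l₀ := by rw [C.m0iff]; exact C.p00
    refine eql (p := C.φ g C.p₀) (q := C.b) ?_ ((C.inc _ _ _).mp C.plb) h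
      ((C.biff _ _).mpr C.blb) C.blb
    intro h2; apply h1; rw [h2]; exact C.hb0

theorem AB1 (g : G) (hA : g ∈ C.A) (hB : g ∈ C.B) : g = 1 := by
  rw [C.memA] at hA
  rw [C.memB] at hB
  have : C.φ g C.p₀ = C.p₀ := eqp C.lab hA hB C.pla C.plb
  apply C.regp
  rw [this, C.φone]

theorem ncard_line (l : L) : Set.ncard {p : P | p ∈ l} = ProjectivePlane.order P L + 1 := by
  rw [← ProjectivePlane.pointCount_eq P l]
  rfl

theorem cardA : Nat.card C.A = ProjectivePlane.order P L := by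
  have h1 : (fun g => C.φ g C.p₀) '' (C.A : Set G) = {p : P | p ∈ C.la} \ {C.a} := by
    ext p
    simp only [Set.mem_image, SetLike.mem_coe, Set.mem_diff, Set.mem_setOf_eq,
      Set.mem_singleton_iff]
    constructor
    · rintro ⟨g, hg, rfl⟩
      refine ⟨(C.memA g).mp hg, ?_⟩
      intro h
      have h1 : C.φ g C.p₀ ∉ C.l₀ := by rw [C.m0iff]; exact C.p00
      apply h1; rw [h]; exact C.ha0
    · rintro ⟨hp, hpa⟩
      obtain ⟨g, rfl⟩ := C.trans p (fun h => hpa (eqp C.la0 hp h C.ala C.ha0))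
        (fun h => hpa (eqp C.la1 hp h C.ala C.ha1))
      exact ⟨g, (C.memA g).mpr hp, rfl⟩
  have h2 : ((fun g => C.φ g C.p₀) '' (C.A : Set G)).ncard = (C.A : Set G).ncard :=
    Set.ncard_image_of_injective _ (fun g h hgh => C.regp hgh)
  rw [h1, Set.ncard_diff_singleton_of_mem (show C.a ∈ {p : P | p ∈ C.la} from C.ala),
    ncard_line] at h2
  rw [← SetLike.coe_sort_coe, Nat.card_coe_set_eq, ← h2]
  simp

theorem cardB : Nat.card C.B + 1 = ProjectivePlane.order P L := by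
  have hbQ : C.Q₁ ≠ C.b := by
    intro h; apply C.hb1; rw [← h]; exact C.Q11
  have h1 : (fun g => C.φ g C.p₀) '' (C.B : Set G) = ({p : P | p ∈ C.lb} \ {C.b}) \ {C.Q₁} := by
    ext p
    simp only [Set.mem_image, SetLike.mem_coe, Set.mem_diff, Set.mem_setOf_eq,
      Set.mem_singleton_iff]
    constructor
    · rintro ⟨g, hg, rfl⟩
      refine ⟨⟨(C.memB g).mp hg, ?_⟩, ?_⟩
      · intro h
        have h1 : C.φ g C.p₀ ∉ C.l₀ := by rw [C.m0iff]; exact C.p00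
        apply h1; rw [h]; exact C.hb0
      · intro h
        have h1 : C.φ g C.p₀ ∉ C.l₁ := by rw [C.m1iff]; exact C.p01
        apply h1; rw [h]; exact C.Q11
    · rintro ⟨⟨hp, hpa⟩, hpQ⟩
      obtain ⟨g, rfl⟩ := C.trans p (fun h => hpa (eqp C.lb0 hp h C.blb C.hb0))
        (fun h => hpQ (eqp C.lb1 hp h C.Q1b C.Q11))
      exact ⟨g, (C.memB g).mpr hp, rfl⟩
  have h2 : ((fun g => C.φ g C.p₀) '' (C.B : Set G)).ncard = (C.B : Set G).ncard :=
    Set.ncard_image_of_injective _ (fun g h hgh => C.regp hgh)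
  have hn := ProjectivePlane.one_lt_order P L
  rw [h1, Set.ncard_diff_singleton_of_mem (show C.Q₁ ∈ {p : P | p ∈ C.lb} \ {C.b} from
      ⟨C.Q1b, hbQ⟩),
    Set.ncard_diff_singleton_of_mem (show C.b ∈ {p : P | p ∈ C.lb} from C.blb),
    ncard_line] at h2
  rw [← SetLike.coe_sort_coe, Nat.card_coe_set_eq, ← h2]
  omega

theorem mulbij : Function.Bijective (fun q : C.A × C.B => (q.1 : G) * (q.2 : G)) := by
  classical
  rw [Fintype.bijective_iff_injective_and_card]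
  constructor
  · rintro ⟨x, y⟩ ⟨x', y'⟩ h
    simp only at h
    have h1 : (x' : G)⁻¹ * x = y' * (y : G)⁻¹ := by
      rw [inv_mul_eq_iff_eq_mul, ← mul_assoc, eq_mul_inv_iff_mul_eq]; exact h
    have h2 : (x' : G)⁻¹ * x = 1 := by
      apply C.AB1
      · exact C.A.mul_mem (C.A.inv_mem x'.2) x.2
      · rw [h1]; exact C.B.mul_mem y'.2 (C.B.inv_mem y.2)
    have h3 := h2
    rw [h1] at h3
    ext
    · exact (inv_mul_eq_one.mp h2).symm
    · exact (mul_inv_eq_one.mp h3).symm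
  · rw [Fintype.card_prod, C.card, ← Nat.card_eq_fintype_card, ← Nat.card_eq_fintype_card, C.cardA]
    have := C.cardB
    congr 1
    omega

theorem decomp (g : G) : ∃ x ∈ C.A, ∃ y ∈ C.B, x * y = g := by
  obtain ⟨⟨x, y⟩, h⟩ := C.mulbij.2 g
  exact ⟨x, x.2, y, y.2, h⟩

end Cfg
end Pool.Agent.Helper801.TF
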