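import Pool.Agent.Helper801.TFE
set_option autoImplicit false
namespace Pool.Agent.Helper801.TF
open Finset Configuration

namespace Cfg
variable {P L : Type} [Fintype P] [Fintype L] [Membership P L] [ProjectivePlane P L]
    {G : Type} [CommGroup G] [Fintype G] (C : Cfg P L G)

theorem inA {x y : G} (hx : x ∈ C.A) : C.φ (x * y) C.p₀ ∈ C.ψ y C.la := by
  rw [mul_comm, C.φmul, ← C.inc]
  exact (C.memA x).mp hx

theorem inB {x y : G} (hy : y ∈ C.B) : C.φ (x * y) C.p₀ ∈ C.ψ x C.lb := by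
  rw [C.φmul, ← C.inc]
  exact (C.memB y).mp hy

theorem inc' (g : G) (p : P) (l : L) : p ∈ C.ψ g l ↔ C.φ g⁻¹ p ∈ l := by
  rw [C.inc g⁻¹ p, ← C.ψmul, inv_mul_cancel, C.ψone]

theorem ψla_ne0 (y : G) : C.ψ y C.la ≠ C.l₀ := by
  intro h
  apply C.la0
  rw [← C.f0 y] at h
  exact (C.ψ y).injective h

theorem ψla_ne1 (y : G) : C.ψ y C.la ≠ C.l₁ := by
  intro h
  apply C.la1
  rw [← C.f1 y] at h
  exact (C.ψ y).injective h

theorem ψlb_ne0 (y : G) : C.ψ y C.lb ≠ C.l₀ := by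
  intro h
  apply C.lb0
  rw [← C.f0 y] at h
  exact (C.ψ y).injective h

theorem ψlb_ne1 (y : G) : C.ψ y C.lb ≠ C.l₁ := by
  intro h
  apply C.lb1
  rw [← C.f1 y] at h
  exact (C.ψ y).injective h

theorem in_la_iff {x y y' : G} (hx : x ∈ C.A) (hy : y ∈ C.B) (hy' : y' ∈ C.B) :
    C.φ (x * y) C.p₀ ∈ C.ψ y' C.la ↔ y = y' := by
  constructor
  · intro h
    rw [C.inc', ← C.φmul, ← C.memA] at h
    have h1 : y'⁻¹ * y ∈ C.A := by
      have h2 := C.A.mul_mem (C.A.inv_mem hx) h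
      have h3 : x⁻¹ * (y'⁻¹ * (x * y)) = y'⁻¹ * y := by
        rw [mul_left_comm, inv_mul_cancel_left]
      rwa [h3] at h2
    have h2 : y'⁻¹ * y ∈ C.B := C.B.mul_mem (C.B.inv_mem hy') hy
    exact (inv_mul_eq_one.mp (C.AB1 _ h1 h2)).symm
  · rintro rfl; exact C.inA hx

theorem in_lb_iff {x y x' : G} (hx : x ∈ C.A) (hy : y ∈ C.B) (hx' : x' ∈ C.A) :
    C.φ (x * y) C.p₀ ∈ C.ψ x' C.lb ↔ x = x' := by
  constructor
  · intro h
    rw [C.inc', ← C.φmul, ← C.memB] at h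
    have h1 : x'⁻¹ * x ∈ C.B := by
      have h2 := C.B.mul_mem h (C.B.inv_mem hy)
      have h3 : x'⁻¹ * (x * y) * y⁻¹ = x'⁻¹ * x := by
        rw [mul_assoc, mul_assoc, mul_inv_cancel, mul_one]
      rwa [h3] at h2
    have h2 : x'⁻¹ * x ∈ C.A := C.A.mul_mem (C.A.inv_mem hx') hx
    exact (inv_mul_eq_one.mp (C.AB1 _ h2 h1)).symm
  · rintro rfl; exact C.inB hy

theorem exf (y : C.B) : ∃ x : C.A, C.φ ((x : G) * y) C.p₀ ∈ C.m₀ := by
  have hne : C.ψ y C.la ≠ C.m₀ := by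
    intro h; apply C.am; rw [← h, C.aiff]; exact C.ala
  obtain ⟨q1, q2⟩ := HasPoints.mkPoint_ax (P := P) hne
  set q : P := HasPoints.mkPoint hne with hq
  have ha : C.a ∈ C.ψ y C.la := (C.aiff _ _).mpr C.ala
  have hqa : q ≠ C.a := by
    intro h; apply C.am; rw [← h]; exact q2
  obtain ⟨g, hg⟩ := C.trans q (fun h => hqa (eqp (C.ψla_ne0 y) q1 h ha C.ha0))
    (fun h => hqa (eqp (C.ψla_ne1 y) q1 h ha C.ha1))
  obtain ⟨x, hx, y', hy', rfl⟩ := C.decomp g
  rw [← hg, C.in_la_iff hx hy' y.2] at q1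
  subst q1
  refine ⟨⟨x, hx⟩, ?_⟩
  rw [← hg] at q2
  exact q2

/-- the function whose graph is the difference set -/
noncomputable def f (y : C.B) : C.A := Classical.choose (C.exf y)

theorem f_spec (y : C.B) : C.φ ((C.f y : G) * y) C.p₀ ∈ C.m₀ := Classical.choose_spec (C.exf y)

theorem D_iff (x : C.A) (y : C.B) : C.φ ((x : G) * y) C.p₀ ∈ C.m₀ ↔ x = C.f y := by
  constructor
  · intro h
    have hne : C.ψ y C.la ≠ C.m₀ := by
      intro h; apply C.am; rw [← h, C.aiff]; exact C.ala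
    have h1 := C.regp (eqp hne (C.inA x.2) h (C.inA (C.f y).2) (C.f_spec y))
    exact Subtype.ext (mul_right_cancel h1)
  · rintro rfl; exact C.f_spec y

theorem two {g₁ g₂ h : G} (hh : h ≠ 1) (h1 : C.φ g₁ C.p₀ ∈ C.m₀) (h2 : C.φ g₂ C.p₀ ∈ C.m₀)
    (h3 : C.φ (h * g₁) C.p₀ ∈ C.m₀) (h4 : C.φ (h * g₂) C.p₀ ∈ C.m₀) : g₁ = g₂ := by
  have hne : C.m₀ ≠ C.ψ h⁻¹ C.m₀ := by
    intro hm
    have h5 : C.ψ 1 C.m₀ = C.ψ h⁻¹ C.m₀ := by rw [C.ψone]; exact hm
    have := C.regm h5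
    exact hh (inv_eq_one.mp this.symm)
  apply C.regp
  refine eqp hne h1 ?_ h2 ?_
  · rw [C.inc', inv_inv, ← C.φmul]; exact h3
  · rw [C.inc', inv_inv, ← C.φmul]; exact h4

theorem f_ne_one (y : C.B) : C.f y ≠ 1 := by
  intro h
  have h1 := C.f_spec y
  rw [h] at h1
  simp only [Subgroup.coe_one, one_mul] at h1
  have h2 : C.φ y C.p₀ = C.Q₁ := eqp C.mlb ((C.memB y).mp y.2) h1 C.Q1b C.Q1m
  have h3 : C.φ y C.p₀ ∉ C.l₁ := by rw [C.m1iff]; exact C.p01
  apply h3; rw [h2]; exact C.Q11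

theorem f_inj : Function.Injective C.f := by
  intro y y' h
  have h1 := C.f_spec y
  have h2 := C.f_spec y'
  rw [← h] at h2
  have hne : C.ψ (C.f y) C.lb ≠ C.m₀ := by
    intro h; apply C.bm; rw [← h, C.biff]; exact C.blb
  have h3 := C.regp (eqp hne (C.inB y.2) h1 (C.inB y'.2) h2)
  exact Subtype.ext (mul_left_cancel h3)

theorem f_diff (c : C.B) (hc : c ≠ 1) :
    Function.Injective (fun y => C.f (y * c) / C.f y) := by
  intro y y' h
  simp only at h
  set x : C.A := C.f (y * c) / C.f y with hx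
  have hx1 : C.f (y * c) = x * C.f y := by rw [hx]; simp
  have hx2 : C.f (y' * c) = x * C.f y' := by rw [h]; simp
  have h1 := C.f_spec (y * c)
  have h2 := C.f_spec (y' * c)
  rw [hx1] at h1
  rw [hx2] at h2
  have hne : (x : G) * c ≠ 1 := by
    intro h3
    apply hc
    have h4 : (x : G) = (c : G)⁻¹ := eq_inv_of_mul_eq_one_left h3
    have h5 : (x : G) = 1 := C.AB1 _ x.2 (by rw [h4]; exact C.B.inv_mem c.2)
    rw [h5, one_mul] at h3
    exact Subtype.ext h3
  have h3 := C.two hne (C.f_spec y) (C.f_spec y') (by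
    have : (x : G) * c * (C.f y * y) = ((x * C.f y : C.A) : G) * ((y * c : C.B) : G) := by
      push_cast
      rw [mul_comm (y : G) c]
      exact mul_mul_mul_comm _ _ _ _
    rw [this]; exact h1) (by
    have : (x : G) * c * (C.f y' * y') = ((x * C.f y' : C.A) : G) * ((y' * c : C.B) : G) := by
      push_cast
      rw [mul_comm (y' : G) c]
      exact mul_mul_mul_comm _ _ _ _
    rw [this]; exact h2)
  have h4 := @C.mulbij.1 (C.f y, y) (C.f y', y') h3
  exact congrArg Prod.snd h4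

theorem exists_field : ∃ (K : Type) (_ : Field K) (_ : Fintype K) (av : C.A → K) (bv : C.B → K),
    Fintype.card K = ProjectivePlane.order P L ∧
    Function.Injective av ∧ Function.Injective bv ∧
    (∀ x x', av (x * x') = av x + av x') ∧ (∀ y y', bv (y * y') = bv y * bv y') ∧
    (∀ y, bv y ≠ 0) ∧
    (∀ (x : C.A) (y : C.B), C.φ ((x : G) * y) C.p₀ ∈ C.m₀ ↔ av x = bv y) := by
  classical
  let f' : Additive C.B → Additive C.A := fun y => Additive.ofMul (C.f (Additive.toMul y))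
  have hcard : Fintype.card (Additive C.A) = Fintype.card (Additive C.B) + 1 := by
    have h1 := C.cardA
    have h2 := C.cardB
    rw [← h1] at h2
    rw [← Nat.card_eq_fintype_card, ← Nat.card_eq_fintype_card]
    exact h2.symm
  obtain ⟨K, iF, iK, α, hα⟩ := fieldOf f' hcard
    (fun y y' h => C.f_inj h) (fun y h => C.f_ne_one (Additive.toMul y) h)
    (fun c hc => C.f_diff (Additive.toMul c) hc)
  refine ⟨K, iF, iK, fun x => α (Additive.ofMul x), fun y => α (Additive.ofMul (C.f y)),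
    ?_, ?_, ?_, ?_, ?_, ?_, ?_⟩
  · rw [← Fintype.card_congr α.toEquiv, ← C.cardA, ← Nat.card_eq_fintype_card]
    rfl
  · intro x x' h; exact α.injective h
  · intro y y' h; exact C.f_inj (α.injective h)
  · intro x x'; exact map_add α _ _
  · intro y y'; exact hα (Additive.ofMul y) (Additive.ofMul y')
  · intro y h
    apply C.f_ne_one y
    have := (AddEquiv.map_eq_zero_iff α).mp h
    exact this
  · intro x y
    rw [C.D_iff]
    constructor
    · rintro rfl; rfl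
    · intro h; exact α.injective h

end Cfg
end Pool.Agent.Helper801.TF
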