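import Pool.Agent.Helper801.TFF
set_option autoImplicit false
namespace Pool.Agent.Helper801.TF
open Finset Configuration

/-- parameters for points and for lines -/
abbrev T (A B : Type) := (A × B) ⊕ (A ⊕ (B ⊕ (Unit ⊕ Unit)))

namespace Cfg
variable {P L : Type} [Fintype P] [Fintype L] [Membership P L] [ProjectivePlane P L]
    {G : Type} [CommGroup G] [Fintype G] (C : Cfg P L G)

theorem Q1b' : C.Q₁ ≠ C.b := by
  intro h; apply C.hb1; rw [← h]; exact C.Q11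

theorem Q1_fix_iff (g : G) : C.φ g C.Q₁ = C.Q₁ ↔ g ∈ C.B := by
  constructor
  · intro h
    refine eql (p := C.Q₁) (q := C.b) C.Q1b' ?_ C.Q1b ((C.biff _ _).mpr C.blb) C.blb
    rw [C.inc', ← h, ← C.φmul, inv_mul_cancel, C.φone]; exact C.Q1b
  · intro h
    have h' : C.ψ g C.lb = C.lb := h
    refine eqp C.lb1 ?_ ((C.m1iff _ _).mpr C.Q11) C.Q1b C.Q11
    rw [← h', ← C.inc]; exact C.Q1b

theorem Q1m_iff (g : G) : C.φ g C.Q₁ ∈ C.m₀ ↔ g ∈ C.B := by
  rw [← C.Q1_fix_iff]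
  constructor
  · intro h
    exact eqp C.ml1 ((C.m1iff _ _).mpr C.Q11) h C.Q11 C.Q1m
  · intro h; rw [h]; exact C.Q1m

theorem Q1lb_iff (g : G) : C.φ g C.Q₁ ∈ C.lb ↔ g ∈ C.B := by
  rw [← C.Q1_fix_iff]
  constructor
  · intro h
    exact eqp C.lb1 h ((C.m1iff _ _).mpr C.Q11) C.Q1b C.Q11
  · intro h; rw [h]; exact C.Q1b

theorem Q1la (g : G) : C.φ g C.Q₁ ∉ C.la := by
  intro h
  have h1 : C.φ g C.Q₁ = C.a := eqp C.la1 h ((C.m1iff _ _).mpr C.Q11) C.ala C.ha1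
  have h2 : C.φ g C.Q₁ = C.φ g C.a := by rw [h1, C.fa]
  exact C.Q1a ((C.φ g).injective h2)

theorem Q0la (g : G) : C.φ g C.Q₀ ∉ C.la := by
  intro h
  have h1 : C.φ g C.Q₀ = C.a := eqp C.la0 h ((C.m0iff _ _).mpr C.Q00) C.ala C.ha0
  have h2 : C.φ g C.Q₀ = C.φ g C.a := by rw [h1, C.fa]
  exact C.Q0a ((C.φ g).injective h2)

theorem Q0lb (g : G) : C.φ g C.Q₀ ∉ C.lb := by
  intro h
  have h1 : C.φ g C.Q₀ = C.b := eqp C.lb0 h ((C.m0iff _ _).mpr C.Q00) C.blb C.hb0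
  have h2 : C.φ g C.Q₀ = C.φ g C.b := by rw [h1, C.fb]
  exact C.Q0b ((C.φ g).injective h2)

theorem Q0_fix {x : G} (hx : x ∈ C.A) : C.φ x C.Q₀ = C.Q₀ := by
  by_cases hx1 : x = 1
  · rw [hx1, C.φone]
  · have hne : C.ψ x C.m₀ ≠ C.m₀ := by
      intro h
      apply hx1
      apply C.regm
      rw [h, C.ψone]
    obtain ⟨r1, r2⟩ := HasPoints.mkPoint_ax (P := P) hne
    set r : P := HasPoints.mkPoint hne with hr
    have hr0 : r ∈ C.l₀ := by
      by_contra hr0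
      by_cases hr1 : r ∈ C.l₁
      · have hrQ : r = C.Q₁ := eqp C.ml1 hr1 r2 C.Q11 C.Q1m
        rw [hrQ, C.inc', C.Q1m_iff] at r1
        have h1 := C.AB1 _ (C.A.inv_mem hx) r1
        exact hx1 (inv_eq_one.mp h1)
      · obtain ⟨g, hg⟩ := C.trans r hr0 hr1
        obtain ⟨x', hx', y', hy', rfl⟩ := C.decomp g
        rw [← hg] at r1 r2
        rw [C.inc', ← C.φmul, ← mul_assoc] at r1
        have h1 := (C.D_iff ⟨x', hx'⟩ ⟨y', hy'⟩).mp r2
        have h2 := (C.D_iff ⟨x⁻¹ * x', C.A.mul_mem (C.A.inv_mem hx) hx'⟩ ⟨y', hy'⟩).mp r1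
        rw [← h1] at h2
        have h3 : x⁻¹ * x' = x' := congrArg Subtype.val h2
        exact hx1 (inv_eq_one.mp (mul_eq_right.mp h3))
    have hrQ : r = C.Q₀ := eqp C.ml0 hr0 r2 C.Q00 C.Q0m
    have hne0 : C.l₀ ≠ C.ψ x C.m₀ := by
      apply ne_of_mem_of_notMem_line C.ha0
      rw [C.aiff]; exact C.am
    have h1 : C.φ x C.Q₀ = r :=
      eqp hne0 ((C.m0iff _ _).mpr C.Q00) ((C.inc _ _ _).mp C.Q0m) hr0 r1
    rw [h1, hrQ]

theorem Q0_free {y : G} (hy : y ∈ C.B) (h : C.φ y C.Q₀ = C.Q₀) : y = 1 := by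
  by_contra hy1
  have hne : C.m₀ ≠ C.ψ y C.m₀ := by
    intro h
    apply hy1
    apply C.regm
    rw [← h, C.ψone]
  have h1 : C.Q₀ = C.Q₁ := by
    refine eqp hne C.Q0m ?_ C.Q1m ?_
    · rw [← h, ← C.inc]; exact C.Q0m
    · rw [← (C.Q1_fix_iff y).mpr hy, ← C.inc]; exact C.Q1m
  apply C.Q10
  rw [← h1]; exact C.Q00

theorem Q0m_iff (g : G) : C.φ g C.Q₀ ∈ C.m₀ ↔ g ∈ C.A := by
  constructor
  · intro h
    have h1 : C.φ g C.Q₀ = C.Q₀ := eqp C.ml0 ((C.m0iff _ _).mpr C.Q00) h C.Q00 C.Q0m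
    obtain ⟨x, hx, y, hy, rfl⟩ := C.decomp g
    rw [mul_comm, C.φmul, C.Q0_fix hx] at h1
    rw [C.Q0_free hy h1, mul_one]; exact hx
  · intro h; rw [C.Q0_fix h]; exact C.Q0m

/-- points from parameters -/
def pt : T C.A C.B → P
  | .inl (x, y) => C.φ ((x : G) * y) C.p₀
  | .inr (.inl x) => C.φ x C.Q₁
  | .inr (.inr (.inl y)) => C.φ y C.Q₀
  | .inr (.inr (.inr (.inl _))) => C.a
  | .inr (.inr (.inr (.inr _))) => C.b

/-- lines from parameters -/
def ln : T C.A C.B → L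
  | .inl (x, y) => C.ψ ((x : G) * y) C.m₀
  | .inr (.inl x) => C.ψ x C.lb
  | .inr (.inr (.inl y)) => C.ψ y C.la
  | .inr (.inr (.inr (.inl _))) => C.l₀
  | .inr (.inr (.inr (.inr _))) => C.l₁

end Cfg

section coords
variable {K : Type} [Field K] {A B : Type}

def vp (av : A → K) (bv : B → K) : T A B → (Fin 3 → K)
  | .inl (x, y) => ![bv y, av x, 1]
  | .inr (.inl x) => ![0, av x, 1]
  | .inr (.inr (.inl y)) => ![bv y, 1, 0]
  | .inr (.inr (.inr (.inl _))) => ![0, 1, 0]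
  | .inr (.inr (.inr (.inr _))) => ![1, 0, 0]

def vl (av : A → K) (bv : B → K) : T A B → (Fin 3 → K)
  | .inl (x, y) => ![(bv y)⁻¹, -1, av x]
  | .inr (.inl x) => ![0, 1, - av x]
  | .inr (.inr (.inl y)) => ![1, 0, - bv y]
  | .inr (.inr (.inr (.inl _))) => ![0, 0, 1]
  | .inr (.inr (.inr (.inr _))) => ![1, 0, 0]

theorem vp_ne (av : A → K) (bv : B → K) (t : T A B) : vp av bv t ≠ 0 := by
  intro h
  rcases t with ⟨x, y⟩ | x | y | _ | _
  · have := congrFun h 2; simp [vp] at this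
  · have := congrFun h 2; simp [vp] at this
  · have := congrFun h 1; simp [vp] at this
  · have := congrFun h 1; simp [vp] at this
  · have := congrFun h 0; simp [vp] at this

theorem vl_ne (av : A → K) (bv : B → K) (t : T A B) : vl av bv t ≠ 0 := by
  intro h
  rcases t with ⟨x, y⟩ | x | y | _ | _
  · have := congrFun h 1; simp [vl] at this
  · have := congrFun h 1; simp [vl] at this
  · have := congrFun h 0; simp [vl] at this
  · have := congrFun h 2; simp [vl] at this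
  · have := congrFun h 0; simp [vl] at this

end coords

end Pool.Agent.Helper801.TF
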