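import Pool.Agent.Helper801.TFG
set_option autoImplicit false
namespace Pool.Agent.Helper801.TF
open Finset Configuration

section sep
variable {K : Type} [Field K] {A B : Type} [Group A] [Group B] (av : A → K) (bv : B → K)

/-- incidence of parameters -/
def J (s t : T A B) : Prop := dotProduct (vp av bv s) (vl av bv t) = 0

theorem sepP (ha : Function.Injective av) (hb : Function.Injective bv) (hb0 : ∀ y, bv y ≠ 0)
    (s t : T A B) (h : ∀ r, J av bv s r ↔ J av bv t r) : s = t := by
  have h0 := h (.inr (.inr (.inr (.inl ()))))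
  have h1 := h (.inr (.inr (.inr (.inr ()))))
  have h2 := h (.inr (.inl 1))
  rcases s with ⟨x, y⟩ | x | y | u | u <;> rcases t with ⟨x', y'⟩ | x' | y' | u' | u' <;>
    simp [J, vp, vl, dotProduct, Fin.sum_univ_three, hb0] at h0 h1 h2 <;> try trivial
  · have h3 := h (.inr (.inl x))
    have h4 := h (.inr (.inr (.inl y)))
    simp [J, vp, vl, dotProduct, Fin.sum_univ_three] at h3 h4
    have h5 : av x' = av x := by linear_combination h3
    have h6 : bv y' = bv y := by linear_combination h4
    rw [ha h5, hb h6]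
  · have h3 := h (.inr (.inl x))
    simp [J, vp, vl, dotProduct, Fin.sum_univ_three] at h3
    have h5 : av x' = av x := by linear_combination h3
    rw [ha h5]
  · have h3 := h (.inl (1, y))
    simp [J, vp, vl, dotProduct, Fin.sum_univ_three, hb0] at h3
    have h5 : bv y' = bv y := by
      have h6 : bv y' * (bv y)⁻¹ = 1 := by linear_combination h3
      have := hb0 y
      field_simp at h6
      exact h6
    rw [hb h5]

theorem sepL (ha : Function.Injective av) (hb : Function.Injective bv) (hb0 : ∀ y, bv y ≠ 0)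
    (s t : T A B) (h : ∀ r, J av bv r s ↔ J av bv r t) : s = t := by
  have h0 := h (.inr (.inr (.inr (.inl ()))))
  have h1 := h (.inr (.inr (.inr (.inr ()))))
  have h2 := h (.inr (.inl 1))
  rcases s with ⟨x, y⟩ | x | y | u | u <;> rcases t with ⟨x', y'⟩ | x' | y' | u' | u' <;>
    simp [J, vp, vl, dotProduct, Fin.sum_univ_three, hb0] at h0 h1 h2 <;> try trivial
  · have h3 := h (.inr (.inl x))
    have h4 := h (.inr (.inr (.inl y)))
    simp [J, vp, vl, dotProduct, Fin.sum_univ_three, hb0] at h3 h4
    have h5 : av x' = av x := by linear_combination h3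
    have h6 : bv y = bv y' := by
      have h6 : bv y * (bv y')⁻¹ = 1 := by linear_combination h4
      have := hb0 y'
      field_simp at h6
      exact h6
    rw [ha h5, hb h6]
  · have h3 := h (.inr (.inl x))
    simp [J, vp, vl, dotProduct, Fin.sum_univ_three] at h3
    have h5 : av x' = av x := by linear_combination -h3
    rw [ha h5]
  · have h3 := h (.inl (1, y))
    simp [J, vp, vl, dotProduct, Fin.sum_univ_three, hb0] at h3
    have h5 : bv y' = bv y := by linear_combination -h3
    rw [hb h5]

end sep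

namespace Cfg
variable {P L : Type} [Fintype P] [Fintype L] [Membership P L] [ProjectivePlane P L]
    {G : Type} [CommGroup G] [Fintype G] (C : Cfg P L G)

theorem memB_iff (x x' : C.A) (y' : C.B) : ((x' : G) * y')⁻¹ * x ∈ C.B ↔ x = x' := by
  constructor
  · intro h
    have h1 := C.B.mul_mem y'.2 h
    have h2 : (y' : G) * (((x' : G) * y')⁻¹ * x) = (x' : G)⁻¹ * x := by
      rw [mul_inv, ← mul_assoc, mul_comm (x' : G)⁻¹, ← mul_assoc, mul_inv_cancel, one_mul]
    rw [h2] at h1
    have h3 := C.AB1 _ (C.A.mul_mem (C.A.inv_mem x'.2) x.2) h1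
    exact Subtype.ext (inv_mul_eq_one.mp h3).symm
  · rintro rfl
    have h2 : ((x : G) * y')⁻¹ * x = (y' : G)⁻¹ := by
      rw [mul_inv, mul_comm (x : G)⁻¹, mul_assoc, inv_mul_cancel, mul_one]
    rw [h2]; exact C.B.inv_mem y'.2

theorem memA_iff (y y' : C.B) (x' : C.A) : ((x' : G) * y')⁻¹ * y ∈ C.A ↔ y = y' := by
  constructor
  · intro h
    have h1 := C.A.mul_mem x'.2 h
    have h2 : (x' : G) * (((x' : G) * y')⁻¹ * y) = (y' : G)⁻¹ * y := by
      rw [mul_inv, ← mul_assoc, ← mul_assoc, mul_inv_cancel, one_mul]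
    rw [h2] at h1
    have h3 := C.AB1 _ h1 (C.B.mul_mem (C.B.inv_mem y'.2) y.2)
    exact Subtype.ext (inv_mul_eq_one.mp h3).symm
  · rintro rfl
    have h2 : ((x' : G) * y)⁻¹ * y = (x' : G)⁻¹ := by
      rw [mul_inv, mul_assoc, inv_mul_cancel, mul_one]
    rw [h2]; exact C.A.inv_mem x'.2

theorem memB_iff' (x x' : C.A) : (x' : G)⁻¹ * x ∈ C.B ↔ x = x' := by
  have := C.memB_iff x x' 1
  simpa using this

theorem incidence {K : Type} [Field K] (av : C.A → K) (bv : C.B → K)
    (ha : Function.Injective av) (hb : Function.Injective bv)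
    (hadd : ∀ x x', av (x * x') = av x + av x') (hmul : ∀ y y', bv (y * y') = bv y * bv y')
    (hb0 : ∀ y, bv y ≠ 0)
    (hD : ∀ (x : C.A) (y : C.B), C.φ ((x : G) * y) C.p₀ ∈ C.m₀ ↔ av x = bv y)
    (s t : T C.A C.B) : C.pt s ∈ C.ln t ↔ J av bv s t := by
  have hinv : ∀ x, av x⁻¹ = - av x := by
    intro x
    have h1 := hadd 1 1
    rw [mul_one, left_eq_add] at h1
    have h2 := hadd x x⁻¹
    rw [mul_inv_cancel, h1] at h2
    exact (neg_eq_of_add_eq_zero_right h2.symm).symm
  have hbinv : ∀ y, bv y⁻¹ = (bv y)⁻¹ := by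
    intro y
    have h1 := hmul 1 1
    rw [mul_one] at h1
    have h1' : bv 1 = 1 := by
      have := hb0 1
      field_simp at h1
      exact h1.symm
    have h2 := hmul y y⁻¹
    rw [mul_inv_cancel, h1'] at h2
    exact eq_inv_of_mul_eq_one_right h2.symm
  rcases s with ⟨x, y⟩ | x | y | u | u <;> rcases t with ⟨x', y'⟩ | x' | y' | u' | u' <;>
    simp only [J, vp, vl, dotProduct, Fin.sum_univ_three, Cfg.pt, Cfg.ln, Matrix.cons_val_zero,
      Matrix.cons_val_one, Matrix.cons_val] <;>
    simp only [mul_zero, zero_mul, mul_one, one_mul, add_zero, zero_add, mul_neg, neg_mul]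
  -- point off
  · rw [C.inc', ← C.φmul]
    have h1 : ((x' : G) * y')⁻¹ * (x * y) = ((x'⁻¹ * x : C.A) : G) * ((y'⁻¹ * y : C.B) : G) := by
      push_cast
      rw [mul_inv]
      exact mul_mul_mul_comm _ _ _ _
    rw [h1, hD, hadd, hmul, hinv, hbinv]
    constructor
    · intro h; linear_combination -h
    · intro h; linear_combination -h
  · rw [C.in_lb_iff x.2 y.2 x'.2]
    constructor
    · intro h; rw [Subtype.ext h]; ring
    · intro h; rw [ha (show av x = av x' by linear_combination h)]
  · rw [C.in_la_iff x.2 y.2 y'.2]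
    constructor
    · intro h; rw [Subtype.ext h]; ring
    · intro h; rw [hb (show bv y = bv y' by linear_combination h)]
  · rw [C.m0iff]; simp [C.p00]
  · rw [C.m1iff]; simp [C.p01, hb0]
  -- point on l₁
  · rw [C.inc', ← C.φmul, C.Q1m_iff, C.memB_iff]
    constructor
    · rintro rfl; ring
    · intro h; exact ha (by linear_combination -h)
  · rw [C.inc', ← C.φmul, C.Q1lb_iff, C.memB_iff']
    constructor
    · rintro rfl; ring
    · intro h; exact ha (by linear_combination h)
  · rw [C.inc', ← C.φmul]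
    exact iff_of_false (C.Q1la _) (by simp [hb0])
  · rw [C.m0iff]; simp [C.Q10]
  · rw [C.m1iff]; simp [C.Q11]
  -- point on l₀
  · rw [C.inc', ← C.φmul, C.Q0m_iff, C.memA_iff]
    constructor
    · rintro rfl
      have := hb0 y
      field_simp
      ring
    · intro h
      apply hb
      have h6 : bv y * (bv y')⁻¹ = 1 := by linear_combination h
      have := hb0 y'
      field_simp at h6
      exact h6
  · rw [C.inc', ← C.φmul]
    exact iff_of_false (C.Q0lb _) (by simp)
  · rw [C.inc', ← C.φmul]
    exact iff_of_false (C.Q0la _) (by simp [hb0])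
  · rw [C.m0iff]; simp [C.Q00]
  · rw [C.m1iff]; simp [C.Q01, hb0]
  -- a
  · rw [C.aiff]; simp [C.am]
  · rw [C.aiff]; simp [C.alb]
  · rw [C.aiff]; simp [C.ala]
  · simp [C.ha0]
  · simp [C.ha1]
  -- b
  · rw [C.biff]; simp [C.bm, hb0]
  · rw [C.biff]; simp [C.blb]
  · rw [C.biff]; simp [C.bla]
  · simp [C.hb0]
  · simp [C.hb1]

theorem cardT (K : Type) [Fintype K] (hK : Fintype.card K = ProjectivePlane.order P L) :
    Nat.card (T C.A C.B) = ProjectivePlane.order P L ^ 2 + ProjectivePlane.order P L + 1 := by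
  classical
  rw [Nat.card_eq_fintype_card]
  simp only [Fintype.card_sum, Fintype.card_prod, Fintype.card_unit]
  rw [← Nat.card_eq_fintype_card, ← Nat.card_eq_fintype_card, C.cardA]
  have h := C.cardB
  rw [← h]
  ring

theorem cardProj (K : Type) [Field K] [Fintype K] :
    Nat.card (Projectivization K (Fin 3 → K)) = Fintype.card K ^ 2 + Fintype.card K + 1 := by
  rw [Projectivization.card_of_finrank K (Fin 3 → K) (n := 3) (by simp)]
  rw [Nat.card_eq_fintype_card]
  simp [Finset.sum_range_succ]
  ring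

theorem rep_dot {K : Type} [Field K] (v w : Fin 3 → K) (hv : v ≠ 0) (hw : w ≠ 0) :
    dotProduct (Projectivization.mk K v hv).rep (Projectivization.mk K w hw).rep = 0
      ↔ dotProduct v w = 0 := by
  obtain ⟨c, hc⟩ := Projectivization.exists_smul_eq_mk_rep K v hv
  obtain ⟨d, hd⟩ := Projectivization.exists_smul_eq_mk_rep K w hw
  rw [← hc, ← hd]
  change dotProduct ((c : K) • v) ((d : K) • w) = 0 ↔ _
  rw [smul_dotProduct, dotProduct_smul]
  simp

include C in
theorem main : ∃ (K : Type) (_ : Field K) (_ : Fintype K)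
      (e : P ≃ Projectivization K (Fin 3 → K)) (f : L ≃ Projectivization K (Fin 3 → K)),
      ∀ (p : P) (l : L), p ∈ l ↔ dotProduct (e p).rep (f l).rep = 0 := by
  classical
  obtain ⟨K, iF, iK, av, bv, hK, ha, hb, hadd, hmul, hb0, hD⟩ := C.exists_field
  have hI := C.incidence av bv ha hb hadd hmul hb0 hD
  let mp : T C.A C.B → Projectivization K (Fin 3 → K) := fun t =>
    Projectivization.mk K (vp av bv t) (vp_ne av bv t)
  let ml : T C.A C.B → Projectivization K (Fin 3 → K) := fun t =>
    Projectivization.mk K (vl av bv t) (vl_ne av bv t)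
  have hmm : ∀ s t, dotProduct (mp s).rep (ml t).rep = 0 ↔ J av bv s t := fun s t =>
    rep_dot _ _ _ _
  have hT := C.cardT K hK
  have hPr : Nat.card (Projectivization K (Fin 3 → K)) = Nat.card (T C.A C.B) := by
    rw [cardProj, hT, hK]
  have hP : Nat.card P = Nat.card (T C.A C.B) := by
    rw [Nat.card_eq_fintype_card, ProjectivePlane.card_points P L, hT]
  have hL : Nat.card L = Nat.card (T C.A C.B) := by
    rw [Nat.card_eq_fintype_card, ProjectivePlane.card_lines P L, hT]
  have b1 : Function.Bijective C.pt := by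
    rw [Nat.bijective_iff_injective_and_card]
    refine ⟨?_, hP.symm⟩
    intro s t h
    exact sepP av bv ha hb hb0 s t (fun r => by rw [← hI, ← hI, h])
  have b2 : Function.Bijective C.ln := by
    rw [Nat.bijective_iff_injective_and_card]
    refine ⟨?_, hL.symm⟩
    intro s t h
    exact sepL av bv ha hb hb0 s t (fun r => by rw [← hI, ← hI, h])
  have b3 : Function.Bijective mp := by
    haveI : Finite (Projectivization K (Fin 3 → K)) := by
      apply Nat.finite_of_card_ne_zero
      rw [hPr, hT]; omega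
    rw [Nat.bijective_iff_injective_and_card]
    refine ⟨?_, hPr.symm⟩
    intro s t h
    exact sepP av bv ha hb hb0 s t (fun r => by rw [← hmm, ← hmm, h])
  have b4 : Function.Bijective ml := by
    haveI : Finite (Projectivization K (Fin 3 → K)) := by
      apply Nat.finite_of_card_ne_zero
      rw [hPr, hT]; omega
    rw [Nat.bijective_iff_injective_and_card]
    refine ⟨?_, hPr.symm⟩
    intro s t h
    exact sepL av bv ha hb hb0 s t (fun r => by rw [← hmm, ← hmm, h])
  let e1 := Equiv.ofBijective _ b1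
  let e2 := Equiv.ofBijective _ b2
  let e3 := Equiv.ofBijective _ b3
  let e4 := Equiv.ofBijective _ b4
  refine ⟨K, iF, iK, e1.symm.trans e3, e2.symm.trans e4, ?_⟩
  intro p l
  obtain ⟨s, rfl⟩ := b1.2 p
  obtain ⟨t, rfl⟩ := b2.2 l
  have h1 : (e1.symm.trans e3) (C.pt s) = mp s := by
    have : e1.symm (C.pt s) = s := e1.symm_apply_apply s
    rw [Equiv.trans_apply, this]; rfl
  have h2 : (e2.symm.trans e4) (C.ln t) = ml t := by
    have : e2.symm (C.ln t) = t := e2.symm_apply_apply t
    rw [Equiv.trans_apply, this]; rfl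
  rw [h1, h2, hmm, hI]

end Cfg
end Pool.Agent.Helper801.TF
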